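import Pool.Agent.Lib.MP_62d77c_ag.Base

/-! Chinese remainder theorems up to Frobenius; norms on quotients. -/

set_option autoImplicit false

namespace Pool.Agent.Lib.MP_62d77c_ag

open Filter Polynomial Submodule

noncomputable section

theorem alg_pow {R : Type} [CommRing R] {I : Ideal R} {x y : R} (h : x - y ∈ I) (n : ℕ) :
    x ^ n - y ^ n ∈ I := by
  obtain ⟨c, hc⟩ := sub_dvd_pow_sub_pow x y n
  rw [hc]
  exact I.mul_mem_right c h

theorem alg_frob (p : ℕ) [Fact p.Prime] {R : Type} [CommRing R] {I : Ideal R} (h : (p : R) ∈ I)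
    (x y : R) (r : ℕ) : (x - y) ^ p ^ r - (x ^ p ^ r - y ^ p ^ r) ∈ I := by
  rw [← Ideal.Quotient.eq]
  rcases subsingleton_or_nontrivial (R ⧸ I) with hs | hn
  · exact Subsingleton.elim _ _
  · have : CharP (R ⧸ I) p := (CharP.charP_iff_prime_eq_zero Fact.out).2 (by
      rw [← map_natCast (Ideal.Quotient.mk I), Ideal.Quotient.eq_zero_iff_mem]; exact h)
    simp only [map_pow, map_sub]
    exact sub_pow_char_pow _ _ _

theorem alg_prod {R J : Type} [CommRing R] (I₀ : Ideal R) (I : J → Ideal R) (y : R) (t : Finset J)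
    (h : ∀ j ∈ t, y ∈ I₀ ⊔ I j) : ∃ u ∈ I₀, ∀ j ∈ t, y ^ t.card - u ∈ I j := by
  classical
  induction t using Finset.induction_on with
  | empty => exact ⟨0, zero_mem _, by simp⟩
  | insert i t hi ih =>
    obtain ⟨u, hu, h1⟩ := ih fun j hj => h j (Finset.mem_insert_of_mem hj)
    obtain ⟨b, hb, c, hc, e⟩ := Submodule.mem_sup.1 (h i (Finset.mem_insert_self i t))
    refine ⟨y ^ t.card * b + u * c, add_mem (I₀.mul_mem_left _ hb) (I₀.mul_mem_right _ hu), ?_⟩
    have e' : y ^ (insert i t).card - (y ^ t.card * b + u * c) = (y ^ t.card - u) * c := by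
      rw [Finset.card_insert_of_notMem hi, pow_succ]
      nth_rewrite 2 [← e]
      ring
    intro j hj
    rw [e']
    rcases Finset.mem_insert.1 hj with rfl | hj
    · exact (I j).mul_mem_left _ hc
    · exact (I j).mul_mem_right _ (h1 j hj)

theorem frob_crt (p : ℕ) [Fact p.Prime] {J : Type} (t : Finset J) : ∃ s : ℕ,
    ∀ (R : Type) [CommRing R] (I : J → Ideal R) (a : J → R), (∀ j ∈ t, (p : R) ∈ I j) →
      (∀ j ∈ t, ∀ l ∈ t, a j - a l ∈ I j ⊔ I l) → ∃ x, ∀ j ∈ t, x - a j ^ p ^ s ∈ I j := by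
  classical
  induction t using Finset.induction_on with
  | empty => exact ⟨0, fun R _ I a _ _ => ⟨0, by simp⟩⟩
  | insert i t hi ih =>
    obtain ⟨s, hs⟩ := ih
    refine ⟨s + t.card, fun R _ I a hp ha => ?_⟩
    have mi := Finset.mem_insert_self i t
    obtain ⟨x, hx⟩ := hs R I a (fun j hj => hp j (Finset.mem_insert_of_mem hj))
      fun j hj l hl => ha j (Finset.mem_insert_of_mem hj) l (Finset.mem_insert_of_mem hl)
    obtain ⟨u, hu, h1⟩ := alg_prod (I i) I (x - a i ^ p ^ s) t fun j hj => by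
      have h2 := alg_pow (ha i mi j (Finset.mem_insert_of_mem hj)) (p ^ s)
      have h3 : x - a j ^ p ^ s ∈ I i ⊔ I j := Ideal.mem_sup_right (hx j hj)
      have := sub_mem h3 h2
      rwa [show x - a j ^ p ^ s - (a i ^ p ^ s - a j ^ p ^ s) = x - a i ^ p ^ s by ring] at this
    obtain ⟨c, hc⟩ : ∃ c, p ^ t.card = t.card + c :=
      Nat.exists_eq_add_of_le (Nat.lt_pow_self (Fact.out : p.Prime).one_lt).le
    set y := x - a i ^ p ^ s with hy
    refine ⟨x ^ p ^ t.card - (y ^ t.card - u) * y ^ c, fun j hj => ?_⟩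
    rcases Finset.mem_insert.1 hj with rfl | hj
    · have h2 := alg_frob p (hp j mi) x (a j ^ p ^ s) t.card
      have h3 := sub_mem ((I j).mul_mem_right (y ^ c) hu) h2
      convert h3 using 1
      rw [← hy, pow_add p s, pow_mul, hc]
      ring
    · have h2 := alg_pow (hx j hj) (p ^ t.card)
      have h3 := sub_mem h2 ((I j).mul_mem_right (y ^ c) (h1 j hj))
      convert h3 using 1
      rw [pow_add p s, pow_mul]
      ring

theorem frob_split (p : ℕ) [Fact p.Prime] {J : Type} (t : Finset J) : ∃ s : ℕ,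
    ∀ (R : Type) [CommRing R] [IsLocalRing R] (I : J → Ideal R) (ε : J → J → R),
      (∀ j ∈ t, (p : R) ∈ I j ∧ I j ≠ ⊤) → (∀ j ∈ t, ∀ l ∈ t, IsUnit (ε j l)) →
      (∀ j ∈ t, ∀ l ∈ t, ∀ i ∈ t, ε j l * ε l i - ε j i ∈ I j ⊔ I l ⊔ I i) →
      ∃ lam : J → R, (∀ j ∈ t, IsUnit (lam j)) ∧
        ∀ j ∈ t, ∀ l ∈ t, lam j - ε j l ^ p ^ s * lam l ∈ I j ⊔ I l := by
  classical
  induction t using Finset.induction_on with
  | empty => exact ⟨0, fun R _ _ I ε _ _ _ => ⟨fun _ => 1, by simp, by simp⟩⟩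
  | insert i t hi ih =>
    obtain ⟨s, hs⟩ := ih
    obtain ⟨r, hr⟩ := frob_crt p t
    refine ⟨s + r, fun R _ _ I ε hp hu hc => ?_⟩
    have mi := Finset.mem_insert_self i t
    have m : ∀ {j}, j ∈ t → j ∈ insert i t := fun hj => Finset.mem_insert_of_mem hj
    obtain ⟨lam, l1, l2⟩ := hs R I ε (fun j hj => hp j (m hj)) (fun j hj l hl => hu j (m hj) l (m hl))
      fun j hj l hl k hk => hc j (m hj) l (m hl) k (m hk)
    have one : ∀ j ∈ insert i t, ε j j - 1 ∈ I j := by
      intro j hj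
      have h1 := hc j hj j hj j hj
      rw [sup_idem, sup_idem] at h1
      obtain ⟨v, hv⟩ := (hu j hj j hj).exists_left_inv
      have h2 := (I j).mul_mem_left v h1
      rwa [mul_sub, ← mul_assoc, hv, one_mul] at h2
    obtain ⟨x, hx⟩ := hr R (fun j => I i ⊔ I j) (fun j => ε i j ^ p ^ s * lam j)
      (fun j _ => Ideal.mem_sup_left (hp i mi).1) fun j hj l hl => by
        have e : I i ⊔ I j ⊔ (I i ⊔ I l) = I i ⊔ I j ⊔ I l := by
          rw [← sup_assoc, sup_right_comm (I i) (I j) (I i), sup_idem]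
        rw [e]
        have h1 := alg_pow (hc i mi j (m hj) l (m hl)) (p ^ s)
        have h2 : lam j - ε j l ^ p ^ s * lam l ∈ I i ⊔ I j ⊔ I l := by
          rw [sup_assoc]; exact Ideal.mem_sup_right (l2 j hj l hl)
        have h3 := add_mem (Ideal.mul_mem_left _ (ε i j ^ p ^ s) h2) (Ideal.mul_mem_right (lam l) _ h1)
        convert h3 using 1
        ring
    obtain ⟨x, xu, hx⟩ : ∃ x, IsUnit x ∧ ∀ j ∈ t, x - (ε i j ^ p ^ s * lam j) ^ p ^ r ∈ I i ⊔ I j := by
      rcases t.eq_empty_or_nonempty with rfl | ⟨j, hj⟩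
      · exact ⟨1, isUnit_one, by simp⟩
      refine ⟨x, ?_, hx⟩
      by_contra n
      have h1 : I i ⊔ I j ≤ IsLocalRing.maximalIdeal R :=
        sup_le (IsLocalRing.le_maximalIdeal (hp i mi).2) (IsLocalRing.le_maximalIdeal (hp j (m hj)).2)
      have h2 := sub_mem ((IsLocalRing.mem_maximalIdeal x).2 n) (h1 (hx j hj))
      rw [sub_sub_cancel] at h2
      exact (IsLocalRing.mem_maximalIdeal _).1 h2
        ((((hu i mi j (m hj)).pow _).mul (l1 j hj)).pow _)
    have ne : ∀ j ∈ t, j ≠ i := fun j hj e => hi (e ▸ hj)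
    refine ⟨fun j => if j = i then x else lam j ^ p ^ r, fun j hj => ?_, fun j hj l hl => ?_⟩
    · rcases Finset.mem_insert.1 hj with rfl | hj
      · simpa using xu
      · simpa [ne j hj] using (l1 j hj).pow _
    rw [Finset.mem_insert] at hj hl
    rcases hj with rfl | hj <;> rcases hl with rfl | hl
    · have h1 := (I l).mul_mem_right (-x) (alg_pow (one l mi) (p ^ (s + r)))
      simp only [if_true, sup_idem]
      convert h1 using 1
      ring
    · simp only [if_true, if_neg (ne l hl)]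
      convert hx l hl using 1
      rw [pow_add p s, pow_mul, mul_pow]
    · simp only [if_true, if_neg (ne j hj)]
      have h1 := hc j (m hj) l mi j (m hj)
      rw [sup_right_comm, sup_idem] at h1
      have h2 : ε j l * ε l j - 1 ∈ I j ⊔ I l := by
        have := add_mem h1 (Ideal.mem_sup_left (T := I l) (one j (m hj)))
        rwa [sub_add_sub_cancel] at this
      have h3 := hx j hj
      rw [sup_comm] at h3
      have h4 := add_mem (Ideal.mul_mem_right (-lam j ^ p ^ r) _ (alg_pow h2 (p ^ (s + r))))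
        (Ideal.mul_mem_left _ (-ε j l ^ p ^ (s + r)) h3)
      convert h4 using 1
      rw [mul_pow (ε l j ^ p ^ s), ← pow_mul, ← pow_add]
      ring
    · simp only [if_neg (ne l hl), if_neg (ne j hj)]
      convert alg_pow (l2 j hj l hl) (p ^ r) using 1
      rw [pow_add p s, pow_mul, mul_pow]

theorem alg_det_exact {F A B C : Type} [Field F] [AddCommGroup A] [AddCommGroup B]
    [AddCommGroup C] [Module F A] [Module F B] [Module F C] [FiniteDimensional F B]
    (i : A →ₗ[F] B) (π : B →ₗ[F] C) (hi : Function.Injective i) (hπ : Function.Surjective π)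
    (hk : LinearMap.range i = LinearMap.ker π) (a : A →ₗ[F] A) (b : B →ₗ[F] B) (c : C →ₗ[F] C)
    (h1 : ∀ x, b (i x) = i (a x)) (h2 : ∀ y, π (b y) = c (π y)) : b.det = c.det * a.det := by
  have he : LinearMap.range i ≤ (LinearMap.range i).comap b := by
    rintro _ ⟨x, rfl⟩
    exact ⟨a x, (h1 x).symm⟩
  rw [LinearMap.det_eq_det_mul_det _ b he, mul_comm]
  congr 1
  · let e : (B ⧸ LinearMap.range i) ≃ₗ[F] C :=
      (Submodule.quotEquivOfEq _ _ hk).trans (π.quotKerEquivOfSurjective hπ)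
    rw [← LinearMap.det_conj c e.symm]
    congr 1
    ext y
    apply e.injective
    simp only [LinearMap.comp_apply, LinearEquiv.coe_coe, LinearEquiv.symm_symm,
      LinearEquiv.apply_symm_apply]
    exact h2 y
  · rw [← LinearMap.det_conj a (LinearEquiv.ofInjective i hi)]
    congr 1
    ext y
    obtain ⟨x, rfl⟩ := (LinearEquiv.ofInjective i hi).surjective y
    simp only [LinearMap.comp_apply, LinearEquiv.coe_coe, LinearEquiv.symm_apply_apply]
    exact h1 x

theorem norm_quot_step {F Q : Type} [Field F] [CommRing Q] [Algebra F Q] [FiniteDimensional F Q]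
    (g f : Q) (𝔞 : Ideal Q) :
    Algebra.norm F (Ideal.Quotient.mk 𝔞 g) =
      Algebra.norm F (Ideal.Quotient.mk (𝔞 ⊔ Ideal.span {f}) g) *
        Algebra.norm F (Ideal.Quotient.mk (𝔞.colon {f}) g) := by
  let i : (Q ⧸ 𝔞.colon {f}) →ₗ[Q] (Q ⧸ 𝔞) := Submodule.mapQ _ _ (LinearMap.mulRight Q f)
    fun r hr => by simpa using Submodule.mem_colon_singleton.1 hr
  have hi : ∀ r, i (Ideal.Quotient.mk _ r) = Ideal.Quotient.mk _ (r * f) := fun _ => rfl
  let π : (Q ⧸ 𝔞) →ₐ[F] (Q ⧸ (𝔞 ⊔ Ideal.span {f})) := Ideal.Quotient.factorₐ F le_sup_left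
  have hπ : ∀ r, π (Ideal.Quotient.mk _ r) = Ideal.Quotient.mk _ r := fun _ => rfl
  simp only [Algebra.norm_apply]
  refine alg_det_exact (i.restrictScalars F) π.toLinearMap ?_ ?_ ?_ _ _ _ ?_ ?_
  · rw [injective_iff_map_eq_zero]
    intro x hx
    obtain ⟨r, rfl⟩ := Ideal.Quotient.mk_surjective x
    rw [LinearMap.restrictScalars_apply, hi, Ideal.Quotient.eq_zero_iff_mem] at hx
    exact Ideal.Quotient.eq_zero_iff_mem.2 (Submodule.mem_colon_singleton.2 hx)
  · intro y
    obtain ⟨r, rfl⟩ := Ideal.Quotient.mk_surjective y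
    exact ⟨Ideal.Quotient.mk _ r, rfl⟩
  · ext y
    obtain ⟨r, rfl⟩ := Ideal.Quotient.mk_surjective y
    rw [LinearMap.mem_ker, AlgHom.toLinearMap_apply, hπ, Ideal.Quotient.eq_zero_iff_mem]
    constructor
    · rintro ⟨x, hx⟩
      obtain ⟨c, rfl⟩ := Ideal.Quotient.mk_surjective x
      rw [LinearMap.restrictScalars_apply, hi, Ideal.Quotient.eq] at hx
      have := sub_mem (Ideal.mem_sup_right (S := 𝔞)
        (Ideal.mem_span_singleton'.2 ⟨c, rfl⟩ : c * f ∈ Ideal.span {f})) (Ideal.mem_sup_left hx)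
      rwa [sub_sub_cancel] at this
    · intro h
      obtain ⟨a, ha, b, hb, rfl⟩ := Submodule.mem_sup.1 h
      obtain ⟨c, rfl⟩ := Ideal.mem_span_singleton'.1 hb
      refine ⟨Ideal.Quotient.mk _ c, ?_⟩
      rw [LinearMap.restrictScalars_apply, hi, Ideal.Quotient.eq]
      simpa using ha
  · intro x
    obtain ⟨r, rfl⟩ := Ideal.Quotient.mk_surjective x
    show Ideal.Quotient.mk 𝔞 g * i (Ideal.Quotient.mk _ r) =
      i (Ideal.Quotient.mk _ g * Ideal.Quotient.mk _ r)
    rw [← map_mul, hi, hi, ← map_mul, mul_assoc]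
  · intro y
    obtain ⟨r, rfl⟩ := Ideal.Quotient.mk_surjective y
    rfl

theorem norm_residue {Λ R : Type} [CommRing Λ] [IsLocalRing Λ] [CommRing R] [Algebra Λ R]
    [Module.Finite Λ R] [Module.Free Λ R] (g : R) :
    IsLocalRing.residue Λ (Algebra.norm Λ g) =
      Algebra.norm (Λ ⧸ IsLocalRing.maximalIdeal Λ) (Ideal.Quotient.mk
        ((IsLocalRing.maximalIdeal Λ).map (algebraMap Λ R)) g) := by
  classical
  let b := Module.Free.chooseBasis Λ R
  rw [Algebra.norm_eq_matrix_det b, Algebra.norm_eq_matrix_det (IsLocalRing.basisQuotient b)]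
  refine (RingHom.map_det (Ideal.Quotient.mk (IsLocalRing.maximalIdeal Λ)) _).trans ?_
  congr 1
  ext i j
  simp only [Algebra.leftMulMatrix_apply, Algebra.coe_lmul_eq_mul, LinearMap.toMatrix_apply,
    IsLocalRing.basisQuotient_apply, LinearMap.mul_apply', RingHom.mapMatrix_apply,
    Matrix.map_apply, ← map_mul, IsLocalRing.basisQuotient_repr]

instance Zp_noeth (p : ℕ) [Fact p.Prime] : IsNoetherianRing (Zp p) := by
  have : (Ideal.span {(p : ℤ)}).IsPrime :=
    (Ideal.span_singleton_prime (by exact_mod_cast (Fact.out : p.Prime).ne_zero)).2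
      (Nat.prime_iff_prime_int.1 Fact.out)
  exact IsLocalization.isNoetherianRing (Ideal.span {(p : ℤ)}).primeCompl
    (Localization.subalgebra.ofField ℚ (Ideal.span {(p : ℤ)}).primeCompl
      (Ideal.primeCompl_le_nonZeroDivisors _)) inferInstance

theorem mem_Zp (p : ℕ) [Fact p.Prime] {q : ℚ} :
    q ∈ Zp p ↔ ∃ a b : ℤ, ¬(p : ℤ) ∣ b ∧ q = a / b := by
  constructor
  · rintro ⟨a, b, hb, e⟩
    exact ⟨a, b, fun h => hb (Ideal.mem_span_singleton.2 h), by rw [e, div_eq_mul_inv]; rfl⟩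
  · rintro ⟨a, b, hb, e⟩
    exact ⟨a, b, fun h => hb (Ideal.mem_span_singleton.1 h), by rw [e, div_eq_mul_inv]; rfl⟩

theorem eq_zero_of_Zp (p : ℕ) [Fact p.Prime] {q : ℚ} {s : ℕ}
    (h : ∀ k : ℕ, ∃ r ∈ Zp p, (p : ℚ) ^ s * q = (p : ℚ) ^ k * r) : q = 0 := by
  have hp : p.Prime := Fact.out
  obtain ⟨r, hr, e⟩ := h (s + q.num.natAbs)
  obtain ⟨a, b, hb, rfl⟩ := (mem_Zp p).1 hr
  have b0 : (b : ℚ) ≠ 0 := by
    intro h0
    exact hb (by rw [Int.cast_eq_zero.1 h0]; exact dvd_zero _)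
  have p0 : (p : ℚ) ^ s ≠ 0 := pow_ne_zero _ (by exact_mod_cast hp.ne_zero)
  rw [pow_add, mul_assoc, mul_right_inj' p0] at e
  have e2 : q.num * b = (p : ℤ) ^ q.num.natAbs * (a * q.den) := by
    have h1 : (q.num : ℚ) = q * q.den := (Rat.mul_den_eq_num q).symm
    have : ((q.num * b : ℤ) : ℚ) = (((p : ℤ) ^ q.num.natAbs * (a * q.den) : ℤ) : ℚ) := by
      push_cast
      rw [h1]
      nth_rewrite 1 [e]
      field_simp
    exact_mod_cast this
  have h2 : (p : ℤ) ^ q.num.natAbs ∣ q.num :=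
    (Nat.prime_iff_prime_int.1 hp).pow_dvd_of_dvd_mul_right _ hb ⟨_, e2⟩
  by_contra n
  have h3 := Nat.le_of_dvd (Int.natAbs_pos.2 (Rat.num_ne_zero.2 n)) (Int.natAbs_dvd_natAbs.2 h2)
  rw [Int.natAbs_pow, Int.natAbs_natCast] at h3
  exact absurd (Nat.lt_pow_self hp.one_lt) (not_lt.2 h3)

end

end Pool.Agent.Lib.MP_62d77c_ag
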