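import Pool.Agent.Lib.MP_62d77c_ag.Serre

/-! Bounded torsion in the third cohomology of a double complex. -/

set_option autoImplicit false

namespace Pool.Agent.Lib.MP_62d77c_ag

open Filter Polynomial Submodule

noncomputable section

theorem btors_sup {O X : Type} [CommRing O] [AddCommGroup X] [Module O X] {B W : Submodule O X}
    (h : FinMod B W) : FinMod B (B ⊔ W) := by
  obtain ⟨S, hS, e⟩ := h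
  exact ⟨S, hS, sup_le le_sup_left e⟩

theorem btors_bdd {O X : Type} [CommRing O] [IsNoetherianRing O] [AddCommGroup X] [Module O X]
    {B Z : Submodule O X} (h : FinMod B Z) (π : O) :
    ∃ s : ℕ, ∀ z ∈ Z, ∀ M : ℕ, π ^ M • z ∈ B → π ^ s • z ∈ B := by
  let T : Submodule O X :=
    { carrier := {e | ∃ M : ℕ, π ^ M • e ∈ B}
      zero_mem' := ⟨0, by simp⟩
      add_mem' := by
        rintro a b ⟨M, hM⟩ ⟨N, hN⟩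
        refine ⟨M + N, ?_⟩
        rw [smul_add]
        refine add_mem ?_ ?_
        · rw [pow_add, mul_comm, mul_smul]
          exact B.smul_mem _ hM
        · rw [pow_add, mul_smul]
          exact B.smul_mem _ hN
      smul_mem' := by
        rintro c a ⟨M, hM⟩
        exact ⟨M, by rw [smul_comm]; exact B.smul_mem _ hM⟩ }
  obtain ⟨s, hs⟩ := (h.mono le_rfl (inf_le_left : Z ⊓ T ≤ Z)).bounded π fun z hz => hz.2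
  exact ⟨s, fun z hz M hM => hs z ⟨hz, M, hM⟩⟩

theorem btors_abs {O F₀ F₁ F₂ F₃ : Type} [CommRing O] [IsNoetherianRing O]
    [AddCommGroup F₀] [Module O F₀] [AddCommGroup F₁] [Module O F₁]
    [AddCommGroup F₂] [Module O F₂] [AddCommGroup F₃] [Module O F₃]
    (δ₀ : F₀ →ₗ[O] F₀) (δ₁ : F₁ →ₗ[O] F₁) (δ₂ : F₂ →ₗ[O] F₂) (δ₃ : F₃ →ₗ[O] F₃)
    (D₀ : F₀ →ₗ[O] F₁) (D₁ : F₁ →ₗ[O] F₂) (D₂ : F₂ →ₗ[O] F₃)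
    (P₀ Q₀ : Submodule O F₀) (P₁ Q₁ : Submodule O F₁) (P₂ Q₂ : Submodule O F₂)
    (Q₃ : Submodule O F₃)
    (s₀ : ∀ x, δ₀ (δ₀ x) = 0) (s₁ : ∀ x, δ₁ (δ₁ x) = 0) (s₂ : ∀ x, δ₂ (δ₂ x) = 0)
    (c₀ : ∀ x, δ₁ (D₀ x) = D₀ (δ₀ x)) (c₁ : ∀ x, δ₂ (D₁ x) = D₁ (δ₁ x))
    (c₂ : ∀ x, δ₃ (D₂ x) = D₂ (δ₂ x))
    (a₀ : ∀ x ∈ P₀, δ₀ x ∈ Q₀ ∧ D₀ x ∈ Q₁ ∧ D₁ (D₀ x) = 0)
    (a₁ : ∀ x ∈ P₁, δ₁ x ∈ Q₁ ∧ D₁ x ∈ Q₂ ∧ D₂ (D₁ x) = 0)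
    (a₂ : ∀ x ∈ P₂, δ₂ x ∈ Q₂ ∧ D₂ x ∈ Q₃)
    (f₀ : FinMod (P₀.map δ₀) (Q₀ ⊓ LinearMap.ker δ₀))
    (f₁ : FinMod (P₁.map δ₁) (Q₁ ⊓ LinearMap.ker δ₁))
    (f₂ : FinMod (P₂.map δ₂) (Q₂ ⊓ LinearMap.ker δ₂))
    (f₃ : FinMod ⊥ (Q₃ ⊓ LinearMap.ker δ₃))
    (π : O) (r₀ : IsSMulRegular F₀ π) (r₁ : IsSMulRegular F₁ π) (r₂ : IsSMulRegular F₂ π)
    (r₃ : IsSMulRegular F₃ π) :
    ∃ s : ℕ, ∀ (M : ℕ), ∀ b₀ ∈ P₀, ∀ b₁ ∈ P₁, ∀ b₂ ∈ P₂,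
      ∀ e₀ ∈ Q₀, ∀ e₁ ∈ Q₁, ∀ e₂ ∈ Q₂, ∀ e₃ ∈ Q₃,
      δ₀ b₀ = π ^ M • e₀ → δ₁ b₁ - D₀ b₀ = π ^ M • e₁ →
      δ₂ b₂ - D₁ b₁ = π ^ M • e₂ → D₂ b₂ = π ^ M • e₃ →
      ∃ c₀ ∈ P₀, ∃ c₁ ∈ P₁, ∃ c₂ ∈ P₂,
        δ₀ c₀ = π ^ s • e₀ ∧ δ₁ c₁ - D₀ c₀ = π ^ s • e₁ ∧
        δ₂ c₂ - D₁ c₁ = π ^ s • e₂ ∧ D₂ c₂ = π ^ s • e₃ := by
  let B : Submodule O (F₀ × F₁ × F₂ × F₃) :=
    { carrier := {e | ∃ c₀ ∈ P₀, ∃ c₁ ∈ P₁, ∃ c₂ ∈ P₂,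
        (δ₀ c₀, δ₁ c₁ - D₀ c₀, δ₂ c₂ - D₁ c₁, D₂ c₂) = e}
      zero_mem' := ⟨0, zero_mem _, 0, zero_mem _, 0, zero_mem _, by simp⟩
      add_mem' := by
        rintro _ _ ⟨x₀, h₀, x₁, h₁, x₂, h₂, rfl⟩ ⟨y₀, k₀, y₁, k₁, y₂, k₂, rfl⟩
        refine ⟨_, add_mem h₀ k₀, _, add_mem h₁ k₁, _, add_mem h₂ k₂, ?_⟩
        simp only [map_add, Prod.mk_add_mk, add_sub_add_comm]
      smul_mem' := by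
        rintro c _ ⟨x₀, h₀, x₁, h₁, x₂, h₂, rfl⟩
        refine ⟨_, P₀.smul_mem c h₀, _, P₁.smul_mem c h₁, _, P₂.smul_mem c h₂, ?_⟩
        simp only [map_smul, Prod.smul_mk, smul_sub] }
  let Z : Submodule O (F₀ × F₁ × F₂ × F₃) :=
    { carrier := {e | e.1 ∈ Q₀ ∧ e.2.1 ∈ Q₁ ∧ e.2.2.1 ∈ Q₂ ∧ e.2.2.2 ∈ Q₃ ∧ δ₀ e.1 = 0 ∧
        δ₁ e.2.1 = -D₀ e.1 ∧ δ₂ e.2.2.1 = -D₁ e.2.1 ∧ δ₃ e.2.2.2 = D₂ e.2.2.1}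
      zero_mem' := by simp
      add_mem' := by
        rintro x y ⟨h₀, h₁, h₂, h₃, h₄, h₅, h₆, h₇⟩ ⟨k₀, k₁, k₂, k₃, k₄, k₅, k₆, k₇⟩
        refine ⟨add_mem h₀ k₀, add_mem h₁ k₁, add_mem h₂ k₂, add_mem h₃ k₃, ?_, ?_, ?_, ?_⟩
        · simp [h₄, k₄]
        · simp [h₅, k₅, add_comm]
        · simp [h₆, k₆, add_comm]
        · simp [h₇, k₇]
      smul_mem' := by
        rintro c x ⟨h₀, h₁, h₂, h₃, h₄, h₅, h₆, h₇⟩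
        refine ⟨Q₀.smul_mem c h₀, Q₁.smul_mem c h₁, Q₂.smul_mem c h₂, Q₃.smul_mem c h₃,
          ?_, ?_, ?_, ?_⟩
        · simp [h₄]
        · simp [h₅]
        · simp [h₆]
        · simp [h₇] }
  have BZ : B ≤ Z := by
    rintro _ ⟨x₀, h₀, x₁, h₁, x₂, h₂, rfl⟩
    refine ⟨(a₀ _ h₀).1, sub_mem (a₁ _ h₁).1 (a₀ _ h₀).2.1, sub_mem (a₂ _ h₂).1 (a₁ _ h₁).2.1,
      (a₂ _ h₂).2, s₀ _, ?_, ?_, ?_⟩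
    · simp [s₁, c₀]
    · simp [s₂, c₁, (a₀ _ h₀).2.2]
    · simp [c₂, (a₁ _ h₁).2.2]
  let p₀ : (F₀ × F₁ × F₂ × F₃) →ₗ[O] F₀ := LinearMap.fst _ _ _
  let p₁ : (F₀ × F₁ × F₂ × F₃) →ₗ[O] F₁ := LinearMap.fst _ _ _ ∘ₗ LinearMap.snd _ _ _
  let p₂ : (F₀ × F₁ × F₂ × F₃) →ₗ[O] F₂ :=
    LinearMap.fst _ _ _ ∘ₗ LinearMap.snd _ _ _ ∘ₗ LinearMap.snd _ _ _
  let p₃ : (F₀ × F₁ × F₂ × F₃) →ₗ[O] F₃ :=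
    LinearMap.snd _ _ _ ∘ₗ LinearMap.snd _ _ _ ∘ₗ LinearMap.snd _ _ _
  let Z₁ := Z ⊓ LinearMap.ker p₀
  let Z₂ := Z₁ ⊓ LinearMap.ker p₁
  let Z₃ := Z₂ ⊓ LinearMap.ker p₂
  have split : ∀ {W : Submodule O (F₀ × F₁ × F₂ × F₃)} {e b : F₀ × F₁ × F₂ × F₃}, b ∈ B →
      e - b ∈ W → e ∈ B ⊔ W := fun {W e b} hb h => mem_sup.mpr ⟨b, hb, e - b, h, by abel⟩
  have g₀ : FinMod (B ⊔ Z₁) Z := by
    refine (f₀.comap p₀ Z fun e he => ⟨he.1, he.2.2.2.2.1⟩).mono ?_ le_rfl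
    rintro e ⟨he, x, hx, e1⟩
    have hb : (δ₀ x, δ₁ 0 - D₀ x, δ₂ 0 - D₁ 0, D₂ 0) ∈ B :=
      ⟨x, hx, 0, zero_mem _, 0, zero_mem _, rfl⟩
    exact split hb ⟨sub_mem he (BZ hb), sub_eq_zero.mpr e1.symm⟩
  have g₁ : FinMod (B ⊔ Z₂) Z₁ := by
    refine (f₁.comap p₁ Z₁ fun e he => ⟨he.1.2.1, ?_⟩).mono ?_ le_rfl
    · have e0 : e.1 = 0 := he.2
      have := he.1.2.2.2.2.2.1
      rw [e0, map_zero, neg_zero] at this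
      exact this
    rintro e ⟨he, x, hx, e1⟩
    have hb : (δ₀ 0, δ₁ x - D₀ 0, δ₂ 0 - D₁ x, D₂ 0) ∈ B :=
      ⟨0, zero_mem _, x, hx, 0, zero_mem _, rfl⟩
    have e0 : e.1 = 0 := he.2
    have e1' : δ₁ x = e.2.1 := e1
    refine split hb ⟨⟨sub_mem he.1 (BZ hb), ?_⟩, ?_⟩
    · show e.1 - δ₀ 0 = 0
      simp [e0]
    · show e.2.1 - (δ₁ x - D₀ 0) = 0
      simp [e1']
  have g₂ : FinMod (B ⊔ Z₃) Z₂ := by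
    refine (f₂.comap p₂ Z₂ fun e he => ⟨he.1.1.2.2.1, ?_⟩).mono ?_ le_rfl
    · have e0 : e.2.1 = 0 := he.2
      have := he.1.1.2.2.2.2.2.2.1
      rw [e0, map_zero, neg_zero] at this
      exact this
    rintro e ⟨he, x, hx, e1⟩
    have hb : (δ₀ 0, δ₁ 0 - D₀ 0, δ₂ x - D₁ 0, D₂ x) ∈ B :=
      ⟨0, zero_mem _, 0, zero_mem _, x, hx, rfl⟩
    have e0 : e.1 = 0 := he.1.2
    have e0' : e.2.1 = 0 := he.2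
    have e1' : δ₂ x = e.2.2.1 := e1
    refine split hb ⟨⟨⟨sub_mem he.1.1 (BZ hb), ?_⟩, ?_⟩, ?_⟩
    · show e.1 - δ₀ 0 = 0
      simp [e0]
    · show e.2.1 - (δ₁ 0 - D₀ 0) = 0
      simp [e0']
    · show e.2.2.1 - (δ₂ x - D₁ 0) = 0
      simp [e1']
  have g₃ : FinMod B Z₃ := by
    refine (f₃.comap p₃ Z₃ fun e he => ⟨he.1.1.1.2.2.2.1, ?_⟩).mono ?_ le_rfl
    · have e0 : e.2.2.1 = 0 := he.2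
      have := he.1.1.1.2.2.2.2.2.2.2
      rw [e0, map_zero] at this
      exact this
    rintro e ⟨he, e1⟩
    have : e = 0 := Prod.ext he.1.1.2 (Prod.ext he.1.2 (Prod.ext he.2 e1))
    rw [this]
    exact zero_mem _
  obtain ⟨s, hs⟩ := btors_bdd ((btors_sup ((btors_sup ((btors_sup g₃).trans g₂)).trans g₁)).trans
    g₀) π
  refine ⟨s, fun M b₀ h₀ b₁ h₁ b₂ h₂ e₀ k₀ e₁ k₁ e₂ k₂ e₃ k₃ q₀ q₁ q₂ q₃ => ?_⟩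
  have hb : π ^ M • (e₀, e₁, e₂, e₃) ∈ B := ⟨b₀, h₀, b₁, h₁, b₂, h₂, by rw [q₀, q₁, q₂, q₃]; rfl⟩
  obtain ⟨-, -, -, -, z₀, z₁, z₂, z₃⟩ := BZ hb
  simp only [Prod.smul_mk, map_smul] at z₀ z₁ z₂ z₃
  have hz : (e₀, e₁, e₂, e₃) ∈ Z := ⟨k₀, k₁, k₂, k₃, r₀.pow M (by simpa using z₀),
    r₁.pow M (by simpa using z₁), r₂.pow M (by simpa using z₂), r₃.pow M z₃⟩
  obtain ⟨x₀, g₀, x₁, g₁, x₂, g₂, e⟩ := hs _ hz M hb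
  simp only [Prod.smul_mk, Prod.mk.injEq] at e
  exact ⟨x₀, g₀, x₁, g₁, x₂, g₂, e⟩

theorem btors_comm {O ι E E' : Type} [CommRing O] [Fintype ι] [LinearOrder ι] [AddCommGroup E]
    [Module O E] [AddCommGroup E'] [Module O E'] (d : E →ₗ[O] E') (x : Finset ι → E) :
    dC O E' (d.compLeft (Finset ι) x) = d.compLeft (Finset ι) (dC O E x) := by
  funext σ
  simp only [dC_apply, LinearMap.compLeft_apply, Function.comp_apply, map_sum, map_zsmul]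

theorem btors_mem {O ι E E' : Type} [CommRing O] [Fintype ι] [LinearOrder ι] [AddCommGroup E]
    [Module O E] [AddCommGroup E'] [Module O E'] (d : E →ₗ[O] E') {C : Finset ι → Submodule O E}
    {C' : Finset ι → Submodule O E'} (h : ∀ σ, ∀ x ∈ C σ, d x ∈ C' σ) {q : ℕ} {x : Finset ι → E}
    (hx : x ∈ Coch C q) : d.compLeft (Finset ι) x ∈ Coch C' q := by
  rw [mem_Coch] at hx ⊢
  exact fun σ => ⟨fun k => h σ _ ((hx σ).1 k), fun k => by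
    show d (x σ) = 0
    rw [(hx σ).2 k, map_zero]⟩

theorem btors_dd {O ι E E' E'' : Type} [CommRing O] [Fintype ι] [LinearOrder ι] [AddCommGroup E]
    [Module O E] [AddCommGroup E'] [Module O E'] [AddCommGroup E''] [Module O E'']
    (d : E →ₗ[O] E') (d' : E' →ₗ[O] E'') {C : Finset ι → Submodule O E}
    (h : ∀ σ, ∀ x ∈ C σ, d' (d x) = 0) {q : ℕ} {x : Finset ι → E} (hx : x ∈ Coch C q) :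
    d'.compLeft (Finset ι) (d.compLeft (Finset ι) x) = 0 := by
  rw [mem_Coch] at hx
  funext σ
  show d' (d (x σ)) = 0
  by_cases k : σ.card = q ∧ q ≠ 0
  · exact h σ _ ((hx σ).1 k)
  · rw [(hx σ).2 k, map_zero, map_zero]

theorem bounded_torsion {O ι E₀ E₁ E₂ E₃ : Type} [CommRing O] [IsNoetherianRing O] [Fintype ι]
    [LinearOrder ι] [AddCommGroup E₀] [Module O E₀] [AddCommGroup E₁] [Module O E₁]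
    [AddCommGroup E₂] [Module O E₂] [AddCommGroup E₃] [Module O E₃]
    (C₀ : Finset ι → Submodule O E₀) (C₁ : Finset ι → Submodule O E₁)
    (C₂ : Finset ι → Submodule O E₂) (C₃ : Finset ι → Submodule O E₃)
    (m₀ : ∀ σ τ, σ.Nonempty → σ ⊆ τ → C₀ σ ≤ C₀ τ) (m₁ : ∀ σ τ, σ.Nonempty → σ ⊆ τ → C₁ σ ≤ C₁ τ)
    (m₂ : ∀ σ τ, σ.Nonempty → σ ⊆ τ → C₂ σ ≤ C₂ τ) (_m₃ : ∀ σ τ, σ.Nonempty → σ ⊆ τ → C₃ σ ≤ C₃ τ)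
    (d₀ : E₀ →ₗ[O] E₁) (d₁ : E₁ →ₗ[O] E₂) (d₂ : E₂ →ₗ[O] E₃)
    (h₀ : ∀ σ, ∀ x ∈ C₀ σ, d₀ x ∈ C₁ σ ∧ d₁ (d₀ x) = 0)
    (h₁ : ∀ σ, ∀ x ∈ C₁ σ, d₁ x ∈ C₂ σ ∧ d₂ (d₁ x) = 0) (h₂ : ∀ σ, ∀ x ∈ C₂ σ, d₂ x ∈ C₃ σ)
    (f₀ : FinMod ((Coch C₀ 3).map (dC O E₀)) (Coch C₀ 4 ⊓ LinearMap.ker (dC O E₀)))
    (f₁ : FinMod ((Coch C₁ 2).map (dC O E₁)) (Coch C₁ 3 ⊓ LinearMap.ker (dC O E₁)))
    (f₂ : FinMod ((Coch C₂ 1).map (dC O E₂)) (Coch C₂ 2 ⊓ LinearMap.ker (dC O E₂)))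
    (f₃ : FinMod ((Coch C₃ 0).map (dC O E₃)) (Coch C₃ 1 ⊓ LinearMap.ker (dC O E₃)))
    (π : O) (r₀ : IsSMulRegular E₀ π) (r₁ : IsSMulRegular E₁ π) (r₂ : IsSMulRegular E₂ π)
    (r₃ : IsSMulRegular E₃ π) :
    ∃ s : ℕ, ∀ (M : ℕ), ∀ b₀ ∈ Coch C₀ 3, ∀ b₁ ∈ Coch C₁ 2, ∀ b₂ ∈ Coch C₂ 1,
      ∀ e₀ ∈ Coch C₀ 4, ∀ e₁ ∈ Coch C₁ 3, ∀ e₂ ∈ Coch C₂ 2, ∀ e₃ ∈ Coch C₃ 1,
      dC O E₀ b₀ = π ^ M • e₀ → dC O E₁ b₁ - d₀ ∘ b₀ = π ^ M • e₁ →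
      dC O E₂ b₂ - d₁ ∘ b₁ = π ^ M • e₂ → d₂ ∘ b₂ = π ^ M • e₃ →
      ∃ c₀ ∈ Coch C₀ 3, ∃ c₁ ∈ Coch C₁ 2, ∃ c₂ ∈ Coch C₂ 1,
        dC O E₀ c₀ = π ^ s • e₀ ∧ dC O E₁ c₁ - d₀ ∘ c₀ = π ^ s • e₁ ∧
        dC O E₂ c₂ - d₁ ∘ c₁ = π ^ s • e₂ ∧ d₂ ∘ c₂ = π ^ s • e₃ :=
  btors_abs (dC O E₀) (dC O E₁) (dC O E₂) (dC O E₃) (d₀.compLeft _) (d₁.compLeft _) (d₂.compLeft _)
    (Coch C₀ 3) (Coch C₀ 4) (Coch C₁ 2) (Coch C₁ 3) (Coch C₂ 1) (Coch C₂ 2) (Coch C₃ 1)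
    dC_dC dC_dC dC_dC (btors_comm d₀) (btors_comm d₁) (btors_comm d₂)
    (fun _ hx => ⟨dC_mem m₀ hx, btors_mem d₀ (fun σ y hy => (h₀ σ y hy).1) hx,
      btors_dd d₀ d₁ (fun σ y hy => (h₀ σ y hy).2) hx⟩)
    (fun _ hx => ⟨dC_mem m₁ hx, btors_mem d₁ (fun σ y hy => (h₁ σ y hy).1) hx,
      btors_dd d₁ d₂ (fun σ y hy => (h₁ σ y hy).2) hx⟩)
    (fun _ hx => ⟨dC_mem m₂ hx, btors_mem d₂ h₂ hx⟩) f₀ f₁ f₂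
    (f₃.mono (by
      rintro _ ⟨x, hx, rfl⟩
      have : x = 0 := funext fun σ => (mem_Coch.mp hx σ).2 fun k => k.2 rfl
      rw [this, map_zero]
      exact zero_mem _) le_rfl) π
    (fun _ _ e => funext fun σ => r₀ (congrFun e σ)) (fun _ _ e => funext fun σ => r₁ (congrFun e σ))
    (fun _ _ e => funext fun σ => r₂ (congrFun e σ)) (fun _ _ e => funext fun σ => r₃ (congrFun e σ))

end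

end Pool.Agent.Lib.MP_62d77c_ag
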