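import Mathlib

/-! Families of submodules, Cartier classes, Hilbert polynomials, specialisation: definitions. -/

set_option autoImplicit false

namespace Pool.Agent.Lib.MP_62d77c_ag

open Filter Polynomial Submodule

noncomputable section

section fam
variable {k K E : Type} [CommRing k] [CommRing K] [Algebra k K] [AddCommGroup E] [Module K E]
  [Module k E] [IsScalarTower k K E]

/-- a graded module in large degrees -/
def Fam (V : Submodule k K) (N : ℕ → Submodule k E) : Prop :=
  ∀ᶠ n in atTop, V • N n ≤ N (n + 1)

/-- a finitely generated graded module in large degrees -/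
def Fg (V : Submodule k K) (N : ℕ → Submodule k E) : Prop :=
  ∀ᶠ n in atTop, (N n).FG ∧ N (n + 1) = V • N n

/-- global sections in degree zero -/
def H0 (V : Submodule k K) (N : ℕ → Submodule k E) : Submodule k E where
  carrier := {g | ∀ᶠ m in atTop, ∀ v ∈ V ^ m, v • g ∈ N m}
  zero_mem' := Eventually.of_forall fun m v _ => by simp
  add_mem' := fun {a b} ha hb => by
    filter_upwards [ha, hb] with m h1 h2 v hv
    rw [smul_add]; exact add_mem (h1 v hv) (h2 v hv)
  smul_mem' := fun c a ha => by
    filter_upwards [ha] with m h1 v hv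
    have : v • c • a = c • v • a := by
      rw [← algebraMap_smul K c a, ← algebraMap_smul K c (v • a), smul_comm]
    rw [this]; exact (N m).smul_mem c (h1 v hv)

/-- `Z / B` is finitely generated -/
def FinMod {X : Type} [AddCommGroup X] [Module k X] (B Z : Submodule k X) : Prop :=
  ∃ S : Submodule k X, S.FG ∧ Z ≤ B ⊔ S

end fam

section car
variable {k K E : Type} [CommRing k] [Field K] [Algebra k K] [AddCommGroup E] [Module K E]
  [Module k E] [IsScalarTower k K E]

/-- a projective model: a nonzero finitely generated submodule -/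
def Mdl (V : Submodule k K) : Prop := V.FG ∧ V ≠ ⊥

/-- the family of powers -/
abbrev pw (V : Submodule k K) : ℕ → Submodule k K := fun n => V ^ n

/-- embedded line bundles -/
def Car (V : Submodule k K) : Type := (Localization (Submonoid.powers V))ˣ

instance (V : Submodule k K) : CommGroup (Car V) :=
  inferInstanceAs (CommGroup (Localization (Submonoid.powers V))ˣ)

/-- the underlying fraction -/
def Car.val {V : Submodule k K} : Car V →* Localization (Submonoid.powers V) :=
  Units.coeHom (Localization (Submonoid.powers V))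

/-- `D = U / V ^ a` -/
def Rep {V : Submodule k K} (D : Car V) (U : Submodule k K) (a : ℕ) : Prop :=
  Car.val D = Localization.mk U ⟨V ^ a, Submonoid.pow_mem _ (Submonoid.mem_powers V) a⟩

/-- principal classes -/
def prin (V : Submodule k K) : Kˣ →* Car V :=
  Units.map ((algebraMap (Submodule k K) (Localization (Submonoid.powers V))).toMonoidHom.comp
    (Submodule.spanSingleton k).toMonoidHom)

/-- the hyperplane bundle -/
def Lc (V : Submodule k K) : Car V :=
  (IsLocalization.map_units (Localization (Submonoid.powers V))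
    (⟨V, Submonoid.mem_powers V⟩ : Submonoid.powers V)).unit

/-- the Picard group -/
def Pic (V : Submodule k K) : Type := Car V ⧸ (prin V).range

instance (V : Submodule k K) : CommGroup (Pic V) :=
  inferInstanceAs (CommGroup (Car V ⧸ (prin V).range))

/-- class of an embedded line bundle -/
def cl {V : Submodule k K} : Car V →* Pic V := QuotientGroup.mk' (prin V).range

/-- a chosen embedded line bundle in a class -/
def Pic.out {V : Submodule k K} (D : Pic V) : Car V := Quotient.out D

/-- the hyperplane class -/
def Lp (V : Submodule k K) : Pic V := cl (Lc V)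

/-- a chosen representative -/
def rp {V : Submodule k K} (D : Car V) : Submodule k K × ℕ :=
  Classical.epsilon fun x => Rep D x.1 x.2

/-- twist of a family by a line bundle -/
def tw {V : Submodule k K} (D : Car V) (N : ℕ → Submodule k E) : ℕ → Submodule k E :=
  fun n => (rp D).1 • N (n - (rp D).2)

/-- the family `N` is the graded module of the line bundle `D` -/
def IsCl {V : Submodule k K} (D : Car V) (N : ℕ → Submodule k K) : Prop :=
  tw D (pw V) =ᶠ[atTop] N

end car

section hilb
variable {k K E : Type} [Field k] [Field K] [Algebra k K] [AddCommGroup E] [Module K E]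
  [Module k E] [IsScalarTower k K E]

/-- Hilbert polynomial -/
def hp (N : ℕ → Submodule k E) : ℚ[X] :=
  Classical.epsilon fun P => ∀ᶠ n : ℕ in atTop, P.eval (n : ℚ) = (Module.finrank k (N n) : ℚ)

/-- Hilbert polynomial of the twists -/
def hq (V : Submodule k K) (N : ℕ → Submodule k E) (D : Pic V) : ℚ[X] := hp (tw D.out N)

/-- Hilbert polynomial of a line bundle -/
def PP (V : Submodule k K) : Pic V → ℚ[X] := hq V (pw V)

/-- dimension of the model -/
def dimV (V : Submodule k K) : ℕ := (hp (pw V)).natDegree

/-- sections of a line bundle -/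
def sec {V : Submodule k K} (D : Car V) : Submodule k K := H0 V (tw D (pw V))

/-- dimension of the space of sections -/
def h0 (V : Submodule k K) (D : Pic V) : ℕ := Module.finrank k (sec D.out)

/-- the multiplication map on sections is onto -/
def MulOK (V : Submodule k K) (D : Pic V) : Prop := V * sec D.out = sec (D.out * Lc V)

/-- saturation condition for the generic member -/
def Sat (U W₀ W₁ : Submodule k K) : Prop :=
  ∀ g : K, (∃ m, U ^ (m + 1) * span k {g} ≤ U ^ m * W₁) → g ∈ W₀

end hilb

section lev
variable {G : Type} [CommGroup G]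

/-- difference operator -/
def dl (D : G) (f : G → ℚ[X]) : G → ℚ[X] := fun E => f (E * D) - f E

/-- each difference lowers the degree, starting from degree `< s` -/
def Lev (s : ℕ) (f : G → ℚ[X]) : Prop :=
  ∀ (l : List G) (E : G), (l.foldr dl f) E ∈ degreeLT ℚ (s - l.length)

/-- a coefficient of the first difference -/
def lin (s : ℕ) (f : G → ℚ[X]) (D : G) : ℚ := (dl D f 1).coeff s

end lev

section inter
variable {k K : Type} [Field k] [Field K] [Algebra k K]

/-- `D · L ^ (r - 1) / (r - 1)!` -/
def i1 (V : Submodule k K) (r : ℕ) (D : Pic V) : ℚ := lin (r - 1) (PP V) D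

/-- `D · D' · L ^ (r - 2) / (r - 2)!` -/
def i2 (V : Submodule k K) (r : ℕ) (D D' : Pic V) : ℚ := lin (r - 2) (dl D' (PP V)) D

/-- degree zero and square zero -/
def NT (V : Submodule k K) (w : Pic V) : Prop :=
  (1 ≤ dimV V → i1 V (dimV V) w = 0) ∧ (2 ≤ dimV V → i2 V (dimV V) w w = 0)

end inter

/-- specialisation from the field `K` to the field `K'` through a local subring -/
structure Spec (k K k' K' : Type) [CommRing k] [Field K] [Algebra k K] [CommRing k'] [Field K']
    [Algebra k' K'] where
  O : Subring K
  φ : O →+* K'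
  base : ∀ c : k, ∃ h : algebraMap k K c ∈ O, φ ⟨_, h⟩ ∈ (algebraMap k' K').range
  inv : ∀ y : O, φ y ≠ 0 → (y : K)⁻¹ ∈ O

namespace Spec
variable {k K k' K' : Type} [CommRing k] [Field K] [Algebra k K] [CommRing k'] [Field K']
  [Algebra k' K'] (S : Spec k K k' K')

open Classical in
/-- the specialisation as a total function -/
def ev (y : K) : K' := if h : y ∈ S.O then S.φ ⟨y, h⟩ else 0

/-- specialisation of `U / u` -/
def img (U : Submodule k K) (u : K) : Submodule k' K' := span k' ((fun w => S.ev (w / u)) '' U)

/-- `u` generates `U` at the point -/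
def Triv (U : Submodule k K) (u : K) : Prop :=
  u ≠ 0 ∧ (∀ w ∈ U, w / u ∈ S.O) ∧ ∃ w ∈ U, S.ev (w / u) ≠ 0

/-- the model `V` specialises to the model `V'` -/
def Over (V : Submodule k K) (s : K) (V' : Submodule k' K') : Prop :=
  S.Triv V s ∧ S.img V s = V'

end Spec

/-! ### Čech complexes -/

section cech
variable {O K E ι : Type} [CommRing O] [CommRing K] [Algebra O K] [AddCommGroup E] [Module K E]
  [Module O E] [IsScalarTower O K E] [Fintype ι] [LinearOrder ι]

/-- sections over the chart where the `y a`, `a ∈ σ`, are invertible -/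
def chart (y : ι → K) (N : ℕ → Submodule O E) (σ : Finset ι) : Submodule O E :=
  span O {v | ∃ m, ((∏ a ∈ σ, y a) ^ m) • v ∈ N (m * σ.card)}

/-- cochains supported on the subsets with `q` elements -/
def Coch (C : Finset ι → Submodule O E) (q : ℕ) : Submodule O (Finset ι → E) :=
  Submodule.pi Set.univ fun σ => if σ.card = q ∧ q ≠ 0 then C σ else ⊥

variable (O E) in
/-- the Čech differential -/
def dC : (Finset ι → E) →ₗ[O] (Finset ι → E) :=
  LinearMap.pi fun σ => ∑ a ∈ σ,
    ((-1 : ℤ) ^ (σ.filter (· < a)).card) • LinearMap.proj (σ.erase a)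

end cech

section forms
variable {O K ι : Type} [CommRing O] [Field K] [Algebra O K] [Fintype ι] [LinearOrder ι]

/-- functions on the chart where the `y a`, `a ∈ σ`, of degree `e` are invertible -/
def chR (V : Submodule O K) (y : ι → K) (e : ℕ) (σ : Finset ι) : Submodule O K :=
  chart y (fun n => V ^ (e * n)) σ

variable (O) in
/-- `q`-forms with entries in `R`, as functions of `q` derivations -/
def forms (R : Set K) (q : ℕ) : Submodule O ((Fin q → Derivation ℤ K K) → K) :=
  span O {φ | ∃ a ∈ R, ∃ b : Fin q → K, (∀ j, b j ∈ R) ∧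
    φ = fun D => a * (Matrix.of fun i j => D i (b j)).det}

end forms

/-- the generic member of a base point free system -/
structure Mem {k K : Type} [Field k] [Field K] [Algebra k K] (V : Submodule k K) (D : Pic V) where
  k' : Type
  K' : Type
  [fk : Field k']
  [fK : Field K']
  [alg : Algebra k' K']
  V' : Submodule k' K'
  ρ : Pic V →* Pic V'
  mdl : Mdl V'
  L : ρ (Lp V) = Lp V'
  dim : dimV V' < dimV V
  P : ∀ E, PP V (E * D) - PP V E = PP V' (ρ (E * D))
  h : ∀ E, h0 V (E * D) ≤ h0 V E + h0 V' (ρ (E * D))
  mum : D = Lp V → ∀ E, h0 V (E * D) = h0 V E + h0 V' (ρ (E * D)) → MulOK V' (ρ (E * D)) →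
    MulOK V (E * D) ∧ h0 V (E * D * D) = h0 V (E * D) + h0 V' (ρ (E * D * D))

attribute [instance] Mem.fk Mem.fK Mem.alg

/-- the logarithmic derivative of every local equation of `D` is regular -/
def LogReg {k K : Type} [Field k] [Field K] [Algebra k K] {V : Submodule k K} (D : Car V) : Prop :=
  ∀ (O : Subring K) (_ : IsLocalRing O), (∀ c, algebraMap k K c ∈ O) →
    ∀ s ∈ V, s ≠ 0 → (∀ v ∈ V, v / s ∈ O) → ∀ U a, Rep D U a → ∀ u ∈ U, u ≠ 0 →
      (∀ w ∈ U, w / u ∈ O) →
        (fun δ : Derivation ℤ K K => δ (u / s ^ a) / (u / s ^ a)) ∈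
          span O {φ : Derivation ℤ K K → K | ∃ b ∈ O, φ = fun δ => δ b}

/-- a symmetric biadditive form with the Hodge index property, definite modulo torsion -/
structure Good {G : Type} [CommGroup G] (β : G → G → ℚ) (L : G) : Prop where
  symm : ∀ x y, β x y = β y x
  add : ∀ x y z, β (x * y) z = β x z + β y z
  pos : 0 < β L L
  hi : ∀ x, β x L = 0 → β x x ≤ 0
  tors : ∀ x, β x L = 0 → β x x = 0 → ∃ n, 0 < n ∧ x ^ n = 1

/-- finite rank -/
def FinRk (G : Type) [CommGroup G] : Prop := Module.rank ℤ (Additive G) < Cardinal.aleph0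

/-- the integers localised at `p` -/
def Zp (p : ℕ) [hp : Fact p.Prime] : Subalgebra ℤ ℚ :=
  haveI : (Ideal.span {(p : ℤ)}).IsPrime :=
    (Ideal.span_singleton_prime (by exact_mod_cast hp.out.ne_zero)).2 (Nat.prime_iff_prime_int.1 hp.out)
  Localization.subalgebra.ofField ℚ (Ideal.span {(p : ℤ)}).primeCompl
    (Ideal.primeCompl_le_nonZeroDivisors _)

/-- Laurent polynomials over `Zp p` -/
def Lam (p : ℕ) [Fact p.Prime] : Subring (RatFunc ℚ) :=
  Subring.closure (RatFunc.C '' (Zp p : Set ℚ) ∪ {RatFunc.X, RatFunc.X⁻¹})

/-- polynomials over `Zp p` -/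
def Lam1 (p : ℕ) [Fact p.Prime] : Subring (RatFunc ℚ) :=
  Subring.closure (RatFunc.C '' (Zp p : Set ℚ) ∪ {RatFunc.X})

end

end Pool.Agent.Lib.MP_62d77c_ag
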