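import Pool.Agent.Lib.MP_62d77c_ag.Noeth

/-! Cartier classes and twists of families. -/

set_option autoImplicit false
set_option linter.unusedSectionVars false
set_option linter.unusedVariables false

namespace Pool.Agent.Lib.MP_62d77c_ag

open Filter Polynomial Submodule

noncomputable section

variable {k K E E' : Type} [CommRing k] [Field K] [Algebra k K] [AddCommGroup E] [Module K E]
  [Module k E] [IsScalarTower k K E] [AddCommGroup E'] [Module K E'] [Module k E']
  [IsScalarTower k K E'] {V : Submodule k K} {N N' : ℕ → Submodule k E} {D D' : Car V}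
  {U U' : Submodule k K} {a a' : ℕ}

theorem car_mk_iff :
    Localization.mk U (⟨V ^ a, Submonoid.pow_mem _ (Submonoid.mem_powers V) a⟩ :
      Submonoid.powers V) =
    Localization.mk U' ⟨V ^ a', Submonoid.pow_mem _ (Submonoid.mem_powers V) a'⟩ ↔
      ∃ c, V ^ (c + a') * U = V ^ (c + a) * U' := by
  rw [Localization.mk_eq_mk_iff, Localization.r_iff_exists]
  constructor
  · rintro ⟨⟨_, c, rfl⟩, e⟩
    exact ⟨c, by simpa [pow_add, mul_assoc] using e⟩
  · rintro ⟨c, e⟩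
    exact ⟨⟨V ^ c, c, rfl⟩, by simpa [pow_add, mul_assoc] using e⟩

theorem car_mul_smul (U U' : Submodule k K) (M : Submodule k E) : (U * U') • M = U • U' • M :=
  Submodule.smul_assoc U U' M

theorem car_smul_comm (U U' : Submodule k K) (M : Submodule k E) : U • U' • M = U' • U • M := by
  rw [← car_mul_smul, ← car_mul_smul, mul_comm]

theorem car_den0 : (⟨V ^ 0, Submonoid.pow_mem _ (Submonoid.mem_powers V) 0⟩ :
    Submonoid.powers V) = 1 := Subtype.ext (pow_zero V)

theorem rep_rp (D : Car V) : Rep D (rp D).1 (rp D).2 := by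
  refine Classical.epsilon_spec (p := fun x : Submodule k K × ℕ => Rep D x.1 x.2) ?_
  unfold Rep
  induction Car.val D using Localization.induction_on with
  | H y =>
    obtain ⟨U, s, a, rfl⟩ := y
    exact ⟨(U, a), rfl⟩

theorem Rep.eq (h : Rep D U a) (h' : Rep D U' a') : ∃ c, V ^ (c + a') * U = V ^ (c + a) * U' := car_mk_iff.1 (Eq.trans (Eq.symm h) h')

theorem Rep.of_eq (h : Rep D U a) {c : ℕ} (e : V ^ (c + a') * U = V ^ (c + a) * U') :
    Rep D U' a' := Eq.trans h (car_mk_iff.2 ⟨c, e⟩)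

theorem Rep.unique (h : Rep D U a) (h' : Rep D' U a) : D = D' := Units.ext (Eq.trans h (Eq.symm h'))

theorem Rep.mul (h : Rep D U a) (h' : Rep D' U' a') : Rep (D * D') (U * U') (a + a') := by
  unfold Rep at *
  rw [map_mul, h, h', Localization.mk_mul]
  congr 1
  exact Subtype.ext (pow_add V a a').symm

theorem Rep.pow (h : Rep D U a) (n : ℕ) : Rep (D ^ n) (U ^ n) (n * a) := by
  unfold Rep at *
  rw [map_pow, h, Localization.mk_pow]
  congr 1
  exact Subtype.ext (pow_mul' V n a).symm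

theorem rep_one : Rep (1 : Car V) 1 0 := by
  unfold Rep
  rw [map_one, car_den0, Localization.mk_one]

theorem rep_L : Rep (Lc V) V 0 := by
  unfold Rep
  rw [car_den0, Localization.mk_one_eq_algebraMap]
  rfl

theorem rep_prin (f : Kˣ) : Rep (prin V f) (span k {(f : K)}) 0 := by
  unfold Rep
  rw [car_den0, Localization.mk_one_eq_algebraMap]
  rfl

theorem Rep.shift (h : Rep D U a) (c : ℕ) : Rep D (V ^ c * U) (a + c) := 
  h.of_eq (c := 0) (by rw [zero_add, zero_add, pow_add, mul_assoc])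

theorem Rep.mul_L (h : Rep D U a) : Rep (D * Lc V ^ a) U 0 := 
  (h.mul (rep_L.pow a)).of_eq (c := 0) (by simp [mul_comm])

theorem Rep.exists_inv (h : Rep D U a) : ∃ U' m, U * U' = V ^ m := by
  have m := h.mul (rep_rp D⁻¹)
  rw [mul_inv_cancel] at m
  obtain ⟨c, e⟩ := m.eq rep_one
  exact ⟨V ^ (c + 0) * (rp D⁻¹).1, _, by rw [mul_left_comm, e, mul_one]⟩

theorem exists_car {m : ℕ} (h : U * U' = V ^ m) (a : ℕ) : ∃ D : Car V, Rep D U a := by
  refine ⟨Units.mkOfMulEqOne
    (Localization.mk U ⟨V ^ a, Submonoid.pow_mem _ (Submonoid.mem_powers V) a⟩)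
    (Localization.mk (U' * V ^ a) ⟨V ^ m, Submonoid.pow_mem _ (Submonoid.mem_powers V) m⟩) ?_, rfl⟩
  rw [Localization.mk_mul, ← Localization.mk_one, Localization.mk_eq_mk_iff,
    Localization.r_iff_exists]
  refine ⟨1, ?_⟩
  simp only [Submonoid.coe_mul, Submonoid.coe_one, one_mul, mul_one]
  rw [← mul_assoc, h, mul_comm]

theorem car_pow_ne (hV : Mdl V) (m : ℕ) : V ^ m ≠ ⊥ := by
  obtain ⟨v, hv, v0⟩ := (Submodule.ne_bot_iff V).1 hV.2
  exact (Submodule.ne_bot_iff _).2 ⟨v ^ m, pow_mem_pow V hv m, pow_ne_zero m v0⟩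

theorem car_inv (hV : Mdl V) (h : Rep D U a) :
    ∃ (u : K) (m : ℕ), u ≠ 0 ∧ ∀ x ∈ U, x * u ∈ V ^ m := by
  obtain ⟨U', m, e⟩ := h.exists_inv
  have ne : U' ≠ ⊥ := by
    rintro rfl
    exact car_pow_ne hV m (by rw [← e, Submodule.mul_bot])
  obtain ⟨u, hu, u0⟩ := (Submodule.ne_bot_iff U').1 ne
  exact ⟨u, m, u0, fun x hx => e ▸ mul_mem_mul hx hu⟩

theorem Rep.ne_bot (hV : Mdl V) (h : Rep D U a) : U ≠ ⊥ := by
  obtain ⟨U', m, e⟩ := h.exists_inv
  rintro rfl
  exact car_pow_ne hV m (by rw [← e, Submodule.bot_mul])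

theorem Rep.fg [IsNoetherianRing k] (hV : Mdl V) (h : Rep D U a) : U.FG := by
  obtain ⟨u, m, u0, hu⟩ := car_inv hV h
  refine fg_of_fg_map_injective (LinearMap.mulRight k u) (mul_left_injective₀ u0) ?_
  refine isNoetherian_submodule.1 (isNoetherian_of_fg_of_noetherian _ (hV.1.pow m)) _ ?_
  rintro _ ⟨x, hx, rfl⟩
  exact hu x hx

theorem cl_eq_iff : cl D = cl D' ↔ ∃ f : Kˣ, D' = D * prin V f := by
  refine QuotientGroup.eq.trans ⟨?_, ?_⟩
  · rintro ⟨f, e⟩
    exact ⟨f, by rw [e, mul_inv_cancel_left]⟩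
  · rintro ⟨f, rfl⟩
    exact ⟨f, by rw [inv_mul_cancel_left]⟩

theorem cl_out (E : Pic V) : cl E.out = E := Quotient.out_eq E

theorem exists_out (D : Car V) : ∃ f : Kˣ, (cl D).out = D * prin V f := 
  cl_eq_iff.1 (cl_out (cl D)).symm

theorem tw_congr (D : Car V) (h : N =ᶠ[atTop] N') : tw D N =ᶠ[atTop] tw D N' := by
  filter_upwards [(tendsto_sub_atTop_nat (rp D).2).eventually h] with n hn
  unfold tw
  rw [hn]

theorem tw_mono (D : Car V) (h : N ≤ᶠ[atTop] N') : tw D N ≤ᶠ[atTop] tw D N' := by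
  filter_upwards [(tendsto_sub_atTop_nat (rp D).2).eventually h] with n hn
  exact Submodule.smul_mono le_rfl hn

theorem tw_rep (hN : Fg V N) (h : Rep D U a) : tw D N =ᶠ[atTop] fun n => U • N (n - a) := by
  obtain ⟨c, e⟩ := (rep_rp D).eq h
  obtain ⟨n0, h0⟩ := eventually_atTop.1 hN.pow_smul
  filter_upwards [eventually_ge_atTop (n0 + c + a + (rp D).2)] with n hn
  obtain ⟨d, rfl⟩ := Nat.exists_eq_add_of_le hn
  unfold tw
  rw [show n0 + c + a + (rp D).2 + d - (rp D).2 = n0 + d + (c + a) by omega,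
    show n0 + c + a + (rp D).2 + d - a = n0 + d + (c + (rp D).2) by omega,
    h0 _ (Nat.le_add_right _ _), h0 _ (Nat.le_add_right _ _), ← car_mul_smul, ← car_mul_smul,
    mul_comm (rp D).1, e, mul_comm U]

theorem Fam.tw (hN : Fam V N) (D : Car V) : Fam V (tw D N) := by
  filter_upwards [(tendsto_sub_atTop_nat (rp D).2).eventually hN, eventually_ge_atTop (rp D).2]
    with n h1 h2
  show V • (rp D).1 • N (n - (rp D).2) ≤ (rp D).1 • N (n + 1 - (rp D).2)
  rw [car_smul_comm, Nat.sub_add_comm h2]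
  exact Submodule.smul_mono le_rfl h1

theorem tw_sub (D : Car V) (N : ℕ → Submodule k E) (a : ℕ) :
    tw D (fun n => N (n - a)) = fun n => tw D N (n - a) := by
  funext n
  unfold tw
  rw [Nat.sub_right_comm]

theorem tw_sup (D : Car V) (N N' : ℕ → Submodule k E) :
    tw D (fun n => N n ⊔ N' n) = fun n => tw D N n ⊔ tw D N' n := 
  funext fun _ => Submodule.smul_sup _ _ _

theorem tw_map (D : Car V) (N : ℕ → Submodule k E) (φ : E →ₗ[K] E') :
    tw D (fun n => (N n).map (φ.restrictScalars k)) =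
      fun n => (tw D N n).map (φ.restrictScalars k) := funext fun _ => smul_map _ _ φ

theorem tw_pi {β : Type} [Fintype β] (D : Car V) (M : β → ℕ → Submodule k E) :
    tw D (fun n => Submodule.pi Set.univ fun i => M i n) =
      fun n => Submodule.pi Set.univ fun i => tw D (M i) n := funext fun _ => smul_pi _ _

theorem tw_one (hN : Fg V N) : tw (1 : Car V) N =ᶠ[atTop] N := 
  (tw_rep hN rep_one).mono fun n hn => hn.trans (Submodule.one_smul _)

theorem tw_L (hN : Fg V N) (j : ℕ) : tw (Lc V ^ j) N =ᶠ[atTop] fun n => N (n + j) := by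
  filter_upwards [tw_rep hN (rep_L.pow j), hN.pow_smul] with n h1 h2
  rw [h1, h2 j]
  rfl

theorem tw_prin (hN : Fg V N) (f : Kˣ) : tw (prin V f) N =ᶠ[atTop]
    fun n => (N n).map ((LinearMap.lsmul K E (f : K)).restrictScalars k) := by
  filter_upwards [tw_rep hN (rep_prin f)] with n h1
  rw [h1]
  refine le_antisymm (Submodule.smul_le.2 fun r hr x hx => ?_) ?_
  · obtain ⟨c, rfl⟩ := mem_span_singleton.1 hr
    rw [smul_assoc]
    exact Submodule.smul_mem _ c ⟨x, hx, rfl⟩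
  · rintro _ ⟨x, hx, rfl⟩
    exact Submodule.smul_mem_smul (mem_span_singleton_self _) hx

variable [IsNoetherianRing k]

theorem Fg.tw (hV : Mdl V) (hN : Fg V N) (D : Car V) : Fg V (tw D N) := 
  (hN.sub _).smul ((rep_rp D).fg hV)

theorem tw_mul (hV : Mdl V) (hN : Fg V N) (D D' : Car V) :
    tw (D * D') N =ᶠ[atTop] tw D (tw D' N) := by
  filter_upwards [tw_rep hN ((rep_rp D).mul (rep_rp D'))] with n h1
  rw [h1, car_mul_smul, Nat.sub_add_eq]
  rfl

theorem car_tw_inv (hV : Mdl V) (hN : Fg V N) (D : Car V) : tw D⁻¹ (tw D N) =ᶠ[atTop] N := by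
  have := (tw_mul hV hN D⁻¹ D).symm
  rw [inv_mul_cancel] at this
  exact this.trans (tw_one hN)

theorem le_of_tw_le (hV : Mdl V) (hN : Fg V N) (hN' : Fg V N') (D : Car V)
    (h : tw D N ≤ᶠ[atTop] tw D N') : N ≤ᶠ[atTop] N' := 
  (car_tw_inv hV hN D).symm.le.trans ((tw_mono D⁻¹ h).trans (car_tw_inv hV hN' D).le)

omit [IsNoetherianRing k] in
theorem car_tw_le (D : Car V) (N : ℕ → Submodule k E) (M : ℕ → Submodule k E') (φ : E →ₗ[K] E')
    (n : ℕ) : tw D (fun n => N n ⊓ (M n).comap (φ.restrictScalars k)) n ≤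
      tw D N n ⊓ (tw D M n).comap (φ.restrictScalars k) := by
  refine Submodule.smul_le.2 fun r hr x hx => ⟨Submodule.smul_mem_smul hr hx.1, ?_⟩
  show φ (r • x) ∈ tw D M n
  rw [map_smul]
  exact Submodule.smul_mem_smul hr hx.2

theorem tw_inf_comap (hV : Mdl V) (hN : Fg V N) {M : ℕ → Submodule k E'} (hM : Fg V M)
    (φ : E →ₗ[K] E') (D : Car V) :
    tw D (fun n => N n ⊓ (M n).comap (φ.restrictScalars k)) =ᶠ[atTop]
      fun n => tw D N n ⊓ (tw D M n).comap (φ.restrictScalars k) := by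
  have hP := hN.inf hV.1 (hM.fam.comap φ)
  have hQ := (hN.tw hV D).inf hV.1 ((hM.tw hV D).fam.comap φ)
  refine EventuallyLE.antisymm (Eventually.of_forall fun n => car_tw_le D N M φ n) ?_
  refine le_of_tw_le hV hQ (hP.tw hV D) D⁻¹ ?_
  filter_upwards [car_tw_inv hV hN D, car_tw_inv hV hM D, car_tw_inv hV hP D] with n h1 h2 h3
  rw [h3, ← h1, ← h2]
  exact car_tw_le D⁻¹ _ _ φ n

theorem IsCl.fg (hV : Mdl V) {M : ℕ → Submodule k K} (h : IsCl D M) : Fg V M := 
  ((fg_pw' hV.1).tw hV D).congr h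

theorem IsCl.rep {M : ℕ → Submodule k K} (hV : Mdl V) (h : IsCl D M) :
    ∀ᶠ n in atTop, Rep D (M n) n := by
  filter_upwards [h, eventually_ge_atTop (rp D).2] with n h1 h2
  have := (rep_rp D).shift (n - (rp D).2)
  rw [Nat.add_sub_cancel' h2, mul_comm] at this
  rw [← h1]
  exact this

omit [IsNoetherianRing k] in
theorem car_isCl {M : ℕ → Submodule k K} (hV : Mdl V) {n : ℕ} (h : ∀ m, M (n + m) = V ^ m • M n)
    (r : Rep D (M n) n) : IsCl D M := by
  filter_upwards [tw_rep (fg_pw' hV.1) r, eventually_ge_atTop n] with m h1 h2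
  obtain ⟨d, rfl⟩ := Nat.exists_eq_add_of_le h2
  refine h1.trans ?_
  rw [h d, Nat.add_sub_cancel_left]
  exact mul_comm _ _

theorem isCl_of_rep {M : ℕ → Submodule k K} (hV : Mdl V) (hM : Fg V M)
    (h : ∃ᶠ n in atTop, Rep D (M n) n) : IsCl D M := by
  obtain ⟨n, h1, h2⟩ := (h.and_eventually hM.pow_smul).exists
  exact car_isCl hV h2 h1

theorem IsCl.unique {M : ℕ → Submodule k K} (hV : Mdl V) (h : IsCl D M) (h' : IsCl D' M) :
    D = D' := by
  obtain ⟨n, h1, h2⟩ := ((h.rep hV).and (h'.rep hV)).exists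
  exact h1.unique h2

theorem exists_isCl {M : ℕ → Submodule k K} (hV : Mdl V) (hM : Fg V M)
    (h : ∃ᶠ n in atTop, ∃ U' m, M n * U' = V ^ m) : ∃ D : Car V, IsCl D M := by
  obtain ⟨n, ⟨U', m, h1⟩, h2⟩ := (h.and_eventually hM.pow_smul).exists
  obtain ⟨D, r⟩ := exists_car h1 n
  exact ⟨D, car_isCl hV h2 r⟩

/-- every class is an ideal family up to a power of the hyperplane class -/
theorem exists_ideal_rep (hV : Mdl V) (E : Pic V) :
    ∀ᶠ c in atTop, ∃ D : Car V, cl D * Lp V ^ c = E ∧ tw D (pw V) ≤ᶠ[atTop] pw V := by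
  have r := rep_rp E.out
  generalize (rp E.out).1 = U at r
  generalize (rp E.out).2 = a at r
  obtain ⟨u, m, u0, hu⟩ := car_inv hV r
  obtain ⟨v, hv, v0⟩ := (Submodule.ne_bot_iff V).1 hV.2
  filter_upwards [eventually_ge_atTop m] with c hc
  obtain ⟨d, rfl⟩ := Nat.exists_eq_add_of_le hc
  obtain ⟨D', r'⟩ := exists_car (V := V) (U := 1) (U' := 1) (m := 0) (by simp) (m + d)
  have e : D' * Lc V ^ (m + d) = 1 := r'.mul_L.unique rep_one
  let f : Kˣ := Units.mk0 (u * v ^ (a + d)) (mul_ne_zero u0 (pow_ne_zero _ v0))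
  refine ⟨E.out * prin V f * D', ?_, ?_⟩
  · have e2 : cl (E.out * prin V f) = E := (cl_eq_iff.2 ⟨f, rfl⟩).symm.trans (cl_out E)
    rw [map_mul, mul_assoc, e2, Lp, ← map_pow, ← map_mul, e, map_one, mul_one]
  · filter_upwards [tw_rep (fg_pw' hV.1) ((r.mul (rep_prin f)).mul r'),
      eventually_ge_atTop (a + 0 + (m + d))] with n h1 h2
    obtain ⟨j, rfl⟩ := Nat.exists_eq_add_of_le h2
    refine h1.le.trans ?_
    rw [Nat.add_sub_cancel_left, mul_one]
    show U * span k {(f : K)} * V ^ j ≤ V ^ (a + 0 + (m + d) + j)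
    rw [pow_add _ _ j, show a + 0 + (m + d) = m + (a + d) by omega, pow_add _ m]
    refine mul_le_mul_left (Submodule.mul_le.2 fun x hx y hy => ?_) _
    obtain ⟨b, rfl⟩ := mem_span_singleton.1 hy
    rw [mul_smul_comm]
    refine Submodule.smul_mem _ b ?_
    show x * (u * v ^ (a + d)) ∈ _
    rw [← mul_assoc]
    exact mul_mem_mul (hu x hx) (pow_mem_pow V hv _)

end

end Pool.Agent.Lib.MP_62d77c_ag
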