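import Pool.Agent.Lib.MP_62d77c_ag.Model

/-! Primes of chart rings are points. -/

set_option autoImplicit false
set_option linter.unusedSectionVars false
set_option linter.style.haveILetI false

namespace Pool.Agent.Lib.MP_62d77c_ag

open Filter Polynomial Submodule

noncomputable section

variable {A : Type} [CommRing A] [IsDomain A] {𝒜 : ℕ → AddSubgroup A} [GradedRing 𝒜]
  [hG : Fact (Gen 𝒜)] {p : ℕ} [Fact p.Prime]

namespace AM
variable {k K : Type} [CommRing k] [Field K] [Algebra k K] (M : AM 𝒜 k K)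

omit hG in
theorem div_mem_fr {T : Submonoid A} {n : ℕ} {a b : A} (ha : a ∈ 𝒜 n) (hb : b ∈ 𝒜 n) (h : b ∈ T) :
    M.θ a / M.θ b ∈ M.fr T := Subring.subset_closure ⟨n, a, ha, b, hb, h, rfl⟩

omit hG in
theorem fr_le_orng {T : Submonoid A} {y : Pt 𝒜} (h : ∀ n, ∀ b ∈ 𝒜 n, b ∈ T → b ∉ pr y) :
    M.fr T ≤ M.orng y :=
  Subring.closure_mono fun _ ⟨n, a, ha, b, hb, hT, e⟩ => ⟨n, a, ha, b, hb, h n b hb hT, e⟩

omit hG in
theorem orng_anti {y y' : Pt 𝒜} (h : pr y' ≤ pr y) : M.orng y ≤ M.orng y' :=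
  M.fr_le_orng fun _ _ _ hb hb' => hb (h hb')

omit hG in
theorem chart_ne {y : Pt 𝒜} (hy : M.On y) {n : ℕ} {b : A} (hb : b ∈ 𝒜 n) (h : b ∉ pr y) :
    M.θ b ≠ 0 := fun e => h (hy n b hb e)

omit hG in
theorem isUnit_orng {y : Pt 𝒜} (hy : M.On y) {n : ℕ} {a b : A} (ha : a ∈ 𝒜 n) (hb : b ∈ 𝒜 n)
    (h : b ∉ pr y) : IsUnit (⟨M.θ a / M.θ b, M.div_mem_fr ha hb h⟩ : M.orng y) ↔ a ∉ pr y := by
  have b0 := M.chart_ne hy hb h
  constructor
  · intro u hay
    obtain ⟨z, hz⟩ := u.exists_right_inv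
    obtain ⟨m, c, hc, d, hd, hd', e⟩ := (M.mem_orng hy).1 z.2
    have d0 := M.chart_ne hy hd hd'
    have e1 : M.θ a / M.θ b * (M.θ c / M.θ d) = 1 := by rw [← e]; exact congrArg Subtype.val hz
    have e2 : M.θ (a * c - b * d) = 0 := by
      rw [map_sub, map_mul, map_mul, sub_eq_zero]
      field_simp at e1
      exact e1
    have := hy _ _ (sub_mem (SetLike.mul_mem_graded ha hc) (SetLike.mul_mem_graded hb hd)) e2
    have h2 : b * d ∈ pr y := by simpa using sub_mem (Ideal.mul_mem_right c _ hay) this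
    exact (y.isPrime.mem_or_mem h2).elim h hd'
  · intro hay
    have a0 := M.chart_ne hy ha hay
    refine IsUnit.of_mul_eq_one ⟨M.θ b / M.θ a, M.div_mem_fr hb ha hay⟩ (Subtype.ext ?_)
    simp only [Subring.coe_mul, Subring.coe_one]
    field_simp

theorem chart_val (R : Subring K) (P : Ideal R) [P.IsPrime] :
    ∃ O : ValuationSubring K, (∀ x ∈ R, O.valuation x ≤ 1) ∧ ∀ x : R, x ∈ P ↔ O.valuation x < 1 := by
  obtain ⟨O, h1, h2⟩ := (LocalSubring.ofPrime R P).exists_le_valuationSubring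
  refine ⟨O, fun x hx => (O.valuation_le_one_iff x).2 (h1 (LocalSubring.le_ofPrime R P hx)),
    fun x => ?_⟩
  rw [← IsLocalization.AtPrime.to_map_mem_maximal_iff (LocalSubring.ofPrime R P).toSubring P x]
  refine Iff.trans ?_ (O.valuation_lt_one_iff ⟨x, h1 (LocalSubring.le_ofPrime R P x.2)⟩)
  rw [IsLocalRing.mem_maximalIdeal, IsLocalRing.mem_maximalIdeal, mem_nonunits_iff,
    mem_nonunits_iff, ← isUnit_map_iff (Subring.inclusion h1)]
  rfl

omit hG in
theorem exists_pt_of_prime {T : Submonoid A} (hT : ∀ n, ∀ b ∈ 𝒜 n, b ∈ T → M.θ b ≠ 0) {e : ℕ}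
    (he : 0 < e) {F : A} (hF : F ∈ 𝒜 e) (hFT : F ∈ T) (P : Ideal (M.fr T)) (hP : P.IsPrime) :
    ∃ y : Pt 𝒜, M.On y ∧ (∀ n, ∀ b ∈ 𝒜 n, b ∈ T → b ∉ pr y) ∧
      ∀ n a b (ha : a ∈ 𝒜 n) (hb : b ∈ 𝒜 n) (h : b ∈ T),
        (⟨M.θ a / M.θ b, M.div_mem_fr ha hb h⟩ : M.fr T) ∈ P ↔ a ∈ pr y := by
  obtain ⟨O, h1, h2⟩ := chart_val (M.fr T) P
  set v := O.valuation
  have F0 : 0 < v (M.θ F) := zero_lt_iff.2 ((map_ne_zero v).2 (hT e F hF hFT))
  have pF : ∀ n, F ^ n ∈ 𝒜 (e * n) := fun n => by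
    simpa [mul_comm] using SetLike.pow_mem_graded n hF
  have pa : ∀ {n a}, a ∈ 𝒜 n → a ^ e ∈ 𝒜 (e * n) := fun h => by
    simpa using SetLike.pow_mem_graded e h
  have le : ∀ {n a}, a ∈ 𝒜 n → v (M.θ a) ^ e ≤ v (M.θ F) ^ n := fun {n a} h => by
    have := h1 _ (M.div_mem_fr (pa h) (pF n) (pow_mem hFT n))
    rwa [map_div₀, div_le_one₀ (by rw [map_pow, map_pow]; exact pow_pos F0 n), map_pow, map_pow,
      map_pow, map_pow] at this
  have eq : ∀ {n b}, b ∈ 𝒜 n → b ∈ T → v (M.θ b) ^ e = v (M.θ F) ^ n := fun {n b} h hb => by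
    have b0 : 0 < v (M.θ b) := zero_lt_iff.2 ((map_ne_zero v).2 (hT n b h hb))
    have := h1 _ (M.div_mem_fr (pF n) (pa h) (pow_mem hb e))
    rw [map_div₀, div_le_one₀ (by rw [map_pow, map_pow]; exact pow_pos b0 e), map_pow, map_pow,
      map_pow, map_pow] at this
    exact le_antisymm (le h) this
  have z0 : ∀ n, v (M.θ 0) ^ e < v (M.θ F) ^ n := fun n => by
    rw [map_zero, map_zero, zero_pow he.ne']; exact pow_pos F0 n
  have ad : ∀ n a b, v (M.θ a) ^ e < v (M.θ F) ^ n → v (M.θ b) ^ e < v (M.θ F) ^ n →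
      v (M.θ (a + b)) ^ e < v (M.θ F) ^ n := fun n a b ha hb => by
    rw [map_add]
    rcases le_max_iff.1 (v.map_add (M.θ a) (M.θ b)) with h | h
    · exact (pow_le_pow_left' h e).trans_lt ha
    · exact (pow_le_pow_left' h e).trans_lt hb
  let J : Ideal A :=
    { carrier := {a | ∀ n, v (M.θ (DirectSum.decompose 𝒜 a n)) ^ e < v (M.θ F) ^ n}
      zero_mem' := fun n => by simpa using z0 n
      add_mem' := fun {a b} ha hb n => by simpa using ad n _ _ (ha n) (hb n)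
      smul_mem' := fun c a ha => by
        induction c using DirectSum.Decomposition.inductionOn 𝒜 with
        | zero => intro n; simpa using z0 n
        | add c d hc hd => intro n; simpa [add_mul] using ad n _ _ (hc n) (hd n)
        | @homogeneous i c =>
          intro n
          rw [smul_eq_mul, DirectSum.coe_decompose_mul_of_left_mem 𝒜 n c.2]
          split_ifs with h
          · rw [map_mul, map_mul, mul_pow, ← Nat.add_sub_cancel' h, pow_add, Nat.add_sub_cancel' h]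
            exact (mul_le_mul_left (le c.2) _).trans_lt
              (mul_lt_mul_of_pos_left (ha _) (pow_pos F0 i))
          · exact z0 n }
  have mem : ∀ {n a}, a ∈ 𝒜 n → (a ∈ J ↔ v (M.θ a) ^ e < v (M.θ F) ^ n) := fun {n a} h => by
    refine ⟨fun k => ?_, fun k m => ?_⟩
    · have := k n
      rwa [DirectSum.decompose_of_mem_same 𝒜 h] at this
    · by_cases x : n = m
      · subst x; rwa [DirectSum.decompose_of_mem_same 𝒜 h]
      · rw [DirectSum.decompose_of_mem_ne 𝒜 h x]; exact z0 m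
  have hom : J.IsHomogeneous 𝒜 := fun i a ha => (mem (SetLike.coe_mem _)).2 (ha i)
  have nT : ∀ n, ∀ b ∈ 𝒜 n, b ∈ T → b ∉ J := fun n b h hb k =>
    ((mem h).1 k).ne (eq h hb)
  have pri : J.IsPrime := by
    refine hom.isPrime_of_homogeneous_mem_or_mem (fun k => nT e F hF hFT (k ▸ trivial)) ?_
    rintro a b ⟨n, ha⟩ ⟨m, hb⟩ k
    rw [mem (SetLike.mul_mem_graded ha hb), map_mul, map_mul, mul_pow, pow_add] at k
    rw [mem ha, mem hb]
    by_contra x
    push Not at x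
    exact k.not_ge (mul_le_mul' x.1 x.2)
  refine ⟨⟨⟨J, hom⟩, pri, fun k => nT e F hF hFT
    (k (HomogeneousIdeal.mem_irrelevant_of_mem 𝒜 he hF))⟩, fun n a ha h0 => (mem ha).2 ?_, nT,
    fun n a b ha hb h => ?_⟩
  · rw [h0, ← map_zero M.θ]; exact z0 n
  · have b0 : 0 < v (M.θ b) := zero_lt_iff.2 ((map_ne_zero v).2 (hT n b hb h))
    refine (h2 _).trans (Iff.trans ?_ (mem ha).symm)
    rw [map_div₀, div_lt_one₀ b0, ← eq hb h, pow_lt_pow_iff_left₀ zero_le zero_le he.ne']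

omit hG in
theorem isLocalization_orng {T : Submonoid A} (hT : ∀ n, ∀ b ∈ 𝒜 n, b ∈ T → M.θ b ≠ 0) {e : ℕ}
    (he : 0 < e) {F : A} (hF : F ∈ 𝒜 e) (hFT : F ∈ T) (P : Ideal (M.fr T)) [P.IsPrime] {y : Pt 𝒜}
    (hy : M.On y) (hle : M.fr T ≤ M.orng y)
    (hP : ∀ n a b (ha : a ∈ 𝒜 n) (hb : b ∈ 𝒜 n) (h : b ∈ T),
      (⟨M.θ a / M.θ b, M.div_mem_fr ha hb h⟩ : M.fr T) ∈ P ↔ a ∈ pr y) :
    letI := (Subring.inclusion hle).toAlgebra
    IsLocalization.AtPrime (M.orng y) P := by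
  letI := (Subring.inclusion hle).toAlgebra
  have nT : ∀ n, ∀ b ∈ 𝒜 n, b ∈ T → b ∉ pr y := fun n b hb h k => by
    have := (hP n b b hb hb h).2 k
    have e1 : (⟨M.θ b / M.θ b, M.div_mem_fr hb hb h⟩ : M.fr T) = 1 :=
      Subtype.ext (div_self (hT n b hb h))
    exact Ideal.IsPrime.ne_top' ((Ideal.eq_top_iff_one P).2 (e1 ▸ this))
  refine (isLocalization_iff _ _).2 ⟨?_, fun z => ?_, fun {a b} h => ⟨1, ?_⟩⟩
  · rintro ⟨⟨s, hs⟩, hs'⟩
    obtain ⟨n, a, ha, b, hb, h, rfl⟩ := (M.mem_fr hT).1 hs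
    exact (M.isUnit_orng hy ha hb (nT n b hb h)).2 fun k => hs' ((hP n a b ha hb h).2 k)
  · obtain ⟨n, a, ha, b, hb, h, ez⟩ := (M.mem_orng hy).1 z.2
    obtain ⟨e, rfl⟩ := Nat.exists_eq_succ_of_ne_zero he.ne'
    have pF : F ^ n ∈ 𝒜 (e * n + n) := by
      have := SetLike.pow_mem_graded n hF
      rwa [smul_eq_mul, mul_comm, Nat.succ_mul] at this
    have pb : b ^ e ∈ 𝒜 (e * n) := by simpa using SetLike.pow_mem_graded e hb
    refine ⟨⟨⟨_, M.div_mem_fr (SetLike.mul_mem_graded pb ha) pF (pow_mem hFT n)⟩,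
      ⟨_, M.div_mem_fr (SetLike.mul_mem_graded pb hb) pF (pow_mem hFT n)⟩, fun k => ?_⟩,
      Subtype.ext ?_⟩
    · exact (y.isPrime.mem_or_mem
        ((hP _ _ _ (SetLike.mul_mem_graded pb hb) pF (pow_mem hFT n)).1 k)).elim
        (fun x => h (y.isPrime.mem_of_pow_mem _ x)) h
    · have b0 := M.chart_ne hy hb h
      change (z : K) * (M.θ (b ^ e * b) / M.θ (F ^ n)) = M.θ (b ^ e * a) / M.θ (F ^ n)
      rw [ez, map_mul, map_mul]
      field_simp
  · rw [Subring.inclusion_injective hle h]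

theorem fr_finiteType {l : A} (hl : l ∈ 𝒜 1) (h0 : M.θ l ≠ 0) :
    Algebra.FiniteType ℤ (M.fr (Submonoid.powers l)) := by
  classical
  obtain ⟨t, ht⟩ := M.V_fg
  let C := Algebra.adjoin ℤ ((fun z => z / M.θ l) '' (t : Set K))
  have sc : ∀ c : k, algebraMap k K c ∈ C := fun c => by
    obtain ⟨m, rfl⟩ := M.surj c
    simp
  have c1 : ∀ z ∈ M.V, z / M.θ l ∈ C := fun z hz => by
    rw [← ht] at hz
    induction hz using Submodule.span_induction with
    | mem z hz => exact Algebra.subset_adjoin ⟨z, hz, rfl⟩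
    | zero => simp
    | add a b _ _ ha hb => rw [add_div]; exact add_mem ha hb
    | smul c a _ ha => rw [Algebra.smul_def, mul_div_assoc]; exact mul_mem (sc c) ha
  have cn : ∀ n, ∀ z ∈ M.V ^ n, z / M.θ l ^ n ∈ C := fun n z hz => by
    induction hz using Submodule.pow_induction_on_left' with
    | algebraMap c => simpa using sc c
    | add a b i _ _ ha hb => rw [add_div]; exact add_mem ha hb
    | mem_mul m hm i x _ hx => rw [pow_succ', ← div_mul_div_comm]; exact mul_mem (c1 m hm) hx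
  have hT : ∀ n, ∀ b ∈ 𝒜 n, b ∈ Submonoid.powers l → M.θ b ≠ 0 := by
    rintro n b - ⟨m, rfl⟩
    rw [map_pow]; exact pow_ne_zero m h0
  have e : M.fr (Submonoid.powers l) = C.toSubring := by
    refine le_antisymm (fun z hz => ?_) ?_
    · obtain ⟨n, a, ha, b, hb, h, rfl⟩ := (M.mem_fr hT).1 hz
      have b0 : b ≠ 0 := fun x => hT n b hb h (by rw [x, map_zero])
      obtain ⟨m, rfl⟩ := h
      obtain rfl : n = m := DirectSum.degree_eq_of_mem_mem 𝒜 hb
        (by simpa using SetLike.pow_mem_graded m hl) b0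
      rw [map_pow]
      exact cn n _ (M.mem_pow.2 ⟨a, ha, rfl⟩)
    · refine show C ≤ subalgebraOfSubring (M.fr (Submonoid.powers l)) from Algebra.adjoin_le ?_
      rintro _ ⟨z, hz, rfl⟩
      obtain ⟨a, -, ha, rfl⟩ := M.mem_fam.1 (ht ▸ Submodule.subset_span hz : z ∈ M.V)
      exact M.div_mem_fr ha hl (Submonoid.mem_powers l)
  rw [e]
  exact Algebra.FiniteType.adjoin_of_finite (t.finite_toSet.image _)

theorem orng_noeth {y : Pt 𝒜} (hy : M.On y) : IsNoetherianRing (M.orng y) := by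
  obtain ⟨hl, hl'⟩ := ell_spec y
  have h0 := M.chart_ne hy hl hl'
  have nT : ∀ n, ∀ b ∈ 𝒜 n, b ∈ Submonoid.powers (ell y) → b ∉ pr y := by
    rintro n b - ⟨m, rfl⟩ k
    exact hl' (y.isPrime.mem_of_pow_mem _ k)
  have hle := M.fr_le_orng nT
  haveI := M.orng_local hy
  haveI := M.fr_finiteType hl h0
  haveI : IsNoetherianRing (M.fr (Submonoid.powers (ell y))) :=
    Algebra.FiniteType.isNoetherianRing ℤ _
  let P := (IsLocalRing.maximalIdeal (M.orng y)).comap (Subring.inclusion hle)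
  letI := (Subring.inclusion hle).toAlgebra
  haveI := M.isLocalization_orng (fun n b hb h => M.chart_ne hy hb (nT n b hb h)) one_pos hl
    (Submonoid.mem_powers _) P hy hle fun n a b ha hb h => by
      rw [Ideal.mem_comap, IsLocalRing.mem_maximalIdeal, mem_nonunits_iff]
      exact (M.isUnit_orng hy ha hb (nT n b hb h)).not_left
  exact IsLocalization.isNoetherianRing P.primeCompl _ inferInstance

/-- the local ring of the model is a quotient of the local ring of the whole scheme -/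
theorem exists_loc_hom {y : Pt 𝒜} (hy : M.On y) : ∃ φ : loc y →+* M.orng y,
    Function.Surjective φ ∧ ∀ n a b (ha : a ∈ 𝒜 n) (hb : b ∈ 𝒜 n) (h : b ∉ pr y),
      (φ ⟨_, (MX 𝒜).div_mem_fr ha hb h⟩ : K) = M.θ a / M.θ b := by
  choose n a ha b hb h e using fun z : loc y => mem_loc.1 z.2
  have ne : ∀ {c : A}, c ∉ pr y → algebraMap A (FractionRing A) c ≠ 0 := fun {c} hc k =>
    hc (((FaithfulSMul.algebraMap_eq_zero_iff _ _).1 k) ▸ zero_mem _)
  have key : ∀ (z : loc y) m c d, c ∈ 𝒜 m → d ∈ 𝒜 m → d ∉ pr y →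
      z.1 = algebraMap A (FractionRing A) c / algebraMap A (FractionRing A) d →
      M.θ (a z) / M.θ (b z) = M.θ c / M.θ d := fun z m c d hc hd hd' ez => by
    rw [e z, div_eq_div_iff (ne (h z)) (ne hd'), ← map_mul, ← map_mul,
      (IsFractionRing.injective A (FractionRing A)).eq_iff] at ez
    rw [div_eq_div_iff (M.chart_ne hy (hb z) (h z)) (M.chart_ne hy hd hd'), ← map_mul, ← map_mul, ez]
  have pm : ∀ z w, b z * b w ∉ pr y := fun z w k => (y.isPrime.mem_or_mem k).elim (h z) (h w)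
  have o : (1 : A) ∉ pr y := fun k => y.isPrime.ne_top ((Ideal.eq_top_iff_one _).2 k)
  let φ : loc y →+* M.orng y :=
    { toFun := fun z => ⟨M.θ (a z) / M.θ (b z), M.div_mem_fr (ha z) (hb z) (h z)⟩
      map_one' := Subtype.ext <| by
        simpa using key 1 0 1 1 (SetLike.one_mem_graded 𝒜) (SetLike.one_mem_graded 𝒜) o (by simp)
      map_zero' := Subtype.ext <| by
        simpa using key 0 0 0 1 (zero_mem _) (SetLike.one_mem_graded 𝒜) o (by simp)
      map_mul' := fun z w => Subtype.ext <| by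
        have := key (z * w) _ _ _ (SetLike.mul_mem_graded (ha z) (ha w))
          (SetLike.mul_mem_graded (hb z) (hb w)) (pm z w)
          (by rw [Subring.coe_mul, e z, e w, map_mul, map_mul, div_mul_div_comm])
        rw [map_mul, map_mul, ← div_mul_div_comm] at this
        exact this
      map_add' := fun z w => Subtype.ext <| by
        have := key (z + w) _ _ _ (add_mem (SetLike.mul_mem_graded (ha z) (hb w))
          (SetLike.mul_mem_graded (hb z) (ha w))) (SetLike.mul_mem_graded (hb z) (hb w)) (pm z w)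
          (by rw [Subring.coe_add, e z, e w, div_add_div _ _ (ne (h z)) (ne (h w))]; simp)
        rw [map_add, map_mul, map_mul, map_mul,
          ← div_add_div _ _ (M.chart_ne hy (hb z) (h z)) (M.chart_ne hy (hb w) (h w))] at this
        exact this }
  have hφ : ∀ n a b (ha : a ∈ 𝒜 n) (hb : b ∈ 𝒜 n) (h : b ∉ pr y),
      (φ ⟨_, (MX 𝒜).div_mem_fr ha hb h⟩ : K) = M.θ a / M.θ b :=
    fun m c d hc hd hd' => key _ m c d hc hd hd' rfl
  refine ⟨φ, fun z => ?_, hφ⟩
  obtain ⟨m, c, hc, d, hd, hd', ez⟩ := (M.mem_orng hy).1 z.2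
  exact ⟨_, Subtype.ext ((hφ m c d hc hd hd').trans ez.symm)⟩

end AM

end

end Pool.Agent.Lib.MP_62d77c_ag
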