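import Pool.Agent.Lib.MP_62d77c_ag.Sec

/-! The degree of a line bundle on a curve as the order of a norm. -/

set_option autoImplicit false

namespace Pool.Agent.Lib.MP_62d77c_ag

open Filter Polynomial Submodule

noncomputable section

section aux
variable {k K : Type} [Field k] [Field K] [Algebra k K] {V U : Submodule k K}

theorem curve_mul {a b : K} {m n : ℕ} (ha : a ∈ V ^ m) (hb : b ∈ V ^ n) : a * b ∈ V ^ (m + n) := by
  rw [pow_add]; exact Submodule.mul_mem_mul ha hb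

theorem curve_pow {a : K} {m : ℕ} (ha : a ∈ V ^ m) (n : ℕ) : a ^ n ∈ V ^ (m * n) := by
  rw [pow_mul]; exact Submodule.pow_mem_pow _ ha n

/-- functions on the chart `F ≠ 0` -/
def curveR [Algebra k[X] K] [IsScalarTower k k[X] K] (V : Submodule k K) {e : ℕ} {F : K}
    (hF : F ∈ V ^ e) (hX : F * algebraMap k[X] K X ∈ V ^ e) : Subalgebra k[X] K where
  carrier := {z | ∃ m, F ^ m * z ∈ V ^ (e * m)}
  mul_mem' := by
    rintro a b ⟨m, ha⟩ ⟨n, hb⟩
    refine ⟨m + n, ?_⟩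
    have := curve_mul ha hb
    rwa [← mul_add, mul_mul_mul_comm, ← pow_add] at this
  add_mem' := by
    rintro a b ⟨m, ha⟩ ⟨n, hb⟩
    refine ⟨m + n, ?_⟩
    have h1 := curve_mul ha (curve_pow hF n)
    have h2 := curve_mul (curve_pow hF m) hb
    rw [← mul_add] at h1 h2
    convert add_mem h1 h2 using 1
    ring
  algebraMap_mem' := by
    intro p
    induction p using Polynomial.induction_on with
    | C c =>
      refine ⟨0, ?_⟩
      rw [pow_zero, one_mul, mul_zero, pow_zero, ← Polynomial.algebraMap_eq,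
        ← IsScalarTower.algebraMap_apply]
      exact Submodule.algebraMap_mem c
    | add p q hp hq =>
      obtain ⟨m, ha⟩ := hp
      obtain ⟨n, hb⟩ := hq
      refine ⟨m + n, ?_⟩
      have h1 := curve_mul ha (curve_pow hF n)
      have h2 := curve_mul (curve_pow hF m) hb
      rw [← mul_add] at h1 h2
      convert add_mem h1 h2 using 1
      rw [map_add]
      ring
    | monomial n c h =>
      obtain ⟨m, ha⟩ := h
      refine ⟨m + 1, ?_⟩
      have := curve_mul ha hX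
      rw [← Nat.mul_succ] at this
      convert this using 1
      rw [pow_succ X, ← mul_assoc (C c), map_mul _ _ X]
      ring

/-- saturation with respect to the pair `F₀`, `F₁` -/
theorem curve_sat (hV : Mdl V) {e : ℕ} {F₀ F₁ : K} (h₁ : F₁ ∈ V ^ e)
    (hcov : ∀ᶠ n in atTop, V ^ (n + e) ≤ span k {F₀, F₁} * V ^ n) :
    ∀ᶠ n in atTop, ∀ (z : K) (j : ℕ), z * F₀ ∈ V ^ (n + e) → F₁ ^ j * z ∈ V ^ (n + e * j) →
      z ∈ V ^ n := by
  obtain ⟨n0, hn0⟩ := eventually_atTop.1 hcov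
  filter_upwards [H0_shift (E := K) hV (fg_pw' hV.1)] with n hn z j h0 h1
  rw [← hn]
  have key : ∀ i m, n0 ≤ m → (∀ v ∈ V ^ m, v * (F₁ ^ i * z) ∈ V ^ (m + e * i + n)) →
      ∀ v ∈ V ^ (m + e * i), v * z ∈ V ^ (m + e * i + n) := by
    intro i
    induction i with
    | zero => intro m _ h v hv; simpa using h v (by simpa using hv)
    | succ i ih =>
      intro m hm h v hv
      have e1 : m + e * (i + 1) = m + e + e * i := by ring
      rw [e1] at hv h ⊢
      refine ih (m + e) (by omega) (fun w hw => ?_) v hv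
      refine Submodule.mul_induction_on (hn0 m hm hw) (fun a ha b hb => ?_)
        fun x y hx hy => by rw [add_mul]; exact add_mem hx hy
      obtain ⟨c0, c1, rfl⟩ := Submodule.mem_span_pair.1 ha
      have a0 := curve_mul (curve_mul hb (curve_pow h₁ i)) h0
      rw [show m + e * i + (n + e) = m + e + e * i + n by ring] at a0
      convert add_mem (Submodule.smul_mem _ c0 a0) (Submodule.smul_mem _ c1 (h b hb)) using 1
      simp only [Algebra.smul_def]
      ring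
  refine eventually_atTop.2 ⟨n0 + e * j, fun m hm v hv => ?_⟩
  obtain ⟨m', rfl⟩ : ∃ m', m = m' + e * j := ⟨m - e * j, by omega⟩
  refine key j m' (by omega) (fun w hw => ?_) v hv
  have := curve_mul hw h1
  rwa [show m' + (n + e * j) = m' + e * j + n by ring] at this

theorem curve_fin [Algebra k[X] K] [IsScalarTower k k[X] K] (hV : Mdl V) {e : ℕ} (he : 0 < e)
    {F : K} (hF : F ∈ V ^ e) (hX : F * algebraMap k[X] K X ∈ V ^ e) (h0 : F ≠ 0)
    (hcov : ∀ᶠ n in atTop, V ^ (n + e) ≤ span k {F * algebraMap k[X] K X, F} * V ^ n) :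
    Module.Finite k[X] (curveR V hF hX) := by
  classical
  obtain ⟨n0, hn0⟩ := eventually_atTop.1 hcov
  obtain ⟨s, hs⟩ := hV.1.pow (e * n0)
  refine Module.Finite.iff_fg (N := (curveR V hF hX).toSubmodule).2
    ⟨s.image fun x => x / F ^ n0, le_antisymm (span_le.2 ?_) ?_⟩
  · intro y hy
    obtain ⟨x, hx, rfl⟩ := Finset.mem_image.1 hy
    refine ⟨n0, ?_⟩
    rw [mul_div_cancel₀ _ (pow_ne_zero _ h0), ← hs]
    exact subset_span hx
  set M := span k[X] ((s.image fun x => x / F ^ n0 : Finset K) : Set K) with hM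
  have sm : ∀ (c : k) (x : K), x ∈ M → c • x ∈ M := fun c x hx => M.smul_of_tower_mem c hx
  have key : ∀ j, ∀ w ∈ V ^ (e * (n0 + j)), w / F ^ (n0 + j) ∈ M := by
    intro j
    induction j with
    | zero =>
      intro w hw
      rw [add_zero] at hw ⊢
      rw [← hs] at hw
      induction hw using Submodule.span_induction with
      | mem x hx => exact subset_span (Finset.mem_coe.2 (Finset.mem_image.2 ⟨x, hx, rfl⟩))
      | zero => simp
      | add x y _ _ hx hy => rw [add_div]; exact add_mem hx hy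
      | smul c x _ hx => rw [smul_div_assoc]; exact sm c _ hx
    | succ j ih =>
      intro w hw
      rw [← add_assoc, Nat.mul_succ] at hw
      refine Submodule.mul_induction_on (hn0 _ (by nlinarith) hw) (fun a ha b hb => ?_)
        fun x y hx hy => by rw [add_div]; exact add_mem hx hy
      obtain ⟨c0, c1, rfl⟩ := Submodule.mem_span_pair.1 ha
      convert add_mem (sm c0 _ (M.smul_mem X (ih b hb))) (sm c1 _ (ih b hb)) using 1
      simp only [Algebra.smul_def]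
      rw [← add_assoc, pow_succ]
      field_simp
  rintro z ⟨m, hz⟩
  have := key m _ (by rw [mul_add]; exact curve_mul (curve_pow hF n0) hz)
  rwa [← mul_assoc, ← pow_add, mul_div_cancel_left₀ _ (pow_ne_zero _ h0)] at this

theorem curve_count [Algebra k[X] K] [IsScalarTower k k[X] K] (hV : Mdl V) (hU : U.FG) {e : ℕ}
    (he : 0 < e) {σ₀ σ₁ τ₀ τ₁ : K} (h₀ : σ₀ ∈ U) (h₁ : σ₁ ∈ U) (n₀ : σ₀ ≠ 0)
    (t₀ : ∀ u ∈ U, u * τ₀ ∈ V ^ e) (t₁ : ∀ u ∈ U, u * τ₁ ∈ V ^ e) (hne : σ₁ * τ₁ ≠ 0)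
    (hX : σ₁ * τ₁ * algebraMap k[X] K X ∈ V ^ e)
    (hcov : ∀ᶠ n in atTop, V ^ (n + e) ≤ span k {σ₀ * τ₀, σ₁ * τ₁} * V ^ n)
    (g : curveR V (t₁ _ h₁) hX) (hg : (g : K) = σ₀ / σ₁)
    [FiniteDimensional k (curveR V (t₁ _ h₁) hX ⧸ Ideal.span {g})] :
    ∀ᶠ m in atTop, Module.finrank k (U * V ^ (e * m) : Submodule k K) =
      Module.finrank k (curveR V (t₁ _ h₁) hX ⧸ Ideal.span {g}) +
        Module.finrank k (V ^ (e * m) : Submodule k K) := by
  have n₁ : σ₁ ≠ 0 := left_ne_zero_of_mul hne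
  have nτ : τ₁ ≠ 0 := right_ne_zero_of_mul hne
  have hF := t₁ _ h₁
  have mem : ∀ m, ∀ w ∈ U * V ^ (e * m), w / (σ₁ * (σ₁ * τ₁) ^ m) ∈ curveR V (t₁ _ h₁) hX := by
    intro m w hw
    refine Submodule.mul_induction_on hw (fun a ha b hb => ⟨m + 1, ?_⟩)
      fun x y hx hy => by rw [add_div]; exact add_mem hx hy
    have := curve_mul hb (t₁ a ha)
    rw [← Nat.mul_succ] at this
    convert this using 1
    rw [pow_succ]
    field_simp
  let φ : ∀ m, (U * V ^ (e * m) : Submodule k K) →ₗ[k] curveR V (t₁ _ h₁) hX := fun m =>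
    { toFun := fun w => ⟨w / (σ₁ * (σ₁ * τ₁) ^ m), mem m w w.2⟩
      map_add' := fun x y => Subtype.ext (by simp [add_div])
      map_smul' := fun c x => Subtype.ext (by simp [smul_div_assoc]) }
  let ψ : ∀ m, (U * V ^ (e * m) : Submodule k K) →ₗ[k] (curveR V (t₁ _ h₁) hX ⧸ Ideal.span {g}) :=
    fun m => (Ideal.Quotient.mkₐ k (Ideal.span {g})).toLinearMap ∘ₗ φ m
  have onto : ∀ᶠ m in atTop, LinearMap.range (ψ m) = ⊤ := by
    obtain ⟨n, b, hb0⟩ := Module.Finite.exists_fin (R := k)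
      (M := curveR V (t₁ _ h₁) hX ⧸ Ideal.span {g})
    have : ∀ i, ∀ᶠ m in atTop, b i ∈ LinearMap.range (ψ m) := by
      intro i
      obtain ⟨⟨z, j, hz⟩, hb⟩ := Ideal.Quotient.mk_surjective (b i)
      refine eventually_atTop.2 ⟨j, fun m hm => ?_⟩
      obtain ⟨l, rfl⟩ := Nat.exists_eq_add_of_le hm
      have h1 := curve_mul hz (curve_pow hF l)
      rw [← mul_add] at h1
      refine ⟨⟨_, Submodule.mul_mem_mul h₁ h1⟩, ?_⟩
      rw [← hb]
      refine congrArg (Ideal.Quotient.mk _) (Subtype.ext ?_)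
      show _ / _ = z
      rw [pow_add]
      field_simp
    filter_upwards [eventually_all.2 this] with m hm
    rw [eq_top_iff, ← hb0, span_le]
    rintro _ ⟨i, rfl⟩
    exact hm i
  have tend : Tendsto (fun m => e * m) atTop atTop := tendsto_id.const_mul_atTop' he
  filter_upwards [onto, tend.eventually (curve_sat hV hF hcov)] with m hm sat
  have : Module.Finite k (U * V ^ (e * m) : Submodule k K) :=
    Module.Finite.iff_fg.2 (hU.mul (hV.1.pow _))
  rw [← (ψ m).finrank_range_add_finrank_ker, hm, finrank_top]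
  congr 1
  rw [← Submodule.finrank_map_subtype_eq,
    ← (Submodule.equivMapOfInjective (LinearMap.mulLeft k σ₀) (mul_right_injective₀ n₀)
      (V ^ (e * m))).symm.finrank_eq]
  refine congrArg (fun W : Submodule k K => Module.finrank k W) ?_
  ext w
  constructor
  · rintro ⟨⟨w, hw⟩, hk, rfl⟩
    obtain ⟨⟨z, j, hz⟩, hc⟩ := Ideal.mem_span_singleton'.1 (Ideal.Quotient.eq_zero_iff_mem.1 hk)
    have hc' : z * (σ₀ / σ₁) = w / (σ₁ * (σ₁ * τ₁) ^ m) := by
      rw [← hg]; exact congrArg Subtype.val hc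
    have hz' : z = w / σ₀ / (σ₁ * τ₁) ^ m := by
      field_simp at hc' ⊢
      exact hc'
    refine ⟨w / σ₀, sat _ j ?_ ?_, mul_div_cancel₀ _ n₀⟩
    · rw [show w / σ₀ * (σ₀ * τ₀) = w * τ₀ by field_simp]
      refine Submodule.mul_induction_on hw (fun a ha b hb => ?_)
        fun x y hx hy => by rw [add_mul]; exact add_mem hx hy
      convert curve_mul hb (t₀ a ha) using 1
      ring
    · convert curve_mul (curve_pow hF m) hz using 1
      rw [hz']
      field_simp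
  · rintro ⟨v, hv, rfl⟩
    refine ⟨⟨σ₀ * v, Submodule.mul_mem_mul h₀ hv⟩, ?_, rfl⟩
    refine Ideal.Quotient.eq_zero_iff_mem.2 (Ideal.mem_span_singleton'.2
      ⟨⟨v / (σ₁ * τ₁) ^ m, m, by rwa [mul_div_cancel₀ _ (pow_ne_zero _ hne)]⟩, Subtype.ext ?_⟩)
    show v / (σ₁ * τ₁) ^ m * (g : K) = σ₀ * v / (σ₁ * (σ₁ * τ₁) ^ m)
    rw [hg]
    field_simp

end aux

theorem curve_deg {k K : Type} [Field k] [Field K] [Algebra k K] {V U : Submodule k K}
    (hV : Mdl V) [Algebra (RatFunc k) K] [IsScalarTower k (RatFunc k) K]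
    [FiniteDimensional (RatFunc k) K]
    (hgen : ∀ z : K, ∃ n, ∃ a ∈ V ^ n, ∃ b ∈ V ^ n, z = a / b)
    {D : Car V} (hD : Rep D U 0) {e : ℕ} (he : 0 < e) {σ₀ σ₁ τ₀ τ₁ : K} (h₀ : σ₀ ∈ U) (h₁ : σ₁ ∈ U)
    (t₀ : ∀ u ∈ U, u * τ₀ ∈ V ^ e) (t₁ : ∀ u ∈ U, u * τ₁ ∈ V ^ e) (hne : σ₁ * τ₁ ≠ 0)
    (hX : algebraMap (RatFunc k) K RatFunc.X = σ₀ * τ₀ / (σ₁ * τ₁))
    (hcov : ∀ᶠ n in atTop, V ^ (n + e) ≤ span k {σ₀ * τ₀, σ₁ * τ₁} * V ^ n) :
    ∃ (ν : ℕ) (c : k), c ≠ 0 ∧
      Algebra.norm (RatFunc k) (σ₀ / σ₁) = RatFunc.C c * RatFunc.X ^ ν ∧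
      PP V (cl D) - PP V 1 = C (ν : ℚ) := by
  let _ : Algebra k[X] K :=
    ((algebraMap (RatFunc k) K).comp (algebraMap k[X] (RatFunc k))).toAlgebra
  have : IsScalarTower k[X] (RatFunc k) K := .of_algebraMap_eq fun _ => rfl
  have : IsScalarTower k k[X] K := .of_algebraMap_eq fun c => by
    rw [IsScalarTower.algebraMap_apply k (RatFunc k) K,
      IsScalarTower.algebraMap_apply k k[X] (RatFunc k)]
    rfl
  have inj : Function.Injective (algebraMap k[X] K) :=
    (algebraMap (RatFunc k) K).injective.comp (RatFunc.algebraMap_injective k)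
  have n₁ : σ₁ ≠ 0 := left_ne_zero_of_mul hne
  have nτ : τ₁ ≠ 0 := right_ne_zero_of_mul hne
  have eX : algebraMap k[X] K X = σ₀ * τ₀ / (σ₁ * τ₁) := by
    rw [← hX, ← RatFunc.algebraMap_X]; rfl
  have eX' : σ₁ * τ₁ * algebraMap k[X] K X = σ₀ * τ₀ := by rw [eX, mul_div_cancel₀ _ hne]
  have n₀ : σ₀ ≠ 0 := by
    rintro rfl
    rw [zero_mul, zero_div, map_eq_zero_iff _ inj] at eX
    exact X_ne_zero eX
  have hF := t₁ _ h₁
  have hX' : σ₁ * τ₁ * algebraMap k[X] K X ∈ V ^ e := eX' ▸ t₀ _ h₀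
  have fin : Module.Finite k[X] (curveR V hF hX') :=
    curve_fin hV he hF hX' hne (by rw [eX']; exact hcov)
  have : FaithfulSMul k[X] K := (faithfulSMul_iff_algebraMap_injective _ _).2 inj
  have : IsFractionRing (curveR V hF hX') K := by
    refine IsFractionRing.of_field _ _ fun z => ?_
    obtain ⟨n, a, ha, b, hb, rfl⟩ := hgen z
    obtain ⟨v, hv, v0⟩ := Submodule.exists_mem_ne_zero_of_ne_bot hV.2
    obtain ⟨e', rfl⟩ : ∃ e', e = e' + 1 := ⟨e - 1, by omega⟩
    have hm : ∀ a ∈ V ^ n, v ^ (e' * n) * a / (σ₁ * τ₁) ^ n ∈ curveR V hF hX' := fun a ha =>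
      ⟨n, by
        rw [mul_div_cancel₀ _ (pow_ne_zero _ hne), Nat.succ_mul]
        exact curve_mul (Submodule.pow_mem_pow _ hv _) ha⟩
    refine ⟨⟨_, hm a ha⟩, ⟨_, hm b hb⟩, ?_⟩
    show a / b = (v ^ (e' * n) * a / (σ₁ * τ₁) ^ n) / (v ^ (e' * n) * b / (σ₁ * τ₁) ^ n)
    rw [div_div_div_cancel_right₀ (pow_ne_zero _ hne), mul_div_mul_left _ _ (pow_ne_zero _ v0)]
  let g : curveR V hF hX' := ⟨σ₀ / σ₁, 1, by
    rw [pow_one, mul_one, show σ₁ * τ₁ * (σ₀ / σ₁) = σ₀ * τ₁ by field_simp]; exact t₁ _ h₀⟩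
  let g' : curveR V hF hX' := ⟨τ₀ / τ₁, 1, by
    rw [pow_one, mul_one, show σ₁ * τ₁ * (τ₀ / τ₁) = σ₁ * τ₀ by field_simp]; exact t₀ _ h₁⟩
  have gg : g * g' = algebraMap k[X] _ X := Subtype.ext (by
    show σ₀ / σ₁ * (τ₀ / τ₁) = algebraMap k[X] K X
    rw [eX, div_mul_div_comm])
  have g0 : g ≠ 0 := fun h => div_ne_zero n₀ n₁ (congrArg Subtype.val h)
  have hd : Algebra.norm k[X] g ∣ X ^ Module.finrank k[X] (curveR V hF hX') :=
    ⟨_, by rw [← map_mul, gg, Algebra.norm_algebraMap]⟩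
  obtain ⟨ν, -, u, hu⟩ := (dvd_prime_pow prime_X _).1 hd
  obtain ⟨c, hc, hcu⟩ := Polynomial.isUnit_iff.1 u⁻¹.isUnit
  have hN : Algebra.norm k[X] g = C c * X ^ ν := by
    rw [hcu, ← hu, mul_comm (↑u⁻¹ : k[X]), Units.mul_inv_cancel_right]
  let b := Module.Free.chooseBasis k[X] (curveR V hF hX')
  have hr := finrank_quotient_span_eq_natDegree_norm (F := k) b g0
  rw [hN, natDegree_C_mul_X_pow _ _ hc.ne_zero] at hr
  have hI : (Ideal.span {g} : Ideal (curveR V hF hX')) ≠ ⊥ := by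
    rwa [Ne, Ideal.span_singleton_eq_bot]
  have : FiniteDimensional k (curveR V hF hX' ⧸ Ideal.span {g}) :=
    Module.Finite.equiv (Ideal.quotientEquivDirectSum k b hI).symm
  refine ⟨ν, c, hc.ne_zero, ?_, ?_⟩
  · have := Algebra.norm_localization k[X] (Rₘ := RatFunc k) (Sₘ := K) (nonZeroDivisors k[X]) g
    rw [hN, map_mul, map_pow, RatFunc.algebraMap_C, RatFunc.algebraMap_X] at this
    exact this
  have cnt := curve_count hV (hD.fg hV) he h₀ h₁ n₀ t₀ t₁ hne hX' hcov g rfl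
  have fg : Fg V (pw V) := fg_pw' hV.1
  have tend : Tendsto (fun m => e * m) atTop atTop := tendsto_id.const_mul_atTop' he
  have ev : ∀ᶠ m : ℕ in atTop,
      (PP V (cl D) - PP V 1).eval ((e * m : ℕ) : ℚ) = (C (ν : ℚ)).eval ((e * m : ℕ) : ℚ) := by
    filter_upwards [cnt, tend.eventually (hq_spec hV fg D), tend.eventually (hp_spec hV.1 fg),
      tend.eventually (tw_rep fg hD)] with m h1 h2 h3 h4
    rw [eval_sub, eval_C, PP, h2, hq_one hV fg, h3, h4, Nat.sub_zero, smul_eq_mul, h1, hr]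
    push_cast
    ring
  refine eq_of_infinite_eval_eq _ _ ?_
  obtain ⟨m0, hm0⟩ := eventually_atTop.1 ev
  refine Set.infinite_of_injective_forall_mem (f := fun m : ℕ => ((e * (m0 + m) : ℕ) : ℚ)) ?_
    fun m => hm0 _ (Nat.le_add_right _ _)
  intro a b h
  have := Nat.eq_of_mul_eq_mul_left he (Nat.cast_injective h)
  omega

end

end Pool.Agent.Lib.MP_62d77c_ag
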