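import Pool.Agent.Lib.MP_62d77c_ag.Serre

/-! Lattices of differential forms. -/

set_option autoImplicit false

namespace Pool.Agent.Lib.MP_62d77c_ag

open Filter Polynomial Submodule

noncomputable section

variable {O K ι : Type} [CommRing O] [Field K] [Algebra O K] [Fintype ι] [LinearOrder ι]

omit [Fintype ι] [LinearOrder ι] in
theorem Forms_prod {V : Submodule O K} {y : ι → K} {e : ℕ} (hy : ∀ a, y a ∈ V ^ e) (σ : Finset ι)
    (m : ℕ) : (∏ a ∈ σ, y a) ^ m ∈ V ^ (e * (m * σ.card)) := by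
  classical
  have h : ∏ a ∈ σ, y a ∈ V ^ (e * σ.card) := by
    induction σ using Finset.induction_on with
    | empty => simp [Submodule.one_le.1 le_rfl]
    | insert a s ha ih =>
      rw [Finset.prod_insert ha, Finset.card_insert_of_notMem ha, mul_add, mul_one, add_comm, pow_add]
      exact mul_mem_mul (hy a) ih
  have := Submodule.pow_mem_pow _ h m
  rwa [← pow_mul, mul_assoc, mul_comm σ.card] at this

omit [Fintype ι] [LinearOrder ι] in
theorem Forms_up {V : Submodule O K} {y : ι → K} {e : ℕ} (hy : ∀ a, y a ∈ V ^ e) {σ : Finset ι}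
    {v : K} {m m' : ℕ} (h : (∏ a ∈ σ, y a) ^ m * v ∈ V ^ (e * (m * σ.card))) (hm : m ≤ m') :
    (∏ a ∈ σ, y a) ^ m' * v ∈ V ^ (e * (m' * σ.card)) := by
  obtain ⟨k, rfl⟩ := Nat.exists_eq_add_of_le' hm
  rw [pow_add, mul_assoc, add_mul, mul_add, pow_add]
  exact mul_mem_mul (Forms_prod hy σ k) h

omit [Fintype ι] [LinearOrder ι] in
theorem Forms_mem_chR {V : Submodule O K} {y : ι → K} {e : ℕ} (hy : ∀ a, y a ∈ V ^ e)
    {σ : Finset ι} {v : K} :
    v ∈ chR V y e σ ↔ ∃ m, (∏ a ∈ σ, y a) ^ m * v ∈ V ^ (e * (m * σ.card)) := by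
  refine ⟨fun h => ?_, fun h => subset_span h⟩
  induction h using span_induction with
  | mem x h => exact h
  | zero => exact ⟨0, by simp⟩
  | add x z _ _ hx hz =>
    obtain ⟨m, hm⟩ := hx
    obtain ⟨l, hl⟩ := hz
    refine ⟨max m l, ?_⟩
    rw [mul_add]
    exact add_mem (Forms_up hy hm (le_max_left _ _)) (Forms_up hy hl (le_max_right _ _))
  | smul c x _ hx =>
    obtain ⟨m, hm⟩ := hx
    exact ⟨m, by rw [mul_smul_comm]; exact smul_mem _ c hm⟩

omit [Fintype ι] [LinearOrder ι] in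
theorem chR_mul {V : Submodule O K} {y : ι → K} {e : ℕ} (hy : ∀ a, y a ∈ V ^ e) {σ : Finset ι}
    (_hσ : σ.Nonempty) {a b : K} (ha : a ∈ chR V y e σ) (hb : b ∈ chR V y e σ) :
    a * b ∈ chR V y e σ := by
  obtain ⟨m, hm⟩ := (Forms_mem_chR hy).1 ha
  obtain ⟨l, hl⟩ := (Forms_mem_chR hy).1 hb
  refine (Forms_mem_chR hy).2 ⟨m + l, ?_⟩
  rw [pow_add, mul_mul_mul_comm, add_mul, mul_add, pow_add]
  exact mul_mem_mul hm hl

theorem forms_mono {R R' : Set K} (h : R ⊆ R') (q : ℕ) : forms O R q ≤ forms O R' q :=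
  span_mono fun _ ⟨a, ha, b, hb, e⟩ => ⟨a, h ha, b, fun j => h (hb j), e⟩

/-- a multilinear map on spans -/
theorem Forms_ml {M E : Type} [AddCommGroup M] [Module O M] [AddCommGroup E] [Module O E] {q : ℕ}
    (f : MultilinearMap O (fun _ : Fin q => M) E) {S : Set M} {P : Submodule O E}
    (h : ∀ ω : Fin q → M, (∀ j, ω j ∈ S) → f ω ∈ P) {ω : Fin q → M} (hω : ∀ j, ω j ∈ span O S) :
    f ω ∈ P := by
  choose n c g hg using fun j => Submodule.mem_span_set'.1 (hω j)
  have e : ω = fun j => ∑ i, c j i • (g j i : M) := funext fun j => (hg j).symm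
  rw [e, f.map_sum]
  refine sum_mem fun r _ => ?_
  rw [f.map_smul_univ]
  exact smul_mem _ _ (h _ fun j => (g j (r j)).2)

variable (K) in
/-- the product of one-forms -/
def Forms_W (q : ℕ) : MultilinearMap K (fun _ : Fin q => Derivation ℤ K K → K)
    ((Fin q → Derivation ℤ K K) → K) :=
  MultilinearMap.pi fun D => (Matrix.detRowAlternating (n := Fin q) (R := K)).toMultilinearMap.compLinearMap
    fun _ => LinearMap.pi fun i => LinearMap.proj (D i)

theorem Forms_W_apply {q : ℕ} (ω : Fin q → Derivation ℤ K K → K) :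
    Forms_W K q ω = fun D => (Matrix.of fun i j => ω j (D i)).det := by
  funext D
  rw [← Matrix.det_transpose]
  rfl

/-- `x dx' - x' dx` -/
def Forms_th (x x' : K) : Derivation ℤ K K → K := fun D => x * D x' - x' * D x

theorem Forms_Dsmul (hO : ∀ (D : Derivation ℤ K K) (c : O), D (algebraMap O K c) = 0)
    (D : Derivation ℤ K K) (c : O) (x : K) : D (c • x) = c • D x := by
  rw [Algebra.smul_def, Algebra.smul_def, D.leibniz, hO]; simp

variable (O) in
/-- the same as a bilinear map -/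
def Forms_thL (hO : ∀ (D : Derivation ℤ K K) (c : O), D (algebraMap O K c) = 0) :
    K →ₗ[O] K →ₗ[O] (Derivation ℤ K K → K) :=
  LinearMap.mk₂ O Forms_th (fun a b c => by funext D; simp [Forms_th]; ring)
    (fun c a b => by funext D; simp [Forms_th, Forms_Dsmul hO, smul_sub])
    (fun a b c => by funext D; simp [Forms_th]; ring)
    (fun c a b => by funext D; simp [Forms_th, Forms_Dsmul hO, smul_sub])

theorem Forms_th_mul (a x c x' : K) :
    Forms_th (a * x) (c * x') = (a * c) • Forms_th x x' + (x * x') • Forms_th a c := by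
  funext D
  simp only [Forms_th, Derivation.leibniz, smul_eq_mul, Pi.add_apply, Pi.smul_apply]
  ring

theorem Forms_th_pow (hO : ∀ (D : Derivation ℤ K K) (c : O), D (algebraMap O K c) = 0)
    (V : Submodule O K) (m : ℕ) : ∀ a ∈ V ^ (m + 1), ∀ c ∈ V ^ (m + 1),
      Forms_th a c ∈ V ^ (2 * m) • map₂ (Forms_thL O hO) V V := by
  induction m with
  | zero =>
    intro a ha c hc
    rw [zero_add, pow_one] at ha hc
    rw [mul_zero, pow_zero, Submodule.one_smul]
    exact apply_mem_map₂ (Forms_thL O hO) ha hc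
  | succ m ih =>
    intro a ha c hc
    rw [pow_succ] at ha hc
    change Forms_thL O hO a c ∈ _
    refine Submodule.mul_induction_on (C := fun a => Forms_thL O hO a c ∈ _) ha
      (fun a ha x hx => ?_) fun a b h1 h2 => by rw [map_add, LinearMap.add_apply]; exact add_mem h1 h2
    refine Submodule.mul_induction_on (C := fun c => Forms_thL O hO (a * x) c ∈ _) hc
      (fun c hc x' hx' => ?_) fun a b h1 h2 => by rw [map_add]; exact add_mem h1 h2
    change Forms_th _ _ ∈ _
    rw [Forms_th_mul]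
    refine add_mem (smul_mem_smul ?_ (apply_mem_map₂ (Forms_thL O hO) hx hx')) ?_
    · rw [two_mul, pow_add]; exact mul_mem_mul ha hc
    · have e : V ^ (2 * (m + 1)) = (V * V) • V ^ (2 * m) := by rw [smul_eq_mul]; ring
      rw [e, Submodule.smul_assoc]
      exact smul_mem_smul (mul_mem_mul hx hx') (ih a ha c hc)

theorem Forms_fg_smul {E : Type} [AddCommGroup E] [Module K E] [Module O E] [IsScalarTower O K E]
    {U : Submodule O K} {L : Submodule O E} (hU : U.FG) (hL : L.FG) : (U • L).FG := by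
  let f : K →ₗ[O] E →ₗ[O] E := LinearMap.mk₂ O (fun a x => a • x) add_smul smul_assoc smul_add
    fun c a x => by rw [← algebraMap_smul K c x, ← algebraMap_smul K c (a • x), smul_comm]
  have e : U • L = map₂ f U L := le_antisymm (smul_le.2 fun a ha x hx => apply_mem_map₂ f ha hx)
    (map₂_le.2 fun a ha x hx => smul_mem_smul ha hx)
  rw [e]
  exact hU.map₂ f hL

/-- products of elements of `T` -/
def Forms_L (T : Submodule O (Derivation ℤ K K → K)) (q : ℕ) :
    Submodule O ((Fin q → Derivation ℤ K K) → K) :=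
  span O {φ | ∃ ω : Fin q → Derivation ℤ K K → K, (∀ j, ω j ∈ T) ∧ φ = Forms_W K q ω}

theorem Forms_L_fg {T : Submodule O (Derivation ℤ K K → K)} (hT : T.FG) (q : ℕ) :
    (Forms_L T q).FG := by
  obtain ⟨t, rfl⟩ := hT
  refine ⟨(Set.finite_range fun f : Fin q → t => Forms_W K q fun j => (f j : _)).toFinset, ?_⟩
  rw [Set.Finite.coe_toFinset]
  refine le_antisymm (span_mono ?_) (span_le.2 ?_)
  · rintro _ ⟨f, rfl⟩
    exact ⟨_, fun j => subset_span (f j).2, rfl⟩
  · rintro _ ⟨ω, hω, rfl⟩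
    refine Forms_ml ((Forms_W K q).restrictScalars O) (fun ω h => subset_span ?_) hω
    exact Set.mem_range.2 ⟨fun j => ⟨ω j, h j⟩, rfl⟩

theorem Forms_smul_span {E : Type} [AddCommGroup E] [Module K E] [Module O E] [IsScalarTower O K E]
    (U : Submodule O K) (L : Submodule O E) :
    U • L ≤ span O {x | ∃ u ∈ U, ∃ t ∈ L, x = u • t} :=
  smul_le.2 fun u hu t ht => subset_span ⟨u, hu, t, ht, rfl⟩

theorem Forms_prod_pow {U : Submodule O K} {q : ℕ} {u : Fin q → K} (h : ∀ j, u j ∈ U) :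
    ∏ j, u j ∈ U ^ q := by
  rw [Submodule.pow_eq_span_pow_set]
  exact subset_span (Set.mem_pow_iff_prod.2 ⟨u, h, rfl⟩)

theorem Forms_W_smul {U : Submodule O K} {T : Submodule O (Derivation ℤ K K → K)} {q : ℕ}
    {ω : Fin q → Derivation ℤ K K → K} (h : ∀ j, ω j ∈ U • T) :
    Forms_W K q ω ∈ U ^ q • Forms_L T q := by
  refine Forms_ml ((Forms_W K q).restrictScalars O) (fun ω h => ?_) fun j => Forms_smul_span U T (h j)
  choose u hu t ht e using h
  obtain rfl : ω = fun j => u j • t j := funext e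
  change Forms_W K q _ ∈ _
  rw [MultilinearMap.map_smul_univ]
  exact smul_mem_smul (Forms_prod_pow hu) (subset_span ⟨t, ht, rfl⟩)

omit [Fintype ι] [LinearOrder ι] in
theorem Forms_le_chart {V : Submodule O K} {y : ι → K} {e : ℕ} (he : 0 < e)
    (hy : ∀ a, y a ∈ V ^ e ∧ y a ≠ 0)
    (hO : ∀ (D : Derivation ℤ K K) (c : O), D (algebraMap O K c) = 0) (q : ℕ) {σ : Finset ι}
    (hσ : σ.Nonempty) : forms O (chR V y e σ : Set K) q ≤ chart y (fun n => if 2 * q ≤ e * n then
      V ^ (e * n - 2 * q) • Forms_L (map₂ (Forms_thL O hO) V V) q else ⊥) σ := by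
  refine span_le.2 ?_
  rintro _ ⟨a, ha, b, hb, rfl⟩
  have hy1 := fun a => (hy a).1
  obtain ⟨m0, h0⟩ := (Forms_mem_chR hy1).1 ha
  choose mb hmb using fun j => (Forms_mem_chR hy1).1 (hb j)
  obtain ⟨m, hm1, hm0, hm⟩ : ∃ m, 1 ≤ m ∧ m0 ≤ m ∧ ∀ j, mb j ≤ m :=
    ⟨1 + m0 + ∑ j, mb j, by omega, by omega, fun j =>
      (Finset.single_le_sum (f := mb) (fun _ _ => Nat.zero_le _) (Finset.mem_univ j)).trans
        (by omega)⟩
  have hc : 0 < σ.card := hσ.card_pos
  obtain ⟨l, hl⟩ : ∃ l, e * (m * σ.card) = l + 1 :=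
    ⟨e * (m * σ.card) - 1, by have : 0 < e * (m * σ.card) := by positivity
                              omega⟩
  have ha' := Forms_up hy1 h0 hm0
  have hb' := fun j => Forms_up hy1 (hmb j) (hm j)
  have hF := Forms_prod hy1 σ m
  rw [hl] at ha' hb' hF
  have ed : e * ((2 * q + 1) * m * σ.card) = (2 * q + 1) * (l + 1) := by rw [← hl]; ring
  refine subset_span ⟨(2 * q + 1) * m, ?_⟩
  set F := (∏ a ∈ σ, y a) ^ m with hFd
  have e1 : (∏ a ∈ σ, y a) ^ ((2 * q + 1) * m) = F * (F * F) ^ q := by rw [hFd]; ring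
  have e2 : (F * (F * F) ^ q) • (fun D : Fin q → Derivation ℤ K K =>
      a * (Matrix.of fun i j => D i (b j)).det) =
      (F * a) • Forms_W K q fun j => Forms_th F (F * b j) := by
    have : (fun j => Forms_th F (F * b j)) = fun j => (F * F) • fun D : Derivation ℤ K K => D (b j) := by
      funext j D
      simp only [Forms_th, Derivation.leibniz, smul_eq_mul, Pi.smul_apply]
      ring
    rw [this, MultilinearMap.map_smul_univ, Forms_W_apply]
    funext D
    simp only [Pi.smul_apply, smul_eq_mul, Finset.prod_const, Finset.card_univ, Fintype.card_fin]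
    ring
  have e3 : V ^ ((2 * q + 1) * (l + 1) - 2 * q) = V ^ (l + 1) • (V ^ (2 * l)) ^ q := by
    rw [smul_eq_mul, ← pow_mul, ← pow_add]
    congr 1
    refine Nat.sub_eq_of_eq_add ?_
    ring
  beta_reduce
  rw [ed, if_pos (by nlinarith), e1, e2, e3, Submodule.smul_assoc]
  exact smul_mem_smul ha' (Forms_W_smul fun j => Forms_th_pow hO V l _ hF _ (hb' j))

omit [Fintype ι] [LinearOrder ι] in
theorem Forms_chart_le {V : Submodule O K} {y : ι → K} {e : ℕ} (he : 0 < e)
    (hy : ∀ a, y a ∈ V ^ e ∧ y a ≠ 0)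
    (hO : ∀ (D : Derivation ℤ K K) (c : O), D (algebraMap O K c) = 0) (q : ℕ) {σ : Finset ι}
    (hσ : σ.Nonempty) : chart y (fun n => if 2 * q ≤ e * n then
      V ^ (e * n - 2 * q) • Forms_L (map₂ (Forms_thL O hO) V V) q else ⊥) σ ≤
      forms O (chR V y e σ : Set K) q := by
  have hy1 := fun a => (hy a).1
  have hc : 0 < σ.card := hσ.card_pos
  obtain ⟨l, hl⟩ : ∃ l, e * σ.card = l + 1 :=
    ⟨e * σ.card - 1, by have : 0 < e * σ.card := by positivity
                        omega⟩
  set F := ∏ a ∈ σ, y a with hFd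
  have hF0 : F ≠ 0 := Finset.prod_ne_zero_iff.2 fun a _ => (hy a).2
  have hdiv : ∀ m, ∀ u ∈ V ^ (e * (m * σ.card)), u / F ^ m ∈ chR V y e σ := fun m u hu =>
    (Forms_mem_chR hy1).2 ⟨m, by rwa [← hFd, mul_div_cancel₀ _ (pow_ne_zero m hF0)]⟩
  have hdiv1 : ∀ x ∈ V, ∀ c ∈ V ^ l, x * c / F ∈ chR V y e σ := fun x hx c hc => by
    have := hdiv 1 (x * c) (by rw [one_mul, hl, pow_succ']; exact mul_mem_mul hx hc)
    rwa [pow_one] at this
  let Ω : Submodule O (Derivation ℤ K K → K) :=
    span O {ω | ∃ r ∈ chR V y e σ, ∃ b ∈ chR V y e σ, ω = r • fun D : Derivation ℤ K K => D b}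
  have hW : ∀ r ∈ chR V y e σ, ∀ ω : Fin q → Derivation ℤ K K → K, (∀ j, ω j ∈ Ω) →
      r • Forms_W K q ω ∈ forms O (chR V y e σ : Set K) q := fun r hr ω hω => by
    refine Forms_ml ((r • Forms_W K q).restrictScalars O) (fun ω h => ?_) hω
    choose s hs b hb e' using h
    obtain rfl : ω = fun j => s j • fun D : Derivation ℤ K K => D (b j) := funext e'
    change r • Forms_W K q _ ∈ _
    rw [MultilinearMap.map_smul_univ, smul_smul, Forms_W_apply]
    refine subset_span ⟨r * ∏ j, s j, ?_, b, hb, rfl⟩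
    refine Finset.induction_on (motive := fun t => r * ∏ j ∈ t, s j ∈ chR V y e σ) Finset.univ
      (by simpa using hr) fun j t hj ih => ?_
    rw [Finset.prod_insert hj, mul_left_comm]
    exact chR_mul hy1 hσ (hs j) ih
  have hT : ∀ u ∈ V ^ l * V ^ l, ∀ t ∈ map₂ (Forms_thL O hO) V V, (u / F ^ 2) • t ∈ Ω := by
    intro u hu t ht
    refine Submodule.mul_induction_on (C := fun u => (u / F ^ 2) • t ∈ Ω) hu (fun c hc c' hc' => ?_)
      fun a b h1 h2 => by rw [add_div, add_smul]; exact add_mem h1 h2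
    have : map₂ (Forms_thL O hO) V V ≤
        Ω.comap ((LinearMap.lsmul K _ (c * c' / F ^ 2)).restrictScalars O) := by
      refine map₂_le.2 fun x hx x' hx' => ?_
      change (c * c' / F ^ 2) • Forms_th x x' ∈ Ω
      have e : (c * c' / F ^ 2) • Forms_th x x' =
          (x * c / F) • (fun D : Derivation ℤ K K => D (x' * c' / F)) -
            (x' * c / F) • fun D : Derivation ℤ K K => D (x * c' / F) := by
        funext D
        simp only [Forms_th, mul_div_assoc, Derivation.leibniz, smul_eq_mul, Pi.smul_apply,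
          Pi.sub_apply]
        field_simp
        ring
      rw [e]
      exact sub_mem (subset_span ⟨_, hdiv1 x hx c hc, _, hdiv1 x' hx' c' hc', rfl⟩)
        (subset_span ⟨_, hdiv1 x' hx' c hc, _, hdiv1 x hx c' hc', rfl⟩)
    exact this ht
  refine span_le.2 ?_
  rintro v ⟨m, hv⟩
  beta_reduce at hv
  split_ifs at hv with hq
  swap
  · obtain rfl : v = 0 := (smul_eq_zero.1 ((mem_bot O).1 hv)).resolve_left (pow_ne_zero m hF0)
    exact zero_mem _
  have h2 := smul_mem_smul (Forms_prod hy1 σ (2 * q)) hv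
  have e3 : V ^ (e * (2 * q * σ.card)) • V ^ (e * (m * σ.card) - 2 * q) =
      V ^ (e * (m * σ.card)) * (V ^ l * V ^ l) ^ q := by
    rw [smul_eq_mul, ← pow_add, ← pow_add, ← pow_mul, ← pow_add]
    congr 1
    have : e * (2 * q * σ.card) = 2 * q * (l + 1) := by rw [← hl]; ring
    rw [this, ← Nat.add_sub_assoc hq]
    refine Nat.sub_eq_of_eq_add ?_
    ring
  rw [← Submodule.smul_assoc, e3, ← hFd] at h2
  have key : (V ^ (e * (m * σ.card)) * (V ^ l * V ^ l) ^ q) •
      Forms_L (map₂ (Forms_thL O hO) V V) q ≤ (forms O (chR V y e σ : Set K) q).comap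
        ((LinearMap.lsmul K _ (F ^ (2 * q) * F ^ m)⁻¹).restrictScalars O) := by
    refine smul_le.2 fun u hu φ hφ => ?_
    change (F ^ (2 * q) * F ^ m)⁻¹ • u • φ ∈ forms O (chR V y e σ : Set K) q
    refine Submodule.mul_induction_on
      (C := fun u => (F ^ (2 * q) * F ^ m)⁻¹ • u • φ ∈ forms O (chR V y e σ : Set K) q) hu
      (fun u1 h1 u2 h2 => ?_) fun a b h1 h2 => by rw [add_smul, smul_add]; exact add_mem h1 h2
    rw [Submodule.pow_eq_span_pow_set] at h2
    induction h2 using span_induction with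
    | zero => simp
    | add a b _ _ h1 h2 => rw [mul_add, add_smul, smul_add]; exact add_mem h1 h2
    | smul c a _ h =>
      rw [mul_smul_comm, smul_assoc, smul_comm]; exact smul_mem _ c h
    | mem u2 h2 =>
      obtain ⟨f, hf, rfl⟩ := Set.mem_pow_iff_prod.1 h2
      induction hφ using span_induction with
      | zero => simp
      | add a b _ _ h1 h2 => rw [smul_add, smul_add]; exact add_mem h1 h2
      | smul c a _ h => rw [smul_comm _ c, smul_comm _ c]; exact smul_mem _ c h
      | mem φ hφ =>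
        obtain ⟨ω, hω, rfl⟩ := hφ
        have := hW _ (hdiv m u1 h1) (fun j => (f j / F ^ 2) • ω j) fun j => hT _ (hf j) _ (hω j)
        rw [MultilinearMap.map_smul_univ, smul_smul] at this
        rw [smul_smul]
        convert this using 2
        rw [Finset.prod_div_distrib, Finset.prod_const, Finset.card_univ, Fintype.card_fin, ← pow_mul]
        field_simp
  have h3 : (F ^ (2 * q) * F ^ m)⁻¹ • F ^ (2 * q) • F ^ m • v ∈
    forms O (chR V y e σ : Set K) q := key h2
  rwa [smul_smul, smul_smul, mul_assoc, inv_mul_cancel₀ (by positivity), one_smul] at h3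

/-- the forms on the charts are the charts of the family generated by the products of the
`x dx' - x' dx`, `x, x' ∈ V` -/
theorem forms_finMod [IsNoetherianRing O] {V : Submodule O K} (hV : V.FG) {y : ι → K} {e : ℕ}
    (he : 0 < e) (hy : ∀ a, y a ∈ V ^ e ∧ y a ≠ 0)
    (hcov : ∀ᶠ n in atTop, V ^ (n + e) ≤ span O (Set.range y) * V ^ n)
    (hO : ∀ (D : Derivation ℤ K K) (c : O), D (algebraMap O K c) = 0) (q n : ℕ) :
    FinMod ((Coch (fun σ => forms O (chR V y e σ : Set K) q) n).map (dC O _))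
      (Coch (fun σ => forms O (chR V y e σ : Set K) q) (n + 1) ⊓ LinearMap.ker (dC O _)) := by
  let N : ℕ → Submodule O ((Fin q → Derivation ℤ K K) → K) := fun n => if 2 * q ≤ e * n then
    V ^ (e * n - 2 * q) • Forms_L (map₂ (Forms_thL O hO) V V) q else ⊥
  have hC : ∀ n, Coch (fun σ => forms O (chR V y e σ : Set K) q) n = Coch (chart y N) n := by
    intro n
    unfold Coch
    congr 1
    funext σ
    split_ifs with h
    · have hσ : σ.Nonempty := Finset.card_pos.1 (by omega)
      exact le_antisymm (Forms_le_chart he hy hO q hσ) (Forms_chart_le he hy hO q hσ)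
    · rfl
  rw [hC, hC]
  refine serre (fun a => (hy a).2.isUnit) ?_ (fun n => ?_) n
  swap
  · simp only [N]
    split_ifs with h1 h2
    · have h3 : e * (n + 1) - 2 * q = e + (e * n - 2 * q) := by rw [mul_add]; omega
      rw [h3, pow_add, ← Submodule.smul_assoc]
      exact Submodule.smul_mono_left
        (Submodule.smul_mono_left (span_le.2 (by rintro _ ⟨a, rfl⟩; exact (hy a).1)))
    · exact absurd (h1.trans (Nat.mul_le_mul_left e n.le_succ)) h2
    · simp
    · simp
  obtain ⟨n0, h0⟩ := eventually_atTop.1 hcov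
  refine eventually_atTop.2 ⟨n0 + 2 * q, fun n hn => ?_⟩
  have h1 : n ≤ e * n := Nat.le_mul_of_pos_left n he
  have h2 : e * (n + 1) - 2 * q = e * n - 2 * q + e := by rw [mul_add]; omega
  have h3 : V ^ (e * n - 2 * q + e) = span O (Set.range y) • V ^ (e * n - 2 * q) := by
    refine le_antisymm (h0 _ (by omega)) ?_
    rw [add_comm, pow_add]
    exact Submodule.smul_mono_left (span_le.2 (by rintro _ ⟨a, rfl⟩; exact (hy a).1))
  simp only [N]
  rw [if_pos (by omega), if_pos (by rw [mul_add]; omega), h2, h3, Submodule.smul_assoc]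
  exact ⟨Forms_fg_smul (hV.pow _) (Forms_L_fg (hV.map₂ _ hV) q), rfl⟩

/-- the exterior derivative in low degrees, by the invariant formula -/
theorem exists_extd (hO : ∀ (D : Derivation ℤ K K) (c : O), D (algebraMap O K c) = 0) (q : ℕ)
    (hq : q ≤ 2) :
    ∃ d : ((Fin q → Derivation ℤ K K) → K) →ₗ[O] ((Fin (q + 1) → Derivation ℤ K K) → K),
      ∀ (a : K) (b : Fin q → K), d (fun D => a * (Matrix.of fun i j => D i (b j)).det) =
        fun D => (Matrix.of fun i j => D i ((Fin.cons a b : Fin (q + 1) → K) j)).det := by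
  interval_cases q
  · refine ⟨⟨⟨fun φ D => D 0 (φ ![]), fun φ ψ => ?_⟩, fun c φ => ?_⟩, fun a b => ?_⟩
    · funext D; simp
    · funext D; simp [Forms_Dsmul hO]
    · funext D; simp
  · refine ⟨⟨⟨fun φ D => D 0 (φ ![D 1]) - D 1 (φ ![D 0]) - φ ![⁅D 0, D 1⁆], fun φ ψ => ?_⟩,
      fun c φ => ?_⟩, fun a b => ?_⟩
    · funext D; simp; ring
    · funext D; simp [Forms_Dsmul hO, smul_sub]
    · funext D
      simp [Matrix.det_fin_two, Derivation.commutator_apply]
      ring
  · refine ⟨⟨⟨fun φ D => D 0 (φ ![D 1, D 2]) - D 1 (φ ![D 0, D 2]) + D 2 (φ ![D 0, D 1]) -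
      φ ![⁅D 0, D 1⁆, D 2] + φ ![⁅D 0, D 2⁆, D 1] - φ ![⁅D 1, D 2⁆, D 0], fun φ ψ => ?_⟩,
      fun c φ => ?_⟩, fun a b => ?_⟩
    · funext D; simp; ring
    · funext D; simp [Forms_Dsmul hO, smul_sub]
    · funext D
      have e : (Fin.cons a b : Fin 3 → K) 2 = b 1 := rfl
      simp [Matrix.det_fin_two, Matrix.det_fin_three, Derivation.commutator_apply, e]
      ring

end

end Pool.Agent.Lib.MP_62d77c_ag
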