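import Pool.Agent.Lib.MP_62d77c_ag.Defs
import Pool.Agent.Lib.MP_62d77c_ag.Forms
import Pool.Agent.Lib.MP_62d77c_ag.BTors

/-! The de Rham cocycle of a multiplicative cocycle modulo `p`: abstract form. -/

set_option autoImplicit false

namespace Pool.Agent.Lib.MP_62d77c_ag

open Filter Polynomial Submodule

noncomputable section

section coch
variable {O E ι : Type} [CommRing O] [AddCommGroup E] [Module O E] [Fintype ι] [LinearOrder ι]

theorem dr_coch {C : Finset ι → Submodule O E} {q : ℕ} (T : (Fin q → ι) → E)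
    (hT : ∀ f : Fin q → ι, StrictMono f → T f ∈ C (Finset.univ.image f)) (hq : q ≠ 0) :
    ∃ c ∈ Coch C q, ∀ f : Fin q → ι, StrictMono f → c (Finset.univ.image f) = T f := by
  refine ⟨fun σ => if h : σ.card = q then T (σ.orderEmbOfFin h) else 0,
    mem_Coch.2 fun σ => ⟨fun h => ?_, fun h => ?_⟩, fun f hf => ?_⟩
  · rw [dif_pos h.1]
    have := hT _ (σ.orderEmbOfFin h.1).strictMono
    rwa [Finset.image_orderEmbOfFin_univ] at this
  · exact dif_neg fun e => h ⟨e, hq⟩
  · have h : (Finset.univ.image f).card = q := by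
      rw [Finset.card_image_of_injective _ hf.injective]; simp
    beta_reduce
    rw [dif_pos h, ← Finset.orderEmbOfFin_unique h (fun x => by simp) hf]

theorem dr_div {C : Finset ι → Submodule O E} {q : ℕ} {x : Finset ι → E} (hx : x ∈ Coch C q)
    (t : O) (h : ∀ f : Fin q → ι, StrictMono f →
      ∃ w ∈ C (Finset.univ.image f), x (Finset.univ.image f) = t • w) :
    ∃ e ∈ Coch C q, x = t • e := by
  have key : ∀ σ : Finset ι, ∃ w : E, (σ.card = q ∧ q ≠ 0 → w ∈ C σ) ∧
      (¬(σ.card = q ∧ q ≠ 0) → w = 0) ∧ x σ = t • w := by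
    intro σ
    by_cases k : σ.card = q ∧ q ≠ 0
    · have := h _ (σ.orderEmbOfFin k.1).strictMono
      rw [Finset.image_orderEmbOfFin_univ] at this
      obtain ⟨w, a, b⟩ := this
      exact ⟨w, fun _ => a, fun n => absurd k n, b⟩
    · exact ⟨0, fun n => absurd n k, fun _ => rfl, by rw [((mem_Coch.1 hx) σ).2 k, smul_zero]⟩
  choose e h1 h2 h3 using key
  exact ⟨e, mem_Coch.2 fun σ => ⟨h1 σ, h2 σ⟩, funext h3⟩

theorem dr_mem {C : Finset ι → Submodule O E} {q : ℕ} {x : Finset ι → E} (hx : x ∈ Coch C q)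
    (σ : Finset ι) : x σ ∈ C σ := by
  by_cases k : σ.card = q ∧ q ≠ 0
  · exact ((mem_Coch.1 hx) σ).1 k
  · rw [((mem_Coch.1 hx) σ).2 k]; exact zero_mem _

theorem dr_comp {E' : Type} [AddCommGroup E'] [Module O E'] {C : Finset ι → Submodule O E}
    {C' : Finset ι → Submodule O E'} (d : E →ₗ[O] E') (hd : ∀ σ, ∀ x ∈ C σ, d x ∈ C' σ) {q : ℕ}
    {x : Finset ι → E} (hx : x ∈ Coch C q) : d ∘ x ∈ Coch C' q :=
  mem_Coch.2 fun σ => ⟨fun _ => hd σ _ (dr_mem hx σ), fun k => by
    rw [Function.comp_apply, ((mem_Coch.1 hx) σ).2 k, map_zero]⟩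

omit [Fintype ι] in
theorem dr_im2 (f : Fin 2 → ι) : Finset.univ.image f = {f 0, f 1} := by
  ext x; simp [Fin.exists_fin_succ, eq_comm]

omit [Fintype ι] in
theorem dr_im3 (f : Fin 3 → ι) : Finset.univ.image f = {f 0, f 1, f 2} := by
  ext x; simp [Fin.exists_fin_succ, eq_comm]

omit [Fintype ι] in
theorem dr_im4 (f : Fin 4 → ι) : Finset.univ.image f = {f 0, f 1, f 2, f 3} := by
  ext x; simp [Fin.exists_fin_succ, eq_comm]

theorem dr_coch2 {C : Finset ι → Submodule O E} (T : ι → ι → E) (hT : ∀ a b, T a b ∈ C {a, b}) :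
    ∃ c ∈ Coch C 2, ∀ a b, a < b → c {a, b} = T a b := by
  obtain ⟨c, h1, h2⟩ := dr_coch (C := C) (q := 2) (fun f => T (f 0) (f 1))
    (fun f _ => by rw [dr_im2]; exact hT _ _) (by omega)
  refine ⟨c, h1, fun a b h => ?_⟩
  have := h2 ![a, b] (Fin.strictMono_iff_lt_succ.2 fun i => by fin_cases i; simpa using h)
  rw [dr_im2] at this
  exact this

theorem dr_coch3 {C : Finset ι → Submodule O E} (T : ι → ι → ι → E)
    (hT : ∀ a b c, T a b c ∈ C {a, b, c}) :
    ∃ x ∈ Coch C 3, ∀ a b c, a < b → b < c → x {a, b, c} = T a b c := by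
  obtain ⟨x, h1, h2⟩ := dr_coch (C := C) (q := 3) (fun f => T (f 0) (f 1) (f 2))
    (fun f _ => by rw [dr_im3]; exact hT _ _ _) (by omega)
  refine ⟨x, h1, fun a b c h h' => ?_⟩
  have := h2 ![a, b, c] (Fin.strictMono_iff_lt_succ.2 fun i => by
    fin_cases i
    · simpa using h
    · simpa using h')
  rw [dr_im3] at this
  exact this

end coch

section alg
variable {K : Type} [Field K] (R : Subring K)

theorem dr_pow_sub {x y : K} (hx : x ∈ R) (hy : y ∈ R) (n : ℕ) :
    ∃ t ∈ R, x ^ n - y ^ n = (x - y) * t := by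
  obtain ⟨t, ht⟩ := sub_dvd_pow_sub_pow (⟨x, hx⟩ : R) ⟨y, hy⟩ n
  exact ⟨t, t.2, by simpa using congrArg Subtype.val ht⟩

theorem dr_frob (p n : ℕ) {x w : K} (hw : w ∈ R) (h : x = 1 + p * w) :
    ∃ f ∈ R, x ^ p ^ n = 1 + (p : K) ^ n * f := by
  have hx : x ∈ R := h ▸ add_mem (one_mem _) (mul_mem (natCast_mem _ _) hw)
  obtain ⟨t, ht⟩ := dvd_sub_pow_of_dvd_sub (R := R) (p := p) (a := ⟨x, hx⟩) (b := 1)
    ⟨⟨w, hw⟩, Subtype.ext (by simp [h])⟩ n
  refine ⟨p * t, mul_mem (natCast_mem _ _) t.2, ?_⟩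
  have := congrArg Subtype.val ht
  simp only [one_pow, AddSubgroupClass.coe_sub, SubmonoidClass.coe_pow, OneMemClass.coe_one,
    MulMemClass.coe_mul, SubringClass.coe_natCast] at this
  linear_combination this

end alg

section forms
variable {O K : Type} [CommRing O] [Field K] [Algebra O K]

def drF0 (x : K) : (Fin 0 → Derivation ℤ K K) → K := fun _ => x

def drF1 (a x : K) : (Fin 1 → Derivation ℤ K K) → K := fun D => a * D 0 x

def drF2 (a x y : K) : (Fin 2 → Derivation ℤ K K) → K :=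
  fun D => a * (D 0 x * D 1 y - D 0 y * D 1 x)

theorem drF0_eq (x : K) : drF0 x = fun D : Fin 0 → Derivation ℤ K K =>
    x * (Matrix.of fun i j => D i ((![] : Fin 0 → K) j)).det := by
  funext D; simp [drF0]

theorem drF1_eq (a x : K) : drF1 a x = fun D : Fin 1 → Derivation ℤ K K =>
    a * (Matrix.of fun i j => D i ((![x] : Fin 1 → K) j)).det := by
  funext D; simp [drF1]

theorem drF2_eq (a x y : K) : drF2 a x y = fun D : Fin 2 → Derivation ℤ K K =>
    a * (Matrix.of fun i j => D i ((![x, y] : Fin 2 → K) j)).det := by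
  funext D; simp [drF2, Matrix.det_fin_two]

theorem drF0_mem {R : Set K} {x : K} (h : x ∈ R) : drF0 x ∈ forms O R 0 :=
  subset_span ⟨x, h, ![], fun j => j.elim0, drF0_eq x⟩

theorem drF1_mem {R : Set K} {a x : K} (h : a ∈ R) (h' : x ∈ R) : drF1 a x ∈ forms O R 1 :=
  subset_span ⟨a, h, ![x], fun j => by fin_cases j; exact h', drF1_eq a x⟩

theorem drF2_mem {R : Set K} {a x y : K} (h : a ∈ R) (h' : x ∈ R) (h'' : y ∈ R) :
    drF2 a x y ∈ forms O R 2 :=
  subset_span ⟨a, h, ![x, y], fun j => by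
    fin_cases j
    · exact h'
    · exact h'', drF2_eq a x y⟩

theorem dr_rep {R : Subring K} (hR : ∀ c : O, algebraMap O K c ∈ R) {q : ℕ}
    {φ : (Fin q → Derivation ℤ K K) → K} (h : φ ∈ forms O (R : Set K) q) :
    ∃ l : Fm K q, l.On R ∧ l.ev = φ := by
  induction h using span_induction with
  | mem φ h =>
    obtain ⟨a, ha, b, hb, rfl⟩ := h
    exact ⟨[(a, b)], fun x hx => by rw [List.mem_singleton.1 hx]; exact ⟨ha, hb⟩,
      funext fun D => by simp [Fm.ev]⟩
  | zero => exact ⟨[], fun x hx => by simp at hx, funext fun D => by simp [Fm.ev]⟩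
  | add x y _ _ hx hy =>
    obtain ⟨l, a, rfl⟩ := hx
    obtain ⟨l', a', rfl⟩ := hy
    exact ⟨l ++ l', fun x hx => (List.mem_append.1 hx).elim (a x) (a' x),
      funext fun D => by simp [Fm.ev]⟩
  | smul c x _ hx =>
    obtain ⟨l, a, rfl⟩ := hx
    refine ⟨l.map fun x => (algebraMap O K c * x.1, x.2), fun x hx => ?_, funext fun D => ?_⟩
    · obtain ⟨y, hy, rfl⟩ := List.mem_map.1 hx
      exact ⟨mul_mem (hR c) (a y hy).1, (a y hy).2⟩
    · simp only [Fm.ev, List.map_map, Pi.smul_apply, Algebra.smul_def, Function.comp_def,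
        mul_assoc, List.sum_map_mul_left]

theorem dr_ev_map {q : ℕ} (t : K) (l : Fm K q) (D : Fin q → Derivation ℤ K K) :
    Fm.ev (l.map fun x => (t * x.1, x.2)) D = t * l.ev D := by
  simp only [Fm.ev, List.map_map, Function.comp_def, mul_assoc, List.sum_map_mul_left]

/-- the defining property of the exterior derivative -/
def drD {q : ℕ}
    (d : ((Fin q → Derivation ℤ K K) → K) →ₗ[O] ((Fin (q + 1) → Derivation ℤ K K) → K)) : Prop :=
  ∀ (a : K) (b : Fin q → K), d (fun D => a * (Matrix.of fun i j => D i (b j)).det) =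
    fun D => (Matrix.of fun i j => D i ((Fin.cons a b : Fin (q + 1) → K) j)).det

theorem drD.ev {q : ℕ}
    {d : ((Fin q → Derivation ℤ K K) → K) →ₗ[O] ((Fin (q + 1) → Derivation ℤ K K) → K)}
    (h : drD d) (l : Fm K q) : d l.ev = l.d.ev := by
  induction l with
  | nil =>
    have : Fm.ev ([] : Fm K q) = 0 := funext fun D => by simp [Fm.ev]
    rw [this, map_zero]
    exact funext fun D => by simp [Fm.ev, Fm.d]
  | cons x l ih =>
    have : Fm.ev (x :: l : Fm K q) =
        (fun D => x.1 * (Matrix.of fun i j => D i (x.2 j)).det) + Fm.ev l :=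
      funext fun D => by simp [Fm.ev]
    rw [this, map_add, h, ih]
    exact funext fun D => by simp [Fm.ev, Fm.d]

theorem drD.mem {q : ℕ}
    {d : ((Fin q → Derivation ℤ K K) → K) →ₗ[O] ((Fin (q + 1) → Derivation ℤ K K) → K)}
    (h : drD d) {R : Subring K} : ∀ x ∈ forms O (R : Set K) q, d x ∈ forms O (R : Set K) (q + 1) := by
  intro x hx
  induction hx using span_induction with
  | mem φ k =>
    obtain ⟨a, ha, b, hb, rfl⟩ := k
    rw [h]
    exact subset_span ⟨1, R.one_mem, Fin.cons a b, fun j => Fin.cases ha hb j, by simp⟩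
  | zero => rw [map_zero]; exact zero_mem _
  | add x y _ _ hx hy => rw [map_add]; exact add_mem hx hy
  | smul c x _ hx => rw [map_smul]; exact smul_mem _ _ hx

theorem drD.dd {q : ℕ}
    {d : ((Fin q → Derivation ℤ K K) → K) →ₗ[O] ((Fin (q + 1) → Derivation ℤ K K) → K)}
    {d' : ((Fin (q + 1) → Derivation ℤ K K) → K) →ₗ[O]
      ((Fin (q + 1 + 1) → Derivation ℤ K K) → K)}
    (h : drD d) (h' : drD d') {R : Set K} : ∀ x ∈ forms O R q, d' (d x) = 0 := by
  intro x hx
  induction hx using span_induction with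
  | mem φ k =>
    obtain ⟨a, -, b, -, rfl⟩ := k
    have := h' 1 (Fin.cons a b)
    simp only [one_mul] at this
    rw [h, this]
    funext D
    exact Matrix.det_eq_zero_of_column_eq_zero 0 fun i => by simp
  | zero => rw [map_zero, map_zero]
  | add x y _ _ hx hy => rw [map_add, map_add, hx, hy, add_zero]
  | smul c x _ hx => rw [map_smul, map_smul, hx, smul_zero]

theorem drD.f0 {d : ((Fin 0 → Derivation ℤ K K) → K) →ₗ[O] ((Fin 1 → Derivation ℤ K K) → K)}
    (h : drD d) (x : K) : d (drF0 x) = drF1 1 x := by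
  rw [drF0_eq, h]
  funext D; simp [drF1]

theorem drD.f1 {d : ((Fin 1 → Derivation ℤ K K) → K) →ₗ[O] ((Fin 2 → Derivation ℤ K K) → K)}
    (h : drD d) (a x : K) : d (drF1 a x) = drF2 1 a x := by
  rw [drF1_eq, h]
  funext D; simp [drF2, Matrix.det_fin_two]

theorem dr_reg {X : Type} {t : O} (h : algebraMap O K t ≠ 0) : IsSMulRegular (X → K) t := by
  intro x y e
  funext D
  have := congrFun e D
  simp only [Pi.smul_apply, Algebra.smul_def] at this
  exact mul_left_cancel₀ h this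

theorem dr_one (D : Derivation ℤ K K) {P N : ℕ} (hP : (P : K) ≠ 0) (hN : P = N + 1) {y f : K}
    (h : y ^ P = 1 + P * f) : D f = y ^ N * D y := by
  have := congrArg D h
  rw [D.leibniz_pow, map_add, D.map_one_eq_zero, D.leibniz, D.map_natCast] at this
  simp only [smul_eq_mul, nsmul_eq_mul, mul_zero, add_zero, zero_add] at this
  have e : P - 1 = N := by omega
  rw [e] at this
  exact (mul_left_cancel₀ hP this).symm

theorem dr_rel (D : Derivation ℤ K K) {P : ℕ} {g g' z : K} (h : g' * g = 1 - (P : K) ^ 2 * z) :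
    g' * D g + g * D g' = -((P : K) ^ 2 * D z) := by
  have := congrArg D h
  rw [D.leibniz, map_sub, D.map_one_eq_zero, D.leibniz, ← Nat.cast_pow, D.map_natCast] at this
  simp only [smul_eq_mul, mul_zero, add_zero, zero_sub] at this
  rw [← Nat.cast_pow]
  exact this

end forms

theorem dr_abs {O K ι : Type} [CommRing O] [IsNoetherianRing O] [Field K] [Algebra O K]
    [Fintype ι] [LinearOrder ι] (R : Finset ι → Subring K) (hm : ∀ σ τ, σ ⊆ τ → R σ ≤ R τ)
    (hR : ∀ σ (c : O), algebraMap O K c ∈ R σ)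
    (hO : ∀ (D : Derivation ℤ K K) (c : O), D (algebraMap O K c) = 0)
    (hF : ∀ q n, FinMod ((Coch (fun σ => forms O (R σ : Set K) q) n).map (dC O _))
      (Coch (fun σ => forms O (R σ : Set K) q) (n + 1) ⊓ LinearMap.ker (dC O _)))
    {p : ℕ} (hp : (p : K) ≠ 0) (g : ι → ι → K) (hg : ∀ a b, g a b ∈ R {a, b})
    (h2 : ∀ a b, ∃ z ∈ R {a, b}, g b a * g a b = 1 - p * z)
    (h3 : ∀ a b c, ∃ z ∈ R {a, b, c}, g a b * g b c = g a c + p * z) (k : ℕ) :
    ∃ (ω : ι → Fm K 2) (l : ι → ι → Fm K 1) (f : ι → ι → ι → Fm K 0) (g' ζ : ι → ι → K)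
      (η : ι → ι → Fm K 1),
      (∀ a b, η a b = (g' a b, ![g a b]) :: (l a b).map fun x => ((p : K) ^ k * x.1, x.2)) ∧
      (∀ a, (ω a).On (R {a})) ∧ (∀ a b, (l a b).On (R {a, b}) ∧ g' a b ∈ R {a, b} ∧
        ζ a b ∈ R {a, b} ∧ g' a b * g a b = 1 - (p : K) ^ k * ζ a b) ∧
      (∀ a b c, (f a b c).On (R {a, b, c})) ∧ (∀ a D, (ω a).d.ev D = 0) ∧
      (∀ i j, i < j → ∀ D, (ω j).ev D - (ω i).ev D = (η i j).d.ev D) ∧
      (∀ i j l, i < j → j < l → ∀ D,
        (η j l).ev D - (η i l).ev D + (η i j).ev D = (f i j l).d.ev D) ∧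
      ∀ i j l m, i < j → j < l → l < m → ∀ D,
        (f j l m).ev D - (f i l m).ev D + (f i j m).ev D - (f i j l).ev D = 0 := by
  obtain ⟨d₀, hd₀⟩ : ∃ d, drD (O := O) (K := K) (q := 0) d := exists_extd hO 0 (by omega)
  obtain ⟨d₁, hd₁⟩ : ∃ d, drD (O := O) (K := K) (q := 1) d := exists_extd hO 1 (by omega)
  obtain ⟨d₂, hd₂⟩ : ∃ d, drD (O := O) (K := K) (q := 2) d := exists_extd hO 2 (by omega)
  have mono : ∀ q σ τ, σ.Nonempty → σ ⊆ τ →
      forms O (R σ : Set K) q ≤ forms O (R τ : Set K) q := fun q σ τ _ h => forms_mono (hm σ τ h) q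
  have hp' : algebraMap O K (p : O) ≠ 0 := by rwa [map_natCast]
  obtain ⟨s, hs⟩ := bounded_torsion (fun σ => forms O (R σ : Set K) 0)
    (fun σ => forms O (R σ : Set K) 1) (fun σ => forms O (R σ : Set K) 2)
    (fun σ => forms O (R σ : Set K) 3) (mono 0) (mono 1) (mono 2) (mono 3) d₀ d₁ d₂
    (fun σ x hx => ⟨hd₀.mem x hx, hd₀.dd hd₁ x hx⟩)
    (fun σ x hx => ⟨hd₁.mem x hx, hd₁.dd hd₂ x hx⟩) (fun σ x hx => hd₂.mem x hx)
    (hF 0 3) (hF 1 2) (hF 2 1) (hF 3 0) (p : O) (dr_reg hp') (dr_reg hp') (dr_reg hp') (dr_reg hp')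
  obtain ⟨P, hP⟩ : ∃ P : ℕ, P = p ^ (k + s) := ⟨_, rfl⟩
  have hPK : (P : K) = (p : K) ^ (k + s) := by rw [hP, Nat.cast_pow]
  have hP0 : (P : K) ≠ 0 := hPK ▸ pow_ne_zero _ hp
  obtain ⟨N, hN⟩ : ∃ N, P = N + 1 := Nat.exists_eq_succ_of_ne_zero fun e => hP0 (by simp [e])
  have hsm : ∀ {X : Type} (w : X → K) (D : X), (((p : O) ^ (k + s)) • w) D = P * w D := by
    intro X w D
    rw [Pi.smul_apply, Algebra.smul_def, map_pow, map_natCast, hPK]
  have inv : ∀ a b, ∃ g' ∈ R {a, b}, ∃ z ∈ R {a, b},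
      g' * g a b = 1 - (P : K) ^ 2 * (p * z) := by
    intro a b
    obtain ⟨z, hz, e⟩ := h2 a b
    have hz' : (p : K) * z ∈ R {a, b} := mul_mem (natCast_mem _ _) hz
    refine ⟨g b a * ∑ t ∈ Finset.range (2 * (k + s) + 1), ((p : K) * z) ^ t,
      mul_mem (Finset.pair_comm a b ▸ hg b a) (sum_mem fun t _ => pow_mem hz' t),
      z ^ (2 * (k + s) + 1), pow_mem hz _, ?_⟩
    have := mul_neg_geom_sum ((p : K) * z) (2 * (k + s) + 1)
    rw [mul_right_comm, e, this, hPK]
    ring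
  choose g' hg' z hz hgz using inv
  have m2 : ∀ {a b : ι} {σ : Finset ι} {x : K}, x ∈ R {a, b} → a ∈ σ → b ∈ σ → x ∈ R σ :=
    fun h ha hb => hm _ _ (by simp [Finset.insert_subset_iff, ha, hb]) h
  have m3 : ∀ {a b c : ι} {σ : Finset ι} {x : K}, x ∈ R {a, b, c} → a ∈ σ → b ∈ σ → c ∈ σ →
      x ∈ R σ := fun h ha hb hc => hm _ _ (by simp [Finset.insert_subset_iff, ha, hb, hc]) h
  have pz : ∀ a b, (p : K) * z a b ∈ R {a, b} := fun a b => mul_mem (natCast_mem _ _) (hz a b)
  have hy : ∀ a b c, g a b * g b c * g' a c ∈ R {a, b, c} := fun a b c =>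
    mul_mem (mul_mem (m2 (hg a b) (by simp) (by simp)) (m2 (hg b c) (by simp) (by simp)))
      (m2 (hg' a c) (by simp) (by simp))
  have lg : ∀ a b c, ∃ f ∈ R {a, b, c}, (g a b * g b c * g' a c) ^ P = 1 + P * f := by
    intro a b c
    obtain ⟨w, hw, e⟩ := h3 a b c
    rw [hPK, hP]
    refine dr_frob _ p (k + s) (w := w * g' a c - (P : K) ^ 2 * z a c)
      (sub_mem (mul_mem hw (m2 (hg' a c) (by simp) (by simp)))
        (mul_mem (pow_mem (natCast_mem _ _) _) (m2 (hz a c) (by simp) (by simp)))) ?_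
    rw [e]
    linear_combination hgz a c
  choose f hf hfe using lg
  obtain ⟨b₀, hb₀, eb₀⟩ := dr_coch3 (C := fun σ => forms O (R σ : Set K) 0)
    (fun a b c => drF0 (f a b c)) fun a b c => drF0_mem (hf a b c)
  obtain ⟨b₁, hb₁, eb₁⟩ := dr_coch2 (C := fun σ => forms O (R σ : Set K) 1)
    (fun a b => drF1 (g' a b) (g a b)) fun a b => drF1_mem (hg' a b) (hg a b)
  obtain ⟨e₀, he₀, E₀⟩ := dr_div (dC_mem (mono 0) hb₀) ((p : O) ^ (k + s)) (fun u hu => by
    rw [dr_im4]
    have l1 : u 0 < u 1 := hu (by decide)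
    have l2 : u 1 < u 2 := hu (by decide)
    have l3 : u 2 < u 3 := hu (by decide)
    generalize u 0 = a at *
    generalize u 1 = b at *
    generalize u 2 = c at *
    generalize u 3 = d at *
    rw [dC_four _ l1 l2 l3, eb₀ _ _ _ l2 l3, eb₀ _ _ _ (l1.trans l2) l3,
      eb₀ _ _ _ l1 (l2.trans l3), eb₀ _ _ _ l1 l2]
    obtain ⟨t, ht, e⟩ := dr_pow_sub (R {a, b, c, d})
      (mul_mem (m3 (hy b c d) (by simp) (by simp) (by simp))
        (m3 (hy a b d) (by simp) (by simp) (by simp)))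
      (mul_mem (m3 (hy a c d) (by simp) (by simp) (by simp))
        (m3 (hy a b c) (by simp) (by simp) (by simp))) P
    rw [mul_pow, mul_pow _ (g a b * g b c * g' a c), hfe, hfe, hfe, hfe] at e
    refine ⟨drF0 (g a b * g b c * g c d * g' a d * (p * z a c - p * z b d) * t -
      f b c d * f a b d + f a c d * f a b c), drF0_mem (add_mem (sub_mem (mul_mem (mul_mem
        (mul_mem (mul_mem (mul_mem (m2 (hg a b) (by simp) (by simp))
          (m2 (hg b c) (by simp) (by simp))) (m2 (hg c d) (by simp) (by simp)))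
          (m2 (hg' a d) (by simp) (by simp))) (sub_mem (m2 (pz a c) (by simp) (by simp))
          (m2 (pz b d) (by simp) (by simp)))) ht)
        (mul_mem (m3 (hf b c d) (by simp) (by simp) (by simp))
          (m3 (hf a b d) (by simp) (by simp) (by simp))))
        (mul_mem (m3 (hf a c d) (by simp) (by simp) (by simp))
          (m3 (hf a b c) (by simp) (by simp) (by simp)))), funext fun D => ?_⟩
    rw [hsm]
    simp only [Pi.add_apply, Pi.sub_apply, drF0]
    apply mul_left_cancel₀ hP0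
    linear_combination e + g a b * g b c * g c d * g' a d * t * (hgz b d - hgz a c))
  obtain ⟨e₁, he₁, E₁⟩ := dr_div (sub_mem (dC_mem (mono 1) hb₁)
      (dr_comp d₀ (fun σ => hd₀.mem) hb₀)) ((p : O) ^ (k + s)) (fun u hu => by
    rw [dr_im3]
    have l1 : u 0 < u 1 := hu (by decide)
    have l2 : u 1 < u 2 := hu (by decide)
    generalize u 0 = a at *
    generalize u 1 = b at *
    generalize u 2 = c at *
    rw [Pi.sub_apply, Function.comp_apply, dC_three _ l1 l2, eb₁ _ _ l2, eb₁ _ _ l1,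
      eb₁ _ _ (l1.trans l2), eb₀ _ _ _ l1 l2, hd₀.f0]
    have a1 : g a b ∈ R {a, b, c} := m2 (hg a b) (by simp) (by simp)
    have a2 : g b c ∈ R {a, b, c} := m2 (hg b c) (by simp) (by simp)
    have a3 : g a c ∈ R {a, b, c} := m2 (hg a c) (by simp) (by simp)
    have b1 : g' a b ∈ R {a, b, c} := m2 (hg' a b) (by simp) (by simp)
    have b2 : g' b c ∈ R {a, b, c} := m2 (hg' b c) (by simp) (by simp)
    have b3 : g' a c ∈ R {a, b, c} := m2 (hg' a c) (by simp) (by simp)
    have c1 : p * z a b ∈ R {a, b, c} := m2 (pz a b) (by simp) (by simp)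
    have c2 : p * z b c ∈ R {a, b, c} := m2 (pz b c) (by simp) (by simp)
    have c3 : p * z a c ∈ R {a, b, c} := m2 (pz a c) (by simp) (by simp)
    have hu : (P : K) * (g a b * g b c * g' a c) ^ N ∈ R {a, b, c} :=
      mul_mem (natCast_mem _ _) (pow_mem (hy a b c) _)
    have ey := hfe a b c
    rw [hN, pow_succ, ← hN] at ey
    refine ⟨drF1 (P : K) (p * z a c) - drF1 (f a b c * g' a b +
        P * (g a b * g b c * g' a c) ^ N * g b c * g' a c * (p * z a b)) (g a b) -
      drF1 (f a b c * g' b c +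
        P * (g a b * g b c * g' a c) ^ N * g a b * g' a c * (p * z b c)) (g b c) -
      drF1 (f a b c * g a c +
        P * (g a b * g b c * g' a c) ^ N * g a b * g b c * (p * z a c)) (g' a c),
      sub_mem (sub_mem (sub_mem (drF1_mem (natCast_mem (R _) _) c3)
        (drF1_mem (add_mem (mul_mem (hf a b c) b1) (mul_mem (mul_mem (mul_mem hu a2) b3) c1)) a1))
        (drF1_mem (add_mem (mul_mem (hf a b c) b2) (mul_mem (mul_mem (mul_mem hu a1) b3) c2)) a2))
        (drF1_mem (add_mem (mul_mem (hf a b c) a3) (mul_mem (mul_mem (mul_mem hu a1) a2) c3)) b3),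
      funext fun D => ?_⟩
    rw [hsm]
    have r := dr_rel (D 0) (hgz a c)
    have t := dr_one (D 0) hP0 hN (hfe a b c)
    rw [(D 0).leibniz, (D 0).leibniz] at t
    simp only [Pi.add_apply, Pi.sub_apply, drF1, smul_eq_mul] at t ⊢
    generalize (g a b * g b c * g' a c) ^ N = v at *
    linear_combination -t - r - (g' a b * D 0 (g a b) + g' b c * D 0 (g b c) +
      g a c * D 0 (g' a c)) * ey + v * g b c * g' a c * D 0 (g a b) * hgz a b +
      v * g a b * g' a c * D 0 (g b c) * hgz b c + v * g a b * g b c * D 0 (g' a c) * hgz a c)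
  obtain ⟨e₂, he₂, E₂⟩ := dr_div (sub_mem (dC_mem (mono 2) (zero_mem (Coch _ 1)))
      (dr_comp d₁ (fun σ => hd₁.mem) hb₁)) ((p : O) ^ (k + s)) (fun u hu => by
    rw [dr_im2]
    have l1 : u 0 < u 1 := hu (by decide)
    generalize u 0 = a at *
    generalize u 1 = b at *
    rw [Pi.sub_apply, Function.comp_apply, map_zero, eb₁ _ _ l1, hd₁.f1]
    refine ⟨drF2 (P * g' a b) (p * z a b) (g a b) - drF2 (P * (p * z a b)) (g' a b) (g a b),
      sub_mem (drF2_mem (mul_mem (natCast_mem (R _) _) (hg' a b)) (pz a b) (hg a b))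
        (drF2_mem (mul_mem (natCast_mem (R _) _) (pz a b)) (hg' a b) (hg a b)),
      funext fun D => ?_⟩
    rw [hsm]
    have r0 := dr_rel (D 0) (hgz a b)
    have r1 := dr_rel (D 1) (hgz a b)
    simp only [Pi.zero_apply, Pi.sub_apply, drF2]
    linear_combination (D 0 (g' a b) * D 1 (g a b) - D 0 (g a b) * D 1 (g' a b)) * hgz a b -
      g' a b * D 1 (g a b) * r0 + g' a b * D 0 (g a b) * r1)
  obtain ⟨c₀, hc₀, c₁, hc₁, c₂, hc₂, C₀, C₁, C₂, C₃⟩ := hs (k + s) b₀ hb₀ b₁ hb₁ 0 (zero_mem _)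
    e₀ he₀ e₁ he₁ e₂ he₂ 0 (zero_mem _) E₀ E₁ E₂ (by ext σ D; simp)
  choose ω ω1 ω2 using fun a => dr_rep (hR {a})
    (neg_mem (smul_mem _ ((p : O) ^ k) (dr_mem hc₂ {a})))
  choose l l1 l2 using fun a b => dr_rep (hR {a, b}) (neg_mem (dr_mem hc₁ {a, b}))
  choose φ φ1 φ2 using fun a b c => dr_rep (hR {a, b, c})
    (sub_mem (dr_mem hb₀ {a, b, c}) (smul_mem _ ((p : O) ^ k) (dr_mem hc₀ {a, b, c})))
  have hη : ∀ a b, a < b → Fm.ev ((g' a b, ![g a b]) ::
      (l a b).map fun x => ((p : K) ^ k * x.1, x.2)) = b₁ {a, b} - (p : O) ^ k • c₁ {a, b} := by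
    intro a b h
    funext D
    have := dr_ev_map ((p : K) ^ k) (l a b) D
    rw [l2] at this
    rw [eb₁ a b h, Pi.sub_apply, Pi.smul_apply, Algebra.smul_def, map_pow, map_natCast]
    simp only [Fm.ev, List.map_cons, List.sum_cons, Pi.neg_apply] at this ⊢
    rw [this]
    simp [drF1, sub_eq_add_neg]
  refine ⟨ω, l, φ, g', fun a b => (p : K) ^ s * P * (p * z a b), _, fun _ _ => rfl, ω1,
    fun a b => ⟨l1 a b, hg' a b, mul_mem (mul_mem (pow_mem (natCast_mem _ _) _)
      (natCast_mem _ _)) (pz a b), by rw [hgz, hPK]; ring⟩, φ1, fun a D => ?_,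
    fun i j h D => ?_, fun i j m h h' D => ?_, fun i j m n h h' h'' D => ?_⟩
  · have := congrFun C₃ {a}
    rw [Function.comp_apply, smul_zero, Pi.zero_apply] at this
    rw [← hd₂.ev, ω2, map_neg, map_smul, this]
    simp
  · have a := congrFun C₂ {i, j}
    have b := congrFun E₂ {i, j}
    rw [Pi.sub_apply, Function.comp_apply, dC_two _ h, Pi.smul_apply] at a b
    rw [← hd₁.ev, hη i j h, ω2, ω2, map_sub, map_smul, ← Pi.sub_apply]
    refine congrFun ?_ D
    simp only [Pi.zero_apply] at b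
    linear_combination (norm := module) b - (p : O) ^ k • a
  · have a := congrFun C₁ {i, j, m}
    have b := congrFun E₁ {i, j, m}
    rw [Pi.sub_apply, Function.comp_apply, dC_three _ h h', Pi.smul_apply] at a b
    rw [← hd₀.ev, hη i j h, hη j m h', hη i m (h.trans h'), φ2, map_sub, map_smul, ← Pi.sub_apply,
      ← Pi.add_apply]
    refine congrFun ?_ D
    linear_combination (norm := module) b - (p : O) ^ k • a
  · have a := congrFun C₀ {i, j, m, n}
    have b := congrFun E₀ {i, j, m, n}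
    rw [dC_four _ h h' h'', Pi.smul_apply] at a b
    rw [φ2, φ2, φ2, φ2, ← Pi.sub_apply, ← Pi.add_apply, ← Pi.sub_apply]
    refine congrFun (g := (0 : (Fin 0 → Derivation ℤ K K) → K)) ?_ D
    linear_combination (norm := module) b - (p : O) ^ k • a

end

end Pool.Agent.Lib.MP_62d77c_ag
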