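import Pool.Agent.Lib.MP_62d77c_ag.Dim

/-! All components of a fibre have the dimension of the generic fibre. -/

set_option autoImplicit false

namespace Pool.Agent.Lib.MP_62d77c_ag

open Filter Polynomial Submodule

noncomputable section

variable {A : Type} [CommRing A] [IsDomain A] {𝒜 : ℕ → AddSubgroup A} [GradedRing 𝒜]
  [hG : Fact (Gen 𝒜)] {p : ℕ} [Fact p.Prime]

omit [IsDomain A] hG in
theorem dimc_span_hom {ι : Type} {e : ℕ} {F : ι → A} (hF : ∀ i, F i ∈ 𝒜 e) :
    (Ideal.span (Set.range F)).IsHomogeneous 𝒜 :=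
  Ideal.homogeneous_span 𝒜 _ (by rintro x ⟨i, rfl⟩; exact ⟨e, hF i⟩)

/-- forms covering the fibre over `p` generate everything of large degree after inverting an
integer prime to `p` -/
theorem nakayama_cover {ι : Type} [Fintype ι] {e : ℕ} {F : ι → A} (hF : ∀ i, F i ∈ 𝒜 e)
    {I : Ideal A} (hI : I.IsHomogeneous 𝒜)
    (hcov : ∀ y : Vp 𝒜 p, I ≤ pr y.1 → ∃ i, F i ∉ pr y.1) :
    ∃ r : ℤ, ¬(p : ℤ) ∣ r ∧ ∀ᶠ n in atTop, ∀ a ∈ 𝒜 (n + e), ∃ c : ι → A, (∀ i, c i ∈ 𝒜 n) ∧
      (r : A) * a - ∑ i, F i * c i ∈ I := by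
  have hJ0 : (I ⊔ Ideal.span (Set.range F)).IsHomogeneous 𝒜 := hI.sup (dimc_span_hom hF)
  set J0 := I ⊔ Ideal.span (Set.range F) with hJ0def
  have hJ : (J0 ⊔ Ideal.span {(p : A)}).IsHomogeneous 𝒜 := hJ0.sup (md_span_hom (md_natCast_mem p))
  have hno : ∀ y : Pt 𝒜, ¬(J0 ⊔ Ideal.span {(p : A)}) ≤ pr y := by
    intro y hy
    have h1 : (p : A) ∈ pr y := hy (Ideal.mem_sup_right (Ideal.mem_span_singleton_self _))
    obtain ⟨i, hi⟩ := hcov ⟨y, h1⟩ (le_sup_left.trans (le_sup_left.trans hy))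
    exact hi (hy (Ideal.mem_sup_left (Ideal.mem_sup_right (Ideal.subset_span ⟨i, rfl⟩))))
  obtain ⟨N, hN⟩ := eventually_atTop.1 (irrelevant_of_no_pt (𝒜 := 𝒜) hJ hno)
  have hfg : (𝒜 N).toIntSubmodule.FG := by
    rw [Submodule.fg_iff_addSubgroup_fg]; exact piece_fg (𝒜 := 𝒜) N
  have hle : (𝒜 N).toIntSubmodule ≤ J0.restrictScalars ℤ ⊔
      (Ideal.span {(p : ℤ)}) • (𝒜 N).toIntSubmodule := by
    intro a ha
    have ha' : a ∈ 𝒜 N := ha
    obtain ⟨u, hu, v, hv, e1⟩ := Submodule.mem_sup.1 (hN N le_rfl a ha')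
    obtain ⟨w, rfl⟩ := Ideal.mem_span_singleton'.1 hv
    have e2 : a = GradedRing.proj 𝒜 N u + (p : ℤ) • GradedRing.proj 𝒜 N w := by
      have := md_proj_mul (md_natCast_mem (𝒜 := 𝒜) p) N w
      rw [add_zero] at this
      rw [← md_proj_same ha', ← e1, map_add, this]
      simp [mul_comm]
    rw [e2]
    exact add_mem (Submodule.mem_sup_left (md_proj_ideal hJ0 N hu))
      (Submodule.mem_sup_right (Submodule.smul_mem_smul (Ideal.mem_span_singleton_self _)
        (md_proj_mem N w)))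
  obtain ⟨r, hr, hr'⟩ := Submodule.exists_sub_one_mem_and_smul_le_of_fg_of_le_sup hfg le_rfl hle
  have hr1 : ∀ a ∈ 𝒜 N, (r : A) * a ∈ J0 := by
    intro a ha
    have : r • a ∈ J0.restrictScalars ℤ := hr' (Submodule.smul_mem_pointwise_smul a r _ ha)
    simpa using this
  refine ⟨r, fun hd => ?_, ?_⟩
  · have h1 : (p : ℤ) ∣ r - 1 := Ideal.mem_span_singleton.1 hr
    have h2 : (p : ℤ) ∣ 1 := by simpa using dvd_sub hd h1
    exact (Nat.prime_iff_prime_int.1 (Fact.out : p.Prime)).not_dvd_one h2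
  filter_upwards [eventually_ge_atTop N] with n hn a ha
  have h1 : (r : A) * a ∈ J0 := by
    have ha' : a ∈ 𝒜 (N + (n + e - N)) := by rwa [show N + (n + e - N) = n + e by omega]
    have h2 := mem_closure_mul N _ ha'
    clear ha ha'
    induction h2 using AddSubgroup.closure_induction with
    | mem z hz =>
      obtain ⟨b, hb, c, -, rfl⟩ := hz
      rw [← mul_assoc]; exact J0.mul_mem_right _ (hr1 b hb)
    | zero => simp
    | add z w _ _ h1 h2 => rw [mul_add]; exact add_mem h1 h2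
    | neg z _ h1 => rw [mul_neg]; exact neg_mem h1
  obtain ⟨u, hu, v, hv, e1⟩ := Submodule.mem_sup.1 h1
  obtain ⟨c, rfl⟩ := Ideal.mem_span_range_iff_exists_fun.1 hv
  refine ⟨fun i => GradedRing.proj 𝒜 n (c i), fun i => md_proj_mem n _, ?_⟩
  have h3 : (r : A) * a ∈ 𝒜 (n + e) := by
    simpa using SetLike.mul_mem_graded (md_intCast_mem (𝒜 := 𝒜) r) ha
  have e2 : (r : A) * a = GradedRing.proj 𝒜 (n + e) u +
      ∑ i, F i * GradedRing.proj 𝒜 n (c i) := by
    rw [← md_proj_same h3, ← e1, map_add, map_sum]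
    congr 1
    exact Finset.sum_congr rfl fun i _ => by rw [md_proj_mul (hF i), mul_comm]
  rw [e2, add_sub_cancel_right]
  exact md_proj_ideal hI _ hu

/-- integrality over a ring containing the covering forms -/
theorem dimc_int {R ι : Type} [CommRing R] [Algebra R A] [Fintype ι] {e : ℕ} (he : 0 < e)
    (f : ι → R) {r : ℤ} (h : ∀ᶠ n in atTop, ∀ a ∈ 𝒜 (n + e), ∃ c : ι → A, (∀ i, c i ∈ 𝒜 n) ∧
      (r : A) * a - ∑ i, algebraMap R A (f i) * c i ∈ (⊥ : Ideal A)) (a : A) :
    ∃ k : ℕ, IsIntegral R ((r : A) ^ k * a) := by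
  obtain ⟨N, hN⟩ := eventually_atTop.1 h
  let M : Submodule R A := ⨆ k ∈ Finset.range (N + e), span R (𝒜 k : Set A)
  have hM : M.FG := by
    refine Submodule.fg_biSup _ _ fun k _ => ?_
    obtain ⟨s, hs⟩ := piece_fg (𝒜 := 𝒜) k
    refine ⟨s, le_antisymm (span_mono fun z hz => ?_) (span_le.2 fun z hz => ?_)⟩
    · rw [← hs]; exact AddSubgroup.subset_closure hz
    · rw [← hs] at hz
      exact (AddSubgroup.closure_le (span R (s : Set A)).toAddSubgroup).2 subset_span hz
  have hlow : ∀ k, k < N + e → ∀ z ∈ 𝒜 k, z ∈ M := fun k hk z hz =>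
    Submodule.mem_iSup_of_mem k (Submodule.mem_iSup_of_mem (Finset.mem_range.2 hk)
      (subset_span hz))
  have hr : ∀ z ∈ M, (r : A) * z ∈ M := fun z hz => by
    have := M.smul_of_tower_mem r hz
    simpa using this
  have hrk : ∀ k : ℕ, ∀ z ∈ M, (r : A) ^ k * z ∈ M := by
    intro k
    induction k with
    | zero => simp
    | succ k ih => intro z hz; rw [pow_succ', mul_assoc]; exact hr _ (ih z hz)
  have h1 : ∀ n, ∀ z ∈ 𝒜 n, (r : A) ^ n * z ∈ M := by
    intro n
    induction n using Nat.strong_induction_on with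
    | _ n ih =>
      intro z hz
      by_cases hn : n < N + e
      · exact hrk n z (hlow n hn z hz)
      · obtain ⟨m, rfl⟩ : ∃ m, n = m + e := ⟨n - e, by omega⟩
        obtain ⟨e', rfl⟩ : ∃ e', e = e' + 1 := ⟨e - 1, by omega⟩
        obtain ⟨c, hc, e1⟩ := hN m (by omega) z hz
        rw [Ideal.mem_bot, sub_eq_zero] at e1
        have e2 : (r : A) ^ (m + (e' + 1)) * z =
            (r : A) ^ e' * ∑ i, f i • ((r : A) ^ m * c i) := by
          calc (r : A) ^ (m + (e' + 1)) * z = (r : A) ^ e' * ((r : A) ^ m * (r * z)) := by ring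
            _ = _ := by
              rw [e1, Finset.mul_sum]
              congr 1
              exact Finset.sum_congr rfl fun i _ => by rw [Algebra.smul_def]; ring
        rw [e2]
        exact hrk _ _ (M.sum_mem fun i _ => M.smul_mem _ (ih m (by omega) _ (hc i)))
  have h2 : ∀ z : A, ∀ᶠ k : ℕ in atTop, (r : A) ^ k * z ∈ M := by
    intro z
    induction z using DirectSum.Decomposition.inductionOn 𝒜 with
    | zero => simp
    | @homogeneous n z =>
      filter_upwards [eventually_ge_atTop n] with k hk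
      obtain ⟨l, rfl⟩ := Nat.exists_eq_add_of_le hk
      rw [add_comm, pow_add, mul_assoc]
      exact hrk _ _ (h1 n z z.2)
    | add z w h3 h4 =>
      filter_upwards [h3, h4] with k h5 h6
      rw [mul_add]; exact add_mem h5 h6
  obtain ⟨s, hs⟩ := id hM
  obtain ⟨k, hk⟩ := ((Finset.eventually_all s).2 fun g _ => h2 (a * g)).exists
  refine ⟨k, isIntegral_of_smul_mem_submodule M (fun e0 => ?_) hM _ fun z hz => ?_⟩
  · have := hlow 0 (by omega) 1 (SetLike.one_mem_graded 𝒜)
    rw [e0] at this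
    simp at this
  · rw [← hs] at hz
    induction hz using Submodule.span_induction with
    | mem g hg => rw [smul_eq_mul, mul_assoc]; exact hk g hg
    | zero => simp
    | add z w _ _ h3 h4 => rw [smul_add]; exact add_mem h3 h4
    | smul c z _ h3 => rw [smul_comm]; exact M.smul_mem c h3

/-- forms cutting the fibre down -/
theorem dimc_forms {D : ℕ} (hD : ∀ y : Vp 𝒜 p, dm y ≤ D) (t : ℕ) :
    ∃ e, 0 < e ∧ ∃ F : Fin t → A, (∀ i, F i ∈ 𝒜 e) ∧
      ∀ y : Vp 𝒜 p, (∀ i, F i ∈ pr y.1) → dm y + t ≤ D := by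
  induction t with
  | zero => exact ⟨1, one_pos, Fin.elim0, fun i => i.elim0, fun y _ => hD y⟩
  | succ t ih =>
    obtain ⟨e, he, F, hF, h⟩ := ih
    have hh : (Ideal.span (Set.range F) ⊔ Ideal.span {(p : A)}).IsHomogeneous 𝒜 :=
      (dimc_span_hom hF).sup (md_span_hom (md_natCast_mem p))
    obtain ⟨Z, hZ, hZ'⟩ := exists_min hh
    obtain ⟨N, hN⟩ := eventually_atTop.1 (avoid (J := ⊤) (Ideal.IsHomogeneous.top 𝒜) Z
      fun y _ hy => md_one_not_mem y (hy Submodule.mem_top))
    obtain ⟨a, -, ha, ha'⟩ := hN ((N + 1) * e) (by nlinarith)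
    refine ⟨(N + 1) * e, by positivity, Fin.cons a fun i => F i ^ (N + 1), fun i => ?_,
      fun y hy => ?_⟩
    · refine Fin.cases ha (fun i => ?_) i
      simpa using SetLike.pow_mem_graded (N + 1) (hF i)
    · have h1 : ∀ i, F i ∈ pr y.1 := fun i => y.1.isPrime.mem_of_pow_mem (N + 1) (hy i.succ)
      have h2 : a ∈ pr y.1 := hy 0
      obtain ⟨x, hx, hle⟩ := hZ' y.1 (sup_le (Ideal.span_le.2 (by rintro _ ⟨i, rfl⟩; exact h1 i))
        ((Ideal.span_singleton_le_iff_mem _).2 y.2))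
      have h3 := (hZ x hx).1
      let x' : Vp 𝒜 p := ⟨x, h3 (Ideal.mem_sup_right (Ideal.mem_span_singleton_self _))⟩
      have h4 := h x' fun i => h3 (Ideal.mem_sup_left (Ideal.subset_span ⟨i, rfl⟩))
      have h5 : dm y < dm x' := dm_lt (lt_of_le_of_ne hle fun e0 => ha' x hx (by
        change a ∈ pr x'.1
        rw [e0]; exact h2))
      omega

/-- the affine cone over the closure of a point, inside a polynomial ring -/
theorem dimc_cone (x : Pt 𝒜) : ∃ θ : A →+* (kap x)[X],
    (∀ n, ∀ a ∈ 𝒜 n, θ a = monomial n (th x a)) ∧ ∀ a, θ a = 0 ↔ a ∈ pr x := by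
  let f : ∀ n, 𝒜 n →+ (kap x)[X] := fun n =>
    { toFun := fun a => monomial n (th x a)
      map_zero' := by simp
      map_add' := fun a b => by simp }
  have h1 : f 0 (GradedMonoid.GOne.one (A := fun i => 𝒜 i)) = 1 := by
    change monomial 0 (th x 1) = 1
    simp
  have h2 : ∀ {i j} (a : 𝒜 i) (b : 𝒜 j),
      f (i + j) (GradedMonoid.GMul.mul (A := fun i => 𝒜 i) a b) = f i a * f j b := by
    intro i j a b
    change monomial (i + j) (th x (a * b)) = monomial i (th x a) * monomial j (th x b)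
    rw [map_mul, monomial_mul_monomial]
  let θ : A →+* (kap x)[X] := (DirectSum.toSemiring f h1 h2).comp
    (DirectSum.decomposeRingEquiv 𝒜).toRingHom
  have h3 : ∀ n, ∀ a ∈ 𝒜 n, θ a = monomial n (th x a) := by
    intro n a ha
    have : (DirectSum.decomposeRingEquiv 𝒜).toRingHom a = DirectSum.of (fun i => 𝒜 i) n ⟨a, ha⟩ :=
      DirectSum.decompose_of_mem 𝒜 ha
    rw [RingHom.comp_apply, this, DirectSum.toSemiring_of]
    rfl
  have h4 : ∀ a n, (θ a).coeff n = th x (GradedRing.proj 𝒜 n a) := by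
    intro a n
    induction a using DirectSum.Decomposition.inductionOn 𝒜 with
    | zero => simp
    | @homogeneous m z =>
      rw [h3 m z z.2, coeff_monomial]
      split_ifs with e0
      · subst e0; rw [md_proj_same z.2]
      · rw [md_proj_ne z.2 e0, map_zero]
    | add z w h5 h6 => rw [map_add, coeff_add, h5, h6, map_add, map_add]
  refine ⟨θ, h3, fun a => ⟨fun h => md_mem_of_proj (𝒜 := 𝒜) fun n => ?_, fun h => ?_⟩⟩
  · rw [← th_eq_zero x (md_proj_mem n a), ← h4, h, coeff_zero]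
  · ext n
    rw [h4, coeff_zero, th_eq_zero x (md_proj_mem n a)]
    exact md_proj_ideal (pr_hom x) n h

theorem dimc_trdeg (x : Vp 𝒜 p) :
    Algebra.trdeg (ZMod p) (kap x.1)[X] = (dm x + 1 : ℕ) := by
  rw [← trdeg_add_eq (ZMod p) (kap x.1), trdeg_eq_dm, Polynomial.trdeg_of_isDomain]
  simp

omit [IsDomain A] hG in
theorem dimc_aeval {ι T : Type} [CommRing T] [Algebra (ZMod p) T] (θ : A →+* T) (F : ι → A)
    (P : MvPolynomial ι ℤ) : θ (MvPolynomial.aeval F P) = MvPolynomial.aeval (fun i => θ (F i))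
      (MvPolynomial.map (Int.castRingHom (ZMod p)) P) := by
  have : θ.comp (MvPolynomial.aeval F : MvPolynomial ι ℤ →ₐ[ℤ] A).toRingHom =
      (MvPolynomial.aeval (fun i => θ (F i)) : MvPolynomial ι (ZMod p) →ₐ[ZMod p] T).toRingHom.comp
        (MvPolynomial.map (Int.castRingHom (ZMod p))) :=
    MvPolynomial.ringHom_ext' (RingHom.ext_int _ _) fun i => by simp
  exact DFunLike.congr_fun this P

/-- Noether normalisation over the integers localised at `p` and going down -/
theorem dm_comp [CharZero A] {d : ℕ} (hdim : Algebra.trdeg ℤ A = d + 1) (j : Comp 𝒜 p) :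
    dm j.1 = d := by
  classical
  haveI : Nonempty (Comp 𝒜 p) := ⟨j⟩
  obtain ⟨j0, hj0⟩ := Finite.exists_max fun k : Comp 𝒜 p => dm k.1
  set D := dm j0.1 with hDdef
  have hD : ∀ y : Vp 𝒜 p, dm y ≤ D := by
    intro y
    obtain ⟨k, hk⟩ := exists_comp y
    rcases hk.lt_or_eq with h | h
    · exact (dm_lt h).le.trans (hj0 k)
    · have : k.1 = y := Subtype.ext (pr_inj h)
      exact this ▸ hj0 k
  obtain ⟨e, he, F, hF, hcut⟩ := dimc_forms hD (D + 1)
  obtain ⟨r, hr, hcov⟩ := nakayama_cover (p := p) hF (Ideal.IsHomogeneous.bot 𝒜) fun y _ => by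
    by_contra hc
    push Not at hc
    have := hcut y hc
    omega
  have hrp : ∀ y : Vp 𝒜 p, ∀ k : ℕ, (r : A) ^ k ∉ pr y.1 := by
    intro y k
    refine md_pow_not_mem (fun h => ?_) k
    obtain ⟨u, v, huv⟩ := ((Nat.prime_iff_prime_int.1 (Fact.out : p.Prime)).coprime_iff_not_dvd).2 hr
    have e1 : (u : A) * p + v * r = 1 := by exact_mod_cast congrArg (Int.cast : ℤ → A) huv
    exact md_one_not_mem y.1 (e1 ▸ add_mem (Ideal.mul_mem_left _ _ y.2) (Ideal.mul_mem_left _ _ h))
  let B := MvPolynomial (Fin (D + 1)) ℤ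
  letI : Algebra B A := (MvPolynomial.aeval F : B →ₐ[ℤ] A).toRingHom.toAlgebra
  have hB : ∀ P : B, algebraMap B A P = MvPolynomial.aeval F P := fun _ => rfl
  have hint : ∀ a : A, ∃ k : ℕ, IsIntegral B ((r : A) ^ k * a) :=
    dimc_int (𝒜 := 𝒜) (R := B) he (fun i => MvPolynomial.X i) (by
      have : ∀ i, algebraMap B A (MvPolynomial.X i) = F i := fun i => MvPolynomial.aeval_X F i
      simpa only [this] using hcov)
  -- independence modulo the largest component
  have h1 : ∀ P : B, MvPolynomial.aeval F P ∈ cI j0 →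
      MvPolynomial.map (Int.castRingHom (ZMod p)) P = 0 := by
    obtain ⟨θ, hθ, hker⟩ := dimc_cone j0.1.1
    let B' := Algebra.adjoin (ZMod p) (Set.range fun i => θ (F i))
    let φ : B →+* B' := MvPolynomial.eval₂Hom (Int.castRingHom B')
      fun i => ⟨θ (F i), Algebra.subset_adjoin ⟨i, rfl⟩⟩
    have hφ : (algebraMap B' _).comp φ = θ.comp (algebraMap B A) :=
      MvPolynomial.ringHom_ext' (RingHom.ext_int _ _) fun i => by simp [φ, hB]
    have ha : ∀ a : A, IsAlgebraic B' (θ a) := by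
      intro a
      obtain ⟨k, hk⟩ := hint a
      have h2 := (hk.map_of_comp_eq φ θ hφ).isAlgebraic
      rw [map_mul] at h2
      refine IsAlgebraic.of_mul (mem_nonZeroDivisors_of_ne_zero fun e0 =>
        hrp j0.1 k ((hker _).1 e0)) ?_ h2
      have : θ ((r : A) ^ k) = algebraMap B' _ ((r : B') ^ k) := by simp
      rw [this]
      exact isAlgebraic_algebraMap _
    haveI : Algebra.IsAlgebraic B' (kap j0.1.1)[X] := ⟨fun z => by
      induction z using Polynomial.induction_on' with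
      | add z w h2 h3 => exact h2.add h3
      | monomial n c =>
        obtain ⟨m, a, ha1, b, hb1, hb, rfl⟩ := th_gen j0.1.1 c
        have hb0 : th j0.1.1 b ≠ 0 := fun e0 => hb ((th_eq_zero _ hb1).1 e0)
        refine IsAlgebraic.of_mul (mem_nonZeroDivisors_of_ne_zero fun e0 =>
          hb ((hker _).1 e0)) (ha b) ?_
        have h4 := ha (a * ell j0.1.1 ^ n)
        rw [hθ _ _ (SetLike.mul_mem_graded ha1 (md_pow_mem (ell_spec _).1 n)), map_mul, map_pow,
          th_ell, one_pow, mul_one] at h4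
        rw [hθ _ _ hb1, monomial_mul_monomial, mul_div_cancel₀ _ hb0]
        exact h4⟩
    have h5 := (Algebra.IsAlgebraic.isTranscendenceBasis_of_le_trdeg_of_finite (ZMod p)
      (fun i => θ (F i)) (by rw [dimc_trdeg]; simp [hDdef])).1
    intro P hP
    refine h5 ?_
    rw [← dimc_aeval, map_zero]
    exact (hker _).2 hP
  have hp0 : (p : A) ≠ 0 := by exact_mod_cast (Fact.out : p.Prime).ne_zero
  have hind : AlgebraicIndependent ℤ F := by
    rw [algebraicIndependent_iff]
    have h2 : ∀ n : ℕ, ∀ P : B, MvPolynomial.aeval F P = 0 → ∀ m, (p : ℤ) ^ n ∣ P.coeff m := by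
      intro n
      induction n with
      | zero => simp
      | succ n ih =>
        intro P hP m
        obtain ⟨Q, rfl⟩ := (MvPolynomial.C_dvd_iff_zmod p P).2 (h1 P (hP ▸ zero_mem _))
        rw [map_mul, MvPolynomial.aeval_C] at hP
        rw [MvPolynomial.coeff_C_mul, pow_succ']
        exact mul_dvd_mul_left _ (ih Q ((mul_eq_zero.1 hP).resolve_left (by simpa using hp0)) m)
    intro P hP
    ext m
    refine Int.eq_zero_of_dvd_of_natAbs_lt_natAbs (h2 (P.coeff m).natAbs P hP m) ?_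
    rw [Int.natAbs_pow, Int.natAbs_natCast]
    exact Nat.lt_pow_self (Fact.out : p.Prime).one_lt
  have hr0 : (r : A) ≠ 0 := fun e0 => hrp j0.1 1 (by rw [pow_one, e0]; exact zero_mem _)
  have hdD : d = D := by
    have h2 : Algebra.IsAlgebraic (Algebra.adjoin ℤ (Set.range F)) A := ⟨fun a => by
      obtain ⟨k, hk⟩ := dimc_int (𝒜 := 𝒜) he
        (fun i => (⟨F i, Algebra.subset_adjoin ⟨i, rfl⟩⟩ : Algebra.adjoin ℤ (Set.range F))) hcov a
      refine IsAlgebraic.of_mul (mem_nonZeroDivisors_of_ne_zero (pow_ne_zero k hr0)) ?_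
        hk.isAlgebraic
      have : (r : A) ^ k = algebraMap (Algebra.adjoin ℤ (Set.range F)) A ((r : _) ^ k) := by simp
      rw [this]
      exact isAlgebraic_algebraMap _⟩
    have h3 := (hind.isTranscendenceBasis_iff_isAlgebraic.2 h2).cardinalMk_eq_trdeg
    rw [hdim, Cardinal.mk_fin] at h3
    have h4 : D + 1 = d + 1 := by exact_mod_cast h3
    omega
  -- going down
  have h6 : ∀ P : B, MvPolynomial.aeval F P ∈ cI j →
      MvPolynomial.map (Int.castRingHom (ZMod p)) P = 0 := by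
    intro b hb
    haveI := j.1.1.isPrime
    have h7 : ∃ s, s ∉ cI j ∧ ∃ m : ℕ, s * MvPolynomial.aeval F b ^ m ∈ Ideal.span {(p : A)} := by
      by_contra hc
      push Not at hc
      obtain ⟨P', hP', hle, hdis⟩ := Ideal.exists_le_prime_disjoint (Ideal.span {(p : A)})
        ((cI j).primeCompl ⊔ Submonoid.powers (MvPolynomial.aeval F b)) (by
          rw [Set.disjoint_left]
          intro z hz hz'
          obtain ⟨s, hs, _, ⟨m, rfl⟩, rfl⟩ := Submonoid.mem_sup.1 hz'
          exact hc s hs m hz)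
      rw [Set.disjoint_left] at hdis
      have h8 : P' ≤ cI j := fun z hz => by
        by_contra hn
        exact hdis hz (Submonoid.mem_sup_left hn)
      have h9 := Ideal.toIdeal_homogeneousCore_le 𝒜 P'
      rcases exists_pt hP'.homogeneousCore (P'.homogeneousCore 𝒜).isHomogeneous with h | ⟨y, hy⟩
      · exact (ell_spec j.1.1).2 (h8 (h9 (h _ (ell_spec j.1.1).1)))
      · have h10 : (p : A) ∈ pr y := by
          rw [hy]
          exact Ideal.mem_homogeneousCore_of_homogeneous_of_mem ⟨0, md_natCast_mem p⟩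
            (hle (Ideal.mem_span_singleton_self _))
        have h11 := j.2 ⟨y, h10⟩ (by change pr y ≤ _; rw [hy]; exact h9.trans h8)
        have h12 : cI j = pr y := by rw [cI, ← h11]
        exact hdis (h9 (by rw [← hy, ← h12]; exact hb))
          (Submonoid.mem_sup_right (Submonoid.mem_powers _))
    obtain ⟨s, hs, m, hm⟩ := h7
    obtain ⟨a, ha⟩ := Ideal.mem_span_singleton'.1 hm
    obtain ⟨k, hk⟩ := hint s
    obtain ⟨l, hl⟩ := hint a
    let S := integralClosure B A
    haveI : FaithfulSMul B A := (faithfulSMul_iff_algebraMap_injective B A).2 hind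
    haveI : FaithfulSMul B S := (faithfulSMul_iff_algebraMap_injective B S).2 fun u v huv =>
      hind (congrArg Subtype.val huv)
    let Q : Ideal S := (cI j).comap S.val.toRingHom
    haveI : Q.IsPrime := Ideal.comap_isPrime _ _
    let q : Ideal B := RingHom.ker (MvPolynomial.map (Int.castRingHom (ZMod p)))
    haveI : q.IsPrime := RingHom.ker_isPrime _
    have hq : q ≤ Q.under B := by
      intro P hP
      obtain ⟨P1, rfl⟩ := (MvPolynomial.C_dvd_iff_zmod p P).2 hP
      change MvPolynomial.aeval F (MvPolynomial.C (p : ℤ) * P1) ∈ cI j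
      rw [map_mul, MvPolynomial.aeval_C]
      exact Ideal.mul_mem_right _ _ (by simpa using j.1.2)
    obtain ⟨Q', hQ, hQ', hover⟩ := Q.exists_ideal_le_liesOver_of_le (p := q) (q := Q.under B) hq
    have hpq : algebraMap B S (MvPolynomial.C (p : ℤ)) ∈ Q' := by
      rw [← Ideal.mem_comap, ← Ideal.under_def, ← hover.over]
      exact (MvPolynomial.C_dvd_iff_zmod p _).1 dvd_rfl
    have e1 : ((r : S) ^ l * ⟨_, hk⟩) * algebraMap B S b ^ m =
        ((r : S) ^ k * ⟨_, hl⟩) * algebraMap B S (MvPolynomial.C (p : ℤ)) := by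
      apply Subtype.ext
      change ((r : A) ^ l * ((r : A) ^ k * s)) * MvPolynomial.aeval F b ^ m =
        ((r : A) ^ k * ((r : A) ^ l * a)) * MvPolynomial.aeval F (MvPolynomial.C (p : ℤ))
      rw [MvPolynomial.aeval_C]
      simp only [eq_intCast, Int.cast_natCast]
      linear_combination (r : A) ^ k * (r : A) ^ l * ha.symm
    have h13 : ((r : S) ^ l * ⟨_, hk⟩) * algebraMap B S b ^ m ∈ Q' :=
      e1 ▸ Q'.mul_mem_left _ hpq
    rcases hQ'.mem_or_mem h13 with h | h
    · have h14 : (r : A) ^ l * ((r : A) ^ k * s) ∈ cI j := hQ h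
      exact absurd h14 (md_mul_not_mem (hrp j.1 l) (md_mul_not_mem (hrp j.1 k) hs))
    · have h14 := hQ'.mem_of_pow_mem m h
      rw [← Ideal.mem_comap, ← Ideal.under_def, ← hover.over] at h14
      exact h14
  obtain ⟨θ, -, hker⟩ := dimc_cone j.1.1
  have h7 : AlgebraicIndependent (ZMod p) fun i => θ (F i) := by
    rw [algebraicIndependent_iff]
    intro P hP
    obtain ⟨P, rfl⟩ := MvPolynomial.map_surjective (Int.castRingHom (ZMod p))
      (ZMod.ringHom_surjective _) P
    rw [← dimc_aeval] at hP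
    exact h6 P ((hker _).1 hP)
  have h8 := h7.cardinalMk_le_trdeg
  rw [dimc_trdeg, Cardinal.mk_fin] at h8
  have h9 : D + 1 ≤ dm j.1 + 1 := by exact_mod_cast h8
  have := hD j.1
  omega

end

end Pool.Agent.Lib.MP_62d77c_ag
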