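import Pool.Agent.Lib.MP_62d77c_ag.Glue
import Pool.Agent.Lib.MP_62d77c_ag.DimC
import Pool.Agent.Lib.MP_62d77c_ag.Forms
import Pool.Agent.Lib.MP_62d77c_ag.BTors
import Pool.Agent.Lib.MP_62d77c_ag.DRA

/-! The crystalline first Chern class as a de Rham cocycle. -/

set_option autoImplicit false

namespace Pool.Agent.Lib.MP_62d77c_ag

open Filter Polynomial Submodule

noncomputable section

variable {A : Type} [CommRing A] [IsDomain A] {𝒜 : ℕ → AddSubgroup A} [GradedRing 𝒜]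
  [hG : Fact (Gen 𝒜)] {p : ℕ} [Fact p.Prime]

/-- denominators allowed on a chart over the integers localised at `p` -/
def denp (p : ℕ) {r : ℕ} (F : Fin r → A) (s : Set (Fin r)) : Submonoid A :=
  Submonoid.closure (F '' s ∪ {a | ∃ m : ℤ, ¬(p : ℤ) ∣ m ∧ a = m})

omit hG [Fact p.Prime] in
theorem dr_denp_zero [CharZero A] {r : ℕ} {F : Fin r → A} (hF : ∀ a, F a ≠ 0)
    (s : Set (Fin r)) : (0 : A) ∉ denp p F s := by
  have : denp p F s ≤ nonZeroDivisors A := Submonoid.closure_le.2 (by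
    rintro _ (⟨a, -, rfl⟩ | ⟨m, hm, rfl⟩)
    · exact mem_nonZeroDivisors_of_ne_zero (hF a)
    · exact mem_nonZeroDivisors_of_ne_zero (Int.cast_ne_zero.2 fun e => hm (e ▸ dvd_zero _)))
  exact fun h => zero_notMem_nonZeroDivisors (this h)

omit [IsDomain A] hG in
theorem dr_prod_mem {r e : ℕ} {F : Fin r → A} (hF : ∀ a, F a ∈ 𝒜 e) (σ : Finset (Fin r)) (n : ℕ) :
    (∏ a ∈ σ, F a) ^ n ∈ 𝒜 (e * (n * σ.card)) := by
  have h1 : ∏ a ∈ σ, F a ∈ 𝒜 (∑ _a ∈ σ, e) := SetLike.prod_mem_graded 𝒜 _ _ fun a _ => hF a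
  have h2 := SetLike.pow_mem_graded n h1
  rw [Finset.sum_const, smul_eq_mul, smul_eq_mul] at h2
  convert h2 using 2
  ring

omit [IsDomain A] hG in
theorem dr_int_mem (m : ℤ) : (m : A) ∈ 𝒜 0 := by
  have := (𝒜 0).zsmul_mem (SetLike.one_mem_graded 𝒜) m
  simpa using this

omit [IsDomain A] hG in
theorem dr_denp {r e : ℕ} {F : Fin r → A} (hF : ∀ a, F a ∈ 𝒜 e) (σ : Finset (Fin r)) {b : A}
    (hb : b ∈ denp p F (σ : Set (Fin r))) : ∃ (N d d' : ℕ) (m : ℤ) (c : A), ¬(p : ℤ) ∣ m ∧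
      b ∈ 𝒜 d ∧ c ∈ 𝒜 d' ∧ d + d' = e * (N * σ.card) ∧ b * c = m * (∏ a ∈ σ, F a) ^ N := by
  have hp : Prime (p : ℤ) := Nat.prime_iff_prime_int.1 Fact.out
  induction hb using Submonoid.closure_induction with
  | mem x hx =>
    rcases hx with ⟨a, ha, rfl⟩ | ⟨m, hm, rfl⟩
    · have ha' : a ∈ σ := ha
      have h1 := dr_prod_mem hF (σ.erase a) 1
      refine ⟨1, e, _, 1, _, hp.not_dvd_one, hF a, h1, ?_, ?_⟩
      · rw [← Finset.card_erase_add_one ha']; ring
      · rw [pow_one, pow_one, Finset.mul_prod_erase _ _ ha']; simp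
    · exact ⟨0, 0, 0, m, 1, hm, dr_int_mem m, SetLike.one_mem_graded 𝒜, by simp, by simp⟩
  | one =>
    exact ⟨0, 0, 0, 1, 1, hp.not_dvd_one, SetLike.one_mem_graded 𝒜, SetLike.one_mem_graded 𝒜,
      by simp, by simp⟩
  | mul x y _ _ hx hy =>
    obtain ⟨N, d, d', m, c, a1, a2, a3, a4, a5⟩ := hx
    obtain ⟨N₁, d₁, d₁', m₁, c₁, b1, b2, b3, b4, b5⟩ := hy
    refine ⟨N + N₁, d + d₁, d' + d₁', m * m₁, c * c₁, fun k => (hp.dvd_or_dvd k).elim a1 b1,
      SetLike.mul_mem_graded a2 b2, SetLike.mul_mem_graded a3 b3, by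
        rw [add_mul, mul_add]; omega, ?_⟩
    rw [mul_mul_mul_comm, a5, b5]
    push_cast
    ring

omit [GradedRing 𝒜] hG in
theorem dr_frac_mono {T T' : Submonoid A} (h : T ≤ T') : frac 𝒜 T ≤ frac 𝒜 T' :=
  Subring.closure_mono fun _ ⟨n, a, ha, b, hb, hT, e⟩ => ⟨n, a, ha, b, hb, h hT, e⟩

omit [GradedRing 𝒜] hG in
theorem dr_div_mem {T : Submonoid A} {n : ℕ} {a b : A} (ha : a ∈ 𝒜 n) (hb : b ∈ 𝒜 n) (h : b ∈ T) :
    algebraMap A (FractionRing A) a / algebraMap A (FractionRing A) b ∈ frac 𝒜 T :=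
  Subring.subset_closure ⟨n, a, ha, b, hb, h, rfl⟩

section Zp

omit [IsDomain A] [GradedRing 𝒜] hG in
theorem dr_Zp {K : Type} [Field K] [CharZero K] (c : Zp p) :
    ∃ a b : ℤ, ¬(p : ℤ) ∣ b ∧ (b : K) ≠ 0 ∧ algebraMap (Zp p) K c = a / b := by
  obtain ⟨a, b, h, e⟩ := (mem_Zp p).1 c.2
  refine ⟨a, b, h, Int.cast_ne_zero.2 fun k => h (k ▸ dvd_zero _), ?_⟩
  rw [IsScalarTower.algebraMap_apply (Zp p) ℚ K]
  change algebraMap ℚ K (c : ℚ) = _
  rw [e]; simp

omit [IsDomain A] [GradedRing 𝒜] hG in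
theorem dr_Zp_inv {K : Type} [Field K] [CharZero K] {m : ℤ} (h : ¬(p : ℤ) ∣ m) :
    ∃ c : Zp p, algebraMap (Zp p) K c = (m : K)⁻¹ := by
  refine ⟨⟨(1 : ℤ) / m, (mem_Zp p).2 ⟨1, m, h, rfl⟩⟩, ?_⟩
  rw [IsScalarTower.algebraMap_apply (Zp p) ℚ K]
  change algebraMap ℚ K (((1 : ℤ) : ℚ) / m) = _
  simp

omit [IsDomain A] [GradedRing 𝒜] hG in
theorem dr_hO {K : Type} [Field K] [CharZero K] (D : Derivation ℤ K K) (c : Zp p) :
    D (algebraMap (Zp p) K c) = 0 := by
  obtain ⟨u, v, -, -, e⟩ := dr_Zp (K := K) c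
  rw [e, D.leibniz_div]
  simp

theorem dr_deg0' {k K : Type} [CommRing k] [Field K] [Algebra k K] (M : AM 𝒜 k K) {a : A}
    (ha : a ∈ 𝒜 0) : ∃ m : ℤ, M.θ a = m := by
  have := M.mem_pow.2 ⟨a, ha, rfl⟩
  rw [pow_zero, Submodule.mem_one] at this
  obtain ⟨c, hc⟩ := this
  obtain ⟨m, rfl⟩ := M.surj c
  exact ⟨m, by rw [← hc, eq_intCast, map_intCast]⟩

theorem dr_deg0 {a : A} (ha : a ∈ 𝒜 0) : ∃ m : ℤ, a = m := by
  obtain ⟨m, hm⟩ := dr_deg0' (MX 𝒜) ha
  refine ⟨m, FaithfulSMul.algebraMap_injective A (FractionRing A) ?_⟩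
  rw [map_intCast]
  exact hm

section gen
variable {K : Type} [Field K] [CharZero K] (θ : A →+* K)

variable (𝒜 p) in
/-- forms over the integers localised at `p` -/
def drW (n : ℕ) : Submodule (Zp p) K :=
  span (Zp p) (θ '' (𝒜 n : Set A))

variable (𝒜 p) in
/-- linear forms over the integers localised at `p` -/
abbrev drV : Submodule (Zp p) K := drW 𝒜 p θ 1

theorem drV_pow (n : ℕ) : drV 𝒜 p θ ^ n = drW 𝒜 p θ n := by
  induction n with
  | zero =>
    rw [Submodule.pow_zero]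
    apply le_antisymm
    · exact Submodule.one_le.2 (subset_span ⟨1, SetLike.one_mem_graded 𝒜, map_one _⟩)
    · refine span_le.2 ?_
      rintro _ ⟨a, ha, rfl⟩
      obtain ⟨m, rfl⟩ := dr_deg0 ha
      exact Submodule.mem_one.2 ⟨m, by rw [map_intCast, map_intCast]⟩
  | succ n ih =>
    rw [Submodule.pow_succ, ih, drV, drW, drW, span_mul_span]
    apply le_antisymm
    · refine span_mono ?_
      rintro _ ⟨_, ⟨a, ha, rfl⟩, _, ⟨b, hb, rfl⟩, rfl⟩
      exact ⟨a * b, SetLike.mul_mem_graded ha hb, map_mul _ _ _⟩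
    · refine span_le.2 ?_
      rintro _ ⟨a, ha, rfl⟩
      have := mem_closure_mul n 1 ha
      clear ha
      induction this using AddSubgroup.closure_induction with
      | mem x hx =>
        obtain ⟨b, hb, c, hc, rfl⟩ := hx
        exact subset_span ⟨_, ⟨b, hb, rfl⟩, _, ⟨c, hc, rfl⟩, (map_mul _ _ _).symm⟩
      | zero => rw [map_zero]; exact zero_mem _
      | add x y _ _ hx hy => rw [map_add]; exact add_mem hx hy
      | neg x _ hx => rw [map_neg]; exact neg_mem hx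

theorem drV_mem {n : ℕ} {a : A} (ha : a ∈ 𝒜 n) :
    θ a ∈ drV 𝒜 p θ ^ n := by
  rw [drV_pow]
  exact subset_span ⟨a, ha, rfl⟩

theorem drV_ex {n : ℕ} {z : K} (hz : z ∈ drV 𝒜 p θ ^ n) :
    ∃ m : ℤ, ¬(p : ℤ) ∣ m ∧ ∃ a ∈ 𝒜 n, m * z = θ a := by
  have hp : Prime (p : ℤ) := Nat.prime_iff_prime_int.1 Fact.out
  rw [drV_pow] at hz
  induction hz using span_induction with
  | mem z h =>
    obtain ⟨a, ha, e⟩ := h
    exact ⟨1, hp.not_dvd_one, a, ha, by rw [← e]; simp⟩
  | zero => exact ⟨1, hp.not_dvd_one, 0, zero_mem _, by simp⟩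
  | add x y _ _ hx hy =>
    obtain ⟨m, h1, a, ha, e⟩ := hx
    obtain ⟨m', h1', a', ha', e'⟩ := hy
    refine ⟨m * m', fun k => (hp.dvd_or_dvd k).elim h1 h1', m' • a + m • a',
      add_mem (zsmul_mem ha _) (zsmul_mem ha' _), ?_⟩
    simp only [zsmul_eq_mul, map_add, map_mul, map_intCast, ← e, ← e', Int.cast_mul]
    ring
  | smul c x _ hx =>
    obtain ⟨m, h1, a, ha, e⟩ := hx
    obtain ⟨u, v, h2, h3, e'⟩ := dr_Zp (K := K) c
    refine ⟨m * v, fun k => (hp.dvd_or_dvd k).elim h1 h2, u • a, zsmul_mem ha _, ?_⟩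
    rw [Algebra.smul_def c, e']
    simp only [zsmul_eq_mul, map_mul, map_intCast, ← e, Int.cast_mul]
    field_simp

end gen

variable [CharZero (FractionRing A)]

omit hG in
theorem dr_alg_mem {r : ℕ} (F : Fin r → A) (s : Set (Fin r)) (c : Zp p) :
    algebraMap (Zp p) (FractionRing A) c ∈ frac 𝒜 (denp p F s) := by
  obtain ⟨u, v, h2, -, e⟩ := dr_Zp (K := FractionRing A) c
  have := dr_div_mem (𝒜 := 𝒜) (T := denp p F s) (dr_int_mem u) (dr_int_mem v)
    (Submonoid.subset_closure (Or.inr ⟨v, h2, rfl⟩))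
  rwa [map_intCast, map_intCast, ← e] at this

theorem dr_chR [CharZero A] {r e : ℕ} {F : Fin r → A} (hF : ∀ a, F a ∈ 𝒜 e) (h0 : ∀ a, F a ≠ 0)
    (σ : Finset (Fin r)) :
    (chR (drV 𝒜 p (algebraMap A (FractionRing A)))
      (fun a => algebraMap A (FractionRing A) (F a)) e σ : Set (FractionRing A)) =
      frac 𝒜 (denp p F (σ : Set (Fin r))) := by
  have hne : ∀ b ∈ denp p F (σ : Set (Fin r)), algebraMap A (FractionRing A) b ≠ 0 :=
    fun b hb h => dr_denp_zero h0 _ (((FaithfulSMul.algebraMap_eq_zero_iff _ _).1 h) ▸ hb)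
  have hpr : ∀ n : ℕ, (∏ a ∈ σ, F a) ^ n ∈ denp p F (σ : Set (Fin r)) := by
    intro n
    have h1 : ∀ a ∈ σ, F a ∈ denp p F (σ : Set (Fin r)) := fun a ha =>
      Submonoid.subset_closure (Or.inl ⟨a, ha, rfl⟩)
    exact Submonoid.pow_mem _ (Submonoid.prod_mem _ h1) n
  ext z
  constructor
  · intro hz
    induction hz using span_induction with
    | mem z h =>
      obtain ⟨n, h⟩ := h
      obtain ⟨m, h1, a, ha, e1⟩ := drV_ex _ h
      have hm : (m : A) ∈ denp p F (σ : Set (Fin r)) :=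
        Submonoid.subset_closure (Or.inr ⟨m, h1, rfl⟩)
      have hb := SetLike.mul_mem_graded (dr_int_mem (𝒜 := 𝒜) m) (dr_prod_mem hF σ n)
      rw [zero_add] at hb
      have := dr_div_mem ha hb (mul_mem hm (hpr n))
      rw [← e1, div_eq_of_eq_mul (hne _ (mul_mem hm (hpr n))) (c := z)] at this
      · exact this
      · simp only [smul_eq_mul, map_mul, map_pow, map_prod, map_intCast]
        ring
    | zero => exact zero_mem _
    | add x y _ _ hx hy => exact add_mem hx hy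
    | smul c x _ hx =>
      rw [Algebra.smul_def]
      exact mul_mem (dr_alg_mem F _ c) hx
  · intro hz
    obtain ⟨n, a, ha, b, hb, hT, rfl⟩ := (mem_frac (dr_denp_zero h0 _)).1 hz
    obtain ⟨N, d, d', m, c, a1, a2, a3, a4, a5⟩ := dr_denp hF σ hT
    have hd : n = d := DirectSum.degree_eq_of_mem_mem 𝒜 hb a2 fun k =>
      dr_denp_zero h0 _ (k ▸ hT)
    obtain ⟨u, hu⟩ := dr_Zp_inv (K := FractionRing A) a1
    refine subset_span ⟨N, ?_⟩
    have h1 := SetLike.mul_mem_graded ha a3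
    rw [hd, a4] at h1
    have h2 := smul_mem _ u (drV_mem (p := p) (algebraMap A (FractionRing A)) h1)
    have hm : (m : FractionRing A) ≠ 0 := Int.cast_ne_zero.2 fun k => a1 (k ▸ dvd_zero _)
    have h3 := congrArg (algebraMap A (FractionRing A)) a5
    simp only [map_mul, map_pow, map_prod, map_intCast] at h3
    have hb0 := hne b hT
    convert h2 using 1
    rw [Algebra.smul_def u, hu, smul_eq_mul, map_mul]
    field_simp
    linear_combination -algebraMap A (FractionRing A) a * h3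

theorem dr_finMod [CharZero A] {r e : ℕ} {F : Fin r → A} (he : 0 < e) (hF : ∀ a, F a ∈ 𝒜 e)
    (h0 : ∀ a, F a ≠ 0) (hc : ∀ y : Vp 𝒜 p, ∃ a, F a ∉ pr y.1) (q n : ℕ) :
    FinMod ((Coch (fun σ : Finset (Fin r) => forms (Zp p)
        (frac 𝒜 (denp p F (σ : Set (Fin r))) : Set (FractionRing A)) q) n).map (dC (Zp p) _))
      (Coch (fun σ : Finset (Fin r) => forms (Zp p)
        (frac 𝒜 (denp p F (σ : Set (Fin r))) : Set (FractionRing A)) q) (n + 1) ⊓
          LinearMap.ker (dC (Zp p) _)) := by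
  have hV : (drV 𝒜 p (algebraMap A (FractionRing A))).FG := by
    obtain ⟨s, hs, hf⟩ := (AddSubgroup.fg_iff _).1 (piece_fg (𝒜 := 𝒜) 1)
    refine fg_def.2 ⟨_, hf.image (algebraMap A (FractionRing A)), le_antisymm
      (span_mono (Set.image_mono (hs ▸ AddSubgroup.subset_closure))) (span_le.2 ?_)⟩
    rintro _ ⟨a, ha, rfl⟩
    rw [← hs] at ha
    induction ha using AddSubgroup.closure_induction with
    | mem x hx => exact subset_span ⟨x, hx, rfl⟩
    | zero => rw [map_zero]; exact zero_mem _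
    | add x y _ _ hx hy => rw [map_add]; exact add_mem hx hy
    | neg x _ hx => rw [map_neg]; exact neg_mem hx
  have := forms_finMod hV (y := fun a => algebraMap A (FractionRing A) (F a)) he
    (fun a => ⟨drV_mem _ (hF a), fun k => h0 a ((FaithfulSMul.algebraMap_eq_zero_iff _ _).1 k)⟩)
    ?_ dr_hO q n
  · simpa only [dr_chR hF h0] using this
  obtain ⟨m, hm, h⟩ := nakayama_cover (p := p) hF (I := ⊥) (Ideal.IsHomogeneous.bot 𝒜)
    fun y _ => hc y
  filter_upwards [h] with n hn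
  rw [drV_pow _ (n + e), drW, span_le]
  rintro _ ⟨a, ha, rfl⟩
  obtain ⟨c, hc, e1⟩ := hn a ha
  obtain ⟨u, hu⟩ := dr_Zp_inv (K := FractionRing A) hm
  have hm0 : (m : FractionRing A) ≠ 0 := Int.cast_ne_zero.2 fun k => hm (k ▸ dvd_zero _)
  have e2 := congrArg (algebraMap A (FractionRing A)) (sub_eq_zero.1 (Ideal.mem_bot.1 e1))
  simp only [map_mul, map_sum, map_intCast] at e2
  have e3 : algebraMap A (FractionRing A) a = u • ∑ i, algebraMap A (FractionRing A) (F i) *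
      algebraMap A (FractionRing A) (c i) := by
    rw [Algebra.smul_def, hu, ← e2, inv_mul_cancel_left₀ hm0]
  rw [e3]
  exact smul_mem _ _ (sum_mem fun i _ =>
    mul_mem_mul (subset_span ⟨i, rfl⟩) (drV_mem _ (hc i)))

end Zp

theorem exists_cocycle [CharZero A] {r e : ℕ} {G : Fin r → Fin r → A} (h : GMat 𝒜 p e G)
    {i j : Fin r} (_hij : i < j) (k : ℕ) :
    ∃ (Z : Cocycle 𝒜 fun α => G α α) (g' ζ : FractionRing A) (l : Fm (FractionRing A) 1),
      g' ∈ frac 𝒜 (denp p (fun α => G α α) {i, j}) ∧ ζ ∈ frac 𝒜 (denp p (fun α => G α α) {i, j}) ∧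
      l.On (frac 𝒜 (denp p (fun α => G α α) {i, j})) ∧
      g' * (algebraMap A _ (G i j) / algebraMap A _ (G j j)) = 1 - (p : FractionRing A) ^ k * ζ ∧
      Z.η i j = (g', ![algebraMap A _ (G i j) / algebraMap A _ (G j j)]) ::
        l.map fun x => ((p : FractionRing A) ^ k * x.1, x.2) := by
  have : CharZero (FractionRing A) :=
    charZero_of_injective_algebraMap (FaithfulSMul.algebraMap_injective A _)
  have hp0 : p ≠ 0 := (Fact.out : p.Prime).ne_zero
  have hne : ∀ a, algebraMap A (FractionRing A) (G a a) ≠ 0 := fun a k =>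
    h.ne a ((FaithfulSMul.algebraMap_eq_zero_iff _ _).1 k)
  have hd : ∀ {σ : Finset (Fin r)} {a : Fin r}, a ∈ σ →
      G a a ∈ denp p (fun α => G α α) (σ : Set (Fin r)) := fun {σ a} ha =>
    Submonoid.subset_closure (Or.inl ⟨a, ha, rfl⟩)
  obtain ⟨ω, l, f, g', ζ, η, e1, e2, e3, e4, e5, e6, e7, e8⟩ := dr_abs (O := Zp p)
    (fun σ : Finset (Fin r) => frac 𝒜 (denp p (fun α => G α α) (σ : Set (Fin r))))
    (fun σ τ k => dr_frac_mono (Submonoid.closure_mono
      (Set.union_subset_union_left _ (Set.image_mono (Finset.coe_subset.2 k)))))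
    (fun σ c => dr_alg_mem _ _ c) dr_hO (dr_finMod h.pos (fun a => h.deg a a) h.ne h.cov)
    (p := p) (Nat.cast_ne_zero.2 hp0)
    (fun a b => algebraMap A (FractionRing A) (G a b) / algebraMap A (FractionRing A) (G b b))
    (fun a b => dr_div_mem (h.deg a b) (h.deg b b) (hd (by simp)))
    (fun a b => by
      obtain ⟨z, hz, e⟩ := h.rel a b b a
      refine ⟨_, dr_div_mem (neg_mem hz) (SetLike.mul_mem_graded (h.deg a a) (h.deg b b))
        (mul_mem (hd (by simp)) (hd (by simp))), ?_⟩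
      have := congrArg (algebraMap A (FractionRing A)) e
      simp only [map_mul, map_sub, map_natCast, map_neg] at this ⊢
      have := hne a
      have := hne b
      field_simp
      linear_combination ‹_ - _ = _›)
    (fun a b c => by
      obtain ⟨z, hz, e⟩ := h.rel a b b c
      refine ⟨_, dr_div_mem hz (SetLike.mul_mem_graded (h.deg b b) (h.deg c c))
        (mul_mem (hd (by simp)) (hd (by simp))), ?_⟩
      have := congrArg (algebraMap A (FractionRing A)) e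
      simp only [map_mul, map_sub, map_natCast] at this ⊢
      have := hne b
      have := hne c
      field_simp
      linear_combination ‹_ - _ = _›) k
  have hle : ∀ (σ : Finset (Fin r)) (s : Set (Fin r)), (σ : Set (Fin r)) = s →
      frac 𝒜 (denp p (fun α => G α α) (σ : Set (Fin r))) ≤ reg 𝒜 (fun α => G α α) s := by
    rintro σ _ rfl
    refine dr_frac_mono (Submonoid.closure_mono (Set.union_subset_union_right _ ?_))
    rintro _ ⟨m, hm, rfl⟩
    exact ⟨m, fun k => hm (k ▸ dvd_zero _), rfl⟩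
  have on : ∀ {q : ℕ} {w : Fm (FractionRing A) q} {R R' : Subring (FractionRing A)}, w.On R →
      R ≤ R' → w.On R' := fun a b x hx => ⟨b (a x hx).1, fun j => b ((a x hx).2 j)⟩
  refine ⟨⟨fun a => ⟨h.ne a, e, h.pos, h.deg a a⟩, fun x hx => ?_, ω, η, f,
    fun a => on (e2 a) (hle _ _ (by simp)), fun a b => on ?_ (hle {a, b} _ (by simp)),
    fun a b c => on (e4 a b c) (hle _ _ (by simp)), e5, e6, e7, e8⟩, g' i j, ζ i j, l i j,
    ?_, ?_, ?_, (e3 i j).2.2.2, e1 i j⟩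
  · obtain ⟨m, hm, h'⟩ := nakayama_cover (p := p) (fun a => h.deg a a) (I := ⊥)
      (Ideal.IsHomogeneous.bot 𝒜) fun y _ => h.cov y
    obtain ⟨n, hn⟩ := h'.exists
    have hl := SetLike.pow_mem_graded (n + e) (ell_spec x).1
    rw [smul_eq_mul, mul_one] at hl
    obtain ⟨c, -, e9⟩ := hn _ hl
    by_contra t
    have t' : ∀ a, G a a ∈ pr x := fun a => by by_contra s; exact t ⟨a, s⟩
    have m1 : (m : A) * ell x ^ (n + e) ∈ pr x := by
      rw [sub_eq_zero.1 (Ideal.mem_bot.1 e9)]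
      exact sum_mem fun a _ => Ideal.mul_mem_right _ _ (t' a)
    have m2 : (m : A) ∈ pr x := (x.isPrime.mem_or_mem m1).resolve_right fun s =>
      (ell_spec x).2 (x.isPrime.mem_of_pow_mem _ s)
    refine not_charZero_of_mem x (p := m.natAbs)
      (Int.natAbs_ne_zero.2 fun k => hm (k ▸ dvd_zero _)) ?_ hx
    rcases Int.natAbs_eq m with s | s
    · rw [s, Int.cast_natCast] at m2; exact m2
    · rw [s, Int.cast_neg, Int.cast_natCast] at m2; exact neg_mem_iff.1 m2
  · rw [e1]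
    intro x hx
    rcases List.mem_cons.1 hx with rfl | hx
    · exact ⟨(e3 a b).2.1, fun t => by
        fin_cases t; exact dr_div_mem (h.deg a b) (h.deg b b) (hd (by simp))⟩
    · obtain ⟨y, hy, rfl⟩ := List.mem_map.1 hx
      exact ⟨mul_mem (pow_mem (natCast_mem _ _) _) ((e3 a b).1 y hy).1, ((e3 a b).1 y hy).2⟩
  · simpa only [Finset.coe_pair] using (e3 i j).2.1
  · simpa only [Finset.coe_pair] using (e3 i j).2.2.1
  · simpa only [Finset.coe_pair] using (e3 i j).1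

end

end Pool.Agent.Lib.MP_62d77c_ag
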