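import Mathlib

/-! Projective models over the integers, cycles, the intersection pairing with fibral cycles,
and de Rham cohomological triviality of one-cycles. -/

set_option autoImplicit false

namespace Pool.Agent.Lib.MP_62d77c_ag

open IsLocalRing
open scoped Matrix

noncomputable section

/-! ### differential forms of a field -/

/-- a formal `k`-form `∑ a db₁ ∧ … ∧ db_k` -/
abbrev Fm (L : Type) (k : ℕ) : Type := List (L × (Fin k → L))

section forms
variable {L : Type} [Field L] {k : ℕ}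

/-- value of a form on `k` derivations -/
def Fm.ev (w : Fm L k) (D : Fin k → Derivation ℤ L L) : L :=
  (w.map fun x => x.1 * (Matrix.of fun i j => D i (x.2 j)).det).sum

/-- exterior derivative -/
def Fm.d (w : Fm L k) : Fm L (k + 1) := w.map fun x => (1, Fin.cons x.1 x.2)

/-- all entries lie in `R` -/
def Fm.On (w : Fm L k) (R : Subring L) : Prop := ∀ x ∈ w, x.1 ∈ R ∧ ∀ j, x.2 j ∈ R

/-- `ρ` is the residue of `w` at the place `P`: `w = dg + u dπ / π + ζ` with `π` a uniformizer,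
`u ∈ P`, `ζ` regular at `P`, and `ρ` is the trace of `u(P)` to the rationals -/
def IsRes (P : ValuationSubring L) (w : Fm L 1) (ρ : ℚ) : Prop :=
  ∃ (_ : CharZero (ResidueField P)) (g : L) (u π : P) (ζ : Fm L 1),
    maximalIdeal P = Ideal.span {π} ∧ ζ.On P.toSubring ∧
    (∀ D, w.ev D = D 0 g + u / π * D 0 π + ζ.ev D) ∧
    ρ = Algebra.trace ℚ (ResidueField P) (residue P u)

end forms

/-! ### `Proj` of a graded domain -/

variable {A : Type} [CommRing A] [IsDomain A] (𝒜 : ℕ → AddSubgroup A) [GradedRing 𝒜]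

/-- fractions `a / b` of degree zero with `b ∈ T` -/
def frac (T : Submonoid A) : Subring (FractionRing A) :=
  Subring.closure {y | ∃ n, ∃ a ∈ 𝒜 n, ∃ b ∈ 𝒜 n, b ∈ T ∧
    y = algebraMap A (FractionRing A) a / algebraMap A (FractionRing A) b}

variable {𝒜}

/-- the prime ideal of a point -/
abbrev pr (x : ProjectiveSpectrum 𝒜) : Ideal A := x.asHomogeneousIdeal.toIdeal

/-- the local ring of `Proj` at `x` -/
def loc (x : ProjectiveSpectrum 𝒜) : Subring (FractionRing A) := frac 𝒜 (pr x).primeCompl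

theorem mem_frac {T : Submonoid A} (hT : (0 : A) ∉ T) {y : FractionRing A} :
    y ∈ frac 𝒜 T ↔ ∃ n, ∃ a ∈ 𝒜 n, ∃ b ∈ 𝒜 n, b ∈ T ∧
      y = algebraMap A (FractionRing A) a / algebraMap A (FractionRing A) b := by
  have hne : ∀ b ∈ T, algebraMap A (FractionRing A) b ≠ 0 := fun b hb h =>
    hT (((FaithfulSMul.algebraMap_eq_zero_iff _ _).1 h) ▸ hb)
  refine ⟨fun h => ?_, fun h => Subring.subset_closure h⟩
  induction h using Subring.closure_induction with
  | mem y h => exact h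
  | zero => exact ⟨0, 0, zero_mem _, 1, SetLike.one_mem_graded 𝒜, one_mem _, by simp⟩
  | one => exact ⟨0, 1, SetLike.one_mem_graded 𝒜, 1, SetLike.one_mem_graded 𝒜, one_mem _, by simp⟩
  | add y z _ _ hy hz =>
    obtain ⟨n, a, ha, b, hb, hT1, rfl⟩ := hy
    obtain ⟨m, c, hc, e, he, hT2, rfl⟩ := hz
    refine ⟨n + m, a * e + b * c,
      add_mem (SetLike.mul_mem_graded ha he) (SetLike.mul_mem_graded hb hc), b * e,
      SetLike.mul_mem_graded hb he, mul_mem hT1 hT2, ?_⟩
    rw [div_add_div _ _ (hne b hT1) (hne e hT2)]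
    simp
  | neg y _ hy =>
    obtain ⟨n, a, ha, b, hb, hT1, rfl⟩ := hy
    exact ⟨n, -a, neg_mem ha, b, hb, hT1, by simp [neg_div]⟩
  | mul y z _ _ hy hz =>
    obtain ⟨n, a, ha, b, hb, hT1, rfl⟩ := hy
    obtain ⟨m, c, hc, e, he, hT2, rfl⟩ := hz
    exact ⟨n + m, a * c, SetLike.mul_mem_graded ha hc, b * e, SetLike.mul_mem_graded hb he,
      mul_mem hT1 hT2, by simp [div_mul_div_comm]⟩

theorem mem_loc {x : ProjectiveSpectrum 𝒜} {y : FractionRing A} :
    y ∈ loc x ↔ ∃ n, ∃ a ∈ 𝒜 n, ∃ b ∈ 𝒜 n, b ∉ pr x ∧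
      y = algebraMap A (FractionRing A) a / algebraMap A (FractionRing A) b :=
  mem_frac (T := (pr x).primeCompl) (fun h => h (zero_mem _))

instance loc_isLocalRing (x : ProjectiveSpectrum 𝒜) : IsLocalRing (loc x) := by
  refine .of_isUnit_or_isUnit_one_sub_self fun y => ?_
  have key : ∀ (z : loc x) (n : ℕ) (a b : A), a ∈ 𝒜 n → b ∈ 𝒜 n → a ∉ pr x → b ∉ pr x →
      z.1 = algebraMap A (FractionRing A) a / algebraMap A (FractionRing A) b → IsUnit z := by
    intro z n a b ha hb h1 h2 e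
    have ha0 : algebraMap A (FractionRing A) a ≠ 0 := fun h =>
      h1 (((FaithfulSMul.algebraMap_eq_zero_iff _ _).1 h) ▸ zero_mem _)
    have hb0 : algebraMap A (FractionRing A) b ≠ 0 := fun h =>
      h2 (((FaithfulSMul.algebraMap_eq_zero_iff _ _).1 h) ▸ zero_mem _)
    refine IsUnit.of_mul_eq_one ⟨_, mem_loc.2 ⟨n, b, hb, a, ha, h1, rfl⟩⟩ (Subtype.ext ?_)
    simp only [Subring.coe_mul, e, Subring.coe_one]
    field_simp
  obtain ⟨n, a, ha, b, hb, h2, e⟩ := mem_loc.1 y.2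
  have hb0 : algebraMap A (FractionRing A) b ≠ 0 := fun h =>
    h2 (((FaithfulSMul.algebraMap_eq_zero_iff _ _).1 h) ▸ zero_mem _)
  by_cases h1 : a ∈ pr x
  · refine Or.inr (key _ n (b - a) b (sub_mem hb ha) hb (fun h => h2 ?_) h2 ?_)
    · simpa using add_mem h h1
    · simp only [AddSubgroupClass.coe_sub, Subring.coe_one, e, map_sub]
      field_simp
  · exact Or.inl (key _ n a b ha hb h1 h2 e)

/-- the residue field at `x`, the function field of the closure of `x` -/
abbrev kap (x : ProjectiveSpectrum 𝒜) : Type := ResidueField (loc x)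

/-- transcendence degree of the residue field over its prime field -/
def tr (x : ProjectiveSpectrum 𝒜) : Cardinal := Algebra.trdeg (⊥ : Subfield (kap x)) (kap x)

open Classical in
/-- restriction of a function regular at `x` to the closure of `x` -/
def res (x : ProjectiveSpectrum 𝒜) (y : FractionRing A) : kap x :=
  if h : y ∈ loc x then residue (loc x) ⟨y, h⟩ else 0

/-- strict normal crossings: at every point over a prime `p`, `p` is a unit times a monomial in a
regular system of parameters -/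
def SNC (𝒜 : ℕ → AddSubgroup A) [GradedRing 𝒜] : Prop :=
  ∀ (x : ProjectiveSpectrum 𝒜) (p : ℕ), p.Prime → (p : A) ∈ pr x →
    ∃ (n : ℕ) (t : Fin n → loc x) (m : Fin n → ℕ) (u : (loc x)ˣ),
      ringKrullDim (loc x) = n ∧ Ideal.span (Set.range t) = maximalIdeal (loc x) ∧
      (p : loc x) = u * ∏ i, t i ^ m i

/-! ### de Rham triviality of one-cycles on the generic fibre -/

variable (𝒜) in
/-- functions on the open subset of the generic fibre where the `F i`, `i ∈ s`, do not vanish -/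
def reg {r : ℕ} (F : Fin r → A) (s : Set (Fin r)) : Subring (FractionRing A) :=
  frac 𝒜 (Submonoid.closure (F '' s ∪ {a | ∃ m : ℤ, m ≠ 0 ∧ a = m}))

variable (𝒜) in
/-- the `D₊(F i)` are an affine cover of the generic fibre, and a Čech–de Rham 2-cocycle on it -/
structure Cocycle {r : ℕ} (F : Fin r → A) where
  hom : ∀ i, F i ≠ 0 ∧ ∃ e, 0 < e ∧ F i ∈ 𝒜 e
  cover : ∀ x : ProjectiveSpectrum 𝒜, CharZero (kap x) → ∃ i, F i ∉ pr x
  ω : Fin r → Fm (FractionRing A) 2
  η : Fin r → Fin r → Fm (FractionRing A) 1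
  f : Fin r → Fin r → Fin r → Fm (FractionRing A) 0
  onω : ∀ i, (ω i).On (reg 𝒜 F {i})
  onη : ∀ i j, (η i j).On (reg 𝒜 F {i, j})
  onf : ∀ i j k, (f i j k).On (reg 𝒜 F {i, j, k})
  c3 : ∀ i D, (ω i).d.ev D = 0
  c2 : ∀ i j, i < j → ∀ D, (ω j).ev D - (ω i).ev D = (η i j).d.ev D
  c1 : ∀ i j k, i < j → j < k → ∀ D,
    (η j k).ev D - (η i k).ev D + (η i j).ev D = (f i j k).d.ev D
  c0 : ∀ i j k l, i < j → j < k → k < l → ∀ D,
    (f j k l).ev D - (f i k l).ev D + (f i j l).ev D - (f i j k).ev D = 0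

/-- `i` is the first chart meeting the curve with generic point `x`, `j` is the first chart
containing the place `P` of the curve, and `i < j` -/
def Jump {r : ℕ} (F : Fin r → A) (x : ProjectiveSpectrum 𝒜) (P : ValuationSubring (kap x))
    (i j : Fin r) : Prop :=
  i < j ∧ IsLeast {i | F i ∉ pr x} i ∧
    IsLeast {j | F j ∉ pr x ∧ ∀ y ∈ reg 𝒜 F {j}, res x y ∈ P} j

/-- `t` is the trace of the class of `Z` on the curve with generic point `x` -/
def IsTrace {r : ℕ} {F : Fin r → A} (Z : Cocycle 𝒜 F) (x : ProjectiveSpectrum 𝒜) (t : ℚ) : Prop :=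
  ∃ ρ : ValuationSubring (kap x) → ℚ, t = ∑ᶠ P, ρ P ∧
    (∀ P, ρ P ≠ 0 → ∃ i j, Jump F x P i j) ∧
    ∀ P i j, Jump F x P i j →
      IsRes P ((Z.η i j).map fun w => (res x w.1, fun a => res x (w.2 a))) (ρ P)

/-- the one-cycle `c` pairs to zero with the second de Rham cohomology of the generic fibre -/
def CohTriv (c : ProjectiveSpectrum 𝒜 →₀ ℚ) : Prop :=
  ∀ (r : ℕ) (F : Fin r → A) (Z : Cocycle 𝒜 F) (t : ProjectiveSpectrum 𝒜 → ℚ),
    (∀ x ∈ c.support, IsTrace Z x (t x)) → (c.sum fun x n => n * t x) = 0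

/-! ### the intersection pairing with fibral cycles -/

variable (𝒜) in
/-- the degree `n` part of `⊕ A(-a i)` -/
def piece {β : Type} (a : β → ℕ) (n : ℕ) : AddSubgroup (β → A) :=
  ⨅ i, (if a i ≤ n then 𝒜 (n - a i) else ⊥).comap (Pi.evalAddMonoidHom (fun _ => A) i)

variable (𝒜) in
/-- a graded free resolution `… → F 1 → F 0 → A → A ⧸ I` -/
structure Resol (I : Ideal A) where
  b : ℕ → ℕ
  a : ∀ q, Fin (b q) → ℕ
  ε : (Fin (b 0) → A) →ₗ[A] A
  D : ∀ q, (Fin (b (q + 1)) → A) →ₗ[A] (Fin (b q) → A)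
  homε : ∀ n, ∀ v ∈ piece 𝒜 (a 0) n, ε v ∈ 𝒜 n
  homD : ∀ q n, ∀ v ∈ piece 𝒜 (a (q + 1)) n, D q v ∈ piece 𝒜 (a q) n
  range : LinearMap.range ε = I
  exact0 : Function.Exact (D 0) ε
  exact : ∀ q, Function.Exact (D (q + 1)) (D q)

/-- cycles of the resolution tensored with `A ⧸ J` -/
def Resol.cyc {I : Ideal A} (R : Resol 𝒜 I) (J : Ideal A) :
    ∀ q, Submodule A (Fin (R.b q) → A)
  | 0 => Submodule.comap R.ε J
  | q + 1 => (J • ⊤ : Submodule A (Fin (R.b q) → A)).comap (R.D q)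

/-- the order of the degree `n` part of `Tor_q(A ⧸ I, A ⧸ J)` -/
def Resol.tor {I : Ideal A} (R : Resol 𝒜 I) (J : Ideal A) (n : ℕ) : ℕ → ℕ
  | 0 => (I ⊔ J).toAddSubgroup.relIndex (𝒜 n)
  | q + 1 => (LinearMap.range (R.D q) ⊔ J • ⊤).toAddSubgroup.relIndex
      ((R.cyc J q).toAddSubgroup ⊓ piece 𝒜 (R.a q) n)

/-- `v` is the intersection number of the closures of `x` and `z` on a model of dimension
`d + 1`: the Euler characteristic of the Tor sheaves -/
def IsInt (d : ℕ) (x z : ProjectiveSpectrum 𝒜) (v : ℝ) : Prop :=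
  Nonempty (Resol 𝒜 (pr x)) ∧ ∀ R : Resol 𝒜 (pr x), ∀ᶠ n in Filter.atTop,
    ∑ q ∈ Finset.range (d + 2), (-1) ^ q * Real.log (R.tor (pr z) n q) = v

/-- the cycle `c` is orthogonal to the closure of `z` -/
def Orth (d : ℕ) (c : ProjectiveSpectrum 𝒜 →₀ ℚ) (z : ProjectiveSpectrum 𝒜) : Prop :=
  ∃ v : ProjectiveSpectrum 𝒜 → ℝ, (∀ x ∈ c.support, IsInt d x z (v x)) ∧
    (c.sum fun x n => n * v x) = 0

end

end Pool.Agent.Lib.MP_62d77c_ag
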