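import Pool.Agent.Lib.MP_62d77c_ag.Base

/-! Derivations of function fields; orders of logarithmic forms. -/

set_option autoImplicit false

namespace Pool.Agent.Lib.MP_62d77c_ag

open Filter Polynomial Submodule

noncomputable section

theorem der_basis (k K : Type) [Field k] [PerfectField k] [Field K] [Algebra k K]
    [Algebra.EssFiniteType k K] :
    ∃ (r : ℕ) (y : Fin r → K), (r : Cardinal) = Algebra.trdeg k K ∧
      ∃ b : Module.Basis (Fin r) K Ω[K⁄k], ∀ i, b i = KaehlerDifferential.D k K (y i) := by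
  obtain ⟨s, hs, H⟩ := exists_isTranscendenceBasis_and_isSeparable_of_perfectField k K
  let y : Fin s.card → K := fun i => (s.equivFin.symm i : K)
  have hy : IsTranscendenceBasis k y := hs.comp_equiv s.equivFin.symm
  have hr : Set.range y = (s : Set K) := by
    ext a
    exact ⟨fun ⟨i, h⟩ => h ▸ (s.equivFin.symm i).2, fun h => ⟨s.equivFin ⟨a, h⟩, by simp [y]⟩⟩
  let F := IntermediateField.adjoin k (Set.range y)
  have : Algebra.IsSeparable F K := by
    change Algebra.IsSeparable (IntermediateField.adjoin k (Set.range y)) K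
    rw [hr]; exact H
  let P := MvPolynomial (Fin s.card) k
  let : Algebra P F :=
    ((hy.1.aevalEquivField : FractionRing P →+* F).comp (algebraMap P (FractionRing P))).toAlgebra
  let : Algebra P K := ((algebraMap F K).comp (algebraMap P F)).toAlgebra
  have : IsScalarTower P F K := .of_algebraMap_eq fun _ => rfl
  have hP : ∀ a : P, algebraMap P K a = MvPolynomial.aeval y a := fun a =>
    hy.1.aevalEquivField_algebraMap_apply_coe a
  have : IsScalarTower k P K := .of_algebraMap_eq fun c => by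
    rw [hP]; exact ((MvPolynomial.aeval y).commutes c).symm
  have : IsFractionRing P F := IsLocalization.isLocalization_of_algEquiv (nonZeroDivisors P)
    (AlgEquiv.ofRingEquiv (f := hy.1.aevalEquivField.toRingEquiv) fun _ => rfl)
  have : Algebra.FormallyEtale P F := .of_isLocalization (nonZeroDivisors P)
  have : Algebra.FormallyEtale F K := .of_isSeparable F K
  have : Algebra.FormallyEtale P K := .comp P F K
  refine ⟨s.card, y, by simpa using hy.lift_cardinalMk_eq_trdeg,
    ((KaehlerDifferential.mvPolynomialBasis k (Fin s.card)).baseChange K).map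
      (KaehlerDifferential.tensorKaehlerEquivOfFormallyEtale k P K), fun i => ?_⟩
  rw [Module.Basis.map_apply, Module.Basis.baseChange_apply, KaehlerDifferential.mvPolynomialBasis_apply,
    ← KaehlerDifferential.tensorKaehlerEquivOfFormallyEtale_symm_D_algebraMap k P K,
    LinearEquiv.apply_symm_apply, hP, MvPolynomial.aeval_X]

theorem derB_iter {K : Type} [CommRing K] (D : Derivation ℤ K K) (n : ℕ) (a b : K) :
    D^[n] (a * b) = ∑ ij ∈ Finset.HasAntidiagonal.antidiagonal n, n.choose ij.1 • (D^[ij.1] a * D^[ij.2] b) := by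
  induction n with
  | zero => simp
  | succ n ih =>
    rw [Finset.sum_antidiagonal_choose_succ_nsmul (M := K) (fun i j => D^[i] a * D^[j] b) n,
      Function.iterate_succ_apply', ih, map_sum, ← Finset.sum_add_distrib]
    refine Finset.sum_congr rfl fun ⟨i, j⟩ hij => ?_
    have e := n.choose_symm_of_eq_add (Finset.HasAntidiagonal.mem_antidiagonal.1 hij).symm
    rw [map_nsmul, D.leibniz]
    simp only [Function.iterate_succ_apply', smul_eq_mul, smul_add, ← e]
    rw [mul_comm (D^[j] b)]

theorem derB_pow (p : ℕ) [hp : Fact p.Prime] {K : Type} [CommRing K] [CharP K p]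
    (D : Derivation ℤ K K) : ∃ E : Derivation ℤ K K, ∀ a, E a = D^[p] a := by
  refine ⟨Derivation.mk' ((D : K →ₗ[ℤ] K) ^ p) fun a b => ?_, fun a => Module.End.pow_apply _ _ _⟩
  simp only [Module.End.pow_apply, Derivation.coeFn_coe]
  rw [derB_iter, Finset.Nat.sum_antidiagonal_eq_sum_range_succ_mk,
    Finset.sum_eq_add_of_mem 0 p (by simp) (by simp) hp.out.ne_zero.symm]
  · simp [mul_comm]
  · intro c hc h
    obtain ⟨m, hm⟩ := hp.out.dvd_choose_self h.1 (lt_of_le_of_ne (by simpa [Nat.lt_succ_iff] using hc) h.2)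
    simp [hm]

/-- the dual derivations, over the prime field -/
theorem der_dual (p : ℕ) [Fact p.Prime] (K : Type) [Field K] [Algebra (ZMod p) K]
    [Algebra.EssFiniteType (ZMod p) K] :
    ∃ (r : ℕ) (y : Fin r → K) (δ : Fin r → Derivation ℤ K K),
      (r : Cardinal) = Algebra.trdeg (ZMod p) K ∧ (∀ i j, δ i (y j) = if i = j then 1 else 0) ∧
      (∀ (D : Derivation ℤ K K) (a : K), D a = ∑ i, D (y i) * δ i a) ∧
      (∀ i j a, δ i (δ j a) = δ j (δ i a)) ∧ ∀ i a, (δ i)^[p] a = 0 := by
  obtain ⟨r, y, hr, b, hb⟩ := der_basis (ZMod p) K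
  have : CharP K p := charP_of_injective_algebraMap (algebraMap (ZMod p) K).injective p
  let δ : Fin r → Derivation ℤ K K := fun i =>
    ((b.coord i).compDer (KaehlerDifferential.D (ZMod p) K)).restrictScalars ℤ
  have hδ : ∀ i a, δ i a = b.repr (KaehlerDifferential.D (ZMod p) K a) i := fun _ _ => rfl
  have h1 : ∀ i j, δ i (y j) = if i = j then 1 else 0 := fun i j => by
    rw [hδ, ← hb, b.repr_self, Finsupp.single_apply]
    simp only [eq_comm]
  have h2 : ∀ (D : Derivation ℤ K K) (a : K), D a = ∑ i, D (y i) * δ i a := fun D a => by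
    let D' : Derivation (ZMod p) K K :=
      Derivation.mk' ((D : K →ₗ[ℤ] K).toAddMonoidHom.toZModLinearMap p) D.leibniz
    have e : ∀ x, D x = D'.liftKaehlerDifferential (KaehlerDifferential.D (ZMod p) K x) := fun x =>
      (D'.liftKaehlerDifferential_comp_D x).symm
    rw [e a, ← b.sum_repr (KaehlerDifferential.D (ZMod p) K a), map_sum]
    refine Finset.sum_congr rfl fun i _ => ?_
    rw [map_smul, hb, ← e, hδ, smul_eq_mul, mul_comm]
  have h3 : ∀ D : Derivation ℤ K K, (∀ i, D (y i) = 0) → ∀ a, D a = 0 := fun D h a => by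
    rw [h2]; simp [h]
  have h4 : ∀ i j l, δ i (δ j (y l)) = 0 := fun i j l => by
    rw [h1]; split_ifs <;> simp
  refine ⟨r, y, δ, hr, h1, h2, fun i j a => ?_, fun i a => ?_⟩
  · have := h3 ⁅δ i, δ j⁆ (fun l => by rw [Derivation.commutator_apply, h4, h4, sub_zero]) a
    rwa [Derivation.commutator_apply, sub_eq_zero] at this
  · obtain ⟨E, hE⟩ := derB_pow p (δ i)
    rw [← hE]
    refine h3 E (fun l => ?_) a
    obtain ⟨q, hq⟩ := Nat.exists_eq_add_of_le' (Fact.out : p.Prime).two_le
    rw [hE, hq, Function.iterate_succ_apply, Function.iterate_succ_apply, h4,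
      Function.iterate_fixed (map_zero _)]

/-- if `dlog (u π ^ n)` is regular along the divisor `π = 0` then `p ∣ n` -/
theorem dvd_of_dlog_regular (p : ℕ) [Fact p.Prime] {K κ : Type} [Field K] [Algebra (ZMod p) K]
    [Algebra.EssFiniteType (ZMod p) K] [Field κ] [Algebra (ZMod p) κ]
    [Algebra.EssFiniteType (ZMod p) κ] (htr : Algebra.trdeg (ZMod p) κ < Algebra.trdeg (ZMod p) K)
    (O : Subring K) (φ : O →+* κ) (hφ : Function.Surjective φ) (π : O)
    (hker : RingHom.ker φ = Ideal.span {π}) (hπ : π ≠ 0)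
    (hfrac : ∀ z : K, ∃ a ∈ O, ∃ b ∈ O, z = a / b)
    (hfg : (span O {ψ : Derivation ℤ K K → K | ∃ b ∈ O, ψ = fun δ => δ b}).FG)
    (hloc : ∀ a : O, φ a ≠ 0 → IsUnit a) (u : Oˣ) (n : ℤ)
    (h : (fun δ : Derivation ℤ K K => δ (((u : O) : K) * (π : K) ^ n) / (((u : O) : K) * (π : K) ^ n)) ∈
      span O {ψ : Derivation ℤ K K → K | ∃ b ∈ O, ψ = fun δ => δ b}) : (p : ℤ) ∣ n := by
  by_contra hn
  have : CharP K p := charP_of_injective_algebraMap (algebraMap (ZMod p) K).injective p
  obtain ⟨r, y, δ, hr, h1, -⟩ := der_dual p K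
  obtain ⟨r', z, ε, hr', -, h2, -⟩ := der_dual p κ
  set M := span O {ψ : Derivation ℤ K K → K | ∃ b ∈ O, ψ = fun δ => δ b} with hM
  let d : O → M := fun b => ⟨fun δ => δ b, subset_span ⟨b, b.2, rfl⟩⟩
  have dadd : ∀ a b, d (a + b) = d a + d b := fun a b => Subtype.ext (funext fun δ => map_add δ _ _)
  have dmul : ∀ a b, d (a * b) = a • d b + b • d a := fun a b =>
    Subtype.ext (funext fun δ => δ.leibniz _ _)
  have π0 : (π : K) ≠ 0 := fun e => hπ (Subtype.ext e)
  have u0 : ((u : O) : K) ≠ 0 := fun e => u.ne_zero (Subtype.ext e)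
  have ui : (((u⁻¹ : Oˣ) : O) : K) = ((u : O) : K)⁻¹ :=
    eq_inv_of_mul_eq_one_left (by rw [← Subring.coe_mul, Units.inv_mul]; rfl)
  have n0 : (n : K) ≠ 0 := fun e => hn ((CharP.intCast_eq_zero_iff K p n).mp e)
  obtain ⟨m, hm⟩ : ∃ m : ℤ, (m : K) * n = 1 := by
    have : (n : ZMod p) ≠ 0 := fun e => hn ((ZMod.intCast_zmod_eq_zero_iff_dvd n p).mp e)
    obtain ⟨m, hm⟩ := ZMod.intCast_surjective (n : ZMod p)⁻¹
    refine ⟨m, ?_⟩
    have := congrArg (algebraMap (ZMod p) K) (inv_mul_cancel₀ this)
    rwa [← hm, map_mul, map_intCast, map_intCast, map_one] at this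
  have dπ : d π = π • (m : O) • ((⟨_, h⟩ : M) - ((u⁻¹ : Oˣ) : O) • d u) := by
    refine Subtype.ext (funext fun δ => ?_)
    change δ π = (π : K) * (((m : O) : K) * (δ (((u : O) : K) * (π : K) ^ n) /
      (((u : O) : K) * (π : K) ^ n) - (((u⁻¹ : Oˣ) : O) : K) * δ ((u : O) : K)))
    have e : (π : K) ^ n ≠ 0 := zpow_ne_zero _ π0
    rw [ui, δ.leibniz, δ.leibniz_zpow, zpow_sub_one₀ π0, SubringClass.coe_intCast]
    simp only [smul_eq_mul, zsmul_eq_mul]
    field_simp
    linear_combination (-δ π * ((u : O) : K)) * hm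
  choose t ht using hφ
  have key : span O (Set.range fun i => d (t (z i))) = ⊤ := by
    by_contra hne
    have : Module.Finite O M := Module.Finite.of_fg hfg
    obtain ⟨T, hT, hle⟩ := (eq_top_or_exists_le_coatom _).resolve_left hne
    obtain ⟨I, hI, ⟨e⟩⟩ := isSimpleModule_iff_quot_maximal.mp (isSimpleModule_iff_isCoatom.mpr hT)
    have hI' : I = RingHom.ker φ := hI.eq_of_le (RingHom.ker_ne_top φ) fun a ha =>
      by_contra fun h => hI.ne_top (I.eq_top_of_isUnit_mem ha (hloc a h))
    let ψ := Ideal.Quotient.lift I φ fun a ha => by rwa [hI'] at ha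
    have hψ : Function.Injective ψ := RingHom.lift_injective_of_ker_le_ideal I _ hI'.ge
    let l : M → κ := fun w => ψ (e (T.mkQ w))
    have ladd : ∀ v w, l (v + w) = l v + l w := fun v w => by simp [l]
    have lsm : ∀ (a : O) w, l (a • w) = φ a * l w := fun a w => by
      simp only [l, map_smul]
      obtain ⟨c, hc⟩ := Ideal.Quotient.mk_surjective (e (T.mkQ w))
      rw [← hc]
      exact map_mul φ a c
    have φπ : φ π = 0 := by
      rw [← RingHom.mem_ker, hker]; exact Ideal.mem_span_singleton_self π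
    have wd : ∀ b, l (d (t (φ b))) = l (d b) := fun b => by
      obtain ⟨c, hc⟩ := Ideal.mem_span_singleton'.mp
        (hker ▸ (show t (φ b) - b ∈ RingHom.ker φ by simp [RingHom.mem_ker, ht]))
      rw [eq_add_of_sub_eq hc.symm, dadd, dmul, ladd, ladd, lsm, lsm, dπ, lsm, φπ]
      simp
    let D : Derivation ℤ κ κ := Derivation.mk' (AddMonoidHom.mk' (fun x => l (d (t x))) fun a b => by
      rw [← ladd, ← dadd, ← wd (t a + t b), map_add, ht, ht]).toIntLinearMap fun a b => by
        change l (d (t (a * b))) = a * l (d (t b)) + b * l (d (t a))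
        conv_lhs => rw [← ht a, ← ht b, ← map_mul, wd, dmul, ladd, lsm, lsm, ht, ht]
    have lT : ∀ w, l w = 0 ↔ w ∈ T := fun w => by
      simp only [l]
      rw [map_eq_zero_iff ψ hψ, map_eq_zero_iff e e.injective, mkQ_apply, Quotient.mk_eq_zero]
    have D0 : ∀ x, l (d (t x)) = 0 := fun x => by
      change D x = 0
      rw [h2]
      refine Finset.sum_eq_zero fun i _ => ?_
      rw [show D (z i) = 0 from (lT _).mpr (hle (subset_span ⟨i, rfl⟩)), zero_mul]
    refine hT.1 (eq_top_iff.mpr fun w _ => ?_)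
    obtain ⟨w, hw⟩ := w
    induction hw using span_induction with
    | mem x hx =>
      obtain ⟨b, hb, rfl⟩ := hx
      exact (lT (d ⟨b, hb⟩)).mp ((wd _).symm.trans (D0 _))
    | zero => exact T.zero_mem
    | add x y hx hy ihx ihy => exact T.add_mem (ihx trivial) (ihy trivial)
    | smul a x hx ih => exact T.smul_mem a (ih trivial)
  let w : Fin r' → (Derivation ℤ K K → K) := fun i => d (t (z i))
  have hw : ∀ v : M, (v : Derivation ℤ K K → K) ∈ span K (Set.range w) := fun v => by
    have : v ∈ span O (Set.range fun i => d (t (z i))) := key ▸ mem_top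
    induction this using span_induction with
    | mem x hx => obtain ⟨i, rfl⟩ := hx; exact subset_span ⟨i, rfl⟩
    | zero => exact zero_mem _
    | add x y _ _ ihx ihy => exact add_mem ihx ihy
    | smul a x _ ih => exact smul_mem _ (a : K) ih
  have li : LinearIndependent K fun j (D : Derivation ℤ K K) => D (y j) := by
    rw [Fintype.linearIndependent_iff]
    intro g hg i
    simpa [h1] using congrFun hg (δ i)
  have le : r ≤ r' := by
    classical
    have := linearIndependent_le_span_aux' _ li (Set.range w) (by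
      rintro _ ⟨j, rfl⟩
      obtain ⟨a, ha, b, hb, e⟩ := hfrac (y j)
      have : (fun D : Derivation ℤ K K => D (y j)) =
          b⁻¹ ^ 2 • (b • (d ⟨a, ha⟩ : Derivation ℤ K K → K) - a • (d ⟨b, hb⟩ : Derivation ℤ K K → K)) :=
        funext fun D => by rw [e]; exact D.leibniz_div a b
      simp only [this]
      exact smul_mem _ _ (sub_mem (smul_mem _ _ (hw _)) (smul_mem _ _ (hw _))))
    have h5 := Fintype.card_range_le w
    simp only [Fintype.card_fin] at this h5
    omega
  rw [← hr, ← hr'] at htr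
  exact absurd (Nat.cast_lt.mp htr) (not_lt.mpr le)

end

end Pool.Agent.Lib.MP_62d77c_ag
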