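import Pool.Agent.Lib.MP_62d77c_ag.Base

/-! Difference calculus. -/

set_option autoImplicit false

namespace Pool.Agent.Lib.MP_62d77c_ag

open Filter Polynomial Submodule

noncomputable section

section poly

theorem levl_mem {P : ℚ[X]} {s : ℕ} : P ∈ degreeLT ℚ s ↔ ∀ n, s ≤ n → P.coeff n = 0 := by
  rw [mem_degreeLT, degree_lt_iff_coeff_zero]

theorem levl_tay {P : ℚ[X]} {t : ℕ} (h : ∀ n, t + 2 ≤ n → P.coeff n = 0) (a : ℚ) :
    (P.comp (X + C a)).coeff t = P.coeff t + (t + 1) * a * P.coeff (t + 1) := by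
  have e : hasseDeriv t P = C (P.coeff t) + C (((t : ℚ) + 1) * P.coeff (t + 1)) * X := by
    ext n
    rw [hasseDeriv_coeff, coeff_add, coeff_C_mul, coeff_C, coeff_X]
    match n with
    | 0 => simp
    | 1 => simp [add_comm 1 t]
    | n + 2 => simp [h (n + 2 + t) (by omega)]
  rw [← taylor_apply, taylor_coeff, e]
  simp only [eval_add, eval_mul, eval_C, eval_X]
  ring

theorem mem_degreeLT_succ_of_shift {P : ℚ[X]} {s : ℕ} (h : P.comp (X + 1) - P ∈ degreeLT ℚ s) :
    P ∈ degreeLT ℚ (s + 1) := by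
  rw [levl_mem] at h ⊢
  by_contra hc
  have hn : s + 1 ≤ P.natDegree := by
    by_contra k
    exact hc fun n hn => coeff_eq_zero_of_natDegree_lt (by omega)
  obtain ⟨t, ht⟩ : ∃ t, P.natDegree = t + 1 := ⟨P.natDegree - 1, by omega⟩
  have h0 : P ≠ 0 := by rintro rfl; simp at ht
  have e := levl_tay (P := P) (t := t) (fun n hn => coeff_eq_zero_of_natDegree_lt (by omega)) 1
  have e2 := h t (by omega)
  rw [coeff_sub, ← C_1, e] at e2
  have e3 : P.coeff (t + 1) ≠ 0 := by
    rw [← ht]
    exact leadingCoeff_ne_zero.mpr h0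
  have e4 : ((t : ℚ) + 1) * P.coeff (t + 1) = 0 := by linarith
  exact e3 ((mul_eq_zero.mp e4).resolve_left (by positivity))

theorem comp_sub_mem_degreeLT {P : ℚ[X]} {s : ℕ} (h : P ∈ degreeLT ℚ (s + 1)) (a : ℚ) :
    P.comp (X + C a) - P ∈ degreeLT ℚ s := by
  rw [levl_mem] at h ⊢
  intro t ht
  rw [coeff_sub, levl_tay (fun n hn => h n (by omega)) a, h (t + 1) (by omega)]
  ring

theorem comp_mem_degreeLT {P : ℚ[X]} {s : ℕ} (h : P ∈ degreeLT ℚ s) (a : ℚ) :
    P.comp (X + C a) ∈ degreeLT ℚ s := by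
  rw [levl_mem] at h ⊢
  intro t ht
  rw [levl_tay (fun n hn => h n (by omega)) a, h (t + 1) (by omega), h t ht]
  ring

theorem coeff_comp_top {P : ℚ[X]} {s : ℕ} (h : P ∈ degreeLT ℚ (s + 1)) (a : ℚ) :
    (P.comp (X + C a)).coeff s = P.coeff s := by
  rw [levl_mem] at h
  rw [levl_tay (fun n hn => h n (by omega)) a, h (s + 1) le_rfl]
  ring

theorem coeff_comp_sub {P : ℚ[X]} {s : ℕ} (h : P ∈ degreeLT ℚ (s + 2)) (a : ℚ) :
    (P.comp (X + C a) - P).coeff s = (s + 1) * a * P.coeff (s + 1) := by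
  rw [levl_mem] at h
  rw [coeff_sub, levl_tay h a]
  ring

theorem coeff_nonneg_of_eventually {P : ℚ[X]} {s : ℕ} (h : P ∈ degreeLT ℚ (s + 1))
    (h0 : ∀ᶠ n : ℕ in atTop, 0 ≤ P.eval (n : ℚ)) : 0 ≤ P.coeff s := by
  by_contra hc
  rw [not_le] at hc
  have hd : P.degree = s := by
    refine le_antisymm ?_ (le_degree_of_ne_zero hc.ne)
    exact (degree_le_iff_coeff_zero _ _).mpr fun m hm =>
      levl_mem.mp h m (by exact_mod_cast Nat.succ_le_of_lt (by exact_mod_cast hm))
  have hn : P.natDegree = s := natDegree_eq_of_degree_eq_some hd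
  rcases Nat.eq_zero_or_pos s with rfl | hs
  · obtain ⟨n, hn'⟩ := h0.exists
    rw [eq_C_of_natDegree_eq_zero hn, eval_C] at hn'
    exact absurd hn' (not_le.mpr hc)
  · have t := (P.tendsto_atBot_of_leadingCoeff_nonpos (by rw [hd]; exact_mod_cast hs)
      (by rw [leadingCoeff, hn]; exact hc.le)).comp (tendsto_natCast_atTop_atTop (R := ℚ))
    obtain ⟨n, h1, h2⟩ := (h0.and (t.eventually (eventually_lt_atBot 0))).exists
    exact absurd h1 (not_le.mpr h2)

theorem coeff_int_of_eventually {P : ℚ[X]} {s : ℕ} (h : P ∈ degreeLT ℚ (s + 1))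
    (h0 : ∀ᶠ n : ℕ in atTop, ∃ z : ℤ, P.eval (n : ℚ) = z) :
    ∃ z : ℤ, (s.factorial : ℚ) * P.coeff s = z := by
  induction s generalizing P with
  | zero =>
    obtain ⟨n, z, hz⟩ := h0.exists
    have : P = C (P.coeff 0) := eq_C_of_degree_le_zero
      ((degree_le_iff_coeff_zero _ _).mpr fun m hm =>
        levl_mem.mp h m (by exact_mod_cast Nat.succ_le_of_lt (by exact_mod_cast hm)))
    rw [this, eval_C] at hz
    exact ⟨z, by simpa using hz⟩
  | succ s ih =>
    obtain ⟨z, hz⟩ := ih (comp_sub_mem_degreeLT h 1) (by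
      filter_upwards [h0, (tendsto_add_atTop_nat 1).eventually h0] with n h1 h2
      obtain ⟨z1, h1⟩ := h1
      obtain ⟨z2, h2⟩ := h2
      refine ⟨z2 - z1, ?_⟩
      push_cast at h2 ⊢
      simp [eval_comp, h1, h2])
    rw [coeff_comp_sub h] at hz
    refine ⟨z, ?_⟩
    rw [← hz, Nat.factorial_succ]
    push_cast
    ring

theorem eq_C_of_mem_degreeLT_one {P : ℚ[X]} (h : P ∈ degreeLT ℚ 1) : P = C (P.coeff 0) := by
  ext n
  cases n with
  | zero => simp
  | succ n => rw [levl_mem.mp h (n + 1) (by omega), coeff_C_succ]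

theorem eq_zero_of_mem_degreeLT_zero {P : ℚ[X]} (h : P ∈ degreeLT ℚ 0) : P = 0 := by
  ext n
  exact levl_mem.mp h n (Nat.zero_le n)

theorem degreeLT_le {s t : ℕ} (h : s ≤ t) : degreeLT ℚ s ≤ degreeLT ℚ t := fun _ hP =>
  levl_mem.mpr fun n hn => levl_mem.mp hP n (h.trans hn)

theorem coeff_eq_zero_of_mem_degreeLT {P : ℚ[X]} {s t : ℕ} (h : P ∈ degreeLT ℚ s) (e : s ≤ t) :
    P.coeff t = 0 :=
  levl_mem.mp h t e

end poly

variable {G G' : Type} [CommGroup G] [CommGroup G'] {f g : G → ℚ[X]} {s : ℕ}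

theorem dl_comm (D D' : G) (f : G → ℚ[X]) : dl D (dl D' f) = dl D' (dl D f) := by
  funext E
  simp only [dl, mul_right_comm E D D']
  ring

theorem levl_dl (l : List G) (D : G) (f : G → ℚ[X]) :
    l.foldr dl (dl D f) = dl D (l.foldr dl f) := by
  induction l with
  | nil => rfl
  | cons a l ih => rw [List.foldr_cons, ih, dl_comm, List.foldr_cons]

theorem levl_zero (l : List G) : l.foldr dl (0 : G → ℚ[X]) = 0 := by
  induction l with
  | nil => rfl
  | cons a l ih =>
    funext E
    simp [ih, dl]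

theorem levl_add (l : List G) (f g : G → ℚ[X]) (E : G) :
    l.foldr dl (fun E => f E + g E) E = l.foldr dl f E + l.foldr dl g E := by
  induction l generalizing E with
  | nil => rfl
  | cons a l ih =>
    simp only [List.foldr_cons, dl, ih]
    ring

theorem levl_sub (l : List G) (f g : G → ℚ[X]) (E : G) :
    l.foldr dl (fun E => f E - g E) E = l.foldr dl f E - l.foldr dl g E := by
  induction l generalizing E with
  | nil => rfl
  | cons a l ih =>
    simp only [List.foldr_cons, dl, ih]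
    ring

theorem levl_shift (l : List G) (f : G → ℚ[X]) (Q : ℚ[X]) (E : G) :
    l.foldr dl (fun E => (f E).comp Q) E = (l.foldr dl f E).comp Q := by
  induction l generalizing E with
  | nil => rfl
  | cons a l ih => simp only [List.foldr_cons, dl, ih, sub_comp]

theorem levl_tr (l : List G) (f : G → ℚ[X]) (D E : G) :
    l.foldr dl (fun E => f (E * D)) E = l.foldr dl f (E * D) := by
  induction l generalizing E with
  | nil => rfl
  | cons a l ih => simp only [List.foldr_cons, dl, ih, mul_right_comm E a D]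

theorem levl_comp (l : List G) (f' : G' → ℚ[X]) (ρ : G →* G') (E : G) :
    l.foldr dl (fun E => f' (ρ E)) E = (l.map ρ).foldr dl f' (ρ E) := by
  induction l generalizing E with
  | nil => rfl
  | cons a l ih => simp only [List.foldr_cons, List.map_cons, dl, ih, map_mul]

theorem dl_mul (D D' : G) (f : G → ℚ[X]) : dl (D * D') f = dl D f + dl D' f + dl D (dl D' f) := by
  funext E
  simp only [dl, Pi.add_apply, mul_assoc]
  ring

theorem Lev.mem (h : Lev s f) (E : G) : f E ∈ degreeLT ℚ s :=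
  h [] E

theorem Lev.dl (h : Lev (s + 1) f) (D : G) : Lev s (dl D f) := fun l E => by
  have := h (D :: l) E
  rw [levl_dl]
  simpa using this

theorem lev_zero_iff : Lev 0 f ↔ f = 0 := by
  refine ⟨fun h => funext fun E => eq_zero_of_mem_degreeLT_zero (h.mem E), ?_⟩
  rintro rfl l E
  rw [levl_zero]
  exact zero_mem _

theorem lev_succ (h : ∀ E, f E ∈ degreeLT ℚ (s + 1)) (h' : ∀ D, Lev s (dl D f)) : Lev (s + 1) f := fun l E => by
  cases l with
  | nil => exact h E
  | cons D l =>
    have := h' D l E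
    rw [levl_dl] at this
    simpa using this

/-- it suffices to test differences along a generating set -/
theorem lev_succ_of_gen (T : Set G) (hT : ∀ D, ∃ a ∈ T, ∃ b ∈ T, D * b = a)
    (h : ∀ E, f E ∈ degreeLT ℚ (s + 1)) (h' : ∀ D ∈ T, Lev s (dl D f)) : Lev (s + 1) f := by
  refine lev_succ h fun D => ?_
  obtain ⟨a, ha, b, hb, rfl⟩ := hT D
  have e : dl D f = fun E => (fun E => dl (D * b) f (E * b⁻¹)) E - (fun E => dl b f (E * b⁻¹)) E := by
    funext E
    have e1 : E * b⁻¹ * (D * b) = E * D := by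
      rw [mul_comm D b, mul_assoc, inv_mul_cancel_left]
    simp only [dl, e1, inv_mul_cancel_right]
    ring
  intro l E
  rw [e, levl_sub, levl_tr, levl_tr]
  exact sub_mem (h' _ ha l _) (h' _ hb l _)

theorem Lev.mono (h : Lev s f) {t : ℕ} (e : s ≤ t) : Lev t f := fun l E =>
  degreeLT_le (Nat.sub_le_sub_right e _) (h l E)

theorem lev_zero_fun : Lev s (fun _ : G => (0 : ℚ[X])) :=
  (lev_zero_iff.mpr rfl).mono (Nat.zero_le s)

theorem Lev.add (h : Lev s f) (h' : Lev s g) : Lev s (fun E => f E + g E) := fun l E => by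
  rw [levl_add]
  exact add_mem (h l E) (h' l E)

theorem Lev.neg (h : Lev s f) : Lev s (fun E => -f E) := fun l E => by
  have := levl_sub l (0 : G → ℚ[X]) f E
  simp only [Pi.zero_apply, zero_sub, levl_zero] at this
  rw [this]
  exact neg_mem (h l E)

theorem Lev.sub (h : Lev s f) (h' : Lev s g) : Lev s (fun E => f E - g E) := fun l E => by
  rw [levl_sub]
  exact sub_mem (h l E) (h' l E)

theorem Lev.list_sum {α : Type} (l : List α) (F : α → G → ℚ[X]) (h : ∀ a ∈ l, Lev s (F a)) :
    Lev s (fun E => (l.map fun a => F a E).sum) := by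
  induction l with
  | nil => exact lev_zero_fun
  | cons a l ih =>
    simp only [List.map_cons, List.sum_cons]
    exact (h a (by simp)).add (ih fun b hb => h b (by simp [hb]))

theorem Lev.sum {α : Type} (t : Finset α) (F : α → G → ℚ[X]) (h : ∀ a ∈ t, Lev s (F a)) :
    Lev s (fun E => ∑ a ∈ t, F a E) := by
  have := Lev.list_sum t.toList F fun a ha => h a (Finset.mem_toList.mp ha)
  simpa only [Finset.sum_map_toList] using this

theorem Lev.shift (h : Lev s f) (a : ℚ) : Lev s (fun E => (f E).comp (X - C a)) := fun l E => by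
  rw [levl_shift, sub_eq_add_neg, ← C_neg]
  exact comp_mem_degreeLT (h l E) _

theorem Lev.translate (h : Lev s f) (D : G) : Lev s (fun E => f (E * D)) := fun l E => by
  rw [levl_tr]
  exact h l _

theorem Lev.comp {f' : G' → ℚ[X]} (h : Lev s f') (ρ : G →* G') : Lev s (fun E => f' (ρ E)) := fun l E => by
  rw [levl_comp]
  simpa using h (l.map ρ) (ρ E)

theorem lin_one (s : ℕ) (f : G → ℚ[X]) : lin s f 1 = 0 := by simp [lin, dl]

theorem lin_mul (h : Lev (s + 2) f) (D D' : G) : lin s f (D * D') = lin s f D + lin s f D' := by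
  have := coeff_eq_zero_of_mem_degreeLT (((h.dl D').dl D).mem 1) le_rfl
  simp only [lin, dl_mul, Pi.add_apply, coeff_add, this, add_zero]

theorem lin_inv (h : Lev (s + 2) f) (D : G) : lin s f D⁻¹ = -lin s f D := by
  have := lin_mul h D D⁻¹
  rw [mul_inv_cancel, lin_one] at this
  linarith

theorem lin_pow (h : Lev (s + 2) f) (D : G) (n : ℕ) : lin s f (D ^ n) = n * lin s f D := by
  induction n with
  | zero => simp [lin_one]
  | succ n ih =>
    rw [pow_succ, lin_mul h, ih]
    push_cast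
    ring

theorem lin_zpow (h : Lev (s + 2) f) (D : G) (n : ℤ) : lin s f (D ^ n) = n * lin s f D := by
  obtain ⟨m, rfl | rfl⟩ := n.eq_nat_or_neg
  · rw [zpow_natCast, lin_pow h]
    simp
  · rw [zpow_neg, zpow_natCast, lin_inv h, lin_pow h]
    simp

theorem lin_base (h : Lev (s + 2) f) (D E : G) : (dl D f E).coeff s = lin s f D := by
  have := coeff_eq_zero_of_mem_degreeLT (((h.dl D).dl E).mem 1) le_rfl
  rw [dl, one_mul, coeff_sub] at this
  exact sub_eq_zero.mp this

theorem lin_eq_zero (h : Lev (s + 1) f) (D : G) : lin s f D = 0 :=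
  coeff_eq_zero_of_mem_degreeLT ((h.dl D).mem 1) le_rfl

theorem lin_translate (h : Lev (s + 2) f) (D E : G) :
    lin s (fun x => f (x * E)) D = lin s f D := by
  rw [← lin_base h D E]
  simp only [lin, dl, one_mul, mul_comm D E]

theorem lin_shift (h : Lev (s + 2) f) (a : ℚ) (D : G) :
    lin s (fun E => (f E).comp (X - C a)) D = lin s f D := by
  have := coeff_comp_top ((h.dl D).mem 1) (-a)
  rw [C_neg, ← sub_eq_add_neg, dl, sub_comp] at this
  exact this

theorem lin_sub_shift (h : Lev (s + 3) f) (a : ℚ) (D : G) :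
    lin s (fun E => f E - (f E).comp (X - C a)) D = (s + 1) * a * lin (s + 1) f D := by
  have := coeff_comp_sub ((h.dl D).mem 1) (-a)
  rw [C_neg, ← sub_eq_add_neg] at this
  simp only [lin, dl, sub_comp, coeff_sub] at this ⊢
  linarith

theorem lin_comp (f' : G' → ℚ[X]) (ρ : G →* G') (D : G) :
    lin s (fun E => f' (ρ E)) D = lin s f' (ρ D) := by simp [lin, dl]

theorem lin_dl_comm (D D' : G) (f : G → ℚ[X]) : lin s (dl D' f) D = lin s (dl D f) D' := by
  rw [lin, lin, dl_comm]

theorem lin_dl_L {L : G} (hL : ∀ E, f (E * L) = (f E).comp (X + 1)) (h : Lev (s + 3) f) (D : G) :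
    lin s (dl L f) D = (s + 1) * lin (s + 1) f D := by
  have := coeff_comp_sub ((h.dl D).mem 1) 1
  have e := hL 1
  rw [one_mul] at e
  simp only [lin, dl, sub_comp, coeff_sub, one_mul, C_1, hL, e] at this ⊢
  linarith

theorem lin_L {L : G} (hL : ∀ E, f (E * L) = (f E).comp (X + 1)) (h : Lev (s + 2) f) :
    lin s f L = (s + 1) * (f 1).coeff (s + 1) := by
  have := coeff_comp_sub (h.mem 1) 1
  rw [C_1, mul_one] at this
  rw [lin, dl, hL, this]

theorem lin_add (f g : G → ℚ[X]) (D : G) :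
    lin s (fun E => f E + g E) D = lin s f D + lin s g D := by
  simp only [lin, dl, coeff_sub, coeff_add]
  ring

theorem lin_neg (f : G → ℚ[X]) (D : G) : lin s (fun E => -f E) D = -lin s f D := by
  simp only [lin, dl, coeff_sub, coeff_neg]
  ring

theorem lin_sub (f g : G → ℚ[X]) (D : G) :
    lin s (fun E => f E - g E) D = lin s f D - lin s g D := by
  simp only [lin, dl, coeff_sub]
  ring

theorem lin_sum {α : Type} (t : Finset α) (F : α → G → ℚ[X]) (D : G) :
    lin s (fun E => ∑ a ∈ t, F a E) D = ∑ a ∈ t, lin s (F a) D := by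
  simp only [lin, dl, coeff_sub, finsetSum_coeff, Finset.sum_sub_distrib]

theorem lin_list_sum {α : Type} (l : List α) (F : α → G → ℚ[X]) (D : G) :
    lin s (fun E => (l.map fun a => F a E).sum) D = (l.map fun a => lin s (F a) D).sum := by
  induction l with
  | nil => simp [lin, dl]
  | cons a l ih =>
    simp only [List.map_cons, List.sum_cons]
    rw [lin_add, ih]

end

end Pool.Agent.Lib.MP_62d77c_ag
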