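import Pool.Agent.Lib.MP_62d77c_ag.Hilb
import Pool.Agent.Lib.MP_62d77c_ag.LevL

/-! The degree of the Hilbert polynomial is the transcendence degree. -/

set_option autoImplicit false

namespace Pool.Agent.Lib.MP_62d77c_ag

open Filter Polynomial Submodule

noncomputable section

theorem dimA_natDegree_le {P Q : ℚ[X]} (hP : 0 < P.coeff P.natDegree)
    (h : ∀ᶠ n : ℕ in atTop, P.eval (n : ℚ) ≤ Q.eval (n : ℚ)) : P.natDegree ≤ Q.natDegree := by
  by_contra hc
  push Not at hc
  have h1 : Q - P ∈ degreeLT ℚ (P.natDegree + 1) := by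
    refine sub_mem ?_ ?_ <;> rw [mem_degreeLT] <;> refine degree_le_natDegree.trans_lt ?_
    · exact_mod_cast hc.trans (Nat.lt_succ_self _)
    · exact_mod_cast Nat.lt_succ_self _
  have h2 := coeff_nonneg_of_eventually h1 (h.mono fun n hn => by rw [eval_sub]; linarith)
  rw [coeff_sub, coeff_eq_zero_of_natDegree_lt hc] at h2
  linarith

variable {k K ι β : Type} [Field k] [Field K] [Algebra k K] [Fintype ι] [Fintype β]
  {V : Submodule k K}

variable (k) in
/-- monomials of bounded degree times generators -/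
def dimA_T (t : ι → K) (b : β → K) (n : ℕ) : Submodule k K :=
  span k {z | ∃ e : ι → ℕ, (∀ i, e i ≤ n) ∧ ∃ j, z = (∏ i, t i ^ e i) * b j}

omit [Fintype β] in
theorem dimA_T_mono (t : ι → K) (b : β → K) {n m : ℕ} (h : n ≤ m) :
    dimA_T k t b n ≤ dimA_T k t b m :=
  span_mono fun _ ⟨e, he, hz⟩ => ⟨e, fun i => (he i).trans h, hz⟩

theorem dimA_T_rank (t : ι → K) (b : β → K) (n : ℕ) : Module.Finite k (dimA_T k t b n) ∧
    Module.finrank k (dimA_T k t b n) ≤ (n + 1) ^ Fintype.card ι * Fintype.card β := by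
  classical
  have e1 : dimA_T k t b n = span k (Set.range fun q : (ι → Fin (n + 1)) × β =>
      (∏ i, t i ^ (q.1 i : ℕ)) * b q.2) := by
    refine congrArg _ (Set.ext fun z => ⟨?_, ?_⟩)
    · rintro ⟨e, he, j, rfl⟩
      exact ⟨(fun i => ⟨e i, Nat.lt_succ_of_le (he i)⟩, j), rfl⟩
    · rintro ⟨q, rfl⟩
      exact ⟨fun i => q.1 i, fun i => Nat.le_of_lt_succ (q.1 i).2, q.2, rfl⟩
  rw [e1]
  refine ⟨Module.Finite.span_of_finite k (Set.finite_range _), (finrank_range_le_card _).trans ?_⟩
  simp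

omit [Fintype β] in
theorem dimA_mul_T (t : ι → K) (b : β → K) {r : K} {D : ℕ}
    (h : ∀ j, r * b j ∈ dimA_T k t b D) (n : ℕ) {z : K} (hz : z ∈ dimA_T k t b n) :
    r * z ∈ dimA_T k t b (n + D) := by
  have key : ∀ e : ι → ℕ, (∀ i, e i ≤ n) → ∀ w ∈ dimA_T k t b D,
      (∏ i, t i ^ e i) * w ∈ dimA_T k t b (n + D) := fun e he w hw => by
    induction hw using span_induction with
    | mem w hw =>
      obtain ⟨e', he', j, rfl⟩ := hw
      refine subset_span ⟨fun i => e i + e' i, fun i => add_le_add (he i) (he' i), j, ?_⟩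
      simp only [pow_add, Finset.prod_mul_distrib, mul_assoc]
    | zero => simp
    | add x y _ _ hx hy => rw [mul_add]; exact add_mem hx hy
    | smul c x _ hx => rw [mul_smul_comm]; exact smul_mem _ c hx
  induction hz using span_induction with
  | mem w hw =>
    obtain ⟨e, he, j, rfl⟩ := hw
    rw [mul_left_comm]
    exact key e he _ (h j)
  | zero => simp
  | add x y _ _ hx hy => rw [mul_add]; exact add_mem hx hy
  | smul c x _ hx => rw [mul_smul_comm]; exact smul_mem _ c hx

omit [Fintype β] in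
theorem dimA_adjoin (t : ι → K) (b : β → K) {r : K} (hr : r ∈ Algebra.adjoin k (Set.range t)) :
    ∃ D, ∀ n, ∀ z ∈ dimA_T k t b n, r * z ∈ dimA_T k t b (n + D) := by
  classical
  have hb : ∀ j, b j ∈ dimA_T k t b 0 := fun j => subset_span ⟨0, fun _ => le_rfl, j, by simp⟩
  induction hr using Algebra.adjoin_induction with
  | mem r hr =>
    obtain ⟨i, rfl⟩ := hr
    refine ⟨1, fun n z hz => dimA_mul_T t b (fun j => subset_span ⟨Pi.single i 1, fun i' => ?_, j,
      ?_⟩) n hz⟩
    · by_cases h : i' = i <;> simp [h]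
    · rw [Finset.prod_eq_single i (fun i' _ h => by simp [h]) (by simp)]
      simp
  | algebraMap c => exact ⟨0, fun n z hz => by rw [← Algebra.smul_def]; exact smul_mem _ c hz⟩
  | add x y _ _ hx hy =>
    obtain ⟨D, hD⟩ := hx
    obtain ⟨D', hD'⟩ := hy
    refine ⟨D + D', fun n z hz => ?_⟩
    rw [add_mul]
    exact add_mem (dimA_T_mono t b (by omega) (hD n z hz)) (dimA_T_mono t b (by omega) (hD' n z hz))
  | mul x y _ _ hx hy =>
    obtain ⟨D, hD⟩ := hx
    obtain ⟨D', hD'⟩ := hy
    refine ⟨D' + D, fun n z hz => ?_⟩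
    rw [mul_assoc, ← add_assoc]
    exact hD _ _ (hD' n z hz)

omit [Fintype β] in
theorem dimA_span (t : ι → K) (b : β → K) {z : K}
    (hz : z ∈ span (Algebra.adjoin k (Set.range t)) (Set.range b)) : ∃ n, z ∈ dimA_T k t b n := by
  induction hz using span_induction with
  | mem w hw =>
    obtain ⟨j, rfl⟩ := hw
    exact ⟨0, subset_span ⟨0, fun _ => le_rfl, j, by simp⟩⟩
  | zero => exact ⟨0, zero_mem _⟩
  | add x y _ _ hx hy =>
    obtain ⟨n, hn⟩ := hx
    obtain ⟨m, hm⟩ := hy
    exact ⟨n + m, add_mem (dimA_T_mono t b (by omega) hn) (dimA_T_mono t b (by omega) hm)⟩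
  | smul c x _ hx =>
    obtain ⟨n, hn⟩ := hx
    obtain ⟨D, hD⟩ := dimA_adjoin t b c.2
    exact ⟨n + D, hD n x hn⟩

theorem dimA_upper (hV : V.FG) (t : ι → K)
    [Algebra.IsAlgebraic (Algebra.adjoin k (Set.range t)) K] :
    ∃ N D D₀ : ℕ, ∀ n, Module.finrank k ↥(V ^ n) ≤ (D * n + D₀) ^ Fintype.card ι * N := by
  classical
  obtain ⟨s, rfl⟩ := hV
  set R := Algebra.adjoin k (Set.range t)
  obtain ⟨a, ha0, ha⟩ := Algebra.IsAlgebraic.exists_integral_multiples R s
  have ha1 : (a : K) ≠ 0 := fun h => ha0 (Subtype.ext h)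
  set B := Algebra.adjoin R ((fun z => a • z) '' (s : Set K))
  obtain ⟨b, hb⟩ : (Subalgebra.toSubmodule B).FG :=
    fg_adjoin_of_finite (s.finite_toSet.image _) (by rintro _ ⟨z, hz, rfl⟩; exact ha z hz)
  have hB : ∀ z ∈ B, ∃ n, z ∈ dimA_T k t (Subtype.val : b → K) n := fun z hz =>
    dimA_span t _ (by rw [Subtype.range_coe_subtype, Finset.setOfPred_mem, hb]; exact hz)
  have hbB : ∀ j : b, (j : K) ∈ B := fun j => by
    have : (j : K) ∈ Subalgebra.toSubmodule B := hb ▸ subset_span j.2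
    exact this
  choose f hf using fun q : s × b => hB ((a : K) * q.1 * q.2)
    (mul_mem (Algebra.subset_adjoin ⟨q.1, q.1.2, rfl⟩) (hbB q.2))
  obtain ⟨D, hD⟩ := (Set.finite_range f).bddAbove
  obtain ⟨D₀, hD₀⟩ := hB 1 (one_mem _)
  have h1 : ∀ v ∈ span k (s : Set K), ∀ j : b,
      (a : K) * v * j ∈ dimA_T k t (Subtype.val : b → K) D := by
    intro v hv j
    induction hv using span_induction with
    | mem w hw => exact dimA_T_mono t _ (hD ⟨(⟨w, hw⟩, j), rfl⟩) (hf (⟨w, hw⟩, j))
    | zero => simp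
    | add x y _ _ hx hy => rw [mul_add, add_mul]; exact add_mem hx hy
    | smul c x _ hx => rw [mul_smul_comm, smul_mul_assoc]; exact smul_mem _ c hx
  have h2 : ∀ n, ∀ w ∈ span k (s : Set K) ^ n,
      (a : K) ^ n * w ∈ dimA_T k t (Subtype.val : b → K) (D * n + D₀) := by
    intro n
    induction n with
    | zero =>
      intro w hw
      rw [Submodule.pow_zero, Submodule.mem_one] at hw
      obtain ⟨c, rfl⟩ := hw
      simpa [Algebra.algebraMap_eq_smul_one] using smul_mem _ c hD₀
    | succ n ih =>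
      intro w hw
      rw [Submodule.pow_succ] at hw
      induction hw using Submodule.mul_induction_on' with
      | mem_mul_mem x hx y hy =>
        have := dimA_mul_T t _ (h1 y hy) _ (ih x hx)
        rw [show D * n + D₀ + D = D * (n + 1) + D₀ by ring] at this
        convert this using 1
        ring
      | add x _ y _ hx hy => rw [mul_add _ x y]; exact add_mem hx hy
  refine ⟨Fintype.card b, D, D₀ + 1, fun n => ?_⟩
  obtain ⟨h3, h4⟩ := dimA_T_rank (k := k) t (Subtype.val : b → K) (D * n + D₀)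
  refine le_trans ?_ h4
  refine LinearMap.finrank_le_finrank_of_injective
    (f := (LinearMap.mulLeft k ((a : K) ^ n)).restrict (h2 n)) fun x y e => ?_
  exact Subtype.ext (mul_left_cancel₀ (pow_ne_zero n ha1) (congrArg Subtype.val e))

theorem dimA_pow_mono (h1 : (1 : K) ∈ V) {a b : ℕ} (h : a ≤ b) : V ^ a ≤ V ^ b := by
  induction h with
  | refl => exact le_rfl
  | step _ ih =>
    refine ih.trans fun x hx => ?_
    rw [Submodule.pow_succ, ← mul_one x]
    exact mul_mem_mul hx h1

theorem dimA_lower (hV : V.FG) (h1 : (1 : K) ∈ V) {t : ι → K} (ht : AlgebraicIndependent k t)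
    (htV : ∀ i, t i ∈ V) {m n : ℕ} (h : Fintype.card ι * m ≤ n) :
    (m + 1) ^ Fintype.card ι ≤ Module.finrank k ↥(V ^ n) := by
  classical
  have : Module.Finite k ↥(V ^ n) := Module.Finite.iff_fg.2 (hV.pow n)
  have h2 : ∀ e : ι → ℕ, ∀ s : Finset ι, ∏ i ∈ s, t i ^ e i ∈ V ^ (∑ i ∈ s, e i) := fun e s => by
    induction s using Finset.induction_on with
    | empty => simp
    | insert i s hi ih =>
      rw [Finset.prod_insert hi, Finset.sum_insert hi, pow_add]
      exact mul_mem_mul (pow_mem_pow _ (htV i) _) ih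
  let f : (ι → Fin (m + 1)) → ↥(V ^ n) := fun e => ⟨∏ i, t i ^ (e i : ℕ), by
    refine dimA_pow_mono h1 (le_trans ?_ h) (h2 _ _)
    simpa using Finset.sum_le_card_nsmul Finset.univ (fun i => (e i : ℕ)) m
      fun i _ => Nat.le_of_lt_succ (e i).2⟩
  have h3 := ((MvPolynomial.basisMonomials ι k).linearIndependent.map'
    (MvPolynomial.aeval t).toLinearMap (LinearMap.ker_eq_bot.2 ht)).comp
    (fun e : ι → Fin (m + 1) => Finsupp.equivFunOnFinite.symm fun i => (e i : ℕ))
    (fun e e' he => funext fun i => Fin.ext (congrFun (Finsupp.equivFunOnFinite.symm.injective he) i))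
  have h4 : LinearIndependent k f := by
    refine LinearIndependent.of_comp (V ^ n).subtype ?_
    refine (show _ = ⇑(V ^ n).subtype ∘ f from funext fun e => ?_) ▸ h3
    simp [f, MvPolynomial.aeval_monomial, Finsupp.prod_fintype]
  simpa using h4.fintype_card_le_finrank

theorem dimA_trdeg (hV : V.FG) (h1 : (1 : K) ∈ V)
    (hK : ∀ z : K, ∃ n, ∃ a ∈ V ^ n, ∃ b ∈ V ^ n, z = a / b) : Algebra.trdeg k K = dimV V := by
  classical
  have hM : Mdl V := ⟨hV, fun h => one_ne_zero ((mem_bot k).1 (h ▸ h1))⟩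
  obtain ⟨s, hs⟩ := id hV
  have hle : ∀ n, V ^ n ≤ Subalgebra.toSubmodule (Algebra.adjoin k (s : Set K)) := fun n => by
    induction n with
    | zero => rw [Submodule.pow_zero]; exact Submodule.one_le.2 (one_mem (Algebra.adjoin k _))
    | succ n ih =>
      rw [Submodule.pow_succ]
      refine Submodule.mul_le.2 fun x hx y hy => (Algebra.adjoin k _).mul_mem (ih hx) ?_
      exact Algebra.span_le_adjoin k _ (hs.symm ▸ hy)
  have : Algebra.IsAlgebraic (Algebra.adjoin k (s : Set K)) K := ⟨fun z => by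
    obtain ⟨n, a, ha, b, hb, rfl⟩ := hK z
    rw [div_eq_mul_inv]
    exact (isAlgebraic_algebraMap (⟨a, hle n ha⟩ : Algebra.adjoin k (s : Set K))).mul
      (IsAlgebraic.inv_iff.2 (isAlgebraic_algebraMap (⟨b, hle n hb⟩ : Algebra.adjoin k (s : Set K))))⟩
  obtain ⟨t, hts, ht⟩ := exists_isTranscendenceBasis_subset (R := k) (s : Set K)
  have : Fintype t := (s.finite_toSet.subset hts).fintype
  rw [← ht.cardinalMk_eq_trdeg, Cardinal.mk_fintype, Nat.cast_inj]
  have hP := hp_spec hV (fg_pw' hV)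
  have hpos : 0 < (hp (pw V)).coeff (hp (pw V)).natDegree := by
    have := (PP_lead hM 1).2.1
    rwa [PP, hq_one hM (fg_pw' hV)] at this
  have := ht.isAlgebraic
  refine le_antisymm ?_ ?_
  · set r := Fintype.card t with hr
    rcases Nat.eq_zero_or_pos r with h0 | h0
    · omega
    have h2 : (0 : ℚ) < r := by exact_mod_cast h0
    have h3 : (C ((r : ℚ)⁻¹ ^ r) * X ^ r).natDegree = r :=
      natDegree_C_mul_X_pow _ _ (by positivity)
    rw [← h3]
    refine dimA_natDegree_le (by rw [h3]; simpa using by positivity) (hP.mono fun n hn => ?_)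
    have h4 := dimA_lower hV h1 ht.1 (fun i => hs ▸ subset_span (hts i.2)) (Nat.mul_div_le n r)
    rw [hn, eval_mul, eval_C, eval_pow, eval_X, ← mul_pow]
    have h5 : (n : ℚ) ≤ r * ((n / r : ℕ) + 1) := by
      exact_mod_cast (Nat.lt_mul_div_succ n h0).le
    refine le_trans (pow_le_pow_left₀ (by positivity) ((inv_mul_le_iff₀ h2).2 h5) r) ?_
    exact_mod_cast h4
  · obtain ⟨N, D, D₀, h⟩ := dimA_upper hV (Subtype.val : t → K)
    refine (dimA_natDegree_le (Q := (C (D : ℚ) * X + C (D₀ : ℚ)) ^ Fintype.card t * C (N : ℚ)) hpos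
      (hP.mono fun n hn => ?_)).trans ?_
    · rw [hn]
      simp only [eval_mul, eval_pow, eval_add, eval_C, eval_X]
      exact_mod_cast h n
    · refine (natDegree_mul_C_le _ _).trans (natDegree_pow_le.trans ?_)
      simpa using Nat.mul_le_mul_left (Fintype.card t) (natDegree_linear_le (a := (D : ℚ)) (b := D₀))

end

end Pool.Agent.Lib.MP_62d77c_ag
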