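import Pool.Agent.Lib.MP_62d77c_ag.Hodge

/-! Numerically trivial line bundles over a finite field are torsion. -/

set_option autoImplicit false

namespace Pool.Agent.Lib.MP_62d77c_ag

open Filter Polynomial Submodule

noncomputable section

section aux

variable {k K : Type} [Field k] [Field K] [Algebra k K] {V : Submodule k K}

theorem tors_cl_prin (f : Kˣ) : cl (prin V f) = 1 := by
  have h : cl (1 : Car V) = cl (prin V f) := cl_eq_iff.2 ⟨f, by rw [one_mul]⟩
  rw [← h, map_one]

theorem tors_eval_Lpow (hV : Mdl V) (D : Pic V) (n : ℕ) (x : ℚ) :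
    (PP V (D * Lp V ^ n)).eval x = (PP V D).eval (x + n) := by
  induction n generalizing x with
  | zero => simp
  | succ n ih =>
    rw [pow_succ, ← mul_assoc, PP_L hV, eval_comp, ih]
    simp only [eval_add, eval_X, eval_one, Nat.cast_add, Nat.cast_one]
    congr 1
    ring

theorem tors_dl_mem {D : Pic V} (M : Mem V D) :
    dl D (PP V) = fun E => PP M.V' (M.ρ E * M.ρ D) := by
  funext E
  rw [← map_mul, ← M.P]
  rfl

theorem tors_dl_L {G : Type} [CommGroup G] {f : G → ℚ[X]} {L : G}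
    (hL : ∀ E, f (E * L) = (f E).comp (X + 1)) (w E : G) :
    dl w f (E * L) = (dl w f E).comp (X + 1) := by
  unfold dl
  rw [mul_right_comm, hL, hL, sub_comp]

theorem tors_i1_mem {D : Pic V} (M : Mem V D) (hd : dimV M.V' + 1 = dimV V)
    (h1 : 1 ≤ dimV M.V') (w : Pic V) :
    i1 M.V' (dimV M.V') (M.ρ w) = i2 V (dimV V) w D := by
  obtain ⟨s, hs⟩ : ∃ s, dimV M.V' = s + 1 := ⟨dimV M.V' - 1, by omega⟩
  have hl : Lev (s + 2) (PP M.V') := by
    have := snapper M.mdl
    rwa [hs] at this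
  unfold i1 i2
  rw [← hd, hs, tors_dl_mem M]
  have e := lin_comp (s := s) (fun E' => PP M.V' (E' * M.ρ D)) M.ρ w
  rw [lin_translate hl] at e
  simpa using e.symm

theorem tors_i2_mem {D : Pic V} (M : Mem V D) {s : ℕ} (hs : dimV M.V' = s + 2) (w : Pic V) :
    i2 M.V' (dimV M.V') (M.ρ w) (M.ρ w) = lin s (dl w (dl w (PP V))) D := by
  have hl : Lev (s + 2) (dl (M.ρ w) (PP M.V')) := by
    have := snapper M.mdl
    rw [hs] at this
    exact this.dl _
  have e1 : dl w (dl D (PP V)) = fun E => dl (M.ρ w) (PP M.V') (M.ρ E * M.ρ D) := by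
    rw [tors_dl_mem M]
    funext E
    unfold dl
    beta_reduce
    rw [map_mul, mul_right_comm]
  have e2 : lin s (dl w (dl w (PP V))) D = lin s (dl w (dl D (PP V))) w := by
    rw [lin_dl_comm, dl_comm D w]
  have e := lin_comp (s := s) (fun E' => dl (M.ρ w) (PP M.V') (E' * M.ρ D)) M.ρ w
  rw [lin_translate hl] at e
  rw [e2, e1, e]
  unfold i2
  rw [hs]
  rfl

/-- numerical triviality passes to the members -/
theorem tors_NT_mem (hV : Mdl V) {w : Pic V} (hw : NT V w) {D : Pic V} (M : Mem V D)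
    (hd : dimV M.V' + 1 = dimV V) : NT M.V' (M.ρ w) := by
  have A : ∀ {D : Pic V} (M : Mem V D), dimV M.V' + 1 = dimV V → 1 ≤ dimV M.V' →
      i1 M.V' (dimV M.V') (M.ρ w) = 0 := by
    intro D M hd h1
    rw [tors_i1_mem M hd h1, radical hV (by omega) hw]
  refine ⟨A M hd, fun h2 => ?_⟩
  obtain ⟨s, hs⟩ : ∃ s, dimV M.V' = s + 2 := ⟨dimV M.V' - 2, by omega⟩
  have hr : dimV V = s + 3 := by omega
  have hl : Lev (s + 2) (dl w (dl w (PP V))) := by
    have := snapper hV
    rw [hr] at this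
    exact (this.dl _).dl _
  have hL : lin s (dl w (dl w (PP V))) (Lp V) = 0 := by
    rw [lin_L (tors_dl_L (tors_dl_L (PP_L hV) w) w) hl]
    have := hw.2 (by omega)
    unfold i2 lin at this
    rw [hr] at this
    have e : s + 3 - 2 = s + 1 := by omega
    rw [e] at this
    rw [this, mul_zero]
  have B : ∀ D : Pic V, lin s (dl w (dl w (PP V))) D ≤ 0 := by
    intro D
    obtain ⟨n, M', hM'⟩ := (memberD hV (by omega) D).exists
    have h := hodge M'.mdl (by omega) (A M' hM' (by omega))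
    rw [tors_i2_mem M' (s := s) (by omega), lin_mul hl, lin_pow hl, hL] at h
    simpa using h
  have h1 := B D
  have h2 := B D⁻¹
  rw [lin_inv hl] at h2
  rw [tors_i2_mem M hs]
  linarith

end aux

theorem tors_bound (r : ℕ) : ∀ (k K : Type) [Field k] [Field K] [Algebra k K] (V : Submodule k K),
    Mdl V → dimV V = r → ∀ w : Pic V, (1 ≤ dimV V → i1 V (dimV V) w = 0) → ∀ n : ℕ,
      ∃ c : ℕ, ∀ m : ℤ, h0 V (w ^ m * Lp V ^ n) ≤ c := by
  induction r with
  | zero =>
    intro k K _ _ _ V hV hr w _ n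
    refine ⟨h0 V 1, fun m => ?_⟩
    have h1 := dim_zero hV hr (w ^ m * Lp V ^ n)
    have h2 := dim_zero hV hr 1
    have : (h0 V (w ^ m * Lp V ^ n) : ℚ) = h0 V 1 := C_injective (by rw [← h1.1, ← h2.1, h1.2.1])
    exact_mod_cast this.le
  | succ r ih =>
    intro k K _ _ _ V hV hr w hw
    have h1 : 1 ≤ dimV V := by omega
    obtain ⟨M, hM⟩ := memberL hV h1
    have hl : Lev (dimV V - 1 + 2) (PP V) := by
      have := snapper hV
      have e : dimV V - 1 + 2 = dimV V + 1 := by omega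
      rwa [e]
    have IH := ih M.k' M.K' M.V' M.mdl (by omega) (M.ρ w) (fun h => by
      rw [tors_i1_mem M hM h, i2_L hV (by omega), hw h1, mul_zero])
    have z : ∀ m : ℤ, h0 V (w ^ m * (Lp V)⁻¹) = 0 := by
      intro m
      by_contra hne
      have := i1_nonneg_of_h0 hV h1 (Nat.pos_of_ne_zero hne)
      have hp := i1_L_pos hV h1
      have hw' := hw h1
      unfold i1 at this hp hw'
      rw [lin_mul hl, lin_zpow hl, lin_inv hl, hw'] at this
      linarith
    intro n
    induction n with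
    | zero =>
      obtain ⟨c, hc⟩ := IH 0
      refine ⟨c, fun m => ?_⟩
      have := M.h (w ^ m * (Lp V)⁻¹)
      rw [z, inv_mul_cancel_right, map_zpow] at this
      have h2 := hc m
      simp only [pow_zero, mul_one] at h2 ⊢
      omega
    | succ n ihn =>
      obtain ⟨c, hc⟩ := IH (n + 1)
      obtain ⟨c', hc'⟩ := ihn
      refine ⟨c' + c, fun m => ?_⟩
      have := M.h (w ^ m * Lp V ^ n)
      rw [mul_assoc, ← pow_succ, map_mul, map_zpow, map_pow, M.L] at this
      have h2 := hc m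
      have h3 := hc' m
      omega

/-- a nonincreasing sequence with integer steps that stays constant after its first stop -/
theorem tors_seq (e : ℕ → ℚ) (d : ℕ → ℕ) (n₀ N : ℕ) (he : ∀ n, n₀ ≤ n → e n = e (n + 1) + d n)
    (h0' : ∀ᶠ n in atTop, e n = 0) (hd : ∀ n, n₀ ≤ n → d n = 0 → d (n + 1) = 0) :
    0 ≤ e n₀ ∧ (e n₀ ≤ N → ∀ n, n₀ + N ≤ n → d n = 0 ∧ e n = 0) := by
  obtain ⟨t, ht⟩ := eventually_atTop.1 h0'
  have mono : ∀ n, n₀ ≤ n → ∀ j, e (n + j) ≤ e n := by
    intro n hn j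
    induction j with
    | zero => simp
    | succ j ih =>
      have := he (n + j) (by omega)
      have h2 : (0 : ℚ) ≤ d (n + j) := Nat.cast_nonneg _
      rw [← add_assoc]
      linarith
  have nn : ∀ n, n₀ ≤ n → 0 ≤ e n := by
    intro n hn
    have := mono n hn t
    rwa [ht _ (by omega)] at this
  refine ⟨nn _ le_rfl, fun hN => ?_⟩
  have prop : ∀ n, n₀ ≤ n → d n = 0 → ∀ j, d (n + j) = 0 ∧ e (n + j) = e n := by
    intro n hn h j
    induction j with
    | zero => exact ⟨h, rfl⟩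
    | succ j ih =>
      refine ⟨hd (n + j) (by omega) ih.1, ?_⟩
      have := he (n + j) (by omega)
      rw [ih.1] at this
      rw [← add_assoc, ← ih.2, this]
      simp
  have ex : ∃ j, j ≤ N ∧ d (n₀ + j) = 0 := by
    by_contra hne
    push Not at hne
    have dec : ∀ j, j ≤ N + 1 → e (n₀ + j) + j ≤ e n₀ := by
      intro j hj
      induction j with
      | zero => simp
      | succ j ih =>
        have h1 := ih (by omega)
        have h2 := he (n₀ + j) (by omega)
        have h3 : (1 : ℚ) ≤ d (n₀ + j) := by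
          exact_mod_cast Nat.pos_of_ne_zero (hne j (by omega))
        rw [← add_assoc]
        push_cast
        linarith
    have h1 := dec (N + 1) le_rfl
    have h2 := nn (n₀ + (N + 1)) (by omega)
    push_cast at h1
    linarith
  obtain ⟨j, hj, hz⟩ := ex
  intro n hn
  have h1 := prop (n₀ + j) (by omega) hz (n - (n₀ + j))
  have h2 := prop (n₀ + j) (by omega) hz t
  have e1 : n₀ + j + (n - (n₀ + j)) = n := by omega
  rw [e1] at h1
  refine ⟨h1.1, ?_⟩
  rw [h1.2, ← h2.2, ht _ (by omega)]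

theorem tors_main (r : ℕ) : ∀ (k K : Type) [Field k] [Field K] [Algebra k K] (V : Submodule k K),
    Mdl V → dimV V = r → ∀ w : Pic V, NT V w →
    (∀ E, PP V (E * w) = PP V E) ∧ ∃ n₁ : ℕ, ∀ (m : ℤ) (n : ℕ), n₁ ≤ n →
      (h0 V (w ^ m * Lp V ^ n) : ℚ) = (PP V 1).eval (n : ℚ) ∧ MulOK V (w ^ m * Lp V ^ n) := by
  induction r with
  | zero =>
    intro k K _ _ _ V hV hr w _
    refine ⟨fun E => by rw [(dim_zero hV hr _).2.1, (dim_zero hV hr E).2.1], 0, fun m n _ => ?_⟩
    have h := dim_zero hV hr (w ^ m * Lp V ^ n)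
    refine ⟨?_, h.2.2⟩
    rw [← h.2.1, h.1, eval_C]
  | succ r ih =>
    intro k K _ _ _ V hV hr w hw
    have h1 : 1 ≤ dimV V := by omega
    -- the first difference is invariant under every member
    have inv : ∀ {D : Pic V} (M : Mem V D), dimV M.V' + 1 = dimV V →
        ∀ E, dl w (PP V) (E * D) = dl w (PP V) E := by
      intro D M hM E
      have IH := (ih M.k' M.K' M.V' M.mdl (by omega) (M.ρ w) (tors_NT_mem hV hw M hM)).1
      have a1 := M.P E
      have a2 := M.P (E * w)
      rw [mul_right_comm E w D, map_mul M.ρ (E * D) w, IH] at a2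
      unfold dl
      linear_combination a2 - a1
    obtain ⟨M, hM⟩ := memberL hV h1
    have invL : ∀ (n : ℕ) E, dl w (PP V) (E * Lp V ^ n) = dl w (PP V) E := by
      intro n E
      induction n with
      | zero => simp
      | succ n ihn => rw [pow_succ, ← mul_assoc, inv M hM, ihn]
    have const : ∀ D, dl w (PP V) D = dl w (PP V) 1 := by
      intro D
      obtain ⟨n, M', hM'⟩ := (memberD hV h1 D).exists
      have := inv M' hM' 1
      rwa [one_mul, invL] at this
    obtain ⟨a, ha⟩ : ∃ a : ℚ, dl w (PP V) 1 = C a := by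
      refine ⟨_, eq_C_of_mem_degreeLT_one (mem_degreeLT_succ_of_shift (s := 0) ?_)⟩
      rw [← tors_dl_L (PP_L hV), const, sub_self]
      exact zero_mem _
    have step : ∀ E, PP V (E * w) = PP V E + C a := by
      intro E
      have := const E
      rw [ha] at this
      unfold dl at this
      linear_combination this
    have stepz : ∀ (m : ℤ) E, PP V (E * w ^ m) = PP V E + C (m * a) := by
      intro m E
      induction m using Int.induction_on with
      | zero => simp
      | succ m ihm =>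
        rw [zpow_add_one, ← mul_assoc, step, ihm]
        push_cast
        rw [add_mul, one_mul, C_add, add_assoc]
      | pred m ihm =>
        have := step (E * w ^ (-(m : ℤ) - 1))
        rw [mul_assoc, ← zpow_add_one, sub_add_cancel, ihm] at this
        push_cast at this ⊢
        rw [sub_mul, one_mul, C_sub]
        linear_combination -this
    obtain ⟨IH1, n₀, IH2⟩ := ih M.k' M.K' M.V' M.mdl (by omega) (M.ρ w) (tors_NT_mem hV hw M hM)
    have IHz : ∀ (m : ℤ) E, PP M.V' (E * M.ρ w ^ m) = PP M.V' E := by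
      intro m E
      induction m using Int.induction_on with
      | zero => simp
      | succ m ihm => rw [zpow_add_one, ← mul_assoc, IH1, ihm]
      | pred m ihm =>
        have := IH1 (E * M.ρ w ^ (-(m : ℤ) - 1))
        rw [mul_assoc, ← zpow_add_one, sub_add_cancel, ihm] at this
        exact this.symm
    have hρ : ∀ (m : ℤ) (n : ℕ), M.ρ (w ^ m * Lp V ^ n * Lp V) = M.ρ w ^ m * Lp M.V' ^ (n + 1) := by
      intro m n
      rw [mul_assoc, ← pow_succ, map_mul, map_zpow, map_pow, M.L]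
    have hE : ∀ (m : ℤ) (n : ℕ), w ^ m * Lp V ^ n * Lp V = w ^ m * Lp V ^ (n + 1) := by
      intro m n
      rw [mul_assoc, ← pow_succ]
    have key : ∀ m : ℤ, 0 ≤ (h0 V (w ^ m * Lp V ^ n₀) : ℚ) - (PP V (w ^ m)).eval (n₀ : ℚ) ∧
        ∀ N : ℕ, (h0 V (w ^ m * Lp V ^ n₀) : ℚ) - (PP V (w ^ m)).eval (n₀ : ℚ) ≤ N →
          ∀ n, n₀ + N + 1 ≤ n → (h0 V (w ^ m * Lp V ^ n) : ℚ) = (PP V (w ^ m)).eval (n : ℚ) ∧
            MulOK V (w ^ m * Lp V ^ n) := by
      intro m
      let e : ℕ → ℚ := fun n => (h0 V (w ^ m * Lp V ^ n) : ℚ) - (PP V (w ^ m)).eval (n : ℚ)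
      let d : ℕ → ℕ := fun n => h0 V (w ^ m * Lp V ^ n) +
        h0 M.V' (M.ρ (w ^ m * Lp V ^ n * Lp V)) - h0 V (w ^ m * Lp V ^ n * Lp V)
      have he : ∀ n, n₀ ≤ n → e n = e (n + 1) + d n := by
        intro n hn
        have b1 := M.h (w ^ m * Lp V ^ n)
        have b2 := congrArg (eval 0) (M.P (w ^ m * Lp V ^ n))
        have b3 := (IH2 m (n + 1) (by omega)).1
        rw [hρ, mul_comm (M.ρ w ^ m), IHz, hE, eval_sub, tors_eval_Lpow hV, tors_eval_Lpow hV,
          ← one_mul (Lp M.V' ^ (n + 1)), tors_eval_Lpow M.mdl] at b2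
        simp only [e, d]
        rw [Nat.cast_sub b1, Nat.cast_add (h0 V _), hρ, hE, b3]
        simp only [zero_add] at b2
        linarith
      have mum : ∀ n, n₀ ≤ n → d n = 0 → MulOK V (w ^ m * Lp V ^ (n + 1)) ∧ d (n + 1) = 0 := by
        intro n hn hd
        have b1 := M.h (w ^ m * Lp V ^ n)
        have b2 := M.mum rfl (w ^ m * Lp V ^ n) (by simp only [d] at hd; omega)
          (by rw [hρ]; exact (IH2 m (n + 1) (by omega)).2)
        rw [hE] at b2
        refine ⟨b2.1, ?_⟩
        simp only [d]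
        omega
      have hz : ∀ᶠ n in atTop, e n = 0 := by
        filter_upwards [h0_eventually hV (w ^ m)] with n hn
        simp only [e]
        rw [hn, sub_self]
      refine ⟨(tors_seq e d n₀ 0 he hz fun n hn h => (mum n hn h).2).1, fun N hN n hn => ?_⟩
      have S := (tors_seq e d n₀ N he hz fun n hn h => (mum n hn h).2).2 hN
      obtain ⟨n', rfl⟩ : ∃ n', n = n' + 1 := ⟨n - 1, by omega⟩
      exact ⟨sub_eq_zero.1 (S (n' + 1) (by omega)).2, (mum n' (by omega) (S n' (by omega)).1).1⟩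
    obtain ⟨c, hc⟩ := tors_bound (r + 1) k K V hV hr w hw.1 n₀
    have pz : ∀ m : ℤ, PP V (w ^ m) = PP V 1 + C (m * a) := by
      intro m
      rw [← stepz, one_mul]
    have bd : ∀ m : ℤ, (m : ℚ) * a ≤ c - (PP V 1).eval (n₀ : ℚ) := by
      intro m
      have b1 := (key m).1
      have b2 : (h0 V (w ^ m * Lp V ^ n₀) : ℚ) ≤ c := by exact_mod_cast hc m
      rw [pz, eval_add, eval_C] at b1
      linarith
    have a0 : a = 0 := by
      by_contra hne
      rcases lt_or_gt_of_ne hne with h | h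
      · obtain ⟨t, ht⟩ := exists_nat_gt ((c - (PP V 1).eval (n₀ : ℚ)) / (-a))
        have := bd (-(t : ℤ))
        rw [div_lt_iff₀ (by linarith)] at ht
        push_cast at this
        linarith
      · obtain ⟨t, ht⟩ := exists_nat_gt ((c - (PP V 1).eval (n₀ : ℚ)) / a)
        have := bd (t : ℤ)
        rw [div_lt_iff₀ h] at ht
        push_cast at this
        linarith
    subst a0
    refine ⟨fun E => by rw [step, C_0, add_zero], ?_⟩
    obtain ⟨N, hN⟩ := exists_nat_ge ((c : ℚ) - (PP V 1).eval (n₀ : ℚ))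
    refine ⟨n₀ + N + 1, fun m n hn => ?_⟩
    have b2 : (h0 V (w ^ m * Lp V ^ n₀) : ℚ) ≤ c := by exact_mod_cast hc m
    have := (key m).2 N (by rw [pz, mul_zero, C_0, add_zero]; linarith) n hn
    rwa [pz, mul_zero, C_0, add_zero] at this

variable {k K : Type} [Field k] [Field K] [Algebra k K] {V : Submodule k K}

/-- invariance of the Euler characteristic and uniform regularity -/
theorem numtriv (hV : Mdl V) {w : Pic V} (hw : NT V w) :
    (∀ E, PP V (E * w) = PP V E) ∧ ∃ n₁ : ℕ, ∀ (m : ℤ) (n : ℕ), n₁ ≤ n →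
      (h0 V (w ^ m * Lp V ^ n) : ℚ) = (PP V 1).eval (n : ℚ) ∧ MulOK V (w ^ m * Lp V ^ n) :=
  tors_main _ k K V hV rfl w hw

theorem tors_rep_sec (hV : Mdl V) {D : Car V} (h : ∀ j : ℕ, MulOK V (cl D * Lp V ^ j)) :
    Rep D (sec D) 0 := by
  have e : ∀ j : ℕ, V ^ j * sec D = sec (D * Lc V ^ j) := by
    intro j
    induction j with
    | zero => simp
    | succ j ih =>
      have := (mulOK_cl hV (D * Lc V ^ j)).1 (by rw [map_mul, map_pow]; exact h j)
      rw [pow_succ (Lc V), ← mul_assoc, ← this, ← ih, ← mul_assoc, ← _root_.pow_succ']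
  obtain ⟨j, hj, hj'⟩ := ((sec_L_pow hV D).and (eventually_ge_atTop (rp D).2)).exists
  refine (rep_rp D).of_eq (c := j - (rp D).2) ?_
  rw [Nat.sub_add_cancel hj', e, hj, add_zero, mul_comm]
  rfl

theorem torsion [Finite k] (hV : Mdl V) {w : Pic V} (hw : NT V w) : ∃ n, 0 < n ∧ w ^ n = 1 := by
  obtain ⟨n₁, hn⟩ := (numtriv hV hw).2
  let D : ℤ → Car V := fun m => w.out ^ m * Lc V ^ n₁
  have hD : ∀ m, cl (D m) = w ^ m * Lp V ^ n₁ := by
    intro m
    simp only [D]
    rw [map_mul, map_zpow, map_pow, cl_out]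
    rfl
  have hR : ∀ m, Rep (D m) (sec (D m)) 0 := by
    intro m
    refine tors_rep_sec hV fun j => ?_
    rw [hD, mul_assoc, ← pow_add]
    exact (hn m _ (by omega)).2
  have hf : ∀ m : ℕ, ∃ f : Kˣ, (f : K) ∈ sec (D (-m)) := by
    intro m
    obtain ⟨f, h1, h2⟩ := Submodule.exists_mem_ne_zero_of_ne_bot ((hR (-m)).ne_bot hV)
    exact ⟨Units.mk0 f h2, h1⟩
  choose f hf using hf
  let T : Submodule k K := sec (Lc V ^ n₁ * Lc V ^ n₁)
  have hT : ∀ m : ℕ, span k {(f m : K)} * sec (D m) ≤ T := by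
    intro m
    refine (mul_le_mul_left ((span_singleton_le_iff_mem _ _).2 (hf m)) _).trans
      ((sec_mul_le hV _ _).trans (le_of_eq ?_))
    simp only [D, T]
    rw [mul_mul_mul_comm, ← zpow_add, neg_add_cancel, zpow_zero, one_mul]
  have : Module.Finite k T := Module.Finite.iff_fg.2 (sec_fg hV _)
  have : Finite T := Module.finite_of_finite k
  obtain ⟨a, b, hab, e⟩ := Finite.exists_ne_map_eq_of_infinite
    (fun m : ℕ => {x : T | (x : K) ∈ span k {(f m : K)} * sec (D m)})
  have e' : span k {(f a : K)} * sec (D a) = span k {(f b : K)} * sec (D b) := by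
    ext x
    constructor
    · intro hx
      exact (Set.ext_iff.1 e ⟨x, hT a hx⟩).1 hx
    · intro hx
      exact (Set.ext_iff.1 e ⟨x, hT b hx⟩).2 hx
  have r1 := (rep_prin (V := V) (f a)).mul (hR a)
  have r2 := (rep_prin (V := V) (f b)).mul (hR b)
  rw [e'] at r1
  have c := congrArg cl (r1.unique r2)
  rw [map_mul _ _ (D a), map_mul _ _ (D b), tors_cl_prin, tors_cl_prin, one_mul, one_mul, hD, hD,
    mul_left_inj, zpow_natCast, zpow_natCast] at c
  rcases lt_or_gt_of_ne hab with h | h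
  · refine ⟨b - a, by omega, ?_⟩
    rw [pow_sub _ h.le, c, mul_inv_cancel]
  · refine ⟨a - b, by omega, ?_⟩
    rw [pow_sub _ h.le, c, mul_inv_cancel]

theorem good_i2 [Finite k] (hV : Mdl V) (h : 2 ≤ dimV V) : Good (i2 V (dimV V)) (Lp V) := by
  have hp : (0 : ℚ) < dimV V - 1 := by
    have : (2 : ℚ) ≤ dimV V := by exact_mod_cast h
    linarith
  have h1 : ∀ x, i2 V (dimV V) x (Lp V) = 0 → i1 V (dimV V) x = 0 := by
    intro x hx
    rw [i2_L hV h] at hx
    exact (mul_eq_zero.1 hx).resolve_left hp.ne'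
  refine ⟨i2_symm _, i2_mul hV h, ?_, fun x hx => hodge hV h (h1 x hx),
    fun x hx hx' => torsion hV ⟨fun _ => h1 x hx, fun _ => hx'⟩⟩
  rw [i2_L hV h]
  exact mul_pos hp (i1_L_pos hV (by omega))

end

end Pool.Agent.Lib.MP_62d77c_ag
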