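import Pool.Agent.Lib.MP_62d77c_ag.Fibre
import Pool.Agent.Lib.MP_62d77c_ag.Tors
import Pool.Agent.Lib.MP_62d77c_ag.DimA

/-! Dimensions. -/

set_option autoImplicit false

namespace Pool.Agent.Lib.MP_62d77c_ag

open Filter Polynomial Submodule

noncomputable section

variable {A : Type} [CommRing A] [IsDomain A] {𝒜 : ℕ → AddSubgroup A} [GradedRing 𝒜]
  [hG : Fact (Gen 𝒜)] {p : ℕ} [Fact p.Prime]

instance essFiniteType_kap (x : Vp 𝒜 p) : Algebra.EssFiniteType (ZMod p) (kap x.1) := by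
  classical
  obtain ⟨s, -, hs⟩ := hG.out
  refine IntermediateField.fg_top_iff.1 ⟨s.image (th x.1), top_le_iff.1 fun z _ => ?_⟩
  have key : ∀ a : A, th x.1 a ∈
      IntermediateField.adjoin (ZMod p) (↑(s.image (th x.1)) : Set (kap x.1)) := fun a => by
    have h1 : Subring.closure (s : Set A) ≤ (IntermediateField.adjoin (ZMod p)
        (↑(s.image (th x.1)) : Set (kap x.1))).toSubfield.toSubring.comap (th x.1) :=
      Subring.closure_le.2 fun a ha =>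
        IntermediateField.subset_adjoin _ _ (Finset.mem_coe.2 (Finset.mem_image_of_mem _ ha))
    exact h1 (hs.symm ▸ Subring.mem_top a)
  obtain ⟨n, a, -, b, -, -, rfl⟩ := th_gen x.1 z
  exact div_mem (key a) (key b)

theorem trdeg_eq_dm (x : Vp 𝒜 p) : Algebra.trdeg (ZMod p) (kap x.1) = dm x := by
  refine dimA_trdeg (Mp x).V_fg ((Mp x).mem_fam.2 ⟨ell x.1, trivial, (ell_spec _).1, th_ell _⟩)
    fun z => ?_
  obtain ⟨n, a, ha, b, hb, -, rfl⟩ := th_gen x.1 z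
  exact ⟨n, _, (Mp x).mem_pow.2 ⟨a, ha, rfl⟩, _, (Mp x).mem_pow.2 ⟨b, hb, rfl⟩, rfl⟩

theorem tr_eq_dm (x : Vp 𝒜 p) : tr x.1 = dm x := by
  rw [← trdeg_eq_dm]
  have hb := Subfield.bot_eq_of_zMod_algebra (K := kap x.1) p
  let f : ZMod p →+* (⊥ : Subfield (kap x.1)) :=
    (algebraMap (ZMod p) (kap x.1)).codRestrict _ fun c => hb ▸ ⟨c, rfl⟩
  have hf : Function.Surjective f := fun z => by
    obtain ⟨c, hc⟩ : z.1 ∈ (algebraMap (ZMod p) (kap x.1)).fieldRange := hb ▸ z.2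
    exact ⟨c, Subtype.ext hc⟩
  obtain ⟨t, ht⟩ := exists_isTranscendenceBasis (ZMod p) (kap x.1)
  obtain ⟨t', ht'⟩ := exists_isTranscendenceBasis (⊥ : Subfield (kap x.1)) (kap x.1)
  refine le_antisymm ?_ ?_
  · rw [tr, ← ht'.cardinalMk_eq_trdeg]
    exact (AlgebraicIndependent.of_ringHom_of_comp_eq f (RingHom.id _) ht'.1 f.injective
      (Subsingleton.elim _ _)).cardinalMk_le_trdeg
  · rw [← ht.cardinalMk_eq_trdeg]
    exact (ht.1.ringHom_of_comp_eq f (RingHom.id _) hf Function.injective_id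
      (Subsingleton.elim _ _)).cardinalMk_le_trdeg

theorem dm_lt {x y : Vp 𝒜 p} (h : pr x.1 < pr y.1) : dm y < dm x := by
  by_contra hc
  push Not at hc
  obtain ⟨e, f, hf, hfe, hfx⟩ := fibre_exists_hom (pr_hom y.1) h.not_ge
  have hf0 : th x.1 f ≠ 0 := fun h0 => hfx ((th_eq_zero x.1 hfe).1 h0)
  have hM := mdl_Mp x
  have hV := (Mp x).V_fg
  have h1 := Phi_pt h.le 1
  rw [map_one, Phi, hq_one hM ((Mp x).fg_fam _), PP, hq_one hM (fg_pw' hV)] at h1
  obtain ⟨h2, h3, -⟩ := PP_lead (mdl_Mp y) 1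
  set P := hp (pw (Mp x).V) with hP
  have h4 : P ∈ degreeLT ℚ (dm x + 1) := by
    rw [mem_degreeLT]
    exact degree_le_natDegree.trans_lt (by exact_mod_cast Nat.lt_succ_self _)
  have h5 := comp_sub_mem_degreeLT h4 (-(e : ℚ))
  have h6 : PP (Mp y).V 1 ∈ degreeLT ℚ (dm y + 1) := by
    rw [mem_degreeLT]
    exact degree_le_natDegree.trans_lt (by rw [h2]; exact_mod_cast Nat.lt_succ_self _)
  have h7 := coeff_nonneg_of_eventually (sub_mem (neg_mem (degreeLT_le (hc.trans (Nat.le_succ _))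
    h5)) h6) (by
      obtain ⟨n₀, hn₀⟩ := eventually_atTop.1 (hp_spec hV (fg_pw' hV))
      filter_upwards [hp_spec hV ((Mp x).fg_fam (pr y.1)), (Mp x).fg_fam (pr y.1),
        eventually_ge_atTop (n₀ + e)] with n h8 h9 hn
      have h10 := hn₀ (n - e) (by omega)
      rw [Nat.cast_sub (by omega)] at h10
      have : Module.Finite (ZMod p) ((Mp x).fam (pr y.1) n) := Module.Finite.iff_fg.2 h9.1
      have h11 : Module.finrank (ZMod p) ↥((Mp x).V ^ (n - e)) ≤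
          Module.finrank (ZMod p) ((Mp x).fam (pr y.1) n) := by
        refine LinearMap.finrank_le_finrank_of_injective
          (f := (LinearMap.mulLeft (ZMod p) (th x.1 f)).restrict fun z hz => ?_) fun z z' e' =>
            Subtype.ext (mul_left_cancel₀ hf0 (congrArg Subtype.val e'))
        obtain ⟨a, ha, rfl⟩ := (Mp x).mem_pow.1 hz
        refine (Mp x).mem_fam.2 ⟨f * a, Ideal.mul_mem_right _ _ hf, ?_, map_mul _ _ _⟩
        have := SetLike.mul_mem_graded hfe ha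
        rwa [show e + (n - e) = n by omega] at this
      rw [← h1]
      simp only [eval_sub, eval_neg, eval_comp, eval_add, eval_X, eval_C]
      rw [← sub_eq_add_neg, h8, h10]
      have h12 : (Module.finrank (ZMod p) ↥((Mp x).V ^ (n - e)) : ℚ) ≤
        Module.finrank (ZMod p) ((Mp x).fam (pr y.1) n) := by exact_mod_cast h11
      linarith)
  rw [coeff_sub, coeff_neg, coeff_eq_zero_of_mem_degreeLT h5 hc] at h7
  linarith

theorem dim_eq_zero_of_pow_dvd {q : ℕ} (hq : q.Prime) {a : ℤ} (h : ∀ n, (q : ℤ) ^ n ∣ a) :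
    a = 0 := by
  refine _root_.Int.eq_zero_of_abs_lt_dvd (h a.natAbs) ?_
  rw [_root_.Int.abs_eq_natAbs]
  exact_mod_cast Nat.lt_pow_self hq.one_lt

theorem dm_le_of_horiz {W : Pt 𝒜} (hW : CharZero (kap W)) {r : ℕ} (h : tr W = r) (y : Vp 𝒜 p)
    (hy : pr W ≤ pr y.1) : dm y ≤ r := by
  obtain ⟨t, ht⟩ := exists_isTranscendenceBasis (ZMod p) (kap y.1)
  have hon : (MZ W).On y.1 := on_MZ.2 hy
  set S := (MZ W).sp y hon
  have hw : ∀ i : t, ∃ w : S.O, S.φ w = i := fun i => by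
    obtain ⟨n, a, ha, b, hb, hby, e⟩ := th_gen y.1 i
    have h1 : (MZ W).θ a / (MZ W).θ b ∈ S.O := by
      rw [AM.sp_O]
      exact (MZ W).div_mem_fr (T := (pr y.1).primeCompl) ha hb hby
    exact ⟨⟨_, h1⟩, by rw [← S.ev_of_mem h1, e]; exact (MZ W).sp_ev y hon ha hb hby⟩
  choose w hw using hw
  have hp0 : (p : ℤ) ≠ 0 := by exact_mod_cast (Fact.out : p.Prime).ne_zero
  have key : ∀ (n : ℕ) (P : MvPolynomial t ℤ), MvPolynomial.aeval w P = 0 →
      ∀ m, (p : ℤ) ^ n ∣ P.coeff m := by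
    intro n
    induction n with
    | zero => simp
    | succ n ih =>
      intro P hP m
      obtain ⟨Q, rfl⟩ : MvPolynomial.C (p : ℤ) ∣ P := by
        rw [MvPolynomial.C_dvd_iff_zmod]
        refine algebraicIndependent_iff.1 ht.1 _ ?_
        have h1 := congrArg S.φ hP
        rw [map_zero, MvPolynomial.map_aeval] at h1
        rw [MvPolynomial.aeval_def, MvPolynomial.eval₂_map, ← h1, MvPolynomial.coe_eval₂Hom]
        congr 1
        · exact Subsingleton.elim _ _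
        · exact funext fun i => (hw i).symm
      rw [map_mul, MvPolynomial.aeval_C, mul_eq_zero] at hP
      rw [MvPolynomial.coeff_C_mul, pow_succ']
      exact mul_dvd_mul_left _ (ih Q (hP.resolve_left (by simpa using hp0)) m)
  have h1 : AlgebraicIndependent ℤ w := algebraicIndependent_iff.2 fun P hP =>
    MvPolynomial.ext _ _ fun m => dim_eq_zero_of_pow_dvd (Fact.out : p.Prime) (key · P hP m)
  have h2 := h1.map' (f := S.O.subtype.toIntAlgHom) Subtype.val_injective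
  have : Algebra.IsAlgebraic ℤ (⊥ : Subfield (kap W)) := ⟨fun z => by
    obtain ⟨c, hc⟩ : z.1 ∈ (algebraMap ℚ (kap W)).fieldRange :=
      Subfield.bot_eq_of_charZero (K := kap W) ▸ z.2
    have e : z = algebraMap ℚ _ c := Subtype.ext (by rw [← hc]; simp)
    rw [e]
    exact (IsLocalization.isAlgebraic ℚ (nonZeroDivisors ℤ)).1 c |>.algebraMap⟩
  have h3 := (h2.extendScalars (⊥ : Subfield (kap W))).cardinalMk_le_trdeg
  rw [ht.cardinalMk_eq_trdeg, trdeg_eq_dm, ← tr, h] at h3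
  exact_mod_cast h3

theorem lev_Phi (x : Vp 𝒜 p) {𝔞 : Ideal A} (h : 𝔞.IsHomogeneous 𝒜) {s : ℕ}
    (hs : ∀ y : Vp 𝒜 p, pr x.1 ≤ pr y.1 → 𝔞 ≤ pr y.1 → dm y < s) : Lev s (Phi x 𝔞) := by
  have h' := h.sup (pr_hom x.1)
  obtain ⟨l, hl⟩ := exists_filt h'
  rw [← Phi_sup x h, funext (Phi_filt x h' le_sup_right hl)]
  refine Lev.list_sum l (fun q D => (Phi x q.1 D).comp (X - C (q.2 : ℚ))) fun q hq =>
    Lev.shift ?_ _
  obtain ⟨h1, h2, h3⟩ := hl.mem h' q hq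
  rcases exists_pt h1 h2 with h4 | ⟨y, hy⟩
  · rw [Phi_irrelevant x h2 fun y _ hy => (ell_spec y).2 (hy (h4 _ (ell_spec y).1))]
    exact lev_zero_fun
  · rw [← hy] at h3 ⊢
    have h5 : pr x.1 ≤ pr y := le_sup_right.trans h3
    obtain ⟨y, rfl⟩ : ∃ y' : Vp 𝒜 p, y'.1 = y := ⟨⟨y, h5 x.2⟩, rfl⟩
    rw [funext (Phi_pt h5)]
    exact ((snapper (mdl_Mp y)).mono (hs y h5 (le_sup_left.trans h3))).comp _

/-- a prime Cartier divisor has codimension one -/
theorem dm_div {x y : Vp 𝒜 p} (h : pr x.1 ≤ pr y.1) {D : Car (Mp x).V}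
    (hD : IsCl D ((Mp x).fam (pr y.1))) : dm y + 1 = dm x := by
  have hM := mdl_Mp x
  have h1 : dm y < dm x := by
    refine dm_lt (lt_of_le_of_ne h fun e => ?_)
    obtain ⟨n, hn⟩ := (hD.rep hM).exists
    refine hn.ne_bot hM ((Submodule.eq_bot_iff _).2 fun z hz => ?_)
    obtain ⟨a, ha, han, rfl⟩ := (Mp x).mem_fam.1 hz
    exact (th_eq_zero x.1 han).2 (e ▸ ha)
  by_contra hc
  have h2 : dl (cl D) (PP (Mp x).V) = fun E => -PP (Mp y).V ((Mp x).rho y E) := funext fun E => by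
    rw [← Phi_pt h, Phi_isCl x hD, neg_neg]
  have h3 : Lev (dm x - 2 + 1) (dl (cl D) (PP (Mp x).V)) := by
    rw [h2]
    exact (((snapper (mdl_Mp y)).mono (show dm y + 1 ≤ dm x - 2 + 1 by omega)).comp _).neg
  have h4 : NT (Mp x).V (cl D) := ⟨fun _ => coeff_eq_zero_of_mem_degreeLT (h3.mem 1)
    (show dm x - 2 + 1 ≤ dm x - 1 by omega), fun _ => lin_eq_zero h3 _⟩
  have h5 := congrFun h2 1
  rw [dl, (numtriv hM h4).1, sub_self, eq_comm, neg_eq_zero] at h5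
  have h6 := (PP_lead (mdl_Mp y) ((Mp x).rho y 1)).2.1
  rw [h5, coeff_zero] at h6
  exact lt_irrefl _ h6

omit hG in
theorem dim_exists_prime {k K : Type} [CommRing k] [Field K] [Algebra k K] (M : AM 𝒜 k K)
    {y z : Pt 𝒜} (hy : M.On y) (hz : M.On z) (hzy : pr z ≤ pr y)
    (hufd : UniqueFactorizationMonoid (M.orng y)) {l : A} (hl1 : l ∈ 𝒜 1) (hl2 : l ∉ pr y)
    {e : ℕ} {f : A} (hf : f ∈ pr z) (hfe : f ∈ 𝒜 e) (hf0 : M.θ f ≠ 0) :
    ∃ y' : Pt 𝒜, M.On y' ∧ pr y' ≤ pr z ∧ ∃ n g, M.GenI (pr y') y n g := by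
  have := M.orng_local hz
  have hne : ∀ n, ∀ b ∈ 𝒜 n, b ∈ (pr y).primeCompl → M.θ b ≠ 0 := fun n b hb hby h0 =>
    hby (hy n b hb h0)
  have hl : ∀ n, l ^ n ∈ 𝒜 n := md_pow_mem hl1
  have hl' : ∀ n, l ^ n ∉ pr y := md_pow_not_mem hl2
  obtain ⟨P, hPp, hP⟩ : ∃ P : Ideal (M.orng y), P.IsPrime ∧
      ∀ n a b (ha : a ∈ 𝒜 n) (hb : b ∈ 𝒜 n) (hby : b ∉ pr y),
      (⟨_, M.div_mem_fr (T := (pr y).primeCompl) ha hb hby⟩ : M.orng y) ∈ P ↔ a ∈ pr z := by
    refine ⟨(IsLocalRing.maximalIdeal (M.orng z)).comap (Subring.inclusion (M.orng_anti hzy)),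
      Ideal.comap_isPrime _ _, fun n a b ha hb hby => ?_⟩
    have e : Subring.inclusion (M.orng_anti hzy)
        ⟨_, M.div_mem_fr (T := (pr y).primeCompl) ha hb hby⟩ =
        ⟨_, M.div_mem_fr (T := (pr z).primeCompl) ha hb fun h => hby (hzy h)⟩ :=
      Subtype.ext (Subring.coe_inclusion _ _)
    rw [Ideal.mem_comap, e, IsLocalRing.mem_maximalIdeal, mem_nonunits_iff,
      M.isUnit_orng hz ha hb fun h => hby (hzy h), not_not]
  have hP0 : P ≠ ⊥ := fun h0 => by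
    have h1 := (hP e f _ hfe (hl e) (hl' e)).2 hf
    rw [h0, Ideal.mem_bot, Subtype.ext_iff] at h1
    exact (div_eq_zero_iff.1 h1).elim hf0 (hne e _ (hl e) (hl' e))
  obtain ⟨⟨π, hπO⟩, hπP, hπ⟩ := hPp.exists_mem_prime_of_ne_bot hP0
  obtain ⟨n, a, ha, b, hb, hby, rfl⟩ := (M.mem_orng hy).1 hπO
  have ha0 : M.θ a ≠ 0 := fun h0 => hπ.ne_zero (Subtype.ext (by simp [h0]))
  obtain ⟨y', hy', -, hQ⟩ := M.exists_pt_of_prime hne one_pos hl1 hl2
    _ ((Ideal.span_singleton_prime hπ.ne_zero).2 hπ)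
  refine ⟨y', hy', fibre_le_of_hom (pr_hom y') fun m c hc hcm =>
    (hP m c _ hcm (hl m) (hl' m)).1 ((Ideal.span_singleton_le_iff_mem P).2 hπP
      ((hQ m c _ hcm (hl m) (hl' m)).2 hc)), n, a,
    (hQ n a b ha hb hby).1 (Ideal.mem_span_singleton_self _), ha, ha0, fun m c hc hcm => ?_⟩
  obtain ⟨⟨q, hq⟩, e1⟩ := Ideal.mem_span_singleton'.1 ((hQ m c _ hcm (hl m) (hl' m)).2 hc)
  obtain ⟨i, u, hu, v, hv, hvy, rfl⟩ := (M.mem_orng hy).1 hq
  refine ⟨i + n, i + m, v * b, SetLike.mul_mem_graded hv hb, u * l ^ m,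
    SetLike.mul_mem_graded hu (hl m), md_mul_not_mem hvy hby, by omega, ?_⟩
  have e2 : M.θ u / M.θ v * (M.θ a / M.θ b) = M.θ c / M.θ (l ^ m) := congrArg Subtype.val e1
  have h6 := hne _ _ hv hvy
  have h7 := hne _ _ hb hby
  have h8 := hne _ _ (hl m) (hl' m)
  simp only [map_mul]
  field_simp at e2
  linear_combination -e2

/-- on a locally factorial variety, subvarieties of codimension one are Cartier divisors -/
theorem lp_div {x z : Vp 𝒜 p} (h : pr x.1 ≤ pr z.1) (hd : dm z + 1 = dm x)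
    (hufd : ∀ y : Pt 𝒜, pr x.1 ≤ pr y → UniqueFactorizationMonoid ((Mp x).orng y)) :
    (Mp x).LP (pr z.1) := by
  intro y hy
  have hxy : pr x.1 ≤ pr y := on_Mp.1 hy
  by_cases hzy : pr z.1 ≤ pr y
  swap
  · obtain ⟨n, a, ha, han, hay⟩ := fibre_exists_hom (pr_hom z.1) hzy
    exact ⟨n, a, (Mp x).genI_of_not_mem hy ha han hay⟩
  have hxz : ¬pr z.1 ≤ pr x.1 := fun h' => by
    have : x = z := Subtype.ext (pr_inj (le_antisymm h h'))
    subst this
    omega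
  obtain ⟨e, f, hf, hfe, hfx⟩ := fibre_exists_hom (pr_hom z.1) hxz
  obtain ⟨y', hy', h1, n, g, hg⟩ := dim_exists_prime (Mp x) hy (on_Mp.2 h) hzy (hufd y hxy)
    (ell_spec y).1 (ell_spec y).2 hf hfe fun h0 => hfx ((th_eq_zero x.1 hfe).1 h0)
  have h2 : pr x.1 < pr y' := lt_of_le_of_ne (on_Mp.1 hy') fun e' =>
    hg.2.2.1 ((th_eq_zero x.1 hg.2.1).2 (e'.ge hg.1))
  obtain ⟨y', rfl⟩ : ∃ w : Vp 𝒜 p, w.1 = y' := ⟨⟨y', h2.le x.2⟩, rfl⟩
  have h3 : pr y'.1 = pr z.1 := by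
    by_contra hc
    have h4 := dm_lt (lt_of_le_of_ne h1 hc)
    have h5 := dm_lt h2
    omega
  rw [← h3]
  exact ⟨n, g, hg⟩

end

end Pool.Agent.Lib.MP_62d77c_ag
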