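import Pool.Agent.Lib.MP_62d77c_ag.Step
import Pool.Agent.Lib.MP_62d77c_ag.Dim

/-! Classes orthogonal to all fibral surfaces. -/

set_option autoImplicit false

namespace Pool.Agent.Lib.MP_62d77c_ag

open Filter Polynomial Submodule

noncomputable section

variable {A : Type} [CommRing A] [IsDomain A] {𝒜 : ℕ → AddSubgroup A} [GradedRing 𝒜]
  [hG : Fact (Gen 𝒜)] {p : ℕ} [Fact p.Prime]

variable {m : Comp 𝒜 p → ℕ} {I : Comp 𝒜 p → Car (MX 𝒜).V}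

/-- the conormal class of a component -/
def CC (I : Comp 𝒜 p → Car (MX 𝒜).V) (j : Comp 𝒜 p) : Pic (Mp j.1).V :=
  (MX 𝒜).rho j.1 (cl (I j))

theorem Fib.cls (h : Fib m I) (j : Comp 𝒜 p) : Nonempty (Cls j.1 (CC I j)) :=
  exists_cls j.1 (h.lp j) (h.isCl j)

theorem span_PV_zero (j : Vp 𝒜 p) (C : Pic (Mp j).V) {𝔮 : Ideal A} (h : 𝔮.IsHomogeneous 𝒜)
    (hn : ∀ y : Pt 𝒜, pr j.1 ≤ pr y → ¬𝔮 ≤ pr y) : PV j C 𝔮 = 0 := by
  funext E
  simp [PV, Phi_irrelevant j h hn]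

theorem lev_PV_vert (j : Comp 𝒜 p) (C : Pic (Mp j.1).V) (w : Vp 𝒜 p) :
    Lev (dm w) (PV j.1 C (pr w.1)) := by
  by_cases hle : pr j.1.1 ≤ pr w.1
  · have e : PV j.1 C (pr w.1) = fun E =>
        -(dl C (fun D => PP (Mp w).V ((Mp j.1).rho w D)) E) := by
      funext E
      simp only [PV, if_pos hle, Phi_pt hle, dl]
      ring
    rw [e]
    exact (((snapper (mdl_Mp w)).comp _).dl C).neg
  · have e : PV j.1 C (pr w.1) = Phi j.1 (pr w.1) := by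
      funext E
      simp only [PV, if_neg hle, sub_zero]
    rw [e]
    refine lev_Phi _ (pr_hom _) fun y h1 h2 => dm_lt (lt_of_le_of_ne h2 fun h => hle ?_)
    rw [h]; exact h1

theorem span_PV_horiz (j : Comp 𝒜 p) (C : Pic (Mp j.1).V) {W : Pt 𝒜} (hW : CharZero (kap W)) :
    PV j.1 C (pr W) = Phi j.1 (pr W) := by
  have hle : ¬pr j.1.1 ≤ pr W := fun h =>
    not_charZero_of_mem W (Fact.out : p.Prime).ne_zero (h j.1.2) hW
  funext E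
  simp only [PV, if_neg hle, sub_zero]

theorem lev_PV_horiz (j : Comp 𝒜 p) (C : Pic (Mp j.1).V) {W : Pt 𝒜} (hW : CharZero (kap W))
    (h : tr W = 1) : Lev 2 (PV j.1 C (pr W)) := by
  rw [span_PV_horiz j C hW]
  refine lev_Phi _ (pr_hom _) fun y _ h2 => ?_
  have := dm_le_of_horiz hW (r := 1) (by rw [h, Nat.cast_one]) y h2
  omega

theorem PV_horiz (j : Comp 𝒜 p) (C : Pic (Mp j.1).V) {W : Pt 𝒜} (hW : CharZero (kap W)) :
    PV j.1 C (pr W) = Phi j.1 (pr W) := span_PV_horiz j C hW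

theorem PV_other (j : Comp 𝒜 p) (C : Pic (Mp j.1).V) {W : Pt 𝒜} {q : ℕ} (hq : q.Prime)
    (hne : q ≠ p) (hW : (q : A) ∈ pr W) : PV j.1 C (pr W) = 0 := by
  refine span_PV_zero j.1 C (pr_hom W) fun y h1 h2 => ?_
  have hc : IsCoprime (q : ℤ) (p : ℤ) :=
    Nat.isCoprime_iff_coprime.2 ((Nat.coprime_primes hq Fact.out).2 hne)
  obtain ⟨a, b, hab⟩ := hc
  have h3 : ((a * q + b * p : ℤ) : A) ∈ pr y := by
    push_cast
    exact add_mem (Ideal.mul_mem_left _ _ (h2 hW)) (Ideal.mul_mem_left _ _ (h1 j.1.2))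
  rw [hab, Int.cast_one] at h3
  exact y.isPrime.ne_top ((Ideal.eq_top_iff_one _).2 h3)

theorem Fib.dm_edge (h : Fib m I) {d : ℕ} (hd : ∀ j : Comp 𝒜 p, dm j.1 = d) (S : Edge 𝒜 p) :
    dm S.1 + 1 = d := by
  have hle : cI (ea S) ≤ pr S.1.1 := (h.inc S _).2 (Or.inl rfl)
  obtain ⟨D, hD⟩ := AM.LP.exists_isCl _ (h.lp_edge S hle) (on_Mp.2 hle)
  rw [← hd (ea S)]
  exact dm_div hle hD

theorem span_lin_zero {G : Type} [CommGroup G] (s : ℕ) (D : G) :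
    lin s (fun _ : G => (0 : ℚ[X])) D = 0 := by
  simp [lin, dl]

theorem span_filt {z : ∀ j : Comp 𝒜 p, Pic (Mp j.1).V} {s : ℕ}
    (ih : ∀ w : Vp 𝒜 p, dm w ≤ s + 2 →
      ∑ j : Comp 𝒜 p, lin s (PV j.1 (CC I j) (pr w.1)) (z j) = 0)
    (l : List (Ideal A × ℕ))
    (hl : ∀ q ∈ l, q.1.IsPrime ∧ q.1.IsHomogeneous 𝒜 ∧ (p : A) ∈ q.1 ∧
      ∀ y : Vp 𝒜 p, pr y.1 = q.1 → dm y ≤ s + 2) :
    ∑ j : Comp 𝒜 p, lin s (fun E => (l.map fun q =>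
      (PV j.1 (CC I j) q.1 E).comp (X - Polynomial.C (q.2 : ℚ))).sum) (z j) = 0 := by
  induction l with
  | nil => simp [span_lin_zero]
  | cons q l ihl =>
    simp only [List.map_cons, List.sum_cons, lin_add, Finset.sum_add_distrib]
    rw [ihl fun q' hq' => hl q' (List.mem_cons_of_mem _ hq'), add_zero]
    obtain ⟨h1, h2, h3, h4⟩ := hl q List.mem_cons_self
    rcases exists_pt h1 h2 with hirr | ⟨y, hy⟩
    · refine Finset.sum_eq_zero fun j _ => ?_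
      rw [span_PV_zero j.1 _ h2 fun y _ hy => (ell_spec y).2 (hy (hirr _ (ell_spec y).1))]
      simp [span_lin_zero]
    · obtain ⟨w, hw⟩ : ∃ w : Vp 𝒜 p, pr w.1 = q.1 := ⟨⟨y, hy ▸ h3⟩, hy⟩
      have hd := h4 w hw
      rw [← ih w hd]
      refine Finset.sum_congr rfl fun j _ => ?_
      rw [← hw]
      exact lin_shift ((lev_PV_vert j _ w).mono hd) _ _

omit [IsDomain A] hG [Fact p.Prime] in
theorem span_hom_single {f : A} {e : ℕ} (hf : f ∈ 𝒜 e) : (Ideal.span {f}).IsHomogeneous 𝒜 :=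
  Ideal.homogeneous_span 𝒜 _ fun x hx => ⟨e, by rw [Set.mem_singleton_iff.1 hx]; exact hf⟩

/-- cutting with hypersurfaces -/
theorem span_prime (h : Fib m I) (z : ∀ j : Comp 𝒜 p, Pic (Mp j.1).V)
    (hz : ∀ W : Vp 𝒜 p, dm W = 2 → ∑ j : Comp 𝒜 p, Psi j.1 (CC I j) (pr W.1) (z j) = 0) (s : ℕ)
    (w : Vp 𝒜 p)
    (hw : dm w ≤ s + 2) : ∑ j : Comp 𝒜 p, lin s (PV j.1 (CC I j) (pr w.1)) (z j) = 0 := by
  induction s generalizing w with
  | zero =>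
    by_cases h2 : dm w = 2
    · have := hz w h2
      simpa only [Psi, Finset.sum_neg_distrib, neg_eq_zero] using this
    · exact Finset.sum_eq_zero fun j _ =>
        lin_eq_zero ((lev_PV_vert j _ w).mono (by omega)) _
  | succ s ih =>
    obtain ⟨hf, hn⟩ := ell_spec w.1
    have hh : (pr w.1 ⊔ Ideal.span {ell w.1}).IsHomogeneous 𝒜 :=
      (pr_hom w.1).sup (span_hom_single hf)
    obtain ⟨l, hl⟩ := exists_filt hh
    have key := span_filt ih l fun q hq => by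
      obtain ⟨h1, h2, h3⟩ := hl.mem hh q hq
      refine ⟨h1, h2, h3 (Ideal.mem_sup_left w.2), fun y hy => ?_⟩
      have : dm y < dm w := by
        refine dm_lt (lt_of_le_of_ne (hy ▸ le_sup_left.trans h3) fun e => hn ?_)
        rw [e, hy]
        exact h3 (Ideal.mem_sup_right (Ideal.mem_span_singleton_self _))
      omega
    have e : ∀ j : Comp 𝒜 p, lin s (fun E => (l.map fun q =>
        (PV j.1 (CC I j) q.1 E).comp (X - Polynomial.C (q.2 : ℚ))).sum) (z j) =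
        (s + 1) * lin (s + 1) (PV j.1 (CC I j) (pr w.1)) (z j) := by
      intro j
      obtain ⟨c⟩ := h.cls j
      have e1 := lin_sub_shift ((lev_PV_vert j (CC I j) w).mono (show dm w ≤ s + 3 by omega))
        ((1 : ℕ) : ℚ) (z j)
      simp only [PV_cut c w.1.isPrime (pr_hom w.1) hf hn hl] at e1
      rw [e1]; simp
    rw [Finset.sum_congr rfl fun j _ => e j, ← Finset.mul_sum] at key
    exact (mul_eq_zero.1 key).resolve_left (by positivity)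

omit [IsDomain A] hG [Fact p.Prime] in
theorem span_hom_sup {J J' : Ideal A} (hJ : J.IsHomogeneous 𝒜) (hJ' : J'.IsHomogeneous 𝒜) {n : ℕ}
    {a : A} (ha : a ∈ J ⊔ J') (hn : a ∈ 𝒜 n) :
    ∃ u ∈ J, ∃ w ∈ J', u ∈ 𝒜 n ∧ w ∈ 𝒜 n ∧ a = u + w := by
  obtain ⟨u, hu, w, hw, rfl⟩ := Submodule.mem_sup.1 ha
  refine ⟨DirectSum.decompose 𝒜 u n, hJ n hu, DirectSum.decompose 𝒜 w n, hJ' n hw,
    SetLike.coe_mem _, SetLike.coe_mem _, ?_⟩
  rw [← DirectSum.decompose_of_mem_same 𝒜 hn, DirectSum.decompose_add]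
  rfl

/-- the local structure of a double intersection -/
theorem Fib.span_strat (h : Fib m I) {j k : Comp 𝒜 p} (hjk : j ≠ k) (y : Vp 𝒜 p)
    (hj : cI j ≤ pr y.1) (hk : cI k ≤ pr y.1) :
    ∃ S : Edge 𝒜 p, pr S.1.1 ≤ pr y.1 ∧ MinOver S.1 {j, k} ∧ ∀ n, ∀ a ∈ pr S.1.1, a ∈ 𝒜 n →
      ∃ l, ∃ b ∈ 𝒜 l, b ∉ pr y.1 ∧ b * a ∈ cI j ⊔ cI k := by
  obtain ⟨T, h1, h2, h3⟩ := h.strat {j, k} y ⟨j, Or.inl rfl⟩ (by
    rintro i (rfl | rfl)
    exacts [hj, hk])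
  refine ⟨⟨T, j, k, hjk, h2⟩, h1, h2, fun n a ha hn => ?_⟩
  obtain ⟨l, b, hb, hb', hba⟩ := h3 n a ha hn
  exact ⟨l, b, hb, hb', by rwa [iSup_pair] at hba⟩

theorem Fib.span_edges (h : Fib m I) {j k : Comp 𝒜 p} (hjk : j ≠ k) (t : Finset (Edge 𝒜 p))
    (ht : ∀ S, S ∈ t ↔ MinOver S.1 {j, k}) {𝔞 : Ideal A} (hh : 𝔞.IsHomogeneous 𝒜)
    (hk : cI k ≤ 𝔞) (E : Pic (Mp j.1).V) :
    Phi j.1 𝔞 E = ∑ S ∈ t, Phi S.1 𝔞 ((Mp j.1).rho S.1 E) := by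
  rw [Phi_crt j.1 t (𝔟 := fun S => 𝔞 ⊔ pr S.1.1) hh
    (fun S _ => ⟨hh.sup (pr_hom _), le_sup_left⟩)]
  · refine Finset.sum_congr rfl fun S hS => ?_
    rw [Phi_bridge (((ht S).1 hS).1 j (Or.inl rfl)) le_sup_right, Phi_sup _ hh]
  · intro y hy S hS T hT h1 h2
    exact Subtype.ext (h.minOver_unique ⟨j, Or.inl rfl⟩ (y := ⟨y, hy j.1.2⟩) ((ht S).1 hS)
      ((ht T).1 hT) (le_sup_right.trans h1) (le_sup_right.trans h2))
  · intro y hy hy'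
    obtain ⟨S, -, h2, h3⟩ := h.span_strat hjk ⟨y, hy j.1.2⟩ hy (hk.trans hy')
    refine ⟨S, (ht S).2 h2, fun n a ha hn => ?_⟩
    obtain ⟨u, hu, w, hw, -, hw', rfl⟩ := span_hom_sup hh (pr_hom _) ha hn
    obtain ⟨l, b, hb, hb', hbw⟩ := h3 n w hw hw'
    refine ⟨l, b, hb, hb', ?_⟩
    rw [mul_add]
    refine add_mem (Ideal.mem_sup_left (Ideal.mul_mem_left _ _ hu)) ?_
    exact (sup_le le_sup_right (hk.trans le_sup_left) : cI j ⊔ cI k ≤ 𝔞 ⊔ pr j.1.1) hbw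

omit [IsDomain A] hG [Fact p.Prime] in
theorem span_exists_hom {J : Ideal A} (hJ : J.IsHomogeneous 𝒜) {P : Ideal A} (h : ¬J ≤ P) :
    ∃ n, ∃ b ∈ J, b ∈ 𝒜 n ∧ b ∉ P := by
  classical
  by_contra hc
  push Not at hc
  refine h fun a ha => ?_
  rw [← DirectSum.sum_support_decompose 𝒜 a]
  exact Ideal.sum_mem _ fun n _ => hc n _ (hJ n ha) (SetLike.coe_mem _)

theorem Fib.span_torFree (h : Fib m I) {j k : Comp 𝒜 p} (hjk : j ≠ k) {𝔞 : Ideal A}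
    (hh : 𝔞.IsHomogeneous 𝒜) (hk : cI k ≤ 𝔞) (hlp : (Mp k.1).LP 𝔞)
    (hav : ∀ S : Edge 𝒜 p, cI k ≤ pr S.1.1 → ¬𝔞 ≤ pr S.1.1) : TorFree 𝒜 (cI j) 𝔞 := by
  intro y n c hc hc' hcn
  by_cases hj : cI j ≤ pr y
  swap
  · obtain ⟨l, b, hb, hb', hn⟩ := span_exists_hom (pr_hom j.1.1) hj
    exact ⟨l, b, hb', hn, by rw [mul_comm b]; exact Ideal.mul_mem_mul hc hb⟩
  by_cases ha : 𝔞 ≤ pr y
  swap
  · obtain ⟨l, b, hb, hb', hn⟩ := span_exists_hom hh ha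
    exact ⟨l, b, hb', hn, Ideal.mul_mem_mul hb hc'⟩
  have hky : cI k ≤ pr y := hk.trans ha
  obtain ⟨S, hS1, hS2, hS3⟩ := h.span_strat hjk ⟨y, hj j.1.2⟩ hj hky
  have hjS : cI j ≤ pr S.1.1 := hS2.1 j (Or.inl rfl)
  have hkS : cI k ≤ pr S.1.1 := hS2.1 k (Or.inr rfl)
  obtain ⟨e, t, ht⟩ := h.lp j y (on_MX y)
  obtain ⟨e', g, hg⟩ := hlp y (on_Mp.2 hky)
  have inj : Function.Injective (MX 𝒜).θ := IsFractionRing.injective A (FractionRing A)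
  have htk : t ∉ cI k := AM.GenI.not_mem _ (pr_hom j.1.1) (on_MX _) (AM.GenI.mono _ ht hky)
    fun hle => hjk (cI_le_iff.1 hle)
  have hgS : g ∉ pr S.1.1 := AM.GenI.not_mem _ hh (on_Mp.2 hkS) (AM.GenI.mono _ hg hS1)
    (hav S hkS)
  obtain ⟨m₁, l₁, b₁, hb₁, c₁, hc₁, hn₁, hd₁, e₁⟩ := ht.2.2.2 n c hc' hcn
  have e₁ := inj e₁
  have hct : c₁ * t ∈ 𝔞 := e₁ ▸ Ideal.mul_mem_left _ _ hc
  obtain ⟨m₂, l₂, b₂, hb₂, c₂, hc₂, hn₂, hd₂, e₂⟩ :=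
    hg.2.2.2 (l₁ + e) (c₁ * t) hct (SetLike.mul_mem_graded hc₁ ht.2.1)
  have e₂ : b₂ * (c₁ * t) - c₂ * g ∈ cI k := by
    refine (th_eq_zero k.1.1 (n := l₂ + e') (sub_mem ?_ (SetLike.mul_mem_graded hc₂ hg.2.1))).1 ?_
    · rw [← hd₂]
      exact SetLike.mul_mem_graded hb₂ (SetLike.mul_mem_graded hc₁ ht.2.1)
    · rw [map_sub]
      exact sub_eq_zero.2 e₂
  have hc₂S : c₂ ∈ pr S.1.1 := by
    have : c₂ * g ∈ pr S.1.1 := by
      have h1 : b₂ * (c₁ * t) ∈ pr S.1.1 :=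
        Ideal.mul_mem_left _ _ (Ideal.mul_mem_left _ _ (hjS ht.1))
      simpa using sub_mem h1 (hkS e₂)
    exact (S.1.1.isPrime.mem_or_mem this).resolve_right hgS
  obtain ⟨m₃, b₃, hb₃, hn₃, h₃⟩ := hS3 l₂ c₂ hc₂S hc₂
  obtain ⟨u, hu, w, hw, hu', -, e₃⟩ := span_hom_sup (pr_hom j.1.1) (pr_hom k.1.1) h₃
    (SetLike.mul_mem_graded hb₃ hc₂)
  obtain ⟨m₄, l₄, b₄, hb₄, c₄, -, hn₄, -, e₄⟩ := ht.2.2.2 _ u hu hu'
  have e₄ := inj e₄
  have key : (b₄ * b₃ * b₂ * c₁ - c₄ * g) * t ∈ cI k := by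
    have : (b₄ * b₃ * b₂ * c₁ - c₄ * g) * t =
        b₄ * b₃ * (b₂ * (c₁ * t) - c₂ * g) + b₄ * g * w := by
      linear_combination (b₄ * g) * e₃ + g * e₄
    rw [this]
    exact add_mem (Ideal.mul_mem_left _ _ e₂) (Ideal.mul_mem_left _ _ hw)
  have key : b₄ * b₃ * b₂ * c₁ ∈ 𝔞 := by
    have h1 := hk ((k.1.1.isPrime.mem_or_mem key).resolve_right htk)
    simpa using add_mem h1 (Ideal.mul_mem_left _ c₄ hg.1)
  refine ⟨m₄ + m₃ + m₂ + m₁, b₄ * b₃ * b₂ * b₁, SetLike.mul_mem_graded (SetLike.mul_mem_graded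
    (SetLike.mul_mem_graded hb₄ hb₃) hb₂) hb₁, fun hm => ?_, ?_⟩
  · rcases y.isPrime.mem_or_mem hm with hm | hm
    · rcases y.isPrime.mem_or_mem hm with hm | hm
      · rcases y.isPrime.mem_or_mem hm with hm | hm
        exacts [hn₄ hm, hn₃ hm]
      · exact hn₂ hm
    · exact hn₁ hm
  · have : b₄ * b₃ * b₂ * b₁ * c = b₄ * b₃ * b₂ * c₁ * t := by
      linear_combination (b₄ * b₃ * b₂) * e₁
    rw [this]
    exact Ideal.mul_mem_mul key ht.1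

/-- the restriction of another component is the sum of the edges -/
theorem Fib.span_dl_I (h : Fib m I) {j k : Comp 𝒜 p} (hjk : j ≠ k) (t : Finset (Edge 𝒜 p))
    (ht : ∀ S, S ∈ t ↔ MinOver S.1 {j, k}) :
    dl ((MX 𝒜).rho k.1 (cl (I j))) (PP (Mp k.1).V) =
      fun E => -∑ S ∈ t, PP (Mp S.1).V ((Mp k.1).rho S.1 E) := by
  funext E
  obtain ⟨D, hD, e⟩ := AM.rho_isCl (MX 𝒜) (y := k.1) (on_MX _) (pr_hom j.1.1) (h.isCl j)
    fun hle => hjk (cI_le_iff.1 hle)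
  have e1 := Phi_isCl k.1 hD E
  rw [h.span_edges hjk.symm t (fun S => by rw [ht, Set.pair_comm]) (pr_hom j.1.1) le_rfl] at e1
  rw [e, ← neg_neg (dl _ _ E), ← e1]
  congr 1
  refine Finset.sum_congr rfl fun S hS => ?_
  rw [← Phi_sup _ (pr_hom j.1.1), sup_eq_right.2 (((ht S).1 hS).1 j (Or.inl rfl)), Phi_self]

theorem span_lin_prod {G α : Type} [CommGroup G] {f : G → ℚ[X]} {s : ℕ} (h : Lev (s + 2) f)
    (t : Finset α) (D : α → G) : lin s f (∏ a ∈ t, D a) = ∑ a ∈ t, lin s f (D a) := by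
  classical
  induction t using Finset.induction_on with
  | empty => simp [lin_one]
  | insert a t ha ih => rw [Finset.prod_insert ha, Finset.sum_insert ha, lin_mul h, ih]

theorem span_K_ideal [DecidableEq (Comp 𝒜 p)] (h : Fib m I) {s : ℕ}
    (hd : ∀ j : Comp 𝒜 p, dm j.1 = s + 3) (z : ∀ j : Comp 𝒜 p, Pic (Mp j.1).V)
    (hz : ∀ W : Vp 𝒜 p, dm W = 2 → ∑ j : Comp 𝒜 p, Psi j.1 (CC I j) (pr W.1) (z j) = 0)
    (k : Comp 𝒜 p) {𝔞 : Ideal A} {D : Car (Mp k.1).V} (hh : 𝔞.IsHomogeneous 𝒜) (hk : cI k ≤ 𝔞)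
    (hD : IsCl D ((Mp k.1).fam 𝔞)) (hlp : (Mp k.1).LP 𝔞) (hk' : ¬𝔞 ≤ cI k)
    (hav : ∀ S : Edge 𝒜 p, cI k ≤ pr S.1.1 → ¬𝔞 ≤ pr S.1.1) :
    ∑ j : Comp 𝒜 p with j ≠ k, ∑ S : Edge 𝒜 p with (j = ea S ∨ j = eb S) ∧ (k = ea S ∨ k = eb S),
      (i2 (Mp S.1).V (s + 2) ((Mp j.1).rho S.1 (z j)) ((Mp k.1).rho S.1 (cl D)) -
        (m j / m k : ℚ) *
          i2 (Mp S.1).V (s + 2) ((Mp k.1).rho S.1 (z k)) ((Mp k.1).rho S.1 (cl D))) = 0 := by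
  obtain ⟨l, hl⟩ := exists_filt hh
  have key := span_filt (span_prime h z hz s) l fun q hq => by
    obtain ⟨h1, h2, h3⟩ := hl.mem hh q hq
    refine ⟨h1, h2, h3 (hk k.1.2), fun y hy => ?_⟩
    have : dm y < dm k.1 := by
      refine dm_lt (lt_of_le_of_ne (hy ▸ hk.trans h3) fun e => hk' ?_)
      exact h3.trans (hy.symm.trans e.symm).le
    have := hd k
    omega
  rw [← Finset.add_sum_erase _ _ (Finset.mem_univ k), ← Finset.filter_ne'] at key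
  have ht : ∀ j : Comp 𝒜 p, j ≠ k → ∀ S : Edge 𝒜 p, S ∈ (Finset.univ.filter fun S : Edge 𝒜 p =>
      (j = ea S ∨ j = eb S) ∧ (k = ea S ∨ k = eb S)) ↔ MinOver S.1 {j, k} := fun j hj S => by
    rw [h.minOver_iff hj, Finset.mem_filter]
    simp
  have e1 : ∀ j : Comp 𝒜 p, j ≠ k → lin s (fun E => (l.map fun q =>
      (PV j.1 (CC I j) q.1 E).comp (X - Polynomial.C (q.2 : ℚ))).sum) (z j) =
      -∑ S : Edge 𝒜 p with (j = ea S ∨ j = eb S) ∧ (k = ea S ∨ k = eb S),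
        i2 (Mp S.1).V (s + 2) ((Mp j.1).rho S.1 (z j)) ((Mp k.1).rho S.1 (cl D)) := by
    intro j hj
    obtain ⟨c⟩ := h.cls j
    simp only [← PV_filt_B c hh (h.span_torFree hj hh hk hlp hav) hl,
      h.span_edges hj _ (ht j hj) hh hk, lin_sum, ← Finset.sum_neg_distrib]
    refine Finset.sum_congr rfl fun S hS => ?_
    have hkS : cI k ≤ pr S.1.1 := ((ht j hj S).1 hS).1 k (Or.inr rfl)
    obtain ⟨D', hD', e⟩ := AM.rho_isCl (Mp k.1) (y := S.1) (on_Mp.2 hkS) hh hD (hav S hkS)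
    rw [lin_comp (Phi S.1 𝔞), e, i2, ← lin_neg]
    congr 1
    funext E
    exact Phi_isCl S.1 hD' E
  have hL : Lev (s + 2) (dl (z k) (dl (cl D) (PP (Mp k.1).V))) := by
    have := snapper (mdl_Mp k.1)
    rw [show dimV (Mp k.1).V = s + 3 from hd k] at this
    exact (this.dl _).dl _
  have e2 : lin s (fun E => (l.map fun q =>
      (PV k.1 (CC I k) q.1 E).comp (X - Polynomial.C (q.2 : ℚ))).sum) (z k) =
      lin s (dl (z k) (dl (cl D) (PP (Mp k.1).V))) (CC I k) := by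
    obtain ⟨c⟩ := h.cls k
    rw [← lin_dl_comm]
    congr 1
    funext E
    rw [← PV_filt_A c hh hk hl, Phi_isCl k.1 hD, Phi_isCl k.1 hD]
    simp only [dl]
    ring
  have e3 : ∀ j : Comp 𝒜 p, j ≠ k →
      lin s (dl (z k) (dl (cl D) (PP (Mp k.1).V))) ((MX 𝒜).rho k.1 (cl (I j))) =
      -∑ S : Edge 𝒜 p with (j = ea S ∨ j = eb S) ∧ (k = ea S ∨ k = eb S),
        i2 (Mp S.1).V (s + 2) ((Mp k.1).rho S.1 (z k)) ((Mp k.1).rho S.1 (cl D)) := by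
    intro j hj
    rw [lin_dl_comm, dl_comm, h.span_dl_I hj _ (ht j hj), ← Finset.sum_neg_distrib]
    have : ∀ t : Finset (Edge 𝒜 p), dl (cl D)
        (fun E => -∑ S ∈ t, PP (Mp S.1).V ((Mp k.1).rho S.1 E)) =
        fun E => ∑ S ∈ t, -dl ((Mp k.1).rho S.1 (cl D)) (PP (Mp S.1).V) ((Mp k.1).rho S.1 E) := by
      intro t
      funext E
      simp only [dl, map_mul, Finset.sum_neg_distrib, Finset.sum_sub_distrib]
      ring
    rw [this, lin_sum]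
    refine Finset.sum_congr rfl fun S _ => ?_
    rw [lin_neg, lin_comp (dl _ (PP (Mp S.1).V))]
    rfl
  have e4 := span_lin_prod hL Finset.univ fun j : Comp 𝒜 p => (MX 𝒜).rho k.1 (cl (I j)) ^ m j
  have e5 : ∏ j : Comp 𝒜 p, (MX 𝒜).rho k.1 (cl (I j)) ^ m j = 1 := by
    rw [← map_one ((MX 𝒜).rho k.1), ← h.rel, map_prod]
    simp only [map_pow]
  rw [e5, lin_one] at e4
  simp only [lin_pow hL] at e4
  rw [← Finset.add_sum_erase _ _ (Finset.mem_univ k), ← Finset.filter_ne'] at e4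
  rw [Finset.sum_congr rfl fun j hj => by rw [e3 j (Finset.mem_filter.1 hj).2]] at e4
  rw [e2, Finset.sum_congr rfl fun j hj => e1 j (Finset.mem_filter.1 hj).2] at key
  have hm : (m k : ℚ) ≠ 0 := by exact_mod_cast (h.pos k).ne'
  simp only [Finset.sum_sub_distrib, ← Finset.mul_sum]
  simp only [Finset.sum_neg_distrib, mul_neg] at key e4
  simp only [div_eq_inv_mul, mul_assoc, ← Finset.mul_sum]
  refine mul_left_cancel₀ hm ?_
  rw [mul_sub, mul_inv_cancel_left₀ hm]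
  unfold CC at key
  linear_combination (-(m k : ℚ)) * key - e4

theorem span_K [DecidableEq (Comp 𝒜 p)] (h : Fib m I) {d : ℕ} (h3 : 3 ≤ d)
    (hd : ∀ j : Comp 𝒜 p, dm j.1 = d) (z : ∀ j : Comp 𝒜 p, Pic (Mp j.1).V)
    (hz : ∀ W : Vp 𝒜 p, dm W = 2 → ∑ j : Comp 𝒜 p, Psi j.1 (CC I j) (pr W.1) (z j) = 0)
    (k : Comp 𝒜 p)
    (x : Pic (Mp k.1).V) :
    ∑ j : Comp 𝒜 p with j ≠ k, ∑ S : Edge 𝒜 p with (j = ea S ∨ j = eb S) ∧ (k = ea S ∨ k = eb S),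
      (i2 (Mp S.1).V (d - 1) ((Mp j.1).rho S.1 (z j)) ((Mp k.1).rho S.1 x) -
        (m j / m k : ℚ) * i2 (Mp S.1).V (d - 1) ((Mp k.1).rho S.1 (z k)) ((Mp k.1).rho S.1 x)) =
      0 := by
  classical
  obtain ⟨s, rfl⟩ : ∃ s, d = s + 3 := ⟨d - 3, by omega⟩
  have hE : ∀ S : Edge 𝒜 p, dimV (Mp S.1).V = s + 2 := fun S => by
    have := h.dm_edge hd S
    change dm S.1 = _
    omega
  let Λ : Pic (Mp k.1).V → ℚ := fun x =>
    ∑ j : Comp 𝒜 p with j ≠ k, ∑ S : Edge 𝒜 p with (j = ea S ∨ j = eb S) ∧ (k = ea S ∨ k = eb S),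
      (i2 (Mp S.1).V (s + 2) ((Mp j.1).rho S.1 (z j)) ((Mp k.1).rho S.1 x) -
        (m j / m k : ℚ) * i2 (Mp S.1).V (s + 2) ((Mp k.1).rho S.1 (z k)) ((Mp k.1).rho S.1 x))
  have add : ∀ x y, Λ (x * y) = Λ x + Λ y := by
    intro x y
    simp only [Λ, ← Finset.sum_add_distrib]
    refine Finset.sum_congr rfl fun j _ => Finset.sum_congr rfl fun S _ => ?_
    have e : ∀ u v w, i2 (Mp S.1).V (s + 2) u (v * w) =
        i2 (Mp S.1).V (s + 2) u v + i2 (Mp S.1).V (s + 2) u w := fun u v w => by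
      have := i2_mul (mdl_Mp S.1) (by rw [hE S]; omega) v w u
      rw [hE S] at this
      rw [i2_symm, this, i2_symm _ v, i2_symm _ w]
    rw [map_mul, e, e]
    ring
  let Z : Finset (Pt 𝒜) := insert k.1.1
    ((Finset.univ.filter fun S : Edge 𝒜 p => cI k ≤ pr S.1.1).image fun S => S.1.1)
  have hZ : ∀ y ∈ Z, (Mp k.1).On y := by
    intro y hy
    rcases Finset.mem_insert.1 hy with rfl | hy
    · exact on_Mp.2 le_rfl
    · obtain ⟨S, hS, rfl⟩ := Finset.mem_image.1 hy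
      exact on_Mp.2 (Finset.mem_filter.1 hS).2
  have hx := (Mp k.1).exists_ideal (pr_hom k.1.1)
    (fun n a ha h => (th_eq_zero k.1.1 ha).2 h) (mdl_Mp k.1) x Z hZ
  have hx' : ∀ᶠ c in atTop, ∃ y, Λ y = 0 ∧ y * Lp (Mp k.1).V ^ c = x := by
    filter_upwards [hx] with c ⟨𝔞, D, hh, hk, hD, e, hlp, hav⟩
    refine ⟨cl D, span_K_ideal h hd z hz k hh hk hD hlp (hav _ (Finset.mem_insert_self _ _))
      fun S hS => hav _ (Finset.mem_insert_of_mem (Finset.mem_image.2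
        ⟨S, Finset.mem_filter.2 ⟨Finset.mem_univ _, hS⟩, rfl⟩)), e⟩
  obtain ⟨c, hc⟩ := eventually_atTop.1 hx'
  obtain ⟨y, hy, e⟩ := hc c le_rfl
  obtain ⟨y', hy', e'⟩ := hc (c + 1) (Nat.le_succ c)
  have hL : Λ (Lp (Mp k.1).V) = 0 := by
    have : y = y' * Lp (Mp k.1).V := by
      refine mul_right_cancel (b := Lp (Mp k.1).V ^ c) ?_
      rw [e, ← e', pow_succ', mul_assoc]
    rw [this, add, hy', zero_add] at hy
    exact hy
  have hLc : ∀ n, Λ (y * Lp (Mp k.1).V ^ n) = 0 := by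
    intro n
    induction n with
    | zero => rwa [pow_zero, mul_one]
    | succ n ih => rw [pow_succ, ← mul_assoc, add, ih, hL, zero_add]
  have := hLc c
  rw [e] at this
  exact this

end

end Pool.Agent.Lib.MP_62d77c_ag
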