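import Pool.Agent.Lib.MP_62d77c_ag.SerreA

/-! Serre finiteness for Čech cohomology. -/

set_option autoImplicit false

namespace Pool.Agent.Lib.MP_62d77c_ag

open Filter Polynomial Submodule

noncomputable section

variable {O K E E' ι : Type} [CommRing O] [CommRing K] [Algebra O K] [AddCommGroup E] [Module K E]
  [Module O E] [IsScalarTower O K E] [AddCommGroup E'] [Module O E'] [Fintype ι] [LinearOrder ι]

omit [Fintype ι] in
theorem serre_prod {y : ι → K} {N : ℕ → Submodule O E}
    (hN : ∀ n, span O (Set.range y) • N n ≤ N (n + 1)) (s : Finset ι) {n : ℕ} {w : E}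
    (hw : w ∈ N n) : (∏ a ∈ s, y a) • w ∈ N (n + s.card) := by
  induction s using Finset.induction_on with
  | empty => simpa using hw
  | insert a s ha ih =>
    rw [Finset.prod_insert ha, Finset.card_insert_of_notMem ha, mul_smul]
    exact hN _ (Submodule.smul_mem_smul (subset_span ⟨a, rfl⟩) ih)

omit [Fintype ι] in
theorem serre_pow {y : ι → K} {N : ℕ → Submodule O E}
    (hN : ∀ n, span O (Set.range y) • N n ≤ N (n + 1)) (s : Finset ι) {n : ℕ} {w : E}
    (hw : w ∈ N n) (j : ℕ) : ((∏ a ∈ s, y a) ^ j) • w ∈ N (n + j * s.card) := by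
  induction j with
  | zero => simpa using hw
  | succ j ih =>
    rw [pow_succ', mul_smul, add_mul, one_mul, ← add_assoc]
    exact serre_prod hN s ih

theorem mem_chart {y : ι → K} {N : ℕ → Submodule O E}
    (hN : ∀ n, span O (Set.range y) • N n ≤ N (n + 1))
    {σ : Finset ι} (hσ : σ.Nonempty) {v : E} :
    v ∈ chart y N σ ↔ ∀ᶠ m in atTop, ((∏ a ∈ σ, y a) ^ m) • v ∈ N (m * σ.card) := by
  refine ⟨fun h => ?_, fun h => subset_span h.exists⟩
  induction h using Submodule.span_induction with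
  | mem v hv =>
    obtain ⟨m, hm⟩ := hv
    filter_upwards [eventually_ge_atTop m] with m' hm'
    obtain ⟨j, rfl⟩ := Nat.exists_eq_add_of_le hm'
    rw [add_comm m j, pow_add, mul_smul, add_mul, add_comm (j * _)]
    exact serre_pow hN σ hm j
  | zero => simp
  | add a b _ _ ha hb =>
    filter_upwards [ha, hb] with m h1 h2
    rw [smul_add]; exact add_mem h1 h2
  | smul c a _ ha =>
    filter_upwards [ha] with m h1
    rw [← algebraMap_smul K c a, smul_comm, algebraMap_smul]
    exact (N _).smul_mem c h1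

theorem chart_mono {y : ι → K} {N : ℕ → Submodule O E}
    (hN : ∀ n, span O (Set.range y) • N n ≤ N (n + 1))
    {σ τ : Finset ι} (hσ : σ.Nonempty) (h : σ ⊆ τ) : chart y N σ ≤ chart y N τ := by
  refine span_mono ?_
  rintro v ⟨m, hm⟩
  refine ⟨m, ?_⟩
  have := serre_pow hN (τ \ σ) hm m
  rwa [← mul_smul, ← mul_pow, Finset.prod_sdiff h, ← mul_add, add_comm,
    Finset.card_sdiff_add_card_eq_card h] at this

/-- Laurent polynomials -/
abbrev SerreL (O ι : Type) [CommRing O] : Type := AddMonoidAlgebra O (ι → ℤ)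

/-- the variables -/
def serreY (O : Type) [CommRing O] (a : ι) : SerreL O ι := AddMonoidAlgebra.single (Pi.single a 1) 1

/-- forms of degree `j` -/
def serreD (O ι : Type) [CommRing O] [Fintype ι] (j : ℤ) : Submodule O (SerreL O ι) :=
  AddMonoidAlgebra.supported O O {x | (∀ a, 0 ≤ x a) ∧ ∑ a, x a = j}

omit [LinearOrder ι] in
theorem serre_fg {s : Set (ι → ℤ)} (j : ℤ) (h : ∀ x ∈ s, ∀ a, -j ≤ x a ∧ x a ≤ j) :
    (AddMonoidAlgebra.supported O O s : Submodule O (SerreL O ι)).FG := by
  classical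
  rw [AddMonoidAlgebra.supported_eq_span_single]
  refine Submodule.fg_span (Set.Finite.image _ ?_)
  exact (Set.finite_Icc (fun _ => -j) (fun _ => j)).subset fun x hx =>
    ⟨fun a => (h x hx a).1, fun a => (h x hx a).2⟩

omit [LinearOrder ι] in
theorem serreD_fg (j : ℤ) : (serreD O ι j).FG := by
  refine serre_fg j fun x hx a => ?_
  have h1 : x a ≤ ∑ b, x b := Finset.single_le_sum (fun b _ => hx.1 b) (Finset.mem_univ a)
  have := hx.1 a
  have := hx.2
  omega

theorem serreD_le (j : ℤ) :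
    span O (Set.range (serreY O : ι → _)) • serreD O ι j ≤ serreD O ι (j + 1) := by
  rw [smul_eq_mul, serreD, AddMonoidAlgebra.supported_eq_span_single, span_mul_span, span_le]
  rintro _ ⟨_, ⟨a, rfl⟩, _, ⟨x, hx, rfl⟩, rfl⟩
  simp only [serreY, AddMonoidAlgebra.single_mul_single, one_mul, serreD,
    AddMonoidAlgebra.supported_eq_span_single]
  refine subset_span ⟨_, ⟨fun b => ?_, ?_⟩, rfl⟩
  · have := hx.1 b
    by_cases e : b = a
    · subst e; simp; omega
    · simpa [e] using this
  · simp [Finset.sum_add_distrib, hx.2, add_comm]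

theorem serreD_ge {j : ℤ} (hj : 0 ≤ j) :
    serreD O ι (j + 1) ≤ span O (Set.range (serreY O : ι → _)) • serreD O ι j := by
  rw [smul_eq_mul, serreD, AddMonoidAlgebra.supported_eq_span_single, span_le]
  rintro _ ⟨x, hx, rfl⟩
  obtain ⟨a, ha⟩ : ∃ a, 0 < x a := by
    by_contra hc
    push Not at hc
    have : ∑ a, x a ≤ 0 := Finset.sum_nonpos fun a _ => hc a
    have := hx.2
    omega
  have e : (AddMonoidAlgebra.single x 1 : SerreL O ι) =
      serreY O a * AddMonoidAlgebra.single (x - Pi.single a 1) 1 := by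
    simp [serreY, AddMonoidAlgebra.single_mul_single]
  show (AddMonoidAlgebra.single x 1 : SerreL O ι) ∈ _
  rw [e]
  refine Submodule.mul_mem_mul (subset_span ⟨a, rfl⟩) ?_
  rw [serreD, AddMonoidAlgebra.supported_eq_span_single]
  refine subset_span ⟨_, ⟨fun b => ?_, ?_⟩, rfl⟩
  · have := hx.1 b
    by_cases e : b = a
    · subst e; simp; omega
    · simpa [e] using this
  · simp [Finset.sum_sub_distrib, hx.2]

omit [Fintype ι] in
theorem serreY_pow (σ : Finset ι) (m : ℕ) : (∏ a ∈ σ, serreY O a) ^ m =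
    AddMonoidAlgebra.single (fun a => if a ∈ σ then (m : ℤ) else 0) 1 := by
  have : ∏ a ∈ σ, serreY O a =
      AddMonoidAlgebra.single (fun a => if a ∈ σ then (1 : ℤ) else 0) 1 := by
    induction σ using Finset.induction_on with
    | empty => simp [AddMonoidAlgebra.one_def, Pi.zero_def]
    | insert a s ha ih =>
      rw [Finset.prod_insert ha, ih, serreY, AddMonoidAlgebra.single_mul_single, one_mul]
      congr 1
      funext b
      by_cases e : b = a
      · subst e; simp [ha]
      · simp [e]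
  rw [this, AddMonoidAlgebra.single_pow, one_pow]
  congr 1
  funext a
  simp

theorem serre_mem_shift (σ : Finset ι) (m : ℕ) (j : ℤ) (f : SerreL O ι) :
    (∏ a ∈ σ, serreY O a) ^ m * f ∈ serreD O ι (m * σ.card + j) ↔
      ∀ x, f.coeff x ≠ 0 → (∀ a, 0 ≤ x a + if a ∈ σ then (m : ℤ) else 0) ∧ ∑ a, x a = j := by
  rw [serreY_pow, serreD, AddMonoidAlgebra.mem_supported']
  set e : ι → ℤ := fun a => if a ∈ σ then (m : ℤ) else 0 with he
  have hs : ∑ a, e a = m * σ.card := by simp [he, mul_comm]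
  simp only [AddMonoidAlgebra.coeff_single_mul_apply, one_mul, Set.mem_ofPred_eq]
  constructor
  · intro h x hx
    by_contra hc
    refine hx ?_
    have := h (e + x) (fun h' => hc ⟨fun a => by simpa [add_comm] using h'.1 a, by
      have := h'.2
      simp only [Pi.add_apply, Finset.sum_add_distrib, hs] at this
      omega⟩)
    simpa using this
  · intro h x hx
    by_contra hc
    have := h _ hc
    refine hx ⟨fun a => ?_, ?_⟩
    · have h1 : 0 ≤ -e a + x a + e a := this.1 a
      omega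
    have h2 := this.2
    simp only [Pi.add_apply, Pi.neg_apply, Finset.sum_add_distrib, Finset.sum_neg_distrib,
      hs] at h2
    omega

/-- the free family generated in degree `n₀` -/
def serreF (O ι β : Type) [CommRing O] [Fintype ι] (n₀ : ℕ) (n : ℕ) :
    Submodule O (β → SerreL O ι) := Submodule.pi Set.univ fun _ => serreD O ι ((n : ℤ) - n₀)

theorem serreF_le {β : Type} [Fintype β] (n₀ n : ℕ) :
    span O (Set.range (serreY O : ι → _)) • serreF O ι β n₀ n ≤ serreF O ι β n₀ (n + 1) := by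
  rw [serreF, smul_pi]
  refine Submodule.pi_mono fun _ _ => (serreD_le _).trans (le_of_eq ?_)
  congr 1; push_cast; ring

theorem serreF_succ {β : Type} [Fintype β] {n₀ n : ℕ} (h : n₀ ≤ n) :
    serreF O ι β n₀ (n + 1) = span O (Set.range (serreY O : ι → _)) • serreF O ι β n₀ n := by
  refine le_antisymm ?_ (serreF_le n₀ n)
  rw [serreF, serreF, smul_pi]
  refine Submodule.pi_mono fun _ _ => (le_of_eq ?_).trans (serreD_ge (by omega))
  congr 1; push_cast; ring

theorem serreF_fg {β : Type} [Fintype β] (n₀ : ℕ) :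
    Fg (span O (Set.range (serreY O : ι → _))) (serreF O ι β n₀) := by
  filter_upwards [eventually_ge_atTop n₀] with n hn
  exact ⟨Submodule.fg_pi fun _ => serreD_fg _, serreF_succ hn⟩

theorem serreF_chart {β : Type} [Fintype β] (n₀ : ℕ) {σ : Finset ι} (hσ : σ.Nonempty)
    (v : β → SerreL O ι) : v ∈ chart (serreY O : ι → SerreL O ι) (serreF O ι β n₀) σ ↔
      ∀ i x, (v i).coeff x ≠ 0 → (∀ a ∉ σ, 0 ≤ x a) ∧ ∑ a, x a = -(n₀ : ℤ) := by
  rw [mem_chart (K := SerreL O ι) (y := serreY O) (N := serreF O ι β n₀) (serreF_le n₀) hσ]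
  have e : ∀ m : ℕ, ((∏ a ∈ σ, serreY O a) ^ m) • v ∈ serreF O ι β n₀ (m * σ.card) ↔
      ∀ i x, (v i).coeff x ≠ 0 →
        (∀ a, 0 ≤ x a + if a ∈ σ then (m : ℤ) else 0) ∧ ∑ a, x a = -(n₀ : ℤ) := fun m => by
    simp only [serreF, Submodule.mem_pi, Set.mem_univ, true_imp_iff, Pi.smul_apply, smul_eq_mul]
    refine forall_congr' fun i => ?_
    rw [← serre_mem_shift, sub_eq_add_neg]
    push_cast
    rfl
  simp only [e]
  constructor
  · intro h i x hx
    obtain ⟨m, hm⟩ := h.exists
    exact ⟨fun a ha => by simpa [ha] using (hm i x hx).1 a, (hm i x hx).2⟩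
  · intro h
    have : ∀ᶠ m : ℕ in atTop, ∀ i, ∀ x ∈ (v i).coeff.support, ∀ a, -x a ≤ m := by
      rw [eventually_all]
      intro i
      rw [eventually_all_finset]
      intro x _
      rw [eventually_all]
      intro a
      filter_upwards [eventually_ge_atTop (-x a).toNat] with m hm
      omega
    filter_upwards [this] with m hm i x hx
    refine ⟨fun a => ?_, (h i x hx).2⟩
    have := hm i x (Finsupp.mem_support_iff.2 hx) a
    split_ifs with ha
    · omega
    · simpa using (h i x hx).1 a ha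

/-- projection to a set of exponents -/
def serreP (O : Type) [CommRing O] (p : (ι → ℤ) → Prop) [DecidablePred p] :
    SerreL O ι →ₗ[O] SerreL O ι where
  toFun f := AddMonoidAlgebra.ofCoeff (f.coeff.filter p)
  map_add' f g := by ext x; simp [Finsupp.filter_add]
  map_smul' c f := by ext x; simp [Finsupp.filter_smul]

omit [Fintype ι] [LinearOrder ι] in
theorem serreP_coeff (p : (ι → ℤ) → Prop) [DecidablePred p] (f : SerreL O ι) (x : ι → ℤ) :
    (serreP O p f).coeff x = if p x then f.coeff x else 0 := by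
  simp [serreP, Finsupp.filter_apply]

theorem serre_free {β : Type} [Fintype β] {n₀ : ℕ} (h₀ : 0 < n₀) (q : ℕ) :
    FinMod ((Coch (chart (serreY O : ι → SerreL O ι) (serreF O ι β n₀)) q).map (dC O _))
      (Coch (chart (serreY O : ι → SerreL O ι) (serreF O ι β n₀)) (q + 1) ⊓
        LinearMap.ker (dC O _)) := by
  refine serre_split _
    (fun a => (serreP O fun x => 0 ≤ x a ∧ ∀ b < a, x b < 0).compLeft β)
    (Submodule.pi Set.univ fun _ =>
      AddMonoidAlgebra.supported O O {x | (∀ a, x a < 0) ∧ ∑ a, x a = -(n₀ : ℤ)})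
    (Submodule.fg_pi fun _ => serre_fg n₀ fun x hx a => ?_) (fun σ a ha v hv => ?_)
    (fun σ hσ v hv => ?_) q
  · have h1 : -x a ≤ ∑ b, -x b :=
      Finset.single_le_sum (f := fun b => -x b) (fun b _ => by have := hx.1 b; omega)
        (Finset.mem_univ a)
    rw [Finset.sum_neg_distrib, hx.2] at h1
    have := hx.1 a
    omega
  · rw [serreF_chart _ (Finset.insert_nonempty a σ)] at hv
    have key : ∀ i x, ((serreP O fun x => 0 ≤ x a ∧ ∀ b < a, x b < 0) (v i)).coeff x ≠ 0 →
        (∀ b ∉ σ, 0 ≤ x b) ∧ ∑ a, x a = -(n₀ : ℤ) := fun i x hx => by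
      rw [serreP_coeff] at hx
      split_ifs at hx with hp
      · refine ⟨fun b hb => ?_, (hv i x hx).2⟩
        by_cases e : b = a
        · exact e ▸ hp.1
        · exact (hv i x hx).1 b (by simp [e, hb])
      · exact absurd rfl hx
    refine ⟨fun hσ => (serreF_chart _ hσ _).2 key, ?_⟩
    rintro rfl
    ext i x
    by_contra hx
    have := key i x hx
    have h1 : 0 ≤ ∑ a, x a := Finset.sum_nonneg fun b _ => this.1 b (by simp)
    omega
  · rw [serreF_chart _ hσ] at hv
    intro i _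
    show _ ∈ AddMonoidAlgebra.supported O O _
    rw [AddMonoidAlgebra.mem_supported']
    intro x hx
    by_cases hc : (v i).coeff x = 0
    · simp [Finset.sum_apply, serreP_coeff, hc]
    have hne : (Finset.univ.filter fun a => 0 ≤ x a).Nonempty := by
      by_contra h0
      refine hx ⟨fun a => ?_, (hv i x hc).2⟩
      by_contra h1
      exact h0 ⟨a, by simpa using h1⟩
    set a₀ := Finset.min' _ hne with ha₀
    have h1 : 0 ≤ x a₀ := by simpa using Finset.min'_mem _ hne
    have h2 : ∀ b < a₀, x b < 0 := fun b hb => by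
      by_contra h3
      exact hb.not_ge (Finset.min'_le _ b (by simpa using h3))
    simp only [Pi.sub_apply, Finset.sum_apply, LinearMap.compLeft_apply, Function.comp,
      AddMonoidAlgebra.coeff_sub, AddMonoidAlgebra.coeff_sum, Finsupp.coe_sub,
      Finsupp.coe_finset_sum, serreP_coeff]
    rw [Finset.sum_eq_single a₀, if_pos ⟨h1, h2⟩, sub_self]
    · intro b _ hb
      rw [if_neg]
      rintro ⟨h3, h4⟩
      rcases lt_or_gt_of_ne hb with h | h
      · exact (h2 b h).not_ge h3
      · exact (h4 _ h).not_ge h1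
    · simp

omit [Fintype ι] in
theorem serreY_unit (a : ι) : IsUnit (serreY O a) :=
  IsUnit.of_mul_eq_one (AddMonoidAlgebra.single (-Pi.single a 1) 1) (by
    simp [serreY, AddMonoidAlgebra.single_mul_single, AddMonoidAlgebra.one_def])

theorem serre_phi {y : ι → K} (hy : ∀ a, IsUnit (y a)) :
    ∃ φ : SerreL O ι →ₐ[O] K, ∀ a, φ (serreY O a) = y a := by
  refine ⟨AddMonoidAlgebra.lift O K (ι → ℤ) ((Units.coeHom K).comp
    { toFun := fun x => ∏ a, (hy a).unit ^ (x.toAdd a)
      map_one' := by simp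
      map_mul' := fun x z => by simp [zpow_add, Finset.prod_mul_distrib] }), fun a => ?_⟩
  simp only [serreY, AddMonoidAlgebra.lift_single, one_smul, MonoidHom.comp_apply,
    MonoidHom.coe_mk, OneHom.coe_mk, toAdd_ofAdd]
  rw [Finset.prod_eq_single a]
  · simp
  · intro b _ hb; simp [hb]
  · simp

/-- the free cover of a finitely generated family -/
theorem serre_cover {y : ι → K} (hy : ∀ a, IsUnit (y a)) {N : ℕ → Submodule O E}
    (hN : Fg (span O (Set.range y)) N) :
    ∃ (n₀ b : ℕ) (φ : SerreL O ι →ₐ[O] K) (π : (Fin b → SerreL O ι) →ₗ[O] E), 0 < n₀ ∧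
      (∀ a, φ (serreY O a) = y a) ∧ (∀ (r : SerreL O ι) v, π (r • v) = φ r • π v) ∧
      (∀ n, (serreF O ι (Fin b) n₀ n).map π ≤ N n) ∧
      ∀ n, n₀ ≤ n → N n ≤ (serreF O ι (Fin b) n₀ n).map π := by
  obtain ⟨φ, hφ⟩ := serre_phi (O := O) hy
  obtain ⟨n₁, h₁⟩ := eventually_atTop.1 hN
  obtain ⟨b, g, hg⟩ := Submodule.fg_iff_exists_fin_generating_family.1 (h₁ (n₁ + 1) (by omega)).1
  let π : (Fin b → SerreL O ι) →ₗ[O] E :=
    { toFun := fun v => ∑ i, φ (v i) • g i
      map_add' := fun v w => by simp [add_smul, Finset.sum_add_distrib]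
      map_smul' := fun c v => by simp [Finset.smul_sum] }
  have hπ : ∀ v, π v = ∑ i, φ (v i) • g i := fun _ => rfl
  have hs : ∀ (r : SerreL O ι) v, π (r • v) = φ r • π v := fun r v => by
    simp [hπ, Finset.smul_sum, mul_smul]
  have hV : (span O (Set.range (serreY O : ι → SerreL O ι))).map φ.toLinearMap =
      span O (Set.range y) := by
    rw [Submodule.map_span, ← Set.range_comp]
    congr 2
    funext a
    exact hφ a
  have hm : ∀ M : Submodule O (Fin b → SerreL O ι),
      (span O (Set.range (serreY O : ι → SerreL O ι)) • M).map π =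
        span O (Set.range y) • M.map π := fun M => by
    refine le_antisymm (Submodule.map_le_iff_le_comap.2 (Submodule.smul_le.2 fun r hr v hv => ?_))
      (Submodule.smul_le.2 ?_)
    · rw [Submodule.mem_comap, hs]
      exact Submodule.smul_mem_smul (hV ▸ Submodule.mem_map_of_mem hr) (Submodule.mem_map_of_mem hv)
    · rw [← hV]
      rintro _ ⟨r, hr, rfl⟩ _ ⟨v, hv, rfl⟩
      exact ⟨_, Submodule.smul_mem_smul hr hv, hs r v⟩
  have key : ∀ n, n₁ + 1 ≤ n → (serreF O ι (Fin b) (n₁ + 1) n).map π = N n := by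
    intro n hn
    induction n, hn using Nat.le_induction with
    | base =>
      rw [← hg]
      refine le_antisymm ?_ (span_le.2 ?_)
      · rintro _ ⟨v, hv, rfl⟩
        rw [hπ]
        refine sum_mem fun i _ => ?_
        have h0 : serreD O ι 0 ≤ span O {1} := by
          rw [serreD, AddMonoidAlgebra.supported_eq_span_single]
          refine span_mono ?_
          rintro _ ⟨x, hx, rfl⟩
          have : x = 0 := funext fun a =>
            (Finset.sum_eq_zero_iff_of_nonneg fun a _ => hx.1 a).1 hx.2 a (Finset.mem_univ a)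
          subst this
          rfl
        have h1 : v i ∈ serreD O ι 0 := by simpa using hv i trivial
        obtain ⟨c, hc⟩ := Submodule.mem_span_singleton.1 (h0 h1)
        rw [← hc, map_smul, map_one, smul_assoc, one_smul]
        exact Submodule.smul_mem _ c (subset_span ⟨i, rfl⟩)
      · rintro _ ⟨i, rfl⟩
        refine ⟨Pi.single i 1, fun j _ => ?_, ?_⟩
        · by_cases e : j = i
          · subst e
            simp only [Pi.single_eq_same, sub_self, serreD,
              AddMonoidAlgebra.supported_eq_span_single]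
            exact subset_span ⟨0, ⟨fun _ => le_rfl, by simp⟩, rfl⟩
          · simp [e]
        · rw [hπ, Finset.sum_eq_single i]
          · simp
          · intro j _ hj; simp [hj]
          · simp
    | succ n hn ih => rw [serreF_succ hn, hm, ih, (h₁ n (by omega)).2]
  refine ⟨n₁ + 1, b, φ, π, by omega, hφ, hs, fun n => ?_, fun n hn => (key n hn).ge⟩
  by_cases hn : n₁ + 1 ≤ n
  · exact (key n hn).le
  rintro _ ⟨v, hv, rfl⟩
  have : v = 0 := by
    ext i x
    refine AddMonoidAlgebra.mem_supported'.1 (hv i trivial) x fun hx => ?_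
    have h1 : 0 ≤ ∑ a, x a := Finset.sum_nonneg fun a _ => hx.1 a
    have := hx.2
    omega
  simp [this]

theorem serre_aux [IsNoetherianRing O] (j : ℕ) : ∀ (K E : Type) [CommRing K] [Algebra O K]
    [AddCommGroup E] [Module K E] [Module O E] [IsScalarTower O K E] (y : ι → K)
    (_ : ∀ a, IsUnit (y a)) (N : ℕ → Submodule O E) (_ : Fg (span O (Set.range y)) N)
    (_ : ∀ n, span O (Set.range y) • N n ≤ N (n + 1)) (q : ℕ), Fintype.card ι ≤ q + j →
    FinMod ((Coch (chart y N) q).map (dC O E))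
      (Coch (chart y N) (q + 1) ⊓ LinearMap.ker (dC O E)) := by
  induction j with
  | zero =>
    intro K E _ _ _ _ _ _ y _ N _ _ q hq
    refine ⟨⊥, Submodule.fg_bot, fun z hz => ?_⟩
    have : z = 0 := funext fun σ => (mem_Coch.1 hz.1 σ).2 (by
      have := Finset.card_le_univ σ
      omega)
    simp [this]
  | succ j ih =>
    intro K E _ _ _ _ _ _ y hy N hN hN0 q hq
    obtain ⟨n₀, b, φ, π, h₀, hφ, hs, hle, hge⟩ := serre_cover hy hN
    set Y : ι → SerreL O ι := serreY O with hY
    set F := serreF O ι (Fin b) n₀ with hF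
    have hF0 : ∀ n, span O (Set.range Y) • F n ≤ F (n + 1) := serreF_le n₀
    set Q : ℕ → Submodule O (Fin b → SerreL O ι) := fun n => F n ⊓ LinearMap.ker π with hQ
    have hQ0 : ∀ n, span O (Set.range Y) • Q n ≤ Q (n + 1) := fun n =>
      Submodule.smul_le.2 fun r hr v hv => ⟨hF0 n (Submodule.smul_mem_smul hr hv.1), by
        have h1 : π v = 0 := hv.2
        show π (r • v) = 0
        rw [hs, h1, smul_zero]⟩
    have hQg : Fg (span O (Set.range Y)) Q :=
      Fg.of_le (Submodule.fg_span (Set.finite_range Y)) (serreF_fg n₀) (.of_forall hQ0)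
        (.of_forall fun n => inf_le_left)
    have hp : ∀ (σ : Finset ι) (m : ℕ) v,
        π (((∏ a ∈ σ, Y a) ^ m) • v) = ((∏ a ∈ σ, y a) ^ m) • π v := fun σ m v => by
      rw [hs, map_pow, map_prod]; simp only [hφ]
    have hu : ∀ (σ : Finset ι) (m : ℕ), IsUnit ((∏ a ∈ σ, y a) ^ m) := fun σ m =>
      (IsUnit.prod_iff.2 fun a _ => hy a).pow m
    have c1 : ∀ σ, ∀ v ∈ chart Y F σ, π v ∈ chart y N σ := fun σ v hv => by
      refine (span_le (p := (chart y N σ).comap π)).2 ?_ hv
      rintro v ⟨m, hm⟩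
      exact subset_span ⟨m, hp σ m v ▸ hle _ (Submodule.mem_map_of_mem hm)⟩
    have c2 : ∀ σ : Finset ι, σ.Nonempty → ∀ w ∈ chart y N σ, ∃ v ∈ chart Y F σ, π v = w := by
      intro σ hσ w hw
      obtain ⟨m, hm, hm'⟩ := (((mem_chart hN0 hσ).1 hw).and (eventually_ge_atTop n₀)).exists
      obtain ⟨f, hf, e⟩ := hge _ (hm'.trans (Nat.le_mul_of_pos_right m hσ.card_pos)) hm
      obtain ⟨U, hU⟩ : IsUnit ((∏ a ∈ σ, Y a) ^ m) :=
        (IsUnit.prod_iff.2 fun a _ => serreY_unit a).pow m
      have e1 : ((∏ a ∈ σ, Y a) ^ m) • ((U⁻¹ : (SerreL O ι)ˣ) : SerreL O ι) • f = f := by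
        rw [← hU, smul_smul]; simp
      refine ⟨((U⁻¹ : (SerreL O ι)ˣ) : SerreL O ι) • f, subset_span ⟨m, e1.symm ▸ hf⟩, ?_⟩
      refine ((hu σ m).smul_left_cancel).1 ?_
      rw [← hp, e1, e]
    have c3 : ∀ σ : Finset ι, σ.Nonempty → ∀ v,
        v ∈ chart Y Q σ ↔ v ∈ chart Y F σ ∧ π v = 0 := by
      intro σ hσ v
      rw [mem_chart hQ0 hσ, mem_chart hF0 hσ]
      refine ⟨fun h => ⟨h.mono fun m hm => hm.1, ?_⟩, fun h => h.1.mono fun m hm => ⟨hm, ?_⟩⟩
      · obtain ⟨m, hm⟩ := h.exists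
        have h1 : π _ = 0 := hm.2
        rw [hp] at h1
        exact ((hu σ m).smul_eq_zero).1 h1
      · show π _ = 0
        rw [hp, h.2, smul_zero]
    have c4 : ∀ (n : ℕ) c, c ∈ Coch (chart Y Q) n ↔ c ∈ Coch (chart Y F) n ∧ π ∘ c = 0 := by
      intro n c
      simp only [mem_Coch]
      refine ⟨fun h => ⟨fun σ => ⟨fun hσ => ?_, (h σ).2⟩, funext fun σ => ?_⟩,
        fun h σ => ⟨fun hσ => ?_, (h.1 σ).2⟩⟩
      · exact ((c3 σ (by rw [← Finset.card_pos]; omega) _).1 ((h σ).1 hσ)).1
      · by_cases hσ : σ.card = n ∧ n ≠ 0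
        · exact ((c3 σ (by rw [← Finset.card_pos]; omega) _).1 ((h σ).1 hσ)).2
        · simp [(h σ).2 hσ]
      · exact (c3 σ (by rw [← Finset.card_pos]; omega) _).2 ⟨(h.1 σ).1 hσ, congrFun h.2 σ⟩
    have mF : ∀ σ τ : Finset ι, σ.Nonempty → σ ⊆ τ → chart Y F σ ≤ chart Y F τ :=
      fun σ τ => chart_mono hF0
    set P : (Finset ι → Fin b → SerreL O ι) →ₗ[O] (Finset ι → E) := π.compLeft (Finset ι) with hP
    set W := Coch (chart Y F) (q + 1) ⊓ LinearMap.ker (P ∘ₗ dC O _) with hW
    have f1 := (ih _ _ Y serreY_unit Q hQg hQ0 (q + 1) (by omega)).comap (dC O _) W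
      fun z hz => ⟨(c4 _ _).2 ⟨dC_mem mF hz.1, hz.2⟩, dC_dC z⟩
    obtain ⟨S, hS, hS'⟩ := serre_free (O := O) (ι := ι) (β := Fin b) h₀ q
    have f2 : FinMod (Coch (chart Y Q) (q + 1) ⊔ (Coch (chart Y F) q).map (dC O _))
        (W ⊓ ((Coch (chart Y Q) (q + 1)).map (dC O _)).comap (dC O _)) := by
      refine ⟨S, hS, ?_⟩
      rintro z ⟨hz, c, hc, e⟩
      have h1 : z - c ∈ (Coch (chart Y F) q).map (dC O _) ⊔ S :=
        hS' ⟨sub_mem hz.1 ((c4 _ _).1 hc).1, by
          show dC O _ (z - c) = 0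
          rw [map_sub, e, sub_self]⟩
      rw [sup_assoc, ← add_sub_cancel c z]
      exact Submodule.add_mem_sup hc h1
    refine ((f2.trans f1).map P).mono ?_ ?_
    · rw [Submodule.map_sup]
      refine sup_le ?_ ?_
      · rintro _ ⟨c, hc, rfl⟩
        have : P c = 0 := ((c4 _ _).1 hc).2
        rw [this]; exact zero_mem _
      · rintro _ ⟨_, ⟨c, hc, rfl⟩, rfl⟩
        refine ⟨π ∘ c, mem_Coch.2 fun σ => ⟨fun hσ => c1 σ _ ((mem_Coch.1 hc σ).1 hσ),
          fun hσ => by simp [(mem_Coch.1 hc σ).2 hσ]⟩, serre_dC_comp π c⟩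
    · rintro z ⟨hz, hd⟩
      have hl : ∀ σ, ∃ v, π v = z σ ∧ (σ.card = q + 1 ∧ q + 1 ≠ 0 → v ∈ chart Y F σ) ∧
          (¬(σ.card = q + 1 ∧ q + 1 ≠ 0) → v = 0) := fun σ => by
        by_cases hσ : σ.card = q + 1 ∧ q + 1 ≠ 0
        · obtain ⟨v, hv, e⟩ :=
            c2 σ (by rw [← Finset.card_pos]; omega) _ ((mem_Coch.1 hz σ).1 hσ)
          exact ⟨v, e, fun _ => hv, fun h => absurd hσ h⟩
        · exact ⟨0, by simp [(mem_Coch.1 hz σ).2 hσ], fun h => absurd h hσ, fun _ => rfl⟩
      choose v e hv using hl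
      have e' : π ∘ v = z := funext e
      refine ⟨v, ⟨mem_Coch.2 hv, ?_⟩, e'⟩
      show π ∘ dC O _ v = 0
      rw [← serre_dC_comp, e']
      exact hd

/-- Serre: descending induction on `q`, Laurent monomials for the free module -/
theorem serre [IsNoetherianRing O] {y : ι → K} (hy : ∀ a, IsUnit (y a)) {N : ℕ → Submodule O E}
    (hN : Fg (span O (Set.range y)) N) (hN0 : ∀ n, span O (Set.range y) • N n ≤ N (n + 1))
    (q : ℕ) :
    FinMod ((Coch (chart y N) q).map (dC O E))
      (Coch (chart y N) (q + 1) ⊓ LinearMap.ker (dC O E)) :=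
  serre_aux (Fintype.card ι) K E y hy N hN hN0 q (by omega)

end

end Pool.Agent.Lib.MP_62d77c_ag
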