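import Pool.Agent.Lib.MP_62d77c_ag.TorA

/-! The Euler characteristic of the Tor modules. -/

set_option autoImplicit false

namespace Pool.Agent.Lib.MP_62d77c_ag

open Filter Polynomial Submodule

noncomputable section

theorem tor_log {p : ℕ} [Fact p.Prime] {E : Type} [AddCommGroup E] [Module (ZMod p) E]
    {B Z : Submodule (ZMod p) E} (h : B ≤ Z) (hZ : Z.FG) :
    Real.log (B.toAddSubgroup.relIndex Z.toAddSubgroup) =
      ((Module.finrank (ZMod p) Z : ℝ) - Module.finrank (ZMod p) B) * Real.log p := by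
  have fZ : Module.Finite (ZMod p) Z := Module.Finite.iff_fg.2 hZ
  have fB : Module.Finite (ZMod p) B := Submodule.finiteDimensional_of_le h
  have h1 := AddSubgroup.relIndex_mul_relIndex ⊥ B.toAddSubgroup Z.toAddSubgroup bot_le h
  rw [AddSubgroup.relIndex_bot_left, AddSubgroup.relIndex_bot_left] at h1
  have h2 : Nat.card Z.toAddSubgroup = p ^ Module.finrank (ZMod p) Z := by
    have := Module.natCard_eq_pow_finrank (K := ZMod p) (V := Z)
    rwa [Nat.card_zmod] at this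
  have h3 : Nat.card B.toAddSubgroup = p ^ Module.finrank (ZMod p) B := by
    have := Module.natCard_eq_pow_finrank (K := ZMod p) (V := B)
    rwa [Nat.card_zmod] at this
  have hp : 0 < p := (Fact.out : p.Prime).pos
  have h4 := Submodule.finrank_mono h
  have h5 : B.toAddSubgroup.relIndex Z.toAddSubgroup =
      p ^ (Module.finrank (ZMod p) Z - Module.finrank (ZMod p) B) := by
    refine Nat.eq_of_mul_eq_mul_left (pow_pos hp (Module.finrank (ZMod p) B)) ?_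
    rw [← pow_add, Nat.add_sub_cancel' h4, ← h2, ← h1, h3]
  rw [h5, Nat.cast_pow, Real.log_pow, Nat.cast_sub h4]

theorem tor_rel {G G' : Type} [AddCommGroup G] [AddCommGroup G'] (f : G →+ G')
    {B Z : AddSubgroup G} {B' Z' : AddSubgroup G'} (h1 : Z.map f = Z')
    (h2 : ∀ v ∈ Z, v ∈ B ↔ f v ∈ B') : B.relIndex Z = B'.relIndex Z' := by
  rw [← h1, ← AddSubgroup.relIndex_comap, ← AddSubgroup.inf_relIndex_right B,
    ← AddSubgroup.inf_relIndex_right (B'.comap f)]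
  congr 1
  ext v
  exact ⟨fun h => ⟨(h2 v h.2).1 h.1, h.2⟩, fun h => ⟨(h2 v h.2).2 h.1, h.2⟩⟩

variable {A : Type} [CommRing A] [IsDomain A] {𝒜 : ℕ → AddSubgroup A} [GradedRing 𝒜]
  [hG : Fact (Gen 𝒜)] {p : ℕ} [Fact p.Prime]

theorem exists_resol {I : Ideal A} (h : I.IsHomogeneous 𝒜) : Nonempty (Resol 𝒜 I) := tor_resol h

theorem tor_log_lat (j : Vp 𝒜 p) {β : Type} [Fintype β] (a : β → ℕ) {B Z : Submodule A (β → A)}
    (h : B ≤ Z) (hB : ∀ c : β → A, (∀ i, c i ∈ pr j.1) → c ∈ B) : ∀ᶠ n : ℕ in atTop,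
    Real.log (B.toAddSubgroup.relIndex (Z.toAddSubgroup ⊓ piece 𝒜 a n)) =
      ((hq (Mp j).V (lat j a Z) 1 - hq (Mp j).V (lat j a B) 1).eval (n : ℚ) : ℚ) * Real.log p := by
  rw [hq_one (mdl_Mp j) (fg_lat j a Z), hq_one (mdl_Mp j) (fg_lat j a B)]
  filter_upwards [hp_spec (Mp j).V_fg (fg_lat j a Z), hp_spec (Mp j).V_fg (fg_lat j a B),
    fg_lat j a Z] with n h1 h2 h3
  have hle : lat j a B n ≤ lat j a Z n := fun v hv => by
    obtain ⟨c, e1, e2, rfl⟩ := mem_lat.1 hv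
    exact mem_lat.2 ⟨c, h e1, e2, rfl⟩
  rw [eval_sub, h1, h2, tor_rel ((th j.1).toAddMonoidHom.compLeft β)
    (B' := (lat j a B n).toAddSubgroup) (Z' := (lat j a Z n).toAddSubgroup), tor_log hle h3.1]
  · push_cast; rfl
  · ext v
    constructor
    · rintro ⟨c, e, rfl⟩
      exact mem_lat.2 ⟨c, e.1, e.2, rfl⟩
    · intro hv
      obtain ⟨c, e1, e2, rfl⟩ := mem_lat.1 hv
      exact ⟨c, ⟨e1, e2⟩, rfl⟩
  · intro v hv
    refine ⟨fun e => mem_lat.2 ⟨v, e, hv.2, rfl⟩, fun e => ?_⟩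
    obtain ⟨c, e1, e2, e3⟩ := mem_lat.1 e
    have := add_mem (hB _ (tor_sub hv.2 e2 e3.symm)) e1
    rwa [sub_add_cancel] at this

theorem tor_log_fam (j : Vp 𝒜 p) {J : Ideal A} (hJ : pr j.1 ≤ J) : ∀ᶠ n : ℕ in atTop,
    Real.log (J.toAddSubgroup.relIndex (𝒜 n)) = ((Phi j J 1).eval (n : ℚ) : ℚ) * Real.log p := by
  have e : PP (Mp j).V 1 = hp ((Mp j).fam ⊤) := by
    rw [← hq_one (mdl_Mp j) ((Mp j).fg_fam ⊤), funext (Mp j).fam_top]; rfl
  rw [Phi, e, hq_one (mdl_Mp j) ((Mp j).fg_fam J)]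
  filter_upwards [hp_spec (Mp j).V_fg ((Mp j).fg_fam ⊤), hp_spec (Mp j).V_fg ((Mp j).fg_fam J),
    (Mp j).fg_fam ⊤] with n h1 h2 h3
  rw [eval_sub, h1, h2, tor_rel (th j.1).toAddMonoidHom
    (B' := ((Mp j).fam J n).toAddSubgroup) (Z' := ((Mp j).fam ⊤ n).toAddSubgroup),
    tor_log ((Mp j).fam_mono le_top n) h3.1]
  · push_cast; rfl
  · ext v
    constructor
    · rintro ⟨c, e, rfl⟩
      exact (Mp j).mem_fam.2 ⟨c, trivial, e, rfl⟩
    · intro hv
      obtain ⟨c, -, e2, rfl⟩ := (Mp j).mem_fam.1 hv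
      exact ⟨c, e2, rfl⟩
  · intro v hv
    refine ⟨fun e => (Mp j).mem_fam.2 ⟨v, e, hv, rfl⟩, fun e => ?_⟩
    obtain ⟨c, e1, e2, e3⟩ := (Mp j).mem_fam.1 e
    have h5 : v - c ∈ pr j.1 := (th_eq_zero j.1 (sub_mem hv e2)).1 (by
      rw [map_sub]; exact sub_eq_zero.2 e3.symm)
    have := add_mem (hJ h5) e1
    rwa [sub_add_cancel] at this

/-- the higher Tor modules with a locally principal prime vanish in large degrees -/
theorem tor_exact {j : Vp 𝒜 p} (hlp : (MX 𝒜).LP (pr j.1)) {β γ δ : Type} [Fintype β] [Fintype γ]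
    {a : β → ℕ} {a' : γ → ℕ} {d : (β → A) →ₗ[A] (γ → A)}
    (hd : ∀ n, ∀ v ∈ piece 𝒜 a n, d v ∈ piece 𝒜 a' n) {d' : (δ → A) →ₗ[A] (β → A)}
    (hex : Function.Exact d' d)
    (hsat : ∀ (g : A) (w : γ → A), g ≠ 0 → g • w ∈ LinearMap.range d → w ∈ LinearMap.range d) :
    lat j a ((pr j.1 • ⊤ : Submodule A (γ → A)).comap d) ≤ᶠ[atTop]
      lat j a (LinearMap.range d' ⊔ pr j.1 • ⊤) := by
  classical
  refine (Mp j).local_global (fg_lat j a _) (fg_lat j a _).fam (Eventually.of_forall ?_)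
  intro n w hw y _
  obtain ⟨v, h1, h2, rfl⟩ := mem_lat.1 hw
  obtain ⟨e, g, g1, -, g3, g4⟩ := hlp y (on_MX y)
  have h3 := tor_mem_smul.1 (Submodule.mem_comap.1 h1)
  have h4 : ∀ i, ∃ m, ∃ b ∈ 𝒜 m, b ∉ pr y ∧ g ∣ b * d v i := fun i => by
    by_cases e' : a' i ≤ n
    · obtain ⟨m, l, b, b1, c, -, b2, -, b3⟩ :=
        g4 _ _ (h3 i) ((mem_piece.1 (hd _ _ h2) i).1 e')
      exact ⟨m, b, b1, b2, c,
        (IsFractionRing.injective A (FractionRing A) b3).trans (mul_comm _ _)⟩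
    · exact ⟨0, 1, SetLike.one_mem_graded 𝒜, md_one_not_mem y,
        by rw [(mem_piece.1 (hd _ _ h2) i).2 (by omega), mul_zero]; exact dvd_zero _⟩
  choose m b b1 b2 b3 using h4
  have b4 : ∏ i, b i ∈ 𝒜 (∑ i, m i) := SetLike.prod_mem_graded 𝒜 m b fun i _ => b1 i
  have b5 : ∏ i, b i ∉ pr y := fun h => by
    obtain ⟨i, -, hi⟩ := (Ideal.IsPrime.prod_mem_iff (hp := y.isPrime)).1 h
    exact b2 i hi
  have b6 : ∀ i, g ∣ (∏ i, b i) * d v i := fun i =>
    (b3 i).trans (mul_dvd_mul_right (Finset.dvd_prod_of_mem b (Finset.mem_univ i)) _)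
  choose w' hw' using b6
  have g0 : g ≠ 0 := fun h => g3 (by rw [h, map_zero])
  have e1 : g • w' = d ((∏ i, b i) • v) := by
    funext i
    rw [map_smul, Pi.smul_apply, Pi.smul_apply, smul_eq_mul, smul_eq_mul, hw']
  obtain ⟨u, hu⟩ := hsat g w' g0 ⟨_, e1.symm⟩
  obtain ⟨t, ht⟩ := (hex ((∏ i, b i) • v - g • u)).1 (by rw [map_sub, ← e1, map_smul d g, hu, sub_self])
  refine ⟨_, _, b4, b5, mem_lat.2 ⟨(∏ i, b i) • v, ?_, ?_, ?_⟩⟩
  · exact Submodule.mem_sup.2 ⟨_, ⟨t, rfl⟩, g • u, Submodule.smul_mem_smul g1 trivial,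
      by rw [ht, sub_add_cancel]⟩
  · rw [add_comm]; exact tor_smul b4 h2
  · funext i
    rw [Pi.smul_apply, Pi.smul_apply, smul_eq_mul, smul_eq_mul, map_mul]; rfl

omit hG [GradedRing 𝒜] in
theorem tor_sat {I : Ideal A} (R : Resol 𝒜 I) (q : ℕ) (g : A) (w : Fin (R.b q) → A) (hg : g ≠ 0)
    (h : g • w ∈ LinearMap.range (R.D q)) : w ∈ LinearMap.range (R.D q) := by
  cases q with
  | zero =>
    have := (R.exact0 _).2 h
    rw [map_smul, smul_eq_zero] at this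
    exact (R.exact0 _).1 (this.resolve_left hg)
  | succ q =>
    have := (R.exact q _).2 h
    rw [map_smul, smul_eq_zero] at this
    exact (R.exact q _).1 (this.resolve_left hg)

theorem tor_formula {j z : Vp 𝒜 p} {C : Pic (Mp j).V} (h : Cls j C) (hz : pr j.1 ≤ pr z.1)
    {D : Car (Mp j).V} (hD : IsCl D ((Mp j).fam (pr z.1))) (W : Pt 𝒜) (R : Resol 𝒜 (pr W))
    {Q : ℕ} (hQ : 3 ≤ Q) : ∀ᶠ n : ℕ in atTop,
    ∑ q ∈ Finset.range Q, (-1) ^ q * Real.log (R.tor (pr z.1) n q) =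
      ((PV j C (pr W) 1 - PV j C (pr W) (cl D)).eval (n : ℚ) : ℚ) * Real.log p := by
  have hV := mdl_Mp j
  have : IsNoetherianRing (ZMod p) := inferInstance
  choose φ hφ using fun q => tor_phi j (R.D q)
  obtain ⟨ψ, hψ⟩ := tor_phiE j R.ε
  -- the families
  let N : ∀ q, ℕ → Submodule (ZMod p) (Fin (R.b q) → kap j.1) := fun q => lat j (R.a q) ⊤
  let N' : ∀ q, ℕ → Submodule (ZMod p) (Fin (R.b q) → kap j.1) :=
    fun q => lat j (R.a q) (pr z.1 • ⊤)
  let Z : ∀ q, ℕ → Submodule (ZMod p) (Fin (R.b (q + 1)) → kap j.1) := fun q n =>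
    N (q + 1) n ⊓ (⊥ : Submodule (ZMod p) _).comap ((φ q).restrictScalars (ZMod p))
  let B : ∀ q, ℕ → Submodule (ZMod p) (Fin (R.b q) → kap j.1) := fun q n =>
    (N (q + 1) n).map ((φ q).restrictScalars (ZMod p))
  have fN : ∀ q, Fg (Mp j).V (N q) := fun q => fg_lat j _ _
  have fN' : ∀ q, Fg (Mp j).V (N' q) := fun q => fg_lat j _ _
  have fB : ∀ q, Fg (Mp j).V (B q) := fun q => (fN (q + 1)).map _
  have fZ : ∀ q, Fg (Mp j).V (Z q) := fun q =>
    (fN (q + 1)).inf hV.1 (fg_const_bot.fam.comap (φ q))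
  have hN' : ∀ q, tw D (N q) =ᶠ[atTop] N' q := fun q => tor_lat_tw hD
  have hle : ∀ q n, N' q n ≤ N q n := fun q n v hv => by
    obtain ⟨c, -, e2, rfl⟩ := mem_lat.1 hv
    exact mem_lat.2 ⟨c, trivial, e2, rfl⟩
  have hI : ∀ {J : Ideal A}, pr j.1 ≤ J → ∀ q, ∀ c : Fin (R.b q) → A, (∀ i, c i ∈ pr j.1) →
      c ∈ (J • ⊤ : Submodule A (Fin (R.b q) → A)) :=
    fun hJ q c hc => tor_mem_smul.2 fun i => hJ (hc i)
  have hbot : ∀ q, lat j (R.a q) (pr j.1 • ⊤) = fun _ => ⊥ := fun q =>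
    funext (tor_lat_bot fun c hc => tor_mem_smul.1 hc)
  have hBZ : ∀ q n, B (q + 1) n ≤ Z q n := by
    rintro q n _ ⟨v, hv, rfl⟩
    obtain ⟨c, -, e2, rfl⟩ := mem_lat.1 hv
    refine ⟨mem_lat.2 ⟨_, trivial, R.homD _ _ _ e2, (hφ _ c).symm⟩, ?_⟩
    show φ q (φ (q + 1) _) = 0
    rw [hφ, hφ, (R.exact q).apply_apply_eq_zero]
    funext l
    exact map_zero _
  have hZB : ∀ q, Z q =ᶠ[atTop] B (q + 1) := fun q => by
    have h1 := tor_exact h.lp (R.homD q) (R.exact q) (tor_sat R q)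
    rw [tor_lat_comap (R.homD q) (hφ q) (hI le_rfl q),
      tor_lat_range (R.homD (q + 1)) (hφ (q + 1)) (torH_smul (pr_hom j.1)), hbot, hbot] at h1
    filter_upwards [h1] with n hn
    exact le_antisymm (hn.trans (sup_bot_eq _).le) (hBZ q n)
  have htZ : ∀ q, tw D (Z q) =ᶠ[atTop] fun n =>
      N' (q + 1) n ⊓ (⊥ : Submodule (ZMod p) _).comap ((φ q).restrictScalars (ZMod p)) := fun q => by
    filter_upwards [tw_inf_comap hV (fN (q + 1)) fg_const_bot (φ q) D, hN' (q + 1)] with n h1 h2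
    refine h1.trans ?_
    rw [h2, show tw D (fun _ => (⊥ : Submodule (ZMod p) (Fin (R.b q) → kap j.1))) n = ⊥ from
      Submodule.smul_bot _]
  have htB : ∀ q, tw D (B q) =ᶠ[atTop] fun n =>
      (N' (q + 1) n).map ((φ q).restrictScalars (ZMod p)) := fun q => by
    filter_upwards [hN' (q + 1)] with n h2
    rw [← h2]
    exact congrFun (tw_map D (N (q + 1)) (φ q)) n
  -- the Tor modules
  have hcyc : ∀ q, LinearMap.range (R.D q) ⊔ pr z.1 • ⊤ ≤ R.cyc (pr z.1) q := by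
    intro q
    refine sup_le ?_ ?_
    · rintro _ ⟨v, rfl⟩
      cases q with
      | zero =>
        show R.ε _ ∈ pr z.1
        rw [R.exact0.apply_apply_eq_zero]; exact zero_mem _
      | succ q =>
        show R.D q _ ∈ (pr z.1 • ⊤ : Submodule A (Fin (R.b q) → A))
        rw [(R.exact q).apply_apply_eq_zero]; exact zero_mem _
    · refine Submodule.smul_le.2 fun r hr v _ => ?_
      cases q with
      | zero =>
        show R.ε _ ∈ pr z.1
        rw [map_smul]; exact Ideal.mul_mem_right _ _ hr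
      | succ q =>
        show R.D q _ ∈ (pr z.1 • ⊤ : Submodule A (Fin (R.b q) → A))
        rw [map_smul]; exact Submodule.smul_mem_smul hr trivial
  have hT : ∀ q, ∀ᶠ n : ℕ in atTop, Real.log (R.tor (pr z.1) n (q + 1)) =
      ((hq (Mp j).V (lat j (R.a q) (R.cyc (pr z.1) q)) 1 -
        hq (Mp j).V (fun n => B q n ⊔ N' q n) 1).eval (n : ℚ) : ℚ) * Real.log p := fun q => by
    have h1 := tor_log_lat j (R.a q) (hcyc q) fun c hc => Submodule.mem_sup_right (hI hz q c hc)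
    rw [tor_lat_range (R.homD q) (hφ q) (torH_smul (pr_hom z.1))] at h1
    exact h1
  have hC : ∀ q, lat j (R.a (q + 1)) (R.cyc (pr z.1) (q + 1)) = fun n =>
      N (q + 1) n ⊓ (N' q n).comap ((φ q).restrictScalars (ZMod p)) := fun q =>
    tor_lat_comap (R.homD q) (hφ q) (hI hz q)
  induction Q, hQ using Nat.le_induction with
  | succ Q hQ ih =>
    obtain ⟨q, rfl⟩ : ∃ q, Q = q + 3 := ⟨Q - 3, by omega⟩
    have e : lat j (R.a (q + 2)) (R.cyc (pr z.1) (q + 2)) =ᶠ[atTop]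
        fun n => B (q + 2) n ⊔ N' (q + 2) n := by
      have h1 := hC (q + 1)
      have h2 := tor_lat_range (R.homD (q + 2)) (hφ (q + 2)) (torH_smul (pr_hom z.1))
      filter_upwards [hZB (q + 1), htZ q, htB (q + 1), tw_congr D (hZB q)] with n e1 e2 e3 e4
      refine le_antisymm ?_ ?_
      · rw [h1]
        rintro v ⟨v1, v2⟩
        have v3 : φ (q + 1) v ∈ tw D (Z q) n := by
          rw [e2]; exact ⟨v2, (hBZ q n ⟨v, v1, rfl⟩).2⟩
        rw [e4, e3] at v3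
        obtain ⟨w, w1, w2⟩ := v3
        have v4 : v - w ∈ Z (q + 1) n := ⟨sub_mem v1 (hle _ _ w1), by
          show φ (q + 1) (v - w) = 0
          rw [map_sub]; exact sub_eq_zero.2 w2.symm⟩
        rw [e1] at v4
        exact Submodule.mem_sup.2 ⟨_, v4, w, w1, sub_add_cancel _ _⟩
      · refine (congrFun h2 n).ge.trans fun v hv => ?_
        obtain ⟨c, c1, c2, rfl⟩ := mem_lat.1 hv
        exact mem_lat.2 ⟨c, hcyc _ c1, c2, rfl⟩
    filter_upwards [ih, hT (q + 2)] with n h1 h2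
    rw [hq_congr e, sub_self] at h2
    rw [Finset.sum_range_succ, h1, h2]
    simp
  | base =>
    have hfam : (Mp j).fam (pr W) = fun n => (N 0 n).map (ψ.restrictScalars (ZMod p)) :=
      (congrArg (Mp j).fam R.range.symm).trans (tor_fam_range R.homε hψ)
    have hTT : ∀ E, PV j C (pr W) E = PP (Mp j).V E - hq (Mp j).V (N 0) E + hq (Mp j).V (N 1) E -
        hq (Mp j).V (Z 0) E := fun E => by
      have i1 := hq_iso hV (fN 0) (fg_const_bot (E := kap j.1)) ψ E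
      have i2 := hq_iso hV (fN 1) fg_const_bot (φ 0) E
      have e1 : lat j (R.a 0) (LinearMap.ker R.ε) = B 0 := by
        have := tor_lat_range (R.homD 0) (hφ 0) (Z := ⊥) (fun n c hc => by
          rw [(Submodule.mem_bot _).1 hc, map_zero]; exact zero_mem _)
        rw [sup_bot_eq, ← LinearMap.exact_iff.1 R.exact0] at this
        rw [this]
        funext n
        rw [tor_lat_bot (Z := ⊥) fun c hc i => by rw [(Submodule.mem_bot _).1 hc]; exact zero_mem _,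
          sup_bot_eq]
      simp only [sup_bot_eq, hq_bot, sub_zero] at i1 i2
      rw [← TT_prime h R.homε W.isPrime R.range, TT, R.range, Phi, hfam, e1,
        tor_lat_comapE R.homε hψ le_rfl, funext (tor_fam_bot (j := j))]
      linear_combination i1 - i2
    have fJ := (Mp j).fg_fam (pr z.1)
    have i1 := hq_iso hV (fN 0) fJ ψ 1
    have i2 := hq_iso hV (fN 1) (fN' 0) (φ 0) 1
    have i3 := hq_sup_inf hV (fB 1) (fN' 1) 1
    have t0 : hq (Mp j).V ((Mp j).fam (pr z.1)) 1 = PP (Mp j).V (cl D) := by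
      rw [hD.hq_eq hV, one_mul]
    have t1 : ∀ q, hq (Mp j).V (N' q) 1 = hq (Mp j).V (N q) (cl D) := fun q => by
      rw [← hq_congr (hN' q), hq_tw hV (fN q), one_mul]
    have t2 : hq (Mp j).V (fun n => B 1 n ⊓ N' 1 n) 1 = hq (Mp j).V (Z 0) (cl D) := by
      have : (fun n => B 1 n ⊓ N' 1 n) =ᶠ[atTop] tw D (Z 0) := by
        filter_upwards [hZB 0, htZ 0] with n e1 e2
        rw [e2, ← e1]
        exact le_antisymm (fun v hv => ⟨hv.2, hv.1.2⟩) fun v hv => ⟨⟨hle _ _ hv.1, hv.2⟩, hv.1⟩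
      rw [hq_congr this, hq_tw hV (fZ 0), one_mul]
    have t3 : hq (Mp j).V (B 1) 1 = hq (Mp j).V (Z 0) 1 := by rw [hq_congr (hZB 0)]
    have t4 : Phi j (pr W ⊔ pr z.1) 1 = PP (Mp j).V 1 - hq (Mp j).V
        (fun n => (N 0 n).map (ψ.restrictScalars (ZMod p)) ⊔ (Mp j).fam (pr z.1) n) 1 := by
      rw [Phi, funext ((Mp j).fam_sup (pr_hom W) (pr_hom z.1)), hfam]
    have t5 : lat j (R.a 0) (R.cyc (pr z.1) 0) = fun n =>
        N 0 n ⊓ ((Mp j).fam (pr z.1) n).comap (ψ.restrictScalars (ZMod p)) :=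
      tor_lat_comapE R.homε hψ hz
    have key : PV j C (pr W) 1 - PV j C (pr W) (cl D) = Phi j (pr W ⊔ pr z.1) 1 -
        (hq (Mp j).V (lat j (R.a 0) (R.cyc (pr z.1) 0)) 1 -
          hq (Mp j).V (fun n => B 0 n ⊔ N' 0 n) 1) +
        (hq (Mp j).V (lat j (R.a 1) (R.cyc (pr z.1) 1)) 1 -
          hq (Mp j).V (fun n => B 1 n ⊔ N' 1 n) 1) := by
      rw [hTT, hTT, t4, t5, hC 0]
      linear_combination -i1 + i2 + i3 + t0 - t1 0 + t1 1 - t2 + t3
    filter_upwards [tor_log_fam j (hz.trans (le_sup_right : pr z.1 ≤ pr W ⊔ pr z.1)), hT 0, hT 1]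
      with n h0 h1 h2
    have h0' : Real.log (R.tor (pr z.1) n 0) = _ := h0
    rw [Finset.sum_range_succ, Finset.sum_range_succ, Finset.sum_range_one, h0', h1, h2, key]
    simp only [eval_add, eval_sub]
    push_cast
    ring

theorem isInt_of_lev {j z : Vp 𝒜 p} {C : Pic (Mp j).V} (h : Cls j C) (hz : pr j.1 ≤ pr z.1)
    {D : Car (Mp j).V} (hD : IsCl D ((Mp j).fam (pr z.1))) (W : Pt 𝒜)
    (hL : Lev 2 (PV j C (pr W))) {d : ℕ} (hd : 1 ≤ d) :
    IsInt d W z.1 ((Psi j C (pr W) (cl D) : ℚ) * Real.log p) := by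
  refine ⟨exists_resol (pr_hom W), fun R => ?_⟩
  have h1 := eq_C_of_mem_degreeLT_one ((Lev.dl (s := 1) hL (cl D)).mem 1)
  have h2 : PV j C (pr W) 1 - PV j C (pr W) (cl D) = Polynomial.C (Psi j C (pr W) (cl D)) := by
    rw [Psi, lin, map_neg, ← h1, dl, one_mul, neg_sub]
  filter_upwards [tor_formula h hz hD W R (Q := d + 2) (by omega)] with n hn
  rw [hn, h2, eval_C]

omit hG in
theorem IsInt.unique {d : ℕ} {x z : Pt 𝒜} {v v' : ℝ} (h : IsInt d x z v) (h' : IsInt d x z v') :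
    v = v' := by
  obtain ⟨R⟩ := h.1
  obtain ⟨n, h1, h2⟩ := ((h.2 R).and (h'.2 R)).exists
  exact h1.symm.trans h2

end

end Pool.Agent.Lib.MP_62d77c_ag
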