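import Pool.Agent.Lib.MP_62d77c_ag.LAA

/-! Linear algebra on the dual graph. -/

set_option autoImplicit false

namespace Pool.Agent.Lib.MP_62d77c_ag

open Filter Polynomial Submodule

noncomputable section

theorem finRk_of_good {G : Type} [CommGroup G] {β : G → G → ℚ} {L : G} (h : Good β L) {M : ℕ}
    (hM : 0 < M) (hint : ∀ x y, ∃ z : ℤ, (M : ℚ) * β x y = z) {p : ℕ} (hp : 1 < p)
    (hfin : Finite (G ⧸ (powMonoidHom p : G →* G).range)) : FinRk G :=
  LA_finRk h hM hint hp hfin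

theorem LA_edge {J 𝒮 : Type} [Fintype J] [Fintype 𝒮] [DecidableEq J] (a b : 𝒮 → J)
    (hab : ∀ S, a S ≠ b S) (F : 𝒮 → J → J → ℚ) :
    ∑ k, ∑ j with j ≠ k, ∑ S with (j = a S ∨ j = b S) ∧ (k = a S ∨ k = b S), F S j k =
      ∑ S, (F S (a S) (b S) + F S (b S) (a S)) := by
  have key : ∀ S k j, (if j ≠ k then
      (if (j = a S ∨ j = b S) ∧ (k = a S ∨ k = b S) then F S j k else 0) else 0) =
      (if j = a S then (if k = b S then F S j k else 0) else 0) +
        (if j = b S then (if k = a S then F S j k else 0) else 0) := by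
    intro S k j
    have := hab S
    by_cases h1 : j = a S <;> by_cases h2 : j = b S <;> by_cases h3 : k = a S <;>
      by_cases h4 : k = b S <;> simp_all [eq_comm]
  simp only [Finset.sum_filter]
  have e : ∀ k j : J, (if j ≠ k then ∑ S, (if (j = a S ∨ j = b S) ∧ (k = a S ∨ k = b S)
      then F S j k else 0) else 0) = ∑ S, (if j ≠ k then
      (if (j = a S ∨ j = b S) ∧ (k = a S ∨ k = b S) then F S j k else 0) else 0) := by
    intro k j
    split_ifs <;> simp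
  simp only [e, key]
  rw [Finset.sum_congr rfl fun k _ => Finset.sum_comm, Finset.sum_comm]
  refine Finset.sum_congr rfl fun S _ => ?_
  simp [Finset.sum_add_distrib]

/-- signed incidence -/
def LA_inc {J 𝒮 : Type} [DecidableEq J] (a b : 𝒮 → J) (j : J) (S : 𝒮) : ℤ :=
  (if a S = j then 1 else 0) - if b S = j then 1 else 0

theorem LA_inc_sum {J 𝒮 : Type} [Fintype J] [DecidableEq J] (a b : 𝒮 → J) (f : J → ℚ) (S : 𝒮) :
    ∑ j, (LA_inc a b j S : ℚ) * f j = f (a S) - f (b S) := by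
  simp [LA_inc, sub_mul, Finset.sum_sub_distrib]

theorem LA_lap {J 𝒮 : Type} [Fintype J] [Fintype 𝒮] [DecidableEq J] (a b : 𝒮 → J) (w g : 𝒮 → ℚ)
    (hw : ∀ S, 0 < w S) : ∃ α : J → ℚ, ∀ j,
      ∑ S, (LA_inc a b j S : ℚ) * (g S - w S * (α (a S) - α (b S))) = 0 := by
  have e : ∀ (x : J → ℚ) i, ∑ j, (∑ S, (LA_inc a b i S : ℚ) * w S * LA_inc a b j S) * x j =
      ∑ S, (LA_inc a b i S : ℚ) * (w S * (x (a S) - x (b S))) := by
    intro x i
    simp only [Finset.sum_mul]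
    rw [Finset.sum_comm]
    refine Finset.sum_congr rfl fun S _ => ?_
    rw [← LA_inc_sum a b x S, Finset.mul_sum, Finset.mul_sum]
    exact Finset.sum_congr rfl fun j _ => by ring
  have e' : ∀ (x : J → ℚ) (u : 𝒮 → ℚ), ∑ j, (∑ S, (LA_inc a b j S : ℚ) * u S) * x j =
      ∑ S, u S * (x (a S) - x (b S)) := by
    intro x u
    simp only [Finset.sum_mul]
    rw [Finset.sum_comm]
    refine Finset.sum_congr rfl fun S _ => ?_
    rw [← LA_inc_sum a b x S, Finset.mul_sum]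
    exact Finset.sum_congr rfl fun j _ => by ring
  obtain ⟨α, hα⟩ := LA_dual' (fun i j => ∑ S, (LA_inc a b i S : ℚ) * w S * LA_inc a b j S)
    (fun j => ∑ S, (LA_inc a b j S : ℚ) * g S) (fun x hx => by
      have h0 := e' x fun S => w S * (x (a S) - x (b S))
      simp only [e] at hx
      simp only [hx, zero_mul, Finset.sum_const_zero] at h0
      have h1 := (Finset.sum_eq_zero_iff_of_nonneg fun S _ => by
        rw [mul_assoc]; exact mul_nonneg (hw S).le (mul_self_nonneg _)).1 h0.symm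
      rw [e']
      refine Finset.sum_eq_zero fun S hS => ?_
      have h2 := h1 S hS
      rw [mul_assoc] at h2
      rw [mul_self_eq_zero.1 ((mul_eq_zero.1 h2).resolve_left (hw S).ne'), mul_zero])
  refine ⟨α, fun j => ?_⟩
  simp only [mul_sub (LA_inc a b j _ : ℚ), Finset.sum_sub_distrib]
  rw [hα j, ← e α j, sub_eq_zero]
  refine Finset.sum_congr rfl fun i _ => ?_
  rw [mul_comm]
  congr 1
  exact Finset.sum_congr rfl fun S _ => by ring

theorem LA_Ad.pi {J : Type} [Fintype J] {P : J → Type} [∀ j, CommGroup (P j)]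
    {f : ∀ j, P j → ℚ} (h : ∀ j, LA_Ad (f j)) : LA_Ad fun z : ∀ j, P j => ∑ j, f j (z j) :=
  fun x y => by
    rw [← Finset.sum_add_distrib]
    exact Finset.sum_congr rfl fun j _ => h j _ _

theorem LA_Ad.comb {G ι : Type} [CommGroup G] [Fintype ι] {f : G → ℚ} (h : LA_Ad f) (e : ι → G)
    (k : ι → ℤ) : f (∏ i, e i ^ k i) = ∑ i, k i * f (e i) := by
  rw [h.prod]
  exact Finset.sum_congr rfl fun i _ => h.zpow _ _

theorem LA_fin {J 𝒲 : Type} [Fintype J] (P : J → Type) [∀ j, CommGroup (P j)]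
    (hfin : ∀ j, FinRk (P j)) (Ψ : 𝒲 → ∀ j, P j → ℚ) (φ : ∀ j, P j → ℚ)
    (hΨ : ∀ W j, LA_Ad (Ψ W j)) (hφ : ∀ j, LA_Ad (φ j))
    (h : ∀ z : ∀ j, P j, (∀ W, ∑ j, Ψ W j (z j) = 0) → ∑ j, φ j (z j) = 0) :
    ∃ y : 𝒲 →₀ ℚ, ∀ (j : J) (z : P j), φ j z + (y.sum fun W n => n * Ψ W j z) = 0 := by
  classical
  choose g gf hg using fun j => (hfin j).LA_gen
  have : ∀ j, Fintype (g j) := fun j => (gf j).fintype
  have single : ∀ f : ∀ j, P j → ℚ, (∀ j, LA_Ad (f j)) → ∀ (j : J) (x : P j),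
      ∑ i, f i (Pi.mulSingle j x i) = f j x := by
    intro f hf j x
    rw [Finset.sum_eq_single j (fun i _ hi => by rw [Pi.mulSingle_eq_of_ne hi, (hf i).one])
      (by simp), Pi.mulSingle_eq_same]
  obtain ⟨y, hy⟩ := LA_dual (n := Σ j, g j) (fun W i => Ψ W i.1 i.2.1) (fun i => -φ i.1 i.2.1)
    (fun x hx => by
      obtain ⟨N, N0, k, hk⟩ := LA_scale x
      have key : ∀ f : ∀ j, P j → ℚ, (∀ j, LA_Ad (f j)) →
          ∑ j, f j ((∏ i : Σ j, g j, Pi.mulSingle i.1 i.2.1 ^ k i : ∀ j, P j) j) =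
            N * ∑ i : Σ j, g j, f i.1 i.2.1 * x i := by
        intro f hf
        rw [(LA_Ad.pi hf).comb, Finset.mul_sum]
        exact Finset.sum_congr rfl fun i _ => by rw [single f hf, hk]; ring
      have := h _ fun W => by rw [key _ (hΨ W), hx W, mul_zero]
      rw [key _ hφ] at this
      simp only [neg_mul, Finset.sum_neg_distrib, neg_eq_zero]
      exact (mul_eq_zero.1 this).resolve_left (by exact_mod_cast N0.ne'))
  refine ⟨y, fun j => hg j _ (fun u v => ?_) fun x hx => ?_⟩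
  · simp only [Finsupp.sum, hφ j u v, hΨ _ j u v, mul_add, Finset.sum_add_distrib]
    ring
  · rw [← hy ⟨j, x, hx⟩, add_neg_cancel]

theorem lin_alg {J 𝒮 𝒲 : Type} [Fintype J] [Fintype 𝒮] [DecidableEq J]
    (P : J → Type) [∀ j, CommGroup (P j)] (Q : 𝒮 → Type) [∀ S, CommGroup (Q S)]
    (a b : 𝒮 → J) (hab : ∀ S, a S ≠ b S) (ρ : ∀ j S, P j →* Q S) (L : ∀ j, P j) (L' : ∀ S, Q S)
    (s : ∀ (j : J) (_ : 𝒮), P j) (β : ∀ j, P j → P j → ℚ) (γ : ∀ S, Q S → Q S → ℚ)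
    (m : J → ℕ) (hm : ∀ j, 0 < m j) (c : ℚ) (hc : c ≠ 0)
    (hβ : ∀ j, Good (β j) (L j)) (hγ : ∀ S, Good (γ S) (L' S))
    (hL : ∀ S j, j = a S ∨ j = b S → ρ j S (L j) = L' S)
    (hs : ∀ S j, j = a S ∨ j = b S → ∀ u, β j u (s j S) = c * γ S (ρ j S u) (L' S))
    (hfin : ∀ j, FinRk (P j)) (Ψ : 𝒲 → ∀ j, P j → ℚ) (φ : ∀ j, P j → ℚ)
    (hΨ : ∀ W j x y, Ψ W j (x * y) = Ψ W j x + Ψ W j y)
    (hφ : ∀ j x y, φ j (x * y) = φ j x + φ j y)
    (hK : ∀ z : ∀ j, P j, (∀ W, ∑ j, Ψ W j (z j) = 0) → ∀ (k : J) (x : P k),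
      ∑ j with j ≠ k, ∑ S with (j = a S ∨ j = b S) ∧ (k = a S ∨ k = b S),
        (γ S (ρ j S (z j)) (ρ k S x) - (m j / m k : ℚ) * γ S (ρ k S (z k)) (ρ k S x)) = 0)
    (hsΨ : ∀ S W, Ψ W (a S) (s (a S) S) = Ψ W (b S) (s (b S) S))
    (hsφ : ∀ S, φ (a S) (s (a S) S) = φ (b S) (s (b S) S))
    (hglue : ∀ u : ∀ j, P j, (∀ S, ρ (a S) S (u (a S)) = ρ (b S) S (u (b S))) →
      ∑ j, (m j : ℚ) * φ j (u j) = 0) :
    ∃ y : 𝒲 →₀ ℚ, ∀ (j : J) (z : P j), φ j z + (y.sum fun W n => n * Ψ W j z) = 0 := by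
  refine LA_fin P hfin Ψ φ hΨ hφ fun z hz => ?_
  have m0 : ∀ j, (0 : ℚ) < m j := fun j => by exact_mod_cast hm j
  let e : 𝒮 → ∀ j, P j := fun S j => s j S ^ LA_inc a b j S
  have he : ∀ f : ∀ j, P j → ℚ, (∀ j, LA_Ad (f j)) → ∀ S,
      ∑ j, f j (e S j) = f (a S) (s (a S) S) - f (b S) (s (b S) S) := by
    intro f hf S
    rw [← LA_inc_sum a b (fun j => f j (s j S)) S]
    exact Finset.sum_congr rfl fun j _ => (hf j).zpow _ _
  let δ : 𝒮 → (∀ j, P j) → ℚ := fun S z =>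
    γ S (ρ (a S) S (z (a S))) (L' S) / m (a S) - γ S (ρ (b S) S (z (b S))) (L' S) / m (b S)
  have δad : ∀ S, LA_Ad (δ S) := fun S x y => by
    simp only [δ, Pi.mul_apply, map_mul, (hγ S).add]; ring
  let pair : (∀ j, P j) → (∀ j, P j) → ℚ := fun x y => ∑ j, β j (x j) (y j) / m j
  have pf : ∀ (x : ∀ j, P j) j, LA_Ad fun u => β j (x j) u / m j := fun x j u v => by
    simp only [(hβ j).LA_r (x j) u v, add_div]
  have pad : ∀ x, LA_Ad (pair x) := fun x => LA_Ad.pi (pf x)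
  have psym : ∀ x y, pair x y = pair y x := fun x y =>
    Finset.sum_congr rfl fun j _ => by rw [(hβ j).symm]
  have pe : ∀ x S, pair x (e S) = c * δ S x := fun x S => by
    refine (he _ (pf x) S).trans ?_
    rw [hs S _ (.inl rfl), hs S _ (.inr rfl)]
    simp only [δ]; ring
  have esym : ∀ S T, δ S (e T) = δ T (e S) := fun S T =>
    mul_left_cancel₀ hc (by rw [← pe, ← pe, psym])
  have eΨ : ∀ S W, ∑ j, Ψ W j (e S j) = 0 := fun S W => by
    rw [he _ (hΨ W), hsΨ, sub_self]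
  have eφ : ∀ S, ∑ j, φ j (e S j) = 0 := fun S => by rw [he _ hφ, hsφ, sub_self]
  have K : ∀ z : ∀ j, P j, (∀ W, ∑ j, Ψ W j (z j) = 0) → ∀ (x : ∀ j, P j) (ω : J → ℚ),
      ∑ S, (ω (b S) * (γ S (ρ (a S) S (z (a S))) (ρ (b S) S (x (b S))) -
          (m (a S) / m (b S) : ℚ) * γ S (ρ (b S) S (z (b S))) (ρ (b S) S (x (b S)))) +
        ω (a S) * (γ S (ρ (b S) S (z (b S))) (ρ (a S) S (x (a S))) -
          (m (b S) / m (a S) : ℚ) * γ S (ρ (a S) S (z (a S))) (ρ (a S) S (x (a S))))) = 0 := by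
    intro z hz x ω
    rw [← LA_edge a b hab fun S j k => ω k * (γ S (ρ j S (z j)) (ρ k S (x k)) -
      (m j / m k : ℚ) * γ S (ρ k S (z k)) (ρ k S (x k)))]
    refine Finset.sum_eq_zero fun k _ => ?_
    simp only [← Finset.mul_sum]
    rw [hK z hz k (x k), mul_zero]
  have B : ∀ z : ∀ j, P j, (∀ W, ∑ j, Ψ W j (z j) = 0) → ∀ α : J → ℚ,
      ∑ S, δ S z * (m (a S) * m (b S) * (α (a S) - α (b S))) = 0 := by
    intro z hz α
    rw [← neg_eq_zero, ← Finset.sum_neg_distrib, ← K z hz L fun j => α j * m j]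
    refine Finset.sum_congr rfl fun S _ => ?_
    rw [hL S _ (.inl rfl), hL S _ (.inr rfl)]
    have := (m0 (a S)).ne'
    have := (m0 (b S)).ne'
    simp only [δ]
    field_simp
    ring
  have Cc : ∀ h : 𝒮 → ℚ, (∀ T, ∑ S, δ S (e T) * h S = 0) →
      (∀ j, ∑ S, (LA_inc a b j S : ℚ) * (γ S (L' S) (L' S) * h S) = 0) →
      ∀ z, ∑ S, δ S z * h S = 0 := by
    intro h h1 h2 z
    obtain ⟨N, N0, k, hk⟩ := LA_scale h
    set x : ∀ j, P j := ∏ S, e S ^ k S with hx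
    have px : ∀ u, pair u x = c * N * ∑ S, δ S u * h S := fun u => by
      rw [hx, (pad u).comb, Finset.mul_sum]
      exact Finset.sum_congr rfl fun S _ => by rw [pe, hk]; ring
    have xL : ∀ j, β j (x j) (L j) = 0 := fun j => by
      have ad : LA_Ad fun u : ∀ j, P j => β j (u j) (L j) := fun u v => (hβ j).add _ _ _
      rw [hx, ad.comb, ← mul_zero (c * N), ← h2 j, Finset.mul_sum]
      refine Finset.sum_congr rfl fun S _ => ?_
      have := ((hβ j).LA_l (L j)).zpow (s j S) (LA_inc a b j S)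
      simp only [e]
      rw [this, hk]
      by_cases hj : j = a S ∨ j = b S
      · rw [(hβ j).symm, hs S j hj, hL S j hj]; ring
      · rw [not_or] at hj
        simp [LA_inc, Ne.symm hj.1, Ne.symm hj.2]
    have xx : pair x x = 0 := by
      rw [px, Finset.sum_eq_zero fun S _ => ?_, mul_zero]
      rw [hx, (δad S).comb]
      have : ∑ T, (k T : ℚ) * δ S (e T) = N * ∑ T, δ T (e S) * h T := by
        rw [Finset.mul_sum]
        exact Finset.sum_congr rfl fun T _ => by rw [hk, esym]; ring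
      rw [this, h1, mul_zero, zero_mul]
    have x0 := (Finset.sum_eq_zero_iff_of_nonpos fun j _ =>
      div_nonpos_of_nonpos_of_nonneg ((hβ j).hi _ (xL j)) (m0 j).le).1 xx
    have zx : pair z x = 0 := Finset.sum_eq_zero fun j hj => by
      rw [((hβ j).LA_r (z j)).tors ((hβ j).tors _ (xL j)
        ((div_eq_zero_iff.1 (x0 j hj)).resolve_right (m0 j).ne')), zero_div]
    rw [px] at zx
    exact (mul_eq_zero.1 zx).resolve_left (mul_ne_zero hc (by exact_mod_cast N0.ne'))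
  obtain ⟨y, hy⟩ := LA_dual' (fun T S => δ S (e T)) (fun S => δ S z) fun h h1 => by
    obtain ⟨α, hα⟩ := LA_lap a b (fun S => γ S (L' S) (L' S) * (m (a S) * m (b S)))
      (fun S => γ S (L' S) (L' S) * h S) fun S => mul_pos (hγ S).pos (mul_pos (m0 _) (m0 _))
    have := Cc (fun S => h S - m (a S) * m (b S) * (α (a S) - α (b S)))
      (fun T => by simp only [mul_sub (δ _ _), Finset.sum_sub_distrib, h1 T, B _ (eΨ T), sub_zero])
      (fun j => by rw [← hα j]; exact Finset.sum_congr rfl fun S _ => by ring) z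
    simpa only [mul_sub (δ _ _), Finset.sum_sub_distrib, B z hz, sub_zero] using this
  obtain ⟨N, N0, k, hk⟩ := LA_scale y
  set x : ∀ j, P j := z ^ N * (∏ S, e S ^ k S)⁻¹ with hx
  have fx : ∀ f : (∀ j, P j) → ℚ, LA_Ad f → f x = N * (f z - ∑ S, y S * f (e S)) := fun f hf => by
    rw [hx, hf, hf.pow, hf.inv, hf.comb, mul_sub, Finset.mul_sum, sub_eq_add_neg]
    simp only [hk, mul_assoc]
  have xδ : ∀ S, δ S x = 0 := fun S => by rw [fx _ (δad S), ← hy S, sub_self, mul_zero]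
  have xΨ : ∀ W, ∑ j, Ψ W j (x j) = 0 := fun W => by
    rw [fx _ (LA_Ad.pi (hΨ W))]
    simp [hz W, eΨ]
  have xφ : ∑ j, φ j (x j) = N * ∑ j, φ j (z j) := by
    rw [fx _ (LA_Ad.pi hφ)]
    simp [eφ]
  let w : ∀ S, Q S := fun S => ρ (a S) S (x (a S)) ^ m (b S) * (ρ (b S) S (x (b S)) ^ m (a S))⁻¹
  have fw : ∀ S (f : Q S → ℚ), LA_Ad f → f (w S) =
      m (b S) * f (ρ (a S) S (x (a S))) - m (a S) * f (ρ (b S) S (x (b S))) := fun S f hf => by
    simp only [w]
    rw [hf, hf.inv, hf.pow, hf.pow, sub_eq_add_neg]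
  have wL : ∀ S, γ S (w S) (L' S) = 0 := fun S => by
    have h1 := xδ S
    have := (m0 (a S)).ne'
    have := (m0 (b S)).ne'
    rw [fw S _ ((hγ S).LA_l (L' S))]
    simp only [δ] at h1
    field_simp at h1
    linarith
  have ww : ∑ S, γ S (w S) (w S) / (m (a S) * m (b S)) = 0 := by
    rw [← neg_eq_zero, ← Finset.sum_neg_distrib, ← K x xΨ x fun _ => 1]
    refine Finset.sum_congr rfl fun S _ => ?_
    have := (m0 (a S)).ne'
    have := (m0 (b S)).ne'
    rw [fw S _ ((hγ S).LA_l (w S)), fw S _ ((hγ S).LA_r _), fw S _ ((hγ S).LA_r _),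
      (hγ S).symm (ρ (b S) S (x (b S))) (ρ (a S) S (x (a S)))]
    field_simp
    ring
  have w0 := (Finset.sum_eq_zero_iff_of_nonpos fun S _ =>
    div_nonpos_of_nonpos_of_nonneg ((hγ S).hi _ (wL S)) (mul_pos (m0 _) (m0 _)).le).1 ww
  choose n n0 hn using fun S => (hγ S).tors _ (wL S)
    ((div_eq_zero_iff.1 (w0 S (Finset.mem_univ _))).resolve_right (mul_pos (m0 _) (m0 _)).ne')
  choose q hq using fun j => Finset.dvd_prod_of_mem m (Finset.mem_univ j)
  choose r hr using fun S => Finset.dvd_prod_of_mem n (Finset.mem_univ S)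
  have gl := hglue (fun j => x j ^ ((∏ S, n S) * ((∏ i, m i) * q j))) fun S => by
    have h1 : (ρ (a S) S (x (a S)) ^ m (b S)) ^ n S = (ρ (b S) S (x (b S)) ^ m (a S)) ^ n S := by
      have := hn S
      simp only [w] at this
      rwa [mul_pow, inv_pow, mul_inv_eq_one] at this
    have e1 : (∏ S, n S) * ((∏ i, m i) * q (a S)) =
        m (b S) * n S * (r S * q (a S) * q (b S)) := by rw [hr S, hq (b S)]; ring
    have e2 : (∏ S, n S) * ((∏ i, m i) * q (b S)) =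
        m (a S) * n S * (r S * q (a S) * q (b S)) := by rw [hr S, hq (a S)]; ring
    rw [map_pow, map_pow, e1, e2]
    simp only [pow_mul, h1]
  have e3 : ∑ j, (m j : ℚ) * φ j (x j ^ ((∏ S, n S) * ((∏ i, m i) * q j))) =
      (((∏ S, n S) * ((∏ i, m i) * ∏ i, m i) : ℕ) : ℚ) * ∑ j, φ j (x j) := by
    rw [Finset.mul_sum]
    refine Finset.sum_congr rfl fun j _ => ?_
    rw [LA_Ad.pow (hφ j), ← mul_assoc, ← Nat.cast_mul]
    congr 2
    rw [hq j]; ring
  rw [e3, xφ] at gl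
  have p1 : 0 < (∏ S, n S) * ((∏ i, m i) * ∏ i, m i) :=
    Nat.mul_pos (Finset.prod_pos fun S _ => n0 S)
      (Nat.mul_pos (Finset.prod_pos fun i _ => hm i) (Finset.prod_pos fun i _ => hm i))
  exact (mul_eq_zero.1 ((mul_eq_zero.1 gl).resolve_left (by exact_mod_cast p1.ne'))).resolve_left
    (by exact_mod_cast N0.ne')

end

end Pool.Agent.Lib.MP_62d77c_ag
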