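import Pool.Agent.Lib.MP_62d77c_ag.Chart

/-! Almost all fibres are regular. -/

set_option autoImplicit false

namespace Pool.Agent.Lib.MP_62d77c_ag

open Filter Polynomial Submodule

noncomputable section

/-- in a local ring that is formally smooth over the integers, no prime number lies in the square
of the maximal ideal: lift the residue map to Witt vectors of length two -/
theorem smooth_not_mem_sq {R : Type} [CommRing R] [IsLocalRing R] [Algebra.FormallySmooth ℤ R]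
    {q : ℕ} (hq : q.Prime) : (q : R) ∉ IsLocalRing.maximalIdeal R ^ 2 := by
  intro h
  have : Fact q.Prime := ⟨hq⟩
  have h1 : (q : R) ∈ IsLocalRing.maximalIdeal R := Ideal.pow_le_self two_ne_zero h
  let k := AlgebraicClosure (IsLocalRing.ResidueField R)
  let f : R →+* k := (algebraMap (IsLocalRing.ResidueField R) k).comp (IsLocalRing.residue R)
  have hf : ∀ x ∈ IsLocalRing.maximalIdeal R, f x = 0 := fun x hx => by
    simp only [f, RingHom.comp_apply, (IsLocalRing.residue_eq_zero_iff x).2 hx, map_zero]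
  have hk : CharP k q := (CharP.charP_iff_prime_eq_zero hq).2 (by rw [← map_natCast f]; exact hf _ h1)
  let J : Ideal (WittVector q k) := Ideal.span {(q : WittVector q k)}
  have hker : RingHom.ker (WittVector.constantCoeff : WittVector q k →+* k) = J :=
    WittVector.ker_constantCoeff
  let g : (WittVector q k ⧸ J ^ 2) →+* k := Ideal.Quotient.lift _ WittVector.constantCoeff
    (fun a ha => by
      have : a ∈ J := Ideal.pow_le_self two_ne_zero ha
      rwa [← hker] at this)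
  have hg : Function.Surjective g := fun z => by
    obtain ⟨w, rfl⟩ := WittVector.constantCoeff_surjective q z
    exact ⟨Ideal.Quotient.mk _ w, rfl⟩
  have hsq : ∀ a b : WittVector q k ⧸ J ^ 2, g a = 0 → g b = 0 → a * b = 0 := by
    intro a b ha hb
    obtain ⟨a, rfl⟩ := Ideal.Quotient.mk_surjective a
    obtain ⟨b, rfl⟩ := Ideal.Quotient.mk_surjective b
    rw [← map_mul, Ideal.Quotient.eq_zero_iff_mem, pow_two]
    refine Ideal.mul_mem_mul ?_ ?_
    · rw [← hker]; exact ha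
    · rw [← hker]; exact hb
  have hnil : IsNilpotent (RingHom.ker (g.toIntAlgHom : (WittVector q k ⧸ J ^ 2) →+* k)) := by
    refine ⟨2, (pow_two _).trans (eq_bot_iff.2 (Ideal.mul_le.2 ?_))⟩
    exact fun a ha b hb => hsq a b ha hb
  let φ := Algebra.FormallySmooth.liftOfSurjective f.toIntAlgHom g.toIntAlgHom hg hnil
  have hφ : ∀ x, g (φ x) = f x := fun x =>
    Algebra.FormallySmooth.liftOfSurjective_apply f.toIntAlgHom g.toIntAlgHom hg hnil x
  have h0 : ∀ x ∈ IsLocalRing.maximalIdeal R ^ 2, φ x = 0 := by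
    intro x hx
    rw [pow_two] at hx
    refine Submodule.mul_induction_on hx (fun a ha b hb => ?_) (fun a b ha hb => ?_)
    · rw [map_mul]
      exact hsq _ _ ((hφ a).trans (hf a ha)) ((hφ b).trans (hf b hb))
    · rw [map_add, ha, hb, add_zero]
  have h2 := h0 _ h
  rw [map_natCast, ← map_natCast (Ideal.Quotient.mk (J ^ 2)), Ideal.Quotient.eq_zero_iff_mem,
    Ideal.span_singleton_pow, Ideal.mem_span_singleton] at h2
  have hirr := WittVector.irreducible (p := q) (k := k)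
  obtain ⟨c, hc⟩ := h2
  refine hirr.not_isUnit (IsUnit.of_mul_eq_one c (mul_left_cancel₀ hirr.ne_zero ?_))
  rw [mul_one, ← mul_assoc, ← pow_two, ← hc]

/-- smoothness of the generic fibre spreads out -/
theorem smooth_spread {B : Type} [CommRing B] [Algebra.FiniteType ℤ B]
    (h : ∀ (P : Ideal B) [P.IsPrime], (∀ r : ℕ, r ≠ 0 → (r : B) ∉ P) → Algebra.IsSmoothAt ℤ P) :
    ∃ r : ℕ, r ≠ 0 ∧ ∀ (P : Ideal B) [P.IsPrime], (r : B) ∉ P → Algebra.IsSmoothAt ℤ P := by
  have : Algebra.FinitePresentation ℤ B :=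
    Algebra.FinitePresentation.of_finiteType.1 inferInstance
  obtain ⟨J, hJ⟩ := (PrimeSpectrum.isClosed_iff_zeroLocus_ideal _).1
    (Algebra.isOpen_smoothLocus (R := ℤ) (A := B)).isClosed_compl
  have key : ∀ (P : Ideal B) [hP : P.IsPrime], ¬Algebra.IsSmoothAt ℤ P ↔ J ≤ P := by
    intro P hP
    have := Set.ext_iff.1 hJ ⟨P, hP⟩
    simpa [Algebra.smoothLocus, PrimeSpectrum.mem_zeroLocus] using this
  by_contra hn
  let S : Submonoid B := (nonZeroDivisors ℕ).map (Nat.castRingHom B)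
  have hd : Disjoint (J : Set B) S := by
    rw [Set.disjoint_left]
    rintro _ hx ⟨r, hr, rfl⟩
    refine hn ⟨r, nonZeroDivisors.ne_zero hr, fun P _ hP => ?_⟩
    by_contra hs
    exact hP ((key P).1 hs hx)
  obtain ⟨P, hP, hle, hd'⟩ := Ideal.exists_le_prime_disjoint J S hd
  refine (key P).2 hle (h P fun r hr hm => ?_)
  exact Set.disjoint_left.1 hd' hm ⟨r, mem_nonZeroDivisors_of_ne_zero hr, rfl⟩

theorem smooth_iff {B C : Type} [CommRing B] [CommRing C] [Algebra B C] (P : Ideal B) [P.IsPrime]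
    [IsLocalization.AtPrime C P] : Algebra.IsSmoothAt ℤ P ↔ Algebra.FormallySmooth ℤ C := by
  let e : Localization.AtPrime P ≃ₐ[ℤ] C := AlgEquiv.ofRingEquiv
    (f := (IsLocalization.algEquiv P.primeCompl (Localization.AtPrime P) C).toRingEquiv)
    (fun x => by simp)
  exact ⟨fun _ => Algebra.FormallySmooth.of_equiv e, fun _ => Algebra.FormallySmooth.of_equiv e.symm⟩

variable {A : Type} [CommRing A] [IsDomain A] {𝒜 : ℕ → AddSubgroup A} [GradedRing 𝒜]
  [hG : Fact (Gen 𝒜)] {p : ℕ} [Fact p.Prime]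

omit hG [IsDomain A] in
theorem smooth_nat_mem (r : ℕ) : (r : A) ∈ 𝒜 0 := SetLike.natCast_mem_graded 𝒜 r

theorem smooth_chart {k K : Type} [CommRing k] [Field K] [Algebra k K] (M : AM 𝒜 k K)
    (hinj : ∀ b : A, b ≠ 0 → M.θ b ≠ 0)
    (hsm : ∀ x : Pt 𝒜, CharZero (kap x) → Algebra.FormallySmooth ℤ (M.orng x)) (l : A) :
    ∃ r : ℕ, r ≠ 0 ∧ (l ∈ 𝒜 1 → ∀ y : Pt 𝒜, l ∉ pr y → (r : A) ∉ pr y →
      Algebra.FormallySmooth ℤ (M.orng y)) := by
  by_cases hl : l ∈ 𝒜 1 ∧ l ≠ 0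
  swap
  · exact ⟨1, one_ne_zero, fun h1 y h2 _ => (hl ⟨h1, fun h => h2 (h ▸ zero_mem _)⟩).elim⟩
  obtain ⟨hl, hl0⟩ := hl
  have hon : ∀ y, M.On y := fun y n a _ h => by
    by_contra hn
    exact hinj a (fun h0 => hn (h0 ▸ zero_mem _)) h
  have hT : ∀ n, ∀ b ∈ 𝒜 n, b ∈ Submonoid.powers l → M.θ b ≠ 0 := by
    rintro n _ - ⟨m, rfl⟩
    exact hinj _ (pow_ne_zero _ hl0)
  have := M.fr_finiteType hl (hinj l hl0)
  have hcast : ∀ r : ℕ, (r : M.fr (Submonoid.powers l)) =
      ⟨M.θ r / M.θ 1, M.div_mem_fr (smooth_nat_mem r)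
        (SetLike.one_mem_graded 𝒜) (one_mem _)⟩ := fun r => Subtype.ext (by simp)
  have heq : ∀ (P : Ideal (M.fr (Submonoid.powers l))) [P.IsPrime] (y : Pt 𝒜)
      (_ : M.fr (Submonoid.powers l) ≤ M.orng y)
      (_ : ∀ n a b (ha : a ∈ 𝒜 n) (hb : b ∈ 𝒜 n) (h : b ∈ Submonoid.powers l),
        (⟨M.θ a / M.θ b, M.div_mem_fr ha hb h⟩ : M.fr (Submonoid.powers l)) ∈ P ↔ a ∈ pr y),
      Algebra.IsSmoothAt ℤ P ↔ Algebra.FormallySmooth ℤ (M.orng y) := by
    intro P _ y hle hP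
    let := (Subring.inclusion hle).toAlgebra
    have := M.isLocalization_orng hT one_pos hl (Submonoid.mem_powers l) P (hon y) hle hP
    exact smooth_iff P
  obtain ⟨r, hr, h⟩ := smooth_spread (B := M.fr (Submonoid.powers l)) (by
    intro P hP hn
    obtain ⟨y, -, h1, h2⟩ := M.exists_pt_of_prime hT one_pos hl (Submonoid.mem_powers l) P hP
    refine (heq P y (M.fr_le_orng h1) h2).2 (hsm y ?_)
    by_contra hc
    obtain ⟨q, hq, hm⟩ := exists_prime_of_not_charZero y hc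
    refine hn q hq.ne_zero ?_
    rw [hcast]
    exact (h2 0 _ _ (smooth_nat_mem q) (SetLike.one_mem_graded 𝒜) (one_mem _)).2 hm)
  refine ⟨r, hr, fun _ y hy hry => ?_⟩
  have h1 : ∀ n, ∀ b ∈ 𝒜 n, b ∈ Submonoid.powers l → b ∉ pr y := by
    rintro n _ - ⟨m, rfl⟩ hm
    exact hy (y.isPrime.mem_of_pow_mem m hm)
  have hle := M.fr_le_orng h1
  have := M.orng_local (hon y)
  let P : Ideal (M.fr (Submonoid.powers l)) :=
    (IsLocalRing.maximalIdeal (M.orng y)).comap (Subring.inclusion hle)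
  have hP : P.IsPrime := Ideal.comap_isPrime _ _
  have h2 : ∀ n a b (ha : a ∈ 𝒜 n) (hb : b ∈ 𝒜 n) (h : b ∈ Submonoid.powers l),
      (⟨M.θ a / M.θ b, M.div_mem_fr ha hb h⟩ : M.fr (Submonoid.powers l)) ∈ P ↔ a ∈ pr y := by
    intro n a b ha hb hb'
    have := M.isUnit_orng (hon y) ha hb (h1 n b hb hb')
    rw [← not_iff_not, ← this, Ideal.mem_comap, IsLocalRing.notMem_maximalIdeal]
    exact iff_of_eq (congrArg IsUnit (Subtype.ext (Subring.coe_inclusion _ _)))
  refine (heq P y hle h2).1 (h P ?_)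
  rw [hcast, h2 0 _ _ (smooth_nat_mem r) (SetLike.one_mem_graded 𝒜) (one_mem _)]
  exact hry

theorem finite_bad [CharZero A]
    (hsm : ∀ x : Pt 𝒜, CharZero (kap x) → Algebra.FormallySmooth ℤ (loc x)) :
    {q : ℕ | q.Prime ∧ ∃ y : Pt 𝒜, (q : loc y) ∈ IsLocalRing.maximalIdeal (loc y) ^ 2}.Finite := by
  choose r hr0 hr using smooth_chart (MX 𝒜) (fun b hb h =>
    hb ((FaithfulSMul.algebraMap_eq_zero_iff A (FractionRing A)).1 h)) hsm
  obtain ⟨S, hS⟩ := piece_fg (𝒜 := 𝒜) 1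
  refine (Set.finite_Iic (S.sup r)).subset ?_
  rintro q ⟨hq, y, hy⟩
  have hqy : (q : A) ∈ pr y := by
    have := (MX 𝒜).isUnit_orng (on_MX y) (smooth_nat_mem q) (SetLike.one_mem_graded 𝒜)
      ((Ideal.ne_top_iff_one _).1 y.isPrime.ne_top)
    by_contra hn
    refine (IsLocalRing.notMem_maximalIdeal.2 ?_) (Ideal.pow_le_self two_ne_zero hy)
    rw [← orng_MX]
    convert this.2 hn using 1
    exact Subtype.ext (by simp)
  obtain ⟨l, hl, hly⟩ : ∃ l ∈ S, l ∉ pr y := by
    by_contra! hn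
    have : AddSubgroup.closure (S : Set A) ≤ (pr y).toAddSubgroup :=
      (AddSubgroup.closure_le _).2 hn
    exact (ell_spec y).2 (this (hS ▸ (ell_spec y).1))
  have hl1 : l ∈ 𝒜 1 := hS ▸ AddSubgroup.subset_closure hl
  have hdvd : q ∣ r l := by
    by_contra hn
    have hry : ((r l : ℕ) : A) ∉ pr y := by
      intro hm
      obtain ⟨a, b, hab⟩ := Nat.isCoprime_iff_coprime.2 ((Nat.Prime.coprime_iff_not_dvd hq).2 hn)
      refine y.isPrime.ne_top ((Ideal.eq_top_iff_one _).2 ?_)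
      have : (1 : A) = (a : A) * q + (b : A) * (r l : ℕ) := by exact_mod_cast congrArg (Int.cast : ℤ → A) hab.symm
      rw [this]
      exact add_mem (Ideal.mul_mem_left _ _ hqy) (Ideal.mul_mem_left _ _ hm)
    have : Algebra.FormallySmooth ℤ (loc y) := hr l hl1 y hly hry
    exact smooth_not_mem_sq hq hy
  exact (Nat.le_of_dvd (Nat.pos_of_ne_zero (hr0 l)) hdvd).trans (Finset.le_sup hl)

end

end Pool.Agent.Lib.MP_62d77c_ag
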