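import Pool.Agent.Lib.MP_62d77c_ag.Inv

/-! Components of a fibre and strata: definitions. -/

set_option autoImplicit false

namespace Pool.Agent.Lib.MP_62d77c_ag

open Filter Polynomial Submodule

noncomputable section

variable {A : Type} [CommRing A] [IsDomain A] {𝒜 : ℕ → AddSubgroup A} [GradedRing 𝒜]
  [hG : Fact (Gen 𝒜)] {p : ℕ} [Fact p.Prime]

variable (𝒜 p) in
/-- irreducible components of the fibre over `p` -/
abbrev Comp : Type := {j : Vp 𝒜 p // ∀ y : Vp 𝒜 p, pr y.1 ≤ pr j.1 → y = j}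

/-- the ideal of a component -/
abbrev cI (j : Comp 𝒜 p) : Ideal A := pr j.1.1

/-- `S` is a component of the intersection of the components in `σ` -/
def MinOver (S : Vp 𝒜 p) (σ : Set (Comp 𝒜 p)) : Prop :=
  (∀ j ∈ σ, cI j ≤ pr S.1) ∧ ∀ y : Vp 𝒜 p, (∀ j ∈ σ, cI j ≤ pr y.1) → pr y.1 ≤ pr S.1 → y = S

variable (𝒜 p) in
/-- components of double intersections -/
abbrev Edge : Type := {S : Vp 𝒜 p // ∃ j k : Comp 𝒜 p, j ≠ k ∧ MinOver S {j, k}}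

/-- first end of an edge -/
def ea (S : Edge 𝒜 p) : Comp 𝒜 p := S.2.choose

/-- second end of an edge -/
def eb (S : Edge 𝒜 p) : Comp 𝒜 p := S.2.choose_spec.choose

omit hG in
theorem ea_eb (S : Edge 𝒜 p) : ea S ≠ eb S ∧ MinOver S.1 {ea S, eb S} :=
  S.2.choose_spec.choose_spec

omit hG [IsDomain A] in
theorem fibre_le_of_hom {I J : Ideal A} (hI : I.IsHomogeneous 𝒜)
    (h : ∀ n, ∀ a ∈ I, a ∈ 𝒜 n → a ∈ J) : I ≤ J := by
  classical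
  intro a ha
  rw [← DirectSum.sum_support_decompose 𝒜 a]
  exact Ideal.sum_mem _ fun i _ => h i _ (hI i ha) (SetLike.coe_mem _)

omit hG [IsDomain A] in
theorem fibre_exists_hom {I J : Ideal A} (hI : I.IsHomogeneous 𝒜) (h : ¬I ≤ J) :
    ∃ n, ∃ a ∈ I, a ∈ 𝒜 n ∧ a ∉ J := by
  by_contra hc
  push Not at hc
  exact h (fibre_le_of_hom hI hc)

omit hG [IsDomain A] [Fact p.Prime] in
theorem fibre_span_hom : (Ideal.span {(p : A)}).IsHomogeneous 𝒜 :=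
  Ideal.homogeneous_span 𝒜 _ fun x hx => by
    rw [Set.mem_singleton_iff.1 hx]
    exact ⟨0, SetLike.natCast_mem_graded 𝒜 p⟩

theorem finite_minOver (σ : Set (Comp 𝒜 p)) : {S : Vp 𝒜 p | MinOver S σ}.Finite := by
  have hh : (Ideal.span {(p : A)} ⊔ ⨆ j ∈ σ, cI j).IsHomogeneous 𝒜 :=
    fibre_span_hom.sup (Ideal.IsHomogeneous.iSup₂ fun j _ => pr_hom _)
  obtain ⟨Z, hZ, hZ'⟩ := exists_min hh
  refine (Z.finite_toSet.preimage (Subtype.val_injective.injOn)).subset fun S hS => ?_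
  obtain ⟨x, hx, hle⟩ := hZ' S.1 (sup_le ((Ideal.span_singleton_le_iff_mem _).2 S.2)
    (iSup₂_le hS.1))
  have h1 := (hZ x hx).1
  have h2 : (p : A) ∈ pr x := h1 (Ideal.mem_sup_left (Ideal.mem_span_singleton_self _))
  have h3 := hS.2 ⟨x, h2⟩ (fun j hj => (le_iSup₂_of_le (f := fun j (_ : j ∈ σ) => cI j) j hj
    le_rfl).trans (le_sup_right.trans h1)) hle
  rw [← h3]
  exact hx

instance finite_comp : Finite (Comp 𝒜 p) := by
  refine ((finite_minOver (𝒜 := 𝒜) (p := p) ∅).subset (t := {j : Vp 𝒜 p |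
    ∀ y : Vp 𝒜 p, pr y.1 ≤ pr j.1 → y = j}) fun j hj => ?_).to_subtype
  exact ⟨fun _ h => h.elim, fun y _ hy => hj y hy⟩

instance finite_edge : Finite (Edge 𝒜 p) := by
  refine ((Set.finite_iUnion fun j : Comp 𝒜 p => Set.finite_iUnion fun k : Comp 𝒜 p =>
    finite_minOver {j, k}).subset (t := {S : Vp 𝒜 p |
      ∃ j k : Comp 𝒜 p, j ≠ k ∧ MinOver S {j, k}}) fun S hS => ?_).to_subtype
  obtain ⟨j, k, -, h⟩ := hS
  exact Set.mem_iUnion.2 ⟨j, Set.mem_iUnion.2 ⟨k, h⟩⟩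

instance fintype_comp : Fintype (Comp 𝒜 p) := Fintype.ofFinite _

instance fintype_edge : Fintype (Edge 𝒜 p) := Fintype.ofFinite _

theorem exists_comp (y : Vp 𝒜 p) : ∃ j : Comp 𝒜 p, cI j ≤ pr y.1 := by
  obtain ⟨Z, hZ, hZ'⟩ := exists_min (fibre_span_hom (𝒜 := 𝒜) (p := p))
  obtain ⟨x, hx, hle⟩ := hZ' y.1 ((Ideal.span_singleton_le_iff_mem _).2 y.2)
  refine ⟨⟨⟨x, (hZ x hx).1 (Ideal.mem_span_singleton_self _)⟩, fun z hz => Subtype.ext ?_⟩, hle⟩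
  exact (hZ x hx).2 z.1 ((Ideal.span_singleton_le_iff_mem _).2 z.2) hz

omit hG in
theorem cI_le_iff {j k : Comp 𝒜 p} : cI j ≤ cI k ↔ j = k :=
  ⟨fun h => Subtype.ext (k.2 j.1 h), fun h => h ▸ le_rfl⟩

/-- what is used about a fibre with strict normal crossings -/
structure Fib (m : Comp 𝒜 p → ℕ) (I : Comp 𝒜 p → Car (MX 𝒜).V) : Prop where
  pos : ∀ j, 0 < m j
  lp : ∀ j : Comp 𝒜 p, (MX 𝒜).LP (cI j)
  isCl : ∀ j, IsCl (I j) ((MX 𝒜).fam (cI j))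
  rel : ∏ j, cl (I j) ^ m j = 1
  eqn : ∀ (y : Vp 𝒜 p) (e : Comp 𝒜 p → ℕ) (g : Comp 𝒜 p → A),
    (∀ j, (MX 𝒜).GenI (cI j) y.1 (e j) (g j)) → ∃ n n', ∃ b ∈ 𝒜 n, ∃ c ∈ 𝒜 n',
      b ∉ pr y.1 ∧ c ∉ pr y.1 ∧ n = n' + ∑ j, m j * e j ∧ b * p = c * ∏ j, g j ^ m j
  strat : ∀ (σ : Set (Comp 𝒜 p)) (y : Vp 𝒜 p), σ.Nonempty → (∀ j ∈ σ, cI j ≤ pr y.1) →
    ∃ T : Vp 𝒜 p, pr T.1 ≤ pr y.1 ∧ MinOver T σ ∧ ∀ n, ∀ a ∈ pr T.1, a ∈ 𝒜 n →
      ∃ l, ∃ b ∈ 𝒜 l, b ∉ pr y.1 ∧ b * a ∈ ⨆ j ∈ σ, cI j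
  exact : ∀ (σ : Set (Comp 𝒜 p)) (S : Vp 𝒜 p) (j : Comp 𝒜 p), σ.Nonempty → MinOver S σ →
    cI j ≤ pr S.1 → j ∈ σ
  ufd : ∀ (j : Comp 𝒜 p) (y : Pt 𝒜), cI j ≤ pr y → UniqueFactorizationMonoid ((Mp j.1).orng y)

variable {m : Comp 𝒜 p → ℕ} {I : Comp 𝒜 p → Car (MX 𝒜).V}

theorem Fib.minOver_unique (h : Fib m I) {σ : Set (Comp 𝒜 p)} (hσ : σ.Nonempty) {S T y : Vp 𝒜 p}
    (hS : MinOver S σ) (hT : MinOver T σ) (h1 : pr S.1 ≤ pr y.1) (h2 : pr T.1 ≤ pr y.1) : S = T := by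
  obtain ⟨T₀, -, h0, h3⟩ := h.strat σ y hσ fun j hj => (hS.1 j hj).trans h1
  have key : ∀ S : Vp 𝒜 p, MinOver S σ → pr S.1 ≤ pr y.1 → T₀ = S := fun S hS h1 => by
    refine hS.2 T₀ h0.1 (fibre_le_of_hom (pr_hom _) fun n a ha han => ?_)
    obtain ⟨l, b, -, hb, hba⟩ := h3 n a ha han
    exact (S.1.isPrime.mem_or_mem (iSup₂_le hS.1 hba)).resolve_left fun hb' => hb (h1 hb')
  rw [← key S hS h1, key T hT h2]

theorem Fib.inc (h : Fib m I) (S : Edge 𝒜 p) (j : Comp 𝒜 p) :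
    cI j ≤ pr S.1.1 ↔ j = ea S ∨ j = eb S :=
  ⟨fun hj => h.exact _ S.1 j (Set.insert_nonempty _ _) (ea_eb S).2 hj,
    fun hj => (ea_eb S).2.1 j hj⟩

theorem Fib.minOver_iff (h : Fib m I) {j k : Comp 𝒜 p} (hjk : j ≠ k) (S : Edge 𝒜 p) :
    MinOver S.1 {j, k} ↔ (j = ea S ∨ j = eb S) ∧ (k = ea S ∨ k = eb S) := by
  refine ⟨fun hS => ⟨(h.inc S j).1 (hS.1 j (Set.mem_insert _ _)),
    (h.inc S k).1 (hS.1 k (Set.mem_insert_of_mem _ rfl))⟩, ?_⟩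
  rintro ⟨rfl | rfl, rfl | rfl⟩
  · exact (hjk rfl).elim
  · exact (ea_eb S).2
  · rw [Set.pair_comm]
    exact (ea_eb S).2
  · exact (hjk rfl).elim

theorem Fib.lp_edge (h : Fib m I) (S : Edge 𝒜 p) {j : Comp 𝒜 p} (hj : cI j ≤ pr S.1.1) :
    (Mp j.1).LP (pr S.1.1) := by
  classical
  intro y hy
  have hjy : cI j ≤ pr y := on_Mp.1 hy
  by_cases hSy : pr S.1.1 ≤ pr y
  swap
  · obtain ⟨n, a, ha, han, hay⟩ := fibre_exists_hom (pr_hom S.1.1) hSy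
    exact ⟨n, a, (Mp j.1).genI_of_not_mem hy ha han hay⟩
  obtain ⟨k, hjk, hk⟩ : ∃ k, j ≠ k ∧ MinOver S.1 {j, k} := by
    rcases (h.inc S j).1 hj with rfl | rfl
    · exact ⟨_, ea_eb S⟩
    · exact ⟨_, (ea_eb S).1.symm, by rw [Set.pair_comm]; exact (ea_eb S).2⟩
  have hkS : cI k ≤ pr S.1.1 := hk.1 k (Set.mem_insert_of_mem _ rfl)
  let y' : Vp 𝒜 p := ⟨y, hSy S.1.2⟩
  obtain ⟨T, hTy, hT, h3⟩ := h.strat {j, k} y' (Set.insert_nonempty _ _)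
    fun i hi => (hk.1 i hi).trans hSy
  obtain rfl : T = S.1 := h.minOver_unique (y := y') (Set.insert_nonempty _ _) hT hk hTy hSy
  obtain ⟨e, g, hg1, hg2, -, hg⟩ := h.lp k y (on_MX y)
  have hinj : Function.Injective (MX 𝒜).θ := IsFractionRing.injective A (FractionRing A)
  refine ⟨e, g, hkS hg1, hg2, fun h0 => hjk ?_, fun n a ha han => ?_⟩
  · have hgj : g ∈ cI j := (th_eq_zero j.1.1 hg2).1 h0
    refine (cI_le_iff.1 (fibre_le_of_hom (pr_hom _) fun n a ha han => ?_)).symm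
    obtain ⟨_, _, b, -, c, -, hb, -, e1⟩ := hg n a ha han
    have : b * a ∈ cI j := hinj e1 ▸ Ideal.mul_mem_left _ c hgj
    exact (j.1.1.isPrime.mem_or_mem this).resolve_left fun hb' => hb (hjy hb')
  · obtain ⟨l, b, hbl, hb, hba⟩ := h3 n a ha han
    rw [iSup_pair] at hba
    obtain ⟨u, hu, w, hw, e1⟩ := Submodule.mem_sup.1 hba
    have hdeg : b * a ∈ 𝒜 (l + n) := SetLike.mul_mem_graded hbl han
    have e2 : b * a = (DirectSum.decompose 𝒜 u (l + n) : A) +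
        (DirectSum.decompose 𝒜 w (l + n) : A) := by
      rw [← DirectSum.decompose_of_mem_same 𝒜 hdeg, ← e1, DirectSum.decompose_add]
      rfl
    obtain ⟨m', l', b', hb1, c, hc, hb2, e3, e4⟩ :=
      hg (l + n) _ (pr_hom k.1.1 (l + n) hw) (SetLike.coe_mem _)
    refine ⟨m' + l, l', b' * b, SetLike.mul_mem_graded hb1 hbl, c, hc,
      fun hbb => (y.isPrime.mem_or_mem hbb).elim hb2 hb, by omega, ?_⟩
    have e5 : (Mp j.1).θ (DirectSum.decompose 𝒜 u (l + n) : A) = 0 :=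
      (th_eq_zero j.1.1 (SetLike.coe_mem _)).2 (pr_hom j.1.1 (l + n) hu)
    rw [mul_assoc, e2, mul_add, map_add, map_mul _ b', e5, mul_zero, zero_add, hinj e4]

theorem Fib.isEmpty_edge (h : Fib m I)
    (hp : ∀ y : Pt 𝒜, (p : loc y) ∉ IsLocalRing.maximalIdeal (loc y) ^ 2) : IsEmpty (Edge 𝒜 p) := by
  classical
  refine ⟨fun S => hp S.1.1 ?_⟩
  set y := S.1.1
  choose e g hg using fun j => h.lp j y (on_MX y)
  obtain ⟨n, n', b, hb, c, hc, hby, -, hn, e1⟩ := h.eqn S.1 e g hg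
  have hl : ∀ i, ell y ^ i ∈ 𝒜 i := fun i => by
    simpa using SetLike.pow_mem_graded i (ell_spec y).1
  have hl' : ∀ i, ell y ^ i ∉ pr y := fun i hi => (ell_spec y).2 (y.isPrime.mem_of_pow_mem i hi)
  have hne : ∀ a, a ∉ pr y → (MX 𝒜).θ a ≠ 0 := fun a ha h0 =>
    ha (((FaithfulSMul.algebraMap_eq_zero_iff A (FractionRing A)).1 h0) ▸ zero_mem _)
  let x : Comp 𝒜 p → loc y := fun j =>
    ⟨_, (MX 𝒜).div_mem_fr (T := (pr y).primeCompl) (hg j).2.1 (hl (e j)) (hl' _)⟩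
  let u : loc y := ⟨_, (MX 𝒜).div_mem_fr (T := (pr y).primeCompl)
    (hn ▸ SetLike.mul_mem_graded hc (hl (∑ j : Comp 𝒜 p, m j * e j))) hb hby⟩
  have hx : ∀ j, cI j ≤ pr y → x j ^ m j ∈ IsLocalRing.maximalIdeal (loc y) := fun j hj =>
    Ideal.pow_mem_of_mem _ ((IsLocalRing.mem_maximalIdeal (x j)).2 fun hu =>
      ((MX 𝒜).isUnit_orng (on_MX y) (hg j).2.1 (hl (e j)) (hl' _)).1 hu (hj (hg j).1)) _ (h.pos j)
  have e2 : (p : loc y) = u * ∏ j : Comp 𝒜 p, x j ^ m j := by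
    refine Subtype.ext ?_
    have e3 := congrArg (MX 𝒜).θ e1
    simp only [map_mul, map_natCast, map_prod, map_pow] at e3
    have h1 := hne _ hby
    have h2 := hne _ (ell_spec y).2
    simp only [Subring.coe_natCast, Subring.coe_mul, SubmonoidClass.coe_finsetProd,
      SubmonoidClass.coe_pow, x, u, map_mul, map_pow, div_pow, Finset.prod_div_distrib,
      ← pow_mul, Finset.prod_pow_eq_pow_sum, mul_comm (e _)]
    field_simp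
    rw [← e3, mul_comm]
  rw [e2, ← Finset.mul_prod_erase _ _ (Finset.mem_univ (ea S)),
    ← Finset.mul_prod_erase _ _ (Finset.mem_erase.2 ⟨(ea_eb S).1.symm, Finset.mem_univ (eb S)⟩),
    ← mul_assoc (x _ ^ _), pow_two]
  exact Ideal.mul_mem_left _ _ (Ideal.mul_mem_right _ _ (Ideal.mul_mem_mul
    (hx _ ((h.inc S _).2 (Or.inl rfl))) (hx _ ((h.inc S _).2 (Or.inr rfl)))))

end

end Pool.Agent.Lib.MP_62d77c_ag
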