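import Pool.Agent.Lib.MP_62d77c_ag.Base

/-! The generic member of a linear system. -/

set_option autoImplicit false

namespace Pool.Agent.Lib.MP_62d77c_ag

open Filter Polynomial Submodule

noncomputable section

namespace GenMem

variable {k K ι : Type} [Field k] [Field K] [Algebra k K]

attribute [local instance] MvPolynomial.algebraMvPolynomial

/-- polynomials with coefficients in `W` -/
def WT (ι : Type) (W : Submodule k K) : Submodule (MvPolynomial ι k) (MvPolynomial ι K) :=
  span _ (MvPolynomial.C '' (W : Set K))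

theorem smul_eq (a : MvPolynomial ι k) (f : MvPolynomial ι K) :
    a • f = MvPolynomial.map (algebraMap k K) a * f := rfl

theorem mem_WT {W : Submodule k K} {f : MvPolynomial ι K} :
    f ∈ WT ι W ↔ ∀ m, f.coeff m ∈ W := by
  classical
  constructor
  · intro h
    induction h using span_induction with
    | mem x hx =>
      obtain ⟨w, hw, rfl⟩ := hx
      intro m
      rw [MvPolynomial.coeff_C]
      split_ifs
      · exact hw
      · exact W.zero_mem
    | zero => intro m; simp
    | add x y _ _ hx hy => intro m; rw [MvPolynomial.coeff_add]; exact W.add_mem (hx m) (hy m)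
    | smul a x _ hx =>
      intro m
      rw [smul_eq, MvPolynomial.coeff_mul]
      refine W.sum_mem fun p _ => ?_
      rw [MvPolynomial.coeff_map, ← Algebra.smul_def]
      exact W.smul_mem _ (hx _)
  · intro h
    rw [f.as_sum]
    refine Submodule.sum_mem _ fun m _ => ?_
    have : MvPolynomial.monomial m (f.coeff m) =
        (MvPolynomial.monomial m (1 : k)) • (MvPolynomial.C (f.coeff m) : MvPolynomial ι K) := by
      rw [smul_eq, MvPolynomial.map_monomial, map_one, mul_comm, MvPolynomial.C_mul_monomial,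
        mul_one]
    rw [this]
    exact Submodule.smul_mem _ _ (subset_span ⟨_, h m, rfl⟩)

theorem finrank_WT (W : Submodule k K) [Module.Finite k W] :
    Module.finrank (MvPolynomial ι k) (WT ι W) = Module.finrank k W ∧
      Module.Finite (MvPolynomial ι k) (WT ι W) := by
  classical
  let b := Module.finBasis k W
  let v : Fin (Module.finrank k W) → MvPolynomial ι K := fun i => MvPolynomial.C (b i : K)
  have li : LinearIndependent (MvPolynomial ι k) v := by
    rw [Fintype.linearIndependent_iff]
    intro g hg i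
    ext m
    have h1 := congrArg (MvPolynomial.coeff m) hg
    simp only [v, smul_eq, MvPolynomial.coeff_sum, mul_comm _ (MvPolynomial.C _),
      MvPolynomial.coeff_C_mul, MvPolynomial.coeff_map, MvPolynomial.coeff_zero] at h1
    have h2 : ∑ i, (g i).coeff m • b i = 0 := by
      apply Subtype.ext
      rw [Submodule.coe_sum]
      simp only [Submodule.coe_smul, Algebra.smul_def, Submodule.coe_zero]
      rw [← h1]
      exact Finset.sum_congr rfl fun i _ => mul_comm _ _
    simpa using Fintype.linearIndependent_iff.1 b.linearIndependent _ h2 i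
  have sp : WT ι W = span (MvPolynomial ι k) (Set.range v) := by
    apply le_antisymm
    · rw [WT, span_le]
      rintro _ ⟨w, hw, rfl⟩
      have e := congrArg Subtype.val (b.sum_repr ⟨w, hw⟩)
      rw [Submodule.coe_sum] at e
      simp only [Submodule.coe_smul] at e
      rw [SetLike.mem_coe, ← e, map_sum]
      refine Submodule.sum_mem _ fun i _ => ?_
      have : (MvPolynomial.C (b.repr ⟨w, hw⟩ i • (b i : K)) : MvPolynomial ι K) =
          (MvPolynomial.C (b.repr ⟨w, hw⟩ i) : MvPolynomial ι k) • v i := by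
        rw [smul_eq, MvPolynomial.map_C, ← map_mul, Algebra.smul_def]
      rw [this]
      exact Submodule.smul_mem _ _ (subset_span ⟨i, rfl⟩)
    · rw [span_le]
      rintro _ ⟨i, rfl⟩
      exact subset_span ⟨_, (b i).2, rfl⟩
  rw [sp]
  exact ⟨by rw [finrank_span_eq_card li, Fintype.card_fin],
    Module.Finite.span_of_finite _ (Set.finite_range v)⟩

/-- the generic section -/
def gs [Fintype ι] (u : ι → K) : MvPolynomial ι K := ∑ i, MvPolynomial.C (u i) * MvPolynomial.X i

theorem coeff_gs [Fintype ι] [DecidableEq ι] (u : ι → K) (g : MvPolynomial ι K) (m : ι →₀ ℕ) :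
    (gs u * g).coeff m =
      ∑ j, if j ∈ m.support then u j * g.coeff (m - Finsupp.single j 1) else 0 := by
  rw [gs, Finset.sum_mul, MvPolynomial.coeff_sum]
  refine Finset.sum_congr rfl fun j _ => ?_
  rw [mul_assoc, MvPolynomial.coeff_C_mul, MvPolynomial.coeff_X_mul']
  split_ifs <;> simp

theorem div_one [Fintype ι] (u : ι → K) {U W : Submodule k K} (hu : ∀ i, u i ∈ U)
    {g : MvPolynomial ι K} (hg : gs u * g ∈ WT ι W) (i : ι) (m : ι →₀ ℕ) :
    ∃ s, u i ^ (s + 1) * g.coeff m ∈ U ^ s * W := by
  classical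
  let J : ℕ → Submodule k K := fun s => Nat.casesOn s ⊥ fun s => U ^ s * W
  have hJ : ∀ s, ∀ x ∈ U, ∀ y ∈ J s, x * y ∈ J (s + 1) := by
    intro s x hx y hy
    cases s with
    | zero =>
      have : y = 0 := hy
      simp [this]
    | succ s =>
      show x * y ∈ U ^ (s + 1) * W
      rw [pow_succ', mul_assoc]
      exact mul_mem_mul hx hy
  have key : ∀ s, ∀ m : ι →₀ ℕ, g.degreeOf i < m i + s → u i ^ s * g.coeff m ∈ J s := by
    intro s
    induction s with
    | zero =>
      intro m hm
      have : g.coeff m = 0 := by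
        by_contra q
        exact absurd (MvPolynomial.monomial_le_degreeOf i (MvPolynomial.mem_support_iff.2 q))
          (by omega)
      simp [this]
    | succ s ih =>
      intro m hm
      have h1 := mem_WT.1 hg (m + Finsupp.single i 1)
      rw [coeff_gs, ← Finset.add_sum_erase _ _ (Finset.mem_univ i), if_pos (by simp),
        add_tsub_cancel_right] at h1
      have h2 : u i ^ s * ∑ j ∈ Finset.univ.erase i,
          (if j ∈ (m + Finsupp.single i 1).support then
            u j * g.coeff (m + Finsupp.single i 1 - Finsupp.single j 1) else 0) ∈ J (s + 1) := by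
        rw [Finset.mul_sum]
        refine Submodule.sum_mem _ fun j hj => ?_
        split_ifs
        · rw [mul_left_comm]
          refine hJ s _ (hu j) _ (ih _ ?_)
          have : i ≠ j := (Finset.ne_of_mem_erase hj).symm
          simp [this.symm]
          omega
        · simp
      have h3 := mul_mem_mul (pow_mem_pow U (hu i) s) h1
      have := (J (s + 1)).sub_mem h3 h2
      convert this using 1
      ring
  exact ⟨g.degreeOf i, key (g.degreeOf i + 1) m (by omega)⟩

theorem sup_pow {A B X : Submodule k K} {n : ℕ}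
    (h : ∀ i j, i + j = n → A ^ i * B ^ j ≤ X) : (A ⊔ B) ^ n ≤ X := by
  rw [← Submodule.add_eq_sup, add_pow]
  refine Finset.sum_induction _ (· ≤ X) (fun a b ha hb => ?_) bot_le fun i hi => ?_
  · rw [Submodule.add_eq_sup]; exact sup_le ha hb
  · have hi' : i ≤ n := Nat.lt_succ_iff.1 (Finset.mem_range.1 hi)
    rw [natCast_eq_one (Nat.choose_pos hi').ne', mul_one]
    exact h _ _ (by omega)

theorem good_sup {A B U W G : Submodule k K} (hA : A ≤ U) (hB : B ≤ U)
    (ha : ∃ a, A ^ (a + 1) * G ≤ U ^ a * W) (hb : ∃ a, B ^ (a + 1) * G ≤ U ^ a * W) :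
    ∃ a, (A ⊔ B) ^ (a + 1) * G ≤ U ^ a * W := by
  obtain ⟨a, ha⟩ := ha
  obtain ⟨b, hb⟩ := hb
  refine ⟨a + b, ?_⟩
  rw [← Submodule.le_div_iff_mul_le]
  refine sup_pow fun i j e => ?_
  rw [Submodule.le_div_iff_mul_le]
  have pm : ∀ {X : Submodule k K} (_ : X ≤ U) (n : ℕ), X ^ n ≤ U ^ n := fun hX n =>
    pow_le_pow_left' hX n
  rcases le_or_gt (a + 1) i with l | l
  · obtain ⟨c, rfl⟩ := Nat.exists_eq_add_of_le l
    calc A ^ (a + 1 + c) * B ^ j * G = A ^ c * B ^ j * (A ^ (a + 1) * G) := by ring
      _ ≤ U ^ c * U ^ j * (U ^ a * W) := mul_le_mul' (mul_le_mul' (pm hA c) (pm hB j)) ha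
      _ = U ^ (a + b) * W := by rw [show a + b = c + j + a by omega]; ring
  · obtain ⟨c, rfl⟩ := Nat.exists_eq_add_of_le (show b + 1 ≤ j by omega)
    calc A ^ i * B ^ (b + 1 + c) * G = A ^ i * B ^ c * (B ^ (b + 1) * G) := by ring
      _ ≤ U ^ i * U ^ c * (U ^ b * W) := mul_le_mul' (mul_le_mul' (pm hA i) (pm hB c)) hb
      _ = U ^ (a + b) * W := by rw [show a + b = i + c + b by omega]; ring

theorem div_all [Fintype ι] (u : ι → K) {U W : Submodule k K} (hU : U = span k (Set.range u))
    {g : MvPolynomial ι K} (hg : gs u * g ∈ WT ι W) (m : ι →₀ ℕ) :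
    ∃ s, U ^ (s + 1) * span k {g.coeff m} ≤ U ^ s * W := by
  classical
  have hu : ∀ i, u i ∈ U := fun i => hU ▸ subset_span ⟨i, rfl⟩
  have key : ∀ t : Finset ι,
      ∃ s, span k (u '' t) ^ (s + 1) * span k {g.coeff m} ≤ U ^ s * W := by
    intro t
    induction t using Finset.induction_on with
    | empty => exact ⟨0, by simp⟩
    | insert i t _ ih =>
      rw [Finset.coe_insert, Set.image_insert_eq, span_insert]
      refine good_sup ((span_singleton_le_iff_mem _ _).2 (hu i)) ?_ ?_ ih
      · rw [span_le]; rintro _ ⟨j, -, rfl⟩; exact hu j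
      · obtain ⟨s, hs⟩ := div_one u hu hg i m
        refine ⟨s, ?_⟩
        rw [span_pow, Set.singleton_pow, span_mul_span, Set.singleton_mul_singleton,
          span_singleton_le_iff_mem]
        exact hs
  have := key Finset.univ
  rwa [Finset.coe_univ, Set.image_univ, ← hU] at this

theorem gs_ne [Fintype ι] (u : ι → K) {i : ι} (hi : u i ≠ 0) : gs u ≠ 0 := by
  classical
  intro h
  have := coeff_gs u 1 (Finsupp.single i 1)
  rw [h, zero_mul, Finset.sum_eq_single i] at this
  · simp at this
    exact hi this.symm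
  · intro j _ hj
    simp [hj]
  · simp

theorem core [Fintype ι] (u : ι → K) {U : Submodule k K} (hU : U = span k (Set.range u)) {i : ι}
    (hi : u i ≠ 0) {K' : Type} [Field K'] [Algebra (MvPolynomial ι k) K']
    (π : MvPolynomial ι K →+* K')
    (hA : ∀ a, algebraMap (MvPolynomial ι k) K' a = π (MvPolynomial.map (algebraMap k K) a))
    (hπ : ∀ f, π f = 0 ↔ gs u ∣ f) (W₀ W₁ : Submodule k K) (hW : W₁.FG) (hle : U * W₀ ≤ W₁) :
    Module.finrank k W₀ + Module.finrank (MvPolynomial ι k)
        (span (MvPolynomial ι k) ((fun w => π (MvPolynomial.C w)) '' (W₁ : Set K))) ≤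
      Module.finrank k W₁ ∧
    (Sat U W₀ W₁ → Module.finrank k W₀ + Module.finrank (MvPolynomial ι k)
        (span (MvPolynomial ι k) ((fun w => π (MvPolynomial.C w)) '' (W₁ : Set K))) =
      Module.finrank k W₁) := by
  classical
  have hu : ∀ i, u i ∈ U := fun i => hU ▸ subset_span ⟨i, rfl⟩
  have : Module.Finite k W₁ := Module.Finite.iff_fg.2 hW
  have : Module.Finite k W₀ := by
    let f : W₀ →ₗ[k] W₁ := ((LinearMap.mulLeft k (u i)).domRestrict W₀).codRestrict W₁
      fun w => hle (mul_mem_mul (hu i) w.2)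
    refine Module.Finite.of_injective f fun a b e => Subtype.ext ?_
    exact mul_left_cancel₀ hi (congrArg Subtype.val e)
  obtain ⟨r0, f0⟩ := finrank_WT (ι := ι) W₀
  obtain ⟨r1, f1⟩ := finrank_WT (ι := ι) W₁
  let p : MvPolynomial ι K →ₗ[MvPolynomial ι k] K' :=
    { toFun := π
      map_add' := π.map_add
      map_smul' := fun a f => by rw [smul_eq, map_mul, ← hA, RingHom.id_apply, Algebra.smul_def] }
  let q := p.domRestrict (WT ι W₁)
  have rn : Module.finrank (MvPolynomial ι k) (LinearMap.range q) +
      Module.finrank (MvPolynomial ι k) (LinearMap.ker q) =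
      Module.finrank (MvPolynomial ι k) (WT ι W₁) := by
    rw [← q.quotKerEquivRange.finrank_eq]
    exact Submodule.finrank_quotient_add_finrank _
  have rg : LinearMap.range q =
      span (MvPolynomial ι k) ((fun w => π (MvPolynomial.C w)) '' (W₁ : Set K)) := by
    rw [LinearMap.range_domRestrict, WT, map_span, Set.image_image]
    rfl
  have mm : ∀ g ∈ WT ι W₀, gs u * g ∈ WT ι W₁ := by
    intro g hg
    rw [mem_WT] at hg ⊢
    intro m
    rw [coeff_gs]
    refine Submodule.sum_mem _ fun j _ => ?_
    split_ifs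
    · exact hle (mul_mem_mul (hu j) (hg _))
    · exact zero_mem _
  let e : WT ι W₀ →ₗ[MvPolynomial ι k] LinearMap.ker q :=
    (((LinearMap.mulLeft _ (gs u)).domRestrict (WT ι W₀)).codRestrict (WT ι W₁)
      fun g => mm g g.2).codRestrict _ fun g => (hπ _).2 (dvd_mul_right _ _)
  have inj : Function.Injective e := fun a b h => Subtype.ext
    (mul_left_cancel₀ (gs_ne u hi) (congrArg (fun x : LinearMap.ker q => x.1.1) h))
  rw [← rg, ← r0, ← r1, ← rn]
  constructor
  · have := LinearMap.finrank_le_finrank_of_injective inj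
    omega
  · intro hs
    have surj : Function.Surjective e := by
      rintro ⟨⟨f, hf⟩, h0⟩
      obtain ⟨g, rfl⟩ := (hπ f).1 h0
      exact ⟨⟨g, mem_WT.2 fun m => hs _ (div_all u hU hf m)⟩, rfl⟩
    rw [(LinearEquiv.ofBijective e ⟨inj, surj⟩).finrank_eq, add_comm]

theorem finrank_span {A k' K' : Type} [CommRing A] [IsDomain A] [Field k'] [Algebra A k']
    [IsFractionRing A k'] [AddCommGroup K'] [Module A K'] [Module k' K'] [IsScalarTower A k' K']
    (s : Set K') : Module.finrank k' (span k' s) = Module.finrank A (span A s) := by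
  have := isLocalizedModule_id (nonZeroDivisors A) K' k'
  have e := Submodule.localized'_span k' (nonZeroDivisors A) (LinearMap.id : K' →ₗ[A] K') s
  rw [LinearMap.id_coe, Set.image_id] at e
  rw [← e, IsFractionRing.finrank_right_eq A k']
  exact IsLocalizedModule.finrank_eq (nonZeroDivisors A)
    ((span A s).toLocalized' k' (nonZeroDivisors A) LinearMap.id) le_rfl

theorem final [Fintype ι] (u : ι → K) {U : Submodule k K} (hU : U = span k (Set.range u)) {i : ι}
    (hi : u i ≠ 0) {K' : Type} [Field K'] (π : MvPolynomial ι K →+* K')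
    (hπ : ∀ f, π f = 0 ↔ gs u ∣ f) :
    (∀ W₀ W₁ : Submodule k K, W₁.FG → U * W₀ ≤ W₁ → Sat U W₀ W₁ →
      Module.finrank k W₀ = Module.finrank k W₁) ∨
    ∃ (k' K' : Type) (_ : Field k') (_ : Field K') (_ : Algebra k' K') (S : Spec k K k' K'),
      S.O = ⊤ ∧
      (∀ W₀ W₁ : Submodule k K, W₁.FG → U * W₀ ≤ W₁ →
        Module.finrank k W₀ + Module.finrank k' (S.img W₁ 1) ≤ Module.finrank k W₁) ∧
      (∀ W₀ W₁ : Submodule k K, W₁.FG → U * W₀ ≤ W₁ → Sat U W₀ W₁ →
        Module.finrank k W₀ + Module.finrank k' (S.img W₁ 1) = Module.finrank k W₁) := by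
  let : Algebra (MvPolynomial ι k) K' :=
    (π.comp (MvPolynomial.map (algebraMap k K))).toAlgebra
  have c := core u hU hi π (fun _ => rfl) hπ
  by_cases inj : Function.Injective (algebraMap (MvPolynomial ι k) K')
  · right
    let : Algebra (FractionRing (MvPolynomial ι k)) K' := (IsFractionRing.lift inj).toAlgebra
    have : IsScalarTower (MvPolynomial ι k) (FractionRing (MvPolynomial ι k)) K' :=
      IsScalarTower.of_algebraMap_eq fun a => (IsFractionRing.lift_algebraMap inj a).symm
    let S : Spec k K (FractionRing (MvPolynomial ι k)) K' :=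
      { O := ⊤
        φ := (π.comp MvPolynomial.C).comp (Subring.subtype ⊤)
        base := fun a => ⟨trivial, algebraMap (MvPolynomial ι k) _ (MvPolynomial.C a), by
          rw [← IsScalarTower.algebraMap_apply]
          show π (MvPolynomial.map _ _) = π (MvPolynomial.C _)
          rw [MvPolynomial.map_C]
          rfl⟩
        inv := fun _ _ => trivial }
    have e : ∀ W : Submodule k K, Module.finrank (FractionRing (MvPolynomial ι k)) (S.img W 1) =
        Module.finrank (MvPolynomial ι k)
        (span (MvPolynomial ι k) ((fun w => π (MvPolynomial.C w)) '' (W : Set K))) := by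
      intro W
      rw [← finrank_span (k' := FractionRing (MvPolynomial ι k)), Spec.img]
      have : (fun w : K => S.ev (w / 1)) = fun w => π (MvPolynomial.C w) := by
        funext w
        rw [_root_.div_one, Spec.ev, dif_pos (show w ∈ S.O from trivial)]
        rfl
      rw [this]
    refine ⟨_, K', inferInstance, inferInstance, inferInstance, S, rfl, fun W₀ W₁ h1 h2 => ?_,
      fun W₀ W₁ h1 h2 h3 => ?_⟩
    · rw [e]; exact (c W₀ W₁ h1 h2).1
    · rw [e]; exact (c W₀ W₁ h1 h2).2 h3
  · left
    intro W₀ W₁ h1 h2 h3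
    rw [injective_iff_map_eq_zero] at inj
    push Not at inj
    obtain ⟨P, hP, P0⟩ := inj
    have := (c W₀ W₁ h1 h2).2 h3
    have z : ∀ M : Submodule (MvPolynomial ι k) K', Module.finrank (MvPolynomial ι k) M = 0 := by
      intro M
      have : Module.rank (MvPolynomial ι k) M = 0 := rank_eq_zero_iff.2 fun x => ⟨P, P0, by
        apply Subtype.ext
        rw [Submodule.coe_smul, Algebra.smul_def, hP, zero_mul]; rfl⟩
      rw [Module.finrank, this]; simp
    rwa [z, add_zero] at this

theorem exists_pi [Fintype ι] (u : ι → K) {i : ι} (hi : u i ≠ 0) :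
    ∃ π : MvPolynomial ι K →+* FractionRing (MvPolynomial ι K), ∀ f, π f = 0 ↔ gs u ∣ f := by
  classical
  let a : MvPolynomial ι K := MvPolynomial.X i - MvPolynomial.C (u i)⁻¹ * gs u
  let ψ : MvPolynomial ι K →ₐ[K] MvPolynomial ι K :=
    MvPolynomial.aeval fun j => if j = i then a else MvPolynomial.X j
  have h1 : ∀ f, gs u ∣ f - ψ f := by
    intro f
    induction f using MvPolynomial.induction_on with
    | C c => simp [ψ]
    | add f g hf hg =>
      rw [map_add, add_sub_add_comm]; exact dvd_add hf hg
    | mul_X f j hf =>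
      have : gs u ∣ MvPolynomial.X j - ψ (MvPolynomial.X j) := by
        simp only [ψ, MvPolynomial.aeval_X]
        split_ifs with h
        · subst h; simp [a]
        · simp
      rw [map_mul]
      have e : f * MvPolynomial.X j - ψ f * ψ (MvPolynomial.X j) =
          (f - ψ f) * MvPolynomial.X j + ψ f * (MvPolynomial.X j - ψ (MvPolynomial.X j)) := by ring
      rw [e]
      exact dvd_add (hf.mul_right _) (this.mul_left _)
  have h2 : ψ (gs u) = 0 := by
    have e : ψ (gs u) = gs u + MvPolynomial.C (u i) * (a - MvPolynomial.X i) := by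
      rw [gs, map_sum, ← Finset.add_sum_erase _ _ (Finset.mem_univ i),
        ← Finset.add_sum_erase _ _ (Finset.mem_univ i)]
      have : ∑ j ∈ Finset.univ.erase i, ψ (MvPolynomial.C (u j) * MvPolynomial.X j) =
          ∑ j ∈ Finset.univ.erase i, MvPolynomial.C (u j) * MvPolynomial.X j :=
        Finset.sum_congr rfl fun j hj => by simp [ψ, Finset.ne_of_mem_erase hj]
      rw [this]
      simp only [ψ, map_mul, MvPolynomial.aeval_C, MvPolynomial.aeval_X, if_true,
        MvPolynomial.algebraMap_eq]
      ring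
    rw [e]
    simp only [a]
    rw [sub_sub_cancel_left, mul_neg, ← mul_assoc, ← map_mul, mul_inv_cancel₀ hi]
    simp
  refine ⟨(algebraMap _ _).comp ψ.toRingHom, fun f => ?_⟩
  rw [RingHom.comp_apply, map_eq_zero_iff _ (IsFractionRing.injective _ _)]
  constructor
  · intro h
    have := h1 f
    rwa [show ψ f = 0 from h, sub_zero] at this
  · rintro ⟨g, rfl⟩
    show ψ _ = 0
    rw [map_mul, h2, zero_mul]

end GenMem

/-- Let `u 0, …, u M` be a basis of `U`, `K' = K(t 1, …, t M)`, `t 0 = -∑ t j u j / u 0` and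
`k' = k(t 0, …, t M)`. Either the `t i` are algebraically dependent over `k`, or `K' / k'` is the
function field of the generic member. -/
theorem gen_member {k K : Type} [Field k] [Field K] [Algebra k K] (U : Submodule k K) (hU : U.FG)
    (h0 : U ≠ ⊥) :
    (∀ W₀ W₁ : Submodule k K, W₁.FG → U * W₀ ≤ W₁ → Sat U W₀ W₁ →
      Module.finrank k W₀ = Module.finrank k W₁) ∨
    ∃ (k' K' : Type) (_ : Field k') (_ : Field K') (_ : Algebra k' K') (S : Spec k K k' K'),
      S.O = ⊤ ∧
      (∀ W₀ W₁ : Submodule k K, W₁.FG → U * W₀ ≤ W₁ →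
        Module.finrank k W₀ + Module.finrank k' (S.img W₁ 1) ≤ Module.finrank k W₁) ∧
      (∀ W₀ W₁ : Submodule k K, W₁.FG → U * W₀ ≤ W₁ → Sat U W₀ W₁ →
        Module.finrank k W₀ + Module.finrank k' (S.img W₁ 1) = Module.finrank k W₁) := by
  obtain ⟨n, u, hu⟩ := Submodule.fg_iff_exists_fin_generating_family.1 hU
  have : ∃ i, u i ≠ 0 := by
    by_contra q
    push Not at q
    apply h0
    rw [← hu, span_eq_bot]
    rintro _ ⟨i, rfl⟩
    exact q i
  obtain ⟨i, hi⟩ := this
  obtain ⟨π, hπ⟩ := GenMem.exists_pi u hi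
  exact GenMem.final u hu.symm hi π hπ

end

end Pool.Agent.Lib.MP_62d77c_ag
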