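import Pool.Agent.Lib.MP_62d77c_ag.GlueB

/-! Gluing line bundles on the components: local sections. -/

set_option autoImplicit false

namespace Pool.Agent.Lib.MP_62d77c_ag

open Filter Polynomial Submodule

noncomputable section

variable {A : Type} [CommRing A] [IsDomain A] {𝒜 : ℕ → AddSubgroup A} [GradedRing 𝒜]
  [hG : Fact (Gen 𝒜)] {p : ℕ} [Fact p.Prime]

/-- a fraction as an element of the local ring -/
def glue_el {y : Pt 𝒜} {n : ℕ} {a b : A} (ha : a ∈ 𝒜 n) (hb : b ∈ 𝒜 n) (h : b ∉ pr y) : loc y :=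
  ⟨algebraMap A (FractionRing A) a / algebraMap A (FractionRing A) b,
    mem_loc.2 ⟨n, a, ha, b, hb, h, rfl⟩⟩

/-- restriction from the local ring at `y` to the function field of `x` -/
def glue_psi {x y : Pt 𝒜} (h : pr x ≤ pr y) : loc y →+* kap x :=
  (IsLocalRing.residue (loc x)).comp (Subring.inclusion ((MX 𝒜).orng_anti h))

theorem glue_psi_el {x y : Pt 𝒜} (h : pr x ≤ pr y) {n : ℕ} {a b : A} (ha : a ∈ 𝒜 n) (hb : b ∈ 𝒜 n)
    (hby : b ∉ pr y) : glue_psi h (glue_el ha hb hby) = th x a / th x b := by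
  rw [← res_div x ha hb fun e => hby (h e), res, dif_pos (mem_loc.2
    ⟨n, a, ha, b, hb, fun e => hby (h e), rfl⟩)]
  rfl

omit hG in
theorem glue_el_surj {y : Pt 𝒜} (z : loc y) : ∃ (n : ℕ) (a b : A) (ha : a ∈ 𝒜 n) (hb : b ∈ 𝒜 n)
    (h : b ∉ pr y), z = glue_el ha hb h := by
  obtain ⟨n, a, ha, b, hb, h, e⟩ := mem_loc.1 z.2
  exact ⟨n, a, b, ha, hb, h, Subtype.ext e⟩

omit hG in
theorem glue_el_unit {y : Pt 𝒜} {n : ℕ} {a b : A} (ha : a ∈ 𝒜 n) (hb : b ∈ 𝒜 n) (h : b ∉ pr y) :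
    IsUnit (glue_el ha hb h) ↔ a ∉ pr y := (MX 𝒜).isUnit_orng (on_MX y) ha hb h

theorem glue_ker_le {x x' y : Pt 𝒜} (h : pr x ≤ pr x') (h' : pr x' ≤ pr y) :
    RingHom.ker (glue_psi (h.trans h')) ≤ RingHom.ker (glue_psi h') := by
  intro z hz
  obtain ⟨n, a, b, ha, hb, hby, rfl⟩ := glue_el_surj z
  rw [RingHom.mem_ker, glue_psi_el] at hz ⊢
  have := (div_eq_zero_iff.1 hz).resolve_right (glue_th_ne hb fun e => hby (h' (h e)))
  rw [(th_eq_zero x' ha).2 (h ((th_eq_zero x ha).1 this)), zero_div]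

theorem glue_el_ker {x y : Pt 𝒜} (h : pr x ≤ pr y) {n : ℕ} {a b : A} (ha : a ∈ 𝒜 n) (hb : b ∈ 𝒜 n)
    (hby : b ∉ pr y) (hax : a ∈ pr x) : glue_el ha hb hby ∈ RingHom.ker (glue_psi h) := by
  rw [RingHom.mem_ker, glue_psi_el, (th_eq_zero x ha).2 hax, zero_div]

theorem glue_el_mem3 {x₁ x₂ x₃ y : Pt 𝒜} (h₁ : pr x₁ ≤ pr y) (h₂ : pr x₂ ≤ pr y)
    (h₃ : pr x₃ ≤ pr y) {n : ℕ} {a b : A} (ha : a ∈ 𝒜 n) (hb : b ∈ 𝒜 n) (hby : b ∉ pr y)
    (hm : a ∈ pr x₁ ⊔ pr x₂ ⊔ pr x₃) : glue_el ha hb hby ∈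
      RingHom.ker (glue_psi h₁) ⊔ RingHom.ker (glue_psi h₂) ⊔ RingHom.ker (glue_psi h₃) := by
  obtain ⟨a', h1, a₃, h3, m1, m3, e⟩ :=
    glue_split ((pr_hom x₁).sup (pr_hom x₂)) (pr_hom x₃) ha hm
  obtain ⟨a₁, h4, a₂, h5, m4, m5, e'⟩ := glue_split (pr_hom x₁) (pr_hom x₂) m1 h1
  have : glue_el ha hb hby = glue_el m4 hb hby + glue_el m5 hb hby + glue_el m3 hb hby := by
    apply Subtype.ext
    simp only [glue_el, Subring.coe_add, e, e', map_add, add_div]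
  rw [this]
  exact add_mem (Ideal.mem_sup_left (add_mem (Ideal.mem_sup_left (glue_el_ker h₁ m4 hb hby h4))
    (Ideal.mem_sup_right (glue_el_ker h₂ m5 hb hby h5))))
    (Ideal.mem_sup_right (glue_el_ker h₃ m3 hb hby h3))

variable {m : Comp 𝒜 p → ℕ} {I : Comp 𝒜 p → Car (MX 𝒜).V}
  {𝔞 : Comp 𝒜 p → Ideal A} {φ : ∀ S : Edge 𝒜 p, Comp 𝒜 p → kap S.1.1}

/-- local units that make powers of the generators compatible -/
theorem glue_Dat.units (d : glue_Dat 𝔞 φ) (h : Fib m I) : ∃ N, 0 < N ∧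
    ∀ (y : Vp 𝒜 p) (e : ℕ) (g : Comp 𝒜 p → A), glue_Gen 𝔞 y.1 e g →
      ∃ (n : ℕ) (x : Comp 𝒜 p → A), (∀ j, x j ∈ 𝒜 n ∧ x j ∉ pr y.1) ∧
        ∀ (S : Edge 𝒜 p) (j l : Comp 𝒜 p), cI j ≤ pr S.1.1 → cI l ≤ pr S.1.1 → pr S.1.1 ≤ pr y.1 →
          (φ S j * th S.1.1 (g j)) ^ N * th S.1.1 (x j) =
            (φ S l * th S.1.1 (g l)) ^ N * th S.1.1 (x l) := by
  classical
  obtain ⟨N, hN, hc⟩ := d.cocycle h
  obtain ⟨s, hs⟩ := frob_split p (Finset.univ : Finset (Comp 𝒜 p))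
  refine ⟨N * p ^ s, Nat.mul_pos hN (pow_pos (Fact.out : p.Prime).pos s), fun y e g hg => ?_⟩
  obtain ⟨j₀, hj₀⟩ := exists_comp y
  let π : Comp 𝒜 p → Comp 𝒜 p := fun j => if cI j ≤ pr y.1 then j else j₀
  have hπ : ∀ j, cI (π j) ≤ pr y.1 := fun j => by
    simp only [π]; split_ifs with hj
    · exact hj
    · exact hj₀
  have hπ' : ∀ j, cI j ≤ pr y.1 → π j = j := fun j hj => if_pos hj
  choose n b c t using fun j l : Comp 𝒜 p => d.exists_tr h hg (hπ j) (hπ l)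
  obtain ⟨lam, hu, hlam⟩ := hs (loc y.1) (fun j => RingHom.ker (glue_psi (hπ j)))
    (fun j l => glue_el (t j l).hc (t j l).hb (t j l).nb ^ N)
    (fun j _ => ⟨by
      rw [RingHom.mem_ker, map_natCast]
      exact CharP.cast_eq_zero (kap (π j).1.1) p, RingHom.ker_ne_top _⟩)
    (fun j _ l _ => ((glue_el_unit _ _ _).2 (t j l).nc).pow N)
    (fun j _ l _ i _ => by
      obtain ⟨T, h1, h2, h3⟩ := h.strat {π j, π l, π i} y (Set.insert_nonempty _ _) (by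
        rintro k (rfl | rfl | rfl) <;> exact hπ _)
      have m1 := glue_pow (glue_mul (glue_mul (t j l).hc (t l i).hc) (t j i).hb) N
      have m2 := glue_pow (glue_mul (glue_mul (t j l).hb (t l i).hb) (t j i).hc) N
      have m3 := glue_pow (glue_mul (glue_mul (t j l).hb (t l i).hb) (t j i).hb) N
      have n3 := glue_pow_not (glue_mul_not (glue_mul_not (t j l).nb (t l i).nb) (t j i).nb) N
      obtain ⟨k, w, hw, hwy, hm⟩ := h3 _ _ (hc _ _ _ T h2 y.1 h1 e g hg _ _ _ _ _ _ _ _ _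
        (t j l) (t l i) (t j i)) (sub_mem m1 m2)
      have hm' := (show (⨆ k ∈ ({π j, π l, π i} : Set (Comp 𝒜 p)), cI k) ≤
          cI (π j) ⊔ cI (π l) ⊔ cI (π i) from iSup₂_le (by
        rintro k (rfl | rfl | rfl)
        · exact le_sup_left.trans le_sup_left
        · exact le_sup_right.trans le_sup_left
        · exact le_sup_right)) hm
      have := glue_el_mem3 (hπ j) (hπ l) (hπ i) (glue_mul hw (sub_mem m1 m2)) (glue_mul hw m3)
        (glue_mul_not hwy n3) hm'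
      convert this using 1
      apply Subtype.ext
      have hne : ∀ a : A, a ∉ pr y.1 → algebraMap A (FractionRing A) a ≠ 0 := fun a ha e =>
        ha (((FaithfulSMul.algebraMap_eq_zero_iff _ _).1 e) ▸ zero_mem _)
      have a1 := hne _ (t j l).nb
      have a2 := hne _ (t l i).nb
      have a3 := hne _ (t j i).nb
      have a4 := hne _ hwy
      simp only [glue_el, AddSubgroupClass.coe_sub, Subring.coe_mul, Subring.coe_pow, map_mul,
        map_sub, map_pow, div_pow, mul_pow]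
      field_simp)
  choose k a w ha hw hwy hel using fun j => glue_el_surj (lam j)
  refine ⟨∑ j, k j, fun j => a j * ∏ l ∈ Finset.univ.erase j, w l, fun j => ⟨?_, ?_⟩,
    fun S j l hj hl hS => ?_⟩
  · rw [← Finset.add_sum_erase _ _ (Finset.mem_univ j)]
    exact glue_mul (ha j) (SetLike.prod_mem_graded 𝒜 _ _ fun l _ => hw l)
  · refine glue_mul_not ?_ (glue_prod_not _ fun l _ => hwy l)
    rw [← glue_el_unit (ha j) (hw j) (hwy j), ← hel]
    exact hu j (Finset.mem_univ j)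
  · have hx : ∀ j, th S.1.1 (a j * ∏ l ∈ Finset.univ.erase j, w l) =
        glue_psi hS (lam j) * th S.1.1 (∏ l, w l) := by
      intro j
      have := glue_th_ne (hw j) fun e => hwy j (hS e)
      rw [hel, glue_psi_el, ← Finset.mul_prod_erase _ _ (Finset.mem_univ j), map_mul, map_mul]
      field_simp
    have hj' : cI (π j) ≤ pr S.1.1 := by rwa [hπ' j (hj.trans hS)]
    have hl' : cI (π l) ≤ pr S.1.1 := by rwa [hπ' l (hl.trans hS)]
    have h1 : _ ∈ RingHom.ker (glue_psi hS) := (sup_le (glue_ker_le hj' hS) (glue_ker_le hl' hS))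
      (hlam j (Finset.mem_univ j) l (Finset.mem_univ l))
    rw [RingHom.mem_ker, map_sub, map_mul, map_pow, map_pow, glue_psi_el, sub_eq_zero,
      ← pow_mul] at h1
    have h2 := (t j l).rel S hj' hl' hS
    rw [hπ' j (hj.trans hS), hπ' l (hl.trans hS)] at h2
    have h3 := glue_th_ne (t j l).hb fun e => (t j l).nb (hS e)
    have h4 : φ S l * th S.1.1 (g l) =
        φ S j * th S.1.1 (g j) * (th S.1.1 (c j l) / th S.1.1 (b j l)) := by
      rw [← mul_div_assoc, h2]; field_simp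
    rw [hx, hx, h1, h4, mul_pow (φ S j * th S.1.1 (g j))]
    ring

/-- a common denominator for the generator -/
theorem glue_denom {y : Pt 𝒜} {n₀ e : ℕ} {g : Comp 𝒜 p → A} (hg : glue_Gen 𝔞 y e g) :
    ∃ k, ∃ B ∈ 𝒜 (k + e), B ∉ pr y ∧ ∀ j : Comp 𝒜 p, cI j ≤ pr y → ∀ u ∈ (Mp j.1).fam (𝔞 j) n₀,
      u * (th j.1.1 B / th j.1.1 (g j)) ∈ (Mp j.1).V ^ (k + n₀) := by
  classical
  have hfin : ∀ j : Comp 𝒜 p, Finite ((Mp j.1).fam (𝔞 j) n₀) := fun j => by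
    have : Module.Finite (ZMod p) ((Mp j.1).V ^ n₀ : Submodule (ZMod p) (kap j.1.1)) :=
      Module.Finite.iff_fg.2 ((Mp j.1).V_fg.pow n₀)
    have : Finite ((Mp j.1).V ^ n₀ : Submodule (ZMod p) (kap j.1.1)) :=
      Module.finite_of_finite (ZMod p)
    exact Finite.of_injective _ (Submodule.inclusion_injective ((Mp j.1).fam_le (𝔞 j) n₀))
  let κ := Σ j : {j : Comp 𝒜 p // cI j ≤ pr y}, (Mp j.1.1).fam (𝔞 j.1) n₀
  have : Fintype κ := Fintype.ofFinite _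
  have h1 : ∀ t : κ, ∃ r l, ∃ b ∈ 𝒜 r, b ∉ pr y ∧ r + n₀ = l + e ∧
      (t.2 : kap t.1.1.1.1) * (th t.1.1.1.1 b / th t.1.1.1.1 (g t.1.1)) ∈ (Mp t.1.1.1).V ^ l := by
    rintro ⟨⟨j, hj⟩, u, hu⟩
    obtain ⟨a, ha, ha', rfl⟩ := (Mp j.1).mem_fam.1 hu
    have hgen := (hg j).2.2 hj
    obtain ⟨r, l, b, hb, c, hc, hby, hdeg, e1⟩ := hgen.2.2.2 _ a ha ha'
    refine ⟨r, l, b, hb, hby, hdeg, ?_⟩
    have h0 : th j.1.1 (g j) ≠ 0 := hgen.2.2.1
    have e2 : th j.1.1 b * th j.1.1 a = th j.1.1 c * th j.1.1 (g j) := by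
      rw [← map_mul, ← map_mul]; exact e1
    have : th j.1.1 a * (th j.1.1 b / th j.1.1 (g j)) = th j.1.1 c := by
      field_simp; linear_combination e2
    exact this ▸ glue_th_mem j.1 hc
  choose r l b hb hby hdeg hm using h1
  refine ⟨∑ t, r t, (∏ t, b t) * ell y ^ e, by
    simpa using glue_mul (SetLike.prod_mem_graded 𝒜 _ _ fun t _ => hb t)
      (glue_pow (ell_spec y).1 e),
    glue_mul_not (glue_prod_not _ fun t _ => hby t) (glue_pow_not (ell_spec y).2 e),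
    fun j hj u hu => ?_⟩
  let t : κ := ⟨⟨j, hj⟩, u, hu⟩
  have h2 : (∏ s ∈ Finset.univ.erase t, b s) * ell y ^ e ∈
      𝒜 (∑ s ∈ Finset.univ.erase t, r s + e) := by
    simpa using glue_mul (SetLike.prod_mem_graded 𝒜 _ _ fun t _ => hb t)
      (glue_pow (ell_spec y).1 e)
  have h3 := Submodule.mul_mem_mul (hm t) (glue_th_mem j.1 h2)
  rw [← pow_add] at h3
  have h4 : l t + (∑ s ∈ Finset.univ.erase t, r s + e) = ∑ t, r t + n₀ := by
    rw [← Finset.add_sum_erase _ _ (Finset.mem_univ t)]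
    have := hdeg t
    omega
  rw [h4] at h3
  convert h3 using 1
  rw [← Finset.mul_prod_erase _ _ (Finset.mem_univ t)]
  simp only [map_mul, t]
  ring

/-- compatible sections -/
structure glue_Sec (𝔞 : Comp 𝒜 p → Ideal A) (φ : ∀ S : Edge 𝒜 p, Comp 𝒜 p → kap S.1.1)
    (n₀ N t : ℕ) (s : Comp 𝒜 p → A) : Prop where
  deg : ∀ j, s j ∈ 𝒜 (N * n₀ + t)
  mem : ∀ j : Comp 𝒜 p, th j.1.1 (s j) ∈ (Mp j.1).fam (𝔞 j) n₀ ^ N * (Mp j.1).V ^ t
  cp : ∀ (S : Edge 𝒜 p) (j l : Comp 𝒜 p), cI j ≤ pr S.1.1 → cI l ≤ pr S.1.1 →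
    φ S j ^ N * th S.1.1 (s j) = φ S l ^ N * th S.1.1 (s l)

/-- compatible sections of the dual -/
structure glue_Tau (𝔞 : Comp 𝒜 p → Ideal A) (φ : ∀ S : Edge 𝒜 p, Comp 𝒜 p → kap S.1.1)
    (n₀ N k : ℕ) (τ : ∀ j : Comp 𝒜 p, kap j.1.1) : Prop where
  mem : ∀ j : Comp 𝒜 p, ∀ u ∈ (Mp j.1).fam (𝔞 j) n₀ ^ N, u * τ j ∈ (Mp j.1).V ^ k
  cp : ∀ t s, glue_Sec 𝔞 φ n₀ N t s → ∃ a : Comp 𝒜 p → A,
    (∀ j, a j ∈ 𝒜 (t + k) ∧ th j.1.1 (a j) = th j.1.1 (s j) * τ j) ∧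
      ∀ (S : Edge 𝒜 p) (j l : Comp 𝒜 p), cI j ≤ pr S.1.1 → cI l ≤ pr S.1.1 →
        th S.1.1 (a j) = th S.1.1 (a l)

theorem glue_Sec.mul {n₀ N t : ℕ} {s : Comp 𝒜 p → A} (h : glue_Sec 𝔞 φ n₀ N t s) {r : ℕ} {x : A}
    (hx : x ∈ 𝒜 r) : glue_Sec 𝔞 φ n₀ N (t + r) fun j => s j * x := by
  refine ⟨fun j => glue_deg (glue_mul (h.deg j) hx) (by ring), fun j => ?_,
    fun S j l hj hl => ?_⟩
  · rw [map_mul, pow_add, ← mul_assoc]
    exact Submodule.mul_mem_mul (h.mem j) (glue_th_mem j.1 hx)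
  · rw [map_mul, map_mul, ← mul_assoc, h.cp S j l hj hl, mul_assoc]

theorem glue_Tau.mul {n₀ N k : ℕ} {τ : ∀ j : Comp 𝒜 p, kap j.1.1} (h : glue_Tau 𝔞 φ n₀ N k τ)
    {r : ℕ} {x : A} (hx : x ∈ 𝒜 r) : glue_Tau 𝔞 φ n₀ N (k + r) fun j => τ j * th j.1.1 x := by
  refine ⟨fun j u hu => ?_, fun t s hs => ?_⟩
  · rw [pow_add, ← mul_assoc]
    exact Submodule.mul_mem_mul (h.mem j u hu) (glue_th_mem j.1 hx)
  · obtain ⟨a, ha, ha'⟩ := h.cp t s hs
    refine ⟨fun j => a j * x, fun j => ⟨glue_deg (glue_mul (ha j).1 hx) (by ring), ?_⟩,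
      fun S j l hj hl => ?_⟩
    · rw [map_mul, (ha j).2, mul_assoc]
    · rw [map_mul, map_mul, ha' S j l hj hl]

theorem glue_mul_mem {k K : Type} [CommRing k] [CommRing K] [Algebra k K] {U V : Submodule k K}
    {τ : K} {r : ℕ} (h : ∀ u ∈ U, u * τ ∈ V ^ r) (t : ℕ) :
    ∀ u ∈ U * V ^ t, u * τ ∈ V ^ (t + r) := by
  intro u hu
  refine Submodule.mul_induction_on hu (fun a ha b hb => ?_) (fun a b ha hb => ?_)
  · rw [pow_add, show a * b * τ = b * (a * τ) by ring]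
    exact Submodule.mul_mem_mul hb (h a ha)
  · rw [add_mul]; exact add_mem ha hb

/-- a chart around every point -/
theorem glue_Dat.chart (d : glue_Dat 𝔞 φ) (h : Fib m I) {n₀ : ℕ}
    (hn₀ : ∀ (j : Comp 𝒜 p) (r : ℕ),
      (Mp j.1).fam (𝔞 j) (n₀ + r) = (Mp j.1).V ^ r • (Mp j.1).fam (𝔞 j) n₀) :
    ∃ N, 0 < N ∧ ∀ y : Vp 𝒜 p, ∃ (t k : ℕ) (s : Comp 𝒜 p → A) (τ : ∀ j : Comp 𝒜 p, kap j.1.1)
      (F : A), glue_Sec 𝔞 φ n₀ N t s ∧ glue_Tau 𝔞 φ n₀ N k τ ∧ F ∈ 𝒜 (t + k) ∧ F ∉ pr y.1 ∧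
        ∀ j : Comp 𝒜 p, th j.1.1 F = th j.1.1 (s j) * τ j := by
  classical
  obtain ⟨N, hN, hu⟩ := d.units h
  refine ⟨N, hN, fun y => ?_⟩
  obtain ⟨e, he, g, hg⟩ := ((eventually_ge_atTop n₀).and (d.gen y.1)).exists
  obtain ⟨r, rfl⟩ := Nat.exists_eq_add_of_le he
  obtain ⟨n, x, hx, hrel⟩ := hu y _ g hg
  obtain ⟨k, B, hB, hBy, hBm⟩ := glue_denom (n₀ := n₀) hg
  obtain ⟨dh, w, hw, hwy, hwZ⟩ := (glue_sep y.1
    (((Finset.univ.image fun j : Comp 𝒜 p => j.1.1) ∪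
      (Finset.univ.image fun S : Edge 𝒜 p => S.1.1)).filter fun T => ¬pr T ≤ pr y.1)
    fun T hT => (Finset.mem_filter.1 hT).2).exists
  have hwj : ∀ j : Comp 𝒜 p, ¬cI j ≤ pr y.1 → th j.1.1 w = 0 := fun j hj =>
    (th_eq_zero _ hw).2 (hwZ _ (Finset.mem_filter.2
      ⟨Finset.mem_union_left _ (Finset.mem_image_of_mem _ (Finset.mem_univ j)), hj⟩))
  have hwS : ∀ S : Edge 𝒜 p, ¬pr S.1.1 ≤ pr y.1 → th S.1.1 w = 0 := fun S hS =>
    (th_eq_zero _ hw).2 (hwZ _ (Finset.mem_filter.2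
      ⟨Finset.mem_union_right _ (Finset.mem_image_of_mem _ (Finset.mem_univ S)), hS⟩))
  let x' : Comp 𝒜 p → A := fun j => ∏ l ∈ Finset.univ.erase j, x l
  let n' := (Fintype.card (Comp 𝒜 p) - 1) * n
  have hx' : ∀ j, x' j ∈ 𝒜 n' := fun j => by
    have := SetLike.prod_mem_graded 𝒜 (F := Finset.univ.erase j) (fun _ => n) x
      fun l _ => (hx l).1
    rwa [Finset.sum_const, Finset.card_erase_of_mem (Finset.mem_univ j), Finset.card_univ,
      smul_eq_mul] at this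
  have hxx : ∀ j, x j * x' j = ∏ l, x l := fun j =>
    Finset.mul_prod_erase _ _ (Finset.mem_univ j)
  obtain ⟨j₀, -⟩ := exists_comp y
  have hX : ∏ l, x l ∈ 𝒜 (n + n') := hxx j₀ ▸ glue_mul (hx j₀).1 (hx' j₀)
  have hτ : ∀ j : Comp 𝒜 p, cI j ≤ pr y.1 → ∀ u ∈ (Mp j.1).fam (𝔞 j) n₀ ^ N,
      u * (th j.1.1 B / th j.1.1 (g j)) ^ N ∈ (Mp j.1).V ^ ((k + n₀) * N) := fun j hj u hu => by
    rw [pow_mul]
    exact glue_pow_mul (hBm j hj) N u hu
  refine ⟨r * N + (n + dh), (k + n₀) * N + (n' + dh), fun j => g j ^ N * (x j * w),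
    fun j => (th j.1.1 B / th j.1.1 (g j)) ^ N * th j.1.1 (x' j * w),
    B ^ N * (∏ l, x l) * (w * w), ⟨fun j => ?_, fun j => ?_, fun S j l hj hl => ?_⟩,
    ⟨fun j u hu => ?_, fun t s hs => ?_⟩, ?_, ?_, fun j => ?_⟩
  · exact glue_deg (glue_mul (glue_pow (hg j).2.1 N) (glue_mul (hx j).1 hw)) (by ring)
  · have h1 : th j.1.1 (g j) ∈ (Mp j.1).fam (𝔞 j) n₀ * (Mp j.1).V ^ r := by
      rw [mul_comm, ← smul_eq_mul, ← hn₀]
      exact (Mp j.1).mem_fam.2 ⟨g j, (hg j).1, (hg j).2.1, rfl⟩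
    have h2 := Submodule.pow_mem_pow _ h1 N
    rw [mul_pow, ← pow_mul] at h2
    rw [map_mul, map_pow, pow_add, ← mul_assoc]
    exact Submodule.mul_mem_mul h2 (glue_th_mem j.1 (glue_mul (hx j).1 hw))
  · by_cases hS : pr S.1.1 ≤ pr y.1
    · have := hrel S j l hj hl hS
      simp only [map_mul, map_pow, mul_pow] at this ⊢
      linear_combination th S.1.1 w * this
    · simp [hwS S hS]
  · by_cases hj : cI j ≤ pr y.1
    · rw [← mul_assoc, pow_add]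
      exact Submodule.mul_mem_mul (hτ j hj u hu) (glue_th_mem j.1 (glue_mul (hx' j) hw))
    · simp [hwj j hj]
  · have h1 : ∀ j : Comp 𝒜 p, ∃ a ∈ 𝒜 (t + (k + n₀) * N), cI j ≤ pr y.1 →
        th j.1.1 a = th j.1.1 (s j) * (th j.1.1 B / th j.1.1 (g j)) ^ N := by
      intro j
      by_cases hj : cI j ≤ pr y.1
      · obtain ⟨a, ha, e⟩ := (Mp j.1).mem_pow.1 (glue_mul_mem (hτ j hj) t _ (hs.mem j))
        exact ⟨a, ha, fun _ => e⟩
      · exact ⟨0, zero_mem _, fun h => absurd h hj⟩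
    choose a ha ha' using h1
    refine ⟨fun j => a j * (x' j * w),
      fun j => ⟨glue_deg (glue_mul (ha j) (glue_mul (hx' j) hw)) (by ring), ?_⟩,
      fun S j l hj hl => ?_⟩
    · by_cases hj : cI j ≤ pr y.1
      · rw [map_mul, ha' j hj, mul_assoc]
      · simp [hwj j hj]
    · by_cases hS : pr S.1.1 ≤ pr y.1
      swap
      · simp [hwS S hS]
      have h2 : ∀ j : Comp 𝒜 p, cI j ≤ pr S.1.1 →
          th S.1.1 (a j) * th S.1.1 (g j) ^ N = th S.1.1 (s j) * th S.1.1 B ^ N := by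
        intro j hj
        have h0 : th j.1.1 (g j) ≠ 0 := ((hg j).2.2 (hj.trans hS)).2.2.1
        have := glue_th_congr hj (glue_mul (ha j) (glue_pow (hg j).2.1 N))
          (glue_deg (glue_mul (hs.deg j) (glue_pow hB N)) (by ring)) (by
            simp only [map_mul, map_pow, ha' j (hj.trans hS), div_pow]
            field_simp)
        simpa only [map_mul, map_pow] using this
      have h3 : ∀ j, th S.1.1 (x j) * th S.1.1 (x' j) = th S.1.1 (∏ l, x l) := fun j => by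
        rw [← map_mul, hxx]
      have h4 := hrel S j l hj hl hS
      have h5 := hs.cp S j l hj hl
      have h6 : (φ S j * th S.1.1 (g j)) ^ N * th S.1.1 (x j) ≠ 0 :=
        mul_ne_zero (pow_ne_zero _ (mul_ne_zero (d.ne S j) (d.gen_ne hg (ea_eb S).2 hS hj)))
          (glue_th_ne (hx j).1 fun e => (hx j).2 (hS e))
      apply mul_left_cancel₀ h6
      have e1 := h2 j hj
      have e2 := h2 l hl
      have e3 := h3 j
      have e4 := h3 l
      simp only [map_mul, mul_pow] at h4 ⊢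
      generalize th S.1.1 (g j) ^ N = gj at *
      generalize th S.1.1 (g l) ^ N = gl at *
      generalize φ S j ^ N = fj at *
      generalize φ S l ^ N = fl at *
      generalize th S.1.1 B ^ N = b at *
      linear_combination (-th S.1.1 (a l) * th S.1.1 (x' l) * th S.1.1 w) * h4 +
        (fj * th S.1.1 (x j) * th S.1.1 (x' j) * th S.1.1 w) * e1 -
        (fl * th S.1.1 (x l) * th S.1.1 (x' l) * th S.1.1 w) * e2 +
        (fj * th S.1.1 (s j) * b * th S.1.1 w) * e3 -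
        (fl * th S.1.1 (s l) * b * th S.1.1 w) * e4 +
        (b * th S.1.1 w * th S.1.1 (∏ l, x l)) * h5
  · exact glue_deg (glue_mul (glue_mul (glue_pow hB N) hX) (glue_mul hw hw)) (by ring)
  · exact glue_mul_not (glue_mul_not (glue_pow_not hBy N) (glue_prod_not _ fun l _ => (hx l).2))
      (glue_mul_not hwy hwy)
  · by_cases hj : cI j ≤ pr y.1
    · have h0 : th j.1.1 (g j) ≠ 0 := ((hg j).2.2 hj).2.2.1
      rw [← hxx j]
      simp only [map_mul, map_pow, div_pow]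
      field_simp
    · simp [hwj j hj]

/-- finitely many charts of the same degree -/
theorem glue_base (h : Fib m I) (D : ∀ j : Comp 𝒜 p, Pic (Mp j.1).V)
    (hD : ∀ S : Edge 𝒜 p, (Mp (ea S).1).rho S.1 (D (ea S)) = (Mp (eb S).1).rho S.1 (D (eb S))) :
    ∃ (ι : Type) (_ : Fintype ι) (e N b : ℕ) (a : Comp 𝒜 p → ι → ι → A), 0 < e ∧ 0 < N ∧
      (∀ j α β, a j α β ∈ 𝒜 e) ∧
      (∀ (j l : Comp 𝒜 p) (y : Pt 𝒜) (α β : ι), cI j ≤ pr y → cI l ≤ pr y →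
        th y (a j α β) = th y (a l α β)) ∧
      (∀ y : Vp 𝒜 p, ∃ α, ∀ j : Comp 𝒜 p, cI j ≤ pr y.1 → a j α α ∉ pr y.1) ∧
      ∀ j : Comp 𝒜 p, glue_On j.1 e (a j) (D j ^ N * Lp (Mp j.1).V ^ b) := by
  classical
  obtain ⟨c, 𝔞, φ, C, d, hC⟩ := glue_dat h D hD
  have h1 : ∀ᶠ n in atTop, ∀ j : Comp 𝒜 p, Rep (C j) ((Mp j.1).fam (𝔞 j) n) n ∧
      ∀ r, (Mp j.1).fam (𝔞 j) (n + r) = (Mp j.1).V ^ r • (Mp j.1).fam (𝔞 j) n :=
    eventually_all.2 fun j => ((hC j).1.rep (mdl_Mp j.1)).and ((Mp j.1).fg_fam (𝔞 j)).pow_smul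
  obtain ⟨n₀, hc, hn₀⟩ := ((eventually_ge_atTop c).and h1).exists
  obtain ⟨n₁, rfl⟩ := Nat.exists_eq_add_of_le hc
  obtain ⟨N, hN, hch⟩ := d.chart h fun j => (hn₀ j).2
  choose t k s τ F hs hτ hF hFy hFs using hch
  have := noeth_of_gen 𝒜
  obtain ⟨Y', hY', hspan⟩ := (Submodule.fg_span_iff_fg_span_finset_subset (R := A)
    (F '' Set.univ)).1 (IsNoetherian.noetherian _)
  obtain ⟨Y, -, rfl⟩ := Finset.subset_set_image_iff.1 hY'
  have hcov : ∀ y : Vp 𝒜 p, ∃ z ∈ Y, F z ∉ pr y.1 := by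
    intro y
    by_contra hn
    push Not at hn
    have h2 : span A (F '' Set.univ) ≤ pr y.1 := by
      rw [hspan, span_le]
      intro a ha
      obtain ⟨z, hz, rfl⟩ := Finset.mem_image.1 ha
      exact hn z hz
    exact hFy y (h2 (subset_span ⟨y, Set.mem_univ y, rfl⟩))
  obtain ⟨X, hX, hX'⟩ := glue_lin (𝒜 := 𝒜)
  let t₀ := Y.sup t + 1
  let k₀ := Y.sup k
  have ht : ∀ z : Y, t z + (t₀ - t z) = t₀ := fun z => by
    have : t z ≤ Y.sup t := Finset.le_sup z.2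
    omega
  have hk : ∀ z : Y, k z + (k₀ - k z) = k₀ := fun z => by
    have : k z ≤ Y.sup k := Finset.le_sup z.2
    omega
  have hpw : ∀ (x : X) (r : ℕ), (x : A) ^ r ∈ 𝒜 r := fun x r => by
    simpa using glue_pow (hX x x.2) r
  have hs' : ∀ α : Y × X, glue_Sec 𝔞 φ (c + n₁) N t₀ fun j => s α.1 j * (α.2 : A) ^ (t₀ - t α.1) :=
    fun α => by
      have := (hs α.1).mul (hpw α.2 (t₀ - t α.1))
      rwa [ht α.1] at this
  have hτ' : ∀ α : Y × X, glue_Tau 𝔞 φ (c + n₁) N k₀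
      fun j => τ α.1 j * th j.1.1 ((α.2 : A) ^ (k₀ - k α.1)) :=
    fun α => by
      have := (hτ α.1).mul (hpw α.2 (k₀ - k α.1))
      rwa [hk α.1] at this
  choose a ha ha' using fun α β : Y × X => (hτ' β).cp _ _ (hs' α)
  refine ⟨Y × X, inferInstance, t₀ + k₀, N, N * n₁ + t₀, fun j α β => a α β j, by omega, hN,
    fun j α β => (ha α β j).1, fun j l y α β hj hl => ?_, fun y => ?_, fun j => ?_⟩
  · by_cases hne : j = l
    · rw [hne]
    obtain ⟨S, h2, h3, h4, -⟩ := glue_edge h (y := ⟨y, hj j.1.2⟩) hne hj hl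
    exact glue_th_congr h4 (ha α β j).1 (ha α β l).1 (ha' α β S j l h2 h3)
  · obtain ⟨z, hz, hzy⟩ := hcov y
    obtain ⟨x, hx, hxy⟩ := hX' y.1
    refine ⟨(⟨z, hz⟩, ⟨x, hx⟩), fun j hj hm => ?_⟩
    have h2 : F z * (x ^ (t₀ - t z) * x ^ (k₀ - k z)) ∈ 𝒜 (t₀ + k₀) :=
      glue_deg (glue_mul (hF z) (glue_mul (hpw ⟨x, hx⟩ _) (hpw ⟨x, hx⟩ _))) (by
        have := ht ⟨z, hz⟩
        have := hk ⟨z, hz⟩
        simp only at *
        omega)
    have h3 := glue_th_congr hj (ha (⟨z, hz⟩, ⟨x, hx⟩) (⟨z, hz⟩, ⟨x, hx⟩) j).1 h2 (by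
      rw [(ha _ _ j).2]
      simp only [map_mul, hFs]
      ring)
    rw [(th_eq_zero y.1 (ha _ _ j).1).2 hm] at h3
    exact glue_th_ne h2 (glue_mul_not hzy (glue_mul_not (glue_pow_not hxy _)
      (glue_pow_not hxy _))) h3.symm
  · refine ⟨fun α => th j.1.1 (s α.1 j * (α.2 : A) ^ (t₀ - t α.1)),
      fun α => τ α.1 j * th j.1.1 ((α.2 : A) ^ (k₀ - k α.1)),
      C j ^ N * Lc (Mp j.1).V ^ (N * (c + n₁)) * Lc (Mp j.1).V ^ t₀,
      (Mp j.1).fam (𝔞 j) (c + n₁) ^ N * (Mp j.1).V ^ t₀,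
      by simpa using ((hn₀ j).1.pow N).mul_L.mul (rep_L.pow t₀), ?_, fun α => (hs' α).mem j,
      fun α => glue_mul_mem ((hτ' α).mem j) t₀, fun α β => (ha α β j).2⟩
    rw [← (hC j).2, map_mul, map_mul, map_pow, map_pow, map_pow, mul_pow, ← pow_mul, mul_assoc,
      mul_assoc, ← pow_add, ← pow_add]
    congr 2
    ring

end

end Pool.Agent.Lib.MP_62d77c_ag
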