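import Pool.Agent.Lib.MP_62d77c_ag.Dim
import Pool.Agent.Lib.MP_62d77c_ag.Alg
import Pool.Agent.Lib.MP_62d77c_ag.GlueC

/-! Gluing line bundles on the components. -/

set_option autoImplicit false

namespace Pool.Agent.Lib.MP_62d77c_ag

open Filter Polynomial Submodule

noncomputable section

variable {A : Type} [CommRing A] [IsDomain A] {𝒜 : ℕ → AddSubgroup A} [GradedRing 𝒜]
  [hG : Fact (Gen 𝒜)] {p : ℕ} [Fact p.Prime]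

/-- a matrix of forms of rank one modulo `p` whose diagonal entries cover the fibre -/
structure GMat (𝒜 : ℕ → AddSubgroup A) [GradedRing 𝒜] (p : ℕ) {r : ℕ} (e : ℕ)
    (G : Fin r → Fin r → A) : Prop where
  pos : 0 < e
  deg : ∀ α β, G α β ∈ 𝒜 e
  ne : ∀ α, G α α ≠ 0
  rel : ∀ α β γ δ, ∃ z ∈ 𝒜 (e + e), G α β * G γ δ - G α δ * G γ β = p * z
  cov : ∀ y : Vp 𝒜 p, ∃ α, G α α ∉ pr y.1

/-- the matrix `G` describes the line bundle `M` on the closure of `j` -/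
def GOn (j : Vp 𝒜 p) {r : ℕ} (e : ℕ) (G : Fin r → Fin r → A) (M : Pic (Mp j).V) : Prop :=
  ∃ (σ τ : Fin r → kap j.1) (D : Car (Mp j).V) (U : Submodule (ZMod p) (kap j.1)),
    Rep D U 0 ∧ cl D = M ∧ (∀ α, σ α ∈ U) ∧ (∀ α, ∀ u ∈ U, u * τ α ∈ (Mp j).V ^ e) ∧
      ∀ α β, th j.1 (G α β) = σ α * τ β

theorem glue [CharZero A] {m : Comp 𝒜 p → ℕ} {I : Comp 𝒜 p → Car (MX 𝒜).V} (h : Fib m I)
    (j₀ : Comp 𝒜 p) (D : ∀ j : Comp 𝒜 p, Pic (Mp j.1).V)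
    (hD : ∀ S : Edge 𝒜 p, (Mp (ea S).1).rho S.1 (D (ea S)) = (Mp (eb S).1).rho S.1 (D (eb S)))
    (Ws : Finset (Pt 𝒜)) (hW : ∀ W ∈ Ws, ∀ y : Vp 𝒜 p, pr W ≤ pr y.1 → dm y ≤ 1) :
    ∃ (r e N b : ℕ) (G : Fin (r + 2) → Fin (r + 2) → A), 0 < N ∧ GMat 𝒜 p e G ∧
      (∀ W ∈ Ws, ∀ y : Vp 𝒜 p, pr W ≤ pr y.1 → G 0 0 ∉ pr y.1 ∨ G 1 1 ∉ pr y.1) ∧
      ∀ j : Comp 𝒜 p, GOn j.1 e G (D j ^ N * Lp (Mp j.1).V ^ b) := by
  obtain ⟨ι, _, e, N, b, a, he, hN, ha, hcp, hc, hOn⟩ := glue_base h D hD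
  obtain ⟨r, e', N', b', G, hN', h1, h2, h3, h4, h5, h6, h7⟩ :=
    glue_final he a ha hcp hc hOn j₀ Ws hW
  refine ⟨r, e', N * N', b * N' + b', G, Nat.mul_pos hN hN', ⟨h1, h2, h3, h4, h5⟩, h6, fun j => ?_⟩
  have := h7 j
  rw [mul_pow, ← pow_mul, ← pow_mul, mul_assoc, ← pow_add] at this
  exact this

end

end Pool.Agent.Lib.MP_62d77c_ag
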