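import Pool.Agent.Lib.MP_62d77c_ag.Dim
import Pool.Agent.Lib.MP_62d77c_ag.Alg

/-! Gluing line bundles on the components: general tools. -/

set_option autoImplicit false

namespace Pool.Agent.Lib.MP_62d77c_ag

open Filter Polynomial Submodule

noncomputable section

variable {A : Type} [CommRing A] [IsDomain A] {𝒜 : ℕ → AddSubgroup A} [GradedRing 𝒜]
  [hG : Fact (Gen 𝒜)] {p : ℕ} [Fact p.Prime]

omit hG [IsDomain A] [GradedRing 𝒜] in
theorem glue_deg {a : A} {n n' : ℕ} (h : a ∈ 𝒜 n) (e : n = n') : a ∈ 𝒜 n' := e ▸ h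

omit hG [IsDomain A] in
theorem glue_mul {a b : A} {n m : ℕ} (h : a ∈ 𝒜 n) (h' : b ∈ 𝒜 m) : a * b ∈ 𝒜 (n + m) :=
  SetLike.mul_mem_graded h h'

omit hG [IsDomain A] in
theorem glue_pow {a : A} {n : ℕ} (h : a ∈ 𝒜 n) (k : ℕ) : a ^ k ∈ 𝒜 (k * n) := by
  simpa using SetLike.pow_mem_graded k h

omit hG [IsDomain A] in
theorem glue_prime (y : Pt 𝒜) : (pr y).IsPrime := y.isPrime

omit hG [IsDomain A] in
theorem glue_mul_not {y : Pt 𝒜} {a b : A} (h : a ∉ pr y) (h' : b ∉ pr y) : a * b ∉ pr y :=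
  fun e => ((glue_prime y).mem_or_mem e).elim h h'

omit hG [IsDomain A] in
theorem glue_pow_not {y : Pt 𝒜} {a : A} (h : a ∉ pr y) (k : ℕ) : a ^ k ∉ pr y :=
  fun e => h ((glue_prime y).mem_of_pow_mem k e)

omit hG [IsDomain A] in
theorem glue_prod_not {y : Pt 𝒜} {α : Type} (s : Finset α) {a : α → A} (h : ∀ i ∈ s, a i ∉ pr y) :
    ∏ i ∈ s, a i ∉ pr y := by
  intro e
  obtain ⟨i, hi, h'⟩ := (Ideal.IsPrime.prod_mem_iff (hp := glue_prime y)).1 e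
  exact h i hi h'

theorem glue_th_ne {y : Pt 𝒜} {n : ℕ} {a : A} (ha : a ∈ 𝒜 n) (h : a ∉ pr y) : th y a ≠ 0 :=
  fun e => h ((th_eq_zero y ha).1 e)

theorem glue_th_congr {S T : Pt 𝒜} (hST : pr S ≤ pr T) {n : ℕ} {a b : A} (ha : a ∈ 𝒜 n)
    (hb : b ∈ 𝒜 n) (h : th S a = th S b) : th T a = th T b := by
  have h1 : a - b ∈ pr S := (th_eq_zero S (sub_mem ha hb)).1 (by rw [map_sub, h, sub_self])
  have h2 := (th_eq_zero T (sub_mem ha hb)).2 (hST h1)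
  rwa [map_sub, sub_eq_zero] at h2

theorem glue_th_mem (x : Vp 𝒜 p) {n : ℕ} {a : A} (ha : a ∈ 𝒜 n) : th x.1 a ∈ (Mp x).V ^ n :=
  (Mp x).mem_pow.2 ⟨a, ha, rfl⟩

omit hG [IsDomain A] in
theorem glue_proj_mem (n : ℕ) (a : A) : GradedRing.proj 𝒜 n a ∈ 𝒜 n := by
  rw [GradedRing.proj_apply]; exact SetLike.coe_mem _

omit hG [IsDomain A] in
theorem glue_proj_same {n : ℕ} {a : A} (h : a ∈ 𝒜 n) : GradedRing.proj 𝒜 n a = a := by
  rw [GradedRing.proj_apply]; exact DirectSum.decompose_of_mem_same 𝒜 h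

omit hG [IsDomain A] in
theorem glue_proj_ideal {J : Ideal A} (hJ : J.IsHomogeneous 𝒜) (n : ℕ) {a : A} (h : a ∈ J) :
    GradedRing.proj 𝒜 n a ∈ J := by
  rw [GradedRing.proj_apply]; exact hJ n h

omit hG [IsDomain A] in
theorem glue_split {J J' : Ideal A} (hJ : J.IsHomogeneous 𝒜) (hJ' : J'.IsHomogeneous 𝒜) {n : ℕ}
    {a : A} (ha : a ∈ 𝒜 n) (h : a ∈ J ⊔ J') :
    ∃ b ∈ J, ∃ c ∈ J', b ∈ 𝒜 n ∧ c ∈ 𝒜 n ∧ a = b + c := by
  obtain ⟨b, hb, c, hc, rfl⟩ := Submodule.mem_sup.1 h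
  refine ⟨_, glue_proj_ideal hJ n hb, _, glue_proj_ideal hJ' n hc, glue_proj_mem n b,
    glue_proj_mem n c, ?_⟩
  rw [← map_add, glue_proj_same ha]

/-- homogeneous Nullstellensatz -/
theorem glue_rad {J : Ideal A} (hJ : J.IsHomogeneous 𝒜) {n : ℕ} (hn : 0 < n) {a : A}
    (ha : a ∈ 𝒜 n) (h : ∀ y : Pt 𝒜, J ≤ pr y → a ∈ pr y) :
    ∀ᶠ s in atTop, a ^ p ^ s ∈ J := by
  have h1 : a ∈ J.radical := by
    rw [hJ.radical_eq, Ideal.mem_sInf]
    rintro P ⟨hP, hJP, hprime⟩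
    rcases exists_pt hprime hP with h0 | ⟨y, rfl⟩
    · obtain ⟨m, rfl⟩ : ∃ m, n = m + 1 := ⟨n - 1, by omega⟩
      have := mem_closure_mul m 1 ha
      refine (AddSubgroup.closure_le (K := P.toAddSubgroup)).2 ?_ this
      rintro z ⟨b, -, c, hc, rfl⟩
      exact P.mul_mem_left b (h0 c hc)
    · exact h y hJP
  obtain ⟨M, hM⟩ := h1
  filter_upwards [eventually_ge_atTop M] with s hs
  have : M ≤ p ^ s := hs.trans (Nat.lt_pow_self (Fact.out : p.Prime).one_lt).le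
  exact Ideal.pow_mem_of_pow_mem J hM this

omit hG [IsDomain A] in
theorem glue_frob {J : Ideal A} (hp : (p : A) ∈ J) {s : ℕ} {a b : A} (h : (a - b) ^ p ^ s ∈ J) :
    a ^ p ^ s - b ^ p ^ s ∈ J := by
  obtain ⟨r, hr⟩ := exists_add_pow_prime_pow_eq (Fact.out : p.Prime) (a - b) b s
  rw [sub_add_cancel] at hr
  have : a ^ p ^ s - b ^ p ^ s = (a - b) ^ p ^ s + p * ((a - b) * b * r) := by rw [hr]; ring
  rw [this]
  exact add_mem h (J.mul_mem_right _ hp)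

/-- a regular function on a projective variety over a finite field is a root of unity -/
theorem glue_root (T : Vp 𝒜 p) {z : kap T.1} (hz : z ≠ 0)
    (h : ∀ y : Pt 𝒜, pr T.1 ≤ pr y → z ∈ (Mp T).orng y) :
    ∀ᶠ M in atTop, z ^ (Nat.factorial M) = 1 := by
  have hV := (Mp T).V_fg
  have h1 : Fg (Mp T).V (fun n => span (ZMod p) {z} • (Mp T).V ^ n) :=
    (fg_pw' hV).smul (fg_span_singleton z)
  have h2 := (Mp T).local_global h1 (fg_pw' hV).fam (Eventually.of_forall fun n w hw y hy => by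
    obtain ⟨m, a, ha, b, hb, hby, e⟩ := ((Mp T).mem_orng hy).1 (h y (on_Mp.1 hy))
    refine ⟨m, b, hb, hby, ?_⟩
    rw [smul_eq_mul, Submodule.mem_span_singleton_mul] at hw
    obtain ⟨v, hv, rfl⟩ := hw
    have hb0 : (Mp T).θ b ≠ 0 := fun e0 => hby (hy m b hb e0)
    have : (Mp T).θ b • (z * v) = v * (Mp T).θ a := by
      rw [e, smul_eq_mul]; field_simp
    rw [this, pow_add]
    exact Submodule.mul_mem_mul hv ((Mp T).mem_pow.2 ⟨a, ha, rfl⟩))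
  obtain ⟨n, hn⟩ := h2.exists
  have hfin : Finite ((Mp T).V ^ n : Submodule (ZMod p) (kap T.1)) := by
    have : Module.Finite (ZMod p) ((Mp T).V ^ n : Submodule (ZMod p) (kap T.1)) :=
      Module.Finite.iff_fg.2 (hV.pow n)
    exact Module.finite_of_finite (ZMod p)
  have hk : ∀ k : ℕ, z ^ k ∈ (Mp T).V ^ n := by
    intro k
    induction k with
    | zero =>
      have := glue_th_mem T (glue_pow (ell_spec T.1).1 n)
      rwa [map_pow, th_ell, one_pow, mul_one, ← pow_zero z] at this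
    | succ k ih =>
      refine hn ?_
      beta_reduce
      rw [pow_succ', smul_eq_mul]
      exact Submodule.mul_mem_mul (Submodule.mem_span_singleton_self z) ih
  obtain ⟨k, l, hkl, e⟩ := Finite.exists_ne_map_eq_of_infinite
    (fun k : ℕ => (⟨z ^ k, hk k⟩ : ((Mp T).V ^ n : Submodule (ZMod p) (kap T.1))))
  have e' : z ^ k = z ^ l := congrArg Subtype.val e
  have key : ∀ k l : ℕ, k < l → z ^ k = z ^ l → ∀ᶠ M in atTop, z ^ (Nat.factorial M) = 1 := by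
    intro k l hlt e
    obtain ⟨d, rfl⟩ : ∃ d, l = k + (d + 1) := ⟨l - k - 1, by omega⟩
    have hd : z ^ (d + 1) = 1 := by
      rw [pow_add] at e
      exact (mul_right_eq_self₀.1 e.symm).resolve_right (pow_ne_zero _ hz)
    filter_upwards [eventually_ge_atTop (d + 1)] with M hM
    obtain ⟨c, hc⟩ := Nat.dvd_factorial (Nat.succ_pos d) hM
    rw [hc, pow_mul, hd, one_pow]
  rcases lt_or_gt_of_ne hkl with h' | h'
  · exact key k l h' e'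
  · exact key l k h' e'.symm

/-- a form vanishing at finitely many given points and not at another one -/
theorem glue_sep (y : Pt 𝒜) (Z : Finset (Pt 𝒜)) (h : ∀ T ∈ Z, ¬pr T ≤ pr y) :
    ∀ᶠ d in atTop, ∃ a ∈ 𝒜 d, a ∉ pr y ∧ ∀ T ∈ Z, a ∈ pr T := by
  have hJ : (Z.inf fun T => pr T).IsHomogeneous 𝒜 := by
    rw [Finset.inf_eq_iInf]
    exact Ideal.IsHomogeneous.iInf₂ fun T _ => pr_hom T
  have := avoid hJ {y} (by
    intro y' hy' hle
    rw [Finset.mem_singleton] at hy'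
    subst hy'
    obtain ⟨T, hT, h'⟩ := (glue_prime y').inf_le'.1 hle
    exact h T hT h')
  filter_upwards [this] with d ⟨a, ha, ha', hy⟩
  exact ⟨a, ha', hy y (Finset.mem_singleton_self y),
    fun T hT => (Finset.inf_le (f := fun T : Pt 𝒜 => pr T) hT) ha⟩

/-- finitely many linear forms without common zero -/
theorem glue_lin : ∃ X : Finset A, (∀ x ∈ X, x ∈ 𝒜 1) ∧ ∀ y : Pt 𝒜, ∃ x ∈ X, x ∉ pr y := by
  obtain ⟨X, hX⟩ := piece_fg (𝒜 := 𝒜) 1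
  refine ⟨X, fun x hx => hX ▸ AddSubgroup.subset_closure hx, fun y => ?_⟩
  by_contra hc
  push Not at hc
  have : 𝒜 1 ≤ (pr y).toAddSubgroup := by
    rw [← hX, AddSubgroup.closure_le]
    exact fun x hx => hc x hx
  exact (ell_spec y).2 (this (ell_spec y).1)

/-- compatible families lift after a Frobenius power -/
theorem glue_lift {κ : Type} [Finite κ] {e : ℕ} (he : 0 < e) (a : Comp 𝒜 p → κ → A)
    (ha : ∀ j α, a j α ∈ 𝒜 e)
    (h : ∀ (j l : Comp 𝒜 p) (y : Pt 𝒜) (α : κ), cI j ≤ pr y → cI l ≤ pr y →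
      th y (a j α) = th y (a l α)) :
    ∃ q, 0 < q ∧ ∃ x : κ → A, ∀ α, x α ∈ 𝒜 (q * e) ∧
      ∀ j : Comp 𝒜 p, th j.1.1 (x α) = th j.1.1 (a j α ^ q) := by
  have h1 : ∀ᶠ s in atTop, ∀ t : κ × Comp 𝒜 p × Comp 𝒜 p,
      (a t.2.1 t.1 - a t.2.2 t.1) ^ p ^ s ∈ cI t.2.1 ⊔ cI t.2.2 := by
    rw [eventually_all]
    rintro ⟨α, j, l⟩
    refine glue_rad ((pr_hom _).sup (pr_hom _)) he (sub_mem (ha j α) (ha l α)) fun y hy => ?_
    rw [← th_eq_zero y (sub_mem (ha j α) (ha l α)), map_sub,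
      h j l y α (le_sup_left.trans hy) (le_sup_right.trans hy), sub_self]
  obtain ⟨s, hs⟩ := h1.exists
  obtain ⟨s', hs'⟩ := frob_crt p (Finset.univ : Finset (Comp 𝒜 p))
  have hp : 0 < p := (Fact.out : p.Prime).pos
  refine ⟨p ^ s * p ^ s', by positivity, ?_⟩
  have : ∀ α, ∃ x ∈ 𝒜 (p ^ s * p ^ s' * e),
      ∀ j : Comp 𝒜 p, th j.1.1 x = th j.1.1 (a j α ^ (p ^ s * p ^ s')) := by
    intro α
    obtain ⟨x, hx⟩ := hs' A (fun j => cI j) (fun j => a j α ^ p ^ s) (fun j _ => j.1.2)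
      (fun j _ l _ => glue_frob (Ideal.mem_sup_left j.1.2) (hs (α, j, l)))
    refine ⟨_, glue_proj_mem _ x, fun j => ?_⟩
    have h2 := glue_proj_ideal (pr_hom j.1.1) (p ^ s * p ^ s' * e) (hx j (Finset.mem_univ j))
    have h3 := glue_pow (ha j α) (p ^ s * p ^ s')
    rw [← pow_mul, map_sub, glue_proj_same h3] at h2
    have h4 := (th_eq_zero j.1.1 (sub_mem (glue_proj_mem _ x) h3)).2 h2
    rwa [map_sub, sub_eq_zero] at h4
  choose x hx hx' using this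
  exact ⟨x, fun α => ⟨hx α, hx' α⟩⟩

/-- the matrix `G` describes the line bundle `M` on the closure of `j` -/
def glue_On (j : Vp 𝒜 p) {ι : Type} (e : ℕ) (G : ι → ι → A) (M : Pic (Mp j).V) : Prop :=
  ∃ (σ τ : ι → kap j.1) (D : Car (Mp j).V) (U : Submodule (ZMod p) (kap j.1)),
    Rep D U 0 ∧ cl D = M ∧ (∀ α, σ α ∈ U) ∧ (∀ α, ∀ u ∈ U, u * τ α ∈ (Mp j).V ^ e) ∧
      ∀ α β, th j.1 (G α β) = σ α * τ β

theorem glue_pow_mul {k K : Type} [CommRing k] [CommRing K] [Algebra k K] {U W : Submodule k K}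
    {τ : K} (h : ∀ u ∈ U, u * τ ∈ W) (q : ℕ) : ∀ u ∈ U ^ q, u * τ ^ q ∈ W ^ q := by
  induction q with
  | zero => intro u hu; simpa using hu
  | succ q ih =>
    intro u hu
    rw [pow_succ] at hu
    refine Submodule.mul_induction_on hu (fun a ha b hb => ?_) (fun a b ha hb => ?_)
    · rw [pow_succ W, show a * b * τ ^ (q + 1) = (a * τ ^ q) * (b * τ) by ring]
      exact Submodule.mul_mem_mul (ih a ha) (h b hb)
    · rw [add_mul]; exact add_mem ha hb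

theorem glue_On.congr {j : Vp 𝒜 p} {ι : Type} {e : ℕ} {G G' : ι → ι → A} {M : Pic (Mp j).V}
    (h : glue_On j e G M) (hG' : ∀ α β, th j.1 (G' α β) = th j.1 (G α β)) : glue_On j e G' M := by
  obtain ⟨σ, τ, D, U, h1, h2, h3, h4, h5⟩ := h
  exact ⟨σ, τ, D, U, h1, h2, h3, h4, fun α β => (hG' α β).trans (h5 α β)⟩

theorem glue_On.pow {j : Vp 𝒜 p} {ι : Type} {e : ℕ} {G : ι → ι → A} {M : Pic (Mp j).V}
    (h : glue_On j e G M) (q : ℕ) : glue_On j (q * e) (fun α β => G α β ^ q) (M ^ q) := by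
  obtain ⟨σ, τ, D, U, h1, h2, h3, h4, h5⟩ := h
  refine ⟨fun α => σ α ^ q, fun α => τ α ^ q, D ^ q, U ^ q, by simpa using h1.pow q,
    by rw [map_pow, h2], fun α => Submodule.pow_mem_pow _ (h3 α) q, fun α u hu => ?_,
    fun α β => by rw [map_pow, h5, mul_pow]⟩
  rw [mul_comm q, pow_mul]
  exact glue_pow_mul (h4 α) q u hu

/-- the transformed matrix -/
def glue_tr {ι κ : Type} [Fintype ι] (P : κ → ι → A) (G : ι → ι → A) : κ → κ → A :=
  fun γ δ => ∑ α, ∑ β, P γ α * G α β * P δ β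

omit hG [IsDomain A] in
theorem glue_tr_mem {ι κ : Type} [Fintype ι] {P : κ → ι → A} {G : ι → ι → A} {d e : ℕ}
    (hP : ∀ γ α, P γ α ∈ 𝒜 d) (h : ∀ α β, G α β ∈ 𝒜 e) (γ δ : κ) :
    glue_tr P G γ δ ∈ 𝒜 (d + e + d) :=
  sum_mem fun α _ => sum_mem fun β _ => glue_mul (glue_mul (hP γ α) (h α β)) (hP δ β)

theorem glue_On.tr {j : Vp 𝒜 p} {ι κ : Type} [Fintype ι] {e : ℕ} {G : ι → ι → A}
    {M : Pic (Mp j).V} (h : glue_On j e G M) {P : κ → ι → A} {d : ℕ} (hP : ∀ γ α, P γ α ∈ 𝒜 d) :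
    glue_On j (d + e + d) (glue_tr P G) (M * Lp (Mp j).V ^ d) := by
  obtain ⟨σ, τ, D, U, h1, h2, h3, h4, h5⟩ := h
  refine ⟨fun γ => ∑ α, σ α * th j.1 (P γ α), fun δ => ∑ β, τ β * th j.1 (P δ β),
    D * Lc (Mp j).V ^ d, U * (Mp j).V ^ d, by simpa using h1.mul (rep_L.pow d),
    by rw [map_mul, map_pow, h2]; rfl,
    fun γ => sum_mem fun α _ => Submodule.mul_mem_mul (h3 α) (glue_th_mem j (hP γ α)),
    fun δ u hu => ?_, fun γ δ => ?_⟩
  · refine Submodule.mul_induction_on hu (fun a ha b hb => ?_) (fun a b ha hb => ?_)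
    · rw [Finset.mul_sum]
      refine sum_mem fun β _ => ?_
      rw [pow_add, pow_add,
        show a * b * (τ β * th j.1 (P δ β)) = b * (a * τ β) * th j.1 (P δ β) by ring]
      exact Submodule.mul_mem_mul (Submodule.mul_mem_mul hb (h4 β a ha)) (glue_th_mem j (hP δ β))
    · rw [add_mul]; exact add_mem ha hb
  · simp only [glue_tr, map_sum, map_mul, h5, Finset.sum_mul_sum]
    exact Finset.sum_congr rfl fun α _ => Finset.sum_congr rfl fun β _ => by ring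

/-- a row vector whose diagonal entry avoids finitely many points -/
theorem glue_row {ι : Type} [Fintype ι] [Nonempty ι] {G : ι → ι → A} {e : ℕ} (hG' : ∀ α β, G α β ∈ 𝒜 e)
    (Z : Finset (Pt 𝒜)) (hc : ∀ y ∈ Z, ∃ α, G α α ∉ pr y) :
    ∀ᶠ d in atTop, ∃ v : ι → A, (∀ α, v α ∈ 𝒜 d) ∧
      ∀ y ∈ Z, (∑ α, ∑ β, v α * G α β * v β) ∉ pr y := by
  classical
  set Z' := Z.filter fun y => ∀ y' ∈ Z, pr y ≤ pr y' → y' = y with hZ'
  have hmax : ∀ y ∈ Z, ∃ y' ∈ Z', pr y ≤ pr y' := by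
    intro y hy
    obtain ⟨y', hy', hm⟩ := (Z.filter fun y' => pr y ≤ pr y').finite_toSet.exists_maximalFor
      (fun y' : Pt 𝒜 => pr y') _ ⟨y, by simp [hy]⟩
    simp only [Finset.coe_filter, Set.mem_ofPred_eq] at hy' hm
    refine ⟨y', Finset.mem_filter.2 ⟨hy'.1, fun y'' h1 h2 => ?_⟩, hy'.2⟩
    exact pr_inj (le_antisymm (hm ⟨h1, hy'.2.trans h2⟩ h2) h2)
  have h1 : ∀ᶠ d in atTop, ∀ y ∈ Z', ∃ a ∈ 𝒜 d, a ∉ pr y ∧ ∀ T ∈ Z'.erase y, a ∈ pr T := by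
    rw [eventually_all_finset]
    intro y hy
    refine glue_sep y _ fun T hT hle => ?_
    obtain ⟨h1, h2⟩ := Finset.mem_erase.1 hT
    exact h1 ((Finset.mem_filter.1 h2).2 y (Finset.mem_filter.1 hy).1 hle).symm
  choose! c hc using hc
  filter_upwards [h1] with d hd
  choose! f hf hf1 hf2 using hd
  refine ⟨fun α => ∑ y ∈ Z' with c y = α, f y,
    fun α => sum_mem fun y hy => hf y (Finset.mem_filter.1 hy).1, fun y hy => ?_⟩
  obtain ⟨y', hy', hle⟩ := hmax y hy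
  intro hmem
  have hv : ∀ α, (∑ y ∈ Z' with c y = α, f y) ∈ 𝒜 d :=
    fun α => sum_mem fun y hy => hf y (Finset.mem_filter.1 hy).1
  have h0 := (th_eq_zero y' (sum_mem fun α _ => sum_mem fun β _ =>
    glue_mul (glue_mul (hv α) (hG' α β)) (hv β))).2 (hle hmem)
  have h2 : ∀ α, th y' (∑ y ∈ Z' with c y = α, f y) = if c y' = α then th y' (f y') else 0 := by
    intro α
    rw [map_sum, Finset.sum_filter, Finset.sum_eq_single y']
    · intro b hb hne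
      rw [(th_eq_zero y' (hf b hb)).2 (hf2 b hb y' (Finset.mem_erase.2 ⟨hne.symm, hy'⟩))]
      simp
    · intro hn; exact absurd hy' hn
  simp only [map_sum, map_mul, h2] at h0
  simp only [ite_mul, zero_mul, mul_ite, mul_zero, Finset.sum_ite_eq, Finset.mem_univ,
    if_true] at h0
  have h3 := glue_th_ne (hf y' hy') (hf1 y' hy')
  have h4 := glue_th_ne (hG' _ _) (hc y' (Finset.mem_filter.1 hy').1)
  exact mul_ne_zero (mul_ne_zero h3 h4) h3 h0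

omit hG [Fact p.Prime] [IsDomain A] in
theorem glue_hom_span {n : ℕ} {a : A} (ha : a ∈ 𝒜 n) : (Ideal.span {a}).IsHomogeneous 𝒜 :=
  Ideal.homogeneous_span 𝒜 _ fun x hx => by
    rw [Set.mem_singleton_iff] at hx
    exact ⟨n, hx ▸ ha⟩

omit [Fact p.Prime] in
/-- finitely many points over `p` below every point over `p` of finitely many closed sets -/
theorem glue_mins (j₀ : Vp 𝒜 p) (Ws : Finset (Pt 𝒜)) {J : Ideal A} (hJ : J.IsHomogeneous 𝒜) :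
    ∃ Z : Finset (Pt 𝒜), j₀.1 ∈ Z ∧ (∀ x ∈ Z, (p : A) ∈ pr x) ∧ ∀ W ∈ Ws, ∀ y : Vp 𝒜 p,
      pr W ≤ pr y.1 → J ≤ pr y.1 → ∃ x ∈ Z, pr W ≤ pr x ∧ J ≤ pr x ∧ pr x ≤ pr y.1 := by
  classical
  have hp : (Ideal.span {(p : A)}).IsHomogeneous 𝒜 :=
    glue_hom_span (SetLike.natCast_mem_graded 𝒜 p)
  choose Z hZ hZ' using fun W : Pt 𝒜 => exists_min (((pr_hom W).sup hJ).sup hp)
  refine ⟨insert j₀.1 (Ws.biUnion Z), Finset.mem_insert_self _ _, fun x hx => ?_,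
    fun W hW y h1 h2 => ?_⟩
  · rcases Finset.mem_insert.1 hx with rfl | hx
    · exact j₀.2
    · obtain ⟨W, -, hx⟩ := Finset.mem_biUnion.1 hx
      exact (hZ W x hx).1 (Ideal.mem_sup_right (Ideal.mem_span_singleton_self _))
  · obtain ⟨x, hx, hle⟩ := hZ' W y.1
      (sup_le (sup_le h1 h2) ((Ideal.span_singleton_le_iff_mem _).2 y.2))
    exact ⟨x, Finset.mem_insert_of_mem (Finset.mem_biUnion.2 ⟨W, hW, hx⟩),
      (le_sup_left.trans le_sup_left).trans (hZ W x hx).1,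
      (le_sup_right.trans le_sup_left).trans (hZ W x hx).1, hle⟩

/-- the first two charts -/
theorem glue_two {ι : Type} [Fintype ι] {G : ι → ι → A} {e : ℕ} (he : 0 < e)
    (hG' : ∀ α β, G α β ∈ 𝒜 e) (hc : ∀ y : Vp 𝒜 p, ∃ α, G α α ∉ pr y.1) (j₀ : Vp 𝒜 p)
    (Ws : Finset (Pt 𝒜)) (hW : ∀ W ∈ Ws, ∀ y : Vp 𝒜 p, pr W ≤ pr y.1 → dm y ≤ 1) :
    ∃ (r d : ℕ) (P : Fin (r + 2) → ι → A), (∀ γ α, P γ α ∈ 𝒜 d) ∧ (∀ γ, glue_tr P G γ γ ≠ 0) ∧
      (∀ y : Vp 𝒜 p, ∃ γ, glue_tr P G γ γ ∉ pr y.1) ∧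
      ∀ W ∈ Ws, ∀ y : Vp 𝒜 p, pr W ≤ pr y.1 →
        glue_tr P G 0 0 ∉ pr y.1 ∨ glue_tr P G 1 1 ∉ pr y.1 := by
  classical
  have : Nonempty ι := ⟨(hc j₀).choose⟩
  obtain ⟨Z₀, hj₀, hp₀, hZ₀⟩ := glue_mins j₀ Ws (Ideal.IsHomogeneous.bot 𝒜)
  obtain ⟨d₀, v₀, hv₀, hF₀⟩ := (glue_row hG' Z₀ fun y hy => hc ⟨y, hp₀ y hy⟩).exists
  set F₀ := ∑ α, ∑ β, v₀ α * G α β * v₀ β with hF₀def
  have hF₀m : F₀ ∈ 𝒜 (d₀ + e + d₀) :=
    sum_mem fun α _ => sum_mem fun β _ => glue_mul (glue_mul (hv₀ α) (hG' α β)) (hv₀ β)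
  obtain ⟨Z₁, hj₁, hp₁, hZ₁⟩ := glue_mins j₀ Ws (glue_hom_span hF₀m)
  obtain ⟨k, hk⟩ := eventually_atTop.1 (glue_row hG' Z₁ fun y hy => hc ⟨y, hp₁ y hy⟩)
  obtain ⟨v₁, hv₁, hF₁⟩ := hk (k * (d₀ + e + d₀) + d₀) (by nlinarith)
  obtain ⟨X, hX, hX'⟩ := glue_lin (𝒜 := 𝒜)
  set d := k * (d₀ + e + d₀) + d₀ with hd
  let κ := {t : ι × X // G t.1 t.1 ≠ 0 ∧ (t.2 : A) ≠ 0}
  let E := Fintype.equivFin κ
  let R : κ → ι → A := fun t α => if α = t.1.1 then (t.1.2 : A) ^ d else 0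
  have hR : ∀ t : κ, ∑ α, ∑ β, R t α * G α β * R t β =
      (t.1.2 : A) ^ d * G t.1.1 t.1.1 * (t.1.2 : A) ^ d := by
    intro t
    simp [R]
  have h0 : ∑ α, ∑ β, (F₀ ^ k * v₀ α) * G α β * (F₀ ^ k * v₀ β) = F₀ ^ (2 * k + 1) := by
    rw [pow_succ, hF₀def, Finset.mul_sum]
    refine Finset.sum_congr rfl fun α _ => ?_
    rw [Finset.mul_sum]
    exact Finset.sum_congr rfl fun β _ => by ring
  refine ⟨Fintype.card κ, d,
    Fin.cons (fun α => F₀ ^ k * v₀ α) (Fin.cons v₁ fun i => R (E.symm i)), ?_, ?_, ?_, ?_⟩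
  · intro γ α
    refine Fin.cases ?_ (fun γ => Fin.cases ?_ (fun γ => ?_) γ) γ
    · exact glue_mul (glue_pow hF₀m k) (hv₀ α)
    · exact hv₁ α
    · simp only [Fin.cons_succ, R]
      split_ifs
      · simpa using glue_pow (hX _ (E.symm γ).1.2.2) d
      · exact zero_mem _
  · intro γ
    refine Fin.cases ?_ (fun γ => Fin.cases ?_ (fun γ => ?_) γ) γ
    · simp only [glue_tr, Fin.cons_zero, h0]
      exact pow_ne_zero _ fun h => hF₀ _ hj₀ (h ▸ zero_mem _)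
    · simp only [glue_tr, Fin.cons_succ, Fin.cons_zero]
      exact fun h => hF₁ _ hj₁ (h ▸ zero_mem _)
    · simp only [glue_tr, Fin.cons_succ, hR]
      exact mul_ne_zero (mul_ne_zero (pow_ne_zero _ (E.symm γ).2.2) (E.symm γ).2.1)
        (pow_ne_zero _ (E.symm γ).2.2)
  · intro y
    obtain ⟨α, hα⟩ := hc y
    obtain ⟨x, hx, hxy⟩ := hX' y.1
    refine ⟨(E ⟨(α, ⟨x, hx⟩), fun h => hα (h ▸ zero_mem _),
      fun h => hxy ((show x = 0 from h) ▸ zero_mem _)⟩).succ.succ, ?_⟩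
    simp only [glue_tr, Fin.cons_succ, hR, Equiv.symm_apply_apply]
    exact glue_mul_not (glue_mul_not (glue_pow_not hxy d) hα) (glue_pow_not hxy d)
  · intro W hWs y hy
    by_cases hy0 : F₀ ∈ pr y.1
    · right
      obtain ⟨x, hx, h1, h2, h3⟩ := hZ₁ W hWs y hy ((Ideal.span_singleton_le_iff_mem _).2 hy0)
      obtain ⟨x₀, hx₀, h4, -, h5⟩ := hZ₀ W hWs ⟨x, hp₁ x hx⟩ h1 bot_le
      have h6 : pr x₀ < pr x := lt_of_le_of_ne h5 fun h =>
        hF₀ x₀ hx₀ (h ▸ h2 (Ideal.mem_span_singleton_self _))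
      have h7 := dm_lt (x := ⟨x₀, hp₀ x₀ hx₀⟩) (y := ⟨x, hp₁ x hx⟩) h6
      have h8 := hW W hWs ⟨x₀, hp₀ x₀ hx₀⟩ h4
      have h9 : pr x = pr y.1 := by
        by_contra hne
        have := dm_lt (x := ⟨x, hp₁ x hx⟩) (y := y) (lt_of_le_of_ne h3 hne)
        omega
      rw [← h9]
      exact hF₁ x hx
    · left
      simp only [glue_tr, Fin.cons_zero, h0]
      exact glue_pow_not hy0 _

/-- a Frobenius power makes the minors divisible by `p` -/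
theorem glue_minor {ι : Type} [Finite ι] {G : ι → ι → A} {e : ℕ} (he : 0 < e)
    (hG' : ∀ α β, G α β ∈ 𝒜 e) {M : ∀ j : Comp 𝒜 p, Pic (Mp j.1).V}
    (h : ∀ j : Comp 𝒜 p, glue_On j.1 e G (M j)) : ∃ q, 0 < q ∧ ∀ α β γ δ,
      ∃ z ∈ 𝒜 (q * e + q * e), G α β ^ q * G γ δ ^ q - G α δ ^ q * G γ β ^ q = p * z := by
  have hp0 : (p : A) ∈ 𝒜 0 := SetLike.natCast_mem_graded 𝒜 p
  have h1 : ∀ᶠ s in atTop, ∀ t : ι × ι × ι × ι,
      (G t.1 t.2.1 * G t.2.2.1 t.2.2.2 - G t.1 t.2.2.2 * G t.2.2.1 t.2.1) ^ p ^ s ∈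
        Ideal.span {(p : A)} := by
    rw [eventually_all]
    rintro ⟨α, β, γ, δ⟩
    have hm := sub_mem (glue_mul (hG' α β) (hG' γ δ)) (glue_mul (hG' α δ) (hG' γ β))
    refine glue_rad (glue_hom_span hp0) (by omega) hm fun y hy => ?_
    obtain ⟨j, hj⟩ := exists_comp ⟨y, hy (Ideal.mem_span_singleton_self _)⟩
    obtain ⟨σ, τ, -, -, -, -, -, -, h5⟩ := h j
    refine hj ((th_eq_zero j.1.1 hm).1 ?_)
    simp only [map_sub, map_mul, h5]
    ring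
  obtain ⟨s, hs⟩ := h1.exists
  refine ⟨p ^ s, pow_pos (Fact.out : p.Prime).pos s, fun α β γ δ => ?_⟩
  obtain ⟨z, hz⟩ := Ideal.mem_span_singleton'.1
    (glue_frob (Ideal.mem_span_singleton_self _) (hs (α, β, γ, δ)))
  simp only [mul_pow] at hz
  refine ⟨_, glue_proj_mem _ z, ?_⟩
  have hm := sub_mem (glue_mul (glue_pow (hG' α β) (p ^ s)) (glue_pow (hG' γ δ) (p ^ s)))
    (glue_mul (glue_pow (hG' α δ) (p ^ s)) (glue_pow (hG' γ β) (p ^ s)))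
  rw [← glue_proj_same hm, ← hz, mul_comm z, GradedRing.proj_apply, GradedRing.proj_apply]
  exact DirectSum.coe_decompose_mul_of_left_mem_zero 𝒜 hp0

/-- from compatible matrices on the components to the final matrix -/
theorem glue_final {ι : Type} [Fintype ι] {e : ℕ} (he : 0 < e) (a : Comp 𝒜 p → ι → ι → A)
    (ha : ∀ j α β, a j α β ∈ 𝒜 e)
    (hcp : ∀ (j l : Comp 𝒜 p) (y : Pt 𝒜) (α β : ι), cI j ≤ pr y → cI l ≤ pr y →
      th y (a j α β) = th y (a l α β))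
    (hc : ∀ y : Vp 𝒜 p, ∃ α, ∀ j : Comp 𝒜 p, cI j ≤ pr y.1 → a j α α ∉ pr y.1)
    {M : ∀ j : Comp 𝒜 p, Pic (Mp j.1).V} (h : ∀ j : Comp 𝒜 p, glue_On j.1 e (a j) (M j))
    (j₀ : Comp 𝒜 p) (Ws : Finset (Pt 𝒜))
    (hW : ∀ W ∈ Ws, ∀ y : Vp 𝒜 p, pr W ≤ pr y.1 → dm y ≤ 1) :
    ∃ (r e N b : ℕ) (G : Fin (r + 2) → Fin (r + 2) → A), 0 < N ∧ 0 < e ∧ (∀ α β, G α β ∈ 𝒜 e) ∧
      (∀ α, G α α ≠ 0) ∧
      (∀ α β γ δ, ∃ z ∈ 𝒜 (e + e), G α β * G γ δ - G α δ * G γ β = p * z) ∧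
      (∀ y : Vp 𝒜 p, ∃ α, G α α ∉ pr y.1) ∧
      (∀ W ∈ Ws, ∀ y : Vp 𝒜 p, pr W ≤ pr y.1 → G 0 0 ∉ pr y.1 ∨ G 1 1 ∉ pr y.1) ∧
      ∀ j : Comp 𝒜 p, glue_On j.1 e G (M j ^ N * Lp (Mp j.1).V ^ b) := by
  obtain ⟨q, hq, x, hx⟩ := glue_lift (κ := ι × ι) he (fun j t => a j t.1 t.2)
    (fun j t => ha j t.1 t.2) (fun j l y t => hcp j l y t.1 t.2)
  have hG1 : ∀ α β, x (α, β) ∈ 𝒜 (q * e) := fun α β => (hx (α, β)).1
  have hOn : ∀ j : Comp 𝒜 p, glue_On j.1 (q * e) (fun α β => x (α, β)) (M j ^ q) :=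
    fun j => ((h j).pow q).congr fun α β => (hx (α, β)).2 j
  have hc1 : ∀ y : Vp 𝒜 p, ∃ α, x (α, α) ∉ pr y.1 := by
    intro y
    obtain ⟨α, hα⟩ := hc y
    obtain ⟨j, hj⟩ := exists_comp y
    refine ⟨α, fun hm => ?_⟩
    have h1 := glue_th_congr hj (hG1 α α) (glue_pow (ha j α α) q) ((hx (α, α)).2 j)
    rw [(th_eq_zero y.1 (hG1 α α)).2 hm] at h1
    exact glue_th_ne (glue_pow (ha j α α) q) (glue_pow_not (hα j hj) q) h1.symm
  obtain ⟨r, d, P, hP, h1, h2, h3⟩ := glue_two (G := fun α β => x (α, β)) (Nat.mul_pos hq he) hG1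
    hc1 j₀.1 Ws hW
  have hm := glue_tr_mem hP hG1
  have hOn2 := fun j => (hOn j).tr hP
  have hpos : 0 < d + q * e + d := by have := Nat.mul_pos hq he; omega
  obtain ⟨q', hq', hrel⟩ := glue_minor hpos hm hOn2
  refine ⟨r, q' * (d + q * e + d), q * q', d * q', fun α β => glue_tr P (fun α β => x (α, β)) α β ^ q',
    Nat.mul_pos hq hq', Nat.mul_pos hq' hpos, fun α β => glue_pow (hm α β) q',
    fun α => pow_ne_zero _ (h1 α), hrel, fun y => ?_, fun W hWs y hy => ?_, fun j => ?_⟩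
  · obtain ⟨γ, hγ⟩ := h2 y
    exact ⟨γ, glue_pow_not hγ _⟩
  · exact (h3 W hWs y hy).imp (fun h => glue_pow_not h _) fun h => glue_pow_not h _
  · have := (hOn2 j).pow q'
    rwa [mul_pow, ← pow_mul, ← pow_mul] at this

end

end Pool.Agent.Lib.MP_62d77c_ag
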