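import Pool.Agent.Lib.MP_62d77c_ag.GlueA

/-! Gluing line bundles on the components: local units. -/

set_option autoImplicit false

namespace Pool.Agent.Lib.MP_62d77c_ag

open Filter Polynomial Submodule

noncomputable section

variable {A : Type} [CommRing A] [IsDomain A] {𝒜 : ℕ → AddSubgroup A} [GradedRing 𝒜]
  [hG : Fact (Gen 𝒜)] {p : ℕ} [Fact p.Prime]

/-- invertible ideals on the components and identifications along the edges -/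
structure glue_Dat (𝔞 : Comp 𝒜 p → Ideal A) (φ : ∀ S : Edge 𝒜 p, Comp 𝒜 p → kap S.1.1) : Prop where
  hom : ∀ j, (𝔞 j).IsHomogeneous 𝒜
  lp : ∀ j : Comp 𝒜 p, (Mp j.1).LP (𝔞 j)
  av : ∀ (j : Comp 𝒜 p) (T : Vp 𝒜 p) (σ : Set (Comp 𝒜 p)), MinOver T σ → cI j ≤ pr T.1 →
    ¬𝔞 j ≤ pr T.1
  ne : ∀ S j, φ S j ≠ 0
  cp : ∀ (S : Edge 𝒜 p) (j l : Comp 𝒜 p), cI j ≤ pr S.1.1 → cI l ≤ pr S.1.1 →
    ∀ᶠ n in atTop, ∀ a ∈ 𝔞 j, a ∈ 𝒜 n → ∃ a' ∈ 𝔞 l, a' ∈ 𝒜 n ∧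
      φ S j * th S.1.1 a = φ S l * th S.1.1 a'

theorem glue_fam_mul {k K : Type} [CommRing k] [Field K] [Algebra k K] [IsNoetherianRing k]
    {V : Submodule k K} (hV : Mdl V) {C C' : Car V} {N N' : ℕ → Submodule k K} (h : IsCl C N)
    (h' : IsCl C' N') {f : Kˣ} (e : C' = C * prin V f) :
    ∀ᶠ n in atTop, N' n = span k {(f : K)} * N n := by
  have h1 : IsCl C' (fun n => span k {(f : K)} • N n) := by
    refine isCl_of_rep hV ((h.fg hV).smul (fg_span_singleton _)) (Eventually.frequently ?_)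
    filter_upwards [h.rep hV] with n hn
    rw [e, smul_eq_mul, mul_comm (span k _)]
    simpa using hn.mul (rep_prin f)
  filter_upwards [h', h1] with n h2 h3
  rw [← h2, h3, smul_eq_mul]

variable {m : Comp 𝒜 p → ℕ} {I : Comp 𝒜 p → Car (MX 𝒜).V}

theorem glue_dat (h : Fib m I) (D : ∀ j : Comp 𝒜 p, Pic (Mp j.1).V)
    (hD : ∀ S : Edge 𝒜 p, (Mp (ea S).1).rho S.1 (D (ea S)) = (Mp (eb S).1).rho S.1 (D (eb S))) :
    ∃ (c : ℕ) (𝔞 : Comp 𝒜 p → Ideal A) (φ : ∀ S : Edge 𝒜 p, Comp 𝒜 p → kap S.1.1)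
      (C : ∀ j : Comp 𝒜 p, Car (Mp j.1).V), glue_Dat 𝔞 φ ∧
      ∀ j, IsCl (C j) ((Mp j.1).fam (𝔞 j)) ∧ cl (C j) * Lp (Mp j.1).V ^ c = D j := by
  classical
  have hfin : {T : Vp 𝒜 p | ∃ σ, MinOver T σ}.Finite := by
    have : {T : Vp 𝒜 p | ∃ σ, MinOver T σ} = ⋃ σ : Set (Comp 𝒜 p), {T | MinOver T σ} := by
      ext T; simp
    rw [this]
    exact Set.finite_iUnion finite_minOver
  have h1 : ∀ᶠ c in atTop, ∀ j : Comp 𝒜 p, ∃ (𝔞 : Ideal A) (C : Car (Mp j.1).V),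
      𝔞.IsHomogeneous 𝒜 ∧ IsCl C ((Mp j.1).fam 𝔞) ∧ cl C * Lp (Mp j.1).V ^ c = D j ∧
        (Mp j.1).LP 𝔞 ∧ ∀ (T : Vp 𝒜 p) (σ : Set (Comp 𝒜 p)), MinOver T σ → cI j ≤ pr T.1 →
          ¬𝔞 ≤ pr T.1 := by
    rw [eventually_all]
    intro j
    have := (Mp j.1).exists_ideal (pr_hom j.1.1) (fun n a ha hm => (th_eq_zero j.1.1 ha).2 hm)
      (mdl_Mp j.1) (D j) ((hfin.toFinset.image Subtype.val).filter fun y => cI j ≤ pr y)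
      (fun y hy => on_Mp.2 (Finset.mem_filter.1 hy).2)
    filter_upwards [this] with c ⟨𝔞, C, h1, _, h3, h4, h5, h6⟩
    refine ⟨𝔞, C, h1, h3, h4, h5, fun T σ hT hj => h6 T.1 (Finset.mem_filter.2 ⟨?_, hj⟩)⟩
    exact Finset.mem_image_of_mem _ (hfin.mem_toFinset.2 ⟨σ, hT⟩)
  obtain ⟨c, hc⟩ := h1.exists
  choose 𝔞 C hhom hcl hC hlp hav using hc
  have h2 : ∀ S : Edge 𝒜 p, ∃ f : (kap S.1.1)ˣ, ∀ᶠ n in atTop,
      (Mp S.1).fam (𝔞 (eb S)) n = span (ZMod p) {(f : kap S.1.1)} * (Mp S.1).fam (𝔞 (ea S)) n := by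
    intro S
    have ha : cI (ea S) ≤ pr S.1.1 := (h.inc S _).2 (Or.inl rfl)
    have hb : cI (eb S) ≤ pr S.1.1 := (h.inc S _).2 (Or.inr rfl)
    obtain ⟨Ca, ha1, ha2⟩ := (Mp (ea S).1).rho_isCl (on_Mp.2 ha) (hhom _) (hcl _)
      (hav _ S.1 _ (ea_eb S).2 ha)
    obtain ⟨Cb, hb1, hb2⟩ := (Mp (eb S).1).rho_isCl (on_Mp.2 hb) (hhom _) (hcl _)
      (hav _ S.1 _ (ea_eb S).2 hb)
    have e := hD S
    rw [← hC, ← hC, map_mul, map_mul, map_pow, map_pow, (Mp _).rho_L (on_Mp.2 ha),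
      (Mp _).rho_L (on_Mp.2 hb), ha2, hb2] at e
    obtain ⟨f, hf⟩ := cl_eq_iff.1 (mul_right_cancel e)
    exact ⟨f, glue_fam_mul (mdl_Mp S.1) ha1 hb1 hf⟩
  choose f hf using h2
  refine ⟨c, 𝔞, fun S j => if j = ea S then (f S : kap S.1.1) else 1, C,
    ⟨hhom, hlp, hav, fun S j => ?_, fun S j l hj hl => ?_⟩, fun j => ⟨hcl j, hC j⟩⟩
  · split_ifs
    · exact (f S).ne_zero
    · exact one_ne_zero
  · have hne := (ea_eb S).1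
    filter_upwards [hf S] with n hn a ha ha'
    rcases (h.inc S j).1 hj with rfl | rfl <;> rcases (h.inc S l).1 hl with rfl | rfl
    · exact ⟨a, ha, ha', rfl⟩
    · have : (f S : kap S.1.1) * th S.1.1 a ∈ (Mp S.1).fam (𝔞 (eb S)) n := by
        rw [hn]
        exact Submodule.mul_mem_mul (Submodule.mem_span_singleton_self _)
          ((Mp S.1).mem_fam.2 ⟨a, ha, ha', rfl⟩)
      obtain ⟨a', h1, h2, h3⟩ := (Mp S.1).mem_fam.1 this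
      refine ⟨a', h1, h2, ?_⟩
      rw [if_pos rfl, if_neg hne.symm, one_mul]
      exact h3.symm
    · have : th S.1.1 a ∈ (Mp S.1).fam (𝔞 (eb S)) n := (Mp S.1).mem_fam.2 ⟨a, ha, ha', rfl⟩
      rw [hn, Submodule.mem_span_singleton_mul] at this
      obtain ⟨z, hz, e⟩ := this
      obtain ⟨a', h1, h2, h3⟩ := (Mp S.1).mem_fam.1 hz
      refine ⟨a', h1, h2, ?_⟩
      rw [if_pos rfl, if_neg hne.symm, one_mul, ← e, ← h3]
      rfl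
    · exact ⟨a, ha, ha', rfl⟩

variable {𝔞 : Comp 𝒜 p → Ideal A} {φ : ∀ S : Edge 𝒜 p, Comp 𝒜 p → kap S.1.1}

/-- local generators at `y` -/
def glue_Gen (𝔞 : Comp 𝒜 p → Ideal A) (y : Pt 𝒜) (e : ℕ) (g : Comp 𝒜 p → A) : Prop :=
  ∀ j, g j ∈ 𝔞 j ∧ g j ∈ 𝒜 e ∧ (cI j ≤ pr y → (Mp j.1).GenI (𝔞 j) y e (g j))

theorem glue_Dat.gen (d : glue_Dat 𝔞 φ) (y : Pt 𝒜) : ∀ᶠ e in atTop, ∃ g, glue_Gen 𝔞 y e g := by
  have : ∀ᶠ e in atTop, ∀ j : Comp 𝒜 p, ∃ g : A, g ∈ 𝔞 j ∧ g ∈ 𝒜 e ∧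
      (cI j ≤ pr y → (Mp j.1).GenI (𝔞 j) y e g) := by
    rw [eventually_all]
    intro j
    by_cases hj : cI j ≤ pr y
    · filter_upwards [(Mp j.1).exists_genI (d.lp j) {y} (by simpa using on_Mp.2 hj)] with e ⟨g, hg⟩
      have := hg y (Finset.mem_singleton_self y)
      exact ⟨g, this.1, this.2.1, fun _ => this⟩
    · exact Eventually.of_forall fun e => ⟨0, zero_mem _, zero_mem _, fun h => absurd h hj⟩
  filter_upwards [this] with e he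
  choose g hg using he
  exact ⟨g, hg⟩

theorem glue_Dat.gen_ne (d : glue_Dat 𝔞 φ) {y : Pt 𝒜} {e : ℕ} {g : Comp 𝒜 p → A}
    (hg : glue_Gen 𝔞 y e g) {T : Vp 𝒜 p} {σ : Set (Comp 𝒜 p)} (hT : MinOver T σ)
    (hy : pr T.1 ≤ pr y) {j : Comp 𝒜 p} (hj : cI j ≤ pr T.1) : th T.1 (g j) ≠ 0 :=
  glue_th_ne (hg j).2.1 (AM.GenI.not_mem _ (d.hom j) (on_Mp.2 hj)
    (((hg j).2.2 (hj.trans hy)).mono _ hy) (d.av j T σ hT hj))

/-- the transition unit `c / b` between the generators on two components -/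
structure glue_Tr (φ : ∀ S : Edge 𝒜 p, Comp 𝒜 p → kap S.1.1) (y : Pt 𝒜) (g : Comp 𝒜 p → A)
    (j l : Comp 𝒜 p) (n : ℕ) (b c : A) : Prop where
  hb : b ∈ 𝒜 n
  hc : c ∈ 𝒜 n
  nb : b ∉ pr y
  nc : c ∉ pr y
  eq : j = l → b = c
  rel : ∀ S : Edge 𝒜 p, cI j ≤ pr S.1.1 → cI l ≤ pr S.1.1 → pr S.1.1 ≤ pr y →
    φ S j * th S.1.1 (g j) * th S.1.1 c = φ S l * th S.1.1 (g l) * th S.1.1 b

theorem glue_Dat.half (d : glue_Dat 𝔞 φ) {y : Pt 𝒜} {e : ℕ} {g : Comp 𝒜 p → A}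
    (hg : glue_Gen 𝔞 y e g) (S : Edge 𝒜 p) (hy : pr S.1.1 ≤ pr y) {j l : Comp 𝒜 p}
    (hj : cI j ≤ pr S.1.1) (hl : cI l ≤ pr S.1.1) : ∃ n b c, b ∈ 𝒜 n ∧ c ∈ 𝒜 n ∧ b ∉ pr y ∧
      φ S j * th S.1.1 (g j) * th S.1.1 c = φ S l * th S.1.1 (g l) * th S.1.1 b := by
  obtain ⟨k, hk⟩ := eventually_atTop.1 (d.cp S l j hl hj)
  have h1 : ell y ^ k * g l ∈ 𝒜 (k + e) := by
    simpa using glue_mul (glue_pow (ell_spec y).1 k) (hg l).2.1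
  obtain ⟨a, ha, ha', e1⟩ := hk (k + e) (by omega) _ ((𝔞 l).mul_mem_left _ (hg l).1) h1
  obtain ⟨m', l', b, hb, c, hc, hby, hdeg, e2⟩ := ((hg j).2.2 (hj.trans hy)).2.2.2 _ a ha ha'
  have e3 := glue_th_congr hj (glue_mul hb ha') (glue_deg (glue_mul hc (hg j).2.1) hdeg.symm) e2
  refine ⟨l', b * ell y ^ k, c, ?_, hc, glue_mul_not hby (glue_pow_not (ell_spec y).2 k), ?_⟩
  · exact glue_deg (glue_mul hb (glue_pow (ell_spec y).1 k)) (by omega)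
  · simp only [map_mul] at e1 e3 ⊢
    linear_combination (-φ S j) * e3 - th S.1.1 b * e1

theorem glue_edge (h : Fib m I) {y : Vp 𝒜 p} {j l : Comp 𝒜 p} (hne : j ≠ l) (hj : cI j ≤ pr y.1)
    (hl : cI l ≤ pr y.1) : ∃ S : Edge 𝒜 p, cI j ≤ pr S.1.1 ∧ cI l ≤ pr S.1.1 ∧ pr S.1.1 ≤ pr y.1 ∧
      ∀ S' : Edge 𝒜 p, cI j ≤ pr S'.1.1 → cI l ≤ pr S'.1.1 → pr S'.1.1 ≤ pr y.1 → S' = S := by
  obtain ⟨T, h1, h2, -⟩ := h.strat {j, l} y (Set.insert_nonempty _ _) (by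
    rintro i (rfl | rfl)
    · exact hj
    · exact hl)
  refine ⟨⟨T, j, l, hne, h2⟩, h2.1 j (by simp), h2.1 l (by simp), h1, fun S' h3 h4 h5 => ?_⟩
  exact Subtype.ext (h.minOver_unique (Set.insert_nonempty _ _)
    ((h.minOver_iff hne S').2 ⟨(h.inc S' j).1 h3, (h.inc S' l).1 h4⟩) h2 h5 h1)

theorem glue_Dat.exists_tr (d : glue_Dat 𝔞 φ) (h : Fib m I) {y : Vp 𝒜 p} {e : ℕ}
    {g : Comp 𝒜 p → A} (hg : glue_Gen 𝔞 y.1 e g) {j l : Comp 𝒜 p} (hj : cI j ≤ pr y.1)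
    (hl : cI l ≤ pr y.1) : ∃ n b c, glue_Tr φ y.1 g j l n b c := by
  by_cases hne : j = l
  · subst hne
    have h1 : (1 : A) ∉ pr y.1 := (Ideal.ne_top_iff_one _).1 (glue_prime y.1).ne_top
    exact ⟨0, 1, 1, SetLike.one_mem_graded 𝒜, SetLike.one_mem_graded 𝒜, h1, h1, fun _ => rfl,
      fun S _ _ _ => rfl⟩
  obtain ⟨S, h1, h2, h3, h4⟩ := glue_edge h hne hj hl
  obtain ⟨n, b, c, hb, hc, hby, e1⟩ := d.half hg S h3 h1 h2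
  obtain ⟨n', b', c', hb', hc', hby', e2⟩ := d.half hg S h3 h2 h1
  refine ⟨n, b, c, hb, hc, hby, fun hcy => ?_, fun h => absurd h hne, fun S' h5 h6 h7 => ?_⟩
  · have hj0 := d.gen_ne hg (ea_eb S).2 h3 h1
    have hl0 := d.gen_ne hg (ea_eb S).2 h3 h2
    have e3 : th S.1.1 (c * c') = th S.1.1 (b * b') := by
      have h0 : φ S j * th S.1.1 (g j) * (φ S l * th S.1.1 (g l)) ≠ 0 :=
        mul_ne_zero (mul_ne_zero (d.ne S j) hj0) (mul_ne_zero (d.ne S l) hl0)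
      apply mul_left_cancel₀ h0
      simp only [map_mul]
      linear_combination (φ S l * th S.1.1 (g l) * th S.1.1 c') * e1 +
        (φ S l * th S.1.1 (g l) * th S.1.1 b) * e2
    have e4 := glue_th_congr h3 (glue_mul hc hc') (glue_mul hb hb') e3
    rw [(th_eq_zero y.1 (glue_mul hc hc')).2 ((pr y.1).mul_mem_right _ hcy)] at e4
    exact glue_th_ne (glue_mul hb hb') (glue_mul_not hby hby') e4.symm
  · rw [h4 S' h5 h6 h7]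
    exact e1

theorem glue_Dat.cross (d : glue_Dat 𝔞 φ) (h : Fib m I) {T : Vp 𝒜 p} {y : Pt 𝒜}
    (hy : pr T.1 ≤ pr y) {e e' : ℕ} {g g' : Comp 𝒜 p → A} (hg : ∀ j, g j ∈ 𝒜 e)
    (hg' : ∀ j, g' j ∈ 𝒜 e') {j l : Comp 𝒜 p} (hj : cI j ≤ pr T.1) (hl : cI l ≤ pr T.1)
    {n n' : ℕ} {b c b' c' : A} (t : glue_Tr φ T.1 g j l n b c) (t' : glue_Tr φ y g' j l n' b' c') :
    th T.1 (g j) * th T.1 c * th T.1 (g' l) * th T.1 b' =
      th T.1 (g l) * th T.1 b * th T.1 (g' j) * th T.1 c' := by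
  by_cases hne : j = l
  · rw [t.eq hne, t'.eq hne, hne]
  obtain ⟨S, h1, h2, h3, -⟩ := glue_edge h hne hj hl
  have e1 := t.rel S h1 h2 h3
  have e2 := t'.rel S h1 h2 (h3.trans hy)
  have e3 : th S.1.1 (g j * c * g' l * b') = th S.1.1 (g l * b * g' j * c') := by
    apply mul_left_cancel₀ (mul_ne_zero (d.ne S j) (d.ne S l))
    simp only [map_mul]
    linear_combination (φ S l * th S.1.1 (g' l) * th S.1.1 b') * e1 -
      (φ S l * th S.1.1 (g l) * th S.1.1 b) * e2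
  simpa only [map_mul] using glue_th_congr h3
    (glue_mul (glue_mul (glue_mul (hg j) t.hc) (hg' l)) t'.hb)
    (glue_mul (glue_mul (glue_mul (hg l) t.hb) (hg' j)) t'.hc) e3

/-- the cocycle condition holds after raising to a power -/
theorem glue_Dat.cocycle (d : glue_Dat 𝔞 φ) (h : Fib m I) : ∃ N, 0 < N ∧
    ∀ (j l i : Comp 𝒜 p) (T : Vp 𝒜 p), MinOver T {j, l, i} → ∀ (y : Pt 𝒜), pr T.1 ≤ pr y →
      ∀ (e : ℕ) (g : Comp 𝒜 p → A), glue_Gen 𝔞 y e g → ∀ n₁ b₁ c₁ n₂ b₂ c₂ n₃ b₃ c₃,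
        glue_Tr φ y g j l n₁ b₁ c₁ → glue_Tr φ y g l i n₂ b₂ c₂ → glue_Tr φ y g j i n₃ b₃ c₃ →
          (c₁ * c₂ * b₃) ^ N - (b₁ * b₂ * c₃) ^ N ∈ pr T.1 := by
  have key : ∀ (j l i : Comp 𝒜 p) (T : Vp 𝒜 p), MinOver T {j, l, i} → ∀ᶠ M in atTop,
      ∀ (y : Pt 𝒜), pr T.1 ≤ pr y →
      ∀ (e : ℕ) (g : Comp 𝒜 p → A), glue_Gen 𝔞 y e g → ∀ n₁ b₁ c₁ n₂ b₂ c₂ n₃ b₃ c₃,
        glue_Tr φ y g j l n₁ b₁ c₁ → glue_Tr φ y g l i n₂ b₂ c₂ → glue_Tr φ y g j i n₃ b₃ c₃ →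
          (c₁ * c₂ * b₃) ^ (Nat.factorial M) - (b₁ * b₂ * c₃) ^ (Nat.factorial M) ∈ pr T.1 := by
    intro j l i T hT
    have hj : cI j ≤ pr T.1 := hT.1 j (by simp)
    have hl : cI l ≤ pr T.1 := hT.1 l (by simp)
    have hi : cI i ≤ pr T.1 := hT.1 i (by simp)
    obtain ⟨e₀, g₀, hg₀⟩ := (d.gen T.1).exists
    obtain ⟨k₁, β₁, γ₁, t₁⟩ := d.exists_tr h hg₀ hj hl
    obtain ⟨k₂, β₂, γ₂, t₂⟩ := d.exists_tr h hg₀ hl hi
    obtain ⟨k₃, β₃, γ₃, t₃⟩ := d.exists_tr h hg₀ hj hi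
    have hz : ∀ (y : Pt 𝒜), pr T.1 ≤ pr y →
        ∀ (e : ℕ) (g : Comp 𝒜 p → A), glue_Gen 𝔞 y e g → ∀ n₁ b₁ c₁ n₂ b₂ c₂ n₃ b₃ c₃,
        glue_Tr φ y g j l n₁ b₁ c₁ → glue_Tr φ y g l i n₂ b₂ c₂ → glue_Tr φ y g j i n₃ b₃ c₃ →
          th T.1 (γ₁ * γ₂ * β₃) / th T.1 (β₁ * β₂ * γ₃) =
            th T.1 (c₁ * c₂ * b₃) / th T.1 (b₁ * b₂ * c₃) := by
      intro y hy e g hg n₁ b₁ c₁ n₂ b₂ c₂ n₃ b₃ c₃ s₁ s₂ s₃
      have e1 := d.cross h hy (fun j => (hg₀ j).2.1) (fun j => (hg j).2.1) hj hl t₁ s₁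
      have e2 := d.cross h hy (fun j => (hg₀ j).2.1) (fun j => (hg j).2.1) hl hi t₂ s₂
      have e3 := d.cross h hy (fun j => (hg₀ j).2.1) (fun j => (hg j).2.1) hj hi t₃ s₃
      have a1 := d.gen_ne hg₀ hT le_rfl hj
      have a2 := d.gen_ne hg₀ hT le_rfl hl
      have a3 := d.gen_ne hg₀ hT le_rfl hi
      have a4 := d.gen_ne hg hT hy hj
      have a5 := d.gen_ne hg hT hy hl
      have a6 := d.gen_ne hg hT hy hi
      have b1 := glue_th_ne t₁.hb t₁.nb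
      have b2 := glue_th_ne t₂.hb t₂.nb
      have b3 := glue_th_ne t₃.hb t₃.nb
      have b4 := glue_th_ne t₃.hc t₃.nc
      have b5 := glue_th_ne s₁.hb fun h => s₁.nb (hy h)
      have b6 := glue_th_ne s₂.hb fun h => s₂.nb (hy h)
      have b7 := glue_th_ne s₃.hb fun h => s₃.nb (hy h)
      have f1 : th T.1 c₁ = th T.1 (g₀ j) * th T.1 γ₁ * th T.1 (g l) * th T.1 b₁ /
          (th T.1 (g₀ l) * th T.1 β₁ * th T.1 (g j)) := by rw [e1]; field_simp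
      have f2 : th T.1 c₂ = th T.1 (g₀ l) * th T.1 γ₂ * th T.1 (g i) * th T.1 b₂ /
          (th T.1 (g₀ i) * th T.1 β₂ * th T.1 (g l)) := by rw [e2]; field_simp
      have f3 : th T.1 c₃ = th T.1 (g₀ j) * th T.1 γ₃ * th T.1 (g i) * th T.1 b₃ /
          (th T.1 (g₀ i) * th T.1 β₃ * th T.1 (g j)) := by rw [e3]; field_simp
      simp only [map_mul]
      rw [f1, f2, f3]
      field_simp
    have hz0 : th T.1 (γ₁ * γ₂ * β₃) / th T.1 (β₁ * β₂ * γ₃) ≠ 0 :=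
      div_ne_zero (glue_th_ne (glue_mul (glue_mul t₁.hc t₂.hc) t₃.hb)
        (glue_mul_not (glue_mul_not t₁.nc t₂.nc) t₃.nb))
        (glue_th_ne (glue_mul (glue_mul t₁.hb t₂.hb) t₃.hc)
          (glue_mul_not (glue_mul_not t₁.nb t₂.nb) t₃.nc))
    have hroot := glue_root T hz0 fun y hy => by
      obtain ⟨e, g, hg⟩ := (d.gen y).exists
      obtain ⟨n₁, b₁, c₁, s₁⟩ := d.exists_tr h (y := ⟨y, hy T.2⟩) hg (hj.trans hy) (hl.trans hy)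
      obtain ⟨n₂, b₂, c₂, s₂⟩ := d.exists_tr h (y := ⟨y, hy T.2⟩) hg (hl.trans hy) (hi.trans hy)
      obtain ⟨n₃, b₃, c₃, s₃⟩ := d.exists_tr h (y := ⟨y, hy T.2⟩) hg (hj.trans hy) (hi.trans hy)
      rw [hz y hy e g hg _ _ _ _ _ _ _ _ _ s₁ s₂ s₃]
      exact (Mp T).div_mem_fr (glue_mul (glue_mul s₁.hc s₂.hc) s₃.hb)
        (glue_mul (glue_mul s₁.hb s₂.hb) s₃.hc) (glue_mul_not (glue_mul_not s₁.nb s₂.nb) s₃.nc)
    filter_upwards [hroot] with M hM y hy e g hg n₁ b₁ c₁ n₂ b₂ c₂ n₃ b₃ c₃ s₁ s₂ s₃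
    have m1 := glue_mul (glue_mul s₁.hc s₂.hc) s₃.hb
    have m2 := glue_mul (glue_mul s₁.hb s₂.hb) s₃.hc
    rw [hz y hy e g hg _ _ _ _ _ _ _ _ _ s₁ s₂ s₃, div_pow, div_eq_one_iff_eq (pow_ne_zero _
      (glue_th_ne m2 fun h => glue_mul_not (glue_mul_not s₁.nb s₂.nb) s₃.nc (hy h)))] at hM
    rw [← th_eq_zero T.1 (sub_mem (glue_pow m1 _) (glue_pow m2 _)), map_sub, map_pow, map_pow, hM,
      sub_self]
  have h1 := eventually_all.2 fun j : Comp 𝒜 p => eventually_all.2 fun l : Comp 𝒜 p =>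
    eventually_all.2 fun i : Comp 𝒜 p =>
      (eventually_all_finite (finite_minOver {j, l, i})).2 fun T hT => key j l i T hT
  obtain ⟨M, hM⟩ := h1.exists
  exact ⟨_, Nat.factorial_pos M, fun j l i T hT => hM j l i T hT⟩

end

end Pool.Agent.Lib.MP_62d77c_ag
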