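import Pool.Agent.Lib.MP_62d77c_ag.Car
import Pool.Agent.Lib.MP_62d77c_ag.LevL

/-! Hilbert polynomials of families. -/

set_option autoImplicit false

namespace Pool.Agent.Lib.MP_62d77c_ag

open Filter Polynomial Submodule

noncomputable section

variable {k K E E' : Type} [Field k] [Field K] [Algebra k K] [AddCommGroup E] [Module K E]
  [Module k E] [IsScalarTower k K E] [AddCommGroup E'] [Module K E'] [Module k E']
  [IsScalarTower k K E'] {V : Submodule k K} {N N' : ℕ → Submodule k E}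

theorem hilb_mem {P : ℚ[X]} {s : ℕ} : P ∈ degreeLT ℚ s ↔ ∀ m, s ≤ m → P.coeff m = 0 := by
  rw [mem_degreeLT, degree_lt_iff_coeff_zero]

theorem hilb_mem_nat (P : ℚ[X]) : P ∈ degreeLT ℚ (P.natDegree + 1) :=
  hilb_mem.2 fun _ l => coeff_eq_zero_of_natDegree_lt l

theorem hilb_ext {P Q : ℚ[X]} (h : ∀ᶠ n : ℕ in atTop, P.eval (n : ℚ) = Q.eval (n : ℚ)) :
    P = Q := by
  obtain ⟨a, ha⟩ := eventually_atTop.1 h
  refine eq_of_infinite_eval_eq P Q (Set.infinite_of_injective_forall_mem
    (f := fun n : ℕ => ((n + a : ℕ) : ℚ)) (fun x y e => ?_) fun n => ha _ (Nat.le_add_left _ _))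
  have : x + a = y + a := Nat.cast_injective e
  omega

theorem hilb_anti (s : ℕ) : ∀ Q ∈ degreeLT ℚ s, ∃ P : ℚ[X], P.comp (X + C 1) - P = Q := by
  induction s with
  | zero => exact fun Q h => ⟨0, by rw [eq_zero_of_mem_degreeLT_zero h]; simp⟩
  | succ s ih =>
    intro Q h
    have m : monomial (s + 1) (Q.coeff s / (s + 1)) ∈ degreeLT ℚ (s + 2) :=
      hilb_mem.2 fun m l => coeff_monomial_of_ne _ (by omega)
    have a := comp_sub_mem_degreeLT m 1
    have b := coeff_comp_sub m 1
    rw [coeff_monomial_same, mul_one, mul_div_cancel₀ _ (by positivity)] at b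
    generalize monomial (s + 1) (Q.coeff s / (s + 1)) = M at a b
    obtain ⟨P, hP⟩ := ih (Q - (M.comp (X + C 1) - M)) (hilb_mem.2 fun m l => by
      rcases l.eq_or_lt with rfl | l
      · rw [coeff_sub, b, sub_self]
      · exact hilb_mem.1 (sub_mem h a) m l)
    refine ⟨P + M, ?_⟩
    rw [add_comp]
    linear_combination hP

theorem hilb_sum {f : ℕ → ℚ} {Q : ℚ[X]} (h : ∀ᶠ n : ℕ in atTop, f (n + 1) - f n = Q.eval (n : ℚ)) :
    ∃ P : ℚ[X], ∀ᶠ n : ℕ in atTop, P.eval (n : ℚ) = f n := by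
  obtain ⟨P, hP⟩ := hilb_anti _ Q (hilb_mem_nat Q)
  obtain ⟨a, ha⟩ := eventually_atTop.1 h
  refine ⟨P + C (f a - P.eval (a : ℚ)), eventually_atTop.2 ⟨a, fun n l => ?_⟩⟩
  induction n, l using Nat.le_induction with
  | base => simp
  | succ n l ih =>
    have := ha n l
    rw [← hP, eval_sub, eval_comp, eval_add, eval_X, eval_C] at this
    rw [eval_add, eval_C] at ih ⊢
    push_cast
    linarith

theorem hilb_map_ker {Y Z : Type} [AddCommGroup Y] [Module k Y] [AddCommGroup Z] [Module k Z]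
    (f : Y →ₗ[k] Z) {S : Submodule k Y} (hS : S.FG) :
    Module.finrank k (S.map f) + Module.finrank k ↥(S ⊓ LinearMap.ker f) = Module.finrank k S := by
  have := Module.Finite.iff_fg.2 hS
  rw [← (f.domRestrict S).finrank_range_add_finrank_ker, LinearMap.range_domRestrict,
    LinearMap.ker_domRestrict, ← Submodule.map_comap_subtype, Submodule.finrank_map_subtype_eq]

theorem hilb_rank {Y Z : Type} [AddCommGroup Y] [Module k Y] [AddCommGroup Z] [Module k Z]
    (f : Y →ₗ[k] Z) {S : Submodule k Y} {M : Submodule k Z} (hS : S.FG) (hM : M.FG) :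
    (Module.finrank k S : ℚ) - Module.finrank k ↥(S ⊓ M.comap f) =
      Module.finrank k ↥(S.map f ⊔ M) - Module.finrank k M := by
  have a := hilb_map_ker (M.mkQ.comp f) hS
  have b := hilb_map_ker M.mkQ ((hS.map f).sup hM)
  rw [LinearMap.ker_comp, Submodule.ker_mkQ, Submodule.map_comp] at a
  rw [Submodule.ker_mkQ, Submodule.map_sup, Submodule.mkQ_map_self, sup_bot_eq,
    inf_eq_right.2 le_sup_right] at b
  rw [← a, ← b]
  push_cast
  ring

theorem hilb_pair (hV : V.FG) (t : List K) : ∀ (W : Submodule k K) (N N' : ℕ → Submodule k E),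
    (∀ ξ ∈ t, ξ ∈ V) → V ≤ span k {x | x ∈ t} ⊔ W → Fg V N → Fg V N' → N' ≤ᶠ[atTop] N →
    (∀ᶠ n in atTop, W • N n ≤ N' (n + 1)) →
    ∃ P : ℚ[X], ∀ᶠ n : ℕ in atTop,
      P.eval (n : ℚ) = (Module.finrank k (N n) : ℚ) - Module.finrank k (N' n) := by
  induction t with
  | nil =>
    intro W N N' _ hW hN _ le kill
    have hW : V ≤ W := by simpa using hW
    refine hilb_sum (Q := 0) ?_
    have e : ∀ᶠ n in atTop, N (n + 1) = N' (n + 1) := by
      filter_upwards [hN, kill, (tendsto_add_atTop_nat 1).eventually le] with n a b c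
      exact le_antisymm (a.2.le.trans ((Submodule.smul_mono_left hW).trans b)) c
    obtain ⟨a, ha⟩ := eventually_atTop.1 e
    filter_upwards [e, eventually_ge_atTop (a + 1)] with n p q
    have := ha (n - 1) (by omega)
    rw [Nat.sub_add_cancel (by omega)] at this
    rw [p, this]
    simp
  | cons ξ t ih =>
    intro W N N' ht hW hN hN' le kill
    have hξ : ξ ∈ V := ht ξ List.mem_cons_self
    have ht' : ∀ x ∈ t, x ∈ V := fun x m => ht x (List.mem_cons_of_mem _ m)
    have hW' : V ≤ span k {x | x ∈ t} ⊔ (W ⊔ span k {ξ}) := by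
      refine hW.trans (sup_le (span_le.2 fun x m => ?_) (le_sup_left.trans le_sup_right))
      rcases List.mem_cons.1 m with rfl | m
      · exact mem_sup_right (mem_sup_right (mem_span_singleton_self _))
      · exact mem_sup_left (subset_span m)
    let φ : E →ₗ[K] E := LinearMap.lsmul K E ξ
    have sm : ∀ (S T : Submodule k E), (∀ x ∈ S, ξ • x ∈ T) → span k {ξ} • S ≤ T := by
      intro S T h
      refine Submodule.smul_le.2 fun r hr x hx => ?_
      obtain ⟨c, rfl⟩ := mem_span_singleton.1 hr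
      rw [smul_assoc]
      exact T.smul_mem c (h x hx)
    obtain ⟨P₁, h1⟩ := ih (W ⊔ span k {ξ}) N
      (fun n => (N (n - 1)).map (φ.restrictScalars k) ⊔ N' n) ht' hW' hN
      (((hN.sub 1).map φ).sup hN') (by
        filter_upwards [le, (tendsto_sub_atTop_nat 1).eventually hN.fam, eventually_ge_atTop 1]
          with n a b c
        refine sup_le ?_ a
        rintro _ ⟨x, hx, rfl⟩
        rw [Nat.sub_add_cancel c] at b
        exact b (smul_mem_smul hξ hx)) (by
        filter_upwards [kill] with n a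
        rw [Submodule.sup_smul]
        exact sup_le (a.trans le_sup_right)
          (sm _ _ fun x hx => mem_sup_left ⟨x, hx, rfl⟩))
    obtain ⟨P₂, h2⟩ := ih (W ⊔ span k {ξ})
      (fun n => N n ⊓ (N' (n + 1)).comap (φ.restrictScalars k)) N' ht' hW'
      (hN.inf hV ((hN'.add 1).fam.comap φ)) hN' (by
        filter_upwards [le, hN'.fam] with n a b
        exact le_inf a fun x hx => b (smul_mem_smul hξ hx)) (by
        filter_upwards [kill] with n a
        rw [Submodule.sup_smul]
        exact sup_le ((smul_mono_right W inf_le_left).trans a) (sm _ _ fun x hx => hx.2))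
    refine hilb_sum (Q := P₁.comp (X + C 1) - P₂) ?_
    filter_upwards [(tendsto_add_atTop_nat 1).eventually h1, h2, hN,
      (tendsto_add_atTop_nat 1).eventually hN'] with n a b c d
    have r := hilb_rank (φ.restrictScalars k) c.1 d.1
    rw [Nat.add_sub_cancel, Nat.cast_add, Nat.cast_one] at a
    rw [eval_sub, eval_comp, eval_add, eval_X, eval_C, a, b]
    linarith

theorem hilb_congr {M : ℕ → Submodule k E'}
    (h : ∀ᶠ n in atTop, Module.finrank k (N n) = Module.finrank k (M n)) : hp N = hp M := by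
  unfold hp
  congr 1
  funext P
  refine propext (eventually_congr ?_)
  filter_upwards [h] with n e
  rw [e]

/-- Hilbert-Serre -/
theorem hp_spec (hV : V.FG) (hN : Fg V N) :
    ∀ᶠ n : ℕ in atTop, (hp N).eval (n : ℚ) = (Module.finrank k (N n) : ℚ) := by
  obtain ⟨t, ht⟩ := id hV
  obtain ⟨P, hP⟩ := hilb_pair hV t.toList ⊥ N (fun _ => ⊥)
    (fun ξ m => ht ▸ subset_span (Finset.mem_toList.1 m)) (by simp [← ht]) hN fg_const_bot
    (Eventually.of_forall fun _ => bot_le) (Eventually.of_forall fun _ => by simp)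
  exact Classical.epsilon_spec (p := fun P : ℚ[X] => ∀ᶠ n : ℕ in atTop,
    P.eval (n : ℚ) = (Module.finrank k (N n) : ℚ)) ⟨P, by simpa using hP⟩

theorem hp_unique {P : ℚ[X]}
    (h : ∀ᶠ n : ℕ in atTop, P.eval (n : ℚ) = (Module.finrank k (N n) : ℚ)) : hp N = P := by
  have := Classical.epsilon_spec (p := fun P : ℚ[X] => ∀ᶠ n : ℕ in atTop,
    P.eval (n : ℚ) = (Module.finrank k (N n) : ℚ)) ⟨P, h⟩
  refine hilb_ext ?_
  filter_upwards [h, this] with n a b
  exact b.trans a.symm

theorem hp_congr (h : N =ᶠ[atTop] N') : hp N = hp N' := hilb_congr (by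
  filter_upwards [h] with n e
  rw [e])

theorem hq_congr (h : N =ᶠ[atTop] N') : hq V N = hq V N' := funext fun _ => hp_congr (tw_congr _ h)

theorem hq_cl (hV : Mdl V) (hN : Fg V N) (D : Car V) : hq V N (cl D) = hp (tw D N) := by
  obtain ⟨f, hf⟩ := exists_out D
  unfold hq
  rw [hf, mul_comm, hp_congr ((tw_mul hV hN _ D).trans (tw_prin (hN.tw hV D) f))]
  refine hilb_congr (Eventually.of_forall fun n => ?_)
  refine (Submodule.equivMapOfInjective _ (fun x y e => ?_) _).finrank_eq.symm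
  exact smul_right_injective E f.ne_zero e

theorem hq_one (hV : Mdl V) (hN : Fg V N) : hq V N 1 = hp N := by
  rw [← map_one (cl (V := V)), hq_cl hV hN, hp_congr (tw_one hN)]

theorem hq_spec (hV : Mdl V) (hN : Fg V N) (D : Car V) : ∀ᶠ n : ℕ in atTop,
    (hq V N (cl D)).eval (n : ℚ) = (Module.finrank k (tw D N n) : ℚ) := by
  rw [hq_cl hV hN]
  exact hp_spec hV.1 (hN.tw hV D)

theorem hilb_ev (hV : Mdl V) (hN : Fg V N) (D : Pic V) : ∀ᶠ n : ℕ in atTop,
    (hq V N D).eval (n : ℚ) = (Module.finrank k (tw D.out N n) : ℚ) :=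
  hp_spec hV.1 (hN.tw hV _)

theorem hq_tw (hV : Mdl V) (hN : Fg V N) (D' : Car V) (D : Pic V) :
    hq V (tw D' N) D = hq V N (D * cl D') := by
  conv_rhs => rw [← cl_out D, ← map_mul, hq_cl hV hN, hp_congr (tw_mul hV hN _ _)]
  rfl

theorem hq_L (hV : Mdl V) (hN : Fg V N) (D : Pic V) :
    hq V N (D * Lp V) = (hq V N D).comp (X + 1) := by
  have e : D * Lp V = cl (Lc V ^ 1 * D.out) := by
    rw [map_mul, cl_out, pow_one, mul_comm]
    rfl
  rw [e, hq_cl hV hN, hp_congr ((tw_mul hV hN _ _).trans (tw_L (hN.tw hV _) 1))]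
  refine hp_unique ?_
  filter_upwards [(tendsto_add_atTop_nat 1).eventually (hilb_ev hV hN D)] with n a
  rw [eval_comp, ← a]
  simp

theorem hq_sub (hV : Mdl V) (hN : Fg V N) (a : ℕ) (D : Pic V) :
    hq V (fun n => N (n - a)) D = (hq V N D).comp (X - C (a : ℚ)) := by
  unfold hq
  rw [tw_sub]
  refine hp_unique ?_
  filter_upwards [(tendsto_sub_atTop_nat a).eventually (hilb_ev hV hN D), eventually_ge_atTop a]
    with n b c
  rw [eval_comp, ← b, Nat.cast_sub c]
  simp [hq]

theorem hq_bot (D : Pic V) : hq V (fun _ => (⊥ : Submodule k E)) D = 0 := hp_unique (Eventually.of_forall fun n => by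
  have : tw D.out (fun _ => (⊥ : Submodule k E)) n = ⊥ := Submodule.smul_bot _
  rw [this]
  simp)

theorem IsCl.hq_eq (hV : Mdl V) {D' : Car V} {M : ℕ → Submodule k K} (h : IsCl D' M) (D : Pic V) :
    hq V M D = PP V (D * cl D') := by
  rw [← hq_congr h, hq_tw hV (fg_pw' hV.1)]
  rfl

/-- the isomorphism theorem -/
theorem hq_iso (hV : Mdl V) (hN : Fg V N) {M : ℕ → Submodule k E'} (hM : Fg V M) (φ : E →ₗ[K] E')
    (D : Pic V) :
    hq V N D - hq V (fun n => N n ⊓ (M n).comap (φ.restrictScalars k)) D =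
      hq V (fun n => (N n).map (φ.restrictScalars k) ⊔ M n) D - hq V M D := by
  refine hilb_ext ?_
  filter_upwards [hilb_ev hV hN D, hilb_ev hV (hN.inf hV.1 (hM.fam.comap φ)) D,
    hilb_ev hV ((hN.map φ).sup hM) D, hilb_ev hV hM D, tw_inf_comap hV hN hM φ D.out,
    hN.tw hV D.out, hM.tw hV D.out] with n a b c d e f g
  rw [tw_sup, tw_map] at c
  rw [eval_sub, eval_sub, a, b, c, d, e]
  exact hilb_rank _ f.1 g.1

theorem hq_sup_inf (hV : Mdl V) (hN : Fg V N) (hN' : Fg V N') (D : Pic V) :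
    hq V (fun n => N n ⊔ N' n) D + hq V (fun n => N n ⊓ N' n) D = hq V N D + hq V N' D := by
  have := hq_iso hV hN hN' LinearMap.id D
  have e : (LinearMap.id : E →ₗ[K] E).restrictScalars k = LinearMap.id := rfl
  simp only [e, Submodule.comap_id, Submodule.map_id] at this
  linear_combination -this

theorem hq_pi {β : Type} [Fintype β] (hV : Mdl V) {M : β → ℕ → Submodule k E}
    (h : ∀ i, Fg V (M i)) (D : Pic V) :
    hq V (fun n => Submodule.pi Set.univ fun i => M i n) D = ∑ i, hq V (M i) D := by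
  unfold hq
  rw [tw_pi]
  refine hp_unique ?_
  filter_upwards [eventually_all.2 fun i => hilb_ev hV (h i) D,
    eventually_all.2 fun i => (h i).tw hV D.out] with n a b
  have := fun i => Module.Finite.iff_fg.2 (b i).1
  let e : (Submodule.pi Set.univ fun i => tw D.out (M i) n) ≃ₗ[k] ∀ i, tw D.out (M i) n :=
    { toFun := fun f i => ⟨f.1 i, f.2 i trivial⟩
      invFun := fun f => ⟨fun i => f i, fun i _ => (f i).2⟩
      map_add' := fun _ _ => rfl
      map_smul' := fun _ _ => rfl
      left_inv := fun _ => rfl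
      right_inv := fun _ => rfl }
  rw [e.finrank_eq, Module.finrank_pi_fintype, eval_finsetSum, Nat.cast_sum]
  exact Finset.sum_congr rfl fun i _ => a i

theorem eq_of_hq_eq (hV : Mdl V) (hN : Fg V N) (hN' : Fg V N') (h : N ≤ᶠ[atTop] N') {D : Pic V}
    (e : hq V N D = hq V N' D) : N =ᶠ[atTop] N' := by
  have : tw D.out N' ≤ᶠ[atTop] tw D.out N := by
    filter_upwards [hilb_ev hV hN D, hilb_ev hV hN' D, tw_mono D.out h, hN'.tw hV D.out]
      with n a b c d
    have := Module.Finite.iff_fg.2 d.1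
    rw [e, b] at a
    exact (Submodule.eq_of_le_of_finrank_eq c (Nat.cast_injective a).symm).ge
  exact h.antisymm (le_of_tw_le hV hN' hN _ this)

theorem hilb_le {S T : Submodule k K} (hT : T.FG) {u : K} (u0 : u ≠ 0) (h : ∀ x ∈ S, u * x ∈ T) :
    Module.finrank k S ≤ Module.finrank k T := by
  have := Module.Finite.iff_fg.2 hT
  refine LinearMap.finrank_le_finrank_of_injective
    (f := (LinearMap.mulLeft k u).restrict (p := S) (q := T) h) fun x y e => ?_
  exact Subtype.ext (mul_left_cancel₀ u0 (congrArg Subtype.val e))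

theorem hilb_squeeze {A B : ℚ[X]} {r : ℕ} (hA : ∀ᶠ n : ℕ in atTop, 0 ≤ A.eval (n : ℚ))
    (hB : ∀ᶠ n : ℕ in atTop, 0 ≤ B.eval (n : ℚ)) (h : A + B ∈ degreeLT ℚ r) :
    A ∈ degreeLT ℚ r := by
  by_contra n
  have A0 : A ≠ 0 := fun e => n (e ▸ zero_mem _)
  have l : r ≤ A.natDegree := by
    by_contra l
    exact n (degreeLT_le (by omega) (hilb_mem_nat A))
  have b : B ∈ degreeLT ℚ (A.natDegree + 1) := by
    simpa using sub_mem (degreeLT_le (by omega) h) (hilb_mem_nat A)
  have a1 := coeff_nonneg_of_eventually (hilb_mem_nat A) hA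
  have a2 := coeff_nonneg_of_eventually b hB
  have a3 := hilb_mem.1 h _ l
  rw [coeff_add] at a3
  exact A0 (leadingCoeff_eq_zero.1 (by rw [leadingCoeff]; linarith))

/-- all line bundles have the same degree and leading coefficient -/
theorem PP_lead (hV : Mdl V) (D : Pic V) :
    (PP V D).natDegree = dimV V ∧ 0 < (PP V D).coeff (dimV V) ∧
      PP V D - PP V 1 ∈ degreeLT ℚ (dimV V) := by
  have fp : Fg V (pw V) := fg_pw' hV.1
  have e1 : PP V 1 = hp (pw V) := hq_one hV fp
  have s0 := hp_spec hV.1 fp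
  obtain ⟨v, hv, v0⟩ := (Submodule.ne_bot_iff _).1 hV.2
  have nb : ∀ n, V ^ n ≠ ⊥ := fun n =>
    (Submodule.ne_bot_iff _).2 ⟨v ^ n, pow_mem_pow V hv n, pow_ne_zero n v0⟩
  have r := rep_rp D.out
  obtain ⟨u, hu, u0⟩ := (Submodule.ne_bot_iff _).1 (r.ne_bot hV)
  obtain ⟨U', m, hU⟩ := r.exists_inv
  obtain ⟨u', hu', u0'⟩ := (Submodule.ne_bot_iff U').1 fun e => nb m (by rw [← hU, e, Submodule.mul_bot])
  have sD := hilb_ev hV fp D
  have fD := fp.tw hV D.out
  unfold dimV
  rw [e1]
  change _ at sD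
  unfold tw at sD fD
  generalize (rp D.out).1 = U at *
  generalize (rp D.out).2 = a at *
  set P₀ := hp (pw V) with hP₀
  have m0 := hilb_mem_nat P₀
  have lo : ∀ᶠ n : ℕ in atTop, 0 ≤ (PP V D - P₀.comp (X + C (-(a : ℚ)))).eval (n : ℚ) := by
    filter_upwards [sD, fD, (tendsto_sub_atTop_nat a).eventually s0, eventually_ge_atTop a]
      with n a1 a2 a3 a4
    rw [Nat.cast_sub a4, sub_eq_add_neg] at a3
    rw [eval_sub, eval_comp, eval_add, eval_X, eval_C, a3, PP, a1, sub_nonneg, Nat.cast_le]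
    exact hilb_le a2.1 u0 fun x hx => smul_mem_smul hu hx
  have hi : ∀ᶠ n : ℕ in atTop,
      0 ≤ (P₀.comp (X + C (-(a : ℚ) + m)) - PP V D).eval (n : ℚ) := by
    filter_upwards [sD, ((tendsto_add_atTop_nat m).comp (tendsto_sub_atTop_nat a)).eventually s0,
      ((tendsto_add_atTop_nat m).comp (tendsto_sub_atTop_nat a)).eventually fp,
      eventually_ge_atTop a] with n a1 a3 a2 a4
    simp only [Function.comp] at a2 a3
    rw [Nat.cast_add, Nat.cast_sub a4, sub_eq_add_neg, add_assoc] at a3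
    rw [eval_sub, eval_comp, eval_add, eval_X, eval_C, a3, PP, a1, sub_nonneg, Nat.cast_le]
    refine hilb_le a2.1 u0' fun x hx => ?_
    have : U' * (U • V ^ (n - a)) = V ^ (n - a + m) := by
      rw [smul_eq_mul, ← mul_assoc, mul_comm U' U, hU, pow_add, mul_comm]
    show u' * x ∈ V ^ (n - a + m)
    rw [← this]
    exact mul_mem_mul hu' hx
  have d1 := comp_sub_mem_degreeLT m0 (-(a : ℚ))
  have d2 := comp_sub_mem_degreeLT m0 (-(a : ℚ) + m)
  have d3 := hilb_squeeze lo hi (r := P₀.natDegree) (by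
    convert sub_mem d2 d1 using 1
    ring)
  have d4 : PP V D - P₀ ∈ degreeLT ℚ P₀.natDegree := by
    convert add_mem d3 d1 using 1
    ring
  have c1 : (PP V D).coeff P₀.natDegree = P₀.coeff P₀.natDegree := by
    have := hilb_mem.1 d4 _ le_rfl
    rwa [coeff_sub, sub_eq_zero] at this
  have c2 : 0 < P₀.coeff P₀.natDegree := by
    refine lt_of_le_of_ne (coeff_nonneg_of_eventually m0 ?_) fun e => ?_
    · filter_upwards [s0] with n a
      rw [a]
      exact Nat.cast_nonneg _
    · obtain ⟨n, a1, a2⟩ := (s0.and fp).exists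
      have := Module.Finite.iff_fg.2 a2.1
      rw [leadingCoeff_eq_zero.1 e.symm, eval_zero] at a1
      exact nb n (Submodule.finrank_eq_zero.1 (Nat.cast_eq_zero.1 a1.symm))
  refine ⟨natDegree_eq_of_le_of_coeff_ne_zero (natDegree_le_iff_coeff_eq_zero.2 fun j l => ?_)
    (c1 ▸ c2.ne'), c1 ▸ c2, d4⟩
  have := hilb_mem.1 d4 j l.le
  rwa [coeff_sub, coeff_eq_zero_of_natDegree_lt l, sub_zero] at this

end

end Pool.Agent.Lib.MP_62d77c_ag
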