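import Pool.Agent.Lib.MP_62d77c_ag.Snap

/-! The Hodge index theorem. -/

set_option autoImplicit false

namespace Pool.Agent.Lib.MP_62d77c_ag

open Filter Polynomial Submodule

noncomputable section

variable {k K : Type} [Field k] [Field K] [Algebra k K] {V : Submodule k K}

/-- an effective difference and a base point free class -/
theorem hodge_mon (hV : Mdl V) {E F : Pic V} (h : 0 < h0 V (E / F)) {H : Car V}
    {U : Submodule k K} (hH : Rep H U 0) :
    h0 V E + h0 V (cl H * F) ≤ h0 V (cl H * E) + h0 V F := by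
  obtain ⟨D', e, le⟩ := exists_le_of_h0 hV E.out F (by rwa [cl_out])
  have fg := fg_pw' hV.1
  have m := H0_mon hV (fg.tw hV E.out) (fg.tw hV D') le hH
  rw [← H0_congr (tw_mul hV fg H D'), ← H0_congr (tw_mul hV fg H E.out)] at m
  have a := h0_cl hV (H * D')
  have b := h0_cl hV (H * E.out)
  have c := h0_cl hV D'
  rw [map_mul, e] at a
  rw [map_mul, cl_out] at b
  rw [e] at c
  rw [a, b, c]
  exact m

/-- the defect does not increase along the hyperplane class -/
theorem hodge_eps (hV : Mdl V) (M : Mem V (Lp V)) (E : Pic V)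
    (h : ∀ j : ℕ, (h0 M.V' (M.ρ (E * Lp V ^ j * Lp V)) : ℚ) ≤
      (PP M.V' (M.ρ (E * Lp V ^ j * Lp V))).eval 0) : (PP V E).eval 0 ≤ h0 V E := by
  have k : ∀ j : ℕ, (h0 V (E * Lp V ^ j) : ℚ) - (PP V (E * Lp V ^ j)).eval 0 ≤
      h0 V E - (PP V E).eval 0 := by
    intro j
    induction j with
    | zero => simp
    | succ j ih =>
      have a : (h0 V (E * Lp V ^ j * Lp V) : ℚ) ≤
          h0 V (E * Lp V ^ j) + h0 M.V' (M.ρ (E * Lp V ^ j * Lp V)) := by
        exact_mod_cast M.h (E * Lp V ^ j)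
      have b := h j
      rw [← M.P, eval_sub] at b
      rw [pow_succ, ← mul_assoc]
      linarith
  obtain ⟨j, hj⟩ := (h0_eventually hV E).exists
  have := k j
  rw [snap_PP_eval hV, hj] at this
  linarith

theorem hodge_chi (E : Pic V) : (PP V E).eval 0 = (PP V 1).eval 0 + i1 V 1 E := by
  show _ = _ + (PP V (1 * E) - PP V 1).coeff 0
  rw [coeff_zero_eq_eval_zero, eval_sub, one_mul]
  ring

/-- on a curve, line bundles of large degree have no higher cohomology -/
theorem curve_vanish (hV : Mdl V) (h : dimV V = 1) :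
    ∃ c : ℚ, ∀ E : Pic V, c ≤ i1 V 1 E → (h0 V E : ℚ) = (PP V E).eval 0 := by
  obtain ⟨M, hM⟩ := memberL hV h.ge
  have ge : ∀ E, (PP V E).eval 0 ≤ h0 V E := fun E => hodge_eps hV M E fun j => by
    rw [(dim_zero M.mdl (by omega) _).1, eval_C]
  obtain ⟨b, hb⟩ := (h0_eventually hV 1).exists
  rw [← snap_PP_eval hV] at hb
  generalize 1 * Lp V ^ b = F at hb
  refine ⟨i1 V 1 F - (PP V 1).eval 0 + 1, fun E hE => le_antisymm ?_ (ge E)⟩
  have a := i1_mul hV h.ge (E / F) F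
  rw [h, div_mul_cancel] at a
  have p : 0 < h0 V (E / F) := by
    have := ge (E / F)
    rw [hodge_chi] at this
    have : (0 : ℚ) < h0 V (E / F) := by linarith
    exact_mod_cast this
  obtain ⟨j, h1, h2⟩ := ((h0_eventually hV E).and (h0_eventually hV F)).exists
  have r := (rep_L (V := V)).pow j
  rw [mul_zero] at r
  have m := hodge_mon hV p r
  rw [map_pow, mul_comm _ F, mul_comm _ E] at m
  have m' : (h0 V E : ℚ) + h0 V (F * Lp V ^ j) ≤ h0 V (E * Lp V ^ j) + h0 V F := by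
    exact_mod_cast m
  have d : PP V E - PP V F ∈ degreeLT ℚ 1 := by
    have := sub_mem (PP_lead hV E).2.2 (PP_lead hV F).2.2
    rwa [h, sub_sub_sub_cancel_right] at this
  have d1 := congrArg (eval (j : ℚ)) (eq_C_of_mem_degreeLT_one d)
  have d2 := congrArg (eval (0 : ℚ)) (eq_C_of_mem_degreeLT_one d)
  rw [eval_sub, eval_C] at d1 d2
  linarith

/-- degrees on a generic member -/
theorem hodge_mem_i1 {D : Pic V} (M : Mem V D) (hM : dimV M.V' + 1 = dimV V) (E : Pic V) :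
    i1 M.V' (dimV M.V') (M.ρ E) = i2 V (dimV V) E D := by
  unfold i1 i2
  rw [snap_mem_dl M, lin_comp (fun x => PP M.V' (x * M.ρ D)) M.ρ,
    show dimV V - 2 = dimV M.V' - 1 by omega, lin_translate (snap_lev M.mdl (s := 1) le_rfl)]

theorem hodge_mem_i2 {D : Pic V} (M : Mem V D) (hM : dimV M.V' + 1 = dimV V) (E E' : Pic V) :
    i2 M.V' (dimV M.V') (M.ρ E) (M.ρ E') = lin (dimV V - 3) (dl D (dl E' (PP V))) E := by
  unfold i2
  have e : dl D (dl E' (PP V)) = fun x => dl (M.ρ E') (PP M.V') (M.ρ x * M.ρ D) := by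
    rw [dl_comm, snap_mem_dl M]
    funext x
    show PP M.V' (M.ρ (x * E') * M.ρ D) - _ = PP M.V' (M.ρ x * M.ρ D * M.ρ E') - _
    rw [map_mul, mul_right_comm]
  rw [e, lin_comp (fun x => dl (M.ρ E') (PP M.V') (x * M.ρ D)) M.ρ,
    show dimV V - 3 = dimV M.V' - 2 by omega, lin_translate (snap_lev_dl M.mdl _)]

theorem hodge_mem_i2_L (hV : Mdl V) (h : 3 ≤ dimV V) (M : Mem V (Lp V))
    (hM : dimV M.V' + 1 = dimV V) (E E' : Pic V) :
    i2 M.V' (dimV M.V') (M.ρ E) (M.ρ E') = ((dimV V - 3 : ℕ) + 1) * i2 V (dimV V) E E' := by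
  have hL : ∀ x, dl E' (PP V) (x * Lp V) = (dl E' (PP V) x).comp (X + 1) := by
    intro x
    show PP V (x * Lp V * E') - PP V (x * Lp V) = (PP V (x * E') - PP V x).comp (X + 1)
    rw [mul_right_comm, PP_L hV, PP_L hV, sub_comp]
  rw [hodge_mem_i2 M hM, lin_dl_L hL ((snap_lev_dl hV E').mono (by omega)),
    show dimV V - 3 + 1 = dimV V - 2 by omega]
  rfl

/-- a base point free class meets an effective class nonnegatively -/
theorem hodge_nef (hV : Mdl V) (h : 2 ≤ dimV V) {G : Pic V} (hG : 0 < h0 V G) {H : Car V}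
    {U : Submodule k K} (hH : Rep H U 0) : 0 ≤ i2 V (dimV V) G (cl H) := by
  refine coeff_nonneg_of_eventually (snap_dl2_mem hV h G (cl H) 1) ?_
  filter_upwards [h0_eventually hV (1 * G * cl H), h0_eventually hV (1 * G),
    h0_eventually hV (1 * cl H), h0_eventually hV 1] with n h1 h2 h3 h4
  have m := hodge_mon hV (E := 1 * G * Lp V ^ n) (F := 1 * Lp V ^ n)
    (by rwa [mul_div_mul_right_eq_div, one_mul, div_one]) hH
  have e1 : cl H * (1 * Lp V ^ n) = 1 * cl H * Lp V ^ n := by rw [one_mul, one_mul]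
  have e2 : cl H * (1 * G * Lp V ^ n) = 1 * G * cl H * Lp V ^ n := by
    rw [← mul_assoc, mul_comm (cl H)]
  rw [e1, e2] at m
  have m' : (h0 V (1 * G * Lp V ^ n) : ℚ) + h0 V (1 * cl H * Lp V ^ n) ≤
      h0 V (1 * G * cl H * Lp V ^ n) + h0 V (1 * Lp V ^ n) := by exact_mod_cast m
  show 0 ≤ eval (n : ℚ) (PP V (1 * G * cl H) - PP V (1 * G) - (PP V (1 * cl H) - PP V 1))
  rw [eval_sub, eval_sub, eval_sub]
  linarith

theorem hodge_grow {a : ℕ → ℚ} {s : ℚ} (hs : 0 < s)
    (h : ∀ m, a (m + 2) - a (m + 1) - (a (m + 1) - a m) = s) : ∀ᶠ m in atTop, 0 < a m := by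
  have k : ∀ m : ℕ, a (m + 1) - a m = a 1 - a 0 + m * s ∧
      a m = a 0 + m * (a 1 - a 0) + m * (m - 1) / 2 * s := by
    intro m
    induction m with
    | zero => simp
    | succ m ih =>
      have := h m
      push_cast
      constructor
      · linarith [ih.1]
      · linarith [ih.1, ih.2]
  obtain ⟨n, hn⟩ := exists_nat_gt (2 * (|a 0| + |a 1 - a 0|) / s + 1)
  filter_upwards [eventually_ge_atTop n] with m hm
  have hm' : (n : ℚ) ≤ m := by exact_mod_cast hm
  have p1 := abs_nonneg (a 0)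
  have p2 := abs_nonneg (a 1 - a 0)
  have q : 2 * (|a 0| + |a 1 - a 0|) / s < m - 1 := by linarith
  have q0 : 0 ≤ 2 * (|a 0| + |a 1 - a 0|) / s := by positivity
  rw [div_lt_iff₀ hs] at q
  have m1 : (1 : ℚ) ≤ m := by linarith
  have l1 := neg_abs_le (a 0)
  have l2 := neg_abs_le (a 1 - a 0)
  rw [(k m).2]
  have t1 : (m : ℚ) * (2 * (|a 0| + |a 1 - a 0|)) < m * ((m - 1) * s) :=
    mul_lt_mul_of_pos_left q (by linarith)
  have t2 : (m : ℚ) * -|a 1 - a 0| ≤ m * (a 1 - a 0) := mul_le_mul_of_nonneg_left l2 (by linarith)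
  have t3 : 1 * |a 0| ≤ (m : ℚ) * |a 0| := mul_le_mul_of_nonneg_right m1 p1
  linarith

/-- on a surface, a class of positive square and positive degree has an effective multiple -/
theorem hodge_big (hV : Mdl V) (h : dimV V = 2) {G : Pic V} (h1 : 0 < i2 V (dimV V) G G)
    (h2 : 0 < i2 V (dimV V) G (Lp V)) : ∃ m : ℕ, 0 < m ∧ 0 < h0 V (G ^ m) := by
  obtain ⟨M, hM⟩ := memberL hV (by omega)
  have hM1 : dimV M.V' = 1 := by omega
  obtain ⟨c, hc⟩ := curve_vanish M.mdl hM1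
  have LL : 0 < i2 V (dimV V) (Lp V) (Lp V) := by
    rw [← hodge_mem_i1 M hM, M.L]
    exact i1_L_pos M.mdl hM1.ge
  have gr : ∀ᶠ m in atTop, 0 < (PP V (G ^ m)).eval 0 := by
    refine hodge_grow h1 fun m => ?_
    have := lin_base (snap_lev_dl hV G) G (G ^ m)
    unfold i2
    rw [← this, h, coeff_zero_eq_eval_zero]
    show _ = eval 0 (PP V (G ^ m * G * G) - PP V (G ^ m * G) - (PP V (G ^ m * G) - PP V (G ^ m)))
    rw [eval_sub, eval_sub, eval_sub, pow_succ, pow_succ]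
  obtain ⟨n, hn⟩ := exists_nat_gt (c / i2 V (dimV V) G (Lp V))
  rw [div_lt_iff₀ h2] at hn
  obtain ⟨m, g1, g2, g3⟩ := (gr.and ((eventually_ge_atTop n).and (eventually_gt_atTop 0))).exists
  refine ⟨m, g3, ?_⟩
  have := hodge_eps hV M (G ^ m) fun j => le_of_eq (hc _ (by
    rw [← hM1, hodge_mem_i1 M hM, mul_assoc, ← pow_succ, i2_mul hV h.ge, snap_i2_pow hV,
      snap_i2_pow hV]
    have a : (n : ℚ) ≤ m := by exact_mod_cast g2
    have b := mul_le_mul_of_nonneg_right a h2.le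
    have d : 0 ≤ ((j + 1 : ℕ) : ℚ) * i2 V (dimV V) (Lp V) (Lp V) := by positivity
    linarith))
  have : (0 : ℚ) < h0 V (G ^ m) := by linarith
  exact_mod_cast this

theorem hodge_two (hV : Mdl V) (h : dimV V = 2) {D : Pic V} (h1 : i1 V (dimV V) D = 0) :
    i2 V (dimV V) D D ≤ 0 := by
  by_contra hD
  rw [not_le] at hD
  have DL : i2 V (dimV V) D (Lp V) = 0 := by rw [i2_L hV h.ge, h1, mul_zero]
  have LD : i2 V (dimV V) (Lp V) D = 0 := by rw [i2_symm, DL]
  have LL : 0 < i2 V (dimV V) (Lp V) (Lp V) := by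
    rw [i2_L hV h.ge]
    have := i1_L_pos hV (by omega)
    refine mul_pos ?_ this
    rw [h]
    norm_num
  obtain ⟨n, H, U, e, r⟩ := (snap_rep D⁻¹).exists
  obtain ⟨a, ha⟩ := exists_nat_gt (n * i2 V (dimV V) (Lp V) (Lp V) / i2 V (dimV V) D D)
  rw [div_lt_iff₀ hD] at ha
  have GD : i2 V (dimV V) (D ^ a * Lp V) D = a * i2 V (dimV V) D D := by
    rw [i2_mul hV h.ge, snap_i2_pow hV, LD, add_zero]
  have gL : i2 V (dimV V) (D ^ a * Lp V) (Lp V) = i2 V (dimV V) (Lp V) (Lp V) := by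
    rw [i2_mul hV h.ge, snap_i2_pow hV, DL, mul_zero, zero_add]
  have GG : 0 < i2 V (dimV V) (D ^ a * Lp V) (D ^ a * Lp V) := by
    rw [i2_mul hV h.ge, snap_i2_pow hV, i2_symm _ D, i2_symm _ (Lp V), GD, gL]
    positivity
  obtain ⟨m, m0, hm⟩ := hodge_big hV h GG (gL ▸ LL)
  have k := hodge_nef hV h.ge hm r
  rw [snap_i2_pow hV, e, i2_symm, i2_mul hV h.ge, ← zpow_neg_one, snap_i2_zpow hV, snap_i2_pow hV,
    i2_symm _ D, i2_symm _ (Lp V), GD, gL] at k
  have m1 : (0 : ℚ) < m := by exact_mod_cast m0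
  have := nonneg_of_mul_nonneg_right k m1
  push_cast at this
  linarith

theorem hodge_aux (r : ℕ) : ∀ (k K : Type) [Field k] [Field K] [Algebra k K] (V : Submodule k K),
    Mdl V → dimV V = r + 2 → ∀ D : Pic V, i1 V (dimV V) D = 0 → i2 V (dimV V) D D ≤ 0 := by
  induction r with
  | zero => exact fun k K _ _ _ V hV h D h1 => hodge_two hV h h1
  | succ r ih =>
    intro k K _ _ _ V hV h D h1
    obtain ⟨M, hM⟩ := memberL hV (by omega)
    have a := ih _ _ M.V' M.mdl (by omega) (M.ρ D)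
      (by rw [hodge_mem_i1 M hM, i2_L hV (by omega), h1, mul_zero])
    rw [hodge_mem_i2_L hV (by omega) M hM] at a
    exact nonpos_of_mul_nonpos_right a (by positivity)

theorem hodge (hV : Mdl V) (h : 2 ≤ dimV V) {D : Pic V} (h1 : i1 V (dimV V) D = 0) :
    i2 V (dimV V) D D ≤ 0 := hodge_aux (dimV V - 2) k K V hV (by omega) D h1

theorem radical (hV : Mdl V) (h : 2 ≤ dimV V) {w : Pic V} (hw : NT V w) (E : Pic V) :
    i2 V (dimV V) w E = 0 := by
  have h' : 1 ≤ dimV V := by omega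
  have w1 := hw.1 h'
  have w2 := hw.2 h
  have l := i1_L_pos hV h'
  obtain ⟨p, q, p0, e⟩ : ∃ p q : ℤ, p ≠ 0 ∧ p * i1 V (dimV V) E + q * i1 V (dimV V) (Lp V) = 0 := by
    refine ⟨(i1 V (dimV V) E / i1 V (dimV V) (Lp V)).den,
      -(i1 V (dimV V) E / i1 V (dimV V) (Lp V)).num, by exact_mod_cast Rat.den_ne_zero _, ?_⟩
    have := Rat.den_mul_eq_num (i1 V (dimV V) E / i1 V (dimV V) (Lp V))
    push_cast
    rw [← this]
    field_simp
    ring
  obtain ⟨x, hx⟩ : ∃ x, x = E ^ p * Lp V ^ q := ⟨_, rfl⟩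
  have x1 : i1 V (dimV V) x = 0 := by rw [hx, i1_mul hV h', snap_i1_zpow hV, snap_i1_zpow hV, e]
  have xw : i2 V (dimV V) x w = p * i2 V (dimV V) w E := by
    rw [hx, i2_mul hV h, snap_i2_zpow hV, snap_i2_zpow hV, i2_symm _ (Lp V), i2_L hV h, w1,
      i2_symm _ E]
    ring
  have k : ∀ t : ℤ, 2 * t * i2 V (dimV V) x w + i2 V (dimV V) x x ≤ 0 := by
    intro t
    have := hodge hV h (D := w ^ t * x) (by rw [i1_mul hV h', snap_i1_zpow hV, w1, x1]; ring)
    rw [i2_mul hV h, snap_i2_zpow hV, i2_symm _ w, i2_symm _ x, i2_mul hV h, i2_mul hV h,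
      snap_i2_zpow hV, snap_i2_zpow hV, w2, i2_symm _ w x] at this
    linarith
  have z : i2 V (dimV V) x w = 0 := by
    by_contra ne
    rcases lt_or_gt_of_ne ne with c | c
    · obtain ⟨n, hn⟩ := exists_nat_gt (-i2 V (dimV V) x x / (2 * -i2 V (dimV V) x w))
      rw [div_lt_iff₀ (by linarith)] at hn
      have := k (-n)
      push_cast at this
      linarith
    · obtain ⟨n, hn⟩ := exists_nat_gt (-i2 V (dimV V) x x / (2 * i2 V (dimV V) x w))
      rw [div_lt_iff₀ (by linarith)] at hn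
      have := k n
      push_cast at this
      linarith
  rw [z] at xw
  exact (mul_eq_zero.1 xw.symm).resolve_left (by exact_mod_cast p0)

end

end Pool.Agent.Lib.MP_62d77c_ag
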