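import Pool.Agent.Lib.MP_62d77c_ag.Hilb

/-! Restriction of line bundles along a specialisation. -/

set_option autoImplicit false

namespace Pool.Agent.Lib.MP_62d77c_ag

open Filter Polynomial Submodule

noncomputable section

namespace Spec
section gen
variable {k K k' K' : Type} [CommRing k] [Field K] [Algebra k K] [CommRing k'] [Field K']
  [Algebra k' K'] (S : Spec k K k' K') {V U U' : Submodule k K} {V' : Submodule k' K'}
  {s u u' : K}

theorem ev_of_mem {y : K} (h : y ∈ S.O) : S.ev y = S.φ ⟨y, h⟩ := dif_pos h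

theorem ev_add {y z : K} (hy : y ∈ S.O) (hz : z ∈ S.O) : S.ev (y + z) = S.ev y + S.ev z := by
  rw [S.ev_of_mem hy, S.ev_of_mem hz, S.ev_of_mem (add_mem hy hz), ← map_add]; rfl

theorem ev_mul {y z : K} (hy : y ∈ S.O) (hz : z ∈ S.O) : S.ev (y * z) = S.ev y * S.ev z := by
  rw [S.ev_of_mem hy, S.ev_of_mem hz, S.ev_of_mem (mul_mem hy hz), ← map_mul]; rfl

theorem ev_one : S.ev 1 = 1 := by
  rw [S.ev_of_mem (one_mem _)]; exact map_one S.φ

theorem ev_zero : S.ev 0 = 0 := by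
  rw [S.ev_of_mem (zero_mem _)]; exact map_zero S.φ

theorem ev_pow {y : K} (hy : y ∈ S.O) (n : ℕ) : S.ev (y ^ n) = S.ev y ^ n := by
  induction n with
  | zero => simpa using S.ev_one
  | succ n ih => rw [pow_succ, S.ev_mul (pow_mem hy n) hy, ih, pow_succ]

theorem ev_inv {y : K} (hy : y ∈ S.O) (h : S.ev y ≠ 0) :
    y⁻¹ ∈ S.O ∧ S.ev y⁻¹ = (S.ev y)⁻¹ := by
  have h1 : y⁻¹ ∈ S.O := S.inv ⟨y, hy⟩ (by rwa [S.ev_of_mem hy] at h)
  have h0 : y ≠ 0 := fun e => h (e ▸ S.ev_zero)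
  refine ⟨h1, eq_inv_of_mul_eq_one_left ?_⟩
  rw [← S.ev_mul h1 hy, inv_mul_cancel₀ h0, S.ev_one]

theorem specL_base (c : k) : algebraMap k K c ∈ S.O := (S.base c).1

theorem specL_ev_base (c : k) : ∃ c' : k', S.ev (algebraMap k K c) = algebraMap k' K' c' := by
  obtain ⟨h, c', e⟩ := S.base c
  exact ⟨c', by rw [S.ev_of_mem h, e]⟩

theorem specL_mem_img {w : K} (hw : w ∈ U) (u : K) : S.ev (w / u) ∈ S.img U u :=
  subset_span ⟨w, hw, rfl⟩

theorem specL_img_le {W : Submodule k' K'} (h : ∀ w ∈ U, S.ev (w / u) ∈ W) : S.img U u ≤ W :=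
  span_le.2 (by rintro _ ⟨w, hw, rfl⟩; exact h w hw)

theorem specL_span_mem {t : Set K} (h : ∀ w ∈ t, w / u ∈ S.O) :
    ∀ w ∈ span k t, w / u ∈ S.O := by
  intro w hw
  induction hw using span_induction with
  | mem x hx => exact h x hx
  | zero => simp
  | add x y _ _ hx hy => rw [add_div]; exact add_mem hx hy
  | smul c x _ hx => rw [Algebra.smul_def, mul_div_assoc]; exact mul_mem (S.specL_base c) hx

theorem specL_img_span {t : Set K} (h : ∀ w ∈ t, w / u ∈ S.O) :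
    S.img (span k t) u = span k' ((fun w => S.ev (w / u)) '' t) := by
  refine le_antisymm (S.specL_img_le fun w hw => ?_) (span_mono (Set.image_mono subset_span))
  induction hw using span_induction with
  | mem x hx => exact subset_span ⟨x, hx, rfl⟩
  | zero => rw [zero_div, S.ev_zero]; exact zero_mem _
  | add x y hx' hy' hx hy =>
    rw [add_div, S.ev_add (S.specL_span_mem h x hx') (S.specL_span_mem h y hy')]
    exact add_mem hx hy
  | smul c x hx' hx =>
    obtain ⟨c', e⟩ := S.specL_ev_base c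
    rw [Algebra.smul_def, mul_div_assoc, S.ev_mul (S.specL_base c) (S.specL_span_mem h x hx'), e,
      ← Algebra.smul_def]
    exact smul_mem _ _ hx

theorem img_mono (h : U ≤ U') (u : K) : S.img U u ≤ S.img U' u :=
  span_mono (Set.image_mono h)

theorem specL_mul_mem (h : ∀ w ∈ U, w / u ∈ S.O) (h' : ∀ w ∈ U', w / u' ∈ S.O) :
    ∀ w ∈ U * U', w / (u * u') ∈ S.O := by
  intro w hw
  induction hw using Submodule.mul_induction_on' with
  | mem_mul_mem x hx y hy => rw [mul_div_mul_comm]; exact mul_mem (h x hx) (h' y hy)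
  | add x _ y _ hx hy => rw [add_div]; exact add_mem hx hy

theorem img_mul (h : ∀ w ∈ U, w / u ∈ S.O) (h' : ∀ w ∈ U', w / u' ∈ S.O) :
    S.img (U * U') (u * u') = S.img U u * S.img U' u' := by
  refine le_antisymm (S.specL_img_le fun w hw => ?_) ?_
  · induction hw using Submodule.mul_induction_on' with
    | mem_mul_mem x hx y hy =>
      rw [mul_div_mul_comm, S.ev_mul (h x hx) (h' y hy)]
      exact mul_mem_mul (S.specL_mem_img hx u) (S.specL_mem_img hy u')
    | add x hx' y hy' hx hy =>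
      rw [add_div, S.ev_add (S.specL_mul_mem h h' x hx') (S.specL_mul_mem h h' y hy')]
      exact add_mem hx hy
  · rw [img, img, span_mul_span, span_le]
    rintro _ ⟨_, ⟨x, hx, rfl⟩, _, ⟨y, hy, rfl⟩, rfl⟩
    have := S.specL_mem_img (mul_mem_mul hx hy) (u * u')
    rw [mul_div_mul_comm, S.ev_mul (h x hx) (h' y hy)] at this
    exact this

theorem img_fg (hU : U.FG) (h : ∀ w ∈ U, w / u ∈ S.O) : (S.img U u).FG := by
  obtain ⟨t, rfl⟩ := hU
  rw [S.specL_img_span fun w hw => h w (subset_span hw)]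
  exact fg_span (t.finite_toSet.image _)

theorem specL_img_single (hu : u ≠ 0) : S.img (span k {u}) u = 1 := by
  rw [S.specL_img_span (by simp [hu])]
  simp [hu, S.ev_one, one_eq_span]

theorem specL_triv_single (hu : u ≠ 0) : S.Triv (span k {u}) u :=
  ⟨hu, S.specL_span_mem (by simp [hu]), u, subset_span rfl,
    by simp [hu, S.ev_one]⟩

variable {S}

theorem Triv.mul (h : S.Triv U u) (h' : S.Triv U' u') : S.Triv (U * U') (u * u') := by
  obtain ⟨h0, h1, w, hw, h2⟩ := h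
  obtain ⟨h0', h1', w', hw', h2'⟩ := h'
  refine ⟨mul_ne_zero h0 h0', S.specL_mul_mem h1 h1', w * w', mul_mem_mul hw hw', ?_⟩
  rw [mul_div_mul_comm, S.ev_mul (h1 w hw) (h1' w' hw')]
  exact mul_ne_zero h2 h2'

theorem Triv.pow (h : S.Triv U u) (n : ℕ) : S.Triv (U ^ n) (u ^ n) := by
  induction n with
  | zero => rw [pow_zero, pow_zero, one_eq_span]; exact S.specL_triv_single one_ne_zero
  | succ n ih => rw [pow_succ, pow_succ]; exact ih.mul h

theorem Over.pow (h : S.Over V s V') (n : ℕ) : S.img (V ^ n) (s ^ n) = V' ^ n := by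
  induction n with
  | zero => rw [pow_zero, pow_zero, pow_zero, one_eq_span]; exact S.specL_img_single one_ne_zero
  | succ n ih => rw [pow_succ, pow_succ, pow_succ, S.img_mul (h.1.pow n).2.1 h.1.2.1, ih, h.2]

theorem Over.mdl (h : S.Over V s V') (hV : Mdl V) : Mdl V' := by
  obtain ⟨⟨-, h1, w, hw, h2⟩, rfl⟩ := h
  refine ⟨S.img_fg hV.1 h1, fun e => h2 ?_⟩
  have := S.specL_mem_img hw s
  rwa [e, Submodule.mem_bot] at this

theorem Over.exists_triv (h : S.Over V s V') {D : Car V} {a : ℕ} (hD : Rep D U a) :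
    ∃ u ∈ U, S.Triv U u := by
  obtain ⟨U', m, e⟩ := hD.exists_inv
  obtain ⟨hs, h1, w, hw, h2⟩ := h.1.pow m
  rw [← e] at h1 hw
  have : ∃ x ∈ U, ∃ y ∈ U', S.ev (x * y / s ^ m) ≠ 0 := by
    by_contra hc
    push Not at hc
    apply h2
    clear h2
    induction hw using Submodule.mul_induction_on' with
    | mem_mul_mem x hx y hy => exact hc x hx y hy
    | add x hx' y hy' hx hy => rw [add_div, S.ev_add (h1 x hx') (h1 y hy'), hx, hy, add_zero]
  obtain ⟨x, hx, y, hy, h3⟩ := this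
  have hx0 : x ≠ 0 := fun e => h3 (by rw [e, zero_mul, zero_div, S.ev_zero])
  have hy0 : y ≠ 0 := fun e => h3 (by rw [e, mul_zero, zero_div, S.ev_zero])
  refine ⟨x, hx, hx0, fun z hz => ?_, x, hx, by simp [hx0, S.ev_one]⟩
  have h4 := mul_mem (h1 _ (mul_mem_mul hz hy)) (S.ev_inv (h1 _ (mul_mem_mul hx hy)) h3).1
  have h5 : z * y / s ^ m * (x * y / s ^ m)⁻¹ = z / x := by field_simp
  rwa [h5] at h4

/-- the complement of a trivialised invertible module is regular for the complementary generator -/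
theorem specL_compl (h : S.Triv U u) {t : K} (ht0 : t ≠ 0) (ht : ∀ w ∈ U * U', w / t ∈ S.O) :
    ∀ w ∈ U', w / (t / u) ∈ S.O := by
  obtain ⟨h0, h1, x, hx, h2⟩ := h
  intro w hw
  have hx0 : x ≠ 0 := fun e => h2 (by rw [e, zero_div, S.ev_zero])
  have h4 := mul_mem (ht _ (mul_mem_mul hx hw)) (S.ev_inv (h1 _ hx) h2).1
  have h5 : x * w / t * (x / u)⁻¹ = w / (t / u) := by field_simp
  rwa [h5] at h4

theorem specL_ratio (h : S.Triv U u) (h' : S.Triv U u') : u / u' ∈ S.O := by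
  obtain ⟨h0, h1, x, hx, h2⟩ := h
  have hx0 : x ≠ 0 := fun e => h2 (by rw [e, zero_div, S.ev_zero])
  have h4 := mul_mem (h'.2.1 _ hx) (S.ev_inv (h1 _ hx) h2).1
  have h5 : x / u' * (x / u)⁻¹ = u / u' := by field_simp
  rwa [h5] at h4

theorem specL_change (h : S.Triv U u) (h' : S.Triv U u') :
    ∃ f : K'ˣ, S.img U u' = S.img U u * span k' {(f : K')} := by
  have h1 := specL_ratio h h'
  have h2 := specL_ratio h' h
  have hu := h.1
  have hu' := h'.1
  have h3 : S.ev (u / u') * S.ev (u' / u) = 1 := by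
    rw [← S.ev_mul h1 h2, show u / u' * (u' / u) = 1 by field_simp, S.ev_one]
  have key : ∀ w ∈ U, S.ev (w / u') = S.ev (w / u) * S.ev (u / u') := fun w hw => by
    rw [← S.ev_mul (h.2.1 w hw) h1]; congr 1; field_simp
  refine ⟨Units.mk0 _ (left_ne_zero_of_mul_eq_one h3), le_antisymm ?_ ?_⟩
  · refine S.specL_img_le fun w hw => ?_
    rw [key w hw]
    exact mul_mem_mul (S.specL_mem_img hw u) (subset_span rfl)
  · rw [img, span_mul_span, span_le]
    rintro _ ⟨_, ⟨x, hx, rfl⟩, _, rfl, rfl⟩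
    have := S.specL_mem_img hx u'
    rw [key x hx] at this
    exact this

theorem specL_exists_rep (h : S.Over V s V') {D : Car V} {a : ℕ} (hD : Rep D U a)
    (hu : S.Triv U u) : ∃ D' : Car V', Rep D' (S.img U u) a := by
  obtain ⟨U', m, e⟩ := hD.exists_inv
  have hp := h.1.pow m
  have h1 := specL_compl (U' := U') hu hp.1 (by rw [e]; exact hp.2.1)
  have h2 := S.img_mul hu.2.1 h1
  rw [e, mul_div_cancel₀ _ hu.1, h.pow m] at h2
  exact exists_car h2.symm a

theorem specL_cl_eq (h : S.Over V s V') {D : Car V} {a a' : ℕ} (hD : Rep D U a)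
    (hu : S.Triv U u) (hD' : Rep D U' a') (hu' : S.Triv U' u') {E E' : Car V'}
    (hE : Rep E (S.img U u) a) (hE' : Rep E' (S.img U' u') a') : cl E = cl E' := by
  obtain ⟨c, e⟩ := hD.eq hD'
  have t1 := (h.1.pow (c + a')).mul hu
  have t2 := (h.1.pow (c + a)).mul hu'
  have i1 := S.img_mul (h.1.pow (c + a')).2.1 hu.2.1
  have i2 := S.img_mul (h.1.pow (c + a)).2.1 hu'.2.1
  rw [h.pow] at i1 i2
  rw [← e] at t2 i2
  obtain ⟨f, hf⟩ := specL_change t1 t2
  rw [i1, i2, mul_assoc] at hf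
  have r1 := hE.mul (rep_prin f)
  rw [add_zero] at r1
  exact cl_eq_iff.2 ⟨f, hE'.unique (r1.of_eq hf.symm)⟩

theorem Over.exists_rho (h : S.Over V s V') : ∃ ρ : Pic V →* Pic V',
    ∀ (D : Car V) U a u, Rep D U a → S.Triv U u →
      ∃ D' : Car V', Rep D' (S.img U u) a ∧ ρ (cl D) = cl D' := by
  have ex : ∀ D : Car V, ∃ E : Pic V', ∀ U a u, Rep D U a → S.Triv U u →
      ∃ D' : Car V', Rep D' (S.img U u) a ∧ E = cl D' := by
    intro D
    obtain ⟨u₀, -, hu₀⟩ := h.exists_triv (rep_rp D)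
    obtain ⟨E, hE⟩ := specL_exists_rep h (rep_rp D) hu₀
    refine ⟨cl E, fun U a u hD hu => ?_⟩
    obtain ⟨E', hE'⟩ := specL_exists_rep h hD hu
    exact ⟨E', hE', specL_cl_eq h (rep_rp D) hu₀ hD hu hE hE'⟩
  choose ψ hψ using ex
  have hmul : ∀ D D₂ : Car V, ψ (D * D₂) = ψ D * ψ D₂ := by
    intro D D₂
    obtain ⟨u₁, -, hu₁⟩ := h.exists_triv (rep_rp D)
    obtain ⟨u₂, -, hu₂⟩ := h.exists_triv (rep_rp D₂)
    obtain ⟨E₁, r₁, e₁⟩ := hψ D _ _ _ (rep_rp D) hu₁
    obtain ⟨E₂, r₂, e₂⟩ := hψ D₂ _ _ _ (rep_rp D₂) hu₂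
    obtain ⟨E, r, e⟩ := hψ (D * D₂) _ _ _ ((rep_rp D).mul (rep_rp D₂)) (hu₁.mul hu₂)
    rw [S.img_mul hu₁.2.1 hu₂.2.1] at r
    rw [e, e₁, e₂, ← map_mul, r.unique (r₁.mul r₂)]
  have hker : ∀ x ∈ (prin V).range, MonoidHom.mk' ψ hmul x = 1 := by
    rintro _ ⟨f, rfl⟩
    obtain ⟨E, r, e⟩ := hψ (prin V f) _ _ _ (rep_prin f) (S.specL_triv_single f.ne_zero)
    rw [S.specL_img_single f.ne_zero] at r
    change ψ _ = 1
    rw [e, r.unique rep_one, map_one]
  exact ⟨QuotientGroup.lift (prin V).range (MonoidHom.mk' ψ hmul) hker,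
    fun D U a u hD hu => hψ D U a u hD hu⟩

/-- restriction of line bundles -/
def Over.rho (h : S.Over V s V') : Pic V →* Pic V' := h.exists_rho.choose

theorem Over.rho_spec (h : S.Over V s V') {D : Car V} {a : ℕ} (hD : Rep D U a) (hu : S.Triv U u) :
    ∃ D' : Car V', Rep D' (S.img U u) a ∧ h.rho (cl D) = cl D' :=
  h.exists_rho.choose_spec D U a u hD hu

theorem Over.rho_L (h : S.Over V s V') : h.rho (Lp V) = Lp V' := by
  obtain ⟨E, r, e⟩ := h.rho_spec rep_L h.1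
  rw [h.2] at r
  rw [Lp, e, r.unique rep_L, Lp]

theorem Over.rho_comp {k'' K'' : Type} [CommRing k''] [Field K''] [Algebra k'' K'']
    {S₂ : Spec k' K' k'' K''} {S₃ : Spec k K k'' K''} {V'' : Submodule k'' K''} {s₂ : K'} {s₃ : K}
    (h : S.Over V s V') (h₂ : S₂.Over V' s₂ V'') (h₃ : S₃.Over V s₃ V'')
    (hc : ∀ y ∈ S₃.O, y ∈ S.O ∧ S.ev y ∈ S₂.O ∧ S₂.ev (S.ev y) = S₃.ev y) (D : Pic V) :
    h₂.rho (h.rho D) = h₃.rho D := by
  obtain ⟨u, -, hu⟩ := h₃.exists_triv (rep_rp D.out)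
  set U := (rp D.out).1
  obtain ⟨w, hw, hw0⟩ := hu.2.2
  have t1 : S.Triv U u := ⟨hu.1, fun x hx => (hc _ (hu.2.1 x hx)).1, w, hw, fun e => hw0 (by
    rw [← (hc _ (hu.2.1 w hw)).2.2, e, S₂.ev_zero])⟩
  have hgen : ∀ x ∈ (fun w => S.ev (w / u)) '' (U : Set K), x / 1 ∈ S₂.O := by
    rintro _ ⟨x, hx, rfl⟩
    rw [div_one]; exact (hc _ (hu.2.1 x hx)).2.1
  have t2 : S₂.Triv (S.img U u) 1 := ⟨one_ne_zero, S₂.specL_span_mem hgen, _, S.specL_mem_img hw u,
    by rw [div_one, (hc _ (hu.2.1 w hw)).2.2]; exact hw0⟩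
  have i2 : S₂.img (S.img U u) 1 = S₃.img U u := by
    rw [show S.img U u = span k' ((fun w => S.ev (w / u)) '' (U : Set K)) from rfl,
      S₂.specL_img_span hgen, Set.image_image, img]
    congr 1
    refine Set.image_congr fun x hx => ?_
    rw [div_one, (hc _ (hu.2.1 x hx)).2.2]
  obtain ⟨E₁, r₁, e₁⟩ := h.rho_spec (rep_rp D.out) t1
  obtain ⟨E₂, r₂, e₂⟩ := h₂.rho_spec r₁ t2
  obtain ⟨E₃, r₃, e₃⟩ := h₃.rho_spec (rep_rp D.out) hu
  rw [cl_out] at e₁ e₃
  rw [i2] at r₂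
  rw [e₁, e₂, e₃, r₂.unique r₃]

end gen

variable {k K K' : Type} [Field k] [Field K] [Algebra k K] [Field K'] [Algebra k K']
  {S : Spec k K k K'} {V : Submodule k K} {V' : Submodule k K'} {s : K}

theorem Over.fg_img (h : S.Over V s V') {N : ℕ → Submodule k K} (hN : Fg V N)
    (hle : N ≤ᶠ[atTop] pw V) : Fg V' (fun n => S.img (N n) (s ^ n)) := by
  filter_upwards [hN, hle] with n h1 h2
  have h3 : ∀ w ∈ N n, w / s ^ n ∈ S.O := fun w hw => (h.1.pow n).2.1 w (h2 hw)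
  refine ⟨S.img_fg h1.1 h3, ?_⟩
  rw [h1.2, smul_eq_mul, smul_eq_mul, pow_succ', S.img_mul h.1.2.1 h3, h.2]

/-- the sections vanishing at the point -/
def specL_ker (S : Spec k K k K') (W : Submodule k K) (u : K) (hW : ∀ w ∈ W, w / u ∈ S.O) :
    Submodule k K where
  carrier := {w | w ∈ W ∧ S.ev (w / u) = 0}
  zero_mem' := ⟨zero_mem _, by rw [zero_div, S.ev_zero]⟩
  add_mem' := fun {a b} ha hb => ⟨add_mem ha.1 hb.1, by
    rw [add_div, S.ev_add (hW a ha.1) (hW b hb.1), ha.2, hb.2, add_zero]⟩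
  smul_mem' := fun c a ha => ⟨smul_mem _ _ ha.1, by
    rw [Algebra.smul_def, mul_div_assoc, S.ev_mul (S.specL_base c) (hW a ha.1), ha.2, mul_zero]⟩

theorem specL_rank (hlin : ∀ c, S.ev (algebraMap k K c) = algebraMap k K' c)
    {W Z : Submodule k K} {u : K} (hW : W.FG) (hu : ∀ w ∈ W, w / u ∈ S.O)
    (hZ : ∀ w, w ∈ Z ↔ w ∈ W ∧ S.ev (w / u) = 0) :
    Module.finrank k (S.img W u) + Module.finrank k Z = Module.finrank k W := by
  have : Module.Finite k W := Module.Finite.iff_fg.2 hW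
  let φ : W →ₗ[k] K' :=
    { toFun := fun w => S.ev (w / u)
      map_add' := fun a b => by
        rw [Submodule.coe_add, add_div, S.ev_add (hu _ a.2) (hu _ b.2)]
      map_smul' := fun c a => by
        rw [Submodule.coe_smul, Algebra.smul_def, mul_div_assoc,
          S.ev_mul (S.specL_base c) (hu _ a.2), hlin, RingHom.id_apply, Algebra.smul_def] }
  have h1 : LinearMap.range φ = S.img W u := by
    refine le_antisymm ?_ (S.specL_img_le fun w hw => ⟨⟨w, hw⟩, rfl⟩)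
    rintro _ ⟨w, rfl⟩
    exact S.specL_mem_img w.2 u
  have hle : Z ≤ W := fun w hw => ((hZ w).1 hw).1
  have h2 : LinearMap.ker φ = Z.comap W.subtype := by
    ext w
    rw [LinearMap.mem_ker, Submodule.mem_comap, subtype_apply, hZ]
    exact ⟨fun h => ⟨w.2, h⟩, fun h => h.2⟩
  rw [← h1, ← (comapSubtypeEquivOfLe hle).finrank_eq, ← h2]
  exact LinearMap.finrank_range_add_finrank_ker φ

/-- `Q` is the ideal of the subvariety; the twisted quotient `N / Q` lives on the subvariety -/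
theorem Over.bridge (h : S.Over V s V') (hV : Mdl V)
    (hlin : ∀ c, S.ev (algebraMap k K c) = algebraMap k K' c) {N Q : ℕ → Submodule k K}
    (hQ : ∀ᶠ n in atTop, ∀ w, w ∈ Q n ↔ w ∈ V ^ n ∧ S.ev (w / s ^ n) = 0) (hN : Fg V N)
    (h1 : Q ≤ᶠ[atTop] N) (h2 : N ≤ᶠ[atTop] pw V) (D : Pic V) :
    hq V N D - hq V Q D = hq V' (fun n => S.img (N n) (s ^ n)) (h.rho D) := by
  have hV' := h.mdl hV
  have hs := h.1.1
  have hO : ∀ n, ∀ w ∈ V ^ n, w / s ^ n ∈ S.O := fun n => (h.1.pow n).2.1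
  have famQ : Fam V Q := by
    filter_upwards [hQ, (tendsto_add_atTop_nat 1).eventually hQ] with n a1 a2
    refine smul_le.2 fun v hv w hw => (a2 _).2 ?_
    obtain ⟨b1, b2⟩ := (a1 w).1 hw
    rw [smul_eq_mul, pow_succ', pow_succ', mul_div_mul_comm, S.ev_mul (h.1.2.1 v hv) (hO n w b1),
      b2, mul_zero]
    exact ⟨mul_mem_mul hv b1, rfl⟩
  have fgQ : Fg V Q := Fg.of_le hV.1 hN famQ h1
  have hD := rep_rp D.out
  set U := (rp D.out).1
  set a := (rp D.out).2
  obtain ⟨u, -, hu⟩ := h.exists_triv hD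
  obtain ⟨D', hD', e⟩ := h.rho_spec hD hu
  rw [cl_out] at e
  have hUfg := hD.fg hV
  obtain ⟨U', m, em⟩ := hD.exists_inv
  have hc := specL_compl (U' := U') hu (pow_ne_zero m hs) (by rw [em]; exact hO m)
  have hUV : ∀ n, ∀ w ∈ U * V ^ n, w / (u * s ^ n) ∈ S.O := fun n => (hu.mul (h.1.pow n)).2.1
  let Z : ℕ → Submodule k K := fun n => specL_ker S (U * V ^ n) (u * s ^ n) (hUV n)
  have famZ : Fam V Z := by
    refine Eventually.of_forall fun n => smul_le.2 fun v hv w hw => ?_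
    have e1 : U * V ^ (n + 1) = V * (U * V ^ n) := by ring
    have e2 : u * s ^ (n + 1) = s * (u * s ^ n) := by ring
    refine ⟨e1 ▸ mul_mem_mul hv hw.1, ?_⟩
    rw [smul_eq_mul, e2, mul_div_mul_comm, S.ev_mul (h.1.2.1 v hv) (hUV n w hw.1), hw.2, mul_zero]
  have fgUN : Fg V (fun n => U • N n) := hN.smul hUfg
  have fgK : Fg V (fun n => U • N n ⊓ Z n) := fgUN.inf hV.1 famZ
  have hKQ : (fun n => U • N n ⊓ Z n) ≤ᶠ[atTop] fun n => U • Q n := by
    refine Fg.le_of_mem hV.1 fgK (fgQ.smul hUfg).fam ?_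
    filter_upwards [(tendsto_add_atTop_nat m).eventually hQ] with n a1 w hw
    refine ⟨m, fun v hv => ?_⟩
    rw [← em] at hv
    induction hv using Submodule.mul_induction_on' with
    | mem_mul_mem x hx y hy =>
      change x * y * w ∈ U * Q (n + m)
      rw [mul_assoc]
      refine mul_mem_mul hx ((a1 _).2 ⟨?_, ?_⟩)
      · have e1 : V ^ (n + m) = U' * (U * V ^ n) := by rw [pow_add, ← em]; ring
        exact e1 ▸ mul_mem_mul hy hw.2.1
      · have hu0 := hu.1
        have e2 : y * w / s ^ (n + m) = y / (s ^ m / u) * (w / (u * s ^ n)) := by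
          rw [pow_add]; field_simp
        rw [e2, S.ev_mul (hc y hy) (hUV n w hw.2.1), hw.2.2, mul_zero]
    | add x _ y _ hx hy => rw [add_smul]; exact add_mem hx hy
  have key : ∀ᶠ n in atTop, Module.finrank k ↥(S.img U u • S.img (N n) (s ^ n)) +
      Module.finrank k ↥(U • Q n) = Module.finrank k ↥(U • N n) := by
    filter_upwards [hKQ, hQ, h1, h2, fgUN] with n a1 a2 a3 a4 a5
    have b1 : U * N n ≤ U * V ^ n := mul_le_mul_right a4 U
    have b2 : ∀ w ∈ N n, w / s ^ n ∈ S.O := fun w hw => hO n w (a4 hw)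
    rw [smul_eq_mul, ← S.img_mul hu.2.1 b2]
    refine specL_rank hlin a5.1 (fun w hw => hUV n w (b1 hw)) fun w => ⟨fun hw => ?_, fun hw => ?_⟩
    · have b3 : U * Q n ≤ U * N n := mul_le_mul_right a3 U
      refine ⟨b3 hw, ?_⟩
      change w ∈ U * Q n at hw
      induction hw using Submodule.mul_induction_on' with
      | mem_mul_mem x hx y hy =>
        rw [mul_div_mul_comm, S.ev_mul (hu.2.1 x hx) (b2 y (a3 hy)), ((a2 y).1 hy).2, mul_zero]
      | add x hx' y hy' hx hy =>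
        rw [add_div, S.ev_add (hUV n x (b1 (b3 hx'))) (hUV n y (b1 (b3 hy'))), hx, hy, add_zero]
    · exact a1 ⟨hw.1, b1 hw.1, hw.2⟩
  have fgI := h.fg_img hN h2
  rw [e, hq_cl hV' fgI]
  refine (hp_unique ?_).symm
  have s1 := hq_spec hV hN D.out
  have s2 := hq_spec hV fgQ D.out
  rw [cl_out] at s1 s2
  filter_upwards [s1, s2, tw_rep hN hD, tw_rep fgQ hD, tw_rep fgI hD',
    (tendsto_sub_atTop_nat a).eventually key] with n a1 a2 a3 a4 a5 a6
  rw [eval_sub, a1, a2, a3, a4, a5, ← a6]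
  push_cast
  ring

end Spec

end

end Pool.Agent.Lib.MP_62d77c_ag
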