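import Pool.Agent.Lib.MP_62d77c_ag.Hilb
import Pool.Agent.Lib.MP_62d77c_ag.GenMem
import Pool.Agent.Lib.MP_62d77c_ag.SpecL

/-! Spaces of sections. -/

set_option autoImplicit false

namespace Pool.Agent.Lib.MP_62d77c_ag

open Filter Polynomial Submodule

noncomputable section

section gen
variable {k K E : Type} [CommRing k] [Field K] [Algebra k K] [AddCommGroup E] [Module K E]
  [Module k E] [IsScalarTower k K E] {V : Submodule k K} {N N' : ℕ → Submodule k E}

theorem sec_mem_H0 {g : E} : g ∈ H0 V N ↔ ∀ᶠ m in atTop, ∀ v ∈ V ^ m, v • g ∈ N m := Iff.rfl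

theorem H0_mono (h : N ≤ᶠ[atTop] N') : H0 V N ≤ H0 V N' := by
  intro g hg
  rw [sec_mem_H0] at hg ⊢
  filter_upwards [hg, h] with m h1 h2 v hv
  exact h2 (h1 v hv)

theorem H0_congr (h : N =ᶠ[atTop] N') : H0 V N = H0 V N' :=
  le_antisymm (H0_mono h.le) (H0_mono h.symm.le)

theorem mem_H0_of_exists (hN : Fam V N) {g : E}
    (h : ∃ᶠ m in atTop, ∀ v ∈ V ^ m, v • g ∈ N m) : g ∈ H0 V N := by
  obtain ⟨n, h1, h2⟩ := (h.and_eventually hN.pow_smul).exists
  rw [sec_mem_H0]
  filter_upwards [eventually_ge_atTop n] with m hm v hv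
  obtain ⟨j, rfl⟩ := Nat.exists_eq_add_of_le hm
  rw [add_comm n j, pow_add] at hv
  induction hv using Submodule.mul_induction_on' with
  | mem_mul_mem x hx y hy => rw [mul_smul]; exact h2 j (smul_mem_smul hx (h1 y hy))
  | add x _ y _ hx hy => rw [add_smul]; exact add_mem hx hy

theorem sec_smul_mem {g : E} {j i : ℕ} (hg : g ∈ H0 V (fun m => N (m + j))) {x : K}
    (hx : x ∈ V ^ i) : x • g ∈ H0 V (fun m => N (m + (j + i))) := by
  rw [sec_mem_H0] at hg ⊢
  filter_upwards [(tendsto_add_atTop_nat i).eventually hg] with m h1 v hv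
  rw [← mul_smul, show m + (j + i) = m + i + j by ring]
  exact h1 _ (by rw [pow_add]; exact mul_mem_mul hv hx)

theorem sec_fam_H0 (N : ℕ → Submodule k E) : Fam V (fun n => H0 V (fun m => N (m + n))) :=
  Eventually.of_forall fun _ => smul_le.2 fun _ hv _ hw => sec_smul_mem hw (by rwa [pow_one])

theorem sec_inf_le [IsNoetherianRing k] (hV : V.FG) (hN : Fg V N) (hN' : Fam V N') :
    (fun n => N n ⊓ H0 V (fun m => N' (m + n))) ≤ᶠ[atTop] N' := by
  refine Fg.le_of_mem hV (hN.inf hV (sec_fam_H0 N')) hN' (Eventually.of_forall fun n w hw => ?_)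
  obtain ⟨m, hm⟩ := (sec_mem_H0.1 hw.2).exists
  exact ⟨m, fun v hv => add_comm m n ▸ hm v hv⟩

/-- a finitely generated family is saturated in large degrees -/
theorem H0_shift [IsNoetherianRing k] (hV : Mdl V) (hN : Fg V N) :
    ∀ᶠ j in atTop, H0 V (fun m => N (m + j)) = N j := by
  obtain ⟨h, hh, h0⟩ := Submodule.exists_mem_ne_zero_of_ne_bot hV.2
  let M : ℕ → Submodule k E := fun n =>
    (N (n - 1)).map ((LinearMap.lsmul K E h).restrictScalars k)
  have hM : Fam V M := ((hN.sub 1).map (LinearMap.lsmul K E h)).fam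
  obtain ⟨n0, hn0⟩ := eventually_atTop.1 (sec_inf_le hV.1 hN hM)
  filter_upwards [eventually_ge_atTop n0, hN.fam.pow_smul] with j hj hp
  refine le_antisymm (fun g hg => ?_) fun g hg => ?_
  · have step : ∀ i, h ^ (i + 1) • g ∈ N (j + (i + 1)) → h ^ i • g ∈ N (j + i) := by
      intro i hi
      have h1 : h ^ (i + 1) • g ∈ H0 V (fun m => M (m + (j + (i + 1)))) := by
        have h2 := sec_mem_H0.1 (sec_smul_mem hg (pow_mem_pow V hh i))
        rw [sec_mem_H0]
        filter_upwards [h2] with m h3 v hv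
        refine ⟨_, h3 v hv, ?_⟩
        change h • v • h ^ i • g = v • h ^ (i + 1) • g
        rw [← mul_smul, ← mul_smul, ← mul_smul, pow_succ']
        congr 1
        ring
      obtain ⟨x, hx, e⟩ := hn0 (j + (i + 1)) (by omega) ⟨hi, h1⟩
      change h • x = h ^ (i + 1) • g at e
      rw [pow_succ', mul_smul] at e
      rw [← smul_right_injective E h0 e]
      exact hx
    have down : ∀ i, h ^ i • g ∈ N (j + i) → g ∈ N j := by
      intro i
      induction i with
      | zero => intro hi; simpa using hi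
      | succ i ih => exact fun hi => ih (step i hi)
    obtain ⟨m, hm⟩ := (sec_mem_H0.1 hg).exists
    exact down m (add_comm m j ▸ hm _ (pow_mem_pow V hh m))
  · exact sec_mem_H0.2 (Eventually.of_forall fun m v hv =>
      add_comm j m ▸ hp m (smul_mem_smul hv hg))

theorem sec_pow_smul_le [IsNoetherianRing k] (hV : Mdl V) (hN : Fg V N) :
    ∀ᶠ j in atTop, V ^ j • H0 V N ≤ N j := by
  filter_upwards [H0_shift hV hN] with j hj
  refine smul_le.2 fun v hv g hg => ?_
  rw [← hj]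
  have := sec_smul_mem (N := N) (j := 0) hg hv
  rwa [zero_add] at this

theorem H0_fg [IsNoetherianRing k] (hV : Mdl V) (hN : Fg V N) : (H0 V N).FG := by
  obtain ⟨h, hh, h0⟩ := Submodule.exists_mem_ne_zero_of_ne_bot hV.2
  obtain ⟨j, h1, h2⟩ := ((sec_pow_smul_le hV hN).and hN).exists
  refine (h2.1.map ((LinearMap.lsmul K E (h ^ j)⁻¹).restrictScalars k)).of_le fun g hg => ?_
  refine ⟨h ^ j • g, h1 (smul_mem_smul (pow_mem_pow V hh j) hg), ?_⟩
  change (h ^ j)⁻¹ • h ^ j • g = g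
  rw [← mul_smul, inv_mul_cancel₀ (pow_ne_zero j h0), one_smul]

theorem sec_H0_map (f : Kˣ) (N : ℕ → Submodule k E) :
    H0 V (fun n => (N n).map ((LinearMap.lsmul K E (f : K)).restrictScalars k)) =
      (H0 V N).map ((LinearMap.lsmul K E (f : K)).restrictScalars k) := by
  refine le_antisymm (fun g hg => ?_) ?_
  · refine ⟨(f : K)⁻¹ • g, (sec_mem_H0 (V := V)).2 ?_, ?_⟩
    · filter_upwards [sec_mem_H0.1 hg] with m h1 v hv
      obtain ⟨x, hx, e⟩ := h1 v hv
      change (f : K) • x = v • g at e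
      rw [smul_comm, ← e, ← mul_smul, inv_mul_cancel₀ f.ne_zero, one_smul]
      exact hx
    · change (f : K) • (f : K)⁻¹ • g = g
      rw [← mul_smul, mul_inv_cancel₀ f.ne_zero, one_smul]
  · rintro _ ⟨g, hg, rfl⟩
    refine sec_mem_H0.2 ?_
    filter_upwards [sec_mem_H0.1 hg] with m h1 v hv
    exact ⟨_, h1 v hv, smul_comm (f : K) v g⟩

end gen

variable {k K : Type} [Field k] [Field K] [Algebra k K] {V U : Submodule k K}
  {N N' : ℕ → Submodule k K} {D : Car V}

theorem sec_fg_tw (hV : Mdl V) (D : Car V) : Fg V (tw D (pw V)) := (fg_pw' hV.1).tw hV D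

theorem sec_fg (hV : Mdl V) (D : Car V) : (sec D).FG := H0_fg hV (sec_fg_tw hV D)

theorem sec_map_eq (f : K) (W : Submodule k K) :
    W.map ((LinearMap.lsmul K K f).restrictScalars k) = span k {f} * W := by
  ext x
  rw [mem_span_singleton_mul]
  rfl

theorem sec_prin (hV : Mdl V) (D : Car V) (f : Kˣ) :
    sec (D * prin V f) = span k {(f : K)} * sec D := by
  rw [← sec_map_eq, sec, sec, ← sec_H0_map, mul_comm]
  exact H0_congr ((tw_mul hV (fg_pw' hV.1) _ _).trans (tw_prin (sec_fg_tw hV D) f))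

theorem sec_mem_iff {g : K} : g ∈ H0 V N ↔ ∀ᶠ m in atTop, V ^ m * span k {g} ≤ N m := by
  rw [sec_mem_H0]
  refine eventually_congr (Eventually.of_forall fun m => ⟨fun h x hx => ?_, fun h v hv => ?_⟩)
  · obtain ⟨z, hz, rfl⟩ := mem_mul_span_singleton.1 hx
    exact h z hz
  · exact h (mul_mem_mul hv (subset_span rfl))

theorem sec_mul_H0 (hV : Mdl V) (hN : Fg V N) (D : Car V) : sec D * H0 V N ≤ H0 V (tw D N) := by
  refine mul_le.2 fun g hg x hx => ?_
  have hD := rep_rp D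
  set U := (rp D).1
  set a := (rp D).2
  obtain ⟨m0, ⟨h1, h2⟩, h3⟩ := (((sec_mem_iff.1 hg).and (tw_rep (fg_pw' hV.1) hD)).and
    (eventually_ge_atTop a)).exists
  have h4 : V ^ m0 * span k {g} ≤ U * V ^ (m0 - a) := h1.trans h2.le
  rw [sec_mem_iff]
  filter_upwards [tw_rep hN hD, (tendsto_sub_atTop_nat a).eventually (sec_mem_iff.1 hx),
    eventually_ge_atTop m0] with m a1 a2 a3
  obtain ⟨j, rfl⟩ := Nat.exists_eq_add_of_le a3
  obtain ⟨i, rfl⟩ := Nat.exists_eq_add_of_le h3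
  rw [a1, ← Set.singleton_mul_singleton, ← span_mul_span]
  rw [Nat.add_sub_cancel_left] at h4
  rw [add_assoc, Nat.add_sub_cancel_left] at a2 ⊢
  calc V ^ (a + (i + j)) * (span k {g} * span k {x})
      = V ^ (a + i) * span k {g} * (V ^ j * span k {x}) := by ring
    _ ≤ U * V ^ i * (V ^ j * span k {x}) := mul_le_mul_left h4 _
    _ = U * (V ^ (i + j) * span k {x}) := by ring
    _ ≤ U * N (i + j) := mul_le_mul_right a2 _

theorem sec_mul_le (hV : Mdl V) (D D' : Car V) : sec D * sec D' ≤ sec (D * D') := by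
  refine (sec_mul_H0 hV (sec_fg_tw hV D') D).trans (le_of_eq ?_)
  exact H0_congr (tw_mul hV (fg_pw' hV.1) D D').symm

theorem Rep.le_sec (hV : Mdl V) (h : Rep D U 0) : U ≤ sec D := by
  intro g hg
  refine sec_mem_H0.2 ?_
  filter_upwards [tw_rep (fg_pw' hV.1) h] with m h1 v hv
  rw [h1]
  exact mul_mem_mul_rev hg hv

theorem sec_finrank_mul (f : Kˣ) (W : Submodule k K) :
    Module.finrank k ↥(span k {(f : K)} * W) = Module.finrank k W := by
  rw [← sec_map_eq]
  exact (equivMapOfInjective _ (fun x y e => smul_right_injective K f.ne_zero e) W).finrank_eq.symm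

theorem h0_cl (hV : Mdl V) (D : Car V) : h0 V (cl D) = Module.finrank k (sec D) := by
  obtain ⟨f, e⟩ := exists_out D
  rw [h0, e, sec_prin hV, sec_finrank_mul]

theorem sec_cancel (f : Kˣ) {W W' : Submodule k K}
    (h : span k {(f : K)} * W = span k {(f : K)} * W') : W = W' := by
  have e : span k {(f : K)⁻¹} * span k {(f : K)} = 1 := by
    rw [span_mul_span, Set.singleton_mul_singleton, inv_mul_cancel₀ f.ne_zero, one_eq_span]
  rw [← one_mul W, ← one_mul W', ← e, mul_assoc, mul_assoc, h]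

theorem mulOK_cl (hV : Mdl V) (D : Car V) : MulOK V (cl D) ↔ V * sec D = sec (D * Lc V) := by
  obtain ⟨f, e⟩ := exists_out D
  rw [MulOK, e, mul_right_comm, sec_prin hV, sec_prin hV, mul_left_comm]
  exact ⟨sec_cancel f, fun h => by rw [h]⟩

theorem sec_L_pow (hV : Mdl V) (D : Car V) :
    ∀ᶠ j in atTop, sec (D * Lc V ^ j) = tw D (pw V) j := by
  filter_upwards [H0_shift hV (sec_fg_tw hV D)] with j hj
  rw [← hj, sec, mul_comm]
  exact H0_congr ((tw_mul hV (fg_pw' hV.1) _ _).trans (tw_L (sec_fg_tw hV D) j))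

theorem h0_eventually (hV : Mdl V) (D : Pic V) :
    ∀ᶠ j : ℕ in atTop, (h0 V (D * Lp V ^ j) : ℚ) = (PP V D).eval (j : ℚ) := by
  filter_upwards [sec_L_pow hV D.out, hq_spec hV (fg_pw' hV.1) D.out] with j h1 h2
  have e : D * Lp V ^ j = cl (D.out * Lc V ^ j) := by rw [map_mul, map_pow, cl_out, Lp]
  rw [cl_out] at h2
  rw [e, h0_cl hV, h1]
  exact h2.symm

theorem mul_H0_le (hV : Mdl V) (hN : Fg V N) (h : Rep D U 0) : U * H0 V N ≤ H0 V (tw D N) :=
  (mul_le_mul_left (h.le_sec hV) _).trans (sec_mul_H0 hV hN D)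

theorem sat_H0 (hV : Mdl V) (hN : Fg V N) (h : Rep D U 0) : Sat U (H0 V N) (H0 V (tw D N)) := by
  rintro g ⟨m, hm⟩
  obtain ⟨U', c, e⟩ := h.exists_inv
  have ev : ∀ᶠ M in atTop, V ^ (M + c) * span k {g} ≤ N (M + c) := by
    filter_upwards [sec_pow_smul_le hV (hN.tw hV D), tw_rep hN h, hN.fam.pow_smul,
      eventually_ge_atTop (c * m)] with M a1 a2 a3 a4
    obtain ⟨j, rfl⟩ := Nat.exists_eq_add_of_le a4
    rw [a2, Nat.sub_zero] at a1
    have e1 : V ^ (c * m) = U ^ m * U' ^ m := by rw [pow_mul, ← e, mul_pow]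
    calc V ^ (c * m + j + c) * span k {g}
        = U' ^ (m + 1) * V ^ j * (U ^ (m + 1) * span k {g}) := by
          rw [pow_add, pow_add, e1, ← e]; ring
      _ ≤ U' ^ (m + 1) * V ^ j * (U ^ m * H0 V (tw D N)) := mul_le_mul_right hm _
      _ = U' * (V ^ (c * m + j) * H0 V (tw D N)) := by rw [pow_add V, e1]; ring
      _ ≤ U' * (U * N (c * m + j)) := mul_le_mul_right a1 _
      _ = V ^ c * N (c * m + j) := by rw [← e]; ring
      _ ≤ N (c * m + j + c) := a3 c
  obtain ⟨n0, hn0⟩ := eventually_atTop.1 ev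
  refine sec_mem_iff.2 (eventually_atTop.2 ⟨n0 + c, fun n hn => ?_⟩)
  have := hn0 (n - c) (by omega)
  rwa [Nat.sub_add_cancel (by omega)] at this

/-- multiplication by a generic section is injective on quotients -/
theorem H0_mon (hV : Mdl V) (hN : Fg V N) (hN' : Fg V N') (hle : N' ≤ᶠ[atTop] N) (h : Rep D U 0) :
    Module.finrank k (H0 V N) + Module.finrank k (H0 V (tw D N')) ≤
      Module.finrank k (H0 V (tw D N)) + Module.finrank k (H0 V N') := by
  have f1 := H0_fg hV (hN.tw hV D)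
  have f2 := H0_fg hV (hN'.tw hV D)
  rcases gen_member U (h.fg hV) (h.ne_bot hV) with H | ⟨k', K', _, _, _, S, hS, H1, H2⟩
  · rw [H _ _ f1 (mul_H0_le hV hN h) (sat_H0 hV hN h),
      H _ _ f2 (mul_H0_le hV hN' h) (sat_H0 hV hN' h)]
  · have a1 := H1 _ _ f1 (mul_H0_le hV hN h)
    have a2 := H2 _ _ f2 (mul_H0_le hV hN' h) (sat_H0 hV hN' h)
    have : Module.Finite k' (S.img (H0 V (tw D N)) 1) :=
      Module.Finite.iff_fg.2 (S.img_fg f1 fun w _ => by rw [hS]; trivial)
    have a3 := Submodule.finrank_mono (S.img_mono (H0_mono (V := V) (tw_mono D hle)) 1)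
    omega

/-- a section of `D / D'` embeds `D'` into `D` -/
theorem exists_le_of_h0 (hV : Mdl V) (D : Car V) (E : Pic V) (h : 0 < h0 V (cl D / E)) :
    ∃ D' : Car V, cl D' = E ∧ tw D' (pw V) ≤ᶠ[atTop] tw D (pw V) := by
  have e : cl D / E = cl (D / E.out) := by rw [_root_.map_div, cl_out]
  rw [e, h0_cl hV] at h
  have hne : sec (D / E.out) ≠ ⊥ := fun e => by rw [e, finrank_bot] at h; exact lt_irrefl _ h
  obtain ⟨f, hf, h0⟩ := Submodule.exists_mem_ne_zero_of_ne_bot hne
  refine ⟨E.out * prin V (Units.mk0 f h0), ?_, ?_⟩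
  · rw [← cl_eq_iff.2 ⟨_, rfl⟩, cl_out]
  · filter_upwards [sec_L_pow hV D, sec_L_pow hV (E.out * prin V (Units.mk0 f h0))] with j a1 a2
    rw [← a1, ← a2, mul_right_comm, sec_prin hV]
    refine (mul_le_mul_left ((span_singleton_le_iff_mem _ _).2 hf) _).trans
      ((sec_mul_le hV _ _).trans (le_of_eq ?_))
    rw [← mul_assoc, div_mul_cancel]

end

end Pool.Agent.Lib.MP_62d77c_ag
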