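import Pool.Agent.Lib.MP_62d77c_ag.Chart
import Pool.Agent.Lib.MP_62d77c_ag.Sec

/-! Invertible families and restriction maps between points. -/

set_option autoImplicit false

namespace Pool.Agent.Lib.MP_62d77c_ag

open Filter Polynomial Submodule

noncomputable section

variable {A : Type} [CommRing A] [IsDomain A] {𝒜 : ℕ → AddSubgroup A} [GradedRing 𝒜]
  [hG : Fact (Gen 𝒜)] {p : ℕ} [Fact p.Prime]

omit [IsDomain A] hG in
/-- homogeneous ideals from a condition on homogeneous elements -/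
theorem inv_exists_ideal (Q : ℕ → A → Prop) (h0 : ∀ n, Q n 0)
    (hadd : ∀ n a b, a ∈ 𝒜 n → b ∈ 𝒜 n → Q n a → Q n b → Q n (a + b))
    (hmul : ∀ n m a c, a ∈ 𝒜 n → c ∈ 𝒜 m → Q n a → Q (n + m) (a * c)) :
    ∃ I : Ideal A, I.IsHomogeneous 𝒜 ∧ ∀ n a, a ∈ 𝒜 n → (a ∈ I ↔ Q n a) := by
  have hp : ∀ n a, a ∈ 𝒜 n → Q n a → ∀ m, Q m (GradedRing.proj 𝒜 m a) := by
    intro n a ha h m
    by_cases e : n = m
    · subst e; rwa [md_proj_same ha]
    · rw [md_proj_ne ha e]; exact h0 m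
  refine ⟨{ carrier := {a | ∀ n, Q n (GradedRing.proj 𝒜 n a)}
            zero_mem' := fun n => by rw [map_zero]; exact h0 n
            add_mem' := fun {a b} ha hb n => by
              rw [map_add]; exact hadd n _ _ (md_proj_mem n a) (md_proj_mem n b) (ha n) (hb n)
            smul_mem' := fun c a ha => ?_ }, fun n a ha => ?_, fun n a ha => ⟨fun h => ?_, hp n a ha⟩⟩
  · induction c using DirectSum.Decomposition.inductionOn 𝒜 with
    | zero => intro n; rw [zero_smul, map_zero]; exact h0 n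
    | @homogeneous i c =>
      intro n
      rw [smul_eq_mul, mul_comm]
      by_cases him : i ≤ n
      · obtain ⟨j, rfl⟩ := Nat.exists_eq_add_of_le' him
        rw [md_proj_mul c.2]
        exact hmul _ _ _ _ (md_proj_mem j a) c.2 (ha j)
      · rw [md_proj_mul_lt c.2 him]; exact h0 n
    | add c d h1 h2 =>
      intro n
      rw [add_smul, map_add]
      exact hadd n _ _ (md_proj_mem n _) (md_proj_mem n _) (h1 n) (h2 n)
  · exact hp n _ (md_proj_mem n a) (ha n)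
  · have := h n
    rwa [md_proj_same ha] at this

theorem tendsto_sub_atTop_nat' (n : ℕ) : Tendsto (fun e : ℕ => e - n) atTop atTop :=
  tendsto_atTop.2 fun b => by
    filter_upwards [eventually_ge_atTop (b + n)] with e he
    omega

namespace AM
variable {k K : Type} [CommRing k] [Field K] [Algebra k K] (M : AM 𝒜 k K)

theorem GenI.genAt {J : Ideal A} {y : Pt 𝒜} (hy : M.On y) {e : ℕ} {g : A} (h : M.GenI J y e g) :
    M.GenAt (M.fam J) y e (M.θ g) := by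
  obtain ⟨h1, h2, h3, h4⟩ := h
  refine ⟨h3, Eventually.of_forall fun m v hv => ?_, Eventually.of_forall fun n w hw => ?_⟩
  · obtain ⟨c, hc, rfl⟩ := M.mem_pow.1 hv
    exact M.mem_fam.2 ⟨c * g, J.mul_mem_left _ h1, SetLike.mul_mem_graded hc h2, map_mul _ _ _⟩
  · obtain ⟨a, ha, ha', rfl⟩ := M.mem_fam.1 hw
    obtain ⟨m, l, b, hb, c, hc, hb', hml, e1⟩ := h4 n a ha ha'
    refine (M.mem_orng hy).2 ⟨l + e, c * ell y ^ e,
      SetLike.mul_mem_graded hc (md_pow_mem (ell_spec y).1 e), b * ell y ^ n,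
      hml ▸ SetLike.mul_mem_graded hb (md_pow_mem (ell_spec y).1 n),
      md_mul_not_mem hb' (md_pow_not_mem (ell_spec y).2 n), ?_⟩
    have h5 := On.ne M hy hb hb'
    have h6 := On.ell_ne M hy
    simp only [map_mul, map_pow] at e1 ⊢
    field_simp
    linear_combination e1

theorem genI_of_genAt {J : Ideal A} {y : Pt 𝒜} (hy : M.On y) {e : ℕ} {g : A} (hg : g ∈ J)
    (hg' : g ∈ 𝒜 e) (h : M.GenAt (M.fam J) y e (M.θ g)) : M.GenI J y e g := by
  obtain ⟨h1, -, h3⟩ := h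
  refine ⟨hg, hg', h1, fun n a ha ha' => ?_⟩
  obtain ⟨j, hj⟩ := ((tendsto_add_atTop_nat n).eventually h3).exists
  have h4 := hj (M.θ (ell y ^ j * a)) (M.mem_fam.2 ⟨_, J.mul_mem_left _ ha,
    SetLike.mul_mem_graded (md_pow_mem (ell_spec y).1 j) ha', rfl⟩)
  obtain ⟨m, c, hc, b, hb, hb', e1⟩ := (M.mem_orng hy).1 h4
  refine ⟨m + e, m + n, b * ell y ^ e, SetLike.mul_mem_graded hb (md_pow_mem (ell_spec y).1 e),
    c * ell y ^ n, SetLike.mul_mem_graded hc (md_pow_mem (ell_spec y).1 n),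
    md_mul_not_mem hb' (md_pow_not_mem (ell_spec y).2 e), by ring, ?_⟩
  have h5 := On.ne M hy hb hb'
  have h6 := On.ell_ne M hy
  simp only [map_mul, map_pow, pow_add] at e1 ⊢
  field_simp at e1
  linear_combination e1

theorem genI_of_not_mem {J : Ideal A} {y : Pt 𝒜} (hy : M.On y) {e : ℕ} {g : A} (hg : g ∈ J)
    (hg' : g ∈ 𝒜 e) (h : g ∉ pr y) : M.GenI J y e g := ⟨hg, hg', On.ne M hy hg' h, fun n a _ ha' => ⟨e, n, g, hg', a, ha', h, add_comm _ _, by rw [mul_comm]⟩⟩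

theorem GenI.mono {J : Ideal A} {y y' : Pt 𝒜} {e : ℕ} {g : A} (h : M.GenI J y e g)
    (hy : pr y' ≤ pr y) : M.GenI J y' e g := ⟨h.1, h.2.1, h.2.2.1, fun n a ha ha' => by
  obtain ⟨m, l, b, hb, c, hc, hb', hml, e1⟩ := h.2.2.2 n a ha ha'
  exact ⟨m, l, b, hb, c, hc, fun h => hb' (hy h), hml, e1⟩⟩

theorem GenI.not_mem {J : Ideal A} (hJ : J.IsHomogeneous 𝒜) {y : Pt 𝒜} (hy : M.On y) {e : ℕ}
    {g : A} (h : M.GenI J y e g) (hn : ¬J ≤ pr y) : g ∉ pr y := by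
  intro hg
  obtain ⟨n, a, ha', ha, hna⟩ := md_exists_not_mem hJ hn
  obtain ⟨m, l, b, hb, c, hc, hb', hml, e1⟩ := h.2.2.2 n a ha ha'
  have h1 : b * a - c * g ∈ pr y := hy (m + n) _ (sub_mem (SetLike.mul_mem_graded hb ha')
    (hml ▸ SetLike.mul_mem_graded hc h.2.1)) (by rw [map_sub, e1, sub_self])
  exact md_mul_not_mem hb' hna (by simpa using add_mem h1 (Ideal.mul_mem_left _ c hg))

/-- common denominators -/
theorem inv_denom {y : Pt 𝒜} (hy : M.On y) (z : K) {U : Submodule k K} (hU : U.FG)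
    (h : ∀ u ∈ U, u * z ∈ M.orng y) :
    ∃ j, ∃ b ∈ 𝒜 j, b ∉ pr y ∧ ∀ u ∈ U, M.θ b * z * u ∈ M.V ^ j := by
  induction U, hU using Submodule.fg_induction with
  | singleton x =>
    obtain ⟨j, a, ha, b, hb, hb', e1⟩ := (M.mem_orng hy).1 (h x (Submodule.mem_span_singleton_self x))
    refine ⟨j, b, hb, hb', fun u hu => ?_⟩
    obtain ⟨c, rfl⟩ := Submodule.mem_span_singleton.1 hu
    rw [mul_smul_comm]
    refine Submodule.smul_mem _ _ ?_
    have h5 := On.ne M hy hb hb'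
    have : M.θ b * z * x = M.θ a := by
      rw [mul_assoc, mul_comm z, e1]; field_simp
    rw [this]; exact M.th_mem_pow ha
  | sup U₁ U₂ _ _ h1 h2 =>
    obtain ⟨i, a, ha, ha', g1⟩ := h1 fun u hu => h u (Submodule.mem_sup_left hu)
    obtain ⟨j, b, hb, hb', g2⟩ := h2 fun u hu => h u (Submodule.mem_sup_right hu)
    refine ⟨i + j, a * b, SetLike.mul_mem_graded ha hb, md_mul_not_mem ha' hb', fun u hu => ?_⟩
    obtain ⟨v, hv, w, hw, rfl⟩ := Submodule.mem_sup.1 hu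
    have : M.θ (a * b) * z * (v + w) = M.θ a * z * v * M.θ b + M.θ a * (M.θ b * z * w) := by
      rw [map_mul]; ring
    rw [this, pow_add]
    exact add_mem (Submodule.mul_mem_mul (g1 v hv) (M.th_mem_pow hb))
      (Submodule.mul_mem_mul (M.th_mem_pow ha) (g2 w hw))

omit hG in
theorem GenAt.congr {N N' : ℕ → Submodule k K} {y : Pt 𝒜} {e : ℕ} {g : K} (h : M.GenAt N y e g)
    (hN : N =ᶠ[atTop] N') : M.GenAt N' y e g := by
  refine ⟨h.1, ?_, ?_⟩
  · rw [← H0_congr (N := fun m => N (m + e)) ((tendsto_add_atTop_nat e).eventually hN)]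
    exact h.2.1
  · filter_upwards [h.2.2, hN] with n h1 h2
    rwa [← h2]

theorem exists_on (hV : Mdl M.V) : ∃ y, M.On y := by
  obtain ⟨I, hI, hQ⟩ := inv_exists_ideal (𝒜 := 𝒜) (fun _ a => M.θ a = 0) (fun _ => map_zero _)
    (fun _ a b _ _ h1 h2 => by rw [map_add, h1, h2, add_zero])
    (fun _ _ a c _ _ h1 => by rw [map_mul, h1, zero_mul])
  have hp : I.IsPrime := by
    refine hI.isPrime_of_homogeneous_mem_or_mem (fun h => ?_) ?_
    · have := (hQ 0 1 (SetLike.one_mem_graded 𝒜)).1 (h ▸ Submodule.mem_top)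
      simp at this
    · rintro x y ⟨i, hx⟩ ⟨j, hy⟩ hxy
      rw [hQ _ _ (SetLike.mul_mem_graded hx hy), map_mul, mul_eq_zero] at hxy
      rwa [hQ _ _ hx, hQ _ _ hy]
  rcases exists_pt hp hI with h | ⟨y, rfl⟩
  · refine absurd ?_ hV.2
    rw [eq_bot_iff]
    intro z hz
    obtain ⟨a, -, ha, rfl⟩ := M.mem_fam.1 hz
    exact (hQ 1 a ha).1 (h a ha)
  · exact ⟨y, fun n a ha h => (hQ n a ha).2 h⟩

/-- locally principal families are invertible -/
theorem exists_isCl_of_genAt {N : ℕ → Submodule k K} (hV : Mdl M.V) (hN : Fg M.V N)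
    (hne : ∃ᶠ n in atTop, N n ≠ ⊥) (h : ∀ y, M.On y → ∃ e g, M.GenAt N y e g) :
    ∃ D : Car M.V, IsCl D N := by
  have := M.noeth
  refine exists_isCl hV hN ?_
  refine ((hN.and hN.pow_smul).frequently).mono ?_
  rintro n ⟨⟨hfg, -⟩, hpow⟩
  let B : ℕ → Submodule k K := fun m => N n * (M.V ^ m / N n)
  have hle : ∀ m, B m ≤ M.V ^ m := fun m => Submodule.mul_le.2 fun u hu z hz => by
    rw [mul_comm]; exact (Submodule.mem_div_iff_forall_mul_mem.1 hz) u hu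
  have hdiv : ∀ i m, M.V ^ i * (M.V ^ m / N n) ≤ M.V ^ (i + m) / N n := fun i m =>
    Submodule.mul_le.2 fun v hv z hz => Submodule.mem_div_iff_forall_mul_mem.2 fun u hu => by
      rw [mul_assoc, pow_add]
      exact Submodule.mul_mem_mul hv ((Submodule.mem_div_iff_forall_mul_mem.1 hz) u hu)
  have hB : ∀ i m, M.V ^ i * B m ≤ B (i + m) := fun i m => by
    simp only [B]
    rw [mul_left_comm]
    exact mul_le_mul' le_rfl (hdiv i m)
  have hfam : Fam M.V B := Eventually.of_forall fun m => by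
    have := hB 1 m
    rwa [pow_one, add_comm] at this
  have hge := M.local_global (fg_pw' hV.1) hfam (Eventually.of_forall fun m w hw y hy => by
    obtain ⟨e, g, h1, h2, h3⟩ := h y hy
    have h6 := On.ell_ne M hy
    have hl : ∀ i, M.θ (ell y) ^ i ∈ M.V ^ i := fun i => by
      rw [← map_pow]; exact M.th_mem_pow (md_pow_mem (ell_spec y).1 i)
    obtain ⟨i, hi⟩ := ((tendsto_add_atTop_nat n).eventually h3).exists
    obtain ⟨j, b, hb, hb', hz⟩ := M.inv_denom hy (M.θ (ell y) ^ e / (g * M.θ (ell y) ^ n)) hfg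
      (fun u hu => by
        have := hi (M.θ (ell y) ^ i * u) (by
          rw [add_comm, hpow i]; exact Submodule.smul_mem_smul (hl i) hu)
        convert this using 1
        rw [pow_add]; field_simp)
    obtain ⟨s, hs⟩ := ((tendsto_add_atTop_nat n).eventually h2).exists
    have h7 : M.θ (ell y) ^ (s + n) * g ∈ M.V ^ (s + e) * N n := by
      have : _ ∈ N (s + n + e) := hs _ (hl (s + n))
      rwa [show s + n + e = n + (s + e) by ring, hpow] at this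
    refine ⟨s + e + j, ell y ^ (s + e) * b,
      SetLike.mul_mem_graded (md_pow_mem (ell_spec y).1 _) hb,
      md_mul_not_mem (md_pow_not_mem (ell_spec y).2 _) hb', ?_⟩
    have h8 : M.θ (ell y ^ (s + e) * b) ∈ B (s + e + j) := by
      refine hB (s + e) j ?_
      simp only [B]
      rw [← mul_assoc]
      have := Submodule.mul_mem_mul h7 (Submodule.mem_div_iff_forall_mul_mem.2 hz)
      convert this using 1
      rw [map_mul, map_pow, pow_add, pow_add]; field_simp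
    rw [smul_eq_mul, mul_comm]
    exact hB m _ (Submodule.mul_mem_mul hw h8))
  obtain ⟨m, hm⟩ := hge.exists
  exact ⟨_, m, le_antisymm (hle m) hm⟩

theorem LP.exists_isCl {J : Ideal A} (h : M.LP J) {y : Pt 𝒜} (hy : M.On y) :
    ∃ D : Car M.V, IsCl D (M.fam J) := by
  refine M.exists_isCl_of_genAt (M.mdl hy) (M.fg_fam J) ?_ fun z hz => ?_
  · obtain ⟨e, g, hg⟩ := h y hy
    refine Eventually.frequently ?_
    filter_upwards [eventually_ge_atTop e] with n hn hb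
    obtain ⟨j, rfl⟩ := Nat.exists_eq_add_of_le' hn
    have : M.θ (ell y ^ j * g) ∈ M.fam J (j + e) := M.mem_fam.2 ⟨_, J.mul_mem_left _ hg.1,
      SetLike.mul_mem_graded (md_pow_mem (ell_spec y).1 j) hg.2.1, rfl⟩
    rw [hb, Submodule.mem_bot, map_mul, map_pow] at this
    exact mul_ne_zero (pow_ne_zero _ (On.ell_ne M hy)) hg.2.2.1 this
  · obtain ⟨e, g, hg⟩ := h z hz
    exact ⟨e, _, GenI.genAt M hz hg⟩

theorem inv_gen_one {U U' : Submodule k K} {m : ℕ} (h : U * U' = M.V ^ m) {y : Pt 𝒜}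
    (hy : M.On y) : ∃ u ∈ U, ∃ u' ∈ U', ∃ c ∈ 𝒜 m, c ∉ pr y ∧ u * u' = M.θ c := by
  by_contra hc
  push Not at hc
  have h1 : U * U' ≤ M.fam (pr y) m := Submodule.mul_le.2 fun u hu u' hu' => by
    obtain ⟨c, hc', e⟩ := M.mem_pow.1 (h ▸ Submodule.mul_mem_mul hu hu')
    by_cases h2 : c ∈ pr y
    · exact M.mem_fam.2 ⟨c, h2, hc', e⟩
    · exact absurd e.symm (hc u hu u' hu' c hc' h2)
  rw [h] at h1
  obtain ⟨c, h2, h3, e⟩ := M.mem_fam.1 (h1 (M.th_mem_pow (md_pow_mem (ell_spec y).1 m)))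
  have := hy m _ (sub_mem (md_pow_mem (ell_spec y).1 m) h3) (by rw [map_sub, e, sub_self])
  exact md_pow_not_mem (ell_spec y).2 m (by simpa using add_mem this h2)

theorem inv_gen {U U' : Submodule k K} {m : ℕ} (h : U * U' = M.V ^ m) (Z : Finset (Pt 𝒜))
    (hZ : ∀ y ∈ Z, M.On y) : ∀ᶠ j in atTop, ∃ g ∈ M.V ^ j * U, ∀ y ∈ Z,
      ∃ u' ∈ U', ∃ c ∈ 𝒜 (j + m), c ∉ pr y ∧ g * u' = M.θ c := by
  obtain ⟨Z', hs, hZ', hc⟩ := md_exists_max Z
  have h1 := fun y hy => M.inv_gen_one h (hZ y (hs hy))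
  choose! u hu u' hu' c hc1 hc2 hc3 using h1
  have h2 : ∀ x ∈ Z', ∀ y ∈ Z', ∃ a ∈ 𝒜 m, M.θ a = u x * u' y ∧ (x = y → a ∉ pr y) := by
    intro x hx y hy
    by_cases e : x = y
    · subst e; exact ⟨c x, hc1 x hx, (hc3 x hx).symm, fun _ => hc2 x hx⟩
    · obtain ⟨a, ha, e'⟩ := M.mem_pow.1 (h ▸ Submodule.mul_mem_mul (hu x hx) (hu' y hy))
      exact ⟨a, ha, e', fun h => absurd h e⟩
  choose! a ha1 ha2 ha3 using h2
  have := (Finset.eventually_all Z').2 fun y hy => md_sep Z' hZ' (Ideal.IsHomogeneous.top 𝒜) y hy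
    fun hle => md_one_not_mem y (hle Submodule.mem_top)
  filter_upwards [this] with j hj
  choose! b _ h2 h3 h4 using hj
  refine ⟨∑ x ∈ Z', M.θ (b x) * u x, sum_mem fun x hx =>
    Submodule.mul_mem_mul (M.th_mem_pow (h2 x hx)) (hu x hx), fun y hy => ?_⟩
  obtain ⟨z, hz, hle⟩ := hc y hy
  refine ⟨u' z, hu' z hz, ∑ x ∈ Z', b x * a x z,
    sum_mem fun x hx => SetLike.mul_mem_graded (h2 x hx) (ha1 x hx z hz), fun hm => ?_, ?_⟩
  · exact md_sum_not_mem Z' (fun x => b x * a x z) z hz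
      (md_mul_not_mem (h3 z hz) (ha3 z hz z hz rfl))
      (fun x hx hne => Ideal.mul_mem_right _ _ (h4 x hx z hz hne.symm)) (hle hm)
  · rw [Finset.sum_mul, map_sum]
    exact Finset.sum_congr rfl fun x hx => by rw [map_mul, ha2 x hx z hz, mul_assoc]

/-- moving lemma -/
theorem exists_genAt {N : ℕ → Submodule k K} {D : Car M.V} (hV : Mdl M.V) (h : IsCl D N)
    (Z : Finset (Pt 𝒜)) (hZ : ∀ y ∈ Z, M.On y) :
    ∀ᶠ e in atTop, ∃ g ∈ N e, ∀ y ∈ Z, M.GenAt N y e g := by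
  have := M.noeth
  have hN := h.fg hV
  obtain ⟨n, hrep, hpow⟩ := ((h.rep hV).and hN.pow_smul).exists
  obtain ⟨U', m, hU⟩ := hrep.exists_inv
  have h1 := (tendsto_sub_atTop_nat' n).eventually (M.inv_gen hU Z hZ)
  filter_upwards [h1, eventually_ge_atTop n] with e he hn
  obtain ⟨j, rfl⟩ := Nat.exists_eq_add_of_le hn
  rw [Nat.add_sub_cancel_left] at he
  obtain ⟨g, hg, hy⟩ := he
  refine ⟨g, by rw [hpow]; exact hg, fun y hy' => ?_⟩
  obtain ⟨u', hu', c, hc, hc', e1⟩ := hy y hy'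
  have h5 := On.ne M (hZ y hy') hc hc'
  have h6 := On.ell_ne M (hZ y hy')
  have hg0 : g ≠ 0 := fun e => h5 (by rw [← e1, e, zero_mul])
  have hu0 : u' ≠ 0 := fun e => h5 (by rw [← e1, e, mul_zero])
  refine ⟨hg0, Eventually.of_forall fun i v hv => ?_, ?_⟩
  · change v * g ∈ N (i + (n + j))
    rw [show i + (n + j) = n + (i + j) by ring, hpow, pow_add, smul_eq_mul, mul_assoc]
    exact Submodule.mul_mem_mul hv hg
  · filter_upwards [eventually_ge_atTop n] with n' hn' w hw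
    obtain ⟨i, rfl⟩ := Nat.exists_eq_add_of_le hn'
    rw [hpow] at hw
    have h7 : w * u' ∈ M.V ^ (i + m) := by
      rw [pow_add, ← hU, ← mul_assoc]; exact Submodule.mul_mem_mul hw hu'
    obtain ⟨a, ha, e2⟩ := M.mem_pow.1 h7
    refine (M.mem_orng (hZ y hy')).2 ⟨i + m + (n + j), a * ell y ^ (n + j),
      SetLike.mul_mem_graded ha (md_pow_mem (ell_spec y).1 _), c * ell y ^ (n + i), ?_,
      md_mul_not_mem hc' (md_pow_not_mem (ell_spec y).2 _), ?_⟩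
    · rw [show i + m + (n + j) = j + m + (n + i) by ring]
      exact SetLike.mul_mem_graded hc (md_pow_mem (ell_spec y).1 _)
    · rw [map_mul, map_mul, map_pow, map_pow, e2, ← e1]
      field_simp

theorem exists_genI {J : Ideal A} (h : M.LP J) (Z : Finset (Pt 𝒜)) (hZ : ∀ y ∈ Z, M.On y) :
    ∀ᶠ e in atTop, ∃ g, ∀ y ∈ Z, M.GenI J y e g := by
  rcases Z.eq_empty_or_nonempty with rfl | ⟨y₀, h0⟩
  · exact Eventually.of_forall fun _ => ⟨0, by simp⟩
  · obtain ⟨D, hD⟩ := LP.exists_isCl M h (hZ y₀ h0)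
    filter_upwards [M.exists_genAt (M.mdl (hZ y₀ h0)) hD Z hZ] with e ⟨g, hg, h1⟩
    obtain ⟨a, ha, ha', rfl⟩ := M.mem_fam.1 hg
    exact ⟨a, fun y hy => M.genI_of_genAt (hZ y hy) ha ha' (h1 y hy)⟩

theorem tw_fam {J J' : Ideal A} (hJ : J.IsHomogeneous 𝒜) (hJ' : J'.IsHomogeneous 𝒜)
    {D : Car M.V} (hV : Mdl M.V) (h : IsCl D (M.fam J)) :
    tw D (M.fam J') =ᶠ[atTop] M.fam (J * J') := by
  have := M.noeth
  obtain ⟨n, hrep, hpow⟩ := ((h.rep hV).and (M.fg_fam J).pow_smul).exists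
  have h1 := tw_rep (M.fg_fam J') hrep
  have hmul : ∀ i j, M.V ^ i * M.fam J' j ≤ M.fam J' (i + j) := fun i j =>
    Submodule.mul_le.2 fun v hv w hw => by
      obtain ⟨c, hc, rfl⟩ := M.mem_pow.1 hv
      obtain ⟨a, ha, ha', rfl⟩ := M.mem_fam.1 hw
      exact M.mem_fam.2 ⟨c * a, J'.mul_mem_left _ ha, SetLike.mul_mem_graded hc ha', map_mul _ _ _⟩
  obtain ⟨I, hI, hQ⟩ := inv_exists_ideal (𝒜 := 𝒜)
    (fun i a => ∀ v ∈ M.V ^ n, v * M.θ a ∈ M.fam J n * M.fam J' i) (fun _ v _ => by simp)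
    (fun _ a b _ _ h1 h2 v hv => by rw [map_add, mul_add]; exact add_mem (h1 v hv) (h2 v hv))
    (fun i j a c _ hc h1 v hv => by
      have h2 : M.V ^ j * (M.fam J n * M.fam J' i) ≤ M.fam J n * M.fam J' (i + j) := by
        rw [mul_left_comm, add_comm]
        exact mul_le_mul' le_rfl (hmul j i)
      have h3 := h2 (Submodule.mul_mem_mul (M.th_mem_pow hc) (h1 v hv))
      rw [map_mul, ← mul_assoc, mul_comm _ (M.θ c)]
      exact h3)
  have hle : J * J' ≤ I := by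
    refine Ideal.mul_le.2 fun r hr s hs => ?_
    have : J ≤ I.colon {s} := md_le_of_hom hJ fun i a ha ha' => by
      have : J' ≤ I.colon {a} := md_le_of_hom hJ' fun j b hb hb' => by
        rw [Submodule.mem_colon_singleton, smul_eq_mul, mul_comm,
          hQ _ _ (SetLike.mul_mem_graded ha hb)]
        intro v hv
        have h2 : M.fam J (n + i) * M.fam J' j ≤ M.fam J n * M.fam J' (i + j) := by
          rw [hpow, smul_eq_mul, mul_comm (M.V ^ i), mul_assoc]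
          exact mul_le_mul' le_rfl (hmul i j)
        rw [map_mul, ← mul_assoc]
        refine h2 (Submodule.mul_mem_mul ?_ (M.mem_fam.2 ⟨b, hb', hb, rfl⟩))
        obtain ⟨c, hc, rfl⟩ := M.mem_pow.1 hv
        exact M.mem_fam.2 ⟨c * a, J.mul_mem_left _ ha', SetLike.mul_mem_graded hc ha, map_mul _ _ _⟩
      have := this hs
      rw [Submodule.mem_colon_singleton, smul_eq_mul] at this ⊢
      rwa [mul_comm]
    simpa using this hr
  have h2 : M.fam (J * J') ≤ᶠ[atTop] fun i => M.fam J n • M.fam J' (i - n) := by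
    refine Fg.le_of_mem hV.1 (M.fg_fam _) (((M.fg_fam J').sub n).smul (hrep.fg hV)).fam
      (Eventually.of_forall fun i w hw => ⟨n, fun v hv => ?_⟩)
    obtain ⟨a, ha, ha', rfl⟩ := M.mem_fam.1 hw
    rw [Nat.add_sub_cancel]
    exact (hQ i a ha').1 (hle ha) v hv
  filter_upwards [h1, h2, eventually_ge_atTop n] with i g1 g2 hi
  rw [g1]
  refine le_antisymm (Submodule.smul_le.2 fun v hv w hw => ?_) g2
  obtain ⟨c, hc, hc', rfl⟩ := M.mem_fam.1 hv
  obtain ⟨a, ha, ha', rfl⟩ := M.mem_fam.1 hw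
  refine M.mem_fam.2 ⟨c * a, Ideal.mul_mem_mul hc ha, ?_, map_mul _ _ _⟩
  have := SetLike.mul_mem_graded hc' ha'
  rwa [Nat.add_sub_cancel' hi] at this

/-- every class is, up to the hyperplane class, an ideal avoiding finitely many given points -/
theorem exists_ideal {I : Ideal A} (hI : I.IsHomogeneous 𝒜)
    (hker : ∀ n, ∀ a ∈ 𝒜 n, a ∈ I → M.θ a = 0) (hV : Mdl M.V) (E : Pic M.V)
    (Z : Finset (Pt 𝒜)) (hZ : ∀ y ∈ Z, M.On y) :
    ∀ᶠ c in atTop, ∃ (𝔞 : Ideal A) (D : Car M.V), 𝔞.IsHomogeneous 𝒜 ∧ I ≤ 𝔞 ∧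
      IsCl D (M.fam 𝔞) ∧ cl D * Lp M.V ^ c = E ∧ M.LP 𝔞 ∧ ∀ y ∈ Z, ¬𝔞 ≤ pr y := by
  classical
  have := M.noeth
  obtain ⟨y₀, h0⟩ := M.exists_on hV
  have hrep := rep_rp E.out
  set U' := (rp E.out).1
  set t := (rp E.out).2
  obtain ⟨W, m, hW⟩ := hrep.exists_inv
  have h1 := ((tendsto_sub_atTop_nat' m).comp (tendsto_add_atTop_nat t)).eventually
    (M.inv_gen ((mul_comm _ _).trans hW) (insert y₀ Z) (by
      intro y hy
      rcases Finset.mem_insert.1 hy with rfl | hy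
      exacts [h0, hZ y hy]))
  filter_upwards [h1, eventually_ge_atTop m] with c ⟨g, hg, hy⟩ hc
  simp only [Function.comp] at hg hy
  have hj : c + t - m + m = c + t := by omega
  rw [hj] at hy
  have hg0 : g ≠ 0 := by
    obtain ⟨u', -, a, ha, ha', e⟩ := hy y₀ (Finset.mem_insert_self _ _)
    exact fun e' => On.ne M h0 ha ha' (by rw [← e, e', zero_mul])
  let D : Car M.V := prin M.V (Units.mk0 g hg0) * E.out * (Lc M.V ^ c)⁻¹
  have hD : Rep D (span k {g} * U') (c + t) := by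
    obtain ⟨D', hD'⟩ := exists_car (V := M.V) (U := span k {g} * U') (U' := span k {g⁻¹} * W)
      (m := m) (by
        rw [mul_mul_mul_comm, hW, Submodule.span_mul_span, Set.singleton_mul_singleton,
          mul_inv_cancel₀ hg0, ← Submodule.one_eq_span, one_mul]) (c + t)
    have h2 := hD'.mul_L.unique (by simpa using (rep_prin (Units.mk0 g hg0)).mul hrep.mul_L)
    have : D = D' := by
      simp only [D]
      rw [mul_inv_eq_iff_eq_mul, ← mul_left_inj (Lc M.V ^ t), mul_assoc D', ← pow_add, h2, mul_assoc]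
    rwa [this]
  have hgU : span k {g} * U' ≤ M.V ^ (c + t) := by
    rw [← hj, pow_add, ← hW, mul_comm U' W, ← mul_assoc]
    exact mul_le_mul' ((Submodule.span_singleton_le_iff_mem _ _).2 hg) le_rfl
  have hB := tw_rep (fg_pw' hV.1) hD
  have hBfg : Fg M.V (tw D (pw M.V)) := (fg_pw' hV.1).tw hV D
  obtain ⟨𝔞, h𝔞, hQ⟩ := inv_exists_ideal (𝒜 := 𝒜)
    (fun n a => M.θ a ∈ H0 M.V fun i => tw D (pw M.V) (i + n)) (fun _ => by simp)
    (fun _ a b _ _ h1 h2 => by rw [map_add]; exact add_mem h1 h2)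
    (fun n j a b _ hb h1 => by
      filter_upwards [(tendsto_add_atTop_nat j).eventually h1] with i hi v hv
      have := hi (v * M.θ b) (by rw [pow_add]; exact Submodule.mul_mem_mul hv (M.th_mem_pow hb))
      rw [show i + (n + j) = i + j + n by ring]
      convert this using 1
      simp only [smul_eq_mul, map_mul]; ring)
  have hcl : IsCl D (M.fam 𝔞) := by
    filter_upwards [H0_shift hV hBfg, hB, eventually_ge_atTop (c + t)] with n g1 g2 hn
    refine le_antisymm (fun w hw => ?_) fun w hw => ?_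
    · have : w ∈ M.V ^ n := by
        rw [g2] at hw
        rw [← Nat.add_sub_cancel' hn, pow_add]
        exact (mul_le_mul' hgU le_rfl : span k {g} * U' * M.V ^ (n - (c + t)) ≤ _) hw
      obtain ⟨a, ha, rfl⟩ := M.mem_pow.1 this
      exact M.mem_fam.2 ⟨a, (hQ n a ha).2 (g1 ▸ hw), ha, rfl⟩
    · obtain ⟨a, ha, ha', rfl⟩ := M.mem_fam.1 hw
      exact g1 ▸ (hQ n a ha').1 ha
  refine ⟨𝔞, D, h𝔞, md_le_of_hom hI fun n a ha ha' => (hQ n a ha).2 ?_, hcl, ?_, fun y hy => ?_,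
    fun y hy' hle => ?_⟩
  · rw [hker n a ha ha']; exact zero_mem _
  · simp only [D, map_mul, map_inv, map_pow, cl_out]
    have : cl (prin M.V (Units.mk0 g hg0)) = 1 := by
      rw [← map_one (cl (V := M.V)), eq_comm, cl_eq_iff]
      exact ⟨_, (one_mul _).symm⟩
    rw [this, one_mul, Lp, inv_mul_cancel_right]
  · obtain ⟨e, w, hw, h3⟩ := (M.exists_genAt hV hcl {y} (by simpa using hy)).exists
    obtain ⟨a, ha, ha', rfl⟩ := M.mem_fam.1 hw
    exact ⟨e, a, M.genI_of_genAt hy ha ha' (h3 y (Finset.mem_singleton_self y))⟩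
  · obtain ⟨u', hu', a, ha, ha', e⟩ := hy y (Finset.mem_insert_of_mem hy')
    refine ha' (hle ((hQ _ a ha).2 ?_))
    filter_upwards [(tendsto_add_atTop_nat (c + t)).eventually hB] with i hi v hv
    rw [hi, Nat.add_sub_cancel, smul_eq_mul, smul_eq_mul, mul_comm v, ← e]
    exact Submodule.mul_mem_mul
      (Submodule.mul_mem_mul (Submodule.mem_span_singleton_self g) hu') hv

theorem exists_spec (y : Vp 𝒜 p) (h : M.On y.1) : ∃ S : Spec k K (ZMod p) (kap y.1),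
    S.O = M.orng y.1 ∧ ∀ n, ∀ a ∈ 𝒜 n, ∀ b ∈ 𝒜 n, b ∉ pr y.1 →
      S.ev (M.θ a / M.θ b) = th y.1 a / th y.1 b := by
  have hne : ∀ {n : ℕ} {b : A}, b ∈ 𝒜 n → b ∉ pr y.1 → th y.1 b ≠ 0 :=
    fun hb hb' e => hb' ((th_eq_zero y.1 hb).1 e)
  have h1 : ∀ z : M.orng y.1, ∃ w : kap y.1, ∀ n a b, a ∈ 𝒜 n → b ∈ 𝒜 n → b ∉ pr y.1 →
      z.1 = M.θ a / M.θ b → w = th y.1 a / th y.1 b := by
    intro z
    obtain ⟨n, a, ha, b, hb, hb', e⟩ := (M.mem_orng h).1 z.2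
    refine ⟨th y.1 a / th y.1 b, fun m c d hc hd h' e' => ?_⟩
    rw [e, div_eq_div_iff (On.ne M h hb hb') (On.ne M h hd h'), ← sub_eq_zero, ← map_mul,
      ← map_mul, ← map_sub] at e'
    have h2 : a * d - c * b ∈ 𝒜 (n + m) := sub_mem (SetLike.mul_mem_graded ha hd)
      (add_comm m n ▸ SetLike.mul_mem_graded hc hb)
    rw [div_eq_div_iff (hne hb hb') (hne hd h'), ← sub_eq_zero, ← map_mul, ← map_mul, ← map_sub]
    exact (th_eq_zero y.1 h2).2 (h _ _ h2 e')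
  choose f hf using h1
  have h1 := SetLike.one_mem_graded 𝒜
  let φ : M.orng y.1 →+* kap y.1 :=
    { toFun := f
      map_one' := (hf 1 0 1 1 h1 h1 (md_one_not_mem _) (by simp)).trans (by simp)
      map_zero' := (hf 0 0 0 1 (zero_mem _) h1 (md_one_not_mem _) (by simp)).trans (by simp)
      map_mul' := fun z w => by
        obtain ⟨n, a, ha, b, hb, g, e⟩ := (M.mem_orng h).1 z.2
        obtain ⟨m, c, hc, d, hd, g', e'⟩ := (M.mem_orng h).1 w.2
        rw [hf z n a b ha hb g e, hf w m c d hc hd g' e', hf (z * w) (n + m) (a * c) (b * d)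
          (SetLike.mul_mem_graded ha hc) (SetLike.mul_mem_graded hb hd) (md_mul_not_mem g g')
          (by simp [e, e', div_mul_div_comm])]
        simp [div_mul_div_comm]
      map_add' := fun z w => by
        obtain ⟨n, a, ha, b, hb, g, e⟩ := (M.mem_orng h).1 z.2
        obtain ⟨m, c, hc, d, hd, g', e'⟩ := (M.mem_orng h).1 w.2
        rw [hf z n a b ha hb g e, hf w m c d hc hd g' e', hf (z + w) (n + m) (a * d + b * c) (b * d)
          (add_mem (SetLike.mul_mem_graded ha hd) (SetLike.mul_mem_graded hb hc))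
          (SetLike.mul_mem_graded hb hd) (md_mul_not_mem g g')
          (by simp [e, e', div_add_div _ _ (On.ne M h hb g) (On.ne M h hd g')]),
          div_add_div _ _ (hne hb g) (hne hd g')]
        simp }
  refine ⟨⟨M.orng y.1, φ, fun c => ?_, fun z hz => ?_⟩, rfl, fun n a ha b hb hb' => ?_⟩
  · obtain ⟨m, rfl⟩ := M.surj c
    have e : algebraMap k K (Int.castRingHom k m) = (m : K) := by simp
    refine ⟨e ▸ intCast_mem _ m, m, ?_⟩
    have : (⟨_, e ▸ intCast_mem _ m⟩ : M.orng y.1) = m := Subtype.ext e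
    rw [this, map_intCast, map_intCast]
  · obtain ⟨n, a, ha, b, hb, g, e⟩ := (M.mem_orng h).1 z.2
    have : a ∉ pr y.1 := fun h1 => hz ((hf z n a b ha hb g e).trans (by
      rw [(th_eq_zero y.1 ha).2 h1, zero_div]))
    rw [e, inv_div]
    exact M.div_mem_fr hb ha this
  · rw [Spec.ev_of_mem _ (M.div_mem_fr ha hb hb')]
    exact hf _ n a b ha hb hb' rfl

/-- specialisation to a point of the model -/
def sp (y : Vp 𝒜 p) (h : M.On y.1) : Spec k K (ZMod p) (kap y.1) := (M.exists_spec y h).choose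

theorem sp_O (y : Vp 𝒜 p) (h : M.On y.1) : (M.sp y h).O = M.orng y.1 :=
  (M.exists_spec y h).choose_spec.1

theorem sp_ev (y : Vp 𝒜 p) (h : M.On y.1) {n : ℕ} {a b : A} (ha : a ∈ 𝒜 n) (hb : b ∈ 𝒜 n)
    (hb' : b ∉ pr y.1) : (M.sp y h).ev (M.θ a / M.θ b) = th y.1 a / th y.1 b :=
  (M.exists_spec y h).choose_spec.2 n a ha b hb hb'

theorem sp_ev_ell (y : Vp 𝒜 p) (h : M.On y.1) {n : ℕ} {a : A} (ha : a ∈ 𝒜 n) :
    (M.sp y h).ev (M.θ a / M.θ (ell y.1) ^ n) = th y.1 a := by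
  rw [← map_pow, M.sp_ev y h ha (md_pow_mem (ell_spec y.1).1 n) (md_pow_not_mem (ell_spec y.1).2 n),
    map_pow, th_ell, one_pow, div_one]

theorem sp_mem (y : Vp 𝒜 p) (h : M.On y.1) {n : ℕ} {w : K} (hw : w ∈ M.V ^ n) :
    w / M.θ (ell y.1) ^ n ∈ (M.sp y h).O := by
  obtain ⟨a, ha, rfl⟩ := M.mem_pow.1 hw
  rw [sp_O, ← map_pow]
  exact M.div_mem_fr ha (md_pow_mem (ell_spec y.1).1 n) (md_pow_not_mem (ell_spec y.1).2 n)

theorem sp_img (y : Vp 𝒜 p) (h : M.On y.1) (I : Ideal A) (n : ℕ) :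
    (M.sp y h).img (M.fam I n) (M.θ (ell y.1) ^ n) = (Mp y).fam I n := by
  refine le_antisymm (span_le.2 ?_) (span_le.2 ?_)
  · rintro _ ⟨w, hw, rfl⟩
    obtain ⟨a, ha, ha', rfl⟩ := M.mem_fam.1 hw
    exact (Mp y).mem_fam.2 ⟨a, ha, ha', (M.sp_ev_ell y h ha').symm⟩
  · rintro _ ⟨a, ⟨ha, ha'⟩, rfl⟩
    exact subset_span ⟨M.θ a, M.mem_fam.2 ⟨a, ha, ha', rfl⟩, M.sp_ev_ell y h ha'⟩

theorem sp_triv (y : Vp 𝒜 p) (h : M.On y.1) {I : Ideal A} {n : ℕ} {a : A} (ha : a ∈ I)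
    (ha' : a ∈ 𝒜 n) (hn : a ∉ pr y.1) : (M.sp y h).Triv (M.fam I n) (M.θ (ell y.1) ^ n) :=
  ⟨pow_ne_zero _ (On.ell_ne M h), fun _ hw => M.sp_mem y h (M.fam_le I n hw), M.θ a,
    M.mem_fam.2 ⟨a, ha, ha', rfl⟩, by
      rw [M.sp_ev_ell y h ha']; exact fun e => hn ((th_eq_zero y.1 ha').1 e)⟩

theorem sp_over (y : Vp 𝒜 p) (h : M.On y.1) : (M.sp y h).Over M.V (M.θ (ell y.1)) (Mp y).V := ⟨by simpa using M.sp_triv y h (I := ⊤) Submodule.mem_top (ell_spec y.1).1 (ell_spec y.1).2,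
    by simpa using M.sp_img y h ⊤ 1⟩

open Classical in
/-- restriction of line bundles to a point of the model -/
def rho (y : Vp 𝒜 p) : Pic M.V →* Pic (Mp y).V :=
  if h : M.On y.1 then (M.sp_over y h).rho else 1

theorem rho_eq {y : Vp 𝒜 p} (h : M.On y.1) : M.rho y = (M.sp_over y h).rho := dif_pos h

theorem rho_L {y : Vp 𝒜 p} (h : M.On y.1) : M.rho y (Lp M.V) = Lp (Mp y).V := by
  rw [M.rho_eq h]; exact Spec.Over.rho_L _

theorem rho_rho {x y : Vp 𝒜 p} (hx : M.On x.1) (h : pr x.1 ≤ pr y.1) (D : Pic M.V) :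
    (Mp x).rho y (M.rho x D) = M.rho y D := by
  have hy : M.On y.1 := fun n a ha e => h (hx n a ha e)
  have hxy : (Mp x).On y.1 := on_Mp.2 h
  rw [M.rho_eq hx, M.rho_eq hy, (Mp x).rho_eq hxy]
  refine Spec.Over.rho_comp _ _ _ (fun z hz => ?_) D
  rw [sp_O] at hz
  obtain ⟨n, a, ha, b, hb, g, rfl⟩ := (M.mem_orng hy).1 hz
  rw [sp_O, sp_O, M.sp_ev x hx ha hb fun e => g (h e), M.sp_ev y hy ha hb g]
  exact ⟨M.orng_anti h hz, (Mp x).div_mem_fr ha hb g, (Mp x).sp_ev y hxy ha hb g⟩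

theorem rho_isCl {y : Vp 𝒜 p} (h : M.On y.1) {J : Ideal A} (hJ : J.IsHomogeneous 𝒜)
    {D : Car M.V} (hD : IsCl D (M.fam J)) (hn : ¬J ≤ pr y.1) :
    ∃ D' : Car (Mp y).V, IsCl D' ((Mp y).fam J) ∧ M.rho y (cl D) = cl D' := by
  have := M.noeth
  have hy : (Mp y).On y.1 := on_Mp.2 le_rfl
  obtain ⟨n, ⟨hrep, hpow⟩, a, ha, ha', hna⟩ := (((hD.rep (M.mdl h)).and
    ((Mp y).fg_fam J).pow_smul).and (md_avoid_one hJ y.1 hn)).exists
  obtain ⟨D', h1, h2⟩ := (M.sp_over y h).rho_spec hrep (M.sp_triv y h ha ha' hna)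
  rw [sp_img] at h1
  refine ⟨D', isCl_of_rep ((Mp y).mdl hy) ((Mp y).fg_fam J) (Eventually.frequently ?_), ?_⟩
  · filter_upwards [eventually_ge_atTop n] with i hi
    obtain ⟨j, rfl⟩ := Nat.exists_eq_add_of_le hi
    rw [hpow]
    exact h1.shift j
  · rw [M.rho_eq h, h2]

end AM

theorem mdl_Mp (x : Vp 𝒜 p) : Mdl (Mp x).V := (Mp x).mdl (on_Mp.2 le_rfl)

/-- Hilbert polynomial of the twists of `A ⧸ 𝔞` on the closure of `x` -/
def Phi (x : Vp 𝒜 p) (𝔞 : Ideal A) (D : Pic (Mp x).V) : ℚ[X] :=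
  PP (Mp x).V D - hq (Mp x).V ((Mp x).fam 𝔞) D

theorem hq_bridge {x y : Vp 𝒜 p} (h : pr x.1 ≤ pr y.1) {𝔞 : Ideal A} (h𝔞 : pr y.1 ≤ 𝔞)
    (D : Pic (Mp x).V) : hq (Mp x).V ((Mp x).fam 𝔞) D - hq (Mp x).V ((Mp x).fam (pr y.1)) D =
      hq (Mp y).V ((Mp y).fam 𝔞) ((Mp x).rho y D) := by
  have hy : (Mp x).On y.1 := on_Mp.2 h
  have e := ((Mp x).sp_over y hy).bridge (mdl_Mp x) (N := (Mp x).fam 𝔞) (Q := (Mp x).fam (pr y.1))
    (fun c => by
      obtain ⟨m, rfl⟩ := ZMod.ringHom_surjective (Int.castRingHom (ZMod p)) c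
      have := (Mp x).sp_ev y hy (md_intCast_mem m) (SetLike.one_mem_graded 𝒜) (md_one_not_mem y.1)
      simpa using this)
    (Eventually.of_forall fun n w => by
      have key : ∀ a ∈ 𝒜 n, ((Mp x).sp y hy).ev ((Mp x).θ a / (Mp x).θ (ell y.1) ^ n) = th y.1 a := by
        intro a ha
        have := (Mp x).sp_ev y hy ha (md_pow_mem (ell_spec y.1).1 n)
          (md_pow_not_mem (ell_spec y.1).2 n)
        rwa [map_pow, map_pow, th_ell, one_pow, div_one] at this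
      constructor
      · intro hw
        obtain ⟨a, h1, h2, rfl⟩ := (Mp x).mem_fam.1 hw
        exact ⟨(Mp x).th_mem_pow h2, (key a h2).trans ((th_eq_zero y.1 h2).2 h1)⟩
      · rintro ⟨hw, e⟩
        obtain ⟨a, h2, rfl⟩ := (Mp x).mem_pow.1 hw
        exact (Mp x).mem_fam.2 ⟨a, (th_eq_zero y.1 h2).1 ((key a h2).symm.trans e), h2, rfl⟩)
    ((Mp x).fg_fam 𝔞) (Eventually.of_forall ((Mp x).fam_mono h𝔞))
    (Eventually.of_forall ((Mp x).fam_le 𝔞)) D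
  rw [e, funext ((Mp x).sp_img y hy 𝔞), AM.rho, dif_pos hy]

theorem Phi_pt {x y : Vp 𝒜 p} (h : pr x.1 ≤ pr y.1) (D : Pic (Mp x).V) :
    Phi x (pr y.1) D = PP (Mp y).V ((Mp x).rho y D) := by
  have := hq_bridge h (𝔞 := ⊤) le_top D
  rwa [funext (Mp x).fam_top, funext (Mp y).fam_top] at this

theorem Phi_bridge {x y : Vp 𝒜 p} (h : pr x.1 ≤ pr y.1) {𝔞 : Ideal A} (h𝔞 : pr y.1 ≤ 𝔞)
    (D : Pic (Mp x).V) : Phi x 𝔞 D = Phi y 𝔞 ((Mp x).rho y D) := by
  have e := Phi_pt h D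
  have e' := hq_bridge h h𝔞 D
  unfold Phi at e ⊢
  rw [← e, ← e']
  ring

theorem phi_fam_self (x : Vp 𝒜 p) (n : ℕ) : (Mp x).fam (pr x.1) n = ⊥ := by
  refine eq_bot_iff.2 fun z hz => ?_
  obtain ⟨a, h1, h2, rfl⟩ := (Mp x).mem_fam.1 hz
  exact (th_eq_zero x.1 h2).2 h1

theorem phi_fam_sup (x : Vp 𝒜 p) {𝔞 : Ideal A} (h : 𝔞.IsHomogeneous 𝒜) (n : ℕ) :
    (Mp x).fam (𝔞 ⊔ pr x.1) n = (Mp x).fam 𝔞 n := by
  rw [(Mp x).fam_sup h (pr_hom x.1), phi_fam_self, sup_bot_eq]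

theorem phi_top (x : Vp 𝒜 p) (D : Pic (Mp x).V) : Phi x ⊤ D = 0 := by
  rw [Phi, funext (Mp x).fam_top]
  exact sub_self _

theorem Phi_self (x : Vp 𝒜 p) (D : Pic (Mp x).V) : Phi x (pr x.1) D = PP (Mp x).V D := by
  rw [Phi, funext (phi_fam_self x), hq_bot, sub_zero]

theorem Phi_sup (x : Vp 𝒜 p) {𝔞 : Ideal A} (h : 𝔞.IsHomogeneous 𝒜) :
    Phi x (𝔞 ⊔ pr x.1) = Phi x 𝔞 := by
  funext D
  rw [Phi, Phi, funext (phi_fam_sup x h)]

theorem Phi_irrelevant (x : Vp 𝒜 p) {𝔞 : Ideal A} (h : 𝔞.IsHomogeneous 𝒜)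
    (hn : ∀ y : Pt 𝒜, pr x.1 ≤ pr y → ¬𝔞 ≤ pr y) : Phi x 𝔞 = 0 := by
  have e : (Mp x).fam (𝔞 ⊔ pr x.1) =ᶠ[atTop] pw (Mp x).V := by
    filter_upwards [irrelevant_of_no_pt (h.sup (pr_hom x.1)) fun y hy =>
      hn y (le_sup_right.trans hy) (le_sup_left.trans hy)] with n hn'
    refine le_antisymm ((Mp x).fam_le _ n) fun z hz => ?_
    obtain ⟨a, ha, rfl⟩ := (Mp x).mem_pow.1 hz
    exact (Mp x).mem_fam.2 ⟨a, hn' a ha, ha, rfl⟩
  rw [← Phi_sup x h]
  funext D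
  rw [Phi, hq_congr e]
  exact sub_self _

theorem Phi_isCl (x : Vp 𝒜 p) {𝔞 : Ideal A} {C : Car (Mp x).V} (h : IsCl C ((Mp x).fam 𝔞))
    (D : Pic (Mp x).V) : Phi x 𝔞 D = -dl (cl C) (PP (Mp x).V) D := by
  rw [Phi, h.hq_eq (mdl_Mp x), dl, neg_sub]

theorem Phi_step (x : Vp 𝒜 p) {𝔞 : Ideal A} (h : 𝔞.IsHomogeneous 𝒜) (hx : pr x.1 ≤ 𝔞) {f : A}
    {a : ℕ} (hf : f ∈ 𝒜 a) (D : Pic (Mp x).V) : Phi x 𝔞 D =
      (Phi x (𝔞.colon {f}) D).comp (X - C (a : ℚ)) + Phi x (𝔞 ⊔ Ideal.span {f}) D := by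
  have hV := mdl_Mp x
  have fg := fg_pw' hV.1
  have e := hq_iso hV (fg.sub a) ((Mp x).fg_fam 𝔞) (LinearMap.lsmul _ _ ((Mp x).θ f)) D
  have e1 : (fun n => (Mp x).V ^ (n - a) ⊓ ((Mp x).fam 𝔞 n).comap
      ((LinearMap.lsmul (kap x.1) (kap x.1) ((Mp x).θ f)).restrictScalars (ZMod p))) =ᶠ[atTop]
      fun n => (Mp x).fam (𝔞.colon {f}) (n - a) := by
    filter_upwards [eventually_ge_atTop a] with n hn
    obtain ⟨m, rfl⟩ := Nat.exists_eq_add_of_le' hn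
    rw [Nat.add_sub_cancel]
    ext w
    constructor
    · rintro ⟨h1, h2⟩
      obtain ⟨b, hb, rfl⟩ := (Mp x).mem_pow.1 h1
      obtain ⟨c, hc, hc', e⟩ := (Mp x).mem_fam.1 h2
      refine (Mp x).mem_fam.2 ⟨b, ?_, hb, rfl⟩
      rw [Submodule.mem_colon_singleton, smul_eq_mul]
      have : b * f - c ∈ pr x.1 := by
        refine (th_eq_zero x.1 (sub_mem (SetLike.mul_mem_graded hb hf) hc')).1 ?_
        have e' : th x.1 c = th x.1 f * th x.1 b := e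
        rw [map_sub, map_mul, e', mul_comm, sub_self]
      simpa using add_mem (hx this) hc
    · intro hw
      obtain ⟨b, h1, hb, rfl⟩ := (Mp x).mem_fam.1 hw
      rw [Submodule.mem_colon_singleton, smul_eq_mul] at h1
      refine ⟨(Mp x).th_mem_pow hb, (Mp x).mem_fam.2 ⟨b * f, h1, SetLike.mul_mem_graded hb hf, ?_⟩⟩
      rw [map_mul, mul_comm]
      rfl
  have e2 : (fun n => ((Mp x).V ^ (n - a)).map
      ((LinearMap.lsmul (kap x.1) (kap x.1) ((Mp x).θ f)).restrictScalars (ZMod p)) ⊔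
        (Mp x).fam 𝔞 n) =ᶠ[atTop] (Mp x).fam (𝔞 ⊔ Ideal.span {f}) := by
    filter_upwards [eventually_ge_atTop a] with n hn
    obtain ⟨m, rfl⟩ := Nat.exists_eq_add_of_le' hn
    rw [Nat.add_sub_cancel, (Mp x).fam_sup h (md_span_hom hf), sup_comm]
    congr 1
    ext w
    constructor
    · rintro ⟨z, h1, rfl⟩
      obtain ⟨b, hb, rfl⟩ := (Mp x).mem_pow.1 h1
      refine (Mp x).mem_fam.2 ⟨b * f, Ideal.mul_mem_left _ _ (Ideal.subset_span rfl),
        SetLike.mul_mem_graded hb hf, ?_⟩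
      rw [map_mul, mul_comm]
      rfl
    · intro hw
      obtain ⟨c, h1, hc, rfl⟩ := (Mp x).mem_fam.1 hw
      obtain ⟨b, rfl⟩ := Ideal.mem_span_singleton'.1 h1
      refine ⟨_, (Mp x).th_mem_pow (md_proj_mem m b), ?_⟩
      rw [← md_proj_same hc, md_proj_mul hf, map_mul, mul_comm]
      rfl
  rw [hq_congr e1, hq_congr e2, hq_sub hV fg, hq_sub hV ((Mp x).fg_fam _)] at e
  simp only [Phi, PP, sub_comp]
  rw [e]
  ring

theorem Phi_filt (x : Vp 𝒜 p) {𝔞 : Ideal A} (h : 𝔞.IsHomogeneous 𝒜) (hx : pr x.1 ≤ 𝔞)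
    {l : List (Ideal A × ℕ)} (hl : Filt 𝒜 𝔞 l) (D : Pic (Mp x).V) :
    Phi x 𝔞 D = (l.map fun q => (Phi x q.1 D).comp (X - C (q.2 : ℚ))).sum := by
  induction hl with
  | top => exact phi_top x D
  | step 𝔞 f a l hf _ _ ih =>
    rw [List.map_cons, List.sum_cons, ← ih (h.sup (md_span_hom hf)) (hx.trans le_sup_left)]
    exact Phi_step x h hx hf D

theorem phi_inf (x : Vp 𝒜 p) {I J : Ideal A} (hI : I.IsHomogeneous 𝒜) (hJ : J.IsHomogeneous 𝒜)
    (hx : pr x.1 ≤ I) (D : Pic (Mp x).V) :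
    Phi x (I ⊔ J) D + Phi x (I ⊓ J) D = Phi x I D + Phi x J D := by
  have e := hq_sup_inf (mdl_Mp x) ((Mp x).fg_fam I) ((Mp x).fg_fam J) D
  have e1 : (fun n => (Mp x).fam I n ⊓ (Mp x).fam J n) = (Mp x).fam (I ⊓ J) := by
    funext n
    refine le_antisymm (fun w hw => ?_)
      (le_inf ((Mp x).fam_mono inf_le_left n) ((Mp x).fam_mono inf_le_right n))
    obtain ⟨a, h1, ha, rfl⟩ := (Mp x).mem_fam.1 hw.1
    obtain ⟨b, h2, hb, e⟩ := (Mp x).mem_fam.1 hw.2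
    have : b - a ∈ pr x.1 := (th_eq_zero x.1 (sub_mem hb ha)).1 (by
      rw [map_sub]
      exact sub_eq_zero.2 e)
    exact (Mp x).mem_fam.2 ⟨b, ⟨by simpa using add_mem (hx this) h1, h2⟩, hb, e⟩
  rw [e1, ← funext ((Mp x).fam_sup hI hJ)] at e
  simp only [Phi]
  linear_combination -e

theorem phi_crt (x : Vp 𝒜 p) {α : Type} (t : Finset α) {𝔟 : α → Ideal A}
    (h𝔟 : ∀ i ∈ t, (𝔟 i).IsHomogeneous 𝒜)
    (hdis : ∀ y : Pt 𝒜, pr x.1 ≤ pr y → ∀ i ∈ t, ∀ j ∈ t, 𝔟 i ≤ pr y → 𝔟 j ≤ pr y → i = j)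
    (D : Pic (Mp x).V) : (t.inf fun i => 𝔟 i ⊔ pr x.1).IsHomogeneous 𝒜 ∧
      Phi x (t.inf fun i => 𝔟 i ⊔ pr x.1) D = ∑ i ∈ t, Phi x (𝔟 i) D := by
  classical
  induction t using Finset.induction_on with
  | empty => exact ⟨Ideal.IsHomogeneous.top 𝒜, phi_top x D⟩
  | insert i t hi ih =>
    obtain ⟨hh, e⟩ := ih (fun j hj => h𝔟 j (Finset.mem_insert_of_mem hj)) fun y hy j hj l hl =>
      hdis y hy j (Finset.mem_insert_of_mem hj) l (Finset.mem_insert_of_mem hl)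
    have h1 := h𝔟 i (Finset.mem_insert_self i t)
    have h2 := h1.sup (pr_hom x.1)
    rw [Finset.inf_insert, Finset.sum_insert hi]
    refine ⟨h2.inf hh, ?_⟩
    have k := phi_inf x h2 hh le_sup_right D
    rw [Phi_irrelevant x (h2.sup hh) fun y hy hle => ?_, Phi_sup x h1, e] at k
    · simpa using k
    · obtain ⟨j, hj, hj'⟩ := y.isPrime.inf_le'.1 (le_sup_right.trans hle)
      exact hi (hdis y hy i (Finset.mem_insert_self i t) j (Finset.mem_insert_of_mem hj)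
        (le_sup_left.trans (le_sup_left.trans hle)) (le_sup_left.trans hj') ▸ hj)

/-- Chinese remainder theorem in large degrees -/
theorem Phi_crt (x : Vp 𝒜 p) {α : Type} (t : Finset α) {𝔞 : Ideal A} {𝔟 : α → Ideal A}
    (h𝔞 : 𝔞.IsHomogeneous 𝒜) (h𝔟 : ∀ i ∈ t, (𝔟 i).IsHomogeneous 𝒜 ∧ 𝔞 ≤ 𝔟 i)
    (hdis : ∀ y : Pt 𝒜, pr x.1 ≤ pr y → ∀ i ∈ t, ∀ j ∈ t, 𝔟 i ≤ pr y → 𝔟 j ≤ pr y → i = j)
    (hloc : ∀ y : Pt 𝒜, pr x.1 ≤ pr y → 𝔞 ≤ pr y → ∃ i ∈ t, ∀ n, ∀ a ∈ 𝔟 i, a ∈ 𝒜 n →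
      ∃ m, ∃ b ∈ 𝒜 m, b ∉ pr y ∧ b * a ∈ 𝔞 ⊔ pr x.1) (D : Pic (Mp x).V) :
    Phi x 𝔞 D = ∑ i ∈ t, Phi x (𝔟 i) D := by
  obtain ⟨hh, e⟩ := phi_crt x t (fun i hi => (h𝔟 i hi).1) hdis D
  rw [← e]
  have : (Mp x).fam 𝔞 =ᶠ[atTop] (Mp x).fam (t.inf fun i => 𝔟 i ⊔ pr x.1) := by
    refine EventuallyLE.antisymm (Eventually.of_forall ((Mp x).fam_mono
      (Finset.le_inf fun i hi => (h𝔟 i hi).2.trans le_sup_left))) ?_
    refine (Mp x).local_global ((Mp x).fg_fam _) ((Mp x).fam_fam _)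
      (Eventually.of_forall fun n w hw y hy => ?_)
    by_cases c : 𝔞 ≤ pr y
    · obtain ⟨i, hi, k⟩ := hloc y (on_Mp.1 hy) c
      have h1 := (Mp x).fam_mono (Finset.inf_le (f := fun i => 𝔟 i ⊔ pr x.1) hi) n hw
      rw [phi_fam_sup x (h𝔟 i hi).1] at h1
      obtain ⟨a, ha, ha', rfl⟩ := (Mp x).mem_fam.1 h1
      obtain ⟨m, b, hb, h2, h3⟩ := k n a ha ha'
      refine ⟨m, b, hb, h2, ?_⟩
      rw [← phi_fam_sup x h𝔞, add_comm]
      exact (Mp x).mem_fam.2 ⟨b * a, h3, SetLike.mul_mem_graded hb ha', map_mul _ _ _⟩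
    · obtain ⟨m, b, hb, h1, h2⟩ := md_exists_not_mem h𝔞 c
      obtain ⟨a, -, ha', rfl⟩ := (Mp x).mem_fam.1 hw
      refine ⟨m, b, hb, h2, ?_⟩
      rw [add_comm]
      exact (Mp x).mem_fam.2 ⟨b * a, 𝔞.mul_mem_right _ h1, SetLike.mul_mem_graded hb ha',
        map_mul _ _ _⟩
  rw [Phi, Phi, hq_congr this]

end

end Pool.Agent.Lib.MP_62d77c_ag
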