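import Pool.Agent.Lib.MP_62d77c_ag.Base

/-! Additive functions on commutative groups, duality, finite rank. -/

set_option autoImplicit false

namespace Pool.Agent.Lib.MP_62d77c_ag

open Submodule

noncomputable section

/-- an additive function on a multiplicative group -/
def LA_Ad {G : Type} [CommGroup G] (f : G → ℚ) : Prop := ∀ x y, f (x * y) = f x + f y

section ad
variable {G H : Type} [CommGroup G] [CommGroup H] {f : G → ℚ}

theorem LA_Ad.one (h : LA_Ad f) : f 1 = 0 := by
  have := h 1 1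
  rw [one_mul] at this
  linarith

theorem LA_Ad.inv (h : LA_Ad f) (x : G) : f x⁻¹ = -f x := by
  have := h x x⁻¹
  rw [mul_inv_cancel, h.one] at this
  linarith

theorem LA_Ad.pow (h : LA_Ad f) (x : G) (n : ℕ) : f (x ^ n) = n * f x := by
  induction n with
  | zero => simp [h.one]
  | succ n ih => rw [pow_succ, h, ih]; push_cast; ring

theorem LA_Ad.zpow (h : LA_Ad f) (x : G) (n : ℤ) : f (x ^ n) = n * f x := by
  cases n with
  | ofNat n => simp [h.pow]
  | negSucc n => rw [zpow_negSucc, h.inv, h.pow]; push_cast; ring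

theorem LA_Ad.prod (h : LA_Ad f) {ι : Type} (s : Finset ι) (x : ι → G) :
    f (∏ i ∈ s, x i) = ∑ i ∈ s, f (x i) := by
  classical
  induction s using Finset.induction_on with
  | empty => simp [h.one]
  | insert a s ha ih => rw [Finset.prod_insert ha, Finset.sum_insert ha, h, ih]

theorem LA_Ad.tors (h : LA_Ad f) {x : G} (hx : ∃ n, 0 < n ∧ x ^ n = 1) : f x = 0 := by
  obtain ⟨n, n0, e⟩ := hx
  have := h.pow x n
  rw [e, h.one] at this
  exact (mul_eq_zero.1 this.symm).resolve_left (by exact_mod_cast n0.ne')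

theorem LA_Ad.comp {g : H → ℚ} (h : LA_Ad g) (ρ : G →* H) : LA_Ad fun x => g (ρ x) :=
  fun x y => by simp only [map_mul]; exact h _ _

theorem Good.LA_l {β : G → G → ℚ} {L : G} (h : Good β L) (y : G) : LA_Ad fun x => β x y :=
  fun x x' => h.add x x' y

theorem Good.LA_r {β : G → G → ℚ} {L : G} (h : Good β L) (x : G) : LA_Ad (β x) :=
  fun y y' => by rw [h.symm, h.add, h.symm y, h.symm y']

end ad

theorem LA_scale {ι : Type} [Finite ι] (h : ι → ℚ) :
    ∃ N : ℕ, 0 < N ∧ ∃ k : ι → ℤ, ∀ i, (k i : ℚ) = N * h i := by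
  classical
  cases nonempty_fintype ι
  refine ⟨∏ i, (h i).den, Finset.prod_pos fun i _ => (h i).den_pos,
    fun i => (∏ j ∈ Finset.univ.erase i, (h j).den : ℕ) * (h i).num, fun i => ?_⟩
  rw [← Finset.prod_erase_mul _ _ (Finset.mem_univ i)]
  push_cast
  rw [mul_assoc, Rat.den_mul_eq_num]

theorem LA_dual {n ι : Type} [Fintype n] (A : ι → n → ℚ) (v : n → ℚ)
    (h : ∀ x : n → ℚ, (∀ i, ∑ j, A i j * x j = 0) → ∑ j, v j * x j = 0) :
    ∃ y : ι →₀ ℚ, ∀ j, v j = y.sum fun i c => c * A i j := by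
  classical
  let F : (n → ℚ) → (n → ℚ) →ₗ[ℚ] ℚ := fun u => ∑ j, u j • LinearMap.proj j
  have hF : ∀ u x, F u x = ∑ j, u j * x j := fun u x => by simp [F, LinearMap.sum_apply]
  have := FiniteDimensional.mem_span_of_iInf_ker_le_ker (L := fun i => F (A i)) (K := F v)
    (fun x hx => by
      rw [LinearMap.mem_ker, hF]
      refine h x fun i => ?_
      rw [← hF]
      exact (mem_iInf _).1 hx i)
  obtain ⟨y, hy⟩ := Finsupp.mem_span_range_iff_exists_finsupp.1 this
  refine ⟨y, fun j => ?_⟩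
  have e := LinearMap.congr_fun hy (Pi.single j 1)
  have s : ∀ u, F u (Pi.single j 1) = u j := fun u => by simp [hF, Pi.single_apply]
  rw [s, Finsupp.sum, LinearMap.sum_apply] at e
  rw [← e, Finsupp.sum]
  exact Finset.sum_congr rfl fun i _ => by rw [LinearMap.smul_apply, s, smul_eq_mul]

theorem LA_dual' {n ι : Type} [Fintype n] [Fintype ι] (A : ι → n → ℚ) (v : n → ℚ)
    (h : ∀ x : n → ℚ, (∀ i, ∑ j, A i j * x j = 0) → ∑ j, v j * x j = 0) :
    ∃ y : ι → ℚ, ∀ j, v j = ∑ i, y i * A i j := by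
  obtain ⟨y, hy⟩ := LA_dual A v h
  exact ⟨y, fun j => by rw [hy, Finsupp.sum_fintype _ _ fun i => zero_mul _]⟩

theorem FinRk.LA_gen {G : Type} [CommGroup G] (h : FinRk G) :
    ∃ s : Set G, s.Finite ∧ ∀ f : G → ℚ, LA_Ad f → (∀ x ∈ s, f x = 0) → ∀ g, f g = 0 := by
  obtain ⟨s, hs, li⟩ := exists_set_linearIndependent ℤ (Additive G)
  have fin : s.Finite := Cardinal.lt_aleph0_iff_set_finite.1 (hs ▸ h)
  refine ⟨Additive.toMul '' s, fin.image _, fun f hf h0 g => ?_⟩
  have r := (span ℤ s).rank_quotient_add_rank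
  rw [rank_span_set li, hs] at r
  have z : Module.rank ℤ (Additive G ⧸ span ℤ s) = 0 := by
    have := Cardinal.eq_of_add_eq_add_right (r.trans (zero_add _).symm) h
    exact this
  obtain ⟨a, a0, e⟩ := rank_eq_zero_iff.1 z (Submodule.Quotient.mk (Additive.ofMul g))
  rw [← Submodule.Quotient.mk_smul, Submodule.Quotient.mk_eq_zero] at e
  have key : ∀ x ∈ span ℤ s, f (Additive.toMul x) = 0 := by
    intro x hx
    induction hx using span_induction with
    | mem x hx => exact h0 _ ⟨x, hx, rfl⟩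
    | zero => exact hf.one
    | add x y _ _ hx hy => rw [toMul_add, hf, hx, hy, add_zero]
    | smul c x _ hx => rw [toMul_zsmul, hf.zpow, hx, mul_zero]
  have := key _ e
  rw [toMul_zsmul, hf.zpow] at this
  exact (mul_eq_zero.1 this).resolve_left (by exact_mod_cast a0)

section rk
variable {G : Type} [CommGroup G] {β : G → G → ℚ} {L : G}

theorem LA_tuple (h : Good β L) (hr : ¬FinRk G) (n : ℕ) :
    ∃ v : Fin (n + 1) → Additive G, LinearIndependent ℤ v ∧ ∃ i, v i = Additive.ofMul L := by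
  induction n with
  | zero =>
    refine ⟨fun _ => Additive.ofMul L, ?_, 0, rfl⟩
    rw [Fintype.linearIndependent_iff]
    intro g hg i
    have e : L ^ g 0 = 1 := by simpa using congrArg Additive.toMul hg
    have := (h.LA_r L).zpow L (g 0)
    rw [e, (h.LA_r L).one] at this
    have z := (mul_eq_zero.1 this.symm).resolve_right h.pos.ne'
    rw [Subsingleton.elim (α := Fin 1) i 0]
    exact_mod_cast z
  | succ n ih =>
    obtain ⟨v, hv, i, hi⟩ := ih
    obtain ⟨x, hx⟩ := exists_linearIndependent_cons_of_lt_rank hv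
      ((Cardinal.natCast_lt_aleph0).trans_le (not_lt.1 hr))
    exact ⟨_, hx, i.succ, hi⟩

theorem LA_gram (h : Good β L) (hr : ¬FinRk G) (n : ℕ) :
    ∃ v : Fin (n + 1) → G, (Matrix.of fun i j => β (v i) (v j)).det ≠ 0 := by
  obtain ⟨v, hv, i₀, hi⟩ := LA_tuple h hr n
  refine ⟨fun i => Additive.toMul (v i), fun hd => ?_⟩
  obtain ⟨w, w0, hw⟩ := Matrix.exists_mulVec_eq_zero_iff.2 hd
  obtain ⟨N, N0, k, hk⟩ := LA_scale w
  set x : G := ∏ j, Additive.toMul (v j) ^ k j with hx
  have e1 : ∀ i, β (Additive.toMul (v i)) x = 0 := fun i => by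
    have := congrFun hw i
    simp only [Matrix.mulVec, dotProduct, Matrix.of_apply, Pi.zero_apply] at this
    rw [hx, (h.LA_r _).prod]
    simp only [(h.LA_r _).zpow, hk]
    calc _ = N * ∑ j, β (Additive.toMul (v i)) (Additive.toMul (v j)) * w j := by
          rw [Finset.mul_sum]; exact Finset.sum_congr rfl fun j _ => by ring
      _ = 0 := by rw [this, mul_zero]
  have e2 : β x L = 0 := by
    have := e1 i₀
    rwa [hi, h.symm] at this
  have e3 : β x x = 0 := by
    have := (h.LA_l x).prod Finset.univ fun j => Additive.toMul (v j) ^ k j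
    rw [← hx] at this
    rw [this]
    exact Finset.sum_eq_zero fun j _ => by
      have := (h.LA_l x).zpow (Additive.toMul (v j)) (k j)
      rw [this, e1, mul_zero]
  obtain ⟨t, t0, ht⟩ := h.tors x e2 e3
  have z := Fintype.linearIndependent_iff.1 hv (fun j => t * k j) (by
    apply Additive.toMul.injective
    rw [toMul_sum, toMul_zero, ← ht, hx, ← Finset.prod_pow]
    exact Finset.prod_congr rfl fun j _ => by
      rw [toMul_zsmul, ← zpow_natCast, ← zpow_mul, mul_comm])
  refine w0 (funext fun j => ?_)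
  have k0 : k j = 0 := (mul_eq_zero.1 (z j)).resolve_left (by exact_mod_cast t0.ne')
  have := hk j
  rw [k0, Int.cast_zero] at this
  exact (mul_eq_zero.1 this.symm).resolve_left (by exact_mod_cast N0.ne')

theorem LA_finRk (h : Good β L) {M : ℕ}
    (hM : 0 < M) (hint : ∀ x y, ∃ z : ℤ, (M : ℚ) * β x y = z) {p : ℕ} (hp : 1 < p)
    (hfin : Finite (G ⧸ (powMonoidHom p : G →* G).range)) : FinRk G := by
  classical
  by_contra hr
  set n := Nat.card (G ⧸ (powMonoidHom p : G →* G).range)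
  let gr : (Fin (n + 1) → G) → Matrix (Fin (n + 1)) (Fin (n + 1)) ℚ :=
    fun v => Matrix.of fun i j => β (v i) (v j)
  choose z hz using hint
  have int : ∀ v, (M : ℚ) ^ (n + 1) * (gr v).det =
      ((Matrix.of fun i j => z (v i) (v j)).det : ℤ) := by
    intro v
    have e : (M : ℚ) • gr v = (Int.castRingHom ℚ).mapMatrix (Matrix.of fun i j => z (v i) (v j)) := by
      ext i j; simp [gr, hz]
    have := congrArg Matrix.det e
    rw [Matrix.det_smul, Fintype.card_fin, ← RingHom.map_det] at this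
    exact this
  have ex : ∃ t : ℕ, ∃ v, (gr v).det ≠ 0 ∧ (Matrix.of fun i j => z (v i) (v j)).det.natAbs = t := by
    obtain ⟨v, hv⟩ := LA_gram h hr n
    exact ⟨_, v, hv, rfl⟩
  obtain ⟨v, hv, ht⟩ := Nat.find_spec ex
  obtain ⟨a, b, ab, e⟩ : ∃ a b : Fin (n + 1) → Fin p, a ≠ b ∧
      (QuotientGroup.mk (∏ i, v i ^ (a i : ℕ)) : G ⧸ (powMonoidHom p : G →* G).range) =
        QuotientGroup.mk (∏ i, v i ^ (b i : ℕ)) := by
    by_contra hc
    have inj : Function.Injective fun a : Fin (n + 1) → Fin p =>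
        (QuotientGroup.mk (∏ i, v i ^ (a i : ℕ)) : G ⧸ (powMonoidHom p : G →* G).range) :=
      fun a b e => by_contra fun ne => hc ⟨a, b, ne, e⟩
    have := Nat.card_le_card_of_injective _ inj
    rw [Nat.card_fun, Nat.card_fin, Nat.card_fin] at this
    have := Nat.lt_pow_self (n := n + 1) hp
    omega
  obtain ⟨y, hy⟩ := QuotientGroup.eq.1 e
  obtain ⟨j, hj⟩ := Function.ne_iff.1 ab
  have p0 : (0 : ℚ) < p := by exact_mod_cast (by omega : 0 < p)
  let c : Fin (n + 1) → ℚ := fun i => (((b i : ℕ) : ℚ) - (a i : ℕ)) / p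
  have hc : ∀ f : G → ℚ, LA_Ad f → f y = ∑ i, c i * f (v i) := by
    intro f hf
    have := congrArg f hy
    rw [powMonoidHom_apply, hf.pow, hf, hf.inv, hf.prod, hf.prod] at this
    simp only [hf.pow] at this
    refine mul_left_cancel₀ p0.ne' ?_
    rw [this, Finset.mul_sum, ← Finset.sum_neg_distrib, ← Finset.sum_add_distrib]
    exact Finset.sum_congr rfl fun i _ => by simp only [c]; field_simp; ring
  let Pm : Matrix (Fin (n + 1)) (Fin (n + 1)) ℚ := (1 : Matrix _ _ ℚ).updateRow j c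
  have dP : Pm.det = c j := by
    have := Matrix.det_updateRow_sum (1 : Matrix (Fin (n + 1)) (Fin (n + 1)) ℚ) j c
    rw [Matrix.det_one, smul_eq_mul, mul_one] at this
    have e : ∑ k, c k • (1 : Matrix (Fin (n + 1)) (Fin (n + 1)) ℚ) k = c := by
      funext i
      simp [Finset.sum_apply, Matrix.one_apply]
    rwa [e] at this
  have hP : ∀ f : G → ℚ, LA_Ad f → ∀ i, f (Function.update v j y i) = ∑ k, Pm i k * f (v k) := by
    intro f hf i
    by_cases e : i = j
    · subst e
      simp [Pm, hc f hf]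
    · simp [Pm, e, Matrix.one_apply]
  have eg : gr (Function.update v j y) = Pm * gr v * Pm.transpose := by
    ext i k
    simp only [gr, Matrix.of_apply, Matrix.mul_apply, Matrix.transpose_apply]
    rw [hP _ (h.LA_r _) k]
    refine Finset.sum_congr rfl fun l _ => ?_
    rw [hP _ (h.LA_l (v l)) i, mul_comm]
  have ed : (gr (Function.update v j y)).det = c j ^ 2 * (gr v).det := by
    rw [eg, Matrix.det_mul, Matrix.det_mul, Matrix.det_transpose, dP]; ring
  have c0 : c j ≠ 0 := div_ne_zero (sub_ne_zero.2 fun e => hj (Fin.ext (by exact_mod_cast e.symm))) p0.ne'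
  have c1 : c j ^ 2 < 1 := by
    have h1 : ((a j : ℕ) : ℚ) < p := by exact_mod_cast (a j).2
    have h2 : ((b j : ℕ) : ℚ) < p := by exact_mod_cast (b j).2
    have h3 : (0 : ℚ) ≤ (a j : ℕ) := Nat.cast_nonneg _
    have h4 : (0 : ℚ) ≤ (b j : ℕ) := Nat.cast_nonneg _
    rw [sq_lt_one_iff_abs_lt_one, abs_lt, lt_div_iff₀ p0, div_lt_iff₀ p0]
    constructor <;> linarith
  have le := Nat.find_min' ex ⟨Function.update v j y,
    by rw [ed]; exact mul_ne_zero (pow_ne_zero _ c0) hv, rfl⟩
  rw [← ht] at le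
  have le' : |(M : ℚ) ^ (n + 1) * (gr v).det| ≤
      |(M : ℚ) ^ (n + 1) * (gr (Function.update v j y)).det| := by
    rw [int, int, ← Int.cast_abs, ← Int.cast_abs, Int.cast_le, Int.abs_eq_natAbs, Int.abs_eq_natAbs]
    exact_mod_cast le
  rw [ed, mul_left_comm, abs_mul (c j ^ 2), abs_of_nonneg (sq_nonneg (c j))] at le'
  have pos : 0 < |(M : ℚ) ^ (n + 1) * (gr v).det| :=
    abs_pos.2 (mul_ne_zero (pow_ne_zero _ (by exact_mod_cast hM.ne')) hv)
  nlinarith

end rk

end

end Pool.Agent.Lib.MP_62d77c_ag
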