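import Pool.Agent.Lib.MP_62d77c_ag.NSA
import Pool.Agent.Lib.MP_62d77c_ag.Dim

/-! The Picard group modulo p is finite. -/

set_option autoImplicit false

namespace Pool.Agent.Lib.MP_62d77c_ag

open Filter Polynomial Submodule

noncomputable section

theorem nsb_ufd {R : Type} [CommRing R] [IsDomain R] [UniqueFactorizationMonoid R] (p : ℕ) (γ : R) :
    γ ≠ 0 → (∀ (π r : R) (n : ℕ), Prime π → ¬π ∣ r → γ = π ^ n * r → p ∣ n) →
      ∃ (ε : Rˣ) (c : R), γ = ε * c ^ p := by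
  induction γ using (wellFounded_dvdNotUnit (α := R)).induction with
  | _ γ ih =>
  intro h0 h
  by_cases hu : IsUnit γ
  · exact ⟨hu.unit, 1, by simp⟩
  obtain ⟨π, hπ, hd⟩ := WfDvdMonoid.exists_irreducible_factor hu h0
  obtain ⟨n, r, hr, e⟩ := WfDvdMonoid.max_power_factor h0 hπ
  have pr := hπ.prime
  obtain ⟨m, hm⟩ := h π r n pr hr e
  have r0 : r ≠ 0 := fun c => h0 (by rw [e, c, mul_zero])
  have n0 : n ≠ 0 := fun c => hr (by rwa [e, c, pow_zero, one_mul] at hd)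
  obtain ⟨ε, c, hc⟩ := ih r ⟨r0, π ^ n, fun c => pr.not_unit (isUnit_of_dvd_unit
    (dvd_pow_self π n0) c), e.trans (mul_comm _ _)⟩ r0 fun π' r' n' p' hr' e' => by
      by_cases a : π' ∣ π
      · rcases Nat.eq_zero_or_pos n' with rfl | b
        · exact dvd_zero p
        · exact absurd ((p'.associated_of_dvd pr a).symm.dvd.trans
            (e' ▸ (dvd_pow_self π' b.ne').mul_right r')) hr
      · refine h π' (π ^ n * r') n' p' (fun b => ?_) (by rw [e, e']; ring)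
        exact (p'.dvd_or_dvd b).elim (fun b => a (p'.dvd_of_dvd_pow b)) hr'
  exact ⟨ε, π ^ m * c, by rw [e, hc, hm, mul_pow, ← pow_mul, mul_comm m]; ring⟩

theorem nsb_root {K : Type} [Field K] (O : Subring K) [UniqueFactorizationMonoid O]
    (hf : ∀ z : K, ∃ a ∈ O, ∃ b ∈ O, b ≠ 0 ∧ z = a / b) {p : ℕ} (hp : p ≠ 0) {z : K}
    (h : z ^ p ∈ O) : z ∈ O := by
  obtain ⟨a, ha, b, hb, b0, rfl⟩ := hf z
  obtain ⟨c, hc⟩ : (⟨b, hb⟩ : O) ∣ ⟨a, ha⟩ :=
    (IsIntegrallyClosed.pow_dvd_pow_iff hp).1 ⟨⟨_, h⟩, Subtype.ext (by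
      show a ^ p = b ^ p * (a / b) ^ p
      rw [div_pow, mul_div_cancel₀ _ (pow_ne_zero p b0)])⟩
  have : a = b * c := congrArg Subtype.val hc
  rw [this, mul_div_cancel_left₀ _ b0]
  exact c.2

theorem nsb_pow {K : Type} [Field K] (O : Subring K) [UniqueFactorizationMonoid O]
    (hf : ∀ z : K, ∃ a ∈ O, ∃ b ∈ O, b ≠ 0 ∧ z = a / b) {p : ℕ} (hp : p ≠ 0) {g : K} (g0 : g ≠ 0)
    (h : ∀ (π r r' : O) (n : ℤ), Prime π → ¬π ∣ r → ¬π ∣ r' → g = r / r' * (π : K) ^ n →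
      (p : ℤ) ∣ n) : ∃ c : K, c ≠ 0 ∧ g / c ^ p ∈ O ∧ c ^ p / g ∈ O := by
  obtain ⟨a, ha, b, hb, b0, rfl⟩ := hf g
  obtain ⟨q, rfl⟩ := Nat.exists_eq_succ_of_ne_zero hp
  have a0 : a ≠ 0 := fun c => g0 (by rw [c, zero_div])
  have b1 : (⟨b, hb⟩ : O) ≠ 0 := fun c => b0 (congrArg Subtype.val c)
  obtain ⟨ε, c, hc⟩ := nsb_ufd (q + 1) ((⟨a, ha⟩ : O) * ⟨b, hb⟩ ^ q)
    (mul_ne_zero (fun c => a0 (congrArg Subtype.val c)) (pow_ne_zero _ b1)) fun π r n pr hr e => by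
      obtain ⟨m, r', hr', e'⟩ := WfDvdMonoid.max_power_factor b1 pr.irreducible
      have e1 : a * b ^ q = (π : K) ^ n * r := congrArg Subtype.val e
      have e2 : b = (π : K) ^ m * r' := congrArg Subtype.val e'
      have π0 : (π : K) ≠ 0 := fun c => pr.ne_zero (Subtype.ext c)
      have := h π r (r' ^ (q + 1)) (n - (q + 1 : ℕ) * m) pr hr
        (fun c => hr' (pr.dvd_of_dvd_pow c)) (by
          have e3 : a / b = a * b ^ q / b ^ (q + 1) := by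
            field_simp
            ring
          rw [e3, e1, e2, zpow_sub₀ π0, ← Nat.cast_mul, zpow_natCast, zpow_natCast, mul_pow,
            ← pow_mul, mul_comm m, SubmonoidClass.coe_pow]
          ring)
      exact Int.natCast_dvd_natCast.1 (by
        simpa using dvd_add this (dvd_mul_right ((q + 1 : ℕ) : ℤ) m))
  have e1 : a * b ^ q = ((ε : O) : K) * (c : K) ^ (q + 1) := congrArg Subtype.val hc
  have e2 : ((ε : O) : K) * ((ε⁻¹ : Oˣ) : O) = 1 := congrArg Subtype.val ε.mul_inv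
  have c0 : (c : K) ≠ 0 := fun z => mul_ne_zero a0 (pow_ne_zero q b0) (by rw [e1, z]; simp)
  have e3 : a / b / (c / b) ^ (q + 1) = (ε : O) := by
    rw [div_pow, div_div_div_eq, div_eq_iff (mul_ne_zero b0 (pow_ne_zero _ c0))]
    linear_combination b * e1
  refine ⟨c / b, div_ne_zero c0 b0, e3 ▸ (ε : O).2, ?_⟩
  rw [← inv_div, e3, ← eq_inv_of_mul_eq_one_right e2]
  exact ((ε⁻¹ : Oˣ) : O).2

variable {A : Type} [CommRing A] [IsDomain A] {𝒜 : ℕ → AddSubgroup A} [GradedRing 𝒜]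
  [hG : Fact (Gen 𝒜)] {p : ℕ} [Fact p.Prime]

section
variable {k K : Type} [CommRing k] [Field K] [Algebra k K] (M : AM 𝒜 k K)

theorem nsb_ell_mem (y : Pt 𝒜) : M.θ (ell y) ∈ M.V :=
  M.mem_fam.2 ⟨_, mem_top, (ell_spec y).1, rfl⟩

theorem nsb_div (y : Pt 𝒜) {n : ℕ} {v : K} (hv : v ∈ M.V ^ n) :
    v / M.θ (ell y) ^ n ∈ M.orng y := by
  obtain ⟨a, ha, rfl⟩ := M.mem_pow.1 hv
  rw [← map_pow]
  exact M.div_mem_fr ha (md_pow_mem (ell_spec y).1 n) (md_pow_not_mem (ell_spec y).2 n)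

theorem nsb_mul (O : Subring K) {U W : Submodule k K} {u w : K} (hU : ∀ z ∈ U, z / u ∈ O)
    (hW : ∀ z ∈ W, z / w ∈ O) : ∀ z ∈ U * W, z / (u * w) ∈ O := fun z hz =>
  Submodule.mul_induction_on (C := fun z => z / (u * w) ∈ O) hz
    (fun a ha b hb => by rw [mul_div_mul_comm]; exact mul_mem (hU a ha) (hW b hb))
    fun a b ha hb => by rw [add_div]; exact add_mem ha hb

omit hG in
include M in
theorem nsb_alg (O : Subring K) (c : k) : algebraMap k K c ∈ O := by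
  obtain ⟨z, rfl⟩ := M.surj c
  simp

omit hG in
include M in
theorem nsb_pw (O : Subring K) {U : Submodule k K} {u : K} (hU : ∀ z ∈ U, z / u ∈ O) :
    ∀ n : ℕ, ∀ z ∈ U ^ n, z / u ^ n ∈ O
  | 0, z, hz => by
    rw [pow_zero, Submodule.mem_one] at hz
    obtain ⟨c, rfl⟩ := hz
    simpa using nsb_alg M O c
  | n + 1, z, hz => by
    rw [pow_succ] at hz ⊢
    exact nsb_mul O (nsb_pw O hU n) hU z hz

theorem nsb_le {U₁ U₂ : Submodule k K} (h₁ : U₁.FG) (h₂ : U₂.FG) (a₁ a₂ : ℕ)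
    (h : ∀ y, M.On y → ∃ e, ∃ u ∈ U₂ * M.V ^ e, u ≠ 0 ∧ ∀ w ∈ U₁,
      w / (u * M.θ (ell y) ^ a₁ / M.θ (ell y) ^ (a₂ + e)) ∈ M.orng y) :
    (fun m => U₁ * M.V ^ (m - a₁)) ≤ᶠ[atTop] fun m => U₂ * M.V ^ (m - a₂) := by
  refine M.local_global (((fg_pw' M.V_fg).sub a₁).smul h₁) (((fg_pw' M.V_fg).sub a₂).smul h₂).fam ?_
  filter_upwards [eventually_ge_atTop a₁, eventually_ge_atTop a₂] with m m1 m2 w hw y hy
  obtain ⟨e, u, hu, u0, h⟩ := h y hy
  obtain ⟨l, α, hα, β, hβ, β0, q⟩ := (M.mem_orng hy).1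
    (nsb_mul _ h (fun _ => nsb_div M y) w hw)
  have s0 := AM.On.ell_ne M hy
  have b0 := AM.On.ne M hy hβ β0
  refine ⟨l + e, β * ell y ^ e, SetLike.mul_mem_graded hβ (md_pow_mem (ell_spec y).1 e),
    md_mul_not_mem β0 (md_pow_not_mem (ell_spec y).2 e), ?_⟩
  obtain ⟨i, rfl⟩ := Nat.exists_eq_add_of_le m1
  obtain ⟨j, hj⟩ := Nat.exists_eq_add_of_le m2
  have : M.θ (β * ell y ^ e) • w = u * (M.θ α * M.θ (ell y) ^ j) := by
    have z : M.θ (ell y) ^ a₁ * M.θ (ell y) ^ i = M.θ (ell y) ^ a₂ * M.θ (ell y) ^ j := by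
      rw [← pow_add, ← pow_add, hj]
    rw [Nat.add_sub_cancel_left, pow_add] at q
    rw [smul_eq_mul, map_mul, map_pow]
    field_simp at q
    refine mul_left_cancel₀ (pow_ne_zero a₂ s0) ?_
    linear_combination q + u * M.θ α * z
  show _ ∈ U₂ * M.V ^ (a₁ + i + (l + e) - a₂)
  rw [this, show a₁ + i + (l + e) - a₂ = e + (l + j) by omega, pow_add, pow_add, ← mul_assoc]
  exact mul_mem_mul hu (mul_mem_mul (M.th_mem_pow hα) (pow_mem_pow _ (nsb_ell_mem M y) j))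

theorem nsb_fg {y : Pt 𝒜} (hy : M.On y) : (span (M.orng y)
    {ψ : Derivation ℤ K K → K | ∃ b ∈ M.orng y, ψ = fun δ => δ b}).FG := by
  classical
  have s0 := AM.On.ell_ne M hy
  have hT : ∀ n, ∀ b ∈ 𝒜 n, b ∈ Submonoid.powers (ell y) → b ∉ pr y := by
    rintro n b - ⟨m, rfl⟩
    exact md_pow_not_mem (ell_spec y).2 m
  have hle := M.fr_le_orng hT
  obtain ⟨t, ht⟩ := (M.fr_finiteType (ell_spec y).1 s0).1
  refine ⟨t.image fun (r : M.fr (Submonoid.powers (ell y))) δ => δ (r : K),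
    le_antisymm (span_mono ?_) (span_le.2 ?_)⟩
  · intro ψ hψ
    obtain ⟨r, -, rfl⟩ := Finset.mem_image.1 hψ
    exact ⟨r, hle r.2, rfl⟩
  obtain ⟨W, hW⟩ : ∃ W, W = span (M.orng y) ((t.image fun (r : M.fr (Submonoid.powers (ell y)))
    (δ : Derivation ℤ K K) => δ (r : K) : Finset _) : Set (Derivation ℤ K K → K)) := ⟨_, rfl⟩
  rw [← hW]
  have key : ∀ r : M.fr (Submonoid.powers (ell y)),
      (fun δ : Derivation ℤ K K => δ (r : K)) ∈ W := by
    intro r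
    have hr : r ∈ Algebra.adjoin ℤ (t : Set _) := ht ▸ Algebra.mem_top
    induction hr using Algebra.adjoin_induction with
    | mem r hr => exact hW ▸ subset_span (Finset.mem_image.2 ⟨r, hr, rfl⟩)
    | algebraMap z =>
      convert W.zero_mem
      simp
    | add a b _ _ ha hb =>
      convert W.add_mem ha hb
      simp
    | mul a b _ _ ha hb =>
      convert W.add_mem (W.smul_mem ⟨a, hle a.2⟩ hb) (W.smul_mem ⟨b, hle b.2⟩ ha)
      simp [Subring.smul_def]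
  rintro _ ⟨b, hb, rfl⟩
  obtain ⟨n, α, hα, β, hβ, β0, rfl⟩ := (M.mem_orng hy).1 hb
  have e1 := md_pow_mem (ell_spec y).1 n
  have e2 : ell y ^ n ∈ Submonoid.powers (ell y) := ⟨n, rfl⟩
  have b0 := AM.On.ne M hy hβ β0
  have m : M.θ (ell y ^ n) / M.θ β ∈ M.orng y := M.div_mem_fr e1 hβ β0
  have s1 : M.θ (ell y ^ n) ≠ 0 := by rw [map_pow]; exact pow_ne_zero n s0
  refine SetLike.mem_coe.2 ?_
  convert W.sub_mem (W.smul_mem ⟨_, m⟩ (key ⟨_, M.div_mem_fr hα e1 e2⟩))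
    (W.smul_mem ⟨_, mul_mem hb m⟩ (key ⟨_, M.div_mem_fr hβ e1 e2⟩)) using 1
  funext δ
  simp only [Pi.sub_apply, Pi.smul_apply, Subring.smul_def, smul_eq_mul, Derivation.leibniz_div]
  field_simp
  ring

end

theorem nsb_frac (x : Vp 𝒜 p) {y : Pt 𝒜} (hy : (Mp x).On y) (z : kap x.1) :
    ∃ a ∈ (Mp x).orng y, ∃ b ∈ (Mp x).orng y, b ≠ 0 ∧ z = a / b := by
  obtain ⟨n, a, ha, b, hb, b0, rfl⟩ := th_gen x.1 z
  have s0 := pow_ne_zero n (AM.On.ell_ne _ hy)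
  exact ⟨_, nsb_div _ y ((Mp x).th_mem_pow ha), _, nsb_div _ y ((Mp x).th_mem_pow hb),
    div_ne_zero (fun c => b0 ((th_eq_zero x.1 hb).1 c)) s0, (div_div_div_cancel_right₀ s0 _ _).symm⟩

theorem nsb_dvd (x : Vp 𝒜 p) {D : Car (Mp x).V} (h : LogReg D) {U : Submodule (ZMod p) (kap x.1)}
    {a : ℕ} (hD : Rep D U a) {y : Pt 𝒜} (hy : (Mp x).On y) {u : kap x.1} (hu : u ∈ U) (u0 : u ≠ 0)
    (hw : ∀ w ∈ U, w / u ∈ (Mp x).orng y) (π r r' : (Mp x).orng y) (n : ℤ) (hπ : Prime π)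
    (hr : ¬π ∣ r) (hr' : ¬π ∣ r')
    (e : u / (Mp x).θ (ell y) ^ a = r / r' * (π : kap x.1) ^ n) : (p : ℤ) ∣ n := by
  obtain ⟨y', hy', hT, hP⟩ := (Mp x).exists_pt_of_prime (T := (pr y).primeCompl)
    (fun n b hb c => AM.On.ne _ hy hb c) one_pos (ell_spec y).1 (ell_spec y).2 (Ideal.span {π})
    ((Ideal.span_singleton_prime hπ.ne_zero).2 hπ)
  obtain ⟨Y, rfl⟩ : ∃ Y : Vp 𝒜 p, Y.1 = y' := ⟨⟨y', on_Mp.1 hy' x.2⟩, rfl⟩
  have hle : (Mp x).orng y ≤ (Mp x).orng Y.1 := (Mp x).fr_le_orng hT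
  have hxy := on_Mp.1 hy'
  obtain ⟨⟨O, φ, base, inv⟩, hO, hev⟩ := (Mp x).exists_spec Y hy'
  obtain rfl : O = (Mp x).orng Y.1 := hO
  have ev : ∀ n, ∀ α ∈ 𝒜 n, ∀ β ∈ 𝒜 n, β ∉ pr Y.1 → ∀ z : (Mp x).orng Y.1,
      (z : kap x.1) = (Mp x).θ α / (Mp x).θ β → φ z = th Y.1 α / th Y.1 β := by
    rintro n α hα β hβ c ⟨z, hz⟩ rfl
    exact (Spec.ev_of_mem ⟨_, φ, base, inv⟩ hz).symm.trans (hev n α hα β hβ c)
  have key : ∀ z : (Mp x).orng y, φ ⟨z, hle z.2⟩ = 0 ↔ π ∣ z := by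
    rintro ⟨z, hz⟩
    obtain ⟨n, α, hα, β, hβ, c, rfl⟩ := ((Mp x).mem_orng hy).1 hz
    rw [ev n α hα β hβ (hT n β hβ c) _ rfl, div_eq_zero_iff, th_eq_zero Y.1 hα, th_eq_zero Y.1 hβ,
      ← Ideal.mem_span_singleton, or_iff_left (hT n β hβ c)]
    exact (hP n α β hα hβ c).symm
  have hloc : ∀ z : (Mp x).orng Y.1, φ z ≠ 0 → IsUnit z := fun z c =>
    IsUnit.of_mul_eq_one ⟨_, inv z c⟩ (Subtype.ext (mul_inv_cancel₀ fun d =>
      c (by rw [show z = 0 from Subtype.ext d, map_zero])))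
  have π0 : (π : kap x.1) ≠ 0 := fun c => hπ.ne_zero (Subtype.ext c)
  obtain ⟨u₁, h₁⟩ := hloc ⟨r, hle r.2⟩ fun c => hr ((key r).1 c)
  obtain ⟨u₂, h₂⟩ := hloc ⟨r', hle r'.2⟩ fun c => hr' ((key r').1 c)
  have e' : (((u₁ * u₂⁻¹ : ((Mp x).orng Y.1)ˣ) : (Mp x).orng Y.1) : kap x.1) = r / r' := by
    have a1 : ((u₁ : (Mp x).orng Y.1) : kap x.1) = r := congrArg Subtype.val h₁
    have a2 : ((u₂ : (Mp x).orng Y.1) : kap x.1) = r' := congrArg Subtype.val h₂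
    have a3 : ((u₂ : (Mp x).orng Y.1) : kap x.1) * ((u₂⁻¹ : ((Mp x).orng Y.1)ˣ) : (Mp x).orng Y.1) =
        1 := congrArg Subtype.val u₂.mul_inv
    rw [Units.val_mul, Subring.coe_mul, a1, eq_inv_of_mul_eq_one_right a3, a2, div_eq_mul_inv]
  refine dvd_of_dlog_regular p (κ := kap Y.1) ?_ ((Mp x).orng Y.1) φ ?_
    ⟨π, hle π.2⟩ ?_ (fun c => π0 (congrArg Subtype.val c)) ?_ (nsb_fg _ hy') hloc (u₁ * u₂⁻¹) n ?_
  · rw [trdeg_eq_dm, trdeg_eq_dm, Nat.cast_lt]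
    refine dm_lt (lt_of_le_of_ne hxy fun c => ?_)
    obtain ⟨n, α, hα, β, hβ, d, q⟩ := ((Mp x).mem_orng hy).1 π.2
    have := (hP n α β hα hβ d).1 (Ideal.mem_span_singleton.2 (dvd_of_eq (Subtype.ext q)))
    exact π0 (by rw [q, show (Mp x).θ α = 0 from (th_eq_zero x.1 hα).2 (c ▸ this), zero_div])
  · intro z
    obtain ⟨n, α, hα, β, hβ, c, rfl⟩ := th_gen Y.1 z
    exact ⟨⟨_, (Mp x).div_mem_fr hα hβ c⟩, ev n α hα β hβ c _ rfl⟩
  · refine le_antisymm ?_ ((Ideal.span_singleton_le_iff_mem _).2 ((key π).2 dvd_rfl))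
    rintro ⟨z, hz⟩ c
    obtain ⟨n, α, hα, β, hβ, d, rfl⟩ := ((Mp x).mem_orng hy').1 hz
    rw [RingHom.mem_ker, ev n α hα β hβ d _ rfl, div_eq_zero_iff, th_eq_zero Y.1 hα,
      th_eq_zero Y.1 hβ, or_iff_left d] at c
    have e1 := md_pow_mem (ell_spec y).1 n
    have e2 := md_pow_not_mem (ell_spec y).2 n
    obtain ⟨ρ, hρ⟩ := Ideal.mem_span_singleton.1 ((hP n α _ hα e1 e2).2 c)
    have q : (Mp x).θ α / (Mp x).θ (ell y ^ n) = π * ρ := congrArg Subtype.val hρ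
    refine Ideal.mem_span_singleton.2 ⟨⟨ρ, hle ρ.2⟩ * ⟨_, (Mp x).div_mem_fr e1 hβ d⟩,
      Subtype.ext ?_⟩
    show _ = (π : kap x.1) * (ρ * (_ / _))
    rw [← mul_assoc, ← q, div_mul_div_cancel₀ (AM.On.ne _ hy e1 e2)]
  · intro z
    obtain ⟨α, hα, β, hβ, -, q⟩ := nsb_frac x hy' z
    exact ⟨α, hα, β, hβ, q⟩
  · rw [e']
    show (fun δ : Derivation ℤ _ _ => δ (_ * (π : kap x.1) ^ n) / (_ * (π : kap x.1) ^ n)) ∈ _
    rw [← e]
    exact h _ ((Mp x).orng_local hy') (nsb_alg (Mp x) _) _ (nsb_ell_mem _ y) (AM.On.ell_ne _ hy)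
      (fun v hv => hle (by simpa using nsb_div (Mp x) y (n := 1) (by simpa using hv))) U a hD u hu
      u0 fun w c => hle (hw w c)

theorem pth_root (x : Vp 𝒜 p)
    (hufd : ∀ y : Pt 𝒜, pr x.1 ≤ pr y → UniqueFactorizationMonoid ((Mp x).orng y))
    {D : Car (Mp x).V} (h : LogReg D) : ∃ D' : Car (Mp x).V, D = D' ^ p := by
  have hV := mdl_Mp x
  have p0 : p ≠ 0 := (Fact.out : p.Prime).ne_zero
  obtain ⟨U, a, hD⟩ : ∃ U a, Rep D U a := ⟨_, _, rep_rp D⟩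
  have root : ∀ y, (Mp x).On y → ∀ z : kap x.1, z ^ p ∈ (Mp x).orng y → z ∈ (Mp x).orng y :=
    fun y hy z hz => haveI := hufd y (on_Mp.1 hy); nsb_root _ (nsb_frac x hy) p0 hz
  have loc : ∀ y, (Mp x).On y → ∃ u ∈ U, ∃ g : kap x.1, u ≠ 0 ∧ g ≠ 0 ∧
      (∀ w ∈ U, w / u ∈ (Mp x).orng y) ∧ u / (Mp x).θ (ell y) ^ a / g ^ p ∈ (Mp x).orng y ∧
      g ^ p / (u / (Mp x).θ (ell y) ^ a) ∈ (Mp x).orng y := by
    intro y hy
    obtain ⟨Y, rfl⟩ : ∃ Y : Vp 𝒜 p, Y.1 = y := ⟨⟨y, on_Mp.1 hy x.2⟩, rfl⟩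
    obtain ⟨u, hu, u0, hw, -⟩ := ((Mp x).sp_over Y hy).exists_triv hD
    rw [AM.sp_O] at hw
    haveI := hufd _ (on_Mp.1 hy)
    obtain ⟨g, g0, h1, h2⟩ := nsb_pow _ (nsb_frac x hy) p0
      (div_ne_zero u0 (pow_ne_zero a (AM.On.ell_ne _ hy))) (nsb_dvd x h hD hy hu u0 hw)
    exact ⟨u, hu, g, u0, g0, hw, h1, h2⟩
  choose! u hu g u0 g0 hw h1 h2 using loc
  have s0 : ∀ y, (Mp x).On y → (Mp x).θ (ell y) ≠ 0 := fun y hy => AM.On.ell_ne _ hy
  obtain ⟨N, hN⟩ : ∃ N : ℕ → Submodule (ZMod p) (kap x.1), ∀ n w, w ∈ N n ↔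
      ∀ y, (Mp x).On y → w / (g y * (Mp x).θ (ell y) ^ n) ∈ (Mp x).orng y :=
    ⟨fun n =>
      { carrier := {w | ∀ y, (Mp x).On y → w / (g y * (Mp x).θ (ell y) ^ n) ∈ (Mp x).orng y}
        zero_mem' := fun y _ => by rw [zero_div]; exact zero_mem _
        add_mem' := fun ha hb y hy => by rw [add_div]; exact add_mem (ha y hy) (hb y hy)
        smul_mem' := fun c w ha y hy => by
          rw [Algebra.smul_def, mul_div_assoc]
          exact mul_mem (nsb_alg (Mp x) _ c) (ha y hy) }, fun _ _ => Iff.rfl⟩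
  have fam : ∀ m n, ∀ v ∈ (Mp x).V ^ m, ∀ w ∈ N n, v * w ∈ N (m + n) := by
    intro m n v hv w hw
    refine (hN _ _).2 fun y hy => ?_
    rw [pow_add, mul_left_comm, mul_div_mul_comm]
    exact mul_mem (nsb_div _ y hv) ((hN _ _).1 hw y hy)
  have famN : Fam (Mp x).V N := Eventually.of_forall fun n => smul_le.2 fun v hv w hw =>
    add_comm 1 n ▸ fam 1 n v (by simpa using hv) w hw
  have into : ∀ n w, w ^ p ∈ U * (Mp x).V ^ (p * n - a) → a ≤ p * n → w ∈ N n := by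
    intro n w hw' le
    refine (hN _ _).2 fun y hy => root y hy _ ?_
    convert mul_mem (nsb_mul _ (hw y hy) (fun _ => nsb_div _ y) _ hw') (h1 y hy) using 1
    obtain ⟨j, hj⟩ := Nat.exists_eq_add_of_le le
    have := s0 y hy
    have := u0 y hy
    have := g0 y hy
    rw [div_pow, mul_pow, ← pow_mul, mul_comm n, hj, Nat.add_sub_cancel_left, pow_add]
    field_simp
  have gen : ∀ y, (Mp x).On y → ∃ e, ∃ b ∈ 𝒜 e, b ∉ pr y ∧ (Mp x).θ b * g y ∈ N e := by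
    intro y hy
    obtain ⟨l, c, hc, b, hb, b0, q⟩ := ((Mp x).mem_orng hy).1 (h2 y hy)
    have hb' := SetLike.mul_mem_graded hb (md_pow_mem (ell_spec y).1 a)
    obtain ⟨r, hr⟩ : ∃ r, p = r + 1 := Nat.exists_eq_succ_of_ne_zero p0
    refine ⟨l + a, _, hb', md_mul_not_mem b0 (md_pow_not_mem (ell_spec y).2 a),
      into _ _ ?_ (by rw [hr]; nlinarith)⟩
    have : ((Mp x).θ (b * ell y ^ a) * g y) ^ p =
        u y * ((Mp x).θ (b * ell y ^ a) ^ r * (Mp x).θ c) := by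
      have := s0 y hy
      have := u0 y hy
      have := AM.On.ne _ hy hb b0
      have z : (Mp x).θ (b * ell y ^ a) ^ p = (Mp x).θ (b * ell y ^ a) ^ r *
          ((Mp x).θ b * (Mp x).θ (ell y) ^ a) := by
        rw [← map_pow (Mp x).θ (ell y), ← map_mul, ← pow_succ]
        exact congrArg _ hr
      rw [mul_pow, z]
      field_simp at q
      linear_combination (Mp x).θ (b * ell y ^ a) ^ r * q
    rw [this, show p * (l + a) - a = (l + a) * r + l by rw [hr]; apply Nat.sub_eq_of_eq_add; ring,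
      pow_add, pow_mul]
    exact mul_mem_mul (hu y hy) (mul_mem_mul (pow_mem_pow _ ((Mp x).th_mem_pow hb') r)
      ((Mp x).th_mem_pow hc))
  have fgN : Fg (Mp x).V N := by
    obtain ⟨U', m, hU'⟩ := hD.exists_inv
    obtain ⟨u', hu', u'0⟩ : ∃ u' ∈ U', u' ≠ 0 := by
      refine (Submodule.ne_bot_iff _).1 fun c => pow_ne_zero m (s0 _ (on_Mp.2 le_rfl)) ?_
      have := pow_mem_pow _ (nsb_ell_mem (Mp x) x.1) m
      rwa [← hU', c, Submodule.mul_bot, Submodule.mem_bot] at this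
    obtain ⟨j, c, hc, d, hd, d0, rfl⟩ := th_gen x.1 u'
    have c0 : th x.1 c ≠ 0 := fun z => u'0 (by rw [z, zero_div])
    have d1 : th x.1 d ≠ 0 := fun z => u'0 (by rw [z, div_zero])
    have one : ∀ i, (1 : kap x.1) ∈ (Mp x).V ^ i := fun i => by
      have := pow_mem_pow _ (nsb_ell_mem (Mp x) x.1) i
      rwa [show (Mp x).θ (ell x.1) = 1 from th_ell x.1, one_pow] at this
    have bd : ∀ y, (Mp x).On y →
        th x.1 c * g y / (Mp x).θ (ell y) ^ (j + m) ∈ (Mp x).orng y := by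
      intro y hy
      obtain ⟨r, hr⟩ : ∃ r, p = r + 1 := Nat.exists_eq_succ_of_ne_zero p0
      have m1 : u y * (th x.1 c / th x.1 d) ∈ (Mp x).V ^ m := hU' ▸ mul_mem_mul (hu y hy) hu'
      have m2 := mul_mem_mul (mul_mem_mul (mul_mem_mul m1 ((Mp x).th_mem_pow hd))
        (pow_mem_pow _ ((Mp x).th_mem_pow hc) r)) (one (a + m * r))
      rw [← pow_mul, ← pow_add, ← pow_add, ← pow_add,
        show m + j + j * r + (a + m * r) = a + (j + m) * p by rw [hr]; ring] at m2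
      refine root y hy _ ?_
      convert mul_mem (nsb_div _ y m2) (h2 y hy) using 1
      have := s0 y hy
      have := u0 y hy
      have z : th x.1 c ^ p = th x.1 c ^ r * th x.1 c := by
        rw [← pow_succ]
        exact congrArg _ hr
      rw [div_pow, mul_pow, ← pow_mul, pow_add _ a, z]
      show _ = _ * _ * th x.1 d * th x.1 c ^ r * 1 / _ * _
      field_simp
    refine Fg.of_le hV.1 (((fg_pw' hV.1).add (j + m)).smul
      (U := span (ZMod p) {(th x.1 c)⁻¹}) (fg_span_singleton _)) famN ?_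
    filter_upwards [((tendsto_add_atTop_nat (j + m)).eventually (H0_shift hV (fg_pw' hV.1)))]
      with n hn w hw'
    have : th x.1 c * w ∈ (Mp x).V ^ (n + (j + m)) := by
      rw [← hn]
      have := nsb_le (Mp x) (U₁ := span (ZMod p) {th x.1 c * w}) (U₂ := 1) (fg_span_singleton _)
        (one_eq_span (R := ZMod p) (A := kap x.1) ▸ fg_span_singleton _) (n + (j + m)) 0
        fun y hy => ⟨0, 1, by simp [one_le.1 le_rfl], one_ne_zero, fun z hz => by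
          obtain ⟨r, rfl⟩ := mem_span_singleton.1 hz
          rw [Algebra.smul_def, mul_div_assoc]
          refine mul_mem (nsb_alg (Mp x) _ r) ?_
          convert mul_mem (bd y hy) ((hN _ _).1 hw' y hy) using 1
          have := s0 y hy
          have := g0 y hy
          rw [pow_add _ n, pow_zero]
          field_simp⟩
      filter_upwards [(tendsto_add_atTop_nat (n + (j + m))).eventually this] with i hi v hv
      have := hi (mul_mem_mul (mem_span_singleton_self _) (by rwa [Nat.add_sub_cancel]))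
      rwa [one_mul, Nat.sub_zero, mul_comm] at this
    have := mul_mem_mul (mem_span_singleton_self (R := ZMod p) (th x.1 c)⁻¹) this
    rwa [inv_mul_cancel_left₀ c0] at this
  obtain ⟨D', hD'⟩ := (Mp x).exists_isCl_of_genAt hV fgN (frequently_atTop.2 fun m => by
      have hy : (Mp x).On x.1 := on_Mp.2 le_rfl
      obtain ⟨e, b, hb, b0, q⟩ := gen _ hy
      exact ⟨m + e, by omega, (Submodule.ne_bot_iff _).2
        ⟨_, fam m e _ (pow_mem_pow _ (nsb_ell_mem _ x.1) m) _ q, mul_ne_zero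
          (pow_ne_zero m (s0 _ hy)) (mul_ne_zero (AM.On.ne _ hy hb b0) (g0 _ hy))⟩⟩) fun y hy => by
      obtain ⟨e, b, hb, b0, q⟩ := gen y hy
      refine ⟨e, _, mul_ne_zero (AM.On.ne _ hy hb b0) (g0 y hy),
        Eventually.of_forall fun m v hv => fam m e v hv _ q, Eventually.of_forall fun n w hw' => ?_⟩
      convert mul_mem ((hN _ _).1 hw' y hy) ((Mp x).div_mem_fr (T := (pr y).primeCompl)
        (md_pow_mem (ell_spec y).1 e) hb b0) using 1
      rw [map_pow]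
      ring
  obtain ⟨n, r1, r2⟩ := ((hD'.rep hV).and fgN.pow_smul).exists
  have r3 := r1.pow p
  refine ⟨D', IsCl.unique hV (M := tw D (pw (Mp x).V)) EventuallyEq.rfl ?_⟩
  refine (tw_rep (fg_pw' hV.1) r3).trans (EventuallyEq.trans ?_ (tw_rep (fg_pw' hV.1) hD).symm)
  refine EventuallyLE.antisymm (nsb_le (Mp x) (r3.fg hV) (hD.fg hV) _ _ fun y hy => ?_)
    (nsb_le (Mp x) (hD.fg hV) (r3.fg hV) _ _ fun y hy => ?_)
  · refine ⟨0, u y, by simpa using hu y hy, u0 y hy, fun w hw' => ?_⟩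
    convert mul_mem (nsb_pw (Mp x) _ (fun z hz => (hN n z).1 hz y hy) p w hw') (h2 y hy) using 1
    have := s0 y hy
    have := u0 y hy
    have := g0 y hy
    rw [mul_pow, ← pow_mul, mul_comm n, add_zero]
    field_simp
  · obtain ⟨e, b, hb, b0, q⟩ := gen y hy
    have m := fam n e _ (pow_mem_pow _ (nsb_ell_mem _ y) n) _ q
    rw [r2 e] at m
    have b1 := AM.On.ne _ hy hb b0
    have := s0 y hy
    have := u0 y hy
    have := g0 y hy
    refine ⟨e * p, _, ?_, pow_ne_zero p (mul_ne_zero (pow_ne_zero n (s0 y hy))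
      (mul_ne_zero b1 (g0 y hy))), fun w hw' => ?_⟩
    · rw [pow_mul, ← mul_pow, mul_comm (N n)]
      exact pow_mem_pow _ m p
    · convert mul_mem (mul_mem (hw y hy w hw') (h1 y hy)) (pow_mem ((Mp x).div_mem_fr
        (T := (pr y).primeCompl) (md_pow_mem (ell_spec y).1 e) hb b0) p) using 1
      rw [map_pow, div_pow, mul_pow, mul_pow, pow_add, ← pow_mul, ← pow_mul, mul_comm n]
      field_simp

theorem pic_mod_finite (x : Vp 𝒜 p)
    (hufd : ∀ y : Pt 𝒜, pr x.1 ≤ pr y → UniqueFactorizationMonoid ((Mp x).orng y)) :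
    Finite (Pic (Mp x).V ⧸ (powMonoidHom p : Pic (Mp x).V →* Pic (Mp x).V).range) := by
  obtain ⟨γ, _, col, hc⟩ := exists_colour p (mdl_Mp x) fun z => by
    obtain ⟨n, a, ha, b, hb, -, e⟩ := th_gen x.1 z
    exact ⟨n, _, (Mp x).th_mem_pow ha, _, (Mp x).th_mem_pow hb, e⟩
  refine Finite.of_injective (fun q => col (Pic.out (Quotient.out q))) fun q q' e => ?_
  obtain ⟨f, hf⟩ := hc _ _ e
  obtain ⟨E, hE⟩ := pth_root x hufd hf
  have h1 : cl (Pic.out (Quotient.out q) / Pic.out (Quotient.out q')) = cl (E ^ p) :=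
    cl_eq_iff.2 ⟨f, hE.symm⟩
  rw [_root_.map_div, cl_out, cl_out, map_pow] at h1
  rw [← QuotientGroup.out_eq' q, ← QuotientGroup.out_eq' q', QuotientGroup.eq_iff_div_mem]
  exact ⟨cl E, h1.symm⟩

end

end Pool.Agent.Lib.MP_62d77c_ag
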