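import Pool.Agent.Lib.MP_62d77c_ag.NormDA

/-! The semilocal ring of a finite cover of the line at the generic point of the fibre. -/

set_option autoImplicit false

namespace Pool.Agent.Lib.MP_62d77c_ag

open Filter Polynomial Submodule

noncomputable section

/-- evaluation of integer polynomials -/
def normEv {K : Type} [CommRing K] (x : K) : ℤ[X] →+* K := eval₂RingHom (Int.castRingHom K) x

theorem normEv_X {K : Type} [CommRing K] (x : K) : normEv x X = x := eval₂_X _ _

theorem normEv_map {K K' : Type} [CommRing K] [CommRing K'] (f : K →+* K') (x : K) (s : ℤ[X]) :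
    f (normEv x s) = normEv (f x) s :=
  RingHom.congr_fun (Polynomial.ringHom_ext' (f := f.comp (normEv x)) (g := normEv (f x))
    (RingHom.ext_int _ _) (by simp [normEv_X])) s

theorem normD_fin {Λ R κ : Type} [CommRing Λ] [IsNoetherianRing Λ] [CommRing R] [CommRing κ]
    [Algebra Λ R] [Algebra Λ κ] [Algebra R κ] [IsScalarTower Λ R κ]
    (hi : Function.Injective (algebraMap R κ)) (t : Finset κ)
    (h : ∀ x : R, algebraMap R κ x ∈ span Λ (t : Set κ)) : Module.Finite Λ R :=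
  have : Module.Finite Λ (span Λ (t : Set κ)) := Module.Finite.span_of_finite _ t.finite_toSet
  Module.Finite.of_injective ((IsScalarTower.toAlgHom Λ R κ).toLinearMap.codRestrict _ h)
    fun _ _ e => hi (congrArg Subtype.val e)

variable (p : ℕ) [hp : Fact p.Prime]

/-- integer polynomials divisible by `p` -/
def normD_P : Ideal ℤ[X] := RingHom.ker (mapRingHom (Int.castRingHom (ZMod p)))

instance normD_prime : (normD_P p).IsPrime := RingHom.ker_isPrime _

theorem normD_mem {s : ℤ[X]} : s ∈ normD_P p ↔ (p : ℤ[X]) ∣ s := by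
  rw [normD_P, RingHom.mem_ker, coe_mapRingHom, ← C_eq_natCast, C_dvd_iff_dvd_coeff,
    Polynomial.ext_iff]
  refine forall_congr' fun n => ?_
  rw [coeff_map, coeff_zero, eq_intCast, ZMod.intCast_zmod_eq_zero_iff_dvd]

theorem normD_span : normD_P p = Ideal.span {(p : ℤ[X])} :=
  Ideal.ext fun _ => (normD_mem p).trans Ideal.mem_span_singleton.symm

/-- integer polynomials localised at `p` -/
abbrev normD_L : Type := Localization.AtPrime (normD_P p)

theorem normD_max : IsLocalRing.maximalIdeal (normD_L p) = Ideal.span {(p : normD_L p)} := by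
  rw [← Localization.AtPrime.map_eq_maximalIdeal,
    congrArg (Ideal.map (algebraMap ℤ[X] (normD_L p))) (normD_span p), Ideal.map_span,
    Set.image_singleton, map_natCast]

instance normD_pid : IsPrincipalIdealRing (normD_L p) :=
  ((tfae_of_isNoetherianRing_of_isLocalRing_of_isDomain (normD_L p)).out 4 0).1
    (⟨⟨_, normD_max p⟩⟩ : (IsLocalRing.maximalIdeal (normD_L p)).IsPrincipal)

theorem normD_ev_eq {k : Type} [Field k] (s : ℤ[X]) :
    normEv (RatFunc.X : RatFunc k) s = algebraMap k[X] _ (s.map (Int.castRingHom k)) := by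
  exact RingHom.congr_fun (Polynomial.ringHom_ext' (f := normEv (RatFunc.X : RatFunc k))
    (g := (algebraMap k[X] _).comp (mapRingHom (Int.castRingHom k)))
    (RingHom.ext_int _ _) (by simp [normEv_X])) s

theorem normD_ne0 {s : ℤ[X]} (h : s ≠ 0) : normEv (RatFunc.X : RatFunc ℚ) s ≠ 0 := by
  rw [normD_ev_eq, ne_eq, FaithfulSMul.algebraMap_eq_zero_iff,
    Polynomial.map_eq_zero_iff (RingHom.injective_int _)]
  exact h

theorem normD_nep {s : ℤ[X]} (h : s ∉ normD_P p) :
    normEv (RatFunc.X : RatFunc (ZMod p)) s ≠ 0 := by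
  rw [normD_ev_eq, ne_eq, FaithfulSMul.algebraMap_eq_zero_iff]
  exact h

/-- the inclusion into rational functions -/
def normD_i : normD_L p →+* RatFunc ℚ :=
  IsLocalization.lift (M := (normD_P p).primeCompl)
    (g := normEv (RatFunc.X : RatFunc ℚ))
    fun s => (normD_ne0 fun h : s.1 = 0 => s.2 (h ▸ zero_mem (normD_P p))).isUnit

/-- reduction modulo `p` -/
def normD_pi : normD_L p →+* RatFunc (ZMod p) :=
  IsLocalization.lift (M := (normD_P p).primeCompl)
    (g := normEv (RatFunc.X : RatFunc (ZMod p)))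
    fun s => (normD_nep p s.2).isUnit

theorem normD_i_alg (s : ℤ[X]) : normD_i p (algebraMap _ _ s) = normEv RatFunc.X s :=
  IsLocalization.lift_eq _ s

theorem normD_pi_alg (s : ℤ[X]) : normD_pi p (algebraMap _ _ s) = normEv RatFunc.X s :=
  IsLocalization.lift_eq _ s

theorem normD_surj (x : normD_L p) :
    ∃ a s : ℤ[X], s ∉ normD_P p ∧ x * algebraMap _ _ s = algebraMap _ _ a := by
  obtain ⟨⟨a, s⟩, h⟩ := IsLocalization.surj (normD_P p).primeCompl x
  exact ⟨a, s, s.2, h⟩

theorem normD_unit {s : ℤ[X]} (h : s ∉ normD_P p) : IsUnit (algebraMap _ (normD_L p) s) :=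
  IsLocalization.map_units (M := (normD_P p).primeCompl) _ ⟨s, h⟩

theorem normD_i_inj : Function.Injective (normD_i p) := by
  refine (injective_iff_map_eq_zero _).2 fun x hx => ?_
  obtain ⟨a, s, hs, e⟩ := normD_surj p x
  have := congrArg (normD_i p) e
  rw [map_mul, hx, zero_mul, normD_i_alg] at this
  have ha : a = 0 := by_contra fun h => normD_ne0 h this.symm
  rw [ha, map_zero] at e
  exact ((normD_unit p hs).mul_left_eq_zero).1 e

theorem normD_pi_surj : Function.Surjective (normD_pi p) := by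
  intro z
  have hs := Polynomial.map_surjective (Int.castRingHom (ZMod p)) (ZMod.ringHom_surjective _)
  obtain ⟨a, ha⟩ := hs z.num
  obtain ⟨s, hs⟩ := hs z.denom
  have h : s ∉ normD_P p := fun h => z.denom_ne_zero (hs ▸ h)
  obtain ⟨u, hu⟩ := (normD_unit p h).exists_right_inv
  refine ⟨algebraMap _ _ a * u, ?_⟩
  have := congrArg (normD_pi p) hu
  rw [map_mul, map_one, normD_pi_alg, normD_ev_eq, hs] at this
  rw [map_mul, normD_pi_alg, normD_ev_eq, ha, eq_inv_of_mul_eq_one_right this,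
    ← div_eq_mul_inv, RatFunc.num_div_denom]

omit hp in
theorem normD_int (q : ℚ[X]) : ∃ (a : ℤ[X]) (m : ℤ), m ≠ 0 ∧
    normEv (RatFunc.X : RatFunc ℚ) a = m * algebraMap ℚ[X] _ q := by
  obtain ⟨b, hb, e⟩ := IsLocalization.integerNormalization_spec (nonZeroDivisors ℤ) q
  refine ⟨IsLocalization.integerNormalization (nonZeroDivisors ℤ) q, b,
    nonZeroDivisors.ne_zero hb, ?_⟩
  rw [normD_ev_eq, ← algebraMap_int_eq, e, zsmul_eq_mul, map_mul, map_intCast]

theorem normD_frac (z : RatFunc ℚ) : ∃ x y, z = normD_i p x / normD_i p y := by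
  obtain ⟨a, m, hm, ea⟩ := normD_int z.num
  obtain ⟨b, n, hn, eb⟩ := normD_int z.denom
  refine ⟨n * algebraMap _ _ a, m * algebraMap _ _ b, ?_⟩
  have hm' : (m : RatFunc ℚ) ≠ 0 := by exact_mod_cast hm
  have hn' : (n : RatFunc ℚ) ≠ 0 := by exact_mod_cast hn
  rw [map_mul, map_mul, normD_i_alg, normD_i_alg, ea, eb, map_intCast, map_intCast,
    ← mul_assoc, ← mul_assoc, mul_comm (n : RatFunc ℚ), mul_div_mul_left _ _ (mul_ne_zero hm' hn'),
    RatFunc.num_div_denom]

theorem normD_ev_mem (s : ℤ[X]) : normEv (RatFunc.X : RatFunc ℚ) s ∈ Lam1 p := by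
  have hX : (RatFunc.X : RatFunc ℚ) ∈ Lam1 p := Subring.subset_closure (Or.inr rfl)
  induction s using Polynomial.induction_on with
  | C a => simp
  | add a b ha hb => rw [map_add]; exact add_mem ha hb
  | monomial n a h => rw [pow_succ, ← mul_assoc, map_mul, normEv_X]; exact mul_mem h hX

theorem normD_lam1_le : Lam1 p ≤ Lam p :=
  Subring.closure_mono (Set.union_subset_union_right _ (by simp))

theorem normD_inv_mem {m : ℤ} (h : ¬(p : ℤ) ∣ m) : (m : RatFunc ℚ)⁻¹ ∈ Lam1 p := by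
  refine Subring.subset_closure (Or.inl ⟨(m : ℚ)⁻¹, (mem_Zp p).2 ⟨1, m, h, by simp⟩, by simp⟩)

theorem normD_lam1_range {x : RatFunc ℚ} (h : x ∈ Lam1 p) : x ∈ (normD_i p).range := by
  refine (Subring.closure_le.2 ?_ : Lam1 p ≤ _) h
  rintro _ (⟨q, hq, rfl⟩ | rfl)
  · obtain ⟨a, b, hb, rfl⟩ := (mem_Zp p).1 hq
    have h1 : (C b : ℤ[X]) ∉ normD_P p := by
      rw [normD_mem, ← C_eq_natCast, C_dvd_iff_dvd_coeff]
      exact fun h => hb (by simpa using h 0)
    obtain ⟨u, hu⟩ := (normD_unit p h1).exists_right_inv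
    have := congrArg (normD_i p) hu
    rw [map_mul, map_one, normD_i_alg, eq_intCast, map_intCast] at this
    refine ⟨a * u, ?_⟩
    rw [map_mul, eq_inv_of_mul_eq_one_right this]
    simp [div_eq_mul_inv]
  · exact ⟨algebraMap _ _ (X : ℤ[X]), by rw [normD_i_alg, normEv_X]⟩

theorem normD_lam1_poly {x : RatFunc ℚ} (h : x ∈ Lam1 p) : x ∈ (algebraMap ℚ[X] _).range := by
  refine (Subring.closure_le.2 ?_ : Lam1 p ≤ _) h
  rintro _ (⟨q, -, rfl⟩ | rfl)
  · exact ⟨C q, rfl⟩
  · exact ⟨X, RatFunc.algebraMap_X⟩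

/-- Gauss lemma -/
theorem normD_gauss (x : normD_L p) (q : ℚ[X]) (h : normD_i p x = algebraMap ℚ[X] _ q) :
    normD_i p x ∈ Lam1 p := by
  obtain ⟨b, s, hs, e⟩ := normD_surj p x
  obtain ⟨a, m, hm, ea⟩ := normD_int q
  have hpp : Prime (p : ℤ[X]) := by
    rw [← Ideal.span_singleton_prime (by exact_mod_cast hp.out.ne_zero), ← normD_span]
    infer_instance
  obtain ⟨k, m', hm', rfl⟩ := WfDvdMonoid.max_power_factor' hm
    (Nat.prime_iff_prime_int.1 hp.out).not_isUnit
  have e1 : a * s = (p : ℤ[X]) ^ k * (m' * b) := by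
    by_contra hne
    refine normD_ne0 (sub_ne_zero.2 hne) ?_
    have := congrArg (normD_i p) e
    rw [map_mul, normD_i_alg, normD_i_alg, h] at this
    simp only [map_sub, map_mul, map_pow, map_natCast, map_intCast, ea, ← this]
    push_cast; ring
  obtain ⟨a', rfl⟩ : (p : ℤ[X]) ^ k ∣ a :=
    hpp.pow_dvd_of_dvd_mul_right k (fun h => hs ((normD_mem p).2 h)) ⟨_, e1⟩
  have hp0 : ((p : RatFunc ℚ)) ^ k ≠ 0 := pow_ne_zero _ (by exact_mod_cast hp.out.ne_zero)
  have hm0 : (m' : RatFunc ℚ) ≠ 0 := by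
    exact_mod_cast fun h : m' = 0 => hm' (h ▸ dvd_zero _)
  have e2 : algebraMap ℚ[X] (RatFunc ℚ) q = (m' : RatFunc ℚ)⁻¹ * normEv RatFunc.X a' := by
    rw [map_mul, map_pow, map_natCast] at ea
    push_cast at ea
    rw [mul_assoc] at ea
    rw [mul_left_cancel₀ hp0 ea, inv_mul_cancel_left₀ hm0]
  rw [h, e2]
  exact mul_mem (normD_inv_mem p hm') (normD_ev_mem p a')

/-- a finite algebra over the function field of the fibre that computes norms modulo `p` -/
structure NormQ {κ : Type} [Field κ] [Algebra (RatFunc ℚ) κ] (R₁ : Subring κ) where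
  R : Subring κ
  Q : Type
  [cr : CommRing Q]
  [alg : Algebra (RatFunc (ZMod p)) Q]
  [fin : FiniteDimensional (RatFunc (ZMod p)) Q]
  red : R →+* Q
  le : R₁ ≤ R
  den : ∀ z ∈ R, ∃ s : ℤ[X], s ∉ normD_P p ∧ normEv (algebraMap (RatFunc ℚ) κ RatFunc.X) s * z ∈ R₁
  inv : ∀ s : ℤ[X], s ∉ normD_P p →
    normEv (algebraMap (RatFunc ℚ) κ RatFunc.X) s ≠ 0 ∧ (normEv (algebraMap (RatFunc ℚ) κ RatFunc.X) s)⁻¹ ∈ R
  surj : Function.Surjective red
  ker : RingHom.ker red = Ideal.span {(p : R)}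
  max : ∀ P : Ideal R, P.IsMaximal → (p : R) ∈ P
  X_eq : ∀ h, red ⟨algebraMap (RatFunc ℚ) κ RatFunc.X, h⟩ = algebraMap (RatFunc (ZMod p)) Q RatFunc.X
  norm : ∀ g (hg : g ∈ R₁) (c : ZMod p) (ν : ℕ), c ≠ 0 →
    Algebra.norm (RatFunc (ZMod p)) (red ⟨g, le hg⟩) = RatFunc.C c * RatFunc.X ^ ν →
    ∃ c' : ℤ, ¬(p : ℤ) ∣ c' ∧ ∃ μ ∈ Lam p,
      Algebra.norm (RatFunc ℚ) g = (c' : RatFunc ℚ) * RatFunc.X ^ ν + (p : RatFunc ℚ) * μ

attribute [instance] NormQ.cr NormQ.alg NormQ.fin

theorem normD_exists {κ : Type} [Field κ] [Algebra (RatFunc ℚ) κ] (R₁ : Subring κ)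
    (h1 : ∀ x ∈ Lam1 p, algebraMap (RatFunc ℚ) κ x ∈ R₁) (t : Finset κ) (ht : ∀ x ∈ t, x ∈ R₁)
    (hsp : ∀ x ∈ R₁, x ∈ span (Lam1 p) (t : Set κ))
    (hfr : ∀ z : κ, ∃ a ∈ R₁, ∃ b ∈ R₁, z = a / b) : Nonempty (NormQ p R₁) := by
  classical
  have hae : ∀ s : ℤ[X], normEv (algebraMap (RatFunc ℚ) κ RatFunc.X) s =
      algebraMap (RatFunc ℚ) κ (normEv RatFunc.X s) := fun s =>
    (normEv_map _ _ s).symm
  have hm : ∀ s : ℤ[X], normEv (algebraMap (RatFunc ℚ) κ RatFunc.X) s ∈ R₁ := fun s =>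
    hae s ▸ h1 _ (normD_ev_mem p s)
  have hn : ∀ s : ℤ[X], s ∉ normD_P p → normEv (algebraMap (RatFunc ℚ) κ RatFunc.X) s ≠ 0 := by
    intro s hs
    rw [hae, ne_eq, FaithfulSMul.algebraMap_eq_zero_iff]
    exact normD_ne0 fun h => hs (h ▸ zero_mem _)
  let R : Subring κ :=
    { carrier := {z | ∃ s : ℤ[X], s ∉ normD_P p ∧ normEv (algebraMap (RatFunc ℚ) κ RatFunc.X) s * z ∈ R₁}
      mul_mem' := by
        rintro a b ⟨s, hs, ha⟩ ⟨s', hs', hb⟩
        refine ⟨s * s', fun h => ((normD_prime p).mem_or_mem h).elim hs hs', ?_⟩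
        rw [map_mul, mul_mul_mul_comm]; exact mul_mem ha hb
      one_mem' := ⟨1, (Ideal.ne_top_iff_one _).1 (normD_prime p).ne_top, by simp⟩
      add_mem' := by
        rintro a b ⟨s, hs, ha⟩ ⟨s', hs', hb⟩
        refine ⟨s * s', fun h => ((normD_prime p).mem_or_mem h).elim hs hs', ?_⟩
        have := add_mem (mul_mem (hm s') ha) (mul_mem (hm s) hb)
        rw [map_mul]; convert this using 1; ring
      zero_mem' := ⟨1, (Ideal.ne_top_iff_one _).1 (normD_prime p).ne_top, by simp⟩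
      neg_mem' := by
        rintro a ⟨s, hs, ha⟩
        exact ⟨s, hs, by rw [mul_neg]; exact neg_mem ha⟩ }
  have hle : R₁ ≤ R := fun z hz =>
    ⟨1, (Ideal.ne_top_iff_one _).1 (normD_prime p).ne_top, by simpa using hz⟩
  let _ : Algebra (normD_L p) (RatFunc ℚ) := (normD_i p).toAlgebra
  let j : normD_L p →+* κ := (algebraMap (RatFunc ℚ) κ).comp (normD_i p)
  have hj : ∀ s : ℤ[X], j (algebraMap _ _ s) = normEv (algebraMap (RatFunc ℚ) κ RatFunc.X) s :=
    fun s => by rw [hae, ← normD_i_alg p]; rfl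
  have hjR : ∀ x, j x ∈ R := fun x => by
    obtain ⟨a, s, hs, e⟩ := normD_surj p x
    refine ⟨s, hs, ?_⟩
    rw [← hj, ← map_mul, mul_comm, e, hj]; exact hm a
  let _ : Algebra (normD_L p) κ := j.toAlgebra
  let _ : Algebra (normD_L p) R := (j.codRestrict R hjR).toAlgebra
  have : IsScalarTower (normD_L p) (RatFunc ℚ) κ := IsScalarTower.of_algebraMap_eq fun _ => rfl
  have : IsScalarTower (normD_L p) R κ := IsScalarTower.of_algebraMap_eq fun _ => rfl
  have hjinj : Function.Injective j := (algebraMap (RatFunc ℚ) κ).injective.comp (normD_i_inj p)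
  have : FaithfulSMul (normD_L p) (RatFunc ℚ) :=
    (faithfulSMul_iff_algebraMap_injective _ _).2 (normD_i_inj p)
  have : FaithfulSMul (normD_L p) R :=
    (faithfulSMul_iff_algebraMap_injective _ _).2 fun a b h => hjinj (congrArg Subtype.val h)
  have : IsFractionRing (normD_L p) (RatFunc ℚ) := IsFractionRing.of_field _ _ (normD_frac p)
  have : IsFractionRing R κ := IsFractionRing.of_field _ _ fun z => by
    obtain ⟨a, ha, b, hb, e⟩ := hfr z
    exact ⟨⟨a, hle ha⟩, ⟨b, hle hb⟩, e⟩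
  have hsp1 : ∀ x ∈ R₁, x ∈ span (normD_L p) (t : Set κ) := fun x hx => by
    refine span_induction (p := fun x _ => x ∈ span (normD_L p) (t : Set κ))
      (fun x hx => subset_span hx) (zero_mem _) (fun _ _ _ _ => add_mem) ?_ (hsp x hx)
    rintro ⟨c, hc⟩ x - hx
    obtain ⟨l, rfl⟩ := normD_lam1_range p hc
    have := smul_mem _ l hx
    rwa [← algebraMap_smul (RatFunc ℚ)] at this
  have hsp2 : ∀ x : R, (x : κ) ∈ span (normD_L p) (t : Set κ) := by
    rintro ⟨x, s, hs, hx⟩
    obtain ⟨u, hu⟩ := (normD_unit p hs).exists_left_inv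
    have := smul_mem _ u (hsp1 _ hx)
    rwa [← hj, Algebra.smul_def, ← mul_assoc, show algebraMap _ κ u = j u from rfl, ← map_mul, hu,
      map_one, one_mul] at this
  have : Module.Finite (normD_L p) R := normD_fin (κ := κ) Subtype.val_injective t hsp2
  obtain ⟨Q, cr, alg, fin, mk, hs, hk, hal, hN⟩ :=
    normD_resid (R := R) (normD_pi p) (normD_pi_surj p)
  rw [normD_max, Ideal.map_span, Set.image_singleton, map_natCast] at hk
  refine ⟨⟨R, Q, mk, hle, fun z hz => hz, fun s hs => ⟨hn s hs, s, hs, ?_⟩, hs, hk, fun P hP => ?_,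
    fun h => ?_, fun g hg c ν hc e => ?_⟩⟩
  · rw [mul_inv_cancel₀ (hn s hs)]; exact one_mem _
  · have := IsLocalRing.eq_maximalIdeal
      (Ideal.isMaximal_comap_of_isIntegral_of_isMaximal (R := normD_L p) P)
    have h2 : (p : normD_L p) ∈ P.comap (algebraMap (normD_L p) R) := by
      rw [this, normD_max]; exact Ideal.mem_span_singleton_self _
    simpa using h2
  · have := hal (algebraMap _ _ (X : ℤ[X]))
    rw [normD_pi_alg, normEv_X] at this
    rw [← this]
    congr 1
    exact Subtype.ext ((normEv_X _).symm.trans (hj X).symm)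
  · have e1 : Algebra.norm (RatFunc ℚ) g = normD_i p (Algebra.norm (normD_L p) (⟨g, hle hg⟩ : R)) :=
      Algebra.norm_localization (normD_L p) (nonZeroDivisors _) (Sₘ := κ) (⟨g, hle hg⟩ : R)
    obtain ⟨c', rfl⟩ := ZMod.intCast_surjective c
    refine ⟨c', fun h => hc ((ZMod.intCast_zmod_eq_zero_iff_dvd _ _).2 h), ?_⟩
    have h2 : Algebra.norm (normD_L p) (⟨g, hle hg⟩ : R) - c' * algebraMap _ _ (X : ℤ[X]) ^ ν ∈
        IsLocalRing.maximalIdeal (normD_L p) := by
      rw [← IsLocalRing.ker_eq_maximalIdeal _ (normD_pi_surj p), RingHom.mem_ker, map_sub, ← hN, e,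
        map_mul, map_pow, normD_pi_alg, normEv_X, map_intCast, map_intCast, sub_self]
    rw [normD_max] at h2
    obtain ⟨l, hl⟩ := Ideal.mem_span_singleton.1 h2
    have e2 : Algebra.norm (RatFunc ℚ) g =
        (c' : RatFunc ℚ) * RatFunc.X ^ ν + (p : RatFunc ℚ) * normD_i p l := by
      have := congrArg (normD_i p) hl
      rw [map_sub, ← e1, map_mul, map_mul, map_pow, normD_i_alg, normEv_X, map_intCast,
        map_natCast] at this
      linear_combination this
    refine ⟨_, normD_lam1_le p ?_, e2⟩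
    let _ : Algebra ℚ[X] κ := ((algebraMap (RatFunc ℚ) κ).comp (algebraMap ℚ[X] _)).toAlgebra
    have : IsScalarTower ℚ[X] (RatFunc ℚ) κ := IsScalarTower.of_algebraMap_eq fun _ => rfl
    have hsp3 : ∀ x ∈ R₁, x ∈ span ℚ[X] (t : Set κ) := fun x hx => by
      refine span_induction (p := fun x _ => x ∈ span ℚ[X] (t : Set κ))
        (fun x hx => subset_span hx) (zero_mem _) (fun _ _ _ _ => add_mem) ?_ (hsp x hx)
      rintro ⟨c, hc⟩ x - hx
      obtain ⟨l, rfl⟩ := normD_lam1_poly p hc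
      have := smul_mem _ l hx
      rwa [← algebraMap_smul (RatFunc ℚ)] at this
    have hint : IsIntegral ℚ[X] g := by
      refine isIntegral_of_smul_mem_submodule (span ℚ[X] (t : Set κ)) (fun h => ?_)
        (fg_span t.finite_toSet) g fun n hn => ?_
      · simpa [h] using hsp3 1 (one_mem _)
      · refine span_induction (p := fun x _ => g • x ∈ span ℚ[X] (t : Set κ))
          (fun x hx => hsp3 _ (mul_mem hg (ht x hx))) (by simp)
          (fun _ _ _ _ h h' => by rw [smul_add]; exact add_mem h h')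
          (fun c x _ h => by rw [smul_comm]; exact smul_mem _ c h) hn
    obtain ⟨q, hq⟩ := IsIntegrallyClosed.algebraMap_eq_of_integral
      (Algebra.isIntegral_norm (RatFunc ℚ) hint)
    refine normD_gauss p l (C (p : ℚ)⁻¹ * (q - (c' : ℚ[X]) * X ^ ν)) ?_
    have hp0 : (p : RatFunc ℚ) ≠ 0 := by exact_mod_cast hp.out.ne_zero
    rw [map_mul, map_sub, hq, e2, map_mul, map_pow, map_intCast, RatFunc.algebraMap_X,
      RatFunc.algebraMap_C, map_inv₀, map_natCast]
    field_simp
    ring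

end

end Pool.Agent.Lib.MP_62d77c_ag
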