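import Pool.Agent.Lib.MP_62d77c_ag.NormDA
import Pool.Agent.Lib.MP_62d77c_ag.Inv

/-! Dehomogenisation into a ring where the hyperplane bundle is trivial. -/

set_option autoImplicit false

namespace Pool.Agent.Lib.MP_62d77c_ag

open Filter Polynomial Submodule

noncomputable section

section deh
variable {A : Type} [CommRing A] {𝒜 : ℕ → AddSubgroup A} [GradedRing 𝒜]

theorem normD_twist {K : Type} [CommRing K] (θ : A →+* K) (μ : K) :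
    ∃ ψ : A →+* K, ∀ n, ∀ a ∈ 𝒜 n, ψ a = θ a * μ ^ n := by
  let φ : (DirectSum ℕ fun n => 𝒜 n) →+* K := DirectSum.toSemiring
    (fun n => (AddMonoidHom.mulRight (μ ^ n)).comp (θ.toAddMonoidHom.comp (𝒜 n).subtype))
    (by simp) fun a b => by simp [pow_add]; ring
  refine ⟨φ.comp (DirectSum.decomposeRingEquiv 𝒜).toRingHom, fun n a ha => ?_⟩
  refine (congrArg φ (DirectSum.decompose_of_mem 𝒜 ha)).trans ?_
  rw [DirectSum.toSemiring_of]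
  rfl

theorem normD_hom_le {𝔞 J : Ideal A} (h : 𝔞.IsHomogeneous 𝒜)
    (hJ : ∀ n, ∀ a ∈ 𝔞, a ∈ 𝒜 n → a ∈ J) : 𝔞 ≤ J := by
  classical
  intro x hx
  rw [← DirectSum.sum_support_decompose 𝒜 x]
  exact sum_mem fun i _ => hJ i _ (h i hx) (SetLike.coe_mem _)

theorem normD_span_hom {f : A} {a : ℕ} (hf : f ∈ 𝒜 a) : (Ideal.span {f}).IsHomogeneous 𝒜 :=
  Ideal.homogeneous_span 𝒜 _ fun _ hx => hx ▸ ⟨a, hf⟩

variable (𝒜) in
/-- `ψ` presents `S` as a localisation of `Proj (A ⧸ 𝔞₀)` on which `O(1)` is trivial -/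
structure NormDeh {S : Type} [CommRing S] (ψ : A →+* S) (𝔞₀ : Ideal A) : Prop where
  frac : ∀ r : S, ∃ n, ∃ a ∈ 𝒜 n, ∃ b ∈ 𝒜 n, IsUnit (ψ b) ∧ r * ψ b = ψ a
  shift : ∃ N, ∃ h₁ ∈ 𝒜 N, ∃ h₂ ∈ 𝒜 (N + 1), IsUnit (ψ h₁) ∧ ψ h₁ = ψ h₂
  ker : ∀ n, ∀ c ∈ 𝒜 n, ψ c = 0 → ∃ s, IsUnit (ψ s) ∧ s * c ∈ 𝔞₀

namespace NormDeh
variable {S : Type} [CommRing S] {ψ : A →+* S} {𝔞₀ 𝔞 : Ideal A}

theorem hom (H : NormDeh 𝒜 ψ 𝔞₀) (n n' : ℕ) : ∃ (k : ℕ) (s s' : A), IsUnit (ψ s) ∧ ψ s = ψ s' ∧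
    (∀ a ∈ 𝒜 n, s * a ∈ 𝒜 k) ∧ ∀ a ∈ 𝒜 n', s' * a ∈ 𝒜 k := by
  obtain ⟨N, h₁, d₁, h₂, d₂, hu, e⟩ := H.shift
  refine ⟨(N + 1) * (n + n'), h₁ ^ n * h₂ ^ n', h₁ ^ n' * h₂ ^ n, ?_, ?_, fun a ha => ?_,
    fun a ha => ?_⟩
  · rw [map_mul, map_pow, map_pow, ← e]; exact (hu.pow _).mul (hu.pow _)
  · simp only [map_mul, map_pow, ← e]; ring
  · convert SetLike.mul_mem_graded (SetLike.mul_mem_graded (SetLike.pow_mem_graded n d₁)
      (SetLike.pow_mem_graded n' d₂)) ha using 2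
    simp only [smul_eq_mul]; ring
  · convert SetLike.mul_mem_graded (SetLike.mul_mem_graded (SetLike.pow_mem_graded n' d₁)
      (SetLike.pow_mem_graded n d₂)) ha using 2
    simp only [smul_eq_mul]; ring

theorem mem_map (H : NormDeh 𝒜 ψ 𝔞₀) (h : 𝔞.IsHomogeneous 𝒜) {r : S} (hr : r ∈ 𝔞.map ψ) :
    ∃ n, ∃ a ∈ 𝔞, a ∈ 𝒜 n ∧ ∃ v, IsUnit v ∧ r * v = ψ a := by
  let J : Ideal S :=
    { carrier := {r | ∃ n, ∃ a ∈ 𝔞, a ∈ 𝒜 n ∧ ∃ v, IsUnit v ∧ r * v = ψ a}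
      zero_mem' := ⟨0, 0, zero_mem _, zero_mem _, 1, isUnit_one, by simp⟩
      add_mem' := by
        rintro r r' ⟨n, a, ha, da, v, hv, e⟩ ⟨n', a', ha', da', v', hv', e'⟩
        obtain ⟨m, c, dc, b, db, hb, f⟩ := H.frac v
        obtain ⟨m', c', dc', b', db', hb', f'⟩ := H.frac v'
        obtain ⟨k, s, s', hs, es, d1, d2⟩ := H.hom (n + m' + m) (n' + m + m')
        refine ⟨k, s * (a * c' * b) + s' * (a' * c * b'), ?_, add_mem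
          (d1 _ (SetLike.mul_mem_graded (SetLike.mul_mem_graded da dc') db))
          (d2 _ (SetLike.mul_mem_graded (SetLike.mul_mem_graded da' dc) db')),
          v * v' * ψ b * ψ b' * ψ s, (((hv.mul hv').mul hb).mul hb').mul hs, ?_⟩
        · exact add_mem (𝔞.mul_mem_left _ (𝔞.mul_mem_right _ (𝔞.mul_mem_right _ ha)))
            (𝔞.mul_mem_left _ (𝔞.mul_mem_right _ (𝔞.mul_mem_right _ ha')))
        · simp only [map_add, map_mul, ← es, ← e, ← e', ← f, ← f']; ring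
      smul_mem' := by
        rintro r₀ r ⟨n, a, ha, da, v, hv, e⟩
        obtain ⟨m, c, dc, b, db, hb, f⟩ := H.frac r₀
        refine ⟨m + n, c * a, 𝔞.mul_mem_left _ ha, SetLike.mul_mem_graded dc da, v * ψ b,
          hv.mul hb, ?_⟩
        rw [map_mul, ← e, ← f, smul_eq_mul]; ring }
  exact (Ideal.map_le_iff_le_comap.2 (normD_hom_le h fun n a ha da =>
    ⟨n, a, ha, da, 1, isUnit_one, mul_one _⟩) : 𝔞.map ψ ≤ J) hr

theorem key (H : NormDeh 𝒜 ψ 𝔞₀) (h : 𝔞.IsHomogeneous 𝒜) (hle : 𝔞₀ ≤ 𝔞) {n : ℕ} {c : A}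
    (dc : c ∈ 𝒜 n) (hc : ψ c ∈ 𝔞.map ψ) : ∃ s, IsUnit (ψ s) ∧ s * c ∈ 𝔞 := by
  obtain ⟨n', a, ha, da, v, hv, e⟩ := H.mem_map h hc
  obtain ⟨m, d, dd, b, db, hb, f⟩ := H.frac v
  obtain ⟨k, s, s', hs, es, d1, d2⟩ := H.hom (n + m) (n' + m)
  obtain ⟨w, hw, hm⟩ := H.ker k (s * (c * d) - s' * (a * b))
    (sub_mem (d1 _ (SetLike.mul_mem_graded dc dd)) (d2 _ (SetLike.mul_mem_graded da db)))
    (by simp only [map_sub, map_mul, ← es, ← e, ← f]; ring)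
  refine ⟨w * s * d, ?_, ?_⟩
  · rw [map_mul, map_mul, ← f]; exact (hw.mul hs).mul (hv.mul hb)
  · have := add_mem (hle hm) (𝔞.mul_mem_left (w * s' * b) ha)
    convert this using 1; ring

theorem colon (H : NormDeh 𝒜 ψ 𝔞₀) (h : 𝔞.IsHomogeneous 𝒜) (hle : 𝔞₀ ≤ 𝔞) {a : ℕ} {f : A}
    (hf : f ∈ 𝒜 a) : (𝔞.map ψ).colon {ψ f} = (𝔞.colon {f}).map ψ := by
  refine le_antisymm (fun r hr => ?_) (Ideal.map_le_iff_le_comap.2 fun x hx => ?_)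
  · rw [Submodule.mem_colon_singleton, smul_eq_mul] at hr
    obtain ⟨n, c, dc, b, -, hb, e⟩ := H.frac r
    obtain ⟨s, hs, hm⟩ := H.key h hle (SetLike.mul_mem_graded dc hf) (by
      have := Ideal.mul_mem_right (ψ b) _ hr
      rw [map_mul, ← e]; convert this using 1; ring)
    have : ψ (s * c) ∈ (𝔞.colon {f}).map ψ := Ideal.mem_map_of_mem _ (by
      rw [Submodule.mem_colon_singleton, smul_eq_mul, mul_assoc]; exact hm)
    rw [map_mul, ← e, Ideal.unit_mul_mem_iff_mem _ hs, Ideal.mul_unit_mem_iff_mem _ hb] at this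
    exact this
  · rw [Submodule.mem_colon_singleton, smul_eq_mul] at hx
    rw [Ideal.mem_comap, Submodule.mem_colon_singleton, smul_eq_mul, ← map_mul]
    exact Ideal.mem_map_of_mem _ hx

theorem quot (H : NormDeh 𝒜 ψ 𝔞₀) (h : 𝔞.IsHomogeneous 𝒜) (hle : 𝔞₀ ≤ 𝔞) {Q : Type} [CommRing Q]
    (mk : S →+* Q) (hs : Function.Surjective mk) (hk : RingHom.ker mk ≤ 𝔞.map ψ) :
    NormDeh 𝒜 (mk.comp ψ) 𝔞 where
  frac r := by
    obtain ⟨x, rfl⟩ := hs r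
    obtain ⟨n, a, da, b, db, hb, e⟩ := H.frac x
    exact ⟨n, a, da, b, db, hb.map mk, by simp [← e]⟩
  shift := by
    obtain ⟨N, h₁, d₁, h₂, d₂, hu, e⟩ := H.shift
    exact ⟨N, h₁, d₁, h₂, d₂, hu.map mk, by simp [e]⟩
  ker n c dc hc := by
    obtain ⟨s, hs, hm⟩ := H.key h hle dc (hk hc)
    exact ⟨s, hs.map mk, hm⟩

end NormDeh

end deh

theorem normD_of_local {S : Type} [CommRing S] {J : Ideal S} {x : S}
    (h : ∀ P : Ideal S, P.IsMaximal → ∃ b ∉ P, b * x ∈ J) : x ∈ J := by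
  by_contra hx
  obtain ⟨P, hP, hle⟩ := Ideal.exists_le_maximal (J.colon {x}) fun e => hx (by
    have : (1 : S) ∈ J.colon {x} := e ▸ Submodule.mem_top
    simpa [Submodule.mem_colon_singleton] using this)
  obtain ⟨b, hb, hm⟩ := h P hP
  exact hb (hle (by rwa [Submodule.mem_colon_singleton, smul_eq_mul]))

variable {A : Type} [CommRing A] [IsDomain A] {𝒜 : ℕ → AddSubgroup A} [GradedRing 𝒜]
  [hG : Fact (Gen 𝒜)] {p : ℕ} [Fact p.Prime]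

/-- the norm of `g` on the quotient by `𝔞` is a monomial whose degree is the degree of `M` -/
def NormOK (x : Vp 𝒜 p) (M : Pic (Mp x).V) {Q : Type} [CommRing Q]
    [Algebra (RatFunc (ZMod p)) Q] (ψ : A →+* Q) (g : Q) (𝔞 : Ideal A) : Prop :=
  ∃ (ν : ℕ) (c : ZMod p), c ≠ 0 ∧
    normDt (RatFunc (ZMod p)) g (𝔞.map ψ) = RatFunc.C c * RatFunc.X ^ ν ∧
    Phi x 𝔞 M - Phi x 𝔞 1 = C (ν : ℚ)

theorem normOK_irr (x : Vp 𝒜 p) (M : Pic (Mp x).V) {Q : Type} [CommRing Q]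
    [Algebra (RatFunc (ZMod p)) Q] (ψ : A →+* Q) (g : Q) {𝔞 : Ideal A} (h : 𝔞.map ψ = ⊤)
    (h' : Phi x 𝔞 M = Phi x 𝔞 1) : NormOK x M ψ g 𝔞 :=
  ⟨0, 1, one_ne_zero, by simp [h, normDt_top], by simp [h']⟩

theorem normOK_filt (x : Vp 𝒜 p) (M : Pic (Mp x).V) {Q : Type} [CommRing Q]
    [Algebra (RatFunc (ZMod p)) Q] [FiniteDimensional (RatFunc (ZMod p)) Q] {ψ : A →+* Q} (g : Q)
    {𝔞₀ : Ideal A} (H : NormDeh 𝒜 ψ 𝔞₀)
    (hpt : ∀ y : Pt 𝒜, 𝔞₀ ≤ pr y → pr x.1 ≤ pr y → NormOK x M ψ g (pr y)) {𝔞 : Ideal A}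
    (h : 𝔞.IsHomogeneous 𝒜) (h0 : 𝔞₀ ≤ 𝔞) (hx : pr x.1 ≤ 𝔞) : NormOK x M ψ g 𝔞 := by
  obtain ⟨l, hl⟩ := exists_filt h
  induction hl with
  | top =>
    refine normOK_irr x M ψ g (Ideal.map_top _) ?_
    rw [Phi_irrelevant x h fun y _ hy => y.isPrime.ne_top (top_le_iff.1 hy)]; rfl
  | step 𝔞 f a l hf hq hl ih =>
    obtain ⟨-, hh, hle⟩ := (Filt.step 𝔞 f a l hf hq hl).mem h _ List.mem_cons_self
    obtain ⟨ν₁, c₁, hc₁, e₁, f₁⟩ := ih (h.sup (normD_span_hom hf)) (h0.trans le_sup_left)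
      (hx.trans le_sup_left)
    obtain ⟨ν₂, c₂, hc₂, e₂, f₂⟩ : NormOK x M ψ g (𝔞.colon {f}) := by
      rcases exists_pt hq hh with hi | ⟨y, hy⟩
      · obtain ⟨N, h₁, -, h₂, d₂, hu, e⟩ := H.shift
        have hm : h₂ ∈ 𝔞.colon {f} := by
          refine (AddSubgroup.closure_le (𝔞.colon {f}).toAddSubgroup).2 ?_
            (mem_closure_mul N 1 d₂)
          rintro _ ⟨b, -, c, hc, rfl⟩
          exact Ideal.mul_mem_left _ b (hi c hc)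
        refine normOK_irr x M ψ g
          (Ideal.eq_top_of_isUnit_mem _ (Ideal.mem_map_of_mem ψ hm) (e ▸ hu)) ?_
        rw [Phi_irrelevant x hh fun y _ hy => (ell_spec y).2 (hy (hi _ (ell_spec y).1))]; rfl
      · exact hy ▸ hpt y (hy ▸ h0.trans hle) (hy ▸ hx.trans hle)
    refine ⟨ν₁ + ν₂, c₁ * c₂, mul_ne_zero hc₁ hc₂, ?_, ?_⟩
    · rw [normDt_step g (ψ f), H.colon h h0 hf, e₂, ← Set.image_singleton, ← Ideal.map_span,
        ← Ideal.map_sup, e₁, map_mul, pow_add]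
      ring
    · rw [Phi_step x h hx hf M, Phi_step x h hx hf 1, add_sub_add_comm, ← sub_comp, f₁, f₂, C_comp,
        ← C_add]
      push_cast; rw [add_comm]

end

end Pool.Agent.Lib.MP_62d77c_ag
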