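import Pool.Agent.Lib.MP_62d77c_ag.Glue
import Pool.Agent.Lib.MP_62d77c_ag.DimC
import Pool.Agent.Lib.MP_62d77c_ag.Curve

/-! The prime factors of the filtration: points and curves. -/

set_option autoImplicit false

namespace Pool.Agent.Lib.MP_62d77c_ag

open Filter Polynomial Submodule

noncomputable section

theorem normD_algebraic {k K : Type} [Field k] [Field K] [Algebra k K] {V : Submodule k K}
    (hV : Mdl V) (hgen : ∀ z : K, ∃ n, ∃ a ∈ V ^ n, ∃ b ∈ V ^ n, z = a / b) {e : ℕ} (he : 0 < e)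
    {f₀ f₁ s : K} (hs : s ≠ 0) (h₀ : IsAlgebraic k (f₀ / s)) (h₁ : IsAlgebraic k (f₁ / s))
    (hcov : ∀ᶠ n in atTop, V ^ (n + e) ≤ span k {f₀, f₁} * V ^ n) : Algebra.IsAlgebraic k K := by
  obtain ⟨n₀, hn₀⟩ := eventually_atTop.1 hcov
  let B : Subalgebra k K := Algebra.adjoin k {f₀ / s, f₁ / s}
  have hB : (Subalgebra.toSubmodule B).FG := fg_adjoin_of_finite (Set.toFinite _) (by
    rintro _ (rfl | rfl)
    exacts [h₀.isIntegral, h₁.isIntegral])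
  let N : Submodule k K := Subalgebra.toSubmodule B * V ^ n₀
  have hBN : ∀ β ∈ B, ∀ w ∈ N, β * w ∈ N := fun β hβ w hw => by
    have : β * w ∈ Subalgebra.toSubmodule B * N := mul_mem_mul hβ hw
    rwa [← mul_assoc, B.isIdempotentElem_toSubmodule.eq] at this
  have hsp : ∀ x ∈ span k {f₀, f₁}, x / s ∈ B := fun x hx => by
    obtain ⟨a, b, rfl⟩ := mem_span_pair.1 hx
    rw [add_div, smul_div_assoc, smul_div_assoc]
    exact add_mem (B.smul_mem (Algebra.subset_adjoin (by simp)) _)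
      (B.smul_mem (Algebra.subset_adjoin (by simp)) _)
  have key : ∀ j, ∀ w ∈ V ^ (n₀ + j * e), w / s ^ j ∈ N := by
    intro j
    induction j with
    | zero => intro w hw; simpa using (mul_mem_mul (one_mem B) (by simpa using hw) : 1 * w ∈ N)
    | succ j ih =>
      intro w hw
      rw [Nat.succ_mul, ← add_assoc] at hw
      refine Submodule.mul_induction_on (hn₀ _ (Nat.le_add_right _ _) hw) (fun x hx v hv => ?_)
        fun x y hx hy => by rw [add_div]; exact add_mem hx hy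
      rw [pow_succ', mul_div_mul_comm]
      exact hBN _ (hsp x hx) _ (ih v hv)
  have hint : ∀ j, ∀ a ∈ V ^ (j * e), IsAlgebraic k (a / s ^ j) := fun j a ha => by
    refine (isIntegral_of_smul_mem_submodule N (fun h => ?_) (hB.mul (hV.1.pow _)) _
      fun w hw => ?_).isAlgebraic
    · rcases Submodule.mul_eq_bot.1 h with h | h
      · exact one_ne_zero ((Submodule.eq_bot_iff _).1 h 1 (one_mem B))
      · obtain ⟨v, hv, hv0⟩ := (Submodule.ne_bot_iff V).1 hV.2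
        exact pow_ne_zero n₀ hv0 ((Submodule.eq_bot_iff _).1 h _ (pow_mem_pow _ hv _))
    · refine Submodule.mul_induction_on hw (fun β hβ v hv => ?_)
        fun x y hx hy => by rw [smul_add]; exact add_mem hx hy
      have := hBN β hβ _ (key j (v * a) (by rw [pow_add]; exact mul_mem_mul hv ha))
      convert this using 1
      rw [smul_eq_mul]; ring
  refine ⟨fun z => ?_⟩
  obtain ⟨n, a, ha, b, hb, rfl⟩ := hgen z
  obtain ⟨e, rfl⟩ : ∃ e', e = e' + 1 := ⟨e - 1, by omega⟩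
  rcases eq_or_ne b 0 with rfl | hb0
  · simpa using isAlgebraic_zero
  have h1 := hint n (b ^ e * a) (by
    rw [mul_add, mul_one, pow_add, pow_mul]; exact mul_mem_mul (pow_mem_pow _ hb _) ha)
  have h2 := hint n (b ^ (e + 1)) (by rw [pow_mul]; exact pow_mem_pow _ hb _)
  have : a / b = b ^ e * a / s ^ n * (b ^ (e + 1) / s ^ n)⁻¹ := by field_simp; ring
  rw [this]; exact h1.mul h2.inv

variable {A : Type} [CommRing A] [IsDomain A] {𝒜 : ℕ → AddSubgroup A} [GradedRing 𝒜]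
  [hG : Fact (Gen 𝒜)] {p : ℕ} [Fact p.Prime]

theorem normD_gen (y : Vp 𝒜 p) (z : kap y.1) :
    ∃ n, ∃ a ∈ (Mp y).V ^ n, ∃ b ∈ (Mp y).V ^ n, z = a / b := by
  obtain ⟨n, a, ha, b, hb, -, e⟩ := th_gen y.1 z
  exact ⟨n, _, (Mp y).mem_pow.2 ⟨a, ha, rfl⟩, _, (Mp y).mem_pow.2 ⟨b, hb, rfl⟩, e⟩

theorem normD_cov (y : Vp 𝒜 p) {e : ℕ} {F₀ F₁ : A} (d₀ : F₀ ∈ 𝒜 e) (d₁ : F₁ ∈ 𝒜 e)
    (h : ∀ y' : Vp 𝒜 p, pr y.1 ≤ pr y'.1 → F₀ ∉ pr y'.1 ∨ F₁ ∉ pr y'.1) :
    ∀ᶠ n in atTop, (Mp y).V ^ (n + e) ≤ span (ZMod p) {th y.1 F₀, th y.1 F₁} * (Mp y).V ^ n := by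
  obtain ⟨r, hr, hn⟩ := nakayama_cover (p := p) (F := ![F₀, F₁]) (e := e)
    (fun i => by fin_cases i <;> assumption) (pr_hom y.1)
    fun y' hy => (h y' hy).elim (fun h => ⟨0, h⟩) fun h => ⟨1, h⟩
  filter_upwards [hn] with n hn z hz
  obtain ⟨a, ha, rfl⟩ := (Mp y).mem_pow.1 hz
  obtain ⟨c, hc, hm⟩ := hn a ha
  simp only [Fin.sum_univ_two, Matrix.cons_val_zero, Matrix.cons_val_one] at hm
  have hd : (r : A) * a - (F₀ * c 0 + F₁ * c 1) ∈ 𝒜 (n + e) := by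
    refine sub_mem (by rw [← zsmul_eq_mul]; exact zsmul_mem ha r) (add_mem ?_ ?_) <;>
      rw [add_comm]
    exacts [SetLike.mul_mem_graded d₀ (hc 0), SetLike.mul_mem_graded d₁ (hc 1)]
  have h0 := (th_eq_zero y.1 hd).2 hm
  rw [map_sub, sub_eq_zero, map_mul, map_add, map_mul, map_mul, map_intCast] at h0
  have hr' : (r : ZMod p) ≠ 0 := fun h => hr ((ZMod.intCast_zmod_eq_zero_iff_dvd _ _).1 h)
  have : (Mp y).θ a = (r : ZMod p)⁻¹ • ((r : kap y.1) * th y.1 a) := by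
    rw [← map_intCast (algebraMap (ZMod p) (kap y.1)), ← Algebra.smul_def, inv_smul_smul₀ hr']
    rfl
  rw [this, h0]
  refine smul_mem _ _ (add_mem ?_ ?_)
  · exact mul_mem_mul (subset_span (by simp)) ((Mp y).mem_pow.2 ⟨_, hc 0, rfl⟩)
  · exact mul_mem_mul (subset_span (by simp)) ((Mp y).mem_pow.2 ⟨_, hc 1, rfl⟩)

theorem normD_point {x y : Vp 𝒜 p} (hxy : pr x.1 ≤ pr y.1) (M : Pic (Mp x).V) {e : ℕ} (he : 0 < e)
    {F₀ F₁ : A} (d₀ : F₀ ∈ 𝒜 e) (d₁ : F₁ ∈ 𝒜 e)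
    (h : ∀ y' : Vp 𝒜 p, pr y.1 ≤ pr y'.1 → F₀ ∉ pr y'.1 ∨ F₁ ∉ pr y'.1)
    (ha : F₁ ∈ pr y.1 ∨ IsAlgebraic (ZMod p) (th y.1 F₀ / th y.1 F₁)) :
    Phi x (pr y.1) M = Phi x (pr y.1) 1 := by
  have : Algebra.IsAlgebraic (ZMod p) (kap y.1) := by
    by_cases h1 : F₁ ∈ pr y.1
    · have h0 : th y.1 F₀ ≠ 0 := fun e => (h y le_rfl).elim (fun h => h ((th_eq_zero _ d₀).1 e))
        fun h => h h1
      refine normD_algebraic (mdl_Mp y) (normD_gen y) he h0 ?_ ?_ (normD_cov y d₀ d₁ h)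
      · rw [div_self h0]; exact isAlgebraic_one
      · rw [(th_eq_zero _ d₁).2 h1, zero_div]; exact isAlgebraic_zero
    · have h0 : th y.1 F₁ ≠ 0 := fun e => h1 ((th_eq_zero _ d₁).1 e)
      refine normD_algebraic (mdl_Mp y) (normD_gen y) he h0 (ha.resolve_left h1) ?_
        (normD_cov y d₀ d₁ h)
      rw [div_self h0]; exact isAlgebraic_one
  have h0 : dm y = 0 := by
    have := trdeg_eq_dm y
    rw [trdeg_eq_zero] at this
    exact_mod_cast this.symm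
  rw [Phi_pt hxy, Phi_pt hxy, (dim_zero (mdl_Mp y) h0 _).2.1, map_one]

theorem normD_curve {x y : Vp 𝒜 p} (hxy : pr x.1 ≤ pr y.1) {M : Pic (Mp x).V} {r e : ℕ}
    (he : 0 < e) {G : Fin r → Fin r → A} (hd : ∀ α β, G α β ∈ 𝒜 e) (hOn : GOn x e G M) (i j : Fin r)
    (h : ∀ y' : Vp 𝒜 p, pr y.1 ≤ pr y'.1 → G i i ∉ pr y'.1 ∨ G j j ∉ pr y'.1)
    (hj : G j j ∉ pr y.1) [Algebra (RatFunc (ZMod p)) (kap y.1)]
    [FiniteDimensional (RatFunc (ZMod p)) (kap y.1)]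
    (hX : algebraMap (RatFunc (ZMod p)) (kap y.1) RatFunc.X = th y.1 (G i i) / th y.1 (G j j)) :
    ∃ (ν : ℕ) (c : ZMod p), c ≠ 0 ∧ Algebra.norm (RatFunc (ZMod p))
      (th y.1 (G i j) / th y.1 (G j j)) = RatFunc.C c * RatFunc.X ^ ν ∧
      Phi x (pr y.1) M - Phi x (pr y.1) 1 = C (ν : ℚ) := by
  obtain ⟨σ, τ, D, U, hD, rfl, hσ, hτ, hGG⟩ := hOn
  have hon : (Mp x).On y.1 := on_Mp.2 hxy
  have hjx : σ j * τ j ≠ 0 := fun e => hj (hxy ((th_eq_zero _ (hd j j)).1 ((hGG j j).trans e)))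
  have hjy : th y.1 (G j j) ≠ 0 := fun e => hj ((th_eq_zero _ (hd j j)).1 e)
  have hσj := left_ne_zero_of_mul hjx
  have hτj := right_ne_zero_of_mul hjx
  have hdiv : ∀ w a, th x.1 a = w * τ j → w / σ j = (Mp x).θ a / (Mp x).θ (G j j) := by
    intro w a e
    show _ = th x.1 a / th x.1 (G j j)
    rw [e, hGG, mul_div_mul_right _ _ hτj]
  have hev : ∀ w, ∀ a ∈ 𝒜 e, th x.1 a = w * τ j →
      ((Mp x).sp y hon).ev (w / σ j) = th y.1 a / th y.1 (G j j) := fun w a ha e => by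
    rw [hdiv w a e, (Mp x).sp_ev y hon ha (hd j j) hj]
  have hT : ((Mp x).sp y hon).Triv U (σ j) := by
    refine ⟨hσj, fun w hw => ?_, σ j, hσ j, by rw [div_self hσj, Spec.ev_one]; exact one_ne_zero⟩
    obtain ⟨a, ha, e⟩ := (Mp x).mem_pow.1 (hτ j w hw)
    rw [hdiv w a e, AM.sp_O]
    exact (Mp x).div_mem_fr ha (hd j j) hj
  obtain ⟨D', hD', hρ⟩ := ((Mp x).sp_over y hon).rho_spec hD hT
  have hρ' : (Mp x).rho y (cl D) = cl D' := by rw [← hρ, AM.rho, dif_pos hon]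
  have ht : ∀ α, ∀ u ∈ ((Mp x).sp y hon).img U (σ j), u * th y.1 (G j α) ∈ (Mp y).V ^ e := by
    intro α u hu
    refine span_induction (p := fun u _ => u * th y.1 (G j α) ∈ (Mp y).V ^ e) ?_ (by simp)
      (fun _ _ _ _ h h' => by rw [add_mul]; exact add_mem h h')
      (fun c _ _ h => by rw [smul_mul_assoc]; exact smul_mem _ c h) hu
    rintro _ ⟨w, hw, rfl⟩
    obtain ⟨a, ha, ea⟩ := (Mp x).mem_pow.1 (hτ j w hw)
    obtain ⟨b, hb, eb⟩ := (Mp x).mem_pow.1 (hτ α w hw)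
    refine (Mp y).mem_pow.2 ⟨b, hb, ?_⟩
    have hm : a * G j α - b * G j j ∈ 𝒜 (e + e) :=
      sub_mem (SetLike.mul_mem_graded ha (hd j α)) (SetLike.mul_mem_graded hb (hd j j))
    have h0 := (th_eq_zero y.1 hm).2 (hxy ((th_eq_zero x.1 hm).1 (by
      rw [map_sub, map_mul, map_mul, hGG, hGG, show th x.1 a = _ from ea, show th x.1 b = _ from eb]
      ring)))
    rw [map_sub, map_mul, map_mul, sub_eq_zero] at h0
    show th y.1 b = _
    beta_reduce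
    rw [hev w a ha ea, div_mul_eq_mul_div, h0, mul_div_cancel_right₀ _ hjy]
  have hrel : th y.1 (G i j) / th y.1 (G j j) * th y.1 (G j i) = th y.1 (G i i) := by
    have hm : G i j * G j i - G i i * G j j ∈ 𝒜 (e + e) :=
      sub_mem (SetLike.mul_mem_graded (hd _ _) (hd _ _)) (SetLike.mul_mem_graded (hd _ _) (hd _ _))
    have h0 := (th_eq_zero y.1 hm).2 (hxy ((th_eq_zero x.1 hm).1 (by
      rw [map_sub, map_mul, map_mul, hGG, hGG, hGG, hGG]; ring)))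
    rw [map_sub, map_mul, map_mul, sub_eq_zero] at h0
    rw [div_mul_eq_mul_div, h0, mul_div_cancel_right₀ _ hjy]
  have : IsScalarTower (ZMod p) (RatFunc (ZMod p)) (kap y.1) :=
    IsScalarTower.of_algebraMap_eq' (RingHom.ext_zmod _ _)
  obtain ⟨ν, c, hc, e1, e2⟩ := curve_deg (mdl_Mp y) (normD_gen y) hD' he
    (σ₀ := th y.1 (G i j) / th y.1 (G j j)) (σ₁ := 1) (τ₀ := th y.1 (G j i)) (τ₁ := th y.1 (G j j))
    (subset_span ⟨σ i, hσ i, hev _ _ (hd i j) (hGG i j)⟩)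
    (subset_span ⟨σ j, hσ j, by beta_reduce; rw [div_self hσj, Spec.ev_one]⟩) (ht i) (ht j)
    (by rwa [one_mul]) (by rw [hrel, one_mul, hX])
    (by rw [hrel, one_mul]; exact normD_cov y (hd i i) (hd j j) h)
  refine ⟨ν, c, hc, by rwa [div_one] at e1, ?_⟩
  rw [Phi_pt hxy, Phi_pt hxy, hρ', map_one, e2]

end

end Pool.Agent.Lib.MP_62d77c_ag
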