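import Pool.Agent.Lib.MP_62d77c_ag.Two
import Pool.Agent.Lib.MP_62d77c_ag.NormDB
import Pool.Agent.Lib.MP_62d77c_ag.NormDC
import Pool.Agent.Lib.MP_62d77c_ag.NormDD

/-! The semilocal chart of a horizontal curve. -/

set_option autoImplicit false

namespace Pool.Agent.Lib.MP_62d77c_ag

open Filter Polynomial Submodule

noncomputable section

variable {A : Type} [CommRing A] [IsDomain A] {𝒜 : ℕ → AddSubgroup A} [GradedRing 𝒜]
  [hG : Fact (Gen 𝒜)] {p : ℕ} [hp : Fact p.Prime] {W : Pt 𝒜} {e : ℕ} {F₀ F₁ : A}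

omit [IsDomain A] hG hp in
theorem normD_den {y : Pt 𝒜} (h1 : F₁ ∉ pr y) (h2 : ∀ m : ℤ, ¬(p : ℤ) ∣ m → (m : A) ∉ pr y) {b : A}
    (hb : b ∈ denp p ![F₀, F₁] {1}) : b ∉ pr y := by
  refine (Submonoid.closure_le.2 ?_ : denp p ![F₀, F₁] {1} ≤ (pr y).primeCompl) hb
  rintro _ (⟨_, rfl, rfl⟩ | ⟨m, hm, rfl⟩)
  exacts [h1, h2 m hm]

omit [IsDomain A] hG in
theorem normD_den_p {y : Pt 𝒜} (h1 : F₁ ∉ pr y) (h2 : (p : A) ∈ pr y) {b : A}
    (hb : b ∈ denp p ![F₀, F₁] {1}) : b ∉ pr y := by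
  refine normD_den h1 (fun m hm h => ?_) hb
  obtain ⟨u, v, e⟩ := (Nat.prime_iff_prime_int.1 hp.out).irreducible.coprime_iff_not_dvd.2 hm
  refine (Ideal.ne_top_iff_one _).1 y.isPrime.ne_top ?_
  have := congrArg (Int.cast : ℤ → A) e
  push_cast at this
  rw [← this]
  exact add_mem (Ideal.mul_mem_left _ _ h2) (Ideal.mul_mem_left _ _ h)

theorem normD_den_W (hW : TwoChart p W e F₀ F₁) (n : ℕ) (b : A) (hn : b ∈ 𝒜 n)
    (hb : b ∈ denp p ![F₀, F₁] {1}) : (MZ W).θ b ≠ 0 := by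
  refine fun h => normD_den hW.not_mem.2 (fun m hm h => ?_) hb ((th_eq_zero W hn).1 h)
  have := hW.char
  have := (th_eq_zero W (SetLike.intCast_mem_graded 𝒜 m)).2 h
  rw [map_intCast, Int.cast_eq_zero] at this
  exact hm (this ▸ dvd_zero _)

omit [IsDomain A] hp in
theorem normD_F1 : F₁ ∈ denp p ![F₀, F₁] {1} := Submonoid.subset_closure (Or.inl ⟨1, rfl, rfl⟩)

theorem normD_fr (hW : TwoChart p W e F₀ F₁) (z : kap W) :
    ∃ a ∈ (MZ W).fr (denp p ![F₀, F₁] {1}), ∃ b ∈ (MZ W).fr (denp p ![F₀, F₁] {1}), z = a / b := by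
  obtain ⟨n, a, ha, b, hb, hb0, rfl⟩ := th_gen W z
  obtain ⟨e, rfl⟩ : ∃ e', e = e' + 1 := ⟨e - 1, by have := hW.pos; omega⟩
  have hF := SetLike.pow_mem_graded n hW.d₁
  refine ⟨_, (MZ W).div_mem_fr (a := a * b ^ e) ?_ hF (pow_mem normD_F1 n), _,
    (MZ W).div_mem_fr (a := b * b ^ e) ?_ hF (pow_mem normD_F1 n), ?_⟩
  · convert SetLike.mul_mem_graded ha (SetLike.pow_mem_graded e hb) using 2
    simp only [smul_eq_mul]; ring
  · convert SetLike.mul_mem_graded hb (SetLike.pow_mem_graded e hb) using 2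
    simp only [smul_eq_mul]; ring
  · have h1 := normD_den_W hW _ _ hF (pow_mem normD_F1 n)
    have h2 : th W b ≠ 0 := fun h => hb0 ((th_eq_zero W hb).1 h)
    rw [div_div_div_cancel_right₀ h1, map_mul, map_mul, map_pow]
    exact (mul_div_mul_right _ _ (pow_ne_zero _ h2)).symm

variable [Algebra (RatFunc ℚ) (kap W)] (N : NormQ p ((MZ W).fr (denp p ![F₀, F₁] {1})))

theorem normD_max_finite : {P : Ideal N.R | P.IsMaximal}.Finite := by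
  have := IsArtinianRing.of_finite (RatFunc (ZMod p)) N.Q
  refine ((IsArtinianRing.setOfPred_isMaximal_finite N.Q).image (Ideal.comap N.red)).subset
    fun P hP => ?_
  have hk : RingHom.ker N.red ≤ P := by
    rw [N.ker, Ideal.span_singleton_le_iff_mem]; exact N.max P hP
  have e : (P.map N.red).comap N.red = P := by
    rw [Ideal.comap_map_of_surjective _ N.surj]; exact sup_eq_left.2 hk
  refine ⟨_, (Ideal.map_eq_top_or_isMaximal_of_surjective _ N.surj hP).resolve_left fun h => ?_, e⟩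
  exact Ideal.IsMaximal.ne_top hP (by rw [← e, h, Ideal.comap_top])

theorem normD_setup (hW : TwoChart p W e F₀ F₁)
    (h1 : ∀ x ∈ Lam1 p, algebraMap (RatFunc ℚ) (kap W) x ∈ (MZ W).fr (denp p ![F₀, F₁] {1})) :
    ∃ (ψ : A →+* N.R) (Z : Finset (Pt 𝒜)) (μ : kap W) (k l : ℕ) (h₁ : A), μ ≠ 0 ∧ h₁ ∈ 𝒜 l ∧
      IsUnit (ψ h₁) ∧ (∀ n, ∀ a ∈ 𝒜 n, (ψ a : kap W) = th W a * μ ^ n) ∧
      (∀ n, ∀ a ∈ 𝒜 n, ∃ d, a * h₁ ^ n ∈ 𝒜 d ∧ (F₁ ^ k) ^ n ∈ 𝒜 d ∧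
        (ψ a : kap W) = th W (a * h₁ ^ n) / th W ((F₁ ^ k) ^ n)) ∧
      (∀ n, ∀ b ∈ 𝒜 n, b ∈ denp p ![F₀, F₁] {1} → IsUnit (ψ b)) ∧
      (∀ P : Ideal N.R, P.IsMaximal → ∃ y ∈ Z, ∀ n, ∀ a ∈ 𝒜 n, ψ a ∈ P ↔ a ∈ pr y) ∧
      NormDeh 𝒜 ψ (pr W) := by
  classical
  have hpt := fun (P : Ideal N.R) (hP : P.IsMaximal) => (MZ W).exists_pt_of_prime (normD_den_W hW)
    hW.pos hW.d₁ normD_F1 (P.comap (Subring.inclusion N.le)) (Ideal.comap_isPrime _ _)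
  have : Nonempty (Pt 𝒜) := ⟨W⟩
  choose! Y hY1 hY2 hY3 using hpt
  let Z : Finset (Pt 𝒜) := (normD_max_finite N).toFinset.image Y
  have hZ : ∀ P : Ideal N.R, P.IsMaximal → Y P ∈ Z := fun P hP =>
    Finset.mem_image_of_mem _ ((Set.Finite.mem_toFinset _).2 hP)
  obtain ⟨n₀, hn₀⟩ := eventually_atTop.1 (avoid (Ideal.IsHomogeneous.top 𝒜) (insert W Z)
    fun y _ hy => y.isPrime.ne_top (top_le_iff.1 hy))
  have hpos := hW.pos
  obtain ⟨l, hl, hl'⟩ : ∃ l, n₀ ≤ l ∧ l + 1 = (n₀ + 1) * e := by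
    have : n₀ + 1 ≤ (n₀ + 1) * e := Nat.le_mul_of_pos_right _ hpos
    exact ⟨(n₀ + 1) * e - 1, by omega, by omega⟩
  obtain ⟨h₁, -, d₁, hav⟩ := hn₀ l hl
  have dF : F₁ ^ (n₀ + 1) ∈ 𝒜 (l + 1) := hl' ▸ SetLike.pow_mem_graded (n₀ + 1) hW.d₁
  have hh : th W h₁ ≠ 0 := fun h => hav W (Finset.mem_insert_self _ _) ((th_eq_zero W d₁).1 h)
  have hF : th W (F₁ ^ (n₀ + 1)) ≠ 0 := normD_den_W hW _ _ dF (pow_mem normD_F1 _)
  set μ := th W h₁ / th W (F₁ ^ (n₀ + 1)) with hμ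
  have hμ0 : μ ≠ 0 := div_ne_zero hh hF
  obtain ⟨ψ₀, hψ₀⟩ := normD_twist (𝒜 := 𝒜) (th W) μ
  have hd : ∀ n, ∀ a ∈ 𝒜 n, a * h₁ ^ n ∈ 𝒜 (n • (l + 1)) := fun n a ha => by
    convert SetLike.mul_mem_graded ha (SetLike.pow_mem_graded n d₁) using 2
    simp only [smul_eq_mul]; ring
  have hq : ∀ n, ∀ a ∈ 𝒜 n, ψ₀ a = th W (a * h₁ ^ n) / th W ((F₁ ^ (n₀ + 1)) ^ n) := by
    intro n a ha
    rw [hψ₀ n a ha, hμ, div_pow, map_mul, map_pow _ h₁, map_pow _ _ n, mul_div_assoc]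
  have hm : ∀ a, ψ₀ a ∈ N.R := fun a => by
    induction a using DirectSum.Decomposition.inductionOn 𝒜 with
    | zero => simp
    | @homogeneous n a =>
      rw [hq n a a.2]
      exact N.le ((MZ W).div_mem_fr (hd n a a.2) (SetLike.pow_mem_graded n dF)
        (pow_mem (pow_mem normD_F1 _) _))
    | add a b ha hb => rw [map_add]; exact add_mem ha hb
  let ψ : A →+* N.R := ψ₀.codRestrict N.R hm
  have hP : ∀ P : Ideal N.R, P.IsMaximal → ∀ n, ∀ a ∈ 𝒜 n, ψ a ∈ P ↔ a ∈ pr (Y P) := by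
    intro P hP n a ha
    have := hY3 P hP _ _ _ (hd n a ha) (SetLike.pow_mem_graded n dF) (pow_mem (pow_mem normD_F1 _) _)
    rw [Ideal.mem_comap] at this
    have e : ψ a = Subring.inclusion N.le ⟨_, (MZ W).div_mem_fr (hd n a ha)
      (SetLike.pow_mem_graded n dF) (pow_mem (pow_mem normD_F1 _) _)⟩ := Subtype.ext (hq n a ha)
    rw [e, this]
    refine ⟨fun h => ((Y P).isPrime.mem_or_mem h).resolve_right fun h => ?_,
      Ideal.mul_mem_right _ _⟩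
    exact hav _ (Finset.mem_insert_of_mem (hZ P hP)) ((Y P).isPrime.mem_of_pow_mem _ h)
  have hu : ∀ n, ∀ a ∈ 𝒜 n, (∀ P : Ideal N.R, P.IsMaximal → a ∉ pr (Y P)) → IsUnit (ψ a) := by
    intro n a ha h
    by_contra hn
    obtain ⟨P, hP', hm⟩ := exists_max_ideal_of_mem_nonunits hn
    exact h P hP' ((hP P hP' n a ha).1 hm)
  have hT : ∀ n, ∀ b ∈ 𝒜 n, b ∈ denp p ![F₀, F₁] {1} → IsUnit (ψ b) := fun n b hb h =>
    hu n b hb fun P hP => hY2 P hP n b hb h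
  have hu₁ : IsUnit (ψ h₁) := hu l h₁ d₁ fun P hP => hav _ (Finset.mem_insert_of_mem (hZ P hP))
  refine ⟨ψ, Z, μ, n₀ + 1, l, h₁, hμ0, d₁, hu₁, hψ₀, fun n a ha =>
    ⟨_, hd n a ha, SetLike.pow_mem_graded n dF, hq n a ha⟩, hT,
    fun P h => ⟨Y P, hZ P h, hP P h⟩, fun r => ?_, ⟨l, h₁, d₁, _, dF, hu₁, Subtype.ext ?_⟩,
    fun n c dc hc => ⟨1, by simp, ?_⟩⟩
  · obtain ⟨s, hs, hr⟩ := N.den r r.2
    have hs' := h1 _ (normD_ev_mem p s)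
    rw [normEv_map] at hs'
    obtain ⟨n, a, ha, b, hb, hbT, e1⟩ := ((MZ W).mem_fr (normD_den_W hW)).1 hr
    obtain ⟨n', a', ha', b', hb', hbT', e2⟩ := ((MZ W).mem_fr (normD_den_W hW)).1 hs'
    have hb0 : th W b ≠ 0 := normD_den_W hW _ _ hb hbT
    have hb0' : th W b' ≠ 0 := normD_den_W hW _ _ hb' hbT'
    have e1' := (eq_div_iff hb0).1 e1
    have e2' := (eq_div_iff hb0').1 e2
    have e3 : ψ a' = ⟨_, N.le hs'⟩ * ψ b' := Subtype.ext (by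
      show ψ₀ a' = _ * ψ₀ b'
      rw [hψ₀ _ _ ha', hψ₀ _ _ hb', ← mul_assoc]
      exact congrArg (· * _) e2'.symm)
    have hsu : IsUnit (⟨_, N.le hs'⟩ : N.R) :=
      IsUnit.of_mul_eq_one ⟨_, (N.inv s hs).2⟩ (Subtype.ext (mul_inv_cancel₀ (N.inv s hs).1))
    refine ⟨n + n', a * b', SetLike.mul_mem_graded ha hb', b * a', SetLike.mul_mem_graded hb ha',
      ?_, Subtype.ext ?_⟩
    · rw [map_mul, e3]; exact (hT _ _ hb hbT).mul (hsu.mul (hT _ _ hb' hbT'))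
    · show (r : kap W) * ψ₀ (b * a') = ψ₀ (a * b')
      rw [hψ₀ _ _ (SetLike.mul_mem_graded ha hb'), hψ₀ _ _ (SetLike.mul_mem_graded hb ha'),
        map_mul, map_mul, show th W a = _ from e1'.symm, show th W a' = _ from e2'.symm]
      ring
  · show ψ₀ h₁ = ψ₀ _
    rw [hψ₀ _ _ d₁, hψ₀ _ _ dF, pow_succ' μ, ← mul_assoc, hμ, mul_div_cancel₀ _ hF]
  · have : ψ₀ c = 0 := congrArg Subtype.val hc
    rw [hψ₀ _ _ dc] at this
    rw [one_mul]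
    exact (th_eq_zero W dc).1 ((mul_eq_zero.1 this).resolve_right (pow_ne_zero _ hμ0))

end

end Pool.Agent.Lib.MP_62d77c_ag
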