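import Pool.Agent.Lib.MP_62d77c_ag.Two
import Pool.Agent.Lib.MP_62d77c_ag.Curve
import Pool.Agent.Lib.MP_62d77c_ag.NormDE

/-! The order of the norm is the degree on the fibre of the curve. -/

set_option autoImplicit false

namespace Pool.Agent.Lib.MP_62d77c_ag

open Filter Polynomial Submodule

noncomputable section

variable {A : Type} [CommRing A] [IsDomain A] {𝒜 : ℕ → AddSubgroup A} [GradedRing 𝒜]
  [hG : Fact (Gen 𝒜)] {p : ℕ} [Fact p.Prime]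

theorem normOK_pt {r e : ℕ} {G : Fin (r + 2) → Fin (r + 2) → A} (hd : ∀ α β, G α β ∈ 𝒜 e)
    {W : Pt 𝒜} (hW : TwoChart p W e (G 0 0) (G 1 1)) {x : Vp 𝒜 p} {M : Pic (Mp x).V}
    (hOn : GOn x e G M) [Algebra (RatFunc ℚ) (kap W)]
    (hX : algebraMap (RatFunc ℚ) (kap W) RatFunc.X = th W (G 0 0) / th W (G 1 1))
    (h1 : ∀ x ∈ Lam1 p, algebraMap (RatFunc ℚ) (kap W) x ∈
      (MZ W).fr (denp p ![G 0 0, G 1 1] {1}))
    (N : NormQ p ((MZ W).fr (denp p ![G 0 0, G 1 1] {1}))) {ψ : A →+* N.R} {μ : kap W} {k l : ℕ}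
    {h₁ : A} (d₁ : h₁ ∈ 𝒜 l) (hu₁ : IsUnit (ψ h₁))
    (hψ : ∀ n, ∀ a ∈ 𝒜 n, (ψ a : kap W) = th W a * μ ^ n)
    (hq : ∀ n, ∀ a ∈ 𝒜 n, ∃ d, a * h₁ ^ n ∈ 𝒜 d ∧ (G 1 1 ^ k) ^ n ∈ 𝒜 d ∧
      (ψ a : kap W) = th W (a * h₁ ^ n) / th W ((G 1 1 ^ k) ^ n))
    (hT : ∀ n, ∀ b ∈ 𝒜 n, b ∈ denp p ![G 0 0, G 1 1] {1} → IsUnit (ψ b))
    (H : NormDeh 𝒜 ψ (pr W)) (hg : th W (G 0 1) / th W (G 1 1) ∈ N.R) (y : Vp 𝒜 p)
    (hWy : pr W ≤ pr y.1) (hxy : pr x.1 ≤ pr y.1) :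
    NormOK x M (N.red.comp ψ) (N.red ⟨_, hg⟩) (pr y.1) := by
  have hcov : ∀ y' : Vp 𝒜 p, pr y.1 ≤ pr y'.1 → G 0 0 ∉ pr y'.1 ∨ G 1 1 ∉ pr y'.1 :=
    fun y' h => hW.cov y' (hWy.trans h)
  have htop : ∀ a ∈ pr y.1, IsUnit (ψ a) → (pr y.1).map (N.red.comp ψ) = ⊤ := fun a ha hu =>
    Ideal.eq_top_of_isUnit_mem _ (Ideal.mem_map_of_mem _ ha) (hu.map N.red)
  by_cases hF : G 1 1 ∈ pr y.1
  · exact normOK_irr x M _ _ (htop _ hF (hT _ _ hW.d₁ normD_F1))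
      (normD_point hxy M hW.pos hW.d₀ hW.d₁ hcov (Or.inl hF))
  have hon : (MZ W).On y.1 := on_MZ.2 hWy
  set S := (MZ W).sp y hon with hS
  have hev : ∀ {n a b}, a ∈ 𝒜 n → b ∈ 𝒜 n → b ∉ pr y.1 →
      S.ev (th W a / th W b) = th y.1 a / th y.1 b := fun ha hb h => (MZ W).sp_ev y hon ha hb h
  have hle₁ : (MZ W).fr (denp p ![G 0 0, G 1 1] {1}) ≤ S.O := by
    rw [hS, AM.sp_O]; exact (MZ W).fr_le_orng fun n b _ hb => normD_den_p hF y.2 hb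
  have hm : ∀ s : ℤ[X], normEv (algebraMap (RatFunc ℚ) (kap W) RatFunc.X) s ∈
      (MZ W).fr (denp p ![G 0 0, G 1 1] {1}) := fun s =>
    normEv_map (algebraMap (RatFunc ℚ) (kap W)) _ s ▸ h1 _ (normD_ev_mem p s)
  have ht : algebraMap (RatFunc ℚ) (kap W) RatFunc.X ∈ (MZ W).fr (denp p ![G 0 0, G 1 1] {1}) :=
    normEv_X (algebraMap (RatFunc ℚ) (kap W) RatFunc.X) ▸ hm X
  have hevt : S.ev (algebraMap (RatFunc ℚ) (kap W) RatFunc.X) =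
      th y.1 (G 0 0) / th y.1 (G 1 1) := by rw [hX, hev hW.d₀ hW.d₁ hF]
  have hevs : ∀ s : ℤ[X], S.ev (normEv (algebraMap (RatFunc ℚ) (kap W) RatFunc.X) s) =
      normEv (th y.1 (G 0 0) / th y.1 (G 1 1)) s := fun s => by
    rw [← hevt, S.ev_of_mem (hle₁ ht), ← normEv_map S.φ, S.ev_of_mem (hle₁ (hm s))]
    exact congrArg S.φ (Subtype.ext (normEv_map S.O.subtype ⟨_, hle₁ ht⟩ s).symm)
  by_cases hs : ∃ s : ℤ[X], s ∉ normD_P p ∧ normEv (th y.1 (G 0 0) / th y.1 (G 1 1)) s = 0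
  · obtain ⟨s, hs, h0⟩ := hs
    obtain ⟨n, a, ha, b, hb, hbT, e2⟩ := ((MZ W).mem_fr (normD_den_W hW)).1 (hm s)
    have hby := normD_den_p hF y.2 hbT
    have hay : a ∈ pr y.1 := by
      rw [← hevs, e2] at h0
      exact (th_eq_zero _ ha).1 ((div_eq_zero_iff.1 ((hev ha hb hby).symm.trans h0)).resolve_right
        fun h => hby ((th_eq_zero _ hb).1 h))
    have e3 : ψ a = ⟨_, N.le (hm s)⟩ * ψ b := Subtype.ext (by
      rw [Subring.coe_mul, hψ _ _ ha, hψ _ _ hb, ← mul_assoc]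
      exact congrArg (· * _) ((eq_div_iff (normD_den_W hW _ _ hb hbT)).1 e2).symm)
    have hsu : IsUnit (⟨_, N.le (hm s)⟩ : N.R) :=
      IsUnit.of_mul_eq_one ⟨_, (N.inv s hs).2⟩ (Subtype.ext (mul_inv_cancel₀ (N.inv s hs).1))
    refine normOK_irr x M _ _ (htop a hay (e3 ▸ hsu.mul (hT _ _ hb hbT)))
      (normD_point hxy M hW.pos hW.d₀ hW.d₁ hcov (Or.inr ⟨s.map (Int.castRingHom _), hs, ?_⟩))
    rw [aeval_def, eval₂_map, RingHom.ext_int (RingHom.comp _ _) (Int.castRingHom _)]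
    exact h0
  push Not at hs
  have hle : N.R ≤ S.O := fun z hz => by
    obtain ⟨s, hs', hz'⟩ := N.den z hz
    have := mul_mem (S.ev_inv (hle₁ (hm s)) (by rw [hevs]; exact hs s hs')).1 (hle₁ hz')
    rwa [inv_mul_cancel_left₀ (N.inv s hs').1] at this
  let χ₀ : N.R →+* kap y.1 := S.φ.comp (Subring.inclusion hle)
  have hχ₀ : ∀ z : N.R, χ₀ z = S.ev z := fun z => (S.ev_of_mem (hle z.2)).symm
  have hχψ : ∀ n, ∀ a ∈ 𝒜 n, χ₀ (ψ a) = th y.1 a * (th y.1 h₁ / th y.1 (G 1 1 ^ k)) ^ n := by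
    intro n a ha
    obtain ⟨d, q1, q2, q3⟩ := hq n a ha
    rw [hχ₀, q3, hev q1 q2 (normD_den_p (F₀ := G 0 0) hF y.2 (pow_mem (pow_mem normD_F1 _) _)),
      div_pow, map_mul, map_pow _ h₁, map_pow _ _ n, mul_div_assoc]
  have hμ : th y.1 h₁ / th y.1 (G 1 1 ^ k) ≠ 0 := by
    refine div_ne_zero (left_ne_zero_of_mul (hχψ _ _ d₁ ▸ (hu₁.map χ₀).ne_zero)) ?_
    rw [map_pow]
    exact pow_ne_zero _ fun h => hF ((th_eq_zero _ hW.d₁).1 h)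
  have hker : RingHom.ker N.red ≤ RingHom.ker χ₀ := by
    rw [N.ker, Ideal.span_singleton_le_iff_mem, RingHom.mem_ker, map_natCast]
    exact CharP.cast_eq_zero (kap y.1) p
  let χ : N.Q →+* kap y.1 := N.red.liftOfSurjective N.surj ⟨χ₀, hker⟩
  have hχ : ∀ z, χ (N.red z) = χ₀ z := fun z => N.red.liftOfSurjective_comp_apply N.surj _ z
  let _ : Algebra (RatFunc (ZMod p)) (kap y.1) := (χ.comp (algebraMap _ N.Q)).toAlgebra
  let χa : N.Q →ₐ[RatFunc (ZMod p)] kap y.1 := { χ with commutes' := fun _ => rfl }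
  have hsurj : Function.Surjective χa := fun z => by
    obtain ⟨n, a, ha, b, hb, -, rfl⟩ := th_gen y.1 z
    have e1 : th y.1 a / th y.1 b = χa (N.red (ψ a)) * (χa (N.red (ψ b)))⁻¹ := by
      show _ = χ _ * (χ _)⁻¹
      rw [hχ, hχ, hχψ _ _ ha, hχψ _ _ hb, ← div_eq_mul_inv,
        mul_div_mul_right _ _ (pow_ne_zero _ hμ)]
    rw [e1]
    exact mul_mem (S := Subalgebra _ _) (M := kap y.1) (s := χa.range) ⟨_, rfl⟩
      (χa.range.inv_mem_of_algebraic (x := ⟨_, _, rfl⟩)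
        ((Algebra.IsIntegral.isIntegral _).map χa).isAlgebraic)
  have : FiniteDimensional (RatFunc (ZMod p)) (kap y.1) :=
    Module.Finite.of_surjective χa.toLinearMap hsurj
  have hk : (pr y.1).map (N.red.comp ψ) = RingHom.ker χa := by
    refine le_antisymm (Ideal.map_le_iff_le_comap.2 (normD_hom_le (pr_hom _) fun n a ha da => ?_))
      fun q hq => ?_
    · show χ (N.red (ψ a)) = 0
      rw [hχ, hχψ _ _ da, (th_eq_zero _ da).2 ha, zero_mul]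
    · obtain ⟨z, rfl⟩ := N.surj q
      obtain ⟨n, a, ha, b, -, hb, e1⟩ := H.frac z
      have h0 : χ₀ z = 0 := (hχ z).symm.trans hq
      have h2 := congrArg χ₀ e1
      rw [map_mul, h0, zero_mul, hχψ _ _ ha] at h2
      have h3 := Ideal.mem_map_of_mem (N.red.comp ψ)
        ((th_eq_zero _ ha).1 ((mul_eq_zero.1 h2.symm).resolve_right (pow_ne_zero _ hμ)))
      rwa [RingHom.comp_apply, ← e1, map_mul, Ideal.mul_unit_mem_iff_mem _ (hb.map N.red)] at h3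
  obtain ⟨ν, c, hc, e1, e2⟩ := normD_curve hxy hW.pos hd hOn 0 1 hcov hF (by
    show χ (algebraMap _ N.Q _) = _
    rw [← N.X_eq (N.le ht), hχ, hχ₀, hevt])
  refine ⟨ν, c, hc, ?_, e2⟩
  rw [hk, normDt_ker χa hsurj, ← e1]
  congr 1
  show χ _ = _
  rw [hχ, hχ₀, hev (hd 0 1) hW.d₁ hF]

theorem norm_degree [CharZero A] {m : Comp 𝒜 p → ℕ} {I : Comp 𝒜 p → Car (MX 𝒜).V} (h : Fib m I)
    {r e : ℕ} {G : Fin (r + 2) → Fin (r + 2) → A} (hM : GMat 𝒜 p e G) {W : Pt 𝒜}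
    (hW : TwoChart p W e (G 0 0) (G 1 1)) (M : ∀ j : Comp 𝒜 p, Pic (Mp j.1).V)
    (hOn : ∀ j : Comp 𝒜 p, GOn j.1 e G (M j)) [Algebra (RatFunc ℚ) (kap W)]
    [FiniteDimensional (RatFunc ℚ) (kap W)]
    (hX : algebraMap (RatFunc ℚ) (kap W) RatFunc.X = th W (G 0 0) / th W (G 1 1)) :
    ∃ (ν : ℕ) (c : ℤ), ¬(p : ℤ) ∣ c ∧
      (∃ μ ∈ Lam p, Algebra.norm (RatFunc ℚ) (th W (G 0 1) / th W (G 1 1)) =
        (c : RatFunc ℚ) * RatFunc.X ^ ν + (p : RatFunc ℚ) * μ) ∧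
      (ν : ℚ) = ∑ j : Comp 𝒜 p, (m j : ℚ) * lin 0 (Phi j.1 (pr W)) (M j) := by
  obtain ⟨h1, t, ht, hsp⟩ := (hW.finite hX).1
  obtain ⟨N⟩ := normD_exists p _ h1 t ht hsp (normD_fr hW)
  obtain ⟨ψ, Z, μ, k, l, h₁, -, d₁, hu₁, hψ, hq, hT, hZ, H⟩ := normD_setup N hW h1
  have hg : th W (G 0 1) / th W (G 1 1) ∈ (MZ W).fr (denp p ![G 0 0, G 1 1] {1}) :=
    (MZ W).div_mem_fr (hM.deg 0 1) hW.d₁ normD_F1
  have dp : (p : A) ∈ 𝒜 0 := SetLike.natCast_mem_graded 𝒜 p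
  have hZp : ∀ P : Ideal N.R, P.IsMaximal → ∃ y : Vp 𝒜 p, y.1 ∈ Z ∧
      ∀ n, ∀ a ∈ 𝒜 n, ψ a ∈ P ↔ a ∈ pr y.1 := fun P hP => by
    obtain ⟨y, hy, hy'⟩ := hZ P hP
    exact ⟨⟨y, (hy' 0 _ dp).1 (by rw [map_natCast]; exact N.max P hP)⟩, hy, hy'⟩
  have hgen := fun j : Comp 𝒜 p =>
    ((MX 𝒜).exists_genI (h.lp j) Z fun y _ => on_MX y).exists
  choose d g hg' using hgen
  obtain ⟨P₀, hP₀⟩ := Ideal.exists_maximal N.R
  obtain ⟨y₀, hy₀, -⟩ := hZp P₀ hP₀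
  have heq : ∀ P : Ideal N.R, P.IsMaximal → ∃ b ∉ P, ∃ c ∉ P,
      b * (p : N.R) = c * ∏ j : Comp 𝒜 p, ψ (g j) ^ m j := fun P hP => by
    obtain ⟨y, hy, hy'⟩ := hZp P hP
    obtain ⟨n, n', b, hb, c, hc, hby, hcy, -, e1⟩ := h.eqn y d g fun j => hg' j _ hy
    refine ⟨ψ b, fun h => hby ((hy' _ _ hb).1 h), ψ c, fun h => hcy ((hy' _ _ hc).1 h), ?_⟩
    simpa using congrArg ψ e1
  have hne : ∀ j, ψ (g j) ≠ 0 := fun j h0 => by
    obtain ⟨b, hb, c, -, e1⟩ := heq P₀ hP₀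
    have := hW.char
    rw [Finset.prod_eq_zero (Finset.mem_univ j) (by rw [h0, zero_pow (h.pos j).ne']),
      mul_zero] at e1
    exact mul_ne_zero (fun e : b = 0 => hb (e ▸ zero_mem _))
      (Nat.cast_ne_zero.2 (Fact.out : p.Prime).ne_zero) e1
  have hk1 : RingHom.ker N.red ≤ Ideal.span {∏ j : Comp 𝒜 p, ψ (g j) ^ m j} := by
    rw [N.ker, Ideal.span_singleton_le_iff_mem]
    refine normD_of_local fun P hP => ?_
    obtain ⟨b, hb, c, -, e1⟩ := heq P hP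
    exact ⟨b, hb, e1 ▸ Ideal.mul_mem_left _ _ (Ideal.mem_span_singleton_self _)⟩
  have hk2 : N.red (∏ j : Comp 𝒜 p, ψ (g j) ^ m j) = 0 := by
    rw [← RingHom.mem_ker, N.ker]
    refine normD_of_local fun P hP => ?_
    obtain ⟨b, -, c, hc, e1⟩ := heq P hP
    exact ⟨c, hc, e1 ▸ Ideal.mul_mem_left _ _ (Ideal.mem_span_singleton_self _)⟩
  have hmap : ∀ j : Comp 𝒜 p,
      (pr W ⊔ cI j).map (N.red.comp ψ) = Ideal.span {N.red (ψ (g j))} := fun j => by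
    rw [← Ideal.map_map, ← Set.image_singleton (f := N.red), ← Ideal.map_span]
    congr 1
    refine le_antisymm (Ideal.map_le_iff_le_comap.2 (sup_le
      (normD_hom_le (pr_hom _) fun n a ha da => ?_) (normD_hom_le (pr_hom _) fun n a ha da => ?_)))
      ((Ideal.span_singleton_le_iff_mem _).2
        (Ideal.mem_map_of_mem _ (Ideal.mem_sup_right (hg' j _ hy₀).1)))
    · have : ψ a = 0 := Subtype.ext (by rw [hψ _ _ da, (th_eq_zero W da).2 ha, zero_mul]; rfl)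
      rw [Ideal.mem_comap, this]; exact zero_mem _
    · refine Ideal.mem_comap.2 (normD_of_local fun P hP => ?_)
      obtain ⟨y, hy, hy'⟩ := hZp P hP
      obtain ⟨n₁, n₂, b, hb, c, -, hby, -, e1⟩ := (hg' j _ hy).2.2.2 n a ha da
      refine ⟨ψ b, fun h => hby ((hy' _ _ hb).1 h), ?_⟩
      rw [← map_mul, FaithfulSMul.algebraMap_injective A (FractionRing A) e1, map_mul]
      exact Ideal.mul_mem_left _ _ (Ideal.mem_span_singleton_self _)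
  have H' : NormDeh 𝒜 (N.red.comp ψ) (pr W ⊔ Ideal.span {(p : A)}) :=
    H.quot ((pr_hom W).sup (normD_span_hom dp)) le_sup_left N.red N.surj (by
      rw [N.ker, Ideal.span_singleton_le_iff_mem, ← map_natCast ψ]
      exact Ideal.mem_map_of_mem _ (Ideal.mem_sup_right (Ideal.mem_span_singleton_self _)))
  have hOK : ∀ j : Comp 𝒜 p, NormOK j.1 (M j) (N.red.comp ψ) (N.red ⟨_, N.le hg⟩) (pr W ⊔ cI j) :=
    fun j => normOK_filt j.1 (M j) _ H' (fun y h0 hy => normOK_pt hM.deg hW (hOn j) hX h1 N d₁ hu₁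
      hψ hq hT H (N.le hg) ⟨y, hy j.1.2⟩ (le_sup_left.trans h0) hy) ((pr_hom W).sup (pr_hom _))
      (sup_le_sup_left ((Ideal.span_singleton_le_iff_mem _).2 j.1.2) _) le_sup_right
  choose ν c hc e1 e2 using hOK
  obtain ⟨c', hc', hN⟩ := N.norm _ hg (∏ j : Comp 𝒜 p, c j ^ m j) (∑ j : Comp 𝒜 p, m j * ν j)
    (Finset.prod_ne_zero_iff.2 fun j _ => pow_ne_zero _ (hc j)) (by
      rw [← normDt_bot, ← Ideal.span_singleton_eq_bot.2 hk2,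
        normDt_prod N.red N.surj _ _ _ _ hne hk1, map_prod, ← Finset.prod_pow_eq_pow_sum,
        ← Finset.prod_mul_distrib]
      refine Finset.prod_congr rfl fun j _ => ?_
      rw [← hmap, e1, mul_pow, map_pow, mul_comm (m j), pow_mul])
  refine ⟨_, c', hc', hN, ?_⟩
  push_cast
  refine Finset.sum_congr rfl fun j _ => ?_
  have := e2 j
  rw [Phi_sup j.1 (pr_hom W)] at this
  rw [lin, dl, one_mul, this, coeff_C_zero]

end

end Pool.Agent.Lib.MP_62d77c_ag
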