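import Pool.Agent.Lib.MP_62d77c_ag.Snc
import Pool.Agent.Lib.MP_62d77c_ag.Smooth
import Pool.Agent.Lib.MP_62d77c_ag.Tor
import Pool.Agent.Lib.MP_62d77c_ag.Span
import Pool.Agent.Lib.MP_62d77c_ag.NSB
import Pool.Agent.Lib.MP_62d77c_ag.NormD
import Pool.Agent.Lib.MP_62d77c_ag.LA

/-! Assembly. -/

set_option autoImplicit false

namespace Pool.Agent.Lib.MP_62d77c_ag

open Filter Polynomial Submodule

noncomputable section

variable {A : Type} [CommRing A] [IsDomain A] {𝒜 : ℕ → AddSubgroup A} [GradedRing 𝒜]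
  [hG : Fact (Gen 𝒜)] {p : ℕ} [Fact p.Prime]

variable {m : Comp 𝒜 p → ℕ} {I : Comp 𝒜 p → Car (MX 𝒜).V}

/-- pairing of a cycle with a line bundle on a component -/
def cyc (I : Comp 𝒜 p → Car (MX 𝒜).V) (c : Pt 𝒜 →₀ ℚ) (j : Comp 𝒜 p) (D : Pic (Mp j.1).V) : ℚ :=
  c.sum fun W n => n * Psi j.1 (CC I j) (pr W) D

theorem Psi_mul {j : Vp 𝒜 p} {C : Pic (Mp j).V} {𝔮 : Ideal A} (h : Lev 2 (PV j C 𝔮))
    (x y : Pic (Mp j).V) : Psi j C 𝔮 (x * y) = Psi j C 𝔮 x + Psi j C 𝔮 y := by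
  unfold Psi
  rw [lin_mul h]; ring

theorem cyc_mul {c : Pt 𝒜 →₀ ℚ} (hc : ∀ x ∈ c.support, CharZero (kap x) ∧ tr x = 1)
    (j : Comp 𝒜 p) (x y : Pic (Mp j.1).V) : cyc I c j (x * y) = cyc I c j x + cyc I c j y := by
  unfold cyc Finsupp.sum
  rw [← Finset.sum_add_distrib]
  refine Finset.sum_congr rfl fun W hW => ?_
  beta_reduce
  rw [Psi_mul (lev_PV_horiz j _ (hc W hW).1 (hc W hW).2)]; ring

theorem add_pow_of_mul {G : Type} [CommGroup G] {φ : G → ℚ} (h : ∀ x y, φ (x * y) = φ x + φ y)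
    (x : G) (n : ℕ) : φ (x ^ n) = n * φ x := by
  have h1 : φ 1 = 0 := by have := h 1 1; rw [mul_one] at this; linarith
  induction n with
  | zero => simp [h1]
  | succ n ih => rw [pow_succ, h, ih]; push_cast; ring

/-- a cohomologically trivial cycle has degree zero against a glued line bundle -/
theorem glued_zero [CharZero A] (h : Fib m I) {c : Pt 𝒜 →₀ ℚ}
    (hc : ∀ x ∈ c.support, CharZero (kap x) ∧ tr x = 1) (ht : CohTriv c) {r e : ℕ}
    {G : Fin (r + 2) → Fin (r + 2) → A} (hM : GMat 𝒜 p e G)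
    (hW : ∀ W ∈ c.support, ∀ y : Vp 𝒜 p, pr W ≤ pr y.1 → G 0 0 ∉ pr y.1 ∨ G 1 1 ∉ pr y.1)
    (M : ∀ j : Comp 𝒜 p, Pic (Mp j.1).V) (hOn : ∀ j : Comp 𝒜 p, GOn j.1 e G (M j)) :
    ∑ j : Comp 𝒜 p, (m j : ℚ) * cyc I c j (M j) = 0 := by
  classical
  have key : ∀ W ∈ c.support, ∃ ν : ℚ,
      ν = ∑ j : Comp 𝒜 p, (m j : ℚ) * lin 0 (Phi j.1 (pr W)) (M j) ∧
      ∃ s : ℕ, ∀ (k : ℕ) (Z : Cocycle 𝒜 fun α => G α α) (g' ζ : FractionRing A)
      (l : Fm (FractionRing A) 1),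
      g' ∈ frac 𝒜 (denp p (fun α => G α α) {0, 1}) → ζ ∈ frac 𝒜 (denp p (fun α => G α α) {0, 1}) →
      l.On (frac 𝒜 (denp p (fun α => G α α) {0, 1})) →
      g' * (algebraMap A _ (G 0 1) / algebraMap A _ (G 1 1)) = 1 - (p : FractionRing A) ^ k * ζ →
      Z.η 0 1 = (g', ![algebraMap A _ (G 0 1) / algebraMap A _ (G 1 1)]) ::
        l.map (fun x => ((p : FractionRing A) ^ k * x.1, x.2)) →
      ∃ t, IsTrace Z W t ∧ ∃ q ∈ Zp p, (p : ℚ) ^ s * (t - ν) = (p : ℚ) ^ k * q := by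
    intro W hWc
    have hT : TwoChart p W e (G 0 0) (G 1 1) :=
      ⟨(hc W hWc).1, (hc W hWc).2, hM.pos, hM.deg 0 0, hM.deg 1 1, hW W hWc⟩
    obtain ⟨alg, hfin, hX⟩ := hT.exists_alg
    obtain ⟨ν, c', hc', hN, hν⟩ := norm_degree h hM hT M hOn hX
    exact ⟨ν, hν, isTrace_cong hT (hM.deg 0 1) hX hc' hN⟩
  choose! ν hν s hs using key
  have hsum : ∑ j : Comp 𝒜 p, (m j : ℚ) * cyc I c j (M j) = -∑ W ∈ c.support, c W * ν W := by
    unfold cyc Finsupp.sum Psi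
    simp only [Finset.mul_sum]
    rw [Finset.sum_comm, ← Finset.sum_neg_distrib]
    refine Finset.sum_congr rfl fun W hWc => ?_
    rw [hν W hWc, Finset.mul_sum, ← Finset.sum_neg_distrib]
    refine Finset.sum_congr rfl fun j _ => ?_
    rw [PV_horiz j _ (hc W hWc).1]; ring
  rw [hsum, neg_eq_zero]
  set N : ℕ := ∏ W ∈ c.support, (c W).den with hN
  have hN0 : (N : ℚ) ≠ 0 := by
    exact_mod_cast Finset.prod_ne_zero_iff.2 fun W _ => (c W).den_ne_zero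
  have hint : ∀ W ∈ c.support, ∃ z : ℤ, (N : ℚ) * c W = z := by
    intro W hWc
    obtain ⟨a, ha⟩ : (c W).den ∣ N := Finset.dvd_prod_of_mem _ hWc
    refine ⟨a * (c W).num, ?_⟩
    rw [ha]; push_cast
    rw [mul_comm ((c W).den : ℚ), mul_assoc, Rat.den_mul_eq_num]
  choose! z hz using hint
  set S : ℕ := c.support.sup s with hS
  have : (N : ℚ) * ∑ W ∈ c.support, c W * ν W = 0 := by
    refine eq_zero_of_Zp p (s := S) fun k => ?_
    obtain ⟨Z, g', ζ, l, h1, h2, h3, h4, h5⟩ :=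
      exists_cocycle hM (i := 0) (j := 1) Fin.zero_lt_one k
    have := fun W hWc => hs W hWc k Z g' ζ l h1 h2 h3 h4 h5
    choose! t ht1 q hq1 hq2 using this
    have h0 := ht _ _ Z t ht1
    refine ⟨-∑ W ∈ c.support, (z W : ℚ) * (p : ℚ) ^ (S - s W) * q W, ?_, ?_⟩
    · refine neg_mem (sum_mem fun W hWc => mul_mem (mul_mem (intCast_mem _ _) ?_) (hq1 W hWc))
      exact pow_mem (natCast_mem _ _) _
    · have e1 : ∀ W ∈ c.support, (p : ℚ) ^ k * ((z W : ℚ) * (p : ℚ) ^ (S - s W) * q W) =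
          (p : ℚ) ^ S * N * (c W * t W) - (p : ℚ) ^ S * N * (c W * ν W) := by
        intro W hWc
        have hle : s W ≤ S := Finset.le_sup (f := s) hWc
        have e2 : (p : ℚ) ^ S = (p : ℚ) ^ (S - s W) * (p : ℚ) ^ s W := by
          rw [← pow_add, Nat.sub_add_cancel hle]
        rw [← hz W hWc, e2]
        linear_combination (-(N : ℚ) * c W * (p : ℚ) ^ (S - s W)) * hq2 W hWc
      rw [mul_neg, Finset.mul_sum _ _ ((p : ℚ) ^ k), Finset.sum_congr rfl e1,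
        Finset.sum_sub_distrib, ← Finset.mul_sum, ← Finset.mul_sum]
      unfold Finsupp.sum at h0
      rw [h0]; ring
  exact (mul_eq_zero.1 this).resolve_left hN0

theorem glue_zero [CharZero A] (h : Fib m I) {c : Pt 𝒜 →₀ ℚ}
    (hc : ∀ x ∈ c.support, CharZero (kap x) ∧ tr x = 1) (ht : CohTriv c)
    (u : ∀ j : Comp 𝒜 p, Pic (Mp j.1).V)
    (hu : ∀ S : Edge 𝒜 p, (Mp (ea S).1).rho S.1 (u (ea S)) = (Mp (eb S).1).rho S.1 (u (eb S))) :
    ∑ j : Comp 𝒜 p, (m j : ℚ) * cyc I c j (u j) = 0 := by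
  rcases isEmpty_or_nonempty (Comp 𝒜 p) with he | ⟨⟨j₀⟩⟩
  · simp
  have hW : ∀ W ∈ c.support, ∀ y : Vp 𝒜 p, pr W ≤ pr y.1 → dm y ≤ 1 := fun W hW y hy =>
    dm_le_of_horiz (hc W hW).1 (by rw [(hc W hW).2]; simp) y hy
  have key : ∀ u : ∀ j : Comp 𝒜 p, Pic (Mp j.1).V,
      (∀ S : Edge 𝒜 p, (Mp (ea S).1).rho S.1 (u (ea S)) = (Mp (eb S).1).rho S.1 (u (eb S))) →
      ∃ N b : ℕ, 0 < N ∧ N * ∑ j : Comp 𝒜 p, (m j : ℚ) * cyc I c j (u j) +
        b * ∑ j : Comp 𝒜 p, (m j : ℚ) * cyc I c j (Lp _) = 0 := by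
    intro u hu
    obtain ⟨r, e, N, b, G, hN, hM, h2, hOn⟩ := glue h j₀ u hu c.support hW
    refine ⟨N, b, hN, ?_⟩
    rw [← glued_zero h hc ht hM h2 _ hOn, Finset.mul_sum, Finset.mul_sum, ← Finset.sum_add_distrib]
    refine Finset.sum_congr rfl fun j _ => ?_
    rw [cyc_mul hc, add_pow_of_mul (cyc_mul hc j), add_pow_of_mul (cyc_mul hc j)]; ring
  obtain ⟨N', b', hN', e'⟩ := key (fun j => Lp _) fun S => by
    rw [AM.rho_L _ (on_Mp.2 ((h.inc S _).2 (Or.inl rfl))),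
      AM.rho_L _ (on_Mp.2 ((h.inc S _).2 (Or.inr rfl)))]
  have hL : ∑ j : Comp 𝒜 p, (m j : ℚ) * cyc I c j (Lp _) = 0 := by
    rw [← add_mul] at e'
    refine (mul_eq_zero.1 e').resolve_left ?_
    have : (0 : ℚ) < N' := by exact_mod_cast hN'
    positivity
  obtain ⟨N, b, hN, e⟩ := key u hu
  rw [hL, mul_zero, add_zero] at e
  exact (mul_eq_zero.1 e).resolve_left (by exact_mod_cast hN.ne')

open Classical in
/-- the class of the ideal of a double intersection on a component -/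
def sCl (j : Comp 𝒜 p) (S : Edge 𝒜 p) : Pic (Mp j.1).V :=
  if h : ∃ D : Car (Mp j.1).V, IsCl D ((Mp j.1).fam (pr S.1.1)) then cl h.choose else 1

theorem Fib.sCl_spec (h : Fib m I) (S : Edge 𝒜 p) {j : Comp 𝒜 p} (hj : cI j ≤ pr S.1.1) :
    ∃ D : Car (Mp j.1).V, IsCl D ((Mp j.1).fam (pr S.1.1)) ∧ sCl j S = cl D := by
  have e := (h.lp_edge S hj).exists_isCl _ (on_Mp.2 hj)
  exact ⟨e.choose, e.choose_spec, dif_pos e⟩

theorem Fib.psi_symm (h : Fib m I) (S : Edge 𝒜 p) (W : Pt 𝒜)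
    (hW : ∀ j : Comp 𝒜 p, Lev 2 (PV j.1 (CC I j) (pr W))) :
    Psi (ea S).1 (CC I (ea S)) (pr W) (sCl (ea S) S) =
      Psi (eb S).1 (CC I (eb S)) (pr W) (sCl (eb S) S) := by
  have ha := (h.inc S _).2 (Or.inl rfl)
  have hb := (h.inc S _).2 (Or.inr rfl)
  obtain ⟨D, hD, e⟩ := h.sCl_spec S ha
  obtain ⟨D', hD', e'⟩ := h.sCl_spec S hb
  obtain ⟨c1⟩ := h.cls (ea S)
  obtain ⟨c2⟩ := h.cls (eb S)
  have := (isInt_of_lev c1 ha hD W (hW _) le_rfl).unique (isInt_of_lev c2 hb hD' W (hW _) le_rfl)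
  have hp : Real.log p ≠ 0 :=
    (Real.log_pos (by exact_mod_cast (Fact.out : p.Prime).one_lt)).ne'
  rw [e, e']
  exact_mod_cast mul_right_cancel₀ hp this

/-- the correction in one fibre -/
theorem exists_corr [CharZero A] (h : Fib m I) {d : ℕ} (h3 : 3 ≤ d)
    (hd : ∀ j : Comp 𝒜 p, dm j.1 = d) {c : Pt 𝒜 →₀ ℚ}
    (hc : ∀ x ∈ c.support, CharZero (kap x) ∧ tr x = 1) (ht : CohTriv c) :
    ∃ y : Pt 𝒜 →₀ ℚ, (∀ x ∈ y.support, (p : A) ∈ pr x ∧ tr x = 2) ∧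
      ∀ (j : Comp 𝒜 p) (D : Pic (Mp j.1).V), cyc I c j D + cyc I y j D = 0 := by
  classical
  have hE := h.dm_edge hd
  have hE' : ∀ S : Edge 𝒜 p, dm S.1 = d - 1 := fun S => by have := hE S; omega
  have hlev : ∀ (W : {W : Vp 𝒜 p // dm W = 2}) (j : Comp 𝒜 p),
      Lev 2 (PV j.1 (CC I j) (pr W.1.1)) := fun W j => by
    have := lev_PV_vert j (CC I j) W.1
    rwa [W.2] at this
  have hd2 : (d : ℚ) - 2 ≠ 0 := by
    have : (3 : ℚ) ≤ d := by exact_mod_cast h3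
    linarith
  obtain ⟨y, hy⟩ := lin_alg (𝒲 := {W : Vp 𝒜 p // dm W = 2}) (fun j : Comp 𝒜 p => Pic (Mp j.1).V)
    (fun S : Edge 𝒜 p => Pic (Mp S.1).V) ea eb (fun S => (ea_eb S).1)
    (fun j S => (Mp j.1).rho S.1) (fun j => Lp _) (fun S => Lp _) sCl
    (fun j => i2 (Mp j.1).V d) (fun S => i2 (Mp S.1).V (d - 1)) m h.pos (-((d : ℚ) - 2)⁻¹)
    (neg_ne_zero.2 (inv_ne_zero hd2))
    (fun j => hd j ▸ good_i2 (mdl_Mp j.1) (by have := hd j; unfold dm at this; omega))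
    (fun S => hE' S ▸ good_i2 (mdl_Mp S.1) (by have := hE' S; unfold dm at this; omega))
    (fun S j hj => AM.rho_L _ (on_Mp.2 ((h.inc S j).2 hj)))
    (fun S j hj u => by
      have hle := (h.inc S j).2 hj
      obtain ⟨D, hD, e⟩ := h.sCl_spec S hle
      have e1 : dl (cl D) (PP (Mp j.1).V) = fun E => -PP (Mp S.1).V ((Mp j.1).rho S.1 E) := by
        funext E
        rw [← Phi_pt hle, Phi_isCl _ hD, neg_neg]
      have e2 := i2_L (mdl_Mp S.1) (by have := hE' S; unfold dm at this; omega)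
        ((Mp j.1).rho S.1 u)
      have e3 : dimV (Mp S.1).V = d - 1 := hE' S
      rw [e3] at e2
      rw [e2, e]
      unfold i2 i1
      rw [e1, lin_neg, lin_comp (PP (Mp S.1).V)]
      have e4 : ((d - 1 : ℕ) : ℚ) - 1 = d - 2 := by
        rw [Nat.cast_sub (by omega)]; push_cast; ring
      rw [e4, show d - 1 - 1 = d - 2 by omega]
      field_simp)
    (fun j => finRk_of_good
      (good_i2 (mdl_Mp j.1) (by have := hd j; unfold dm at this; omega)) (Nat.factorial_pos _)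
      (i2_int (mdl_Mp j.1) (by have := hd j; unfold dm at this; omega))
      (Fact.out : p.Prime).one_lt (pic_mod_finite j.1 (h.ufd j)))
    (fun W j => Psi j.1 (CC I j) (pr W.1.1)) (cyc I c) (fun W j => Psi_mul (hlev W j)) (cyc_mul hc)
    (fun z hz k x => span_K h h3 hd z (fun W hW => hz ⟨W, hW⟩) k x)
    (fun S W => h.psi_symm S W.1.1 (hlev W))
    (fun S => Finset.sum_congr rfl fun W hW => by
      beta_reduce
      rw [h.psi_symm S W fun j => lev_PV_horiz j _ (hc W hW).1 (hc W hW).2])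
    (glue_zero h hc ht)
  have hinj : Function.Injective fun W : {W : Vp 𝒜 p // dm W = 2} => W.1.1 :=
    Subtype.val_injective.comp Subtype.val_injective
  refine ⟨y.mapDomain fun W => W.1.1, fun x hx => ?_, fun j D => ?_⟩
  · obtain ⟨W, -, rfl⟩ := Finset.mem_image.1 (Finsupp.mapDomain_support hx)
    exact ⟨W.1.2, by rw [tr_eq_dm, W.2]; rfl⟩
  · rw [← hy j D]
    congr 1
    unfold cyc
    rw [Finsupp.sum_mapDomain_index_inj hinj]

/-- no correction is needed in a regular fibre -/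
theorem no_corr [CharZero A] (h : Fib m I) [IsEmpty (Edge 𝒜 p)] {c : Pt 𝒜 →₀ ℚ}
    (hc : ∀ x ∈ c.support, CharZero (kap x) ∧ tr x = 1) (ht : CohTriv c) (j : Comp 𝒜 p)
    (D : Pic (Mp j.1).V) : cyc I c j D = 0 := by
  classical
  have := glue_zero h hc ht (Pi.mulSingle j D) fun S => isEmptyElim S
  rw [Finset.sum_eq_single j (fun i _ hi => ?_) (by simp), Pi.mulSingle_eq_same] at this
  · exact (mul_eq_zero.1 this).resolve_left (by exact_mod_cast (h.pos j).ne')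
  · rw [Pi.mulSingle_eq_of_ne hi, ← pow_zero (1 : Pic _), add_pow_of_mul (cyc_mul hc i)]
    simp

theorem cyc_add (c c' : Pt 𝒜 →₀ ℚ) (j : Comp 𝒜 p) (D : Pic (Mp j.1).V) :
    cyc I (c + c') j D = cyc I c j D + cyc I c' j D :=
  Finsupp.sum_add_index' (fun _ => zero_mul _) fun _ _ _ => add_mul _ _ _

theorem cyc_other {y : Pt 𝒜 →₀ ℚ} {q : ℕ} (hq : q.Prime) (hne : q ≠ p)
    (hy : ∀ x ∈ y.support, (q : A) ∈ pr x) (j : Comp 𝒜 p) (D : Pic (Mp j.1).V) :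
    cyc I y j D = 0 := by
  refine Finset.sum_eq_zero fun W hW => ?_
  unfold Psi
  beta_reduce
  rw [PV_other j _ hq hne (hy W hW)]
  simp [lin, dl]

omit hG [Fact p.Prime] in
theorem main [CharZero A] (d : ℕ) (hd : 3 ≤ d) (hfg : Gen 𝒜) (hdim : Algebra.trdeg ℤ A = d + 1)
    (hsm : ∀ x : Pt 𝒜, CharZero (kap x) → Algebra.FormallySmooth ℤ (loc x)) (hsnc : SNC 𝒜)
    (c : Pt 𝒜 →₀ ℚ) (hc : ∀ x ∈ c.support, CharZero (kap x) ∧ tr x = 1) (ht : CohTriv c) :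
    ∃ y : Pt 𝒜 →₀ ℚ, (∀ x ∈ y.support, ¬CharZero (kap x) ∧ tr x = 2) ∧
      ∀ z : Pt 𝒜, ¬CharZero (kap z) → tr z + 1 = d → Orth d (c + y) z := by
  classical
  haveI : Fact (Gen 𝒜) := ⟨hfg⟩
  have hfib := fun q : Nat.Primes => haveI : Fact q.1.Prime := ⟨q.2⟩; exists_fib (p := q.1) hsnc
  choose m I hI using hfib
  have hcorr := fun q : Nat.Primes => haveI : Fact q.1.Prime := ⟨q.2⟩;
    exists_corr (hI q) hd (dm_comp hdim) hc ht
  choose Y hY1 hY2 using hcorr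
  have hfin := (finite_bad hsm).preimage (f := fun q : Nat.Primes => q.1)
    Subtype.val_injective.injOn
  have hsupp : ∀ x ∈ (∑ q ∈ hfin.toFinset, Y q).support,
      ∃ q : Nat.Primes, (q.1 : A) ∈ pr x ∧ tr x = 2 := fun x hx => by
    obtain ⟨q, -, hq⟩ := Finset.mem_biUnion.1 (Finsupp.support_finset_sum hx)
    exact ⟨q, hY1 q x hq⟩
  refine ⟨∑ q ∈ hfin.toFinset, Y q, fun x hx => ?_, fun z hz hzd => ?_⟩
  · obtain ⟨q, h1, h2⟩ := hsupp x hx
    exact ⟨not_charZero_of_mem x q.2.ne_zero h1, h2⟩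
  obtain ⟨p, hp, hpz⟩ := exists_prime_of_not_charZero z hz
  haveI : Fact p.Prime := ⟨hp⟩
  let q₀ : Nat.Primes := ⟨p, hp⟩
  have h : Fib (p := p) (m q₀) (I q₀) := hI q₀
  let z' : Vp 𝒜 p := ⟨z, hpz⟩
  obtain ⟨j, hj⟩ := exists_comp z'
  have hdz : dm z' + 1 = dm j.1 := by
    rw [dm_comp hdim j]
    have := tr_eq_dm z'
    rw [show tr z'.1 = tr z from rfl] at this
    rw [this] at hzd
    exact_mod_cast hzd
  obtain ⟨D, hD⟩ := (lp_div hj hdz (h.ufd j)).exists_isCl _ (on_Mp.2 hj)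
  obtain ⟨cls⟩ := h.cls j
  refine ⟨fun W => (Psi j.1 (CC (I q₀) j) (pr W) (cl D) : ℚ) * Real.log p, fun W hW => ?_, ?_⟩
  · refine isInt_of_lev cls hj hD W ?_ (by omega)
    rcases Finset.mem_union.1 (Finsupp.support_add hW) with h1 | h1
    · exact lev_PV_horiz j _ (hc W h1).1 (hc W h1).2
    obtain ⟨q, h2, h3⟩ := hsupp W h1
    by_cases hq : q.1 = p
    · have e : dm (⟨W, hq ▸ h2⟩ : Vp 𝒜 p) = 2 := by
        have := tr_eq_dm (⟨W, hq ▸ h2⟩ : Vp 𝒜 p)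
        rw [show tr (⟨W, hq ▸ h2⟩ : Vp 𝒜 p).1 = tr W from rfl, h3] at this
        exact_mod_cast this.symm
      exact e ▸ lev_PV_vert j _ ⟨W, hq ▸ h2⟩
    · rw [PV_other j _ q.2 hq h2]
      exact lev_zero_fun
  have key : cyc (I q₀) (c + ∑ q ∈ hfin.toFinset, Y q) j (cl D) = 0 := by
    have e1 : cyc (I q₀) (∑ q ∈ hfin.toFinset, Y q) j (cl D) =
        ∑ q ∈ hfin.toFinset, cyc (I q₀) (Y q) j (cl D) := by
      induction hfin.toFinset using Finset.induction_on with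
      | empty => simp [cyc]
      | insert a s ha ih => rw [Finset.sum_insert ha, Finset.sum_insert ha, cyc_add, ih]
    have e2 : ∀ q : Nat.Primes, q ≠ q₀ → cyc (I q₀) (Y q) j (cl D) = 0 := fun q hq =>
      cyc_other q.2 (fun e => hq (Subtype.ext e)) (fun x hx => (hY1 q x hx).1) j _
    rw [cyc_add, e1]
    by_cases hb : q₀ ∈ hfin.toFinset
    · rw [Finset.sum_eq_single q₀ (fun q _ hq => e2 q hq) fun hn => absurd hb hn]
      exact hY2 q₀ j _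
    · rw [Finset.sum_eq_zero fun q hq => e2 q fun e => hb (e ▸ hq), add_zero]
      haveI := h.isEmpty_edge fun y hy => hb (hfin.mem_toFinset.2 ⟨hp, y, hy⟩)
      exact no_corr h hc ht j _
  have : ((c + ∑ q ∈ hfin.toFinset, Y q).sum fun x n =>
      (n : ℝ) * ((Psi j.1 (CC (I q₀) j) (pr x) (cl D) : ℚ) * Real.log p)) =
      (cyc (I q₀) (c + ∑ q ∈ hfin.toFinset, Y q) j (cl D) : ℚ) * Real.log p := by
    unfold cyc Finsupp.sum
    push_cast
    rw [Finset.sum_mul]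
    exact Finset.sum_congr rfl fun W _ => by ring
  rw [this, key]; simp

end

end Pool.Agent.Lib.MP_62d77c_ag
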