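import Pool.Agent.Lib.MP_62d77c_ag.Sec
import Pool.Agent.Lib.MP_62d77c_ag.SpecL

/-! The generic member, on the level of line bundles. -/

set_option autoImplicit false

namespace Pool.Agent.Lib.MP_62d77c_ag

open Filter Polynomial Submodule

noncomputable section

namespace Member

variable {k K : Type} [Field k] [Field K] [Algebra k K] {V U : Submodule k K}

theorem poly_ext {P Q : ℚ[X]} (h : ∀ᶠ n : ℕ in atTop, P.eval (n : ℚ) = Q.eval (n : ℚ)) :
    P = Q := by
  apply Polynomial.eq_of_infinite_eval_eq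
  obtain ⟨n0, hn⟩ := eventually_atTop.1 h
  refine Set.infinite_of_injective_forall_mem (f := fun n : ℕ => ((n + n0 : ℕ) : ℚ))
    (fun a b e => ?_) fun n => hn _ (Nat.le_add_left _ _)
  have : a + n0 = b + n0 := Nat.cast_injective e
  omega

theorem pair (hV : Mdl V) {D : Car V} (h : Rep D U 0) (E : Car V) :
    (sec (E * D)).FG ∧ U * sec E ≤ sec (E * D) ∧ Sat U (sec E) (sec (E * D)) := by
  have f : Fg V (tw E (pw V)) := (fg_pw' hV.1).tw hV E
  have e : sec (E * D) = H0 V (tw D (tw E (pw V))) := by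
    rw [mul_comm]; exact H0_congr (tw_mul hV (fg_pw' hV.1) D E)
  refine ⟨sec_fg hV _, ?_, ?_⟩
  · rw [e]; exact mul_H0_le hV f h
  · rw [e]; exact sat_H0 hV f h

section spec
variable {k' K' : Type} [Field k'] [Field K'] [Algebra k' K'] {S : Spec k K k' K'}

theorem mem_O (hO : S.O = ⊤) (y : K) : y ∈ S.O := by rw [hO]; trivial

theorem triv (hO : S.O = ⊤) {W : Submodule k K} (hW : W ≠ ⊥) : S.Triv W 1 := by
  obtain ⟨w, hw, w0⟩ := Submodule.exists_mem_ne_zero_of_ne_bot hW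
  refine ⟨one_ne_zero, fun _ _ => mem_O hO _, w, hw, fun q => ?_⟩
  have := S.ev_mul (mem_O hO (w / 1)) (mem_O hO w⁻¹)
  rw [q, zero_mul, div_one, mul_inv_cancel₀ w0, S.ev_one] at this
  exact one_ne_zero this

theorem img_mul (hO : S.O = ⊤) (W W' : Submodule k K) :
    S.img (W * W') 1 = S.img W 1 * S.img W' 1 := by
  rw [← S.img_mul (fun _ _ => mem_O hO _) (fun _ _ => mem_O hO _), one_mul]

theorem fam (hV : Mdl V) (hO : S.O = ⊤) (ov : S.Over V 1 (S.img V 1)) (E : Car V) :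
    ∃ D' : Car (S.img V 1), ov.rho (cl E) = cl D' ∧
      (∀ᶠ n in atTop, S.img (tw E (pw V) n) 1 = tw D' (pw (S.img V 1)) n) ∧
      S.img (sec E) 1 ≤ sec D' := by
  have r := rep_rp E
  obtain ⟨D', r', e⟩ := ov.rho_spec r (triv hO (r.ne_bot hV))
  have pw1 : ∀ m, S.img (V ^ m) 1 = S.img V 1 ^ m := fun m => by
    have := ov.pow m
    rwa [one_pow] at this
  have h1 : ∀ᶠ n in atTop, S.img (tw E (pw V) n) 1 = tw D' (pw (S.img V 1)) n := by
    filter_upwards [tw_rep (fg_pw' (ov.mdl hV).1) r'] with n hn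
    rw [hn]
    show S.img ((rp E).1 * V ^ (n - (rp E).2)) 1 = S.img (rp E).1 1 * S.img V 1 ^ (n - (rp E).2)
    rw [img_mul hO, pw1]
  refine ⟨D', e, h1, ?_⟩
  rw [Spec.img, span_le]
  rintro _ ⟨w, hw, rfl⟩
  have hw' : ∀ᶠ m in atTop, ∀ v ∈ V ^ m, v • w ∈ tw E (pw V) m := hw
  show ∀ᶠ m in atTop, ∀ v ∈ S.img V 1 ^ m, v • S.ev (w / 1) ∈ tw D' (pw (S.img V 1)) m
  filter_upwards [hw', h1] with m a b v hv
  rw [← b]
  have le : V ^ m * span k {w} ≤ tw E (pw V) m := by
    rw [Submodule.mul_le]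
    intro x hx y hy
    obtain ⟨c, rfl⟩ := mem_span_singleton.1 hy
    rw [mul_smul_comm]
    exact Submodule.smul_mem _ _ (a x hx)
  apply S.img_mono le
  rw [img_mul hO, pw1]
  exact mul_mem_mul hv (subset_span ⟨w, mem_span_singleton_self w, rfl⟩)

end spec

end Member

open Member in
theorem member {k K : Type} [Field k] [Field K] [Algebra k K] {V U : Submodule k K} (hV : Mdl V)
    {D : Car V} (h : Rep D U 0) (hL : cl D = Lp V → U = V) :
    (∀ E, PP V (E * cl D) = PP V E ∧ h0 V (E * cl D) = h0 V E) ∨ Nonempty (Mem V (cl D)) := by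
  rcases gen_member U (h.fg hV) (h.ne_bot hV) with c | ⟨k', K', _, _, _, S, hO, c1, c2⟩
  · left
    have a : ∀ E, h0 V (E * cl D) = h0 V E := by
      intro E
      obtain ⟨p1, p2, p3⟩ := pair hV h E.out
      rw [← cl_out E, ← map_mul, h0_cl hV, h0_cl hV]
      exact (c _ _ p1 p2 p3).symm
    refine fun E => ⟨poly_ext ?_, a E⟩
    filter_upwards [h0_eventually hV (E * cl D), h0_eventually hV E] with n h1 h2
    rw [← h1, ← h2, mul_right_comm, a]
  right
  have ov : S.Over V 1 (S.img V 1) := ⟨triv hO hV.2, rfl⟩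
  have hV' := ov.mdl hV
  have eq : ∀ E : Car V, Module.finrank k (sec E) + Module.finrank k' (S.img (sec (E * D)) 1) =
      Module.finrank k (sec (E * D)) := fun E =>
    let ⟨p1, p2, p3⟩ := pair hV h E
    c2 _ _ p1 p2 p3
  have hP : ∀ E, PP V (E * cl D) - PP V E = PP (S.img V 1) (ov.rho (E * cl D)) := by
    intro E
    obtain ⟨D', e, f, -⟩ := fam hV hO ov (E.out * D)
    rw [← cl_out E, ← map_mul, e]
    apply poly_ext
    filter_upwards [f, hq_spec hV (fg_pw' hV.1) (E.out * D), hq_spec hV (fg_pw' hV.1) E.out,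
      hq_spec hV' (fg_pw' hV'.1) D', sec_L_pow hV E.out, sec_L_pow hV (E.out * D)]
      with n f1 a1 a2 a3 s1 s2
    have := eq (E.out * Lc V ^ n)
    rw [mul_right_comm, s1, s2, f1] at this
    rw [eval_sub]
    unfold PP
    rw [a1, a2, a3, ← this]
    push_cast
    ring
  have hh : ∀ E, h0 V (E * cl D) ≤ h0 V E + h0 (S.img V 1) (ov.rho (E * cl D)) := by
    intro E
    obtain ⟨D', e, -, g⟩ := fam hV hO ov (E.out * D)
    rw [← cl_out E, ← map_mul, e, h0_cl hV, h0_cl hV, h0_cl hV', ← eq]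
    have := Module.Finite.iff_fg.2 (sec_fg hV' D')
    exact Nat.add_le_add_left (Submodule.finrank_mono g) _
  refine ⟨⟨k', K', S.img V 1, ov.rho, hV', ov.rho_L, ?_, hP, hh, ?_⟩⟩
  · have a := hP 1
    obtain ⟨-, -, b⟩ := PP_lead hV (cl D)
    obtain ⟨b1, b2, -⟩ := PP_lead hV' (ov.rho (cl D))
    rw [one_mul] at a
    rw [a, mem_degreeLT] at b
    have : PP (S.img V 1) (ov.rho (cl D)) ≠ 0 := fun q => by simp [q] at b2
    rw [← b1]
    exact (natDegree_lt_iff_degree_lt this).2 b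
  · intro hD E a b
    have hU := hL hD
    subst hU
    have hDL : D = Lc U := h.unique rep_L
    subst hDL
    obtain ⟨D', e, -, g⟩ := fam hV hO ov (E.out * Lc U)
    have hh2 := hh (E * cl (Lc U))
    have e2 : ov.rho (cl (E.out * Lc U) * cl (Lc U)) = cl (D' * Lc (S.img U 1)) := by
      rw [map_mul, e, map_mul]
      exact congrArg _ ov.rho_L
    rw [← cl_out E, ← map_mul] at a b hh2 ⊢
    rw [e2] at hh2 ⊢
    rw [e] at a b
    rw [← map_mul] at hh2 ⊢
    rw [h0_cl hV, h0_cl hV, h0_cl hV'] at a hh2 ⊢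
    rw [mulOK_cl hV'] at b
    rw [mulOK_cl hV]
    have := Module.Finite.iff_fg.2 (sec_fg hV' D')
    have g2 : S.img (sec (E.out * Lc U)) 1 = sec D' :=
      Submodule.eq_of_le_of_finrank_eq g (by have := eq E.out; omega)
    have i1 := c1 (sec (E.out * Lc U)) (U * sec (E.out * Lc U)) (hV.1.mul (sec_fg hV _)) le_rfl
    rw [Member.img_mul hO, g2, b] at i1
    obtain ⟨p1, p2, -⟩ := pair hV h (E.out * Lc U)
    have := Module.Finite.iff_fg.2 p1
    have i2 := Submodule.finrank_mono p2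
    exact ⟨Submodule.eq_of_le_of_finrank_eq p2 (by omega), by omega⟩

end

end Pool.Agent.Lib.MP_62d77c_ag
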