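import Pool.Agent.Lib.MP_62d77c_ag.Defs
import Pool.Agent.Lib.MP_62d77c_ag.SpecL

/-! Graded rings generated in degree one: points, models, ideal families. -/

set_option autoImplicit false

namespace Pool.Agent.Lib.MP_62d77c_ag

open Filter Polynomial Submodule

noncomputable section

variable {A : Type} [CommRing A] [IsDomain A] {𝒜 : ℕ → AddSubgroup A} [GradedRing 𝒜]

variable (𝒜) in
/-- generated by finitely many elements of degree one -/
def Gen : Prop := ∃ s : Finset A, (∀ a ∈ s, a ∈ 𝒜 1) ∧ Subring.closure (s : Set A) = ⊤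

variable (𝒜) in
/-- points -/
abbrev Pt : Type := ProjectiveSpectrum 𝒜

variable (𝒜) in
/-- points over the prime `p` -/
abbrev Vp (p : ℕ) : Type := {x : Pt 𝒜 // (p : A) ∈ pr x}

/-- a linear form not vanishing at `x` -/
def ell (x : Pt 𝒜) : A := Classical.epsilon fun a => a ∈ 𝒜 1 ∧ a ∉ pr x

/-- a model of a closed integral subscheme inside a field -/
structure AM (𝒜 : ℕ → AddSubgroup A) (k K : Type) [CommRing k] [Field K] [Algebra k K] where
  θ : A →+* K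
  surj : Function.Surjective (Int.castRingHom k)

namespace AM
variable {k K : Type} [CommRing k] [Field K] [Algebra k K] (M : AM 𝒜 k K)

/-- the point `y` lies on the model -/
def On (y : Pt 𝒜) : Prop := ∀ n, ∀ a ∈ 𝒜 n, M.θ a = 0 → a ∈ pr y

/-- the family of an ideal -/
def fam (I : Ideal A) (n : ℕ) : Submodule k K := span k (M.θ '' {a | a ∈ I ∧ a ∈ 𝒜 n})

/-- the linear forms -/
abbrev V : Submodule k K := M.fam ⊤ 1

/-- degree zero fractions with denominators in `T` -/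
def fr (T : Submonoid A) : Subring K :=
  Subring.closure {z | ∃ n, ∃ a ∈ 𝒜 n, ∃ b ∈ 𝒜 n, b ∈ T ∧ z = M.θ a / M.θ b}

/-- the local ring of the model at `y` -/
def orng (y : Pt 𝒜) : Subring K := M.fr (pr y).primeCompl

/-- `g`, of degree `e`, generates the family `N` at `y` -/
def GenAt (N : ℕ → Submodule k K) (y : Pt 𝒜) (e : ℕ) (g : K) : Prop :=
  g ≠ 0 ∧ g ∈ H0 M.V (fun m => N (m + e)) ∧
    ∀ᶠ n in atTop, ∀ w ∈ N n, w * M.θ (ell y) ^ e / (g * M.θ (ell y) ^ n) ∈ M.orng y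

/-- `g`, of degree `e`, generates the ideal `J` at `y` -/
def GenI (J : Ideal A) (y : Pt 𝒜) (e : ℕ) (g : A) : Prop :=
  g ∈ J ∧ g ∈ 𝒜 e ∧ M.θ g ≠ 0 ∧ ∀ n, ∀ a ∈ J, a ∈ 𝒜 n → ∃ m l, ∃ b ∈ 𝒜 m, ∃ c ∈ 𝒜 l,
    b ∉ pr y ∧ m + n = l + e ∧ M.θ (b * a) = M.θ (c * g)

/-- locally principal ideal -/
def LP (J : Ideal A) : Prop := ∀ y, M.On y → ∃ e g, M.GenI J y e g

end AM

/-- the model of the whole scheme -/
def MX (𝒜 : ℕ → AddSubgroup A) : AM 𝒜 ℤ (FractionRing A) := ⟨algebraMap A _, fun z => ⟨z, rfl⟩⟩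

/-- a filtration of `A ⧸ 𝔞` with prime quotients -/
inductive Filt (𝒜 : ℕ → AddSubgroup A) : Ideal A → List (Ideal A × ℕ) → Prop
  | top : Filt 𝒜 ⊤ []
  | step (𝔞 : Ideal A) (f : A) (a : ℕ) (l : List (Ideal A × ℕ)) : f ∈ 𝒜 a →
      (𝔞.colon {f}).IsPrime → Filt 𝒜 (𝔞 ⊔ Ideal.span {f}) l → Filt 𝒜 𝔞 ((𝔞.colon {f}, a) :: l)

omit [IsDomain A] in
theorem md_proj_mem (n : ℕ) (a : A) : GradedRing.proj 𝒜 n a ∈ 𝒜 n := by
  rw [GradedRing.proj_apply]; exact SetLike.coe_mem _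

omit [IsDomain A] in
theorem md_proj_same {n : ℕ} {a : A} (h : a ∈ 𝒜 n) : GradedRing.proj 𝒜 n a = a := by
  rw [GradedRing.proj_apply]; exact DirectSum.decompose_of_mem_same 𝒜 h

omit [IsDomain A] in
theorem md_proj_ne {n m : ℕ} {a : A} (h : a ∈ 𝒜 n) (e : n ≠ m) : GradedRing.proj 𝒜 m a = 0 := by
  rw [GradedRing.proj_apply]; exact DirectSum.decompose_of_mem_ne 𝒜 h e

omit [IsDomain A] in
theorem md_proj_ideal {I : Ideal A} (hI : I.IsHomogeneous 𝒜) (n : ℕ) {a : A} (h : a ∈ I) :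
    GradedRing.proj 𝒜 n a ∈ I := by
  rw [GradedRing.proj_apply]; exact hI n h

omit [IsDomain A] in
theorem md_mem_of_proj {I : Ideal A} {a : A} (h : ∀ n, GradedRing.proj 𝒜 n a ∈ I) : a ∈ I := by
  classical
  rw [← DirectSum.sum_support_decompose 𝒜 a]
  exact I.sum_mem fun n _ => by simpa [GradedRing.proj_apply] using h n

omit [IsDomain A] in
theorem md_le_of_hom {I J : Ideal A} (hI : I.IsHomogeneous 𝒜)
    (h : ∀ n, ∀ a ∈ 𝒜 n, a ∈ I → a ∈ J) : I ≤ J := fun a ha =>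
  md_mem_of_proj fun n => h n _ (md_proj_mem n a) (md_proj_ideal hI n ha)

omit [IsDomain A] in
theorem md_exists_not_mem {I J : Ideal A} (hI : I.IsHomogeneous 𝒜) (h : ¬I ≤ J) :
    ∃ n, ∃ a ∈ 𝒜 n, a ∈ I ∧ a ∉ J := by
  by_contra hc
  push Not at hc
  exact h (md_le_of_hom hI hc)

omit [IsDomain A] in
theorem md_proj_mul {i : ℕ} {f : A} (hf : f ∈ 𝒜 i) (n : ℕ) (a : A) :
    GradedRing.proj 𝒜 (n + i) (a * f) = GradedRing.proj 𝒜 n a * f := by
  rw [GradedRing.proj_apply, GradedRing.proj_apply]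
  exact DirectSum.coe_decompose_mul_add_of_right_mem 𝒜 hf

omit [IsDomain A] in
theorem md_proj_mul_lt {i : ℕ} {f : A} (hf : f ∈ 𝒜 i) {n : ℕ} (h : ¬i ≤ n) (a : A) :
    GradedRing.proj 𝒜 n (a * f) = 0 := by
  rw [GradedRing.proj_apply]
  exact DirectSum.coe_decompose_mul_of_right_mem_of_not_le 𝒜 hf h

omit [IsDomain A] in
theorem md_colon_hom {I : Ideal A} (hI : I.IsHomogeneous 𝒜) {i : ℕ} {f : A} (hf : f ∈ 𝒜 i) :
    (I.colon {f}).IsHomogeneous 𝒜 := by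
  intro n a ha
  rw [Submodule.mem_colon_singleton, smul_eq_mul] at ha ⊢
  rw [← GradedRing.proj_apply, ← md_proj_mul hf]
  exact md_proj_ideal hI _ ha

omit [IsDomain A] in
theorem md_span_hom {i : ℕ} {f : A} (hf : f ∈ 𝒜 i) : (Ideal.span {f}).IsHomogeneous 𝒜 :=
  Ideal.homogeneous_span 𝒜 _ (by rintro x rfl; exact ⟨i, hf⟩)

omit [IsDomain A] in
theorem md_natCast_mem (p : ℕ) : (p : A) ∈ 𝒜 0 := SetLike.natCast_mem_graded 𝒜 p

omit [IsDomain A] in
theorem md_intCast_mem (p : ℤ) : (p : A) ∈ 𝒜 0 := SetLike.intCast_mem_graded 𝒜 p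

omit [IsDomain A] in
theorem md_pow_mem {l : A} (hl : l ∈ 𝒜 1) (n : ℕ) : l ^ n ∈ 𝒜 n := by
  simpa using SetLike.pow_mem_graded n hl

omit [IsDomain A] in
theorem md_exists_W (h : Gen 𝒜) :
    ∃ W : Submodule ℤ A, W.FG ∧ ∀ n a, a ∈ 𝒜 n ↔ a ∈ W ^ n := by
  obtain ⟨s, hs, hc⟩ := h
  have h1 : ∀ n a, a ∈ (span ℤ (s : Set A)) ^ n → a ∈ 𝒜 n := by
    intro n
    induction n with
    | zero =>
      intro a ha
      rw [pow_zero, Submodule.mem_one] at ha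
      obtain ⟨z, rfl⟩ := ha
      exact md_intCast_mem z
    | succ n ih =>
      intro a ha
      rw [pow_succ] at ha
      refine Submodule.mul_induction_on ha (fun x hx y hy => ?_) (fun x y => add_mem)
      refine SetLike.mul_mem_graded (ih x hx) ?_
      induction hy using Submodule.span_induction with
      | mem z hz => exact hs z hz
      | zero => exact zero_mem _
      | add z w _ _ h1 h2 => exact add_mem h1 h2
      | smul c z _ h1 => exact zsmul_mem h1 c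
  have h2 : ∀ a : A, a ∈ ⨆ n, (span ℤ (s : Set A)) ^ n := by
    intro a
    have ha : a ∈ Subring.closure (s : Set A) := hc ▸ Subring.mem_top a
    induction ha using Subring.closure_induction with
    | mem z hz => exact Submodule.mem_iSup_of_mem 1 (by rw [pow_one]; exact subset_span hz)
    | zero => exact zero_mem _
    | one => exact Submodule.mem_iSup_of_mem 0 (by rw [pow_zero]; exact Submodule.one_le.1 le_rfl)
    | add z w _ _ h1 h2 => exact add_mem h1 h2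
    | neg z _ h1 => exact neg_mem h1
    | mul z w _ _ h1 h2 =>
      have : (⨆ n, (span ℤ (s : Set A)) ^ n) * (⨆ n, (span ℤ (s : Set A)) ^ n) ≤
          ⨆ n, (span ℤ (s : Set A)) ^ n := by
        rw [Submodule.iSup_mul]
        refine iSup_le fun i => ?_
        rw [Submodule.mul_iSup]
        refine iSup_le fun j => ?_
        rw [← pow_add]
        exact le_iSup (fun n => (span ℤ (s : Set A)) ^ n) (i + j)
      exact this (Submodule.mul_mem_mul h1 h2)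
  refine ⟨span ℤ (s : Set A), Submodule.fg_span s.finite_toSet, fun n a => ⟨fun ha => ?_, h1 n a⟩⟩
  rw [← md_proj_same ha]
  have h3 := h2 a
  clear ha
  induction h3 using Submodule.iSup_induction' with
  | mem i z hz =>
    by_cases e : i = n
    · subst e; rwa [md_proj_same (h1 i z hz)]
    · rw [md_proj_ne (h1 i z hz) e]; exact zero_mem _
  | zero => simp
  | add z w _ _ h1 h2 => rw [map_add]; exact add_mem h1 h2

omit [IsDomain A] in
theorem md_mem_of_one (h : Gen 𝒜) {I : Ideal A} (hI : ∀ a ∈ 𝒜 1, a ∈ I) {n : ℕ} (hn : 0 < n)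
    {a : A} (ha : a ∈ 𝒜 n) : a ∈ I := by
  obtain ⟨W, -, hW⟩ := md_exists_W h
  obtain ⟨n, rfl⟩ : ∃ m, n = m + 1 := ⟨n - 1, by omega⟩
  rw [hW, pow_succ] at ha
  refine Submodule.mul_induction_on ha (fun x _ y hy => ?_) (fun x y => add_mem)
  exact I.mul_mem_left _ (hI y ((hW 1 y).2 (by rwa [pow_one])))

variable [hG : Fact (Gen 𝒜)]

theorem eventually_all_ge_atTop' {P : ℕ → Prop} (h : ∀ᶠ n in atTop, P n) :
    ∀ᶠ n in atTop, ∀ m, n ≤ m → P m := by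
  obtain ⟨a, ha⟩ := eventually_atTop.1 h
  filter_upwards [eventually_ge_atTop a] with n hn m hm
  exact ha m (hn.trans hm)

variable (𝒜) in
include hG in
theorem noeth_of_gen : IsNoetherianRing A := by
  obtain ⟨s, -, hc⟩ := hG.out
  have : Algebra.FiniteType ℤ A := ⟨⟨s, by
    rw [Algebra.adjoin_int, hc]; rfl⟩⟩
  exact Algebra.FiniteType.isNoetherianRing ℤ A

theorem ell_spec (x : Pt 𝒜) : ell x ∈ 𝒜 1 ∧ ell x ∉ pr x := by
  refine Classical.epsilon_spec (p := fun a => a ∈ 𝒜 1 ∧ a ∉ pr x) ?_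
  by_contra hc
  push Not at hc
  refine x.not_irrelevant_le ?_
  rw [HomogeneousIdeal.irrelevant_le]
  intro i hi a ha
  exact md_mem_of_one hG.out (I := pr x) hc hi ha

theorem piece_fg (n : ℕ) : (𝒜 n).FG := by
  obtain ⟨W, hf, hW⟩ := md_exists_W hG.out
  have : 𝒜 n = (W ^ n).toAddSubgroup := by ext a; exact hW n a
  rw [this, ← Submodule.fg_iff_addSubgroup_fg]
  exact hf.pow n

theorem mem_closure_mul (m n : ℕ) {a : A} (ha : a ∈ 𝒜 (m + n)) :
    a ∈ AddSubgroup.closure {z | ∃ b ∈ 𝒜 m, ∃ c ∈ 𝒜 n, z = b * c} := by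
  obtain ⟨W, -, hW⟩ := md_exists_W hG.out
  rw [hW, pow_add] at ha
  refine Submodule.mul_induction_on ha (fun x hx y hy => ?_) (fun x y => add_mem)
  exact AddSubgroup.subset_closure ⟨x, (hW _ _).2 hx, y, (hW _ _).2 hy, rfl⟩

omit hG in
theorem md_alg_ne {x : Pt 𝒜} {b : A} (h : b ∉ pr x) : algebraMap A (FractionRing A) b ≠ 0 :=
  fun e => h (((FaithfulSMul.algebraMap_eq_zero_iff _ _).1 e) ▸ zero_mem _)

omit hG in
theorem md_pow_not_mem {x : Pt 𝒜} {b : A} (h : b ∉ pr x) (n : ℕ) : b ^ n ∉ pr x :=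
  fun e => h (x.isPrime.mem_of_pow_mem n e)

omit hG in
theorem md_mul_not_mem {x : Pt 𝒜} {b c : A} (h : b ∉ pr x) (h' : c ∉ pr x) : b * c ∉ pr x :=
  fun e => (x.isPrime.mem_or_mem e).elim h h'

omit hG in
theorem md_one_not_mem (x : Pt 𝒜) : (1 : A) ∉ pr x := fun e =>
  x.isPrime.ne_top ((Ideal.eq_top_iff_one _).2 e)

omit hG in
theorem md_res_of_mem (x : Pt 𝒜) {y : FractionRing A} (h : y ∈ loc x) :
    res x y = IsLocalRing.residue (loc x) ⟨y, h⟩ := by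
  unfold res; rw [dif_pos h]

omit hG in
theorem md_res_eq_zero (x : Pt 𝒜) {n : ℕ} {a b : A} (ha : a ∈ 𝒜 n) (hb : b ∈ 𝒜 n) (h : b ∉ pr x) :
    res x (algebraMap A (FractionRing A) a / algebraMap A (FractionRing A) b) = 0 ↔ a ∈ pr x := by
  rw [md_res_of_mem x (mem_loc.2 ⟨n, a, ha, b, hb, h, rfl⟩), IsLocalRing.residue_eq_zero_iff,
    IsLocalRing.mem_maximalIdeal, mem_nonunits_iff]
  constructor
  · intro hu
    by_contra h1
    refine hu (IsUnit.of_mul_eq_one ⟨_, mem_loc.2 ⟨n, b, hb, a, ha, h1, rfl⟩⟩ (Subtype.ext ?_))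
    have := md_alg_ne h
    have := md_alg_ne h1
    simp only [Subring.coe_mul, Subring.coe_one]
    field_simp
  · intro h1 hu
    obtain ⟨⟨w, hw⟩, e⟩ := hu.exists_right_inv
    obtain ⟨m, c, hc, d, hd, hd', rfl⟩ := mem_loc.1 hw
    have e' := congrArg Subtype.val e
    simp only [Subring.coe_mul, Subring.coe_one] at e'
    have h2 := md_alg_ne h
    have h3 := md_alg_ne hd'
    have : algebraMap A (FractionRing A) (a * c) = algebraMap A (FractionRing A) (b * d) := by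
      rw [map_mul, map_mul]
      field_simp at e'
      exact e'
    have := FaithfulSMul.algebraMap_injective A (FractionRing A) this
    exact md_mul_not_mem h hd' (this ▸ Ideal.mul_mem_right _ _ h1)

theorem md_div_ell_mem (x : Pt 𝒜) {n : ℕ} {a : A} (ha : a ∈ 𝒜 n) :
    algebraMap A (FractionRing A) a / algebraMap A (FractionRing A) (ell x) ^ n ∈ loc x :=
  mem_loc.2 ⟨n, a, ha, ell x ^ n, md_pow_mem (ell_spec x).1 n, md_pow_not_mem (ell_spec x).2 n,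
    by rw [map_pow]⟩

theorem exists_th (x : Pt 𝒜) : ∃ θ : A →+* kap x, ∀ n, ∀ a ∈ 𝒜 n,
    θ a = res x (algebraMap A (FractionRing A) a / algebraMap A (FractionRing A) (ell x) ^ n) := by
  let f : ∀ n, 𝒜 n →+ loc x := fun n =>
    { toFun := fun a => ⟨_, md_div_ell_mem x a.2⟩
      map_zero' := Subtype.ext (by simp)
      map_add' := fun a b => Subtype.ext (by simp [add_div]) }
  have h1 : f 0 (GradedMonoid.GOne.one (A := fun i => 𝒜 i)) = 1 := Subtype.ext (by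
    change algebraMap A (FractionRing A) 1 / _ ^ 0 = 1
    simp)
  have h2 : ∀ {i j} (a : 𝒜 i) (b : 𝒜 j), 
      f (i + j) (GradedMonoid.GMul.mul (A := fun i => 𝒜 i) a b) = f i a * f j b := by
    intro i j a b
    apply Subtype.ext
    change algebraMap A (FractionRing A) (a * b) / _ ^ (i + j) = _ / _ ^ i * (_ / _ ^ j)
    rw [map_mul, pow_add, div_mul_div_comm]
  refine ⟨(IsLocalRing.residue (loc x)).comp ((DirectSum.toSemiring f h1 h2).comp
    (DirectSum.decomposeRingEquiv 𝒜).toRingHom), fun n a ha => ?_⟩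
  rw [md_res_of_mem x (md_div_ell_mem x ha)]
  have : (DirectSum.decomposeRingEquiv 𝒜).toRingHom a = DirectSum.of (fun i => 𝒜 i) n ⟨a, ha⟩ :=
    DirectSum.decompose_of_mem 𝒜 ha
  rw [RingHom.comp_apply, RingHom.comp_apply, this, DirectSum.toSemiring_of]
  rfl

/-- dehomogenisation followed by restriction to `x` -/
def th (x : Pt 𝒜) : A →+* kap x := (exists_th x).choose

theorem md_th (x : Pt 𝒜) {n : ℕ} {a : A} (ha : a ∈ 𝒜 n) : th x a =
    res x (algebraMap A (FractionRing A) a / algebraMap A (FractionRing A) (ell x) ^ n) :=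
  (exists_th x).choose_spec n a ha

theorem th_eq_zero (x : Pt 𝒜) {n : ℕ} {a : A} (ha : a ∈ 𝒜 n) : th x a = 0 ↔ a ∈ pr x := by
  rw [md_th x ha, ← map_pow]
  exact md_res_eq_zero x ha (md_pow_mem (ell_spec x).1 n) (md_pow_not_mem (ell_spec x).2 n)

theorem th_ell (x : Pt 𝒜) : th x (ell x) = 1 := by
  rw [md_th x (ell_spec x).1, pow_one, div_self (md_alg_ne (ell_spec x).2),
    md_res_of_mem x (one_mem _)]
  exact map_one _

theorem res_div (x : Pt 𝒜) {n : ℕ} {a b : A} (ha : a ∈ 𝒜 n) (hb : b ∈ 𝒜 n) (h : b ∉ pr x) :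
    res x (algebraMap A (FractionRing A) a / algebraMap A (FractionRing A) b) = th x a / th x b := by
  have h0 : th x b ≠ 0 := fun e => h ((th_eq_zero x hb).1 e)
  rw [eq_div_iff h0, md_th x ha, md_th x hb, md_res_of_mem x (md_div_ell_mem x ha),
    md_res_of_mem x (md_div_ell_mem x hb), md_res_of_mem x (mem_loc.2 ⟨n, a, ha, b, hb, h, rfl⟩),
    ← map_mul]
  congr 1
  apply Subtype.ext
  have := md_alg_ne h
  simp only [Subring.coe_mul]
  field_simp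

theorem th_gen (x : Pt 𝒜) (z : kap x) :
    ∃ n, ∃ a ∈ 𝒜 n, ∃ b ∈ 𝒜 n, b ∉ pr x ∧ z = th x a / th x b := by
  obtain ⟨⟨w, hw⟩, rfl⟩ := IsLocalRing.residue_surjective z
  obtain ⟨n, a, ha, b, hb, h, rfl⟩ := mem_loc.1 hw
  exact ⟨n, a, ha, b, hb, h, by rw [← res_div x ha hb h, md_res_of_mem]⟩

/-- the model of the closure of a point, over the integers -/
def MZ (x : Pt 𝒜) : AM 𝒜 ℤ (kap x) := ⟨th x, fun z => ⟨z, rfl⟩⟩

omit hG in
theorem md_natCast_kap (x : Pt 𝒜) (p : ℕ) : (p : kap x) = 0 ↔ (p : A) ∈ pr x := by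
  rw [← md_res_eq_zero x (md_natCast_mem p) (SetLike.one_mem_graded 𝒜) (md_one_not_mem x),
    md_res_of_mem x (mem_loc.2 ⟨0, p, md_natCast_mem p, 1, SetLike.one_mem_graded 𝒜,
      md_one_not_mem x, rfl⟩)]
  have : (⟨_, mem_loc.2 ⟨0, p, md_natCast_mem p, 1, SetLike.one_mem_graded 𝒜,
      md_one_not_mem x, rfl⟩⟩ : loc x) = p := Subtype.ext (by simp)
  rw [this, map_natCast]

omit hG in
theorem exists_prime_of_not_charZero (x : Pt 𝒜) (h : ¬CharZero (kap x)) :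
    ∃ p : ℕ, p.Prime ∧ (p : A) ∈ pr x := by
  obtain ⟨q, hq⟩ := CharP.exists (kap x)
  rcases CharP.char_is_prime_or_zero (kap x) q with hp | rfl
  · exact ⟨q, hp, (md_natCast_kap x q).1 (CharP.cast_eq_zero _ q)⟩
  · exact absurd (CharP.charP_to_charZero (kap x)) h

omit hG in
theorem not_charZero_of_mem (x : Pt 𝒜) {p : ℕ} (hp : p ≠ 0) (h : (p : A) ∈ pr x) :
    ¬CharZero (kap x) := fun _ => hp (Nat.cast_eq_zero.1 ((md_natCast_kap x p).2 h))

variable {p : ℕ} [Fact p.Prime]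

omit hG in
instance charP_kap (x : Vp 𝒜 p) : CharP (kap x.1) p := (CharP.charP_iff_prime_eq_zero Fact.out).2 ((md_natCast_kap x.1 p).2 x.2)

instance algebra_kap (x : Vp 𝒜 p) : Algebra (ZMod p) (kap x.1) := ZMod.algebra _ p

/-- the model of the closure of a point over `p` -/
def Mp (x : Vp 𝒜 p) : AM 𝒜 (ZMod p) (kap x.1) := ⟨th x.1, ZMod.ringHom_surjective _⟩

/-- dimension of the closure of a point over `p` -/
abbrev dm (x : Vp 𝒜 p) : ℕ := dimV (Mp x).V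

theorem on_th {x y : Pt 𝒜} : (∀ n, ∀ a ∈ 𝒜 n, th x a = 0 → a ∈ pr y) ↔ pr x ≤ pr y :=
  ⟨fun h => md_le_of_hom x.asHomogeneousIdeal.isHomogeneous fun n a ha hx =>
    h n a ha ((th_eq_zero x ha).2 hx), fun h _ _ ha e => h ((th_eq_zero x ha).1 e)⟩

theorem on_Mp {x : Vp 𝒜 p} {y : Pt 𝒜} : (Mp x).On y ↔ pr x.1 ≤ pr y := on_th

theorem on_MZ {x y : Pt 𝒜} : (MZ x).On y ↔ pr x ≤ pr y := on_th

omit hG in
theorem on_MX (y : Pt 𝒜) : (MX 𝒜).On y := fun _ _ _ e =>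
  ((FaithfulSMul.algebraMap_eq_zero_iff A (FractionRing A)).1 e) ▸ zero_mem _

omit hG in
theorem orng_MX (y : Pt 𝒜) : (MX 𝒜).orng y = loc y := rfl

omit hG in
theorem pr_hom (x : Pt 𝒜) : (pr x).IsHomogeneous 𝒜 := x.asHomogeneousIdeal.isHomogeneous

omit hG in
theorem pr_inj {x y : Pt 𝒜} (h : pr x = pr y) : x = y := ProjectiveSpectrum.ext (HomogeneousIdeal.ext h)

theorem exists_pt {𝔮 : Ideal A} (hp : 𝔮.IsPrime) (hh : 𝔮.IsHomogeneous 𝒜) :
    (∀ a ∈ 𝒜 1, a ∈ 𝔮) ∨ ∃ y : Pt 𝒜, pr y = 𝔮 := by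
  by_cases h : ∀ a ∈ 𝒜 1, a ∈ 𝔮
  · exact Or.inl h
  · refine Or.inr ⟨⟨⟨𝔮, hh⟩, hp, fun hle => h fun a ha => ?_⟩, rfl⟩
    exact hle (HomogeneousIdeal.mem_irrelevant_of_mem 𝒜 one_pos ha)

omit [IsDomain A] hG in
theorem md_exists_colon [IsNoetherianRing A] {𝔞 : Ideal A} (h : 𝔞.IsHomogeneous 𝒜)
    (hne : 𝔞 ≠ ⊤) : ∃ a, ∃ f ∈ 𝒜 a, f ∉ 𝔞 ∧ (𝔞.colon {f}).IsPrime := by
  let S : Set (Ideal A) := {I | ∃ a, ∃ f ∈ 𝒜 a, f ∉ 𝔞 ∧ I = 𝔞.colon {f}}
  have hS : S.Nonempty := ⟨_, 0, 1, SetLike.one_mem_graded 𝒜,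
    fun e => hne ((Ideal.eq_top_iff_one _).2 e), rfl⟩
  obtain ⟨I, ⟨a, f, hf, hf', rfl⟩, hmax⟩ :=
    (set_has_maximal_iff_noetherian.2 (inferInstance : IsNoetherian A A)) S hS
  refine ⟨a, f, hf, hf', (md_colon_hom h hf).isPrime_of_homogeneous_mem_or_mem ?_ ?_⟩
  · intro e
    have : (1 : A) ∈ 𝔞.colon {f} := e ▸ Submodule.mem_top
    rw [Submodule.mem_colon_singleton, one_smul] at this
    exact hf' this
  · rintro x y ⟨i, hx⟩ ⟨j, hy⟩ hxy
    by_cases h1 : y ∈ 𝔞.colon {f}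
    · exact Or.inr h1
    · left
      rw [Submodule.mem_colon_singleton, smul_eq_mul] at h1
      have hle : 𝔞.colon {f} ≤ 𝔞.colon {y * f} := by
        intro z hz
        rw [Submodule.mem_colon_singleton, smul_eq_mul] at hz ⊢
        rw [mul_left_comm]
        exact Ideal.mul_mem_left _ _ hz
      have heq : 𝔞.colon {f} = 𝔞.colon {y * f} := by
        by_contra hn
        exact hmax _ ⟨_, _, SetLike.mul_mem_graded hy hf, h1, rfl⟩ (lt_of_le_of_ne hle hn)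
      rw [heq]
      rw [Submodule.mem_colon_singleton, smul_eq_mul] at hxy ⊢
      rwa [← mul_assoc]

theorem exists_filt {𝔞 : Ideal A} (h : 𝔞.IsHomogeneous 𝒜) : ∃ l, Filt 𝒜 𝔞 l := by
  haveI := noeth_of_gen 𝒜
  induction 𝔞 using IsNoetherian.induction with
  | _ 𝔞 ih =>
    by_cases hne : 𝔞 = ⊤
    · subst hne; exact ⟨[], Filt.top⟩
    · obtain ⟨a, f, hf, hf', hp⟩ := md_exists_colon h hne
      have hlt : 𝔞 < 𝔞 ⊔ Ideal.span {f} := lt_of_le_of_ne le_sup_left fun e =>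
        hf' (e ▸ Ideal.mem_sup_right (Ideal.mem_span_singleton_self f))
      obtain ⟨l, hl⟩ := ih _ hlt (h.sup (md_span_hom hf))
      exact ⟨_, Filt.step 𝔞 f a l hf hp hl⟩

omit hG in
theorem Filt.mem {𝔞 : Ideal A} {l : List (Ideal A × ℕ)} (h : Filt 𝒜 𝔞 l)
    (hh : 𝔞.IsHomogeneous 𝒜) : ∀ x ∈ l, x.1.IsPrime ∧ x.1.IsHomogeneous 𝒜 ∧ 𝔞 ≤ x.1 := by
  induction h with
  | top => simp
  | step 𝔞 f a l hf hp _ ih =>
    intro x hx
    rcases List.mem_cons.1 hx with rfl | hx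
    · refine ⟨hp, md_colon_hom hh hf, fun z hz => ?_⟩
      rw [Submodule.mem_colon_singleton, smul_eq_mul]
      exact Ideal.mul_mem_right _ _ hz
    · obtain ⟨h1, h2, h3⟩ := ih (hh.sup (md_span_hom hf)) x hx
      exact ⟨h1, h2, le_sup_left.trans h3⟩

/-- the points that are minimal over a homogeneous ideal are finitely many, and below every point
over the ideal there is one -/
theorem exists_min {𝔞 : Ideal A} (h : 𝔞.IsHomogeneous 𝒜) : ∃ Z : Finset (Pt 𝒜),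
    (∀ x ∈ Z, 𝔞 ≤ pr x ∧ ∀ y : Pt 𝒜, 𝔞 ≤ pr y → pr y ≤ pr x → y = x) ∧
      ∀ y : Pt 𝒜, 𝔞 ≤ pr y → ∃ x ∈ Z, pr x ≤ pr y := by
  classical
  haveI := noeth_of_gen 𝒜
  have hfin : {x : Pt 𝒜 | pr x ∈ 𝔞.minimalPrimes}.Finite :=
    Set.Finite.preimage (f := fun x : Pt 𝒜 => pr x) (fun _ _ _ _ e => pr_inj e)
      (Ideal.finite_minimalPrimes_of_isNoetherianRing A 𝔞)
  refine ⟨hfin.toFinset, fun x hx => ?_, fun y hy => ?_⟩
  · rw [Set.Finite.mem_toFinset] at hx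
    exact ⟨hx.1.2, fun y h1 h2 => pr_inj (le_antisymm h2 (hx.2 ⟨y.isPrime, h1⟩ h2))⟩
  · haveI := y.isPrime
    obtain ⟨P, hP, hle⟩ := Ideal.exists_minimalPrimes_le (J := pr y) hy
    have hP1 : P.IsPrime := hP.1.1
    have hcore : (P.homogeneousCore 𝒜).toIdeal = P := by
      refine le_antisymm (Ideal.toIdeal_homogeneousCore_le 𝒜 P) (hP.2 ⟨hP1.homogeneousCore, ?_⟩
        (Ideal.toIdeal_homogeneousCore_le 𝒜 P))
      rw [← h.toIdeal_homogeneousCore_eq_self]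
      exact Ideal.homogeneousCore_mono 𝒜 hP.1.2
    have hh : P.IsHomogeneous 𝒜 := hcore ▸ (P.homogeneousCore 𝒜).isHomogeneous
    rcases exists_pt hP1 hh with h1 | ⟨x, rfl⟩
    · exact absurd (hle (h1 _ (ell_spec y).1)) (ell_spec y).2
    · exact ⟨x, (Set.Finite.mem_toFinset _).2 hP, hle⟩

theorem md_avoid_one {J : Ideal A} (hJ : J.IsHomogeneous 𝒜) (y : Pt 𝒜) (h : ¬J ≤ pr y) :
    ∀ᶠ n in atTop, ∃ a ∈ J, a ∈ 𝒜 n ∧ a ∉ pr y := by
  obtain ⟨m, a, ha, h1, h2⟩ := md_exists_not_mem hJ h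
  filter_upwards [eventually_ge_atTop m] with n hn
  obtain ⟨c, rfl⟩ := Nat.exists_eq_add_of_le hn
  exact ⟨a * ell y ^ c, J.mul_mem_right _ h1,
    SetLike.mul_mem_graded ha (md_pow_mem (ell_spec y).1 c),
    md_mul_not_mem h2 (md_pow_not_mem (ell_spec y).2 c)⟩

omit hG in
/-- maximal elements of a finite set of points -/
theorem md_exists_max (Z : Finset (Pt 𝒜)) : ∃ Z' : Finset (Pt 𝒜), Z' ⊆ Z ∧
    (∀ x ∈ Z', ∀ y ∈ Z', pr x ≤ pr y → x = y) ∧ ∀ x ∈ Z, ∃ y ∈ Z', pr x ≤ pr y := by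
  classical
  refine ⟨Z.filter fun x => ∀ y ∈ Z, pr x ≤ pr y → x = y, Finset.filter_subset _ _,
    fun x hx y hy => (Finset.mem_filter.1 hx).2 y (Finset.mem_filter.1 hy).1, fun x hx => ?_⟩
  obtain ⟨y, hy⟩ := (Z.filter fun y => pr x ≤ pr y).exists_maximalFor (fun y => pr y)
    ⟨x, Finset.mem_filter.2 ⟨hx, le_rfl⟩⟩
  have h1 := Finset.mem_filter.1 hy.1
  refine ⟨y, Finset.mem_filter.2 ⟨h1.1, fun z hz hle => ?_⟩, h1.2⟩
  exact pr_inj (le_antisymm hle (hy.2 (Finset.mem_filter.2 ⟨hz, h1.2.trans hle⟩) hle))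

/-- a form vanishing at the other maximal points -/
theorem md_sep (Z : Finset (Pt 𝒜)) (hZ : ∀ x ∈ Z, ∀ y ∈ Z, pr x ≤ pr y → x = y) {J : Ideal A}
    (hJ : J.IsHomogeneous 𝒜) (y : Pt 𝒜) (hy : y ∈ Z) (h : ¬J ≤ pr y) :
    ∀ᶠ n in atTop, ∃ a ∈ J, a ∈ 𝒜 n ∧ a ∉ pr y ∧ ∀ x ∈ Z, x ≠ y → a ∈ pr x := by
  classical
  have hh : (J ⊓ (Z.erase y).inf fun x => pr x).IsHomogeneous 𝒜 := by
    refine hJ.inf ?_
    rw [Finset.inf_eq_iInf]
    exact Ideal.IsHomogeneous.iInf₂ fun x _ => pr_hom x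
  have hn : ¬(J ⊓ (Z.erase y).inf fun x => pr x) ≤ pr y := by
    intro hle
    rcases y.isPrime.inf_le.1 hle with h1 | h1
    · exact h h1
    · obtain ⟨x, hx, h2⟩ := y.isPrime.inf_le'.1 h1
      exact (Finset.mem_erase.1 hx).1 (hZ x (Finset.mem_erase.1 hx).2 y hy h2)
  filter_upwards [md_avoid_one hh y hn] with n ⟨a, h1, h2, h3⟩
  refine ⟨a, h1.1, h2, h3, fun x hx hne => ?_⟩
  exact (Finset.inf_le (f := fun x => pr x) (Finset.mem_erase.2 ⟨hne, hx⟩)) h1.2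

omit hG in
theorem md_sum_not_mem (Z : Finset (Pt 𝒜)) (a : Pt 𝒜 → A) (y : Pt 𝒜) (hy : y ∈ Z)
    (h1 : a y ∉ pr y) (h2 : ∀ x ∈ Z, x ≠ y → a x ∈ pr y) : ∑ x ∈ Z, a x ∉ pr y := by
  classical
  rw [← Finset.add_sum_erase Z a hy]
  intro h
  refine h1 ((Ideal.add_mem_iff_left _ ?_).1 h)
  exact Ideal.sum_mem _ fun x hx => h2 x (Finset.mem_erase.1 hx).2 (Finset.mem_erase.1 hx).1

/-- graded prime avoidance -/
theorem avoid {J : Ideal A} (hJ : J.IsHomogeneous 𝒜) (Z : Finset (Pt 𝒜))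
    (h : ∀ y ∈ Z, ¬J ≤ pr y) : ∀ᶠ n in atTop, ∃ a ∈ J, a ∈ 𝒜 n ∧ ∀ y ∈ Z, a ∉ pr y := by
  obtain ⟨Z', hs, hZ, hc⟩ := md_exists_max Z
  have := (Finset.eventually_all Z').2 fun y hy => md_sep Z' hZ hJ y hy (h y (hs hy))
  filter_upwards [this] with n hn
  choose! a h1 h2 h3 h4 using hn
  refine ⟨∑ x ∈ Z', a x, J.sum_mem h1, sum_mem h2, fun y hy hm => ?_⟩
  obtain ⟨z, hz, hle⟩ := hc y hy
  exact md_sum_not_mem Z' a z hz (h3 z hz) (fun x hx hne => h4 x hx z hz hne.symm) (hle hm)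

/-- a homogeneous ideal contained in no point contains everything of large degree -/
theorem irrelevant_of_no_pt {J : Ideal A} (hJ : J.IsHomogeneous 𝒜) (h : ∀ y : Pt 𝒜, ¬J ≤ pr y) :
    ∀ᶠ n in atTop, ∀ a ∈ 𝒜 n, a ∈ J := by
  haveI := noeth_of_gen 𝒜
  obtain ⟨W, -, hW⟩ := md_exists_W hG.out
  have h1 : Ideal.span (𝒜 1 : Set A) ≤ J.radical := by
    rw [hJ.radical_eq]
    refine le_sInf ?_
    rintro P ⟨hh, hle, hp⟩
    rcases exists_pt hp hh with h1 | ⟨y, rfl⟩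
    · exact Ideal.span_le.2 h1
    · exact absurd hle (h y)
  obtain ⟨N, hN⟩ := Ideal.exists_pow_le_of_le_radical_of_fg h1 (IsNoetherian.noetherian _)
  have h2 : ∀ n a, a ∈ W ^ n → a ∈ Ideal.span (𝒜 1 : Set A) ^ n := by
    intro n
    induction n with
    | zero => intro a _; simp
    | succ n ih =>
      intro a ha
      rw [pow_succ] at ha ⊢
      refine Submodule.mul_induction_on ha (fun x hx y hy => ?_) (fun x y => add_mem)
      exact Ideal.mul_mem_mul (ih x hx) (Ideal.subset_span ((hW 1 y).2 (by rwa [pow_one])))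
  filter_upwards [eventually_ge_atTop N] with n hn a ha
  exact hN (Ideal.pow_le_pow_right hn (h2 n a ((hW n a).1 ha)))

namespace AM
variable {k K E : Type} [CommRing k] [Field K] [Algebra k K] (M : AM 𝒜 k K) [AddCommGroup E]
  [Module K E] [Module k E] [IsScalarTower k K E]

omit hG in
theorem mem_fam {I : Ideal A} {n : ℕ} {z : K} :
    z ∈ M.fam I n ↔ ∃ a ∈ I, a ∈ 𝒜 n ∧ M.θ a = z := by
  refine ⟨fun h => ?_, fun ⟨a, h1, h2, e⟩ => subset_span ⟨a, ⟨h1, h2⟩, e⟩⟩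
  induction h using Submodule.span_induction with
  | mem z hz => obtain ⟨a, ⟨h1, h2⟩, e⟩ := hz; exact ⟨a, h1, h2, e⟩
  | zero => exact ⟨0, zero_mem _, zero_mem _, map_zero _⟩
  | add z w _ _ h1 h2 =>
    obtain ⟨a, ha, ha', rfl⟩ := h1
    obtain ⟨b, hb, hb', rfl⟩ := h2
    exact ⟨a + b, add_mem ha hb, add_mem ha' hb', map_add _ _ _⟩
  | smul c z _ h1 =>
    obtain ⟨a, ha, ha', rfl⟩ := h1
    obtain ⟨m, rfl⟩ := M.surj c
    refine ⟨m • a, I.toAddSubgroup.zsmul_mem ha m, zsmul_mem ha' m, ?_⟩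
    rw [map_zsmul, eq_intCast, Int.cast_smul_eq_zsmul]

omit hG in
include M in
theorem noeth : IsNoetherianRing k := isNoetherianRing_of_surjective ℤ k _ M.surj

theorem fam_top (n : ℕ) : M.fam ⊤ n = M.V ^ n := by
  induction n with
  | zero =>
    ext z
    rw [pow_zero, mem_fam, Submodule.mem_one]
    obtain ⟨W, -, hW⟩ := md_exists_W hG.out
    constructor
    · rintro ⟨a, -, ha, rfl⟩
      rw [hW, pow_zero, Submodule.mem_one] at ha
      obtain ⟨m, rfl⟩ := ha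
      exact ⟨m, by simp⟩
    · rintro ⟨c, rfl⟩
      obtain ⟨m, rfl⟩ := M.surj c
      exact ⟨m, Submodule.mem_top, md_intCast_mem m, by simp⟩
  | succ n ih =>
    rw [pow_succ, ← ih]
    apply le_antisymm
    · intro z hz
      obtain ⟨a, -, ha, rfl⟩ := M.mem_fam.1 hz
      have := mem_closure_mul n 1 ha
      clear ha hz
      induction this using AddSubgroup.closure_induction with
      | mem z hz =>
        obtain ⟨b, hb, c, hc, rfl⟩ := hz
        rw [map_mul]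
        exact Submodule.mul_mem_mul (M.mem_fam.2 ⟨b, Submodule.mem_top, hb, rfl⟩)
          (M.mem_fam.2 ⟨c, Submodule.mem_top, hc, rfl⟩)
      | zero => simp
      | add z w _ _ h1 h2 => rw [map_add]; exact add_mem h1 h2
      | neg z _ h1 => rw [map_neg]; exact neg_mem h1
    · refine Submodule.mul_le.2 fun x hx y hy => ?_
      obtain ⟨b, -, hb, rfl⟩ := M.mem_fam.1 hx
      obtain ⟨c, -, hc, rfl⟩ := M.mem_fam.1 hy
      exact M.mem_fam.2 ⟨b * c, Submodule.mem_top, SetLike.mul_mem_graded hb hc, map_mul _ _ _⟩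

theorem mem_pow {n : ℕ} {z : K} : z ∈ M.V ^ n ↔ ∃ a ∈ 𝒜 n, M.θ a = z := by
  rw [← fam_top, mem_fam]; simp

theorem fam_top_fg (n : ℕ) : (M.fam ⊤ n).FG := by
  obtain ⟨s, hs, hf⟩ := (AddSubgroup.fg_iff _).1 (piece_fg (𝒜 := 𝒜) n)
  refine Submodule.fg_def.2 ⟨M.θ '' s, hf.image _, le_antisymm (span_le.2 ?_) fun z hz => ?_⟩
  · rintro _ ⟨a, ha, rfl⟩
    exact M.mem_fam.2 ⟨a, Submodule.mem_top, hs ▸ AddSubgroup.subset_closure ha, rfl⟩
  · obtain ⟨a, -, ha, rfl⟩ := M.mem_fam.1 hz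
    rw [← hs] at ha
    clear hz
    induction ha using AddSubgroup.closure_induction with
    | mem z hz => exact subset_span ⟨z, hz, rfl⟩
    | zero => simp
    | add z w _ _ h1 h2 => rw [map_add]; exact add_mem h1 h2
    | neg z _ h1 => rw [map_neg]; exact neg_mem h1

theorem V_fg : M.V.FG := M.fam_top_fg 1

omit hG in
theorem On.ne {y : Pt 𝒜} (h : M.On y) {n : ℕ} {b : A} (hb : b ∈ 𝒜 n) (hb' : b ∉ pr y) :
    M.θ b ≠ 0 := fun e => hb' (h n b hb e)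

theorem On.ell_ne {y : Pt 𝒜} (h : M.On y) : M.θ (ell y) ≠ 0 :=
  On.ne M h (ell_spec y).1 (ell_spec y).2

theorem th_mem_pow {n : ℕ} {a : A} (ha : a ∈ 𝒜 n) : M.θ a ∈ M.V ^ n := M.mem_pow.2 ⟨a, ha, rfl⟩

theorem mdl {y : Pt 𝒜} (h : M.On y) : Mdl M.V := ⟨M.V_fg, fun e => On.ell_ne M h (by
  have : M.θ (ell y) ∈ M.V := M.mem_fam.2 ⟨_, Submodule.mem_top, (ell_spec y).1, rfl⟩
  rwa [e, Submodule.mem_bot] at this)⟩

omit hG in
theorem fam_mono {I J : Ideal A} (h : I ≤ J) (n : ℕ) : M.fam I n ≤ M.fam J n := fun _ hz => by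
  obtain ⟨a, h1, h2, e⟩ := M.mem_fam.1 hz
  exact M.mem_fam.2 ⟨a, h h1, h2, e⟩

theorem fam_le (I : Ideal A) (n : ℕ) : M.fam I n ≤ M.V ^ n := M.fam_top n ▸ M.fam_mono le_top n

omit hG in
theorem fam_fam (I : Ideal A) : Fam M.V (M.fam I) := Eventually.of_forall fun n =>
  Submodule.smul_le.2 fun x hx y hy => by
    obtain ⟨b, -, hb, rfl⟩ := M.mem_fam.1 hx
    obtain ⟨c, hc', hc, rfl⟩ := M.mem_fam.1 hy
    refine M.mem_fam.2 ⟨b * c, I.mul_mem_left _ hc', ?_, map_mul _ _ _⟩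
    rw [add_comm]; exact SetLike.mul_mem_graded hb hc

theorem fg_fam (I : Ideal A) : Fg M.V (M.fam I) := by
  haveI := M.noeth
  exact Fg.of_le M.V_fg (fg_pw' M.V_fg) (M.fam_fam I) (Eventually.of_forall (M.fam_le I))

omit hG in
theorem fam_sup {I J : Ideal A} (hI : I.IsHomogeneous 𝒜) (hJ : J.IsHomogeneous 𝒜) (n : ℕ) :
    M.fam (I ⊔ J) n = M.fam I n ⊔ M.fam J n := by
  refine le_antisymm (fun z hz => ?_) (sup_le (M.fam_mono le_sup_left n) (M.fam_mono le_sup_right n))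
  obtain ⟨a, h1, h2, rfl⟩ := M.mem_fam.1 hz
  obtain ⟨b, hb, c, hc, rfl⟩ := Submodule.mem_sup.1 h1
  rw [← md_proj_same h2, map_add, map_add]
  exact Submodule.add_mem_sup (M.mem_fam.2 ⟨_, md_proj_ideal hI n hb, md_proj_mem n b, rfl⟩)
    (M.mem_fam.2 ⟨_, md_proj_ideal hJ n hc, md_proj_mem n c, rfl⟩)

theorem fam_irrelevant {I : Ideal A} (h : ∀ a ∈ 𝒜 1, a ∈ I) : M.fam I =ᶠ[atTop] pw M.V := by
  filter_upwards [eventually_gt_atTop 0] with n hn
  refine le_antisymm (M.fam_le I n) fun z hz => ?_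
  obtain ⟨a, ha, rfl⟩ := M.mem_pow.1 hz
  exact M.mem_fam.2 ⟨a, md_mem_of_one hG.out h hn ha, ha, rfl⟩

omit hG in
theorem mem_fr {T : Submonoid A} (hT : ∀ n, ∀ b ∈ 𝒜 n, b ∈ T → M.θ b ≠ 0) {z : K} :
    z ∈ M.fr T ↔ ∃ n, ∃ a ∈ 𝒜 n, ∃ b ∈ 𝒜 n, b ∈ T ∧ z = M.θ a / M.θ b := by
  refine ⟨fun h => ?_, fun h => Subring.subset_closure h⟩
  induction h using Subring.closure_induction with
  | mem y h => exact h
  | zero => exact ⟨0, 0, zero_mem _, 1, SetLike.one_mem_graded 𝒜, one_mem _, by simp⟩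
  | one => exact ⟨0, 1, SetLike.one_mem_graded 𝒜, 1, SetLike.one_mem_graded 𝒜, one_mem _, by simp⟩
  | add y z _ _ hy hz =>
    obtain ⟨n, a, ha, b, hb, hT1, rfl⟩ := hy
    obtain ⟨m, c, hc, e, he, hT2, rfl⟩ := hz
    refine ⟨n + m, a * e + b * c,
      add_mem (SetLike.mul_mem_graded ha he) (SetLike.mul_mem_graded hb hc), b * e,
      SetLike.mul_mem_graded hb he, mul_mem hT1 hT2, ?_⟩
    rw [div_add_div _ _ (hT n b hb hT1) (hT m e he hT2)]
    simp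
  | neg y _ hy =>
    obtain ⟨n, a, ha, b, hb, hT1, rfl⟩ := hy
    exact ⟨n, -a, neg_mem ha, b, hb, hT1, by simp [neg_div]⟩
  | mul y z _ _ hy hz =>
    obtain ⟨n, a, ha, b, hb, hT1, rfl⟩ := hy
    obtain ⟨m, c, hc, e, he, hT2, rfl⟩ := hz
    exact ⟨n + m, a * c, SetLike.mul_mem_graded ha hc, b * e, SetLike.mul_mem_graded hb he,
      mul_mem hT1 hT2, by simp [div_mul_div_comm]⟩

omit hG in
theorem mem_orng {y : Pt 𝒜} (h : M.On y) {z : K} :
    z ∈ M.orng y ↔ ∃ n, ∃ a ∈ 𝒜 n, ∃ b ∈ 𝒜 n, b ∉ pr y ∧ z = M.θ a / M.θ b := M.mem_fr (T := (pr y).primeCompl) fun _ _ hb h' => On.ne M h hb h'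

omit hG in
theorem orng_local {y : Pt 𝒜} (h : M.On y) : IsLocalRing (M.orng y) := by
  refine .of_isUnit_or_isUnit_one_sub_self fun z => ?_
  have key : ∀ (z : M.orng y) (n : ℕ) (a b : A), a ∈ 𝒜 n → b ∈ 𝒜 n → a ∉ pr y → b ∉ pr y →
      z.1 = M.θ a / M.θ b → IsUnit z := by
    intro z n a b ha hb h1 h2 e
    have ha0 := On.ne M h ha h1
    have hb0 := On.ne M h hb h2
    refine IsUnit.of_mul_eq_one ⟨_, (M.mem_orng h).2 ⟨n, b, hb, a, ha, h1, rfl⟩⟩ (Subtype.ext ?_)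
    simp only [Subring.coe_mul, e, Subring.coe_one]
    field_simp
  obtain ⟨n, a, ha, b, hb, h2, e⟩ := (M.mem_orng h).1 z.2
  have hb0 := On.ne M h hb h2
  by_cases h1 : a ∈ pr y
  · refine Or.inr (key _ n (b - a) b (sub_mem hb ha) hb (fun h => h2 ?_) h2 ?_)
    · simpa using add_mem h h1
    · simp only [AddSubgroupClass.coe_sub, Subring.coe_one, e, map_sub]
      field_simp
  · exact Or.inl (key _ n a b ha hb h1 h2 e)

/-- the local-global principle -/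
theorem local_global {N N' : ℕ → Submodule k E} (hN : Fg M.V N) (hN' : Fam M.V N')
    (h : ∀ᶠ n in atTop, ∀ w ∈ N n, ∀ y, M.On y →
      ∃ m, ∃ b ∈ 𝒜 m, b ∉ pr y ∧ M.θ b • w ∈ N' (n + m)) : N ≤ᶠ[atTop] N' := by
  refine Fg.le_of_mem M.V_fg hN hN' ?_
  filter_upwards [h, (eventually_all_ge_atTop' hN'.pow_smul)] with n hn hp w hw
  let J : Ideal A := Ideal.span {a | ∃ m, a ∈ 𝒜 m ∧ (M.θ a = 0 ∨ M.θ a • w ∈ N' (n + m))}
  have hJ : J.IsHomogeneous 𝒜 := Ideal.homogeneous_span 𝒜 _ fun a ⟨m, h, _⟩ => ⟨m, h⟩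
  have hno : ∀ y : Pt 𝒜, ¬J ≤ pr y := by
    intro y hle
    refine (fun hy => ?_ : M.On y → False) fun m a ha e => hle (Ideal.subset_span ⟨m, ha, Or.inl e⟩)
    obtain ⟨m, b, hb, h1, h2⟩ := hn w hw y hy
    exact h1 (hle (Ideal.subset_span ⟨m, hb, Or.inr h2⟩))
  have key : ∀ a ∈ J, ∀ (c : A) (m : ℕ), M.θ (GradedRing.proj 𝒜 m (c * a)) • w ∈ N' (n + m) := by
    intro a ha
    induction ha using Submodule.span_induction with
    | mem z hz =>
      obtain ⟨i, hi, hz⟩ := hz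
      intro c m
      by_cases him : i ≤ m
      · obtain ⟨j, rfl⟩ := Nat.exists_eq_add_of_le' him
        rw [md_proj_mul hi, map_mul, mul_smul]
        rcases hz with e | e
        · rw [e]; simp
        · have := hp (n + i) (Nat.le_add_right _ _) j
            (Submodule.smul_mem_smul (M.th_mem_pow (md_proj_mem j c)) e)
          rwa [add_assoc, add_comm i j] at this
      · rw [md_proj_mul_lt hi him]; simp
    | zero => intro c m; simp
    | add z u _ _ h1 h2 =>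
      intro c m
      rw [mul_add, map_add, map_add, add_smul]
      exact add_mem (h1 c m) (h2 c m)
    | smul d z _ h1 =>
      intro c m
      rw [smul_eq_mul, ← mul_assoc]
      exact h1 _ m
  obtain ⟨m, hm⟩ := (irrelevant_of_no_pt hJ hno).exists
  refine ⟨m, fun v hv => ?_⟩
  obtain ⟨a, ha, rfl⟩ := M.mem_pow.1 hv
  have := key a (hm a ha) 1 m
  rwa [one_mul, md_proj_same ha] at this

end AM

end

end Pool.Agent.Lib.MP_62d77c_ag
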