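import Pool.Agent.Lib.MP_62d77c_ag.NSA1

/-! Curvature bounds; connection forms of Cartier classes on a chart. -/

set_option autoImplicit false

namespace Pool.Agent.Lib.MP_62d77c_ag

open Submodule

noncomputable section

namespace NSA

variable {k K : Type} [CommRing k] [Field K] [Algebra k K]
  {R R' : Subalgebra k K} {X : Submodule k K} {θ θ' ω : F1 K}

section curv
variable {r : ℕ} (p : ℕ) (δ : Fin r → Derivation ℤ K K)

/-- `p`-curvature and curvature -/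
def cv (θ : F1 K) (l : Fin r × Fin r) : K × K :=
  ((nab (δ l.1) (θ fun _ => δ l.1))^[p] 1,
    δ l.1 (θ fun _ => δ l.2) - δ l.2 (θ fun _ => δ l.1))

variable {p δ} (hp : p.Prime) [CharP K p]
include hp

theorem cv_add (θ θ' : F1 K) : cv p δ (θ + θ') = cv p δ θ + cv p δ θ' := by
  ext l
  · simpa [cv] using nab_p hp (δ l.1) (θ fun _ => δ l.1) (θ' fun _ => δ l.1) 1 1
  · simp only [cv, Pi.add_apply, map_add, Prod.snd_add]; ring

theorem nab_psi {d : Derivation ℤ K K} (hd : ∀ a, d^[p] a = 0) (a y : K) :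
    (nab d a)^[p] y = (nab d a)^[p] 1 * y := by
  have e : (nab d 0 : K → K) = d := by ext x; simp [nab_apply]
  simpa [e, hd] using nab_p hp d a 0 1 y

omit hp [CharP K p] in
theorem nab_comm {d d' : Derivation ℤ K K} (h : ∀ a, d (d' a) = d' (d a)) (a a' x : K) :
    nab d' a' (nab d a x) - nab d a (nab d' a' x) = (d a' - d' a) * x := by
  simp only [nab_apply, map_sub, Derivation.leibniz, smul_eq_mul, h]; ring

theorem cv_mem (hc : ∀ i j a, δ i (δ j a) = δ j (δ i a)) (hd : ∀ i a, (δ i)^[p] a = 0)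
    (h : Conn R θ X) (hX : Inv R X) {t : K} (tR : t ∈ R) (t0 : ∀ l, δ l t = 0)
    (ht : ∀ l, ∀ x ∈ R, t * δ l x ∈ R) (l : Fin r × Fin r) :
    t ^ p * (cv p δ θ l).1 ∈ R ∧ t ^ p * (cv p δ θ l).2 ∈ R := by
  have m : ∀ x ∈ X, x ∈ X * R.toSubmodule := fun x hx => by
    simpa using mul_mem_mul (N := R.toSubmodule) hx (one_mem R)
  refine ⟨hX.mem fun x hx => ?_, ?_⟩
  · have := h.iter_mem (t0 l.1) (ht l.1) (m x hx) p
    rwa [nab_psi hp (hd l.1), ← mul_assoc] at this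
  · obtain ⟨q, rfl⟩ := Nat.exists_eq_add_of_le hp.two_le
    rw [pow_add, mul_comm (t ^ 2), mul_assoc]
    refine mul_mem (pow_mem tR q) (hX.mem fun x hx => ?_)
    have := sub_mem (h.nab_mem (ht l.2) (h.nab_mem (ht l.1) (m x hx)))
      (h.nab_mem (ht l.1) (h.nab_mem (ht l.2) (m x hx)))
    rw [nab_const (t0 _), nab_const (t0 _), ← mul_sub, ← mul_sub, nab_comm (hc _ _)] at this
    rwa [sq, mul_assoc, mul_assoc]

theorem cv_zero {y : Fin r → K} (hc : ∀ i j a, δ i (δ j a) = δ j (δ i a))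
    (hd : ∀ i a, (δ i)^[p] a = 0) (hy : ∀ (D : Derivation ℤ K K) (a : K), D a = ∑ i, D (y i) * δ i a)
    (hθ : θ ∈ span K (Set.range dd)) (h : cv p δ θ = 0) : ∃ g : K, g ≠ 0 ∧ θ = g⁻¹ • dd g := by
  obtain ⟨g, g0, hg⟩ := common_ker (fun l => nab (δ l) (θ fun _ => δ l)) p
    (fun i j x => by
      have : δ j (θ fun _ => δ i) - δ i (θ fun _ => δ j) = 0 := congrArg (fun c => (c (j, i)).2) h
      rw [← sub_eq_zero, nab_comm (hc j i), this, zero_mul])
    fun i x => by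
      have : (nab (δ i) (θ fun _ => δ i))^[p] 1 = 0 := congrArg (fun c => (c (i, i)).1) h
      rw [nab_psi hp (hd i), this, zero_mul]
  have lin : ∀ D, θ D = ∑ i, D 0 (y i) * θ fun _ => δ i := by
    clear h hg
    induction hθ using span_induction with
    | mem φ hφ => obtain ⟨a, rfl⟩ := hφ; exact fun D => hy (D 0) a
    | zero => simp
    | add a b _ _ ha hb => intro D; simp [ha D, hb D, mul_add, Finset.sum_add_distrib]
    | smul c a _ ha => intro D; simp [ha D, Finset.mul_sum, mul_left_comm]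
  refine ⟨g, g0, funext fun D => ?_⟩
  rw [lin, Pi.smul_apply, dd, hy (D 0) g, smul_eq_mul, Finset.mul_sum]
  refine Finset.sum_congr rfl fun i _ => ?_
  rw [sub_eq_zero.1 (hg i)]
  field_simp

end curv

theorem Om_lin (h : ω ∈ Om R) : ω ∈ span K (Set.range dd) :=
  Om_le (P := (span K (Set.range (dd (K := K)))).toAddSubmonoid)
    (fun _ _ b _ => smul_mem _ _ (subset_span ⟨b, rfl⟩)) h

variable {V U U' : Submodule k K} {s s' : K} {a a' : ℕ} {D D' : Car V}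

/-- `s` generates `V` over `R` -/
structure Ch (V : Submodule k K) (s : K) (R : Subalgebra k K) : Prop where
  mem : s ∈ V
  ne : s ≠ 0
  div : ∀ v ∈ V, v / s ∈ R

theorem Ch.mono (h : Ch V s R) (hR : R ≤ R') : Ch V s R' := ⟨h.mem, h.ne, fun v hv => hR (h.div v hv)⟩

theorem Ch.pow (h : Ch V s R) {n : ℕ} {w : K} (hw : w ∈ V ^ n) : w / s ^ n ∈ R := by
  induction hw using Submodule.pow_induction_on_left' with
  | algebraMap c => simp
  | add x y i _ _ hx hy => rw [add_div]; exact add_mem hx hy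
  | mem_mul v hv i x _ hx => rw [pow_succ', mul_div_mul_comm]; exact mul_mem (h.div v hv) hx

/-- the module `U / s ^ a` -/
def Nm (s : K) (U : Submodule k K) (a : ℕ) : Submodule k K := spanSingleton k (s ^ a)⁻¹ * U

theorem Nm_mul : Nm s (U * U') (a + a') = Nm s U a * Nm s U' a' := by
  simp only [Nm, pow_add, mul_inv, map_mul]; ring

theorem mem_Nm {x : K} : x ∈ Nm s U a ↔ ∃ u ∈ U, u / s ^ a = x := by
  simp only [Nm, spanSingleton_apply, mem_span_singleton_mul, div_eq_inv_mul]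

theorem Ch.Nm_le (h : Ch V s R) (n : ℕ) : Nm s (V ^ n) n ≤ R.toSubmodule := fun x hx => by
  obtain ⟨u, hu, rfl⟩ := mem_Nm.1 hx
  exact h.pow hu

theorem Ch.one_mem (h : Ch V s R) (n : ℕ) : (1 : K) ∈ Nm s (V ^ n) n :=
  mem_Nm.2 ⟨_, pow_mem_pow V h.mem n, div_self (pow_ne_zero n h.ne)⟩

theorem Ch.Nm_mul_R (h : Ch V s R) (n : ℕ) : Nm s (V ^ n) n * R.toSubmodule = R.toSubmodule :=
  le_antisymm (mul_le.2 fun _ hx _ hy => R.mul_mem (h.Nm_le n hx) hy) fun x hx => by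
    simpa using mul_mem_mul (h.one_mem n) hx

theorem Ch.inv (h : Ch V s R) (hD : Rep D U a) : Inv R (Nm s U a) := by
  obtain ⟨W, m, e⟩ := hD.exists_inv
  have : Nm s U a * (spanSingleton k (s ^ a) * Nm s W m) = Nm s (V ^ m) m := by
    have : spanSingleton k (s ^ a)⁻¹ * spanSingleton k (s ^ a) = 1 := by
      rw [← map_mul, inv_mul_cancel₀ (pow_ne_zero a h.ne), map_one]
    rw [← one_mul (Nm s (V ^ m) m), ← this, ← e]
    simp only [Nm]; ring
  exact ⟨_, this ▸ h.Nm_le m, this ▸ h.one_mem m⟩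

theorem Ch.Nm_eq (h : Ch V s R) (h' : Ch V s' R) (hD : Rep D U a) (hD' : Rep D U' a') :
    Nm s U a * R.toSubmodule = Nm s' U' a' * R.toSubmodule := by
  obtain ⟨c, e⟩ := hD.eq hD'
  have e' := congrArg (fun W => spanSingleton k (s ^ c)⁻¹ * spanSingleton k (s ^ a)⁻¹ *
    spanSingleton k (s' ^ a')⁻¹ * W * R.toSubmodule) e
  calc Nm s U a * R.toSubmodule
      = Nm s U a * (Nm s' (V ^ a') a' * (Nm s (V ^ c) c * R.toSubmodule)) := by
        rw [h.Nm_mul_R, h'.Nm_mul_R]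
    _ = Nm s' U' a' * (Nm s (V ^ a) a * (Nm s (V ^ c) c * R.toSubmodule)) := by
        refine Eq.trans ?_ (e'.trans ?_) <;> simp only [Nm] <;> ring
    _ = _ := by rw [h.Nm_mul_R, h.Nm_mul_R]

/-- `θ` is a connection form of `D` over `R` -/
def Cn (R : Subalgebra k K) (θ : F1 K) (D : Car V) : Prop :=
  ∃ s U a, Ch V s R ∧ Rep D U a ∧ Conn R θ (Nm s U a)

theorem Cn.all (h : Cn R θ D) (hs : Ch V s R) (hD : Rep D U a) : Conn R θ (Nm s U a) := by
  obtain ⟨s', U', a', h1, h2, h3⟩ := h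
  exact h3.sat (h1.Nm_eq hs h2 hD)

theorem Cn.mono (h : Cn R θ D) (hR : R ≤ R') : Cn R' θ D := by
  obtain ⟨s, U, a, h1, h2, h3⟩ := h
  exact ⟨s, U, a, h1.mono hR, h2, h3.mono hR⟩

theorem Cn.sub_Om (h : Cn R θ D) (hω : ω ∈ Om R) : Cn R (θ - ω) D := by
  obtain ⟨s, U, a, h1, h2, h3⟩ := h
  exact ⟨s, U, a, h1, h2, h3.sub_Om hω⟩

theorem Cn.diff (h : Cn R θ D) (h' : Cn R θ' D) : θ - θ' ∈ Om R := by
  obtain ⟨s, U, a, h1, h2, h3⟩ := h
  exact h3.diff (h'.all h1 h2) (h1.inv h2)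

theorem Cn.div (h : Cn R θ D) (h' : Cn R θ' D') : Cn R (θ - θ') (D / D') := by
  obtain ⟨s, U, a, h1, h2, h3⟩ := h'
  have h4 := (rep_rp (D / D')).mul h2
  rw [div_mul_cancel] at h4
  refine ⟨s, _, _, h1, rep_rp _, Conn.cancel ?_ h3 (h1.inv h2)⟩
  rw [sub_add_cancel, ← Nm_mul]
  exact h.all h1 h4

theorem Ch.exists_cn (h : Ch V s R) (D : Car V) : ∃ θ ∈ span K (Set.range dd), Cn R θ D := by
  obtain ⟨θ, m, c⟩ := exists_conn (h.inv (rep_rp D))
  exact ⟨θ, m, s, _, _, h, rep_rp D, c⟩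

theorem Ch.cn_prin (h : Ch V s R) (f : Kˣ) : Cn R ((f : K)⁻¹ • dd (f : K)) (prin V f) := by
  refine ⟨s, _, _, h, rep_prin f, conn_gen
    (mem_Nm.2 ⟨f, mem_span_singleton_self _, by simp⟩) f.ne_zero fun x hx => ?_⟩
  obtain ⟨u, hu, rfl⟩ := mem_Nm.1 hx
  obtain ⟨c, rfl⟩ := mem_span_singleton.1 hu
  simp [Algebra.smul_def]

theorem Cn.dlog (h : Cn R 0 D) (hs : Ch V s R) (hD : Rep D U a) {u : K} (hu : u ∈ U) (u0 : u ≠ 0)
    (hw : ∀ w ∈ U, w / u ∈ R) : (u / s ^ a)⁻¹ • dd (u / s ^ a) ∈ Om R := by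
  have := (conn_gen (mem_Nm.2 ⟨u, hu, rfl⟩) (div_ne_zero u0 (pow_ne_zero a hs.ne))
    fun x hx => ?_).diff (h.all hs hD) (hs.inv hD)
  · rwa [sub_zero] at this
  · obtain ⟨w, hw', rfl⟩ := mem_Nm.1 hx
    rw [div_div_div_cancel_right₀ (pow_ne_zero a hs.ne)]
    exact hw w hw'

/-- a common denominator -/
theorem exists_den (hs : s ∈ V) (s0 : s ≠ 0)
    (hgen : ∀ z : K, ∃ n, ∃ a ∈ V ^ n, ∃ b ∈ V ^ n, z = a / b) (Z : Finset K) :
    ∃ e, ∃ φ ∈ V ^ e, φ ≠ 0 ∧ ∀ z ∈ Z, φ * z ∈ V ^ e := by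
  classical
  induction Z using Finset.induction_on with
  | empty => exact ⟨1, s, by simpa using hs, s0, by simp⟩
  | insert z Z _ ih =>
    obtain ⟨e, φ, h1, h2, h3⟩ := ih
    obtain ⟨n, a, ha, b, hb, rfl⟩ := hgen z
    rcases eq_or_ne b 0 with rfl | b0
    · exact ⟨e, φ, h1, h2, by simpa using h3⟩
    · refine ⟨e + n, φ * b, pow_add V e n ▸ mul_mem_mul h1 hb, mul_ne_zero h2 b0, fun z hz => ?_⟩
      rw [pow_add]
      rcases Finset.mem_insert.1 hz with rfl | hz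
      · rw [mul_assoc, mul_div_cancel₀ _ b0]; exact mul_mem_mul h1 ha
      · rw [mul_right_comm]; exact mul_mem_mul (h3 z hz) hb

theorem Ch.der (h : Ch V s R) {d : Derivation ℤ K K} (hO : ∀ c : k, d (algebraMap k K c) = 0)
    {t : K} (ht : ∀ v ∈ V, t * d (v / s) ∈ R) {n : ℕ} {w : K} (hw : w ∈ V ^ n) :
    t * d (w / s ^ n) ∈ R := by
  induction hw using Submodule.pow_induction_on_left' with
  | algebraMap c => simp [hO]
  | add x y i _ _ hx hy => rw [add_div, map_add, mul_add]; exact add_mem hx hy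
  | mem_mul v hv i x hx' hx =>
    rw [pow_succ', mul_div_mul_comm, Derivation.leibniz, smul_eq_mul, smul_eq_mul, mul_add,
      mul_left_comm, mul_left_comm t]
    exact add_mem (mul_mem (h.div v hv) hx) (mul_mem (h.pow hx') (ht v hv))

end NSA

end

end Pool.Agent.Lib.MP_62d77c_ag
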