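import Pool.Agent.Lib.MP_62d77c_ag.Forms
import Pool.Agent.Lib.MP_62d77c_ag.DerB
import Pool.Agent.Lib.MP_62d77c_ag.Sec
import Pool.Agent.Lib.MP_62d77c_ag.NSA2

/-! Finitely many classes of logarithmic connections. -/

set_option autoImplicit false

namespace Pool.Agent.Lib.MP_62d77c_ag

open Filter Polynomial Submodule

noncomputable section

namespace NSA

variable {k K E ι : Type} [CommRing k] [Field K] [Algebra k K] [AddCommGroup E] [Module k E]
  [Fintype ι] [LinearOrder ι]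

/-- the cochain supported on the charts -/
def co (θ : ι → E) : Finset ι → E := fun σ => if σ.card = 1 then ∑ i ∈ σ, θ i else 0

omit [Fintype ι] [LinearOrder ι] in
theorem co_single (θ : ι → E) (i : ι) : co θ {i} = θ i := by simp [co]

theorem dC_co (θ : ι → E) {P : Finset ι → E → Prop} (h0 : ∀ σ, σ.card ≠ 2 → P σ 0)
    (h : ∀ i j, i < j → P {i, j} (θ j - θ i)) (σ : Finset ι) : P σ (dC k E (co θ) σ) := by
  by_cases c : σ.card = 2
  · obtain ⟨i, j, ne, rfl⟩ := Finset.card_eq_two.1 c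
    rcases ne.lt_or_gt with l | l
    · rw [dC_two _ l, co_single, co_single]; exact h i j l
    · rw [Finset.pair_comm, dC_two _ l, co_single, co_single]; exact h j i l
  · rw [dC_apply, Finset.sum_eq_zero fun a ha => ?_]
    · exact h0 σ c
    · have := Finset.card_erase_add_one ha
      rw [co, if_neg (by omega), smul_zero]

variable {V : Submodule k K} {y : ι → K} (hy : ∀ a, y a ∈ V ^ 1 ∧ y a ≠ 0)
  (hsp : span k (Set.range y) = V)

/-- the ring of a chart -/
def RS (σ : Finset ι) (hσ : σ.Nonempty) : Subalgebra k K :=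
  (chR V y 1 σ).toSubalgebra (subset_span ⟨0, by simpa using ⟨1, map_one _⟩⟩)
    fun _ _ => chR_mul (fun a => (hy a).1) hσ

include hsp

omit [Fintype ι] [LinearOrder ι] in
theorem fam1 (n : ℕ) : span k (Set.range y) • V ^ (1 * n) ≤ V ^ (1 * (n + 1)) := by
  simp only [hsp, one_mul, pow_succ']; exact le_rfl

theorem mem_RS {i : ι} {x : K} :
    x ∈ RS hy {i} (Finset.singleton_nonempty i) ↔ ∃ m, y i ^ m * x ∈ V ^ m :=
  ⟨fun h => by simpa using ((mem_chart (N := fun n => V ^ (1 * n)) (fam1 hsp) (Finset.singleton_nonempty i)).1 h).exists,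
    fun ⟨m, h⟩ => subset_span ⟨m, by simpa using h⟩⟩

theorem RS_ind {i : ι} {P : K → Prop} (h : ∀ m, ∀ w ∈ V ^ m, P (w / y i ^ m)) :
    ∀ x ∈ RS hy {i} (Finset.singleton_nonempty i), P x := fun x hx => by
  obtain ⟨m, hm⟩ := (mem_RS hy hsp).1 hx
  simpa [mul_div_cancel_left₀ x (pow_ne_zero m (hy i).2)] using h m _ hm

theorem ch_RS (i : ι) : Ch V (y i) (RS hy {i} (Finset.singleton_nonempty i)) :=
  ⟨by simpa using (hy i).1, (hy i).2, fun v hv => (mem_RS hy hsp).2
    ⟨1, by rwa [pow_one, pow_one, mul_div_cancel₀ _ (hy i).2]⟩⟩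

theorem RS_mono {i : ι} {σ : Finset ι} (h : i ∈ σ) :
    RS hy {i} (Finset.singleton_nonempty i) ≤ RS hy σ ⟨i, h⟩ :=
  chart_mono (N := fun n => V ^ (1 * n)) (fam1 hsp) (Finset.singleton_nonempty i) (Finset.singleton_subset_iff.2 h)

variable [IsNoetherianRing k] [Finite k] (hV : V.FG)
include hV

theorem fin_sec (n : ℕ) (i0 : ι) :
    {z | ∀ i, z / y i ^ n ∈ RS hy {i} (Finset.singleton_nonempty i)}.Finite := by
  obtain ⟨S, hS⟩ := (serre (N := fun m => V ^ (m + n)) (fun a => (hy a).2.isUnit)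
    (hsp ▸ (fg_pw' hV).add n) (fun m => by
      rw [hsp, add_right_comm, pow_succ']; exact le_rfl) 0).finite
  refine (S.finite_toSet.image fun c => c {i0}).subset fun z hz => ?_
  obtain ⟨x, hx, c, hc, e⟩ := hS (co fun _ => z) ⟨mem_Coch.2 fun σ => ⟨fun h => by
      obtain ⟨i, rfl⟩ := Finset.card_eq_one.1 h.1
      obtain ⟨m, hm⟩ := (mem_RS hy hsp).1 (hz i)
      have := Submodule.mul_mem_mul hm (pow_mem_pow V (ch_RS hy hsp i).mem n)
      rw [← pow_add, mul_assoc, div_mul_cancel₀ _ (pow_ne_zero n (hy i).2)] at this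
      exact subset_span ⟨m, by simpa [co_single] using this⟩, fun h => if_neg (by simpa using h)⟩,
    funext (dC_co (P := fun _ w => w = 0) _ (fun _ _ => rfl) fun _ _ _ => sub_self z)⟩
  have c0 : c = 0 := funext fun σ => (mem_Coch.1 hc σ).2 (by simp)
  rw [c0, map_zero, eq_comm, sub_eq_zero] at e
  exact ⟨x, hx, e ▸ co_single _ _⟩

theorem exists_cls (hO : ∀ (D : Derivation ℤ K K) (c : k), D (algebraMap k K c) = 0) (i0 : ι) :
    ∃ (γ : Type) (_ : Finite γ) (x : Car V → γ) (Θ : Car V → F1 K),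
      (∀ D, Θ D ∈ span K (Set.range dd)) ∧ ∀ D D', x D = x D' →
        ∀ i, Cn (RS hy {i} (Finset.singleton_nonempty i)) (Θ D - Θ D') (D / D') := by
  choose θ m c using fun (D : Car V) i => (ch_RS hy hsp i).exists_cn D
  obtain ⟨S, hS⟩ := (forms_finMod hV one_pos hy
    (Eventually.of_forall fun n => by rw [hsp, pow_succ']) hO 1 1).finite
  have key : ∀ D : Car V, ∃ x : S, ∃ Θ : ι → F1 K, (∀ i, Θ i ∈ span K (Set.range dd) ∧
      Cn (RS hy {i} (Finset.singleton_nonempty i)) (Θ i) D) ∧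
      ∀ i j, i < j → Θ j - Θ i = x.1 {i, j} := fun D => by
    obtain ⟨x, hx, ζ, hζ, e⟩ := hS (dC k _ (co (θ D))) ⟨mem_Coch.2 (dC_co
      (P := fun σ w => (σ.card = 1 + 1 ∧ 1 + 1 ≠ 0 → w ∈ forms k (chR V y 1 σ : Set K) 1) ∧
        (¬(σ.card = 1 + 1 ∧ 1 + 1 ≠ 0) → w = 0)) _ (fun _ _ => ⟨fun _ => zero_mem _, fun _ => rfl⟩)
      fun i j l => ⟨fun _ => ((c D j).mono (RS_mono hy hsp (σ := {i, j}) (by simp))).diff
        ((c D i).mono (RS_mono hy hsp (by simp))),
        fun h => absurd ⟨Finset.card_pair l.ne, by decide⟩ h⟩), dC_dC _⟩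
    have z : ∀ i, ζ {i} ∈ Om (RS hy {i} (Finset.singleton_nonempty i)) := fun i =>
      (mem_Coch.1 hζ {i}).1 (by simp)
    refine ⟨⟨x, hx⟩, fun i => θ D i - ζ {i},
      fun i => ⟨sub_mem (m D i) (Om_lin (z i)), (c D i).sub_Om (z i)⟩, fun i j l => ?_⟩
    have := congrFun e {i, j}
    rw [Pi.sub_apply, dC_two _ l, dC_two _ l, co_single, co_single] at this
    linear_combination -this
  choose x Θ h1 h2 using key
  refine ⟨S, inferInstance, x, fun D => Θ D i0, fun D => (h1 D i0).1, fun D D' e i => ?_⟩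
  have : Θ D i0 - Θ D' i0 = Θ D i - Θ D' i := by
    rcases lt_trichotomy i i0 with l | rfl | l
    · linear_combination h2 D i i0 l - h2 D' i i0 l + congrArg (fun x : S => x.1 {i, i0}) e
    · rfl
    · linear_combination h2 D' i0 i l - h2 D i0 i l - congrArg (fun x : S => x.1 {i0, i}) e
  exact this ▸ (h1 D i).2.div (h1 D' i).2

end NSA

open NSA in
/-- colour = class of the Atiyah cocycle, curvature and `p`-curvature -/
theorem exists_colour (p : ℕ) [Fact p.Prime] {K : Type} [Field K] [Algebra (ZMod p) K]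
    {V : Submodule (ZMod p) K} (hV : Mdl V)
    (hgen : ∀ z : K, ∃ n, ∃ a ∈ V ^ n, ∃ b ∈ V ^ n, z = a / b) :
    ∃ (γ : Type) (_ : Finite γ) (col : Car V → γ), ∀ D D', col D = col D' →
      ∃ f : Kˣ, LogReg (D / D' * prin V f) := by
  classical
  have hp : p.Prime := Fact.out
  have : CharP K p := charP_of_injective_algebraMap (algebraMap (ZMod p) K).injective p
  have hO : ∀ (D : Derivation ℤ K K) (c : ZMod p), D (algebraMap _ K c) = 0 := fun D c => by
    rw [← ZMod.natCast_zmod_val c, map_natCast, D.map_natCast]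
  have : Module.Finite (ZMod p) V := Module.Finite.iff_fg.2 hV.1
  have : Finite V := Module.finite_of_finite (ZMod p)
  obtain ⟨n, y, -, hr⟩ := ((Set.toFinite (V : Set K)).subset
    (Set.sdiff_subset (t := {0}))).fin_param
  have hy : ∀ a, y a ∈ V ^ 1 ∧ y a ≠ 0 := fun a => by simpa using hr.subset ⟨a, rfl⟩
  have hsp : span (ZMod p) (Set.range y) = V := by rw [hr, span_sdiff_singleton_zero, span_eq]
  obtain ⟨s, hs, s0⟩ := (Submodule.ne_bot_iff V).1 hV.2
  obtain ⟨i0, -⟩ := hr.superset ⟨hs, s0⟩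
  have : Algebra.EssFiniteType (ZMod p) K := by
    refine (Algebra.essFiniteType_iff _ _).2 ⟨Finset.univ.image y, fun z => ?_⟩
    obtain ⟨e, φ, h1, h2, h3⟩ := exists_den hs s0 hgen {z}
    have c : ∀ w ∈ V ^ e, w ∈ Algebra.adjoin (ZMod p) (Finset.univ.image y : Finset K) :=
      fun w hw => Submodule.pow_induction_on_left V (Subalgebra.algebraMap_mem _)
        (fun _ _ => add_mem) (fun v hv _ => mul_mem (by
          simpa using Algebra.span_le_adjoin _ _ (hsp ▸ hv : v ∈ span _ (Set.range y)))) hw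
    exact ⟨φ, c _ h1, h2.isUnit, mul_comm φ z ▸ c _ (h3 z (by simp))⟩
  obtain ⟨r, yy, δ, -, -, hlin, hc, hd⟩ := der_dual p K
  obtain ⟨e, φ, h1, h2, h3⟩ := exists_den hs s0 hgen
    (Finset.univ.image fun x : Fin r × Fin n × Fin n => δ x.1 (y x.2.1 / y x.2.2))
  have ch := ch_RS hy hsp
  have ht : ∀ i l, ∀ x ∈ RS hy {i} (Finset.singleton_nonempty i),
      (φ / y i ^ e) ^ p * δ l x ∈ RS hy {i} (Finset.singleton_nonempty i) := fun i l =>
    RS_ind hy hsp fun m w hw => (ch i).der (hO _) (fun v hv => by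
      rcases eq_or_ne v 0 with rfl | v0
      · simp
      obtain ⟨j, rfl⟩ := hr.superset ⟨hv, v0⟩
      rw [← pow_sub_one_mul hp.ne_zero, mul_assoc, div_mul_eq_mul_div]
      exact mul_mem (pow_mem ((ch i).pow h1) _)
        ((ch i).pow (h3 _ (Finset.mem_image.2 ⟨(l, j, i), Finset.mem_univ _, rfl⟩)))) hw
  have fin : {z | ∀ i, ((φ / y i ^ e) ^ p) ^ p * z ∈
      RS hy {i} (Finset.singleton_nonempty i)}.Finite := by
    refine ((fin_sec hy hsp hV.1 (e * p * p) i0).preimage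
      (mul_right_injective₀ (pow_ne_zero p (pow_ne_zero p h2))).injOn).subset fun z hz i => ?_
    simpa only [div_pow, ← pow_mul, div_mul_eq_mul_div] using hz i
  obtain ⟨γ, _, x, Θ, lin, cn⟩ := exists_cls hy hsp hV.1 hO i0
  have fin2 := (Set.Finite.pi' fun _ : Fin r × Fin r => fin.prod fin).to_subtype
  refine ⟨γ × _, @Finite.instProd _ _ _ fin2,
    fun D => (x D, ⟨cv p δ (Θ D - Θ (Function.invFun x (x D))), fun l => ?_⟩), fun D D' h => ?_⟩
  · have := fun i => cv_mem hp hc hd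
      ((cn D _ (Function.invFun_eq ⟨D, rfl⟩).symm i).all (ch i) (rep_rp _)) ((ch i).inv (rep_rp _))
      (pow_mem ((ch i).pow h1) p) (fun l => by simp) (ht i) l
    exact ⟨fun i => (this i).1, fun i => (this i).2⟩
  obtain ⟨e1, e2⟩ := Prod.mk.inj h
  have e3 := congrArg Subtype.val e2
  dsimp only at e3
  rw [e1, ← sub_add_sub_cancel _ (Θ D'), cv_add hp, add_eq_right] at e3
  obtain ⟨g, g0, hg⟩ := cv_zero hp hc hd hlin (sub_mem (lin D) (lin D')) e3
  refine ⟨(Units.mk0 g g0)⁻¹, fun O _ hk s hs s0 hv U a hU u hu u0 hw => ?_⟩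
  obtain ⟨i, rfl⟩ := hr.superset ⟨hs, s0⟩
  let R : Subalgebra (ZMod p) K := { O with algebraMap_mem' := hk }
  have cR : Ch V (y i) R := ⟨hs, s0, hv⟩
  have c0 := ((cn D D' e1 i).div ((ch i).cn_prin (Units.mk0 g g0))).mono
    (RS_ind hy hsp (P := (· ∈ R)) fun _ _ => cR.pow)
  rw [hg, Units.val_mk0, sub_self, div_eq_mul_inv _ (prin V _), ← map_inv] at c0
  have := Om_le (P := (span O {φ : Derivation ℤ K K → K | ∃ b ∈ O, φ = fun δ => δ b}
    ).toAddSubmonoid.comap (AddMonoidHom.pi fun d => Pi.evalAddMonoidHom (fun _ => K) fun _ => d))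
    (fun a ha b hb => (span O {φ : Derivation ℤ K K → K | ∃ b ∈ O, φ = fun δ => δ b}).smul_mem
      (⟨a, ha⟩ : O) (subset_span ⟨b, hb, rfl⟩))
    (c0.dlog cR hU hu u0 hw)
  simp only [div_eq_inv_mul _ (u / y i ^ a)]
  exact this

end

end Pool.Agent.Lib.MP_62d77c_ag
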