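import Pool.Agent.Lib.MP_62d77c_ag.Car

/-! Connections on invertible modules: calculus, curvature and `p`-curvature. -/

set_option autoImplicit false

namespace Pool.Agent.Lib.MP_62d77c_ag

open Submodule

noncomputable section

namespace NSA

variable {k K : Type} [CommRing k] [Field K] [Algebra k K]

/-- one-forms as functions of one derivation -/
abbrev F1 (K : Type) [Field K] : Type := (Fin 1 → Derivation ℤ K K) → K

/-- the differential of a function -/
def dd (x : K) : F1 K := fun D => D 0 x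

theorem dd_add (x y : K) : dd (x + y) = dd x + dd y := by ext D; simp [dd]

theorem dd_mul (x y : K) : dd (x * y) = x • dd y + y • dd x := by ext D; simp [dd]

theorem dd_one : dd (1 : K) = 0 := by ext D; simp [dd]

/-- forms regular on `R` -/
def Om (R : Subalgebra k K) : Submodule k (F1 K) := forms k (R : Set K) 1

variable {R R' : Subalgebra k K} {X Y : Submodule k K} {θ θ' ω : F1 K}

theorem Om_eq : Om R = span k {φ | ∃ a ∈ R, ∃ b ∈ R, φ = a • dd b} := by
  have e : ∀ (a : K) (b : Fin 1 → K), (fun D : Fin 1 → Derivation ℤ K K =>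
      a * (Matrix.of fun i j => D i (b j)).det) = a • dd (b 0) := fun a b => by ext D; simp [dd]
  refine congrArg (span k) (Set.ext fun φ => ⟨?_, ?_⟩)
  · rintro ⟨a, ha, b, hb, rfl⟩
    exact ⟨a, ha, b 0, hb 0, e a b⟩
  · rintro ⟨a, ha, b, hb, rfl⟩
    exact ⟨a, ha, fun _ => b, fun _ => hb, (e a fun _ => b).symm⟩

theorem Om_le {P : AddSubmonoid (F1 K)} (h : ∀ a ∈ R, ∀ b ∈ R, a • dd b ∈ P) (hω : ω ∈ Om R) :
    ω ∈ P := by
  rw [Om_eq] at hω
  suffices ∀ c ∈ R, c • ω ∈ P by simpa using this 1 (one_mem _)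
  induction hω using span_induction with
  | mem φ hφ =>
    obtain ⟨a, ha, b, hb, rfl⟩ := hφ
    exact fun c hc => smul_smul c a (dd b) ▸ h _ (mul_mem hc ha) b hb
  | zero => simp
  | add x y _ _ hx hy => exact fun c hc => smul_add c x y ▸ add_mem (hx c hc) (hy c hc)
  | smul r x _ hx =>
    intro c hc
    rw [← algebraMap_smul K r x, smul_smul]
    exact hx _ (mul_mem hc (R.algebraMap_mem r))

theorem smul_dd {a b : K} (ha : a ∈ R) (hb : b ∈ R) : a • dd b ∈ Om R := by
  rw [Om_eq]; exact subset_span ⟨a, ha, b, hb, rfl⟩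

theorem dd_mem {b : K} (hb : b ∈ R) : dd b ∈ Om R := by simpa using smul_dd (one_mem R) hb

theorem smul_Om {c : K} (hc : c ∈ R) (h : ω ∈ Om R) : c • ω ∈ Om R :=
  Om_le (P := (Om R).toAddSubmonoid.comap (DistribSMul.toAddMonoidHom (F1 K) c))
    (fun a ha b hb => by
      show c • a • dd b ∈ Om R
      rw [smul_smul]; exact smul_dd (mul_mem hc ha) hb) h

theorem Om_mono (h : R ≤ R') : Om R ≤ Om R' := fun _ hω =>
  Om_le (P := (Om R').toAddSubmonoid) (fun _ ha _ hb => smul_dd (h ha) (h hb)) hω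

theorem mem2 {N : Submodule k (F1 K)} {y : K} (hy : y ∈ Y) (h : ω ∈ X • N) :
    y • ω ∈ (Y * X) • N :=
  (Submodule.smul_assoc Y X N).ge (smul_mem_smul hy h)

theorem sat_le : (X * R.toSubmodule) • Om R ≤ X • Om R :=
  (Submodule.smul_assoc X R.toSubmodule (Om R)).le.trans
    (smul_mono le_rfl (smul_le.2 fun _ hc _ h => smul_Om hc h))

/-- `d - θ` is a connection on the `R`-module generated by `X` -/
def Conn (R : Subalgebra k K) (θ : F1 K) (X : Submodule k K) : Prop :=
  ∀ x ∈ X, dd x - x • θ ∈ X • Om R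

/-- `X` generates an invertible `R`-module -/
def Inv (R : Subalgebra k K) (X : Submodule k K) : Prop :=
  ∃ X', X * X' ≤ R.toSubmodule ∧ (1 : K) ∈ X * X'

theorem Conn.mono (h : Conn R θ X) (hR : R ≤ R') : Conn R' θ X := fun x hx =>
  smul_mono le_rfl (Om_mono hR) (h x hx)

theorem Conn.mul (h : Conn R θ X) (h' : Conn R θ' Y) : Conn R (θ + θ') (X * Y) := fun z hz => by
  refine Submodule.mul_induction_on hz (fun x hx y hy => ?_) fun x y hx hy => ?_
  · have e : dd (x * y) - (x * y) • (θ + θ') = y • (dd x - x • θ) + x • (dd y - y • θ') := by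
      rw [dd_mul]; module
    rw [e]
    exact add_mem (mul_comm X Y ▸ mem2 hy (h x hx)) (mem2 hx (h' y hy))
  · have e : dd (x + y) - (x + y) • (θ + θ') =
        (dd x - x • (θ + θ')) + (dd y - y • (θ + θ')) := by rw [dd_add]; module
    rw [e]
    exact add_mem hx hy

theorem conn_gen {g : K} (hg : g ∈ X) (g0 : g ≠ 0) (h : ∀ x ∈ X, x / g ∈ R) :
    Conn R (g⁻¹ • dd g) X := fun x hx => by
  have e : dd x - x • g⁻¹ • dd g = g • dd (x / g) := by
    conv_lhs => rw [← mul_div_cancel₀ x g0, dd_mul, smul_smul, mul_div_cancel₀ x g0]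
    rw [div_eq_mul_inv]; module
  rw [e]
  exact smul_mem_smul hg (dd_mem (h x hx))

theorem Conn.sub_Om (h : Conn R θ X) (hω : ω ∈ Om R) : Conn R (θ - ω) X := fun x hx => by
  have e : dd x - x • (θ - ω) = (dd x - x • θ) + x • ω := by module
  rw [e]
  exact add_mem (h x hx) (smul_mem_smul hx hω)

theorem Conn.mul_R (h : Conn R θ X) : Conn R θ (X * R.toSubmodule) := by
  simpa [dd_one] using h.mul (conn_gen (X := R.toSubmodule) (one_mem R) one_ne_zero
    fun x hx => by simpa using hx)

theorem Conn.sat (h : Conn R θ X) (e : X * R.toSubmodule = Y * R.toSubmodule) : Conn R θ Y :=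
  fun y hy => sat_le (e ▸ h.mul_R y
    (e ▸ by simpa using mul_mem_mul (N := R.toSubmodule) hy (one_mem R)))

theorem Conn.cancel (h : Conn R (θ + θ') (X * Y)) (h' : Conn R θ' Y) (hY : Inv R Y) :
    Conn R θ X := fun x hx => by
  obtain ⟨Y', h1, h2⟩ := hY
  suffices ∀ z ∈ Y * Y', z • (dd x - x • θ) ∈ X • Om R by simpa using this 1 h2
  refine fun z hz => Submodule.mul_induction_on hz (fun y hy y' hy' => ?_)
    fun a b ha hb => add_smul a b (dd x - x • θ) ▸ add_mem ha hb
  have e : (y * y') • (dd x - x • θ) =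
      y' • ((dd (x * y) - (x * y) • (θ + θ')) - x • (dd y - y • θ')) := by
    rw [dd_mul]; module
  rw [e]
  refine sat_le (smul_mono_left ?_
    (mem2 hy' (sub_mem (h _ (mul_mem_mul hx hy)) (mem2 hx (h' y hy)))))
  rw [mul_comm Y', mul_assoc]
  exact mul_le_mul_right h1 X

theorem Conn.diff (h : Conn R θ X) (h' : Conn R θ' X) (hX : Inv R X) : θ - θ' ∈ Om R := by
  have := Conn.cancel (θ := θ - θ') (X := 1) (by simpa using h) h' hX 1 (one_le.1 le_rfl)
  rw [Submodule.one_smul, dd_one, zero_sub, one_smul] at this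
  exact neg_mem_iff.1 this

theorem exists_conn (hX : Inv R X) : ∃ θ ∈ span K (Set.range dd), Conn R θ X := by
  obtain ⟨Y, h1, h2⟩ := hX
  suffices ∀ z ∈ X * Y, ∃ θ ∈ span K (Set.range dd), ∀ x ∈ X, z • dd x - x • θ ∈ X • Om R by
    simpa [Conn] using this 1 h2
  refine fun z hz => Submodule.mul_induction_on hz (fun a ha b hb => ?_) ?_
  · refine ⟨b • dd a, smul_mem _ _ (subset_span ⟨a, rfl⟩), fun x hx => ?_⟩
    have e : (a * b) • dd x - x • b • dd a = a • dd (x * b) - x • dd (a * b) := by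
      rw [dd_mul, dd_mul]; module
    rw [e]
    exact sub_mem (smul_mem_smul ha (dd_mem (h1 (mul_mem_mul hx hb))))
      (smul_mem_smul hx (dd_mem (h1 (mul_mem_mul ha hb))))
  · rintro a b ⟨θ, m, h⟩ ⟨θ', m', h'⟩
    refine ⟨θ + θ', add_mem m m', fun x hx => ?_⟩
    have e : (a + b) • dd x - x • (θ + θ') = (a • dd x - x • θ) + (b • dd x - x • θ') := by module
    rw [e]
    exact add_mem (h x hx) (h' x hx)

theorem Inv.mem (hX : Inv R X) {w : K} (h : ∀ x ∈ X, w * x ∈ X * R.toSubmodule) : w ∈ R := by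
  obtain ⟨Y, h1, h2⟩ := hX
  suffices ∀ z ∈ X * Y, w * z ∈ R by simpa using this 1 h2
  refine fun z hz => Submodule.mul_induction_on hz (fun a ha b hb => ?_)
    fun a b ha hb => mul_add w a b ▸ add_mem ha hb
  have := mul_mem_mul (h a ha) hb
  rw [mul_right_comm X, mul_assoc w] at this
  exact (mul_le.2 fun _ hc _ hd => R.mul_mem hc hd : R.toSubmodule * R.toSubmodule ≤ R.toSubmodule)
    (mul_le_mul_left h1 _ this)

/-! ### the operators -/

/-- covariant derivative -/
def nab (δ : Derivation ℤ K K) (a : K) : K →+ K where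
  toFun x := δ x - a * x
  map_zero' := by simp
  map_add' x y := by rw [map_add]; ring

theorem nab_apply (δ : Derivation ℤ K K) (a x : K) : nab δ a x = δ x - a * x := rfl

theorem Conn.nab_mem (h : Conn R θ X) {δ : Derivation ℤ K K} {t : K} (ht : ∀ x ∈ R, t * δ x ∈ R)
    {z : K} (hz : z ∈ X * R.toSubmodule) : t * nab δ (θ fun _ => δ) z ∈ X * R.toSubmodule := by
  have e : nab δ (θ fun _ => δ) z = (dd z - z • θ) fun _ => δ := by simp [nab_apply, dd, mul_comm]
  rw [e]
  refine smul_induction_on (p := fun ω : F1 K => t * (ω fun _ => δ) ∈ X * R.toSubmodule)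
    (sat_le (h.mul_R z hz)) (fun x hx ω hω => ?_) fun a b ha hb => ?_
  · have : t * (ω fun _ => δ) ∈ R :=
      Om_le (P := R.toSubmodule.toAddSubmonoid.comap ((AddMonoidHom.mulLeft t).comp
        (Pi.evalAddMonoidHom (fun _ => K) fun _ => δ))) (fun a ha b hb => by
          show t * (a * δ b) ∈ R
          rw [mul_left_comm]; exact mul_mem ha (ht b hb)) hω
    rw [Pi.smul_apply, smul_eq_mul, mul_left_comm]
    exact mul_mem_mul hx this
  · rw [Pi.add_apply, mul_add]; exact add_mem ha hb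

theorem nab_mul (δ : Derivation ℤ K K) (a a' x y : K) :
    nab δ (a + a') (x * y) = nab δ a x * y + x * nab δ a' y := by
  simp only [nab_apply, Derivation.leibniz, smul_eq_mul]; ring

theorem nab_iter (δ : Derivation ℤ K K) (a a' x y : K) (n : ℕ) :
    (nab δ (a + a'))^[n] (x * y) = ∑ ij ∈ Finset.HasAntidiagonal.antidiagonal n,
      n.choose ij.1 • ((nab δ a)^[ij.1] x * (nab δ a')^[ij.2] y) := by
  induction n with
  | zero => simp
  | succ n ih =>
    rw [Finset.sum_antidiagonal_choose_succ_nsmul (M := K)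
      (fun i j => (nab δ a)^[i] x * (nab δ a')^[j] y) n]
    simp only [Function.iterate_succ_apply', ih, map_sum, map_nsmul, nab_mul, smul_add,
      Finset.sum_add_distrib]
    rw [add_comm]
    congr 1
    refine Finset.sum_congr rfl fun ⟨i, j⟩ hij => ?_
    rw [n.choose_symm_of_eq_add (Finset.HasAntidiagonal.mem_antidiagonal.1 hij).symm]

theorem nab_p {p : ℕ} (hp : p.Prime) [CharP K p] (δ : Derivation ℤ K K) (a a' x y : K) :
    (nab δ (a + a'))^[p] (x * y) = (nab δ a)^[p] x * y + x * (nab δ a')^[p] y := by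
  rw [nab_iter, Finset.sum_eq_add_of_mem (p, 0) (0, p) (by simp) (by simp)
    (by simp [hp.ne_zero])]
  · simp
  · rintro ⟨i, j⟩ hij ⟨h1, h2⟩
    rw [Finset.HasAntidiagonal.mem_antidiagonal] at hij
    have hi : i ≠ 0 := fun e => h2 (by simp only [e] at hij ⊢; simpa using hij)
    have hi' : i < p := by
      rcases Nat.eq_zero_or_pos j with e | e
      · exact absurd (by simp only [e] at hij ⊢; simpa using hij) h1
      · dsimp only at hij; omega
    rw [nsmul_eq_mul, (CharP.cast_eq_zero_iff K p _).2 (hp.dvd_choose_self hi hi'), zero_mul]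

theorem nab_const {δ : Derivation ℤ K K} {t : K} (ht : δ t = 0) (a x : K) :
    nab δ a (t * x) = t * nab δ a x := by
  simp only [nab_apply, Derivation.leibniz, smul_eq_mul, ht]; ring

theorem Conn.iter_mem (h : Conn R θ X) {δ : Derivation ℤ K K} {t : K} (t0 : δ t = 0)
    (ht : ∀ x ∈ R, t * δ x ∈ R) {z : K} (hz : z ∈ X * R.toSubmodule) (n : ℕ) :
    t ^ n * (nab δ (θ fun _ => δ))^[n] z ∈ X * R.toSubmodule := by
  induction n with
  | zero => simpa using hz
  | succ n ih =>
    have := h.nab_mem ht ih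
    rw [nab_const (by simp [t0])] at this
    rwa [Function.iterate_succ_apply', pow_succ', mul_assoc]

/-- commuting nilpotent operators have a common kernel -/
theorem common_ker {ι : Type} [Fintype ι] (T : ι → K →+ K) (n : ℕ)
    (hc : ∀ i j x, T i (T j x) = T j (T i x)) (hn : ∀ i x, (T i)^[n] x = 0) :
    ∃ g : K, g ≠ 0 ∧ ∀ i, T i g = 0 := by
  classical
  suffices ∀ s : Finset ι, ∃ g : K, g ≠ 0 ∧ ∀ i ∈ s, T i g = 0 by simpa using this Finset.univ
  intro s
  induction s using Finset.induction_on with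
  | empty => exact ⟨1, one_ne_zero, by simp⟩
  | insert i s _ ih =>
    obtain ⟨g, g0, hg⟩ := ih
    have ex : ∃ m, (T i)^[m] g = 0 := ⟨n, hn i g⟩
    obtain ⟨m, hm⟩ := Nat.exists_eq_succ_of_ne_zero
      (fun e : Nat.find ex = 0 => g0 (by simpa [e] using Nat.find_spec ex))
    refine ⟨(T i)^[m] g, Nat.find_min ex (by omega), fun j hj => ?_⟩
    rcases Finset.mem_insert.1 hj with rfl | hj
    · simpa [hm, Function.iterate_succ_apply'] using Nat.find_spec ex
    · have : Function.Commute (T j) (T i) := hc j i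
      rw [(this.iterate_right m).eq, hg j hj, Function.iterate_fixed (map_zero _)]

end NSA

end

end Pool.Agent.Lib.MP_62d77c_ag
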