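import Pool.Agent.Lib.MP_62d77c_ag.Base

/-! Finitely generated families. -/

set_option autoImplicit false

namespace Pool.Agent.Lib.MP_62d77c_ag

open Filter Polynomial Submodule

noncomputable section

variable {k K E E' : Type} [CommRing k] [CommRing K] [Algebra k K] [AddCommGroup E] [Module K E]
  [Module k E] [IsScalarTower k K E] [AddCommGroup E'] [Module K E'] [Module k E']
  [IsScalarTower k K E'] {V : Submodule k K} {N N' : ℕ → Submodule k E}

theorem Noeth_mul_smul (U U' : Submodule k K) (M : Submodule k E) :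
    (U * U') • M = U • U' • M := Submodule.smul_assoc U U' M

theorem Noeth_fg_smul {U : Submodule k K} {M : Submodule k E} (hU : U.FG) (hM : M.FG) :
    (U • M).FG := by
  obtain ⟨s, rfl⟩ := hU
  obtain ⟨t, rfl⟩ := hM
  have : span k (s : Set K) • span k (t : Set E) =
      span k (Set.image2 (fun a b => a • b) (s : Set K) (t : Set E)) := by
    refine le_antisymm (smul_le.2 fun r hr n hn => ?_) (span_le.2 ?_)
    · induction hr using span_induction with
      | mem r hr =>
        induction hn using span_induction with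
        | mem n hn => exact subset_span (Set.mem_image2_of_mem hr hn)
        | zero => simp
        | add x y _ _ h1 h2 => rw [smul_add]; exact add_mem h1 h2
        | smul c x _ h =>
          have : r • c • x = c • r • x := by
            rw [← algebraMap_smul K c x, ← algebraMap_smul K c (r • x), smul_comm]
          rw [this]; exact smul_mem _ c h
      | zero => simp
      | add x y _ _ h1 h2 => rw [add_smul]; exact add_mem h1 h2
      | smul c x _ h => rw [smul_assoc]; exact smul_mem _ c h
    · rintro _ ⟨a, ha, b, hb, rfl⟩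
      exact smul_mem_smul (subset_span ha) (subset_span hb)
  rw [this]
  exact fg_span (s.finite_toSet.image2 _ t.finite_toSet)

/-- elements of the polynomial module with coefficients in a family -/
def NoethSub (V : Submodule k K) (t : Set K) (ht : t ⊆ V) (W : ℕ → Submodule k E)
    (hW : ∀ n, V • W n ≤ W (n + 1)) :
    Submodule (Algebra.adjoin k ((fun v : K => monomial 1 v) '' t)) (PolynomialModule K E) where
  carrier := {f | ∀ n, f.coeff n ∈ W n}
  zero_mem' := fun n => by simp
  add_mem' := fun {a b} ha hb n => by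
    rw [PolynomialModule.coeff_add, Finsupp.add_apply]; exact add_mem (ha n) (hb n)
  smul_mem' := by
    rintro ⟨r, hr⟩ f hf
    change ∀ n, (r • f).coeff n ∈ W n
    induction hr using Algebra.adjoin_induction generalizing f with
    | mem x hx =>
      obtain ⟨v, hv, rfl⟩ := hx
      intro n
      rw [PolynomialModule.monomial_smul_apply]
      split_ifs with h
      · obtain ⟨m, rfl⟩ : ∃ m, n = m + 1 := ⟨n - 1, by omega⟩
        exact hW m (smul_mem_smul (ht hv) (hf m))
      · exact zero_mem _
    | algebraMap c =>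
      intro n
      rw [algebraMap_smul]
      exact smul_mem _ c (hf n)
    | add x y _ _ h1 h2 =>
      intro n
      rw [add_smul, PolynomialModule.coeff_add, Finsupp.add_apply]
      exact add_mem (h1 hf n) (h2 hf n)
    | mul x y _ _ h1 h2 =>
      rw [mul_smul]
      exact h1 (h2 hf)

theorem Noeth_basis [IsNoetherianRing k] (hV : V.FG) (h0 : (N 0).FG)
    (h1 : ∀ n, N (n + 1) = V • N n) (h2 : ∀ n, V • N' n ≤ N' (n + 1)) (h3 : ∀ n, N' n ≤ N n) :
    ∀ᶠ n in atTop, N' (n + 1) ≤ V • N' n := by
  classical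
  obtain ⟨t, ht⟩ := hV
  obtain ⟨s, hs⟩ := h0
  have htV : (t : Set K) ⊆ V := ht ▸ subset_span
  set R := Algebra.adjoin k ((fun v : K => monomial 1 v) '' (t : Set K)) with hR
  have : IsNoetherianRing R :=
    isNoetherianRing_of_fg ⟨t.image fun v : K => monomial 1 v, by rw [Finset.coe_image]⟩
  have hv : ∀ v ∈ V, monomial 1 v ∈ R := by
    intro v hv
    rw [← ht] at hv
    induction hv using span_induction with
    | mem x hx => exact Algebra.subset_adjoin ⟨x, hx, rfl⟩
    | zero => simp
    | add x y _ _ a b => rw [map_add]; exact add_mem a b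
    | smul c x _ a => rw [← smul_monomial]; exact R.smul_mem a c
  set M : Submodule R (PolynomialModule K E) :=
    span R ((fun e => PolynomialModule.single K 0 e) '' (s : Set E)) with hM
  have hMfg : M.FG := fg_span (s.finite_toSet.image _)
  have hin : ∀ n, ∀ w ∈ N n, PolynomialModule.single K n w ∈ M := by
    intro n
    induction n with
    | zero =>
      intro w hw
      rw [← hs] at hw
      induction hw using span_induction with
      | mem x hx => exact subset_span ⟨x, hx, rfl⟩
      | zero => simp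
      | add x y _ _ a b => rw [PolynomialModule.single_add]; exact add_mem a b
      | smul c x _ a =>
        have : PolynomialModule.single K 0 (c • x) =
            (algebraMap k R c) • PolynomialModule.single K 0 x := by
          change _ = (algebraMap k K[X] c) • PolynomialModule.single K 0 x
          rw [Polynomial.algebraMap_apply, ← monomial_zero_left, PolynomialModule.monomial_smul_single,
            algebraMap_smul]
        rw [this]
        exact smul_mem _ _ a
    | succ n ih =>
      intro w hw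
      rw [h1] at hw
      refine smul_induction_on hw (fun v hv' x hx => ?_) fun x y a b => ?_
      · have : PolynomialModule.single K (n + 1) (v • x) =
            (⟨monomial 1 v, hv v hv'⟩ : R) • PolynomialModule.single K n x := by
          change _ = (monomial 1 v) • PolynomialModule.single K n x
          rw [PolynomialModule.monomial_smul_single, add_comm]
        rw [this]
        exact smul_mem _ _ (ih x hx)
      · rw [PolynomialModule.single_add]; exact add_mem a b
  let c : ℕ →o Submodule R (PolynomialModule K E) :=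
    ⟨fun m => span R {f | ∃ d ≤ m, ∃ w ∈ N' d, f = PolynomialModule.single K d w},
      fun a b hab => span_mono fun f ⟨d, hd, hw⟩ => ⟨d, hd.trans hab, hw⟩⟩
  have hc : (⨆ m, c m).FG := hMfg.of_le (iSup_le fun m => span_le.2 (by
    rintro _ ⟨d, -, w, hw, rfl⟩
    exact hin d w (h3 d hw)))
  obtain ⟨m0, hm0⟩ := hc.stabilizes_of_iSup_eq c rfl
  filter_upwards [eventually_ge_atTop m0] with m hm w hw
  have hW : ∀ n, V • (if n ≤ m then N' n else V • N' (n - 1)) ≤
      (if n + 1 ≤ m then N' (n + 1) else V • N' (n + 1 - 1)) := by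
    intro n
    split_ifs with a b b
    · exact h2 n
    · exact le_rfl
    · omega
    · obtain ⟨j, rfl⟩ : ∃ j, n = j + 1 := ⟨n - 1, by omega⟩
      exact smul_mono le_rfl (h2 j)
  have hle : c m0 ≤ NoethSub V t htV (fun n => if n ≤ m then N' n else V • N' (n - 1)) hW := by
    refine span_le.2 ?_
    rintro _ ⟨d, hd, w, hw, rfl⟩ n
    rw [PolynomialModule.coeff_single, Finsupp.single_apply]
    split_ifs with a
    · subst a
      simp only [if_pos (hd.trans hm)]
      exact hw
    · exact zero_mem _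
  have hmem : PolynomialModule.single K (m + 1) w ∈ c m0 := by
    rw [← hm0]
    exact mem_iSup_of_mem (m + 1) (subset_span ⟨m + 1, le_rfl, w, hw, rfl⟩)
  have := hle hmem (m + 1)
  simpa using this

theorem Fg.fam (h : Fg V N) : Fam V N := h.mono fun _ hn => hn.2.ge

theorem Fg.congr (h : Fg V N) (e : N =ᶠ[atTop] N') : Fg V N' := by
  filter_upwards [h, e, (tendsto_add_atTop_nat 1).eventually e] with n h1 h2 h3
  rw [← h2, ← h3]
  exact h1

theorem Fam.pow_smul (h : Fam V N) : ∀ᶠ n in atTop, ∀ m, V ^ m • N n ≤ N (n + m) := by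
  filter_upwards [eventually_forall_ge_atTop.2 h] with n hn m
  induction m with
  | zero => rw [pow_zero, Submodule.one_smul]; exact le_rfl
  | succ m ih =>
    rw [pow_succ', Noeth_mul_smul]
    exact (smul_mono le_rfl ih).trans (hn _ (Nat.le_add_right _ _))

theorem Fg.pow_smul (h : Fg V N) : ∀ᶠ n in atTop, ∀ m, N (n + m) = V ^ m • N n := by
  filter_upwards [eventually_forall_ge_atTop.2 h] with n hn m
  induction m with
  | zero => rw [pow_zero, Submodule.one_smul]; rfl
  | succ m ih =>
    rw [pow_succ', Noeth_mul_smul, ← ih]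
    exact (hn _ (Nat.le_add_right _ _)).2

/-- Hilbert basis theorem for families -/
theorem Fg.of_le [IsNoetherianRing k] (hV : V.FG) (hN : Fg V N) (hN' : Fam V N')
    (h : N' ≤ᶠ[atTop] N) : Fg V N' := by
  obtain ⟨n0, hn0⟩ := eventually_atTop.1 (hN.and (hN'.and h))
  have key := Noeth_basis (N := fun n => N (n0 + n)) (N' := fun n => N' (n0 + n)) hV
    (hn0 _ (Nat.le_add_right _ _)).1.1 (fun n => (hn0 _ (Nat.le_add_right _ _)).1.2)
    (fun n => (hn0 _ (Nat.le_add_right _ _)).2.1) (fun n => (hn0 _ (Nat.le_add_right _ _)).2.2)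
  obtain ⟨n1, hn1⟩ := eventually_atTop.1 key
  filter_upwards [eventually_ge_atTop (n0 + n1)] with n hn
  obtain ⟨j, rfl⟩ : ∃ j, n = n0 + j := ⟨n - n0, by omega⟩
  have a := hn0 (n0 + j) (Nat.le_add_right _ _)
  exact ⟨a.1.1.of_le a.2.2, le_antisymm (hn1 j (by omega)) a.2.1⟩

theorem fg_pw' (hV : V.FG) : Fg V (fun n => V ^ n) :=
  Eventually.of_forall fun n => ⟨hV.pow n, pow_succ' V n⟩

theorem fg_const_bot : Fg V (fun _ => (⊥ : Submodule k E)) :=
  Eventually.of_forall fun _ => ⟨fg_bot, (smul_bot V).symm⟩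

theorem Fg.smul (h : Fg V N) {U : Submodule k K} (hU : U.FG) : Fg V (fun n => U • N n) :=
  h.mono fun n hn => ⟨Noeth_fg_smul hU hn.1, by
    simp only [hn.2]
    rw [← Noeth_mul_smul, ← Noeth_mul_smul, mul_comm]⟩

theorem Fg.sub (h : Fg V N) (a : ℕ) : Fg V (fun n => N (n - a)) := by
  filter_upwards [(tendsto_sub_atTop_nat a).eventually h, eventually_ge_atTop a] with n hn ha
  refine ⟨hn.1, ?_⟩
  rw [show n + 1 - a = n - a + 1 by omega]
  exact hn.2

theorem Fg.add (h : Fg V N) (a : ℕ) : Fg V (fun n => N (n + a)) := by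
  filter_upwards [(tendsto_add_atTop_nat a).eventually h] with n hn
  refine ⟨hn.1, ?_⟩
  rw [show n + 1 + a = n + a + 1 by omega]
  exact hn.2

theorem Fg.sup (h : Fg V N) (h' : Fg V N') : Fg V (fun n => N n ⊔ N' n) := by
  filter_upwards [h, h'] with n a b
  exact ⟨a.1.sup b.1, by rw [a.2, b.2, smul_sup]⟩

theorem Fg.inf [IsNoetherianRing k] (hV : V.FG) (h : Fg V N) (h' : Fam V N') :
    Fg V (fun n => N n ⊓ N' n) := by
  refine Fg.of_le hV h ?_ (Eventually.of_forall fun n => inf_le_left)
  filter_upwards [h.fam, h'] with n a b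
  exact le_inf ((smul_mono le_rfl inf_le_left).trans a) ((smul_mono le_rfl inf_le_right).trans b)

theorem Noeth_smul_pi {β : Type} [Fintype β] (U : Submodule k K) (M : β → Submodule k E) :
    U • (Submodule.pi Set.univ M : Submodule k (β → E)) =
      Submodule.pi Set.univ fun i => U • M i := by
  classical
  refine le_antisymm (smul_le.2 fun r hr n hn i hi => smul_mem_smul hr (hn i hi)) fun x hx => ?_
  rw [← Finset.univ_sum_single x]
  refine sum_mem fun i _ => ?_
  refine smul_induction_on (p := fun y => Pi.single i y ∈ U • Submodule.pi Set.univ M)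
    (hx i trivial) (fun r hr n hn => ?_) fun a b ha hb => ?_
  · rw [Pi.single_smul']
    refine smul_mem_smul hr fun j _ => ?_
    by_cases h : j = i
    · subst h; simpa using hn
    · simp [Pi.single_eq_of_ne h]
  · rw [Pi.single_add]; exact add_mem ha hb

theorem Noeth_smul_map (U : Submodule k K) (M : Submodule k E) (φ : E →ₗ[K] E') :
    U • M.map (φ.restrictScalars k) = (U • M).map (φ.restrictScalars k) := by
  refine le_antisymm (smul_le.2 ?_) (map_le_iff_le_comap.2 (smul_le.2 fun r hr n hn => ?_))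
  · rintro r hr _ ⟨n, hn, rfl⟩
    exact ⟨r • n, smul_mem_smul hr hn, φ.map_smul r n⟩
  · rw [Submodule.mem_comap, LinearMap.restrictScalars_apply, φ.map_smul]
    exact smul_mem_smul hr ⟨n, hn, rfl⟩

theorem Fg.map (h : Fg V N) (φ : E →ₗ[K] E') :
    Fg V (fun n => (N n).map (φ.restrictScalars k)) :=
  h.mono fun n hn => ⟨hn.1.map _, by simp only [hn.2]; rw [Noeth_smul_map]⟩

theorem Fam.comap {M : ℕ → Submodule k E'} (h : Fam V M) (φ : E →ₗ[K] E') :
    Fam V (fun n => (M n).comap (φ.restrictScalars k)) :=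
  h.mono fun n hn => smul_le.2 fun r hr x hx => by
    rw [Submodule.mem_comap, LinearMap.restrictScalars_apply, φ.map_smul]
    exact hn (smul_mem_smul hr hx)

theorem Fg.pi {β : Type} [Fintype β] {M : β → ℕ → Submodule k E} (h : ∀ i, Fg V (M i)) :
    Fg V (fun n => Submodule.pi Set.univ fun i => M i n) := by
  filter_upwards [eventually_all.2 h] with n hn
  refine ⟨fg_pi fun i => (hn i).1, ?_⟩
  rw [Noeth_smul_pi]
  congr 1
  funext i
  exact (hn i).2

theorem smul_pi {β : Type} [Fintype β] (U : Submodule k K) (M : β → Submodule k E) :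
    U • (Submodule.pi Set.univ M : Submodule k (β → E)) = Submodule.pi Set.univ fun i => U • M i :=
  Noeth_smul_pi U M

theorem smul_map (U : Submodule k K) (M : Submodule k E) (φ : E →ₗ[K] E') :
    U • M.map (φ.restrictScalars k) = (U • M).map (φ.restrictScalars k) :=
  Noeth_smul_map U M φ

/-- it suffices to test generators in one large degree -/
theorem Fg.le_of_mem (_hV : V.FG) (hN : Fg V N) (hN' : Fam V N')
    (h : ∀ᶠ n in atTop, ∀ w ∈ N n, ∃ m, ∀ v ∈ V ^ m, v • w ∈ N' (n + m)) : N ≤ᶠ[atTop] N' := by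
  obtain ⟨n, ⟨⟨s, hs⟩, -⟩, h2, h3, h4⟩ := (hN.and (hN.pow_smul.and
    ((eventually_forall_ge_atTop.2 hN'.pow_smul).and h))).exists
  have key : ∀ᶠ m in atTop, ∀ w ∈ s, ∀ v ∈ V ^ m, v • w ∈ N' (n + m) := by
    rw [eventually_all_finset]
    intro w hw
    obtain ⟨m0, hm0⟩ := h4 w (hs ▸ subset_span hw)
    filter_upwards [eventually_ge_atTop m0] with m hm v hv
    obtain ⟨j, rfl⟩ : ∃ j, m = j + m0 := ⟨m - m0, by omega⟩
    rw [pow_add] at hv
    refine Submodule.mul_induction_on hv (fun a ha b hb => ?_) fun a b ha hb => ?_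
    · rw [mul_smul, show n + (j + m0) = n + m0 + j by omega]
      exact h3 _ (Nat.le_add_right _ _) j (smul_mem_smul ha (hm0 b hb))
    · rw [add_smul]; exact add_mem ha hb
  filter_upwards [(tendsto_sub_atTop_nat n).eventually key, eventually_ge_atTop n] with m hm hn
  obtain ⟨j, rfl⟩ : ∃ j, m = n + j := ⟨m - n, by omega⟩
  rw [Nat.add_sub_cancel_left] at hm
  rw [h2 j]
  refine smul_le.2 fun v hv w hw => ?_
  rw [← hs] at hw
  induction hw using span_induction with
  | mem x hx => exact hm x hx v hv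
  | zero => simp
  | add x y _ _ a b => rw [smul_add]; exact add_mem a b
  | smul c x _ a =>
    have : v • c • x = c • v • x := by
      rw [← algebraMap_smul K c x, ← algebraMap_smul K c (v • x), smul_comm]
    rw [this]; exact smul_mem _ c a

section finmod
variable {X Y : Type} [AddCommGroup X] [Module k X] [AddCommGroup Y] [Module k Y]

theorem FinMod.mono {B Z B' Z' : Submodule k X} (h : FinMod B Z) (hB : B ≤ B') (hZ : Z' ≤ Z) :
    FinMod B' Z' :=
  let ⟨S, h1, h2⟩ := h
  ⟨S, h1, hZ.trans (h2.trans (sup_le_sup_right hB S))⟩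

theorem FinMod.trans {B Z W : Submodule k X} (h : FinMod B Z) (h' : FinMod Z W) : FinMod B W :=
  let ⟨S, h1, h2⟩ := h
  let ⟨S', h1', h2'⟩ := h'
  ⟨S ⊔ S', h1.sup h1', h2'.trans (by rw [← sup_assoc]; exact sup_le_sup_right h2 S')⟩

theorem FinMod.map {B Z : Submodule k X} (h : FinMod B Z) (f : X →ₗ[k] Y) :
    FinMod (B.map f) (Z.map f) :=
  let ⟨S, h1, h2⟩ := h
  ⟨S.map f, h1.map f, by rw [← Submodule.map_sup]; exact Submodule.map_mono h2⟩

theorem Noeth_quot {B Z S : Submodule k X} (h : Z ≤ B ⊔ S) : Z.map B.mkQ ≤ S.map B.mkQ := by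
  refine (Submodule.map_mono h).trans ?_
  rw [Submodule.map_sup, mkQ_map_self, bot_sup_eq]

theorem FinMod.comap [IsNoetherianRing k] {B Z : Submodule k Y} (h : FinMod B Z) (f : X →ₗ[k] Y)
    (W : Submodule k X) (hW : W ≤ Z.comap f) : FinMod (W ⊓ B.comap f) W := by
  obtain ⟨S, h1, h2⟩ := h
  have h3 : (W.map (B.mkQ.comp f)).FG := (h1.map B.mkQ).of_le (by
    rw [Submodule.map_comp]
    exact (Submodule.map_mono (map_le_iff_le_comap.2 hW)).trans (Noeth_quot h2))
  obtain ⟨t, ht⟩ := h3
  have h4 : ∀ y : t, ∃ x ∈ W, (B.mkQ.comp f) x = y := fun y => by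
    have : (y : Y ⧸ B) ∈ W.map (B.mkQ.comp f) := ht ▸ subset_span y.2
    exact this
  choose g hg1 hg2 using h4
  refine ⟨span k (Set.range g), fg_span (Set.finite_range g), fun w hw => ?_⟩
  have h5 : W.map (B.mkQ.comp f) ≤ (span k (Set.range g)).map (B.mkQ.comp f) := by
    rw [← ht]
    exact span_le.2 fun y hy => ⟨g ⟨y, hy⟩, subset_span ⟨_, rfl⟩, hg2 ⟨y, hy⟩⟩
  obtain ⟨x, hx, e⟩ := h5 ⟨w, hw, rfl⟩
  have hxW : x ∈ W := (span_le.2 (by rintro _ ⟨y, rfl⟩; exact hg1 y) : span k (Set.range g) ≤ W) hx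
  refine mem_sup.2 ⟨w - x, ⟨sub_mem hw hxW, ?_⟩, x, hx, sub_add_cancel w x⟩
  change f (w - x) ∈ B
  rw [map_sub]
  exact (Submodule.Quotient.eq B).1 e.symm

theorem FinMod.bounded [IsNoetherianRing k] {B Z : Submodule k X} (h : FinMod B Z) (π : k)
    (ht : ∀ z ∈ Z, ∃ M : ℕ, π ^ M • z ∈ B) : ∃ s : ℕ, ∀ z ∈ Z, π ^ s • z ∈ B := by
  obtain ⟨S, h1, h2⟩ := h
  obtain ⟨t, e⟩ : (Z.map B.mkQ).FG := (h1.map B.mkQ).of_le (Noeth_quot h2)
  have key : ∀ᶠ s in atTop, ∀ y ∈ t, π ^ s • y = 0 := by
    rw [eventually_all_finset]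
    intro y hy
    obtain ⟨z, hz, rfl⟩ : y ∈ Z.map B.mkQ := e ▸ subset_span hy
    obtain ⟨M, hM⟩ := ht z hz
    filter_upwards [eventually_ge_atTop M] with s hs
    obtain ⟨j, rfl⟩ : ∃ j, s = j + M := ⟨s - M, by omega⟩
    rw [← map_smul, mkQ_apply, Submodule.Quotient.mk_eq_zero, pow_add, mul_smul]
    exact smul_mem _ _ hM
  obtain ⟨s, hs⟩ := key.exists
  refine ⟨s, fun z hz => ?_⟩
  have h3 : ∀ y ∈ span k (t : Set (X ⧸ B)), π ^ s • y = 0 := by
    intro y hy
    induction hy using span_induction with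
    | mem x hx => exact hs x hx
    | zero => simp
    | add x y _ _ a b => rw [smul_add, a, b, add_zero]
    | smul c x _ a => rw [smul_comm, a, smul_zero]
  have := h3 (B.mkQ z) (e ▸ ⟨z, hz, rfl⟩)
  rwa [← map_smul, mkQ_apply, Submodule.Quotient.mk_eq_zero] at this

theorem FinMod.finite [Finite k] {B Z : Submodule k X} (h : FinMod B Z) :
    ∃ s : Finset X, ∀ z ∈ Z, ∃ x ∈ s, z - x ∈ B := by
  classical
  obtain ⟨S, h1, h2⟩ := h
  have : Module.Finite k S := Module.Finite.iff_fg.2 h1
  have : Finite S := Module.finite_of_finite k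
  refine ⟨(Set.toFinite (S : Set X)).toFinset, fun z hz => ?_⟩
  obtain ⟨b, hb, x, hx, rfl⟩ := mem_sup.1 (h2 hz)
  exact ⟨x, by simpa using hx, by simpa using hb⟩

end finmod

end

end Pool.Agent.Lib.MP_62d77c_ag
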