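import Pool.Agent.Lib.MP_62d77c_ag.Alg

/-! Norms modulo `p` at the generic point of the fibre of the projective line. -/

set_option autoImplicit false

namespace Pool.Agent.Lib.MP_62d77c_ag

open Filter Polynomial Submodule

noncomputable section

theorem normD_resid {Λ R F : Type} [CommRing Λ] [IsLocalRing Λ] [CommRing R] [Algebra Λ R]
    [Module.Finite Λ R] [Module.Free Λ R] [Field F] (π : Λ →+* F) (hπ : Function.Surjective π) :
    ∃ (Q : Type) (_ : CommRing Q) (_ : Algebra F Q) (_ : FiniteDimensional F Q) (mk : R →+* Q),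
      Function.Surjective mk ∧
      RingHom.ker mk = (IsLocalRing.maximalIdeal Λ).map (algebraMap Λ R) ∧
      (∀ x, mk (algebraMap Λ R x) = algebraMap F Q (π x)) ∧
      ∀ g, Algebra.norm F (mk g) = π (Algebra.norm Λ g) := by
  have hk : RingHom.ker π = IsLocalRing.maximalIdeal Λ := IsLocalRing.ker_eq_maximalIdeal π hπ
  let e : (Λ ⧸ IsLocalRing.maximalIdeal Λ) ≃+* F :=
    (Ideal.quotEquivOfEq hk.symm).trans (RingHom.quotientKerEquivOfSurjective hπ)
  have he : ∀ x, e (Ideal.Quotient.mk _ x) = π x := fun x => rfl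
  let Q := R ⧸ (IsLocalRing.maximalIdeal Λ).map (algebraMap Λ R)
  let alg : Algebra F Q :=
    ((algebraMap (Λ ⧸ IsLocalRing.maximalIdeal Λ) Q).comp e.symm.toRingHom).toAlgebra
  have h1 : (algebraMap F Q).comp (e : _ →+* F) = algebraMap (Λ ⧸ IsLocalRing.maximalIdeal Λ) Q := by
    refine RingHom.ext fun x => ?_
    show algebraMap (Λ ⧸ IsLocalRing.maximalIdeal Λ) Q (e.symm (e x)) = _
    rw [e.symm_apply_apply]
  have h2 : ∀ x, Ideal.Quotient.mk _ (algebraMap Λ R x) = algebraMap F Q (π x) := fun x => by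
    rw [← he]
    exact (RingHom.congr_fun h1 (Ideal.Quotient.mk _ x)).symm
  let _ : Algebra Λ F := π.toAlgebra
  have : IsScalarTower Λ F Q := IsScalarTower.of_algebraMap_eq fun x => h2 x
  refine ⟨Q, inferInstance, alg, Module.Finite.of_restrictScalars_finite Λ F Q,
    Ideal.Quotient.mk _, Ideal.Quotient.mk_surjective, Ideal.mk_ker, h2, fun g => ?_⟩
  rw [← Algebra.norm_eq_of_ringEquiv e h1, ← norm_residue g]
  rfl

section mul
variable {F Q R : Type} [Field F] [CommRing Q] [Algebra F Q] [FiniteDimensional F Q] [CommRing R]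
  [IsDomain R]

/-- the norm of `g` on `Q ⧸ 𝔞` -/
def normDt (F : Type) {Q : Type} [Field F] [CommRing Q] [Algebra F Q] (g : Q) (𝔞 : Ideal Q) : F :=
  Algebra.norm F (Ideal.Quotient.mk 𝔞 g)

omit [FiniteDimensional F Q] in
theorem normDt_top (g : Q) : normDt F g ⊤ = 1 := by
  unfold normDt
  rw [Subsingleton.elim (Ideal.Quotient.mk ⊤ g) 1, map_one]

omit [FiniteDimensional F Q] in
theorem normDt_ker {K : Type} [CommRing K] [Algebra F K] (χ : Q →ₐ[F] K) (h : Function.Surjective χ)
    (g : Q) : normDt F g (RingHom.ker χ) = Algebra.norm F (χ g) :=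
  (Algebra.norm_eq_of_algEquiv (Ideal.quotientKerAlgEquivOfSurjective h) _).symm

omit [FiniteDimensional F Q] in
theorem normDt_bot (g : Q) : normDt F g ⊥ = Algebra.norm F g := by
  have := normDt_ker (AlgHom.id F Q) Function.surjective_id g
  rwa [(RingHom.injective_iff_ker_eq_bot _).1 Function.injective_id] at this

theorem normDt_step (g f : Q) (𝔞 : Ideal Q) :
    normDt F g 𝔞 = normDt F g (𝔞 ⊔ Ideal.span {f}) * normDt F g (𝔞.colon {f}) := norm_quot_step g f 𝔞

theorem normDt_mul (mk : R →+* Q) (hs : Function.Surjective mk) (g : Q) {a b : R} (ha : a ≠ 0)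
    (hk : RingHom.ker mk ≤ Ideal.span {a * b}) :
    normDt F g (Ideal.span {mk (a * b)}) = normDt F g (Ideal.span {mk a}) * normDt F g (Ideal.span {mk b}) := by
  rw [normDt_step g (mk a)]
  congr 2
  · refine sup_eq_right.2 (Ideal.span_singleton_le_span_singleton.2 ?_)
    rw [map_mul]; exact dvd_mul_right _ _
  · ext z
    obtain ⟨x, rfl⟩ := hs z
    rw [Submodule.mem_colon_singleton, smul_eq_mul, Ideal.mem_span_singleton,
      Ideal.mem_span_singleton]
    constructor
    · rintro ⟨w, hw⟩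
      obtain ⟨c, rfl⟩ := hs w
      have : x * a - a * b * c ∈ RingHom.ker mk := by
        rw [RingHom.mem_ker, map_sub, map_mul, map_mul, hw, sub_self]
      obtain ⟨d, hd⟩ := Ideal.mem_span_singleton.1 (hk this)
      have : x = b * (c + d) := mul_left_cancel₀ ha (by linear_combination hd)
      rw [this, map_mul]; exact dvd_mul_right _ _
    · rintro ⟨w, hw⟩
      exact ⟨w, by rw [hw, map_mul]; ring⟩

theorem normDt_pow (mk : R →+* Q) (hs : Function.Surjective mk) (g : Q) {a : R} (ha : a ≠ 0) (n : ℕ)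
    (hk : RingHom.ker mk ≤ Ideal.span {a ^ n}) :
    normDt F g (Ideal.span {mk (a ^ n)}) = normDt F g (Ideal.span {mk a}) ^ n := by
  induction n with
  | zero => simp [normDt_top]
  | succ n ih =>
    rw [pow_succ'] at hk ⊢
    rw [normDt_mul mk hs g ha hk, pow_succ', ih]
    exact hk.trans (Ideal.span_singleton_le_span_singleton.2 (dvd_mul_left _ _))

theorem normDt_prod (mk : R →+* Q) (hs : Function.Surjective mk) (g : Q) {ι : Type} (s : Finset ι)
    (t : ι → R) (m : ι → ℕ) (ht : ∀ j, t j ≠ 0)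
    (hk : RingHom.ker mk ≤ Ideal.span {∏ j ∈ s, t j ^ m j}) :
    normDt F g (Ideal.span {mk (∏ j ∈ s, t j ^ m j)}) =
      ∏ j ∈ s, normDt F g (Ideal.span {mk (t j)}) ^ m j := by
  classical
  induction s using Finset.induction_on with
  | empty => simp [normDt_top]
  | insert j s hj ih =>
    rw [Finset.prod_insert hj] at hk ⊢
    rw [Finset.prod_insert hj, normDt_mul mk hs g (pow_ne_zero _ (ht j)) hk, ih, normDt_pow mk hs g (ht j)]
    · exact hk.trans (Ideal.span_singleton_le_span_singleton.2 (dvd_mul_right _ _))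
    · exact hk.trans (Ideal.span_singleton_le_span_singleton.2 (dvd_mul_left _ _))

end mul

end

end Pool.Agent.Lib.MP_62d77c_ag
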