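import Pool.Agent.Lib.MP_62d77c_ag.Base
import Pool.Agent.Lib.MP_a966df_ag.Reg
import Pool.Agent.Lib.MP_a966df_ag.Depth

/-! Regular local rings. -/

set_option autoImplicit false

namespace Pool.Agent.Lib.MP_62d77c_ag

open Filter Polynomial Submodule

noncomputable section

section ufd
open IsLocalRing TensorProduct Pool.Agent.Lib.MP_a966df_ag

theorem ufd_spanFinrank_le {R : Type} [CommRing R] {α : Type} (F : Finset α) (t : α → R) :
    (Ideal.span (t '' F)).spanFinrank ≤ F.card := by
  refine (Submodule.spanFinrank_span_le_ncard_of_finite (F.finite_toSet.image t)).trans ?_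
  exact (Set.ncard_image_le F.finite_toSet).trans (Set.ncard_coe_finset F).le

theorem reg_quot {R : Type} [CommRing R] [IsLocalRing R] [IsNoetherianRing R] {n : ℕ}
    (t : Fin n → R) (hd : ringKrullDim R = n)
    (ht : Ideal.span (Set.range t) = IsLocalRing.maximalIdeal R) (s : Set (Fin n)) :
    (Ideal.span (t '' s)).IsPrime ∧ (∀ i ∉ s, t i ∉ Ideal.span (t '' s)) ∧
      IsRegularLocalRing (R ⧸ Ideal.span (t '' s)) := by
  classical
  have hm : ∀ i, t i ∈ maximalIdeal R := fun i => ht ▸ Ideal.subset_span ⟨i, rfl⟩
  have hle : Ideal.span (t '' s) ≤ maximalIdeal R :=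
    Ideal.span_le.2 (by rintro _ ⟨i, -, rfl⟩; exact hm i)
  have hne : Ideal.span (t '' s) ≠ ⊤ := fun h =>
    (maximalIdeal.isMaximal R).ne_top (top_le_iff.1 (h ▸ hle))
  have := Ideal.Quotient.nontrivial_iff.mpr hne
  have hloc : IsLocalRing (R ⧸ Ideal.span (t '' s)) :=
    IsLocalRing.of_surjective' (Ideal.Quotient.mk _) Ideal.Quotient.mk_surjective
  set F : Finset (Fin n) := Finset.univ.filter (· ∈ s) with hF
  set G : Finset (Fin n) := Finset.univ.filter (· ∉ s) with hGd
  have hFs : (F : Set (Fin n)) = s := by ext i; simp [hF]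
  have hFG : F.card + G.card = n := by
    rw [hF, hGd, Finset.card_filter_add_card_filter_not]; simp
  set π := Ideal.Quotient.mk (Ideal.span (t '' s)) with hπ
  have hmax : Ideal.span ((fun i => π (t i)) '' G) = maximalIdeal (R ⧸ Ideal.span (t '' s)) := by
    rw [← map_maximalIdeal_of_surjective π Ideal.Quotient.mk_surjective, ← ht, Ideal.map_span]
    refine le_antisymm (Ideal.span_mono ?_) (Ideal.span_le.2 ?_)
    · rintro _ ⟨i, -, rfl⟩; exact ⟨t i, ⟨i, rfl⟩, rfl⟩
    · rintro _ ⟨_, ⟨i, rfl⟩, rfl⟩
      by_cases hi : i ∈ s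
      · have : π (t i) = 0 := Ideal.Quotient.eq_zero_iff_mem.2 (Ideal.subset_span ⟨i, hi, rfl⟩)
        rw [this]; exact zero_mem _
      · exact Ideal.subset_span ⟨i, by simp [hGd, hi], rfl⟩
  have hdim : (G.card : WithBot ℕ∞) ≤ ringKrullDim (R ⧸ Ideal.span (t '' s)) := by
    have h1 := ringKrullDim_le_ringKrullDim_quotient_add_spanFinrank (Ideal.span (t '' s))
      (hle.trans (by rw [← Ideal.jacobson_bot]; exact maximalIdeal_le_jacobson _))
    have h2 : (Ideal.span (t '' s)).spanFinrank ≤ F.card := hFs ▸ ufd_spanFinrank_le F t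
    rw [hd] at h1
    have h3 : ((G.card + F.card : ℕ) : WithBot ℕ∞) ≤
        ringKrullDim (R ⧸ Ideal.span (t '' s)) + (F.card : ℕ) := by
      rw [add_comm G.card, hFG]
      exact h1.trans (add_le_add le_rfl (by exact_mod_cast h2))
    push_cast at h3
    exact ENat.WithBot.add_le_add_natCast_right_iff.1 h3
  have hreg : IsRegularLocalRing (R ⧸ Ideal.span (t '' s)) := by
    refine IsRegularLocalRing.of_spanFinrank_maximalIdeal_le _ (le_trans ?_ hdim)
    have h1 := ufd_spanFinrank_le G (fun i => π (t i))
    rw [hmax] at h1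
    exact Nat.cast_le.2 h1
  have hdom : IsDomain (R ⧸ Ideal.span (t '' s)) := by
    refine (reg_aux G.card _ (G.toList.map fun i => π (t i)) (by simp) ?_ hdim).1
    rw [← hmax, Ideal.ofList]
    congr 1
    ext z
    simp
  refine ⟨(Ideal.Quotient.isDomain_iff_prime _).1 hdom, fun i hi h => ?_, hreg⟩
  have h1 : Ideal.span (t '' (Finset.univ.erase i : Finset (Fin n))) = maximalIdeal R := by
    refine le_antisymm (Ideal.span_le.2 (by rintro _ ⟨j, -, rfl⟩; exact hm j)) ?_
    rw [← ht]
    refine Ideal.span_le.2 ?_
    rintro _ ⟨j, rfl⟩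
    by_cases hj : j = i
    · subst hj
      refine Ideal.span_mono (Set.image_mono fun l hl => ?_) h
      have : l ≠ j := fun e => hi (e ▸ hl)
      simp [this]
    · exact Ideal.subset_span ⟨j, by simp [hj], rfl⟩
  have h2 := ringKrullDim_le_spanFinrank_maximalIdeal R
  rw [hd, ← h1] at h2
  have h3 := ufd_spanFinrank_le (Finset.univ.erase i) t
  have h4 : n ≤ (Finset.univ.erase i : Finset (Fin n)).card := le_trans (by exact_mod_cast h2) h3
  have h5 : 0 < n := i.pos
  simp at h4
  omega

/-- finite free resolutions of bounded length -/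
def ufdFFR (R : Type) [CommRing R] : ℕ → ∀ (M : Type) [AddCommGroup M] [Module R M], Prop
  | 0 => fun M _ _ => Module.Finite R M ∧ Module.Free R M
  | n + 1 => fun M _ _ => ∃ (K F : Type) (_ : AddCommGroup K) (_ : Module R K) (_ : AddCommGroup F)
      (_ : Module R F) (i : K →ₗ[R] F) (f : F →ₗ[R] M), Module.Finite R F ∧ Module.Free R F ∧
      Function.Injective i ∧ Function.Exact i f ∧ Function.Surjective f ∧ ufdFFR R n K

theorem ufd_ffr_of_reg (R : Type) [CommRing R] [IsRegularLocalRing R] {d : ℕ}
    (hd : ringKrullDim R = d) (n : ℕ) : ∀ (j : ℕ), j + n = d →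
      ∀ (M : Type) [AddCommGroup M] [Module R M] [Module.Finite R M], Dp R j M → ufdFFR R n M := by
  obtain ⟨xs, h1, h2, h3⟩ := reg_seq R hd
  have hm : ∀ r ∈ xs, r ∈ maximalIdeal R := fun r hr => h2 ▸ Ideal.subset_span hr
  have hR : Dp R d R := h1 ▸ Dp.of_reg hm h3
  induction n with
  | zero =>
    intro j hj M _ _ _ h
    refine ⟨inferInstance, free_of_reg xs h2 (Dp.reg xs hm (by rw [h1, ← hj]; exact h) R h3
      (fun a ha => ⟨1, fun t => ?_⟩) 1 (fun t => ⟨t, by simp⟩)
      fun v => ⟨LinearMap.toSpanSingleton R M v, by simp⟩)⟩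
    rw [pow_one, h2]
    exact Submodule.smul_mem_smul ha trivial
  | succ n ih =>
    intro j hj M _ _ _ h
    obtain ⟨k, f, hf⟩ := Module.Finite.exists_fin' R M
    refine ⟨LinearMap.ker f, Fin k → R, inferInstance, inferInstance, inferInstance, inferInstance,
      (LinearMap.ker f).subtype, f, inferInstance, inferInstance, Subtype.val_injective,
      f.exact_subtype_ker_map, hf, ih (j + 1) (by omega) _ ?_⟩
    exact Dp.sub (i := (LinearMap.ker f).subtype) Subtype.val_injective f.exact_subtype_ker_map hf
      ((hR.mono (by omega)).pi k) h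

theorem ufd_ffr_baseChange (R S : Type) [CommRing R] [CommRing S] [Algebra R S] [Module.Flat R S]
    (n : ℕ) : ∀ (M : Type) [AddCommGroup M] [Module R M], ufdFFR R n M → ufdFFR S n (S ⊗[R] M) := by
  induction n with
  | zero =>
    rintro M _ _ ⟨h1, h2⟩
    exact ⟨inferInstance, inferInstance⟩
  | succ n ih =>
    rintro M _ _ ⟨K, F, _, _, _, _, i, f, h1, h2, h3, h4, h5, h6⟩
    refine ⟨S ⊗[R] K, S ⊗[R] F, inferInstance, inferInstance, inferInstance, inferInstance,
      i.baseChange S, f.baseChange S, inferInstance, inferInstance, ?_, ?_, ?_, ih K h6⟩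
    · exact Module.Flat.lTensor_preserves_injective_linearMap (M := S) i h3
    · exact Module.Flat.lTensor_exact S h4
    · exact LinearMap.lTensor_surjective S h5

theorem ufd_stablyFree (S : Type) [CommRing S] (n : ℕ) :
    ∀ (M : Type) [AddCommGroup M] [Module S M] [Module.Projective S M], ufdFFR S n M →
      Module.Finite S M ∧ Module.IsStablyFree S M := by
  induction n with
  | zero =>
    rintro M _ _ _ ⟨h1, h2⟩
    exact ⟨h1, inferInstance⟩
  | succ n ih =>
    rintro M _ _ _ ⟨K, F, _, _, _, _, i, f, h1, h2, h3, h4, h5, h6⟩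
    obtain ⟨g, hg⟩ := Module.projective_lifting_property f LinearMap.id h5
    let e : F ≃ₗ[S] K × M := (h4.splitSurjectiveEquiv h3 ⟨g, hg⟩).1
    have : Module.Projective S (K × M) := Module.Projective.of_equiv e
    have : Module.Projective S K := Module.Projective.of_split (LinearMap.inl S K M)
      (LinearMap.fst S K M) (LinearMap.ext fun _ => rfl)
    obtain ⟨h7, h8⟩ := ih K h6
    obtain ⟨N, _, _, _, _, _⟩ := Module.IsStablyFree.exist_free_prod S K
    refine ⟨Module.Finite.of_surjective f h5, ?_⟩
    have : Module.Free S (M × (K × N)) := Module.Free.of_equiv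
      ((e.prodCongr (LinearEquiv.refl S N)).trans
        (((LinearEquiv.prodComm S K M).prodCongr (LinearEquiv.refl S N)).trans
          (LinearEquiv.prodAssoc S M K N)))
    exact Module.IsStablyFree.of_free_prod S M (K × N)

/-- a stably free ideal of a domain is principal -/
theorem ufd_principal (S : Type) [CommRing S] [IsDomain S] (J : Ideal S) (hJ : J ≠ ⊥)
    [Module.Finite S J] [Module.IsStablyFree S J] : J.IsPrincipal := by
  obtain ⟨N, _, _, _, _, _⟩ := Module.IsStablyFree.exist_free_prod S J
  set n := Module.finrank S N with hn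
  have hJ1 : Module.finrank S J = 1 := by
    refine le_antisymm ?_ ?_
    · simpa using Submodule.finrank_le J
    · have := Submodule.nontrivial_iff_ne_bot.2 hJ
      exact Module.finrank_pos
  have hp : Module.finrank S (J × N) = n + 1 := by
    have h1 := Submodule.finrank_quotient_add_finrank (LinearMap.ker (LinearMap.snd S J N))
    rw [((LinearMap.snd S J N).quotKerEquivOfSurjective LinearMap.snd_surjective).finrank_eq,
      LinearMap.ker_snd, LinearMap.finrank_range_of_inj LinearMap.inl_injective, hJ1] at h1
    exact h1.symm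
  let bN : Module.Basis (Fin n) S N := Module.finBasis S N
  let c : J × N →ₗ[S] (J × N) [⋀^Fin n]→ₗ[S] J :=
    { toFun := fun x => (bN.det.compLinearMap (LinearMap.snd S J N)).smulRight x.1
      map_add' := fun x y => AlternatingMap.ext fun _ => by simp
      map_smul' := fun c x => AlternatingMap.ext fun _ => by simp [smul_smul, mul_comm] }
  let a : (J × N) [⋀^Fin (n + 1)]→ₗ[S] J := AlternatingMap.alternatizeUncurryFin c
  have ha : ∀ x : J, a (Fin.cons (x, 0) fun i => (0, bN i)) = x := fun x => by
    simp [a, c, AlternatingMap.alternatizeUncurryFin_apply, Fin.sum_univ_succ,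
      Module.Basis.det_self]
  let b : Module.Basis (Fin (n + 1)) S (J × N) := Module.finBasisOfFinrankEq S _ hp
  have hb : (J.subtype.compAlternatingMap a) = (J.subtype (a b)) • b.det :=
    AlternatingMap.eq_smul_basis_det b _
  refine ⟨⟨(a b : J), le_antisymm (fun x hx => ?_) ?_⟩⟩
  · have h1 := congrArg (fun φ => φ (Fin.cons ((⟨x, hx⟩ : J), 0) fun i => (0, bN i))) hb
    simp only [LinearMap.compAlternatingMap_apply, ha, Submodule.subtype_apply,
      AlternatingMap.smul_apply, smul_eq_mul] at h1
    rw [h1]
    exact Ideal.mul_mem_right _ _ (Submodule.mem_span_singleton_self _)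
  · rw [Submodule.span_singleton_le_iff_mem]
    exact (a b).2

theorem ufd_aux (d : ℕ) : ∀ (R : Type) [CommRing R] [IsDomain R] [IsLocalRing R]
    [IsNoetherianRing R], ringKrullDim R = d →
    (∀ (P : Ideal R) [P.IsPrime], IsRegularLocalRing (Localization.AtPrime P)) →
    UniqueFactorizationMonoid R := by
  induction d using Nat.strong_induction_on with
  | _ d ih =>
  intro R _ _ _ _ hd h
  have : IsRegularRing R := isRegularRing_iff.2 h
  have hreg : IsRegularLocalRing R := IsRegularLocalRing.of_isRegularRing_of_isLocalRing R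
  obtain ⟨xs, h1, h2, -⟩ := reg_seq R hd
  rcases Nat.eq_zero_or_pos d with h0 | h0
  · subst h0
    rw [List.length_eq_zero_iff] at h1
    subst h1
    let := (isField_iff_maximalIdeal_eq.mpr (h2.symm.trans Ideal.ofList_nil)).toField
    infer_instance
  subst h1
  have ht : Ideal.span (Set.range xs.get) = maximalIdeal R := by
    rw [← h2, Ideal.ofList, Set.range_list_get]
  set x := xs.get ⟨0, h0⟩ with hx
  have hxm : x ∈ maximalIdeal R := ht ▸ Ideal.subset_span ⟨_, rfl⟩
  have hx0 : x ≠ 0 := fun e =>
    (reg_quot xs.get hd ht ∅).2.1 ⟨0, h0⟩ (fun h => h) (by rw [← hx, e]; exact zero_mem _)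
  have hxp : Prime x := by
    have := (reg_quot xs.get hd ht {⟨0, h0⟩}).1
    rw [Set.image_singleton] at this
    exact (Ideal.span_singleton_prime hx0).1 this
  rw [UniqueFactorizationMonoid.iff_localizationAway_of_prime hxp]
  set S := Localization.Away x
  have : IsDomain S := IsLocalization.Away.isDomain S hx0
  refine UniqueFactorizationMonoid.of_forall_isPrincipal_of_height_eq_one fun J _ hJ => ?_
  have hJ0 : J ≠ ⊥ := J.ne_bot_of_height_eq_one hJ
  have hproj : Module.Projective S J := by
    have : Module.FinitePresentation S J := Module.finitePresentation_of_finite S J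
    refine Module.projective_of_localization_maximal' (fun q _ => Localization.AtPrime q)
      (fun q _ => J.map (algebraMap S (Localization.AtPrime q)))
      (fun q _ => Algebra.idealMap (Localization.AtPrime q) J) fun q hq => ?_
    set T := Localization.AtPrime q
    have hT : IsLocalization.AtPrime T (q.comap (algebraMap R S)) :=
      IsLocalization.isLocalization_isLocalization_atPrime_isLocalization (Submonoid.powers x) T q
    set q' := q.comap (algebraMap R S) with hq'
    have hxq : x ∉ q' := fun hh => hq.ne_top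
      (Ideal.eq_top_of_isUnit_mem _ hh (IsLocalization.Away.algebraMap_isUnit x))
    have hlt : q' < maximalIdeal R := lt_of_le_of_ne (le_maximalIdeal (Ideal.IsPrime.ne_top inferInstance))
      fun e => hxq (e ▸ hxm)
    have hht : q'.height < xs.length := by
      have h3 := Ideal.height_strict_mono_of_isPrime_of_isPrime hlt
      have h4 := maximalIdeal_height_eq_ringKrullDim (R := R)
      rw [hd] at h4
      have h5 : (maximalIdeal R).height = xs.length := by exact_mod_cast h4
      rwa [h5] at h3
    obtain ⟨d', hd'⟩ := ENat.ne_top_iff_exists.1 (hht.trans_le le_top).ne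
    have hUT : UniqueFactorizationMonoid T := by
      refine ih d' (by rw [← hd'] at hht; exact_mod_cast hht) T ?_ fun P _ => ?_
      · rw [IsLocalization.AtPrime.ringKrullDim_eq_height q' T, ← hd']; rfl
      · have : IsLocalization.AtPrime (Localization.AtPrime P) (P.comap (algebraMap R T)) :=
          IsLocalization.isLocalization_isLocalization_atPrime_isLocalization q'.primeCompl _ P
        have := h (P.comap (algebraMap R T))
        exact IsRegularLocalRing.of_ringEquiv (IsLocalization.algEquiv
          (P.comap (algebraMap R T)).primeCompl (Localization.AtPrime (P.comap (algebraMap R T)))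
          (Localization.AtPrime P)).toRingEquiv
    have hpr : (J.map (algebraMap S T)).IsPrincipal := by
      by_cases hle : J ≤ q
      · have hdis : Disjoint (q.primeCompl : Set S) J :=
          Set.disjoint_left.2 fun a ha hb => ha (hle hb)
        have := IsLocalization.isPrime_of_isPrime_disjoint q.primeCompl T J inferInstance hdis
        refine UniqueFactorizationMonoid.isPrincipal_of_height_eq_one ?_
        rw [← IsLocalization.height_under q.primeCompl,
          IsLocalization.under_map_of_isPrime_disjoint q.primeCompl T inferInstance hdis, hJ]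
      · obtain ⟨a, ha, hb⟩ := SetLike.not_le_iff_exists.1 hle
        rw [Ideal.eq_top_of_isUnit_mem _ (Ideal.mem_map_of_mem _ ha)
          (IsLocalization.map_units T (⟨a, hb⟩ : q.primeCompl))]
        exact top_isPrincipal
    obtain ⟨g, hg⟩ := hpr
    have : Module.Free T (J.map (algebraMap S T)) := by
      rw [hg]
      by_cases hg0 : g = 0
      · rw [hg0, Submodule.span_zero_singleton]; infer_instance
      · exact Module.Free.of_equiv (LinearEquiv.toSpanNonzeroSingleton T T g hg0)
    infer_instance
  have : Module.Flat R S := IsLocalization.flat S (Submonoid.powers x)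
  set p := J.comap (algebraMap R S) with hp
  have hJp : p.map (algebraMap R S) = J := IsLocalization.map_under (Submonoid.powers x) S J
  have e : S ⊗[R] p ≃ₗ[S] J :=
    ((IsLocalizedModule.isBaseChange (Submonoid.powers x) S (Algebra.idealMap S p)).equiv).trans
      (LinearEquiv.ofEq _ _ hJp)
  have hf := ufd_ffr_baseChange R S xs.length p (ufd_ffr_of_reg R hd _ 0 (zero_add _) p Dp.zero)
  have : Module.Projective S (S ⊗[R] p) := Module.Projective.of_equiv e.symm
  obtain ⟨-, h3⟩ := ufd_stablyFree S _ _ hf
  have := Module.IsStablyFree.equiv e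
  exact ufd_principal S J hJ0

end ufd

/-- Auslander-Buchsbaum, for a ring all of whose localisations are known to be regular -/
theorem ufd_of_locally_regular (R : Type) [CommRing R] [IsDomain R] [IsLocalRing R]
    [IsNoetherianRing R]
    (h : ∀ (P : Ideal R) [P.IsPrime], IsRegularLocalRing (Localization.AtPrime P)) :
    UniqueFactorizationMonoid R := by
  obtain ⟨d, hd⟩ : ∃ d : ℕ, ringKrullDim R = d := by
    rw [← IsLocalRing.maximalIdeal_height_eq_ringKrullDim]
    obtain ⟨d, hd⟩ := ENat.ne_top_iff_exists.1
      (Ideal.height_ne_top_of_isPrime (I := IsLocalRing.maximalIdeal R))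
    exact ⟨d, by rw [← hd]; rfl⟩
  exact ufd_aux d R hd h

end

end Pool.Agent.Lib.MP_62d77c_ag
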