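import Pool.Agent.Lib.MP_62d77c_ag.ResD

/-! The Euler derivation near the origin. -/

set_option autoImplicit false

namespace Pool.Agent.Lib.MP_62d77c_ag

open Polynomial IsLocalRing

noncomputable section

variable {κ : Type} [Field κ] [Algebra (RatFunc ℚ) κ] {δ : Derivation ℤ κ κ}
  (hδ : δ (Res_i κ X) = Res_i κ X)
include hδ

theorem Res_del : ((Res_i κ X)⁻¹ • δ) (Res_i κ X) = 1 := by
  rw [Derivation.smul_apply, hδ, smul_eq_mul, inv_mul_cancel₀ (Res_i_ne X_ne_zero)]

/-- if `δ ξ` is regular at the origin then it vanishes there -/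
theorem Res_reg (ξ : RatFunc ℚ) {A c : ℚ[X]} (hc : c.coeff 0 ≠ 0)
    (h : δ (algebraMap _ κ ξ) * Res_i κ c = Res_i κ A) : A.coeff 0 = 0 := by
  have e : algebraMap _ κ ξ * Res_i κ ξ.denom = Res_i κ ξ.num := by
    rw [Res_i_apply, Res_i_apply, ← map_mul,
      (eq_div_iff (RatFunc.algebraMap_ne_zero ξ.denom_ne_zero)).1 ξ.num_div_denom.symm]
  have co := ξ.isCoprime_num_denom
  obtain ⟨n, d, hd, e2⟩ := WfDvdMonoid.max_power_factor ξ.denom_ne_zero (irreducible_X (R := ℚ))
  have e3 := congrArg δ e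
  rw [Derivation.leibniz, Res_Di δ ξ.num, Res_Di δ ξ.denom, hδ, smul_eq_mul, smul_eq_mul] at e3
  have e4 : A * ξ.denom ^ 2 + c * ξ.num * (derivative ξ.denom * X) =
      c * ξ.denom * (derivative ξ.num * X) := by
    apply Res_i_inj (κ := κ)
    simp only [map_add, map_mul, map_pow]
    rw [← h, ← e3, ← e]; ring
  have e5 : derivative ξ.denom * X = X ^ n * ((n : ℚ[X]) * d + derivative d * X) := by
    rw [e2, derivative_mul, derivative_X_pow]
    cases n with
    | zero => simp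
    | succ n => simp only [Nat.add_sub_cancel, map_natCast]; ring
  rw [e5, e2] at e4
  have e6 : A * X ^ n * d ^ 2 + c * ξ.num * ((n : ℚ[X]) * d + derivative d * X) =
      c * d * (derivative ξ.num * X) :=
    mul_left_cancel₀ (pow_ne_zero n X_ne_zero) (by linear_combination e4)
  have e7 := congrArg (eval 0) e6
  have d0 : eval 0 d ≠ 0 := fun z => hd (X_dvd_iff.2 (by rwa [coeff_zero_eq_eval_zero]))
  rw [coeff_zero_eq_eval_zero] at hc ⊢
  cases n with
  | zero => simpa [d0] using e7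
  | succ n =>
    have : eval 0 ξ.num = 0 := by
      have h1 : ((n : ℚ) + 1) ≠ 0 := by positivity
      simpa [d0, hc, h1] using e7
    exact absurd (co.isUnit_of_dvd' (X_dvd_iff.2 (by rwa [coeff_zero_eq_eval_zero]))
      (e2 ▸ (dvd_pow_self X n.succ_ne_zero).mul_right d)) not_isUnit_X

theorem Res_inv_pow (j : ℕ) : δ ((Res_i κ X)⁻¹ ^ j) = -(j : κ) * (Res_i κ X)⁻¹ ^ j := by
  have h0 : Res_i κ X ≠ 0 := Res_i_ne X_ne_zero
  induction j with
  | zero => simp
  | succ j ih =>
    rw [pow_succ, Derivation.leibniz, ih, Derivation.leibniz_inv, hδ]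
    simp only [smul_eq_mul]
    push_cast
    field_simp
    ring

/-- removing the polar part -/
theorem Res_polar (n : ℕ) (q : ℚ[X]) : ∃ (ν : RatFunc ℚ) (r : ℚ[X]), r.coeff 0 = q.coeff n ∧
    Res_i κ q / Res_i κ X ^ n = δ (algebraMap _ κ ν) + Res_i κ r := by
  have h0 : Res_i κ X ≠ 0 := Res_i_ne X_ne_zero
  have := Res_charZero κ
  induction q using Polynomial.induction_on' with
  | add p q h1 h2 =>
    obtain ⟨ν, r, a, b⟩ := h1
    obtain ⟨ν', r', a', b'⟩ := h2
    exact ⟨ν + ν', r + r', by simp [a, a'], by simp only [map_add, add_div, b, b']; ring⟩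
  | monomial i a =>
    rw [← C_mul_X_pow_eq_monomial]
    rcases lt_or_ge i n with h | h
    · obtain ⟨j, rfl⟩ := Nat.exists_eq_add_of_lt h
      refine ⟨algebraMap ℚ[X] _ (C (-a / (j + 1))) * (algebraMap ℚ[X] _ X)⁻¹ ^ (j + 1), 0,
        by rw [coeff_C_mul, coeff_X_pow, if_neg h.ne']; simp, ?_⟩
      rw [map_mul (algebraMap (RatFunc ℚ) κ), map_pow, map_inv₀, ← Res_i_apply, ← Res_i_apply,
        Res_i_C, Derivation.leibniz, Res_Dq, Res_inv_pow hδ, map_mul, map_pow, Res_i_C]
      have : ((j : κ) + 1) ≠ 0 := by exact_mod_cast j.succ_ne_zero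
      simp only [smul_eq_mul, inv_pow, map_zero]
      push_cast
      field_simp
      ring
    · obtain ⟨j, rfl⟩ := Nat.exists_eq_add_of_le h
      refine ⟨0, C a * X ^ j, ?_, ?_⟩
      · simp only [coeff_C_mul, coeff_X_pow]
        by_cases e : j = 0
        · simp [e]
        · rw [if_neg (Ne.symm e), if_neg (by omega)]
      · simp only [map_zero, map_mul, map_pow, zero_add, pow_add]
        field_simp

theorem Res_const (μ : RatFunc ℚ) {q a c : ℚ[X]} {n : ℕ} (hc : c.coeff 0 ≠ 0)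
    (h : Res_i κ q / Res_i κ X ^ n = δ (algebraMap _ κ μ) + Res_i κ a / Res_i κ c) :
    a.coeff 0 / c.coeff 0 = q.coeff n := by
  obtain ⟨ν, r, e1, e2⟩ := Res_polar hδ n q
  have c0 : Res_i κ c ≠ 0 := Res_i_ne fun e => hc (by simp [e])
  have := Res_reg hδ (μ - ν) (A := r * c - a) hc (by
    rw [map_sub, map_sub, map_sub, map_mul, eq_sub_of_add_eq h.symm, e2]
    field_simp
    ring)
  rw [coeff_sub, mul_coeff_zero, sub_eq_zero] at this
  rw [← this, e1, mul_div_cancel_right₀ _ hc]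

variable {R : Subring κ} [Algebra ℚ R] {sR : R} (k : Res_Pk X R sR)
include k

theorem Res_lt {P : ValuationSubring κ} (h : Res_Pl X P) {a : κ} (ha : a ∈ P) :
    P.valuation (δ a) < 1 := by
  have := k.loc irreducible_X h (Res_del hδ) ha
  rwa [Derivation.smul_apply, smul_eq_mul, mul_inv_cancel_left₀ (Res_i_ne X_ne_zero)] at this

theorem Res_mem {a : κ} (ha : a ∈ R) : δ a ∈ R :=
  k.mem_of_all irreducible_X fun P h =>
    (P.valuation_le_one_iff _).1 (Res_lt hδ k h (k.le irreducible_X h a ha)).le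

theorem Res_log {P : ValuationSubring κ} (h : Res_Pl X P) {w : κ} (hw : P.valuation w = 1) :
    P.valuation (δ w / w) < 1 := by
  rw [map_div₀, hw, div_one]
  exact Res_lt hδ k h ((P.valuation_le_one_iff _).1 hw.le)

theorem Res_inj {j : ℕ} (hj : j ≠ 0) (c : R) (h : ∃ r ∈ R, δ c - j * c = Res_i κ X * r) :
    c / Res_i κ X ∈ R := by
  have := Res_charZero κ
  have t0 : Res_i κ X ≠ 0 := Res_i_ne X_ne_zero
  rcases eq_or_ne c 0 with rfl | hc
  · simp
  refine k.mem_of_all irreducible_X fun P hP => ?_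
  obtain ⟨π, hp, hπ⟩ := k.unif irreducible_X hP
  obtain ⟨e, u, hu, es⟩ := k.pw irreducible_X hP hp hπ (c := sR) fun e => t0 (by rw [← k.hs, e]; rfl)
  obtain ⟨n, w, hw, ec⟩ := k.pw irreducible_X hP hp hπ hc
  rw [k.hs] at es
  have π0 : (π : κ) ≠ 0 := fun e => hp.ne_zero (Subtype.ext e)
  have u0 : u ≠ 0 := right_ne_zero_of_mul (es ▸ t0)
  have w0 : w ≠ 0 := fun e => by rw [e, map_zero] at hw; exact zero_ne_one hw
  have πP := k.le irreducible_X hP _ π.2
  by_cases hn : e ≤ n
  · obtain ⟨d, rfl⟩ := Nat.exists_eq_add_of_le hn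
    have : c / Res_i κ X = π ^ d * w * u⁻¹ := by rw [ec, es, pow_add]; field_simp
    rw [this]
    exact mul_mem (mul_mem (pow_mem πP _) ((P.valuation_le_one_iff _).1 hw.le)) (Res_inv_mem P hu)
  obtain ⟨r, hr, h⟩ := h
  have lg : ∀ (m : ℕ) (z : κ), z ≠ 0 → δ (π ^ m * z) = π ^ m * z * (m * (δ π / π) + δ z / z) := by
    intro m z hz
    rw [Derivation.leibniz, Derivation.leibniz_pow]
    cases m with
    | zero => simp [mul_div_cancel₀ _ hz]
    | succ m =>
      simp only [smul_eq_mul, nsmul_eq_mul, Nat.add_sub_cancel]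
      field_simp
      ring
  have g1 : (1 : κ) = e * (δ π / π) + δ u / u := by
    refine mul_left_cancel₀ t0 ?_
    have := lg e u u0
    rwa [← es, hδ, ← mul_one (Res_i κ X), mul_assoc, one_mul] at this
  have e0 : (e : κ) ≠ 0 := by exact_mod_cast (by omega : e ≠ 0)
  have q0 : ((n : ℚ) / e - j) ≠ 0 := by
    have h1 : (n : ℚ) / e < 1 := by
      rw [div_lt_one (by exact_mod_cast (by omega : 0 < e))]; exact_mod_cast not_le.1 hn
    have h2 : (1 : ℚ) ≤ j := by exact_mod_cast Nat.one_le_iff_ne_zero.2 hj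
    exact (sub_neg.2 (h1.trans_le h2)).ne
  have g2 : δ c - j * c =
      c * ((((n : ℚ) / e - j : ℚ) : κ) + (((-(n : ℚ) / e : ℚ) : κ) * (δ u / u) + δ w / w)) := by
    have : δ π / π = (1 - δ u / u) / e := by rw [eq_div_iff e0]; linear_combination -g1
    rw [ec, lg n w w0, this]
    push_cast
    ring
  have v1 := hP.valq q0
  have v2 := Valuation.map_add_lt _ (Res_mul_lt P (hP.rat (-(n : ℚ) / e)) (Res_log hδ k hP hu))
    (Res_log hδ k hP hw)
  have v3 := congrArg P.valuation h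
  rw [g2, map_mul, Valuation.map_add_eq_of_lt_left _ (v1 ▸ v2), v1, mul_one] at v3
  rw [← P.valuation_le_one_iff, map_div₀, v3, map_mul,
    mul_div_cancel_left₀ _ ((_root_.map_ne_zero _).2 t0)]
  exact Res_le P (k.le irreducible_X hP r hr)

/-- modulo the image of `δ` every element is regular over the origin -/
theorem Res_dec (h : κ) : ∃ g, ∃ b ∈ R, h = δ g + b := by
  have t0 : Res_i κ X ≠ 0 := Res_i_ne X_ne_zero
  have := k.fin
  have key : ∀ j : ℕ, ∀ c ∈ R, ∃ g, ∃ b ∈ R, (Res_i κ X)⁻¹ ^ j * c = δ g + b := by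
    intro j
    induction j with
    | zero => exact fun c hc => ⟨0, c, hc, by simp⟩
    | succ j ih =>
      intro c hc
      let f : R →+ R := AddMonoidHom.mk'
        (fun x => ⟨δ x - (j + 1 : ℕ) * x, sub_mem (Res_mem hδ k x.2) (mul_mem (natCast_mem R _) x.2)⟩)
        fun x y => Subtype.ext (by simp only [Subring.coe_add, map_add]; ring)
      have hf : ∀ x, (f x : κ) = δ x - (j + 1 : ℕ) * x := fun _ => rfl
      obtain ⟨c', h'⟩ := Res_onto (Ideal.span {sR}) f (fun x => by
        rw [Ideal.mem_span_singleton, Ideal.mem_span_singleton]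
        constructor
        · rintro ⟨r, hr⟩
          refine ⟨⟨_, Res_inj hδ k j.succ_ne_zero x ⟨r, r.2, ?_⟩⟩, Subtype.ext ?_⟩
          · rw [← hf, hr, Subring.coe_mul, k.hs]
          · simp only [Subring.coe_mul, k.hs]
            field_simp
        · rintro ⟨r, rfl⟩
          refine ⟨f r + r, Subtype.ext ?_⟩
          simp only [Subring.coe_mul, Subring.coe_add, hf, k.hs, Derivation.leibniz, hδ, smul_eq_mul]
          ring) ⟨c, hc⟩
      obtain ⟨r, hr⟩ := Ideal.mem_span_singleton.1 h'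
      have hr' : δ c' - (j + 1 : ℕ) * c' - c = Res_i κ X * r := by
        rw [← k.hs]; exact congrArg Subtype.val hr
      obtain ⟨g, b, hb, e⟩ := ih _ (neg_mem r.2)
      refine ⟨(Res_i κ X)⁻¹ ^ (j + 1) * c' + g, b, hb, ?_⟩
      rw [map_add, add_assoc, ← e, Derivation.leibniz, Res_inv_pow hδ]
      simp only [smul_eq_mul]
      have : (Res_i κ X)⁻¹ * Res_i κ X = 1 := inv_mul_cancel₀ t0
      linear_combination (-(Res_i κ X)⁻¹ ^ (j + 1)) * hr' - (Res_i κ X)⁻¹ ^ j * r * this
  obtain ⟨j, hj⟩ := k.frac h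
  have := key j _ hj
  rwa [inv_pow, inv_mul_cancel_left₀ (pow_ne_zero _ t0)] at this

end

end Pool.Agent.Lib.MP_62d77c_ag
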