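import Pool.Agent.Lib.MP_62d77c_ag.Defs
import Pool.Agent.Lib.MP_62d77c_ag.Alg
import Pool.Agent.Lib.MP_62d77c_ag.ResE

/-! Residues on a curve through the trace to the projective line. -/

set_option autoImplicit false

namespace Pool.Agent.Lib.MP_62d77c_ag

open Filter Polynomial Submodule

noncomputable section

variable {κ : Type} [Field κ] [Algebra (RatFunc ℚ) κ] [FiniteDimensional (RatFunc ℚ) κ]

/-- places over the origin -/
def Zer (P : ValuationSubring κ) : Prop :=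
  (∀ m : ℕ, (m : κ)⁻¹ ∈ P) ∧ (algebraMap (RatFunc ℚ) κ RatFunc.X)⁻¹ ∉ P

theorem exists_euler : ∃ δ : Derivation ℤ κ κ,
    δ (algebraMap (RatFunc ℚ) κ RatFunc.X) = algebraMap (RatFunc ℚ) κ RatFunc.X ∧
    ∀ (D : Derivation ℤ κ κ) (a : κ), D a =
      D (algebraMap (RatFunc ℚ) κ RatFunc.X) / algebraMap (RatFunc ℚ) κ RatFunc.X * δ a := by
  obtain ⟨δ, h⟩ := Res_euler κ
  exact ⟨δ, h, Res_mult h⟩

variable {δ : Derivation ℤ κ κ}
  (hδ : δ (algebraMap (RatFunc ℚ) κ RatFunc.X) = algebraMap (RatFunc ℚ) κ RatFunc.X)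
include hδ

theorem euler_trace (a : κ) : δ (algebraMap _ κ (Algebra.trace (RatFunc ℚ) κ a)) =
    algebraMap _ κ (Algebra.trace (RatFunc ℚ) κ (δ a)) := Res_trace hδ a

theorem euler_norm (a : κ) : δ (algebraMap _ κ (Algebra.norm (RatFunc ℚ) a)) =
    algebraMap _ κ (Algebra.norm (RatFunc ℚ) a * Algebra.trace (RatFunc ℚ) κ (δ a / a)) := Res_norm hδ a

/-- at a place over the irreducible polynomial `s`, the derivation `s d/dt` maps the valuation
ring into its maximal ideal -/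
theorem euler_local (P : ValuationSubring κ) (hQ : ∀ m : ℕ, (m : κ)⁻¹ ∈ P)
    (hX : algebraMap (RatFunc ℚ) κ RatFunc.X ∈ P) {s : ℚ[X]} (hs : Irreducible s)
    (hP : (algebraMap (RatFunc ℚ) κ (algebraMap ℚ[X] _ s))⁻¹ ∉ P) {a : κ} (ha : a ∈ P) :
    P.valuation (algebraMap (RatFunc ℚ) κ (algebraMap ℚ[X] _ s / RatFunc.X) * δ a) < 1 := by
  obtain ⟨R, _, sR, k⟩ := Res_pk κ hs
  rw [← Res_i_X] at hδ hX
  have := k.loc hs (Res_pl_of hQ hX hP) (Res_del hδ) ha
  rwa [Derivation.smul_apply, smul_eq_mul, ← mul_assoc, ← div_eq_mul_inv, Res_i_X, Res_i_apply,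
    ← map_div₀] at this

/-- the trace of a form regular on the torus is regular on the torus -/
theorem trace_regular {a b : κ}
    (ha : IsIntegral (Algebra.adjoin ℚ {(RatFunc.X : RatFunc ℚ), RatFunc.X⁻¹}) a)
    (hb : IsIntegral (Algebra.adjoin ℚ {(RatFunc.X : RatFunc ℚ), RatFunc.X⁻¹}) b) :
    ∃ (q : ℚ[X]) (n : ℕ), Algebra.trace (RatFunc ℚ) κ (a * δ b) =
      algebraMap ℚ[X] _ q / RatFunc.X ^ n := by
  set y := Algebra.trace (RatFunc ℚ) κ (a * δ b) with hy
  obtain ⟨n, d, hd, e⟩ := WfDvdMonoid.max_power_factor y.denom_ne_zero (irreducible_X (R := ℚ))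
  have d0 : d ≠ 0 := fun z => hd (z ▸ dvd_zero _)
  by_cases hu : IsUnit d
  · obtain ⟨d', hd'⟩ := hu.exists_right_inv
    refine ⟨y.num * d', n, ?_⟩
    have h1 : algebraMap ℚ[X] (RatFunc ℚ) d * algebraMap ℚ[X] (RatFunc ℚ) d' = 1 := by
      rw [← map_mul, hd', map_one]
    conv_lhs => rw [← y.num_div_denom, e]
    rw [map_mul, map_mul, map_pow, RatFunc.algebraMap_X, eq_inv_of_mul_eq_one_right h1]
    field_simp
  exfalso
  obtain ⟨s, hs, d1, rfl⟩ := WfDvdMonoid.exists_irreducible_factor hu d0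
  have sX : ¬ s ∣ X := fun h =>
    hd (((hs.associated_of_dvd irreducible_X h).symm.dvd).mul_right d1)
  have sn : IsCoprime s y.num :=
    (y.isCoprime_num_denom.symm.of_isCoprime_of_dvd_left (e ▸ (dvd_mul_right s d1).mul_left _))
  let E := AlgebraicClosure κ
  obtain ⟨W, w1, w2⟩ := Ideal.image_subset_nonunits_valuationSubring
    (Ideal.span {(Res_i E).rangeRestrict s}) (by
      rw [Ne, Ideal.span_singleton_eq_top]
      intro h
      obtain ⟨⟨_, c, rfl⟩, hc⟩ := h.exists_right_inv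
      refine hs.not_isUnit (IsUnit.of_mul_eq_one c (Res_i_inj (κ := E) ?_))
      rw [map_mul, map_one]
      exact congrArg Subtype.val hc)
  have hW : Res_Pl s W := ⟨fun p => w1 ⟨p, rfl⟩,
    W.mem_nonunits_iff.1 (w2 ⟨_, Ideal.mem_span_singleton_self _, rfl⟩)⟩
  have s0 : Res_i E s ≠ 0 := Res_i_ne hs.ne_zero
  have tW := hW.val (hs.coprime_iff_not_dvd.2 sX)
  have key : ∀ σ : κ →ₐ[RatFunc ℚ] E, W.valuation
      (σ ((algebraMap ℚ[X] (RatFunc ℚ) s / RatFunc.X) • (a * δ b))) < 1 := by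
    intro σ
    let P := W.comap (σ : κ →+* E)
    have mem : ∀ x, x ∈ P ↔ σ x ∈ W := fun _ => Iff.rfl
    have ci : ∀ p, σ (Res_i κ p) = Res_i E p := fun p => σ.commutes _
    have hQ : ∀ m : ℕ, (m : κ)⁻¹ ∈ P := fun m => by
      have := hW.rat (m : ℚ)⁻¹
      rw [mem, map_inv₀, map_natCast]
      rwa [Rat.cast_inv_nat] at this
    have hX : algebraMap (RatFunc ℚ) κ RatFunc.X ∈ P := by
      rw [mem, ← Res_i_X, ci]; exact hW.1 _
    have hP : (Res_i κ s)⁻¹ ∉ P := by
      rw [mem, map_inv₀, ci]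
      exact ((Res_lt_iff W).1 hW.2).resolve_left s0
    have pl := Res_pl_of hQ (Res_i_X (κ := κ) ▸ hX) hP
    have base : ∀ z : Algebra.adjoin ℚ {(RatFunc.X : RatFunc ℚ), RatFunc.X⁻¹},
        algebraMap _ κ z ∈ P := by
      rintro ⟨z, hz⟩
      change algebraMap (RatFunc ℚ) κ z ∈ P
      induction hz using Algebra.adjoin_induction with
      | mem x hx =>
        rcases hx with rfl | rfl
        · exact hX
        · rw [map_inv₀, ← Res_i_X]
          exact Res_inv_mem P (pl.val (hs.coprime_iff_not_dvd.2 sX))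
      | algebraMap q => rw [eq_ratCast, map_ratCast]; exact pl.rat q
      | add x y _ _ h1 h2 => rw [map_add]; exact add_mem h1 h2
      | mul x y _ _ h1 h2 => rw [map_mul]; exact mul_mem h1 h2
    have h1 := Res_mul_lt P (Res_int P base ha)
      (euler_local hδ P hQ hX hs hP (Res_int P base hb))
    rw [mul_left_comm, ← Algebra.smul_def, Res_lt_iff, mem, map_inv₀] at h1
    rw [Res_lt_iff]
    exact h1.imp_left fun z => by rw [z, map_zero]
  have h2 := Valuation.map_sum_lt W.valuation (s := Finset.univ) one_ne_zero fun σ _ => key σ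
  rw [← trace_eq_sum_embeddings, map_smul, ← hy, smul_eq_mul] at h2
  have h3 : Res_i E y.num = Res_i E (X * (X ^ n * d1)) *
      algebraMap (RatFunc ℚ) E (algebraMap ℚ[X] (RatFunc ℚ) s / RatFunc.X * y) := by
    rw [Res_i_apply, Res_i_apply, ← map_mul,
      ← (eq_div_iff (RatFunc.algebraMap_ne_zero y.denom_ne_zero)).1 y.num_div_denom.symm, e]
    congr 1
    have := RatFunc.X_ne_zero (K := ℚ)
    simp only [map_mul, map_pow, RatFunc.algebraMap_X]
    field_simp
  exact (Res_mul_lt W (hW.1 (X * (X ^ n * d1))) h2).ne (h3 ▸ hW.val sn)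

/-- the sum of the residues over the origin is the residue of the trace -/
theorem residue_sum (w : Fm κ 1) {q : ℚ[X]} {n : ℕ}
    (h : Algebra.trace (RatFunc ℚ) κ (w.ev fun _ => δ) = algebraMap ℚ[X] _ q / RatFunc.X ^ n) :
    ∃ ρ : ValuationSubring κ → ℚ, (∀ P, ρ P ≠ 0 → Zer P) ∧ (∀ P, Zer P → IsRes P w (ρ P)) ∧
      ∑ᶠ P, ρ P = q.coeff n := by
  classical
  obtain ⟨R, _, sR, k⟩ := Res_pk κ (irreducible_X (R := ℚ))
  have hδ' := hδ
  rw [← Res_i_X] at hδ'
  have t0 : Res_i κ X ≠ 0 := Res_i_ne X_ne_zero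
  have zp : ∀ P : ValuationSubring κ, Zer P ↔ Res_Pl X P := fun P => by
    unfold Zer
    rw [← Res_i_X]
    refine ⟨fun z => Res_pl_of z.1 ((P.mem_or_inv_mem _).resolve_right z.2) z.2, fun z =>
      ⟨fun m => ?_, ((Res_lt_iff P).1 z.2).resolve_left t0⟩⟩
    have := z.rat (m : ℚ)⁻¹
    rwa [Rat.cast_inv_nat] at this
  obtain ⟨g, b, hb, e⟩ := Res_dec hδ' k (w.ev fun _ => δ)
  obtain ⟨ε, e1, e2, e3⟩ := k.sum irreducible_X sR dvd_rfl
  refine ⟨fun P => ε P * Res_tr P b, fun P hP => (zp P).2 (e1 P fun z => hP (by simp [z])),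
    fun P hP => ?_, ?_⟩
  · have pl := (zp P).1 hP
    have := pl.char
    obtain ⟨π, hp, hπ⟩ := k.unif irreducible_X pl
    have πP := k.le irreducible_X pl _ π.2
    have bP := k.le irreducible_X pl _ hb
    have π0 : (π : κ) ≠ 0 := fun e => hp.ne_zero (Subtype.ext e)
    have v := e2 P pl π hπ
    rw [k.hs] at v
    obtain ⟨u, es⟩ : ∃ u, Res_i κ X = π ^ ε P * u :=
      ⟨Res_i κ X / π ^ ε P, (mul_div_cancel₀ _ (pow_ne_zero _ π0)).symm⟩
    have u0 : u ≠ 0 := right_ne_zero_of_mul (es ▸ t0)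
    have hu : P.valuation u = 1 := by
      rw [es, map_mul, map_pow] at v
      exact (mul_eq_left₀ (pow_ne_zero _ ((_root_.map_ne_zero _).2 π0))).1 v
    refine ⟨this, g, (ε P : P) * ⟨b, bP⟩, ⟨π, πP⟩, [(b * u⁻¹, fun _ => u)], ?_, ?_, fun D => ?_, ?_⟩
    · ext z
      rw [P.valuation_lt_one_iff, Ideal.mem_span_singleton]
      constructor
      · intro hz
        obtain ⟨z', h1, h2⟩ := k.divu irreducible_X pl hπ hz
        exact ⟨⟨z', h1⟩, Subtype.ext h2⟩
      · rintro ⟨c, rfl⟩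
        rw [mul_comm]
        exact Res_mul_lt P c.2 ((hπ π).2 dvd_rfl)
    · intro x hx
      rw [List.mem_singleton.1 hx]
      exact ⟨mul_mem bP (Res_inv_mem P hu), fun _ => (P.valuation_le_one_iff u).1 hu.le⟩
    · have m := Res_mult hδ (D 0)
      rw [← Res_i_X] at m
      have f1 : w.ev D = D 0 (Res_i κ X) / Res_i κ X * w.ev fun _ => δ := by
        unfold Fm.ev
        rw [← List.sum_map_mul_left]
        congr 2
        funext x
        simp only [Matrix.det_unique, Matrix.of_apply, Fin.default_eq_zero]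
        rw [m (x.2 0)]; ring
      have f2 : D 0 (Res_i κ X) / Res_i κ X = ε P * (D 0 π / π) + D 0 u / u := by
        rw [es, Derivation.leibniz, Derivation.leibniz_pow]
        cases ε P with
        | zero => simp
        | succ m =>
          simp only [smul_eq_mul, nsmul_eq_mul, Nat.add_sub_cancel]
          field_simp
          ring
      rw [f1, e, mul_add, ← m g, f2]
      simp only [Fm.ev, List.map_cons, List.map_nil, List.sum_cons, List.sum_nil, Matrix.det_unique,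
        Matrix.of_apply, Fin.default_eq_zero, MulMemClass.coe_mul, SubringClass.coe_natCast]
      ring
    · rw [map_mul, map_natCast, ← nsmul_eq_mul, map_nsmul, nsmul_eq_mul]
      exact congrArg _ (Res_tr_eq P ⟨b, bP⟩)
  · obtain ⟨a, c, hc, f1, f2⟩ := k.tr rfl ⟨b, hb⟩
    rw [finsum_eq_sum_of_support_subset (s := ε.support) _ fun P hP =>
      Finsupp.mem_support_iff.2 fun z => hP (by simp [z])]
    refine (e3 ⟨b, hb⟩).symm.trans (f2.trans (Res_const hδ' (Algebra.trace (RatFunc ℚ) κ g) hc ?_))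
    have := congrArg (algebraMap (RatFunc ℚ) κ) h
    rw [e, map_add, map_add, ← euler_trace hδ, f1, map_div₀, map_div₀, map_pow, ← Res_i_X] at this
    exact this.symm

end

end Pool.Agent.Lib.MP_62d77c_ag
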