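import Mathlib

/-! Derivations of algebraic extensions of the rational function field. -/

set_option autoImplicit false

namespace Pool.Agent.Lib.MP_62d77c_ag

open Polynomial

noncomputable section

section uniq
variable {κ L : Type} [Field κ] [Algebra (RatFunc ℚ) κ] [Field L]

theorem Res_charZero (κ : Type) [Field κ] [Algebra (RatFunc ℚ) κ] : CharZero κ :=
  charZero_of_injective_algebraMap (algebraMap (RatFunc ℚ) κ).injective

theorem Res_t_ne : algebraMap (RatFunc ℚ) κ RatFunc.X ≠ 0 :=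
  (_root_.map_ne_zero _).2 RatFunc.X_ne_zero

/-- a derivation along `σ` which kills `t` is zero -/
theorem Res_uniq [Algebra.IsAlgebraic (RatFunc ℚ) κ] (σ : κ →+* L) (D : κ →+ L)
    (hD : ∀ x y, D (x * y) = σ x * D y + σ y * D x)
    (h : D (algebraMap (RatFunc ℚ) κ RatFunc.X) = 0) (a : κ) : D a = 0 := by
  have := Res_charZero κ
  have h1 : D 1 = 0 := by
    have := hD 1 1
    simp only [mul_one, map_one, one_mul] at this
    exact left_eq_add.1 this
  have hc : ∀ x y : κ, y ≠ 0 → D (x * y) = 0 → D y = 0 → D x = 0 := by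
    intro x y hy e1 e2
    rw [hD, e2, mul_zero, zero_add] at e1
    exact (mul_eq_zero.1 e1).resolve_left ((_root_.map_ne_zero σ).2 hy)
  have hz : ∀ n : ℤ, D n = 0 := fun n => by
    rw [← zsmul_one, map_zsmul, h1, smul_zero]
  have hq : ∀ q : ℚ, D q = 0 := fun q => by
    refine hc _ (q.den : κ) (by exact_mod_cast q.den_ne_zero) ?_ (by simpa using hz q.den)
    have : (q : κ) * q.den = q.num := by exact_mod_cast Rat.mul_den_eq_num q
    rw [this, hz]
  have hp : ∀ p : ℚ[X], D (algebraMap (RatFunc ℚ) κ (algebraMap ℚ[X] _ p)) = 0 := by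
    intro p
    induction p using Polynomial.induction_on with
    | C q =>
      have : algebraMap (RatFunc ℚ) κ (algebraMap ℚ[X] _ (C q)) = q :=
        eq_ratCast (((algebraMap (RatFunc ℚ) κ).comp (algebraMap ℚ[X] _)).comp C) q
      rw [this, hq]
    | add p q h1 h2 => rw [map_add, map_add, map_add, h1, h2, add_zero]
    | monomial n q ih =>
      rw [pow_succ, ← mul_assoc, map_mul, map_mul, hD, ih, RatFunc.algebraMap_X, h]; simp
  have hF : ∀ x : RatFunc ℚ, D (algebraMap _ κ x) = 0 := fun x => by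
    refine hc _ (algebraMap (RatFunc ℚ) κ (algebraMap ℚ[X] _ x.denom))
      ((_root_.map_ne_zero _).2 (RatFunc.algebraMap_ne_zero x.denom_ne_zero)) ?_ (hp _)
    have : x * algebraMap ℚ[X] _ x.denom = algebraMap ℚ[X] _ x.num := by
      rw [← eq_div_iff (RatFunc.algebraMap_ne_zero x.denom_ne_zero), RatFunc.num_div_denom]
    rw [← map_mul, this, hp]
  have ha : ∀ p : (RatFunc ℚ)[X], D (aeval a p) = σ (aeval a (derivative p)) * D a := by
    intro p
    induction p using Polynomial.induction_on with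
    | C q => simp [hF]
    | add p q h1 h2 => simp only [map_add, h1, h2, add_mul]
    | monomial n q ih =>
      rw [pow_succ, ← mul_assoc, map_mul, hD, ih, derivative_mul (f := C q * X ^ n)]
      simp only [aeval_X, derivative_X, mul_one, map_add, map_mul]
      ring
  have := ha (minpoly (RatFunc ℚ) a)
  rw [minpoly.aeval, map_zero] at this
  exact (mul_eq_zero.1 this.symm).resolve_left ((_root_.map_ne_zero σ).2
    ((Algebra.IsSeparable.isSeparable (RatFunc ℚ) a).aeval_derivative_ne_zero (minpoly.aeval _ a)))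

/-- the derivation `d/dt` -/
theorem Res_exists (κ : Type) [Field κ] [Algebra (RatFunc ℚ) κ] [Algebra.IsAlgebraic (RatFunc ℚ) κ] :
    ∃ D : Derivation ℤ κ κ, D (algebraMap (RatFunc ℚ) κ RatFunc.X) = 1 := by
  have := Res_charZero κ
  let : Algebra ℚ[X] κ := ((algebraMap (RatFunc ℚ) κ).comp (algebraMap ℚ[X] _)).toAlgebra
  have : IsScalarTower ℚ[X] (RatFunc ℚ) κ := .of_algebraMap_eq' rfl
  have : IsScalarTower ℚ ℚ[X] κ := .of_algebraMap_eq' (RingHom.ext_rat _ _)
  have : Algebra.FormallyEtale ℚ[X] (RatFunc ℚ) :=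
    Algebra.FormallyEtale.of_isLocalization (nonZeroDivisors ℚ[X])
  have : Algebra.FormallyEtale (RatFunc ℚ) κ := Algebra.FormallyEtale.of_isSeparable _ _
  have : Algebra.FormallyEtale ℚ[X] κ := Algebra.FormallyEtale.comp ℚ[X] (RatFunc ℚ) κ
  let g : Ω[ℚ[X]⁄ℚ] →ₗ[ℚ[X]] κ :=
    (Algebra.linearMap ℚ[X] κ) ∘ₗ (KaehlerDifferential.polynomialEquiv ℚ).toLinearMap
  have hb := KaehlerDifferential.isBaseChange_of_formallyEtale ℚ ℚ[X] κ
  refine ⟨((hb.lift g).compDer (KaehlerDifferential.D ℚ κ)).restrictScalars ℤ, ?_⟩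
  have e : algebraMap (RatFunc ℚ) κ RatFunc.X = algebraMap ℚ[X] κ X := by
    rw [IsScalarTower.algebraMap_apply ℚ[X] (RatFunc ℚ) κ, RatFunc.algebraMap_X]
  rw [e]
  change hb.lift g (KaehlerDifferential.D ℚ κ (algebraMap ℚ[X] κ X)) = 1
  rw [← KaehlerDifferential.map_D ℚ ℚ ℚ[X] κ, hb.lift_eq]
  simp [g]

theorem Res_euler (κ : Type) [Field κ] [Algebra (RatFunc ℚ) κ] [Algebra.IsAlgebraic (RatFunc ℚ) κ] :
    ∃ δ : Derivation ℤ κ κ,
      δ (algebraMap (RatFunc ℚ) κ RatFunc.X) = algebraMap (RatFunc ℚ) κ RatFunc.X := by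
  obtain ⟨D, h⟩ := Res_exists κ
  exact ⟨algebraMap (RatFunc ℚ) κ RatFunc.X • D, by rw [Derivation.smul_apply, h, smul_eq_mul, mul_one]⟩

/-- every derivation is a multiple of the Euler derivation -/
theorem Res_mult [Algebra.IsAlgebraic (RatFunc ℚ) κ] {δ : Derivation ℤ κ κ}
    (hδ : δ (algebraMap (RatFunc ℚ) κ RatFunc.X) = algebraMap (RatFunc ℚ) κ RatFunc.X)
    (D : Derivation ℤ κ κ) (a : κ) : D a =
      D (algebraMap (RatFunc ℚ) κ RatFunc.X) / algebraMap (RatFunc ℚ) κ RatFunc.X * δ a := by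
  set c := D (algebraMap (RatFunc ℚ) κ RatFunc.X) / algebraMap (RatFunc ℚ) κ RatFunc.X with hc
  have := Res_uniq (RingHom.id κ) (D - c • δ).toLinearMap.toAddMonoidHom
    (fun x y => (D - c • δ).leibniz x y)
    (by simp [hδ, hc, div_mul_cancel₀ _ (Res_t_ne (κ := κ))]) a
  simpa [sub_eq_zero] using this

/-- Euler derivations commute with embeddings -/
theorem Res_comm [Algebra.IsAlgebraic (RatFunc ℚ) κ] [Algebra (RatFunc ℚ) L] {δ : Derivation ℤ κ κ}
    (hδ : δ (algebraMap (RatFunc ℚ) κ RatFunc.X) = algebraMap (RatFunc ℚ) κ RatFunc.X)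
    {δ' : Derivation ℤ L L}
    (hδ' : δ' (algebraMap (RatFunc ℚ) L RatFunc.X) = algebraMap (RatFunc ℚ) L RatFunc.X)
    (σ : κ →ₐ[RatFunc ℚ] L) (a : κ) : δ' (σ a) = σ (δ a) := by
  have := Res_uniq (σ : κ →+* L)
    (δ'.toLinearMap.toAddMonoidHom.comp (σ : κ →+* L).toAddMonoidHom -
      (σ : κ →+* L).toAddMonoidHom.comp δ.toLinearMap.toAddMonoidHom)
    (fun x y => by simp [Derivation.leibniz]; ring) (by simp [hδ, hδ']) a
  simpa [sub_eq_zero] using this

theorem Res_prod {ι : Type} (D : Derivation ℤ L L) (s : Finset ι) (f : ι → L)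
    (h : ∀ i ∈ s, f i ≠ 0) : D (∏ i ∈ s, f i) = (∏ i ∈ s, f i) * ∑ i ∈ s, D (f i) / f i := by
  classical
  induction s using Finset.induction_on with
  | empty => simp
  | insert a s ha ih =>
    have h1 := h a (Finset.mem_insert_self _ _)
    rw [Finset.prod_insert ha, Finset.sum_insert ha, Derivation.leibniz,
      ih fun i hi => h i (Finset.mem_insert_of_mem hi)]
    simp only [smul_eq_mul]
    field_simp
    ring

end uniq

variable {κ : Type} [Field κ] [Algebra (RatFunc ℚ) κ] [FiniteDimensional (RatFunc ℚ) κ]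
  {δ : Derivation ℤ κ κ}
  (hδ : δ (algebraMap (RatFunc ℚ) κ RatFunc.X) = algebraMap (RatFunc ℚ) κ RatFunc.X)
include hδ

theorem Res_trace (a : κ) : δ (algebraMap _ κ (Algebra.trace (RatFunc ℚ) κ a)) =
    algebraMap _ κ (Algebra.trace (RatFunc ℚ) κ (δ a)) := by
  have : Algebra.IsAlgebraic (RatFunc ℚ) (AlgebraicClosure κ) := Algebra.IsAlgebraic.trans _ κ _
  obtain ⟨δ', h'⟩ := Res_euler (AlgebraicClosure κ)
  let σ0 := IsScalarTower.toAlgHom (RatFunc ℚ) κ (AlgebraicClosure κ)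
  apply σ0.injective
  change σ0 _ = σ0 _
  rw [← Res_comm hδ h', σ0.commutes, σ0.commutes, trace_eq_sum_embeddings, trace_eq_sum_embeddings,
    map_sum]
  exact Finset.sum_congr rfl fun σ _ => Res_comm hδ h' σ a

theorem Res_norm (a : κ) : δ (algebraMap _ κ (Algebra.norm (RatFunc ℚ) a)) =
    algebraMap _ κ (Algebra.norm (RatFunc ℚ) a * Algebra.trace (RatFunc ℚ) κ (δ a / a)) := by
  rcases eq_or_ne a 0 with rfl | ha
  · simp
  have : Algebra.IsAlgebraic (RatFunc ℚ) (AlgebraicClosure κ) := Algebra.IsAlgebraic.trans _ κ _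
  obtain ⟨δ', h'⟩ := Res_euler (AlgebraicClosure κ)
  let σ0 := IsScalarTower.toAlgHom (RatFunc ℚ) κ (AlgebraicClosure κ)
  apply σ0.injective
  change σ0 _ = σ0 _
  rw [← Res_comm hδ h', σ0.commutes, σ0.commutes, map_mul, trace_eq_sum_embeddings,
    Algebra.norm_eq_prod_embeddings, Res_prod _ _ _ fun σ _ => (_root_.map_ne_zero σ).2 ha]
  congr 1
  exact Finset.sum_congr rfl fun σ _ => by rw [Res_comm hδ h' σ a, map_div₀]

end

end Pool.Agent.Lib.MP_62d77c_ag
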