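import Pool.Agent.Lib.MP_62d77c_ag.ResA

/-! The integral closure of the local ring of the line at an irreducible polynomial. -/

set_option autoImplicit false

namespace Pool.Agent.Lib.MP_62d77c_ag

open Polynomial IsLocalRing

noncomputable section

/-- polynomials in `t` -/
def Res_i (κ : Type) [Field κ] [Algebra (RatFunc ℚ) κ] : ℚ[X] →+* κ :=
  (algebraMap (RatFunc ℚ) κ).comp (algebraMap ℚ[X] _)

variable {κ : Type} [Field κ] [Algebra (RatFunc ℚ) κ]

theorem Res_i_apply (p : ℚ[X]) :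
    Res_i κ p = algebraMap (RatFunc ℚ) κ (algebraMap ℚ[X] _ p) := rfl

theorem Res_i_X : Res_i κ X = algebraMap (RatFunc ℚ) κ RatFunc.X := by
  rw [Res_i_apply, RatFunc.algebraMap_X]

theorem Res_i_C (q : ℚ) : Res_i κ (C q) = q := eq_ratCast ((Res_i κ).comp C) q

theorem Res_i_inj : Function.Injective (Res_i κ) :=
  (algebraMap (RatFunc ℚ) κ).injective.comp (RatFunc.algebraMap_injective ℚ)

theorem Res_i_ne {p : ℚ[X]} (h : p ≠ 0) : Res_i κ p ≠ 0 := (map_ne_zero_iff _ Res_i_inj).2 h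

theorem Res_Dq (D : Derivation ℤ κ κ) (q : ℚ) : D q = 0 := by
  have := Res_charZero κ
  have h : (q.den : κ) * q = q.num := by exact_mod_cast Rat.den_mul_eq_num q
  have h2 := congrArg D h
  rw [Derivation.leibniz, Derivation.map_natCast, Derivation.map_intCast, smul_zero, add_zero,
    smul_eq_mul] at h2
  exact (mul_eq_zero.1 h2).resolve_left (by exact_mod_cast q.den_ne_zero)

theorem Res_Dev (D : Derivation ℤ κ κ) (φ : ℚ →+* κ) (w : κ) (f : ℚ[X]) :
    D (eval₂ φ w f) = eval₂ φ w (derivative f) * D w := by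
  induction f using Polynomial.induction_on with
  | C q => simp [Res_Dq]
  | add p q h1 h2 => simp only [eval₂_add, map_add, h1, h2, add_mul]
  | monomial n q ih =>
    rw [pow_succ, ← mul_assoc, eval₂_mul, Derivation.leibniz, ih, derivative_mul (f := C q * X ^ n)]
    simp only [eval₂_X, derivative_X, mul_one, eval₂_add, eval₂_mul, smul_eq_mul]
    ring

theorem Res_Di (D : Derivation ℤ κ κ) (p : ℚ[X]) :
    D (Res_i κ p) = Res_i κ (derivative p) * D (Res_i κ X) := by
  have e : ∀ p, Res_i κ p = eval₂ ((Res_i κ).comp C) (Res_i κ X) p := fun p => by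
    rw [← hom_eval₂, eval₂_C_X]
  rw [e p, Res_Dev, ← e]

/-- a valuation ring contains what is integral over it -/
theorem Res_int {S : Type} [CommRing S] {L : Type} [Field L] [Algebra S L] (V : ValuationSubring L)
    (h : ∀ s, algebraMap S L s ∈ V) {a : L} (ha : IsIntegral S a) : a ∈ V := by
  have : IsIntegral V a :=
    ha.map_of_comp_eq ((algebraMap S L).codRestrict V h) (RingHom.id L) (by ext; rfl)
  obtain ⟨y, rfl⟩ := IsIntegrallyClosed.algebraMap_eq_of_integral this
  exact y.2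

/-- what is used about the integral closure -/
structure Res_Pk (s : ℚ[X]) (R : Subring κ) [Algebra ℚ R] (sR : R) : Prop where
  pid : IsPrincipalIdealRing R
  hs : (sR : κ) = Res_i κ s
  poly : ∀ p, Res_i κ p ∈ R
  inv : ∀ p, ¬ s ∣ p → (Res_i κ p)⁻¹ ∈ R
  int : ∀ P : ValuationSubring κ, (∀ p, Res_i κ p ∈ P) → (∀ p, ¬ s ∣ p → (Res_i κ p)⁻¹ ∈ P) →
    ∀ x ∈ R, x ∈ P
  frac : ∀ x, ∃ j, Res_i κ s ^ j * x ∈ R
  bd : ∀ D : Derivation ℤ κ κ, D (Res_i κ X) = 1 → ∃ j, ∀ x ∈ R, Res_i κ s ^ j * D x ∈ R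
  fin : Module.Finite ℚ (R ⧸ Ideal.span {sR})
  tr : s = X → ∀ b : R, ∃ a c : ℚ[X], c.coeff 0 ≠ 0 ∧
    Algebra.trace (RatFunc ℚ) κ b = algebraMap ℚ[X] _ a / algebraMap ℚ[X] _ c ∧
    Algebra.trace ℚ (R ⧸ Ideal.span {sR}) (Ideal.Quotient.mk _ b) = a.coeff 0 / c.coeff 0

variable [FiniteDimensional (RatFunc ℚ) κ]

theorem Res_pk0 {s : ℚ[X]} (hs : Irreducible s) [(Ideal.span {s}).IsMaximal] (O : Type) [CommRing O]
    [IsDomain O] [IsDiscreteValuationRing O] [Algebra ℚ[X] O]
    [IsLocalization.AtPrime O (Ideal.span {s})] [Algebra O (RatFunc ℚ)]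
    [IsScalarTower ℚ[X] O (RatFunc ℚ)] [IsFractionRing O (RatFunc ℚ)] [Algebra O κ]
    [IsScalarTower O (RatFunc ℚ) κ] :
    ∃ (R : Subring κ) (_ : Algebra ℚ R) (sR : R), Res_Pk s R sR := by
  let B := integralClosure O κ
  have iO : ∀ p, algebraMap O κ (algebraMap ℚ[X] O p) = Res_i κ p := fun p => by
    rw [IsScalarTower.algebraMap_apply O (RatFunc ℚ) κ,
      ← IsScalarTower.algebraMap_apply ℚ[X] O (RatFunc ℚ), Res_i_apply]
  have oB : ∀ o : O, algebraMap O κ o ∈ B := fun o => B.algebraMap_mem o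
  have poly : ∀ p, Res_i κ p ∈ B := fun p => iO p ▸ oB _
  have surj : ∀ o : O, ∃ a c : ℚ[X], ¬ s ∣ c ∧ o * algebraMap ℚ[X] O c = algebraMap ℚ[X] O a := by
    intro o
    obtain ⟨⟨a, c⟩, e⟩ := IsLocalization.surj (Ideal.span {s}).primeCompl o
    exact ⟨a, c, fun h => c.2 (Ideal.mem_span_singleton.2 h), e⟩
  have nz : ∀ c : ℚ[X], ¬ s ∣ c → Res_i κ c ≠ 0 := fun c hc =>
    Res_i_ne fun e => hc (e ▸ dvd_zero s)
  have surj' : ∀ o : O, ∃ a c : ℚ[X], ¬ s ∣ c ∧ algebraMap O κ o = Res_i κ a * (Res_i κ c)⁻¹ := by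
    intro o
    obtain ⟨a, c, hc, e⟩ := surj o
    refine ⟨a, c, hc, ?_⟩
    rw [← iO a, ← e, map_mul, iO, mul_inv_cancel_right₀ (nz c hc)]
  have inv : ∀ p, ¬ s ∣ p → (Res_i κ p)⁻¹ ∈ B := by
    intro p hp
    obtain ⟨u, hu⟩ := IsLocalization.map_units O
      (⟨p, fun h => hp (Ideal.mem_span_singleton.1 h)⟩ : (Ideal.span {s}).primeCompl)
    have : (Res_i κ p)⁻¹ = algebraMap O κ (u⁻¹ : Oˣ) := by
      refine inv_eq_of_mul_eq_one_right ?_
      rw [← iO, ← show (u : O) = algebraMap ℚ[X] O p from hu, ← map_mul]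
      simp
    exact this ▸ oB _
  have : IsDedekindDomain B := integralClosure.isDedekindDomain O (RatFunc ℚ) κ
  have : Module.Finite O B := IsIntegralClosure.finite O (RatFunc ℚ) κ B
  have : Module.IsTorsionFree O κ := .trans_faithfulSMul O (RatFunc ℚ) κ
  have : Module.Free O B := IsIntegralClosure.module_free O (RatFunc ℚ) κ B
  have : IsLocalization (Algebra.algebraMapSubmonoid B (nonZeroDivisors O)) κ :=
    IsIntegralClosure.isLocalization O (RatFunc ℚ) κ B
  let sB : B := algebraMap O B (algebraMap ℚ[X] O s)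
  have hsB : (sB : κ) = Res_i κ s := iO s
  have mO : maximalIdeal O = Ideal.span {algebraMap ℚ[X] O s} := by
    rw [← IsLocalization.AtPrime.map_eq_maximalIdeal (Ideal.span {s}) O, Ideal.map_span,
      Set.image_singleton]
  have mB : (maximalIdeal O).map (algebraMap O B) = Ideal.span {sB} := by
    rw [mO, Ideal.map_span, Set.image_singleton]
  have pid : IsPrincipalIdealRing B := by
    have h0 : Ideal.span {sB} ≠ 0 := by
      rw [Ne, Ideal.zero_eq_bot, Ideal.span_singleton_eq_bot]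
      exact fun e => Res_i_ne (κ := κ) hs.ne_zero (by rw [← hsB, e]; rfl)
    refine IsPrincipalIdealRing.of_finite_maximals
      (((Ideal.finite_factors h0).image (·.asIdeal)).subset fun M hM => ?_)
    have hM' : M.IsMaximal := hM
    have h1 : Ideal.span {sB} ≤ M := by
      rw [← mB, Ideal.map_le_iff_le_comap,
        eq_maximalIdeal (Ideal.isMaximal_comap_of_isIntegral_of_isMaximal (R := O) M)]
    exact ⟨⟨M, hM'.isPrime, fun e => h0 (le_bot_iff.1 (e ▸ h1))⟩, Ideal.dvd_iff_le.2 h1, rfl⟩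
  have frac : ∀ x, ∃ j, Res_i κ s ^ j * x ∈ B := by
    intro x
    obtain ⟨⟨b, ⟨_, o, ho, rfl⟩⟩, e⟩ :=
      IsLocalization.surj (Algebra.algebraMapSubmonoid B (nonZeroDivisors O)) x
    obtain ⟨a, c, hc, e'⟩ := surj' o
    have e1 : x * algebraMap O κ o = b := e
    have ha : a ≠ 0 := by
      rintro rfl
      rw [map_zero, zero_mul, FaithfulSMul.algebraMap_eq_zero_iff] at e'
      exact nonZeroDivisors.ne_zero ho e'
    obtain ⟨j, a0, h0, rfl⟩ := WfDvdMonoid.max_power_factor ha hs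
    refine ⟨j, ?_⟩
    have : Res_i κ s ^ j * x = b * Res_i κ c * (Res_i κ a0)⁻¹ := by
      have := nz c hc
      have := nz a0 h0
      rw [← e1, e', map_mul, map_pow]
      field_simp
    rw [this]
    exact mul_mem (mul_mem b.2 (poly c)) (inv a0 h0)
  let : Algebra ℚ O := ((algebraMap ℚ[X] O).comp C).toAlgebra
  let aB : Algebra ℚ B := ((algebraMap O B).comp (algebraMap ℚ O)).toAlgebra
  have : IsScalarTower ℚ (O ⧸ maximalIdeal O) (B ⧸ (maximalIdeal O).map (algebraMap O B)) :=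
    .of_algebraMap_eq' (RingHom.ext_rat _ _)
  have : Module.Finite ℚ (ℚ[X] ⧸ Ideal.span {s}) := by
    rw [← Ideal.span_singleton_mul_right_unit
      (isUnit_C.2 (inv_ne_zero (leadingCoeff_ne_zero.2 hs.ne_zero)).isUnit) s]
    exact (monic_mul_leadingCoeff_inv hs.ne_zero).finite_quotient
  have : Module.Finite ℚ (O ⧸ maximalIdeal O) := Module.Finite.equiv
    (IsLocalization.AtPrime.equivQuotMaximalIdeal (Ideal.span {s}) O).toRatAlgEquiv.toLinearEquiv
  have : Module.Finite ℚ (B ⧸ (maximalIdeal O).map (algebraMap O B)) :=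
    Module.Finite.trans (O ⧸ maximalIdeal O) _
  have fin : Module.Finite ℚ (B ⧸ Ideal.span {sB}) :=
    Module.Finite.equiv (Ideal.quotEquivOfEq mB).toRatAlgEquiv.toLinearEquiv
  refine ⟨B.toSubring, aB, sB, pid, hsB, poly, inv, fun P h1 h2 x hx => Res_int P (fun o => ?_) hx,
    frac, fun D hD => ?_, fin, fun e b => ?_⟩
  · obtain ⟨a, c, hc, e⟩ := surj' o
    exact e ▸ mul_mem (h1 a) (h2 c hc)
  · have dO : ∀ o : O, D (algebraMap O κ o) ∈ B := by
      intro o
      obtain ⟨a, c, hc, e⟩ := surj' o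
      rw [e, Derivation.leibniz, Derivation.leibniz_inv, Res_Di D a, Res_Di D c, hD]
      simp only [smul_eq_mul, mul_one]
      exact add_mem (mul_mem (poly _) (mul_mem (neg_mem (pow_mem (inv c hc) _)) (poly _)))
        (mul_mem (inv c hc) (poly _))
    have up : ∀ (x : κ) (j k : ℕ), j ≤ k → Res_i κ s ^ j * x ∈ B → Res_i κ s ^ k * x ∈ B := by
      intro x j k hjk h
      obtain ⟨d, rfl⟩ := Nat.exists_eq_add_of_le' hjk
      rw [pow_add, mul_assoc]
      exact mul_mem (pow_mem (poly s) _) h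
    obtain ⟨T, hT⟩ := Module.Finite.fg_top (R := O) (M := B)
    choose J hJ using frac
    refine ⟨T.sup fun g => J (D g), fun x hx => ?_⟩
    have hx' : (⟨x, hx⟩ : B) ∈ Submodule.span O (T : Set B) := hT ▸ Submodule.mem_top
    refine Submodule.span_induction
      (p := fun (y : B) _ => Res_i κ s ^ (T.sup fun g => J (D g)) * D y ∈ B)
      (fun g hg => up _ _ _ (Finset.le_sup (f := fun g : B => J (D g)) hg) (hJ _)) (by simp)
      (fun y z _ _ h1 h2 => ?_) (fun o y _ h => ?_) hx'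
    · rw [Subalgebra.coe_add, map_add, mul_add]; exact add_mem h1 h2
    · rw [Subalgebra.coe_smul, Algebra.smul_def, Derivation.leibniz, smul_eq_mul, smul_eq_mul,
        mul_add, mul_left_comm]
      exact add_mem (mul_mem (oB o) h) (mul_mem (pow_mem (poly s) _) (mul_mem y.2 (dO o)))
  · subst e
    have ev : ∀ p : ℚ[X], Ideal.Quotient.mk (maximalIdeal O) (algebraMap ℚ[X] O p) =
        algebraMap ℚ _ (p.coeff 0) := by
      intro p
      change _ = Ideal.Quotient.mk (maximalIdeal O) (algebraMap ℚ[X] O (C (p.coeff 0)))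
      rw [Ideal.Quotient.eq, ← map_sub, mO, Ideal.mem_span_singleton]
      exact map_dvd _ (X_dvd_iff.2 (by simp))
    have ev' : ∀ (o : O) (a c : ℚ[X]), ¬ X ∣ c → o * algebraMap ℚ[X] O c = algebraMap ℚ[X] O a →
        Ideal.Quotient.mk (maximalIdeal O) o = algebraMap ℚ _ (a.coeff 0 / c.coeff 0) := by
      intro o a c hc e
      have h := congrArg (Ideal.Quotient.mk (maximalIdeal O)) e
      rw [map_mul, ev, ev] at h
      rw [div_eq_mul_inv, map_mul, ← h, mul_assoc, ← map_mul,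
        mul_inv_cancel₀ (fun e => hc (X_dvd_iff.2 e)), map_one, mul_one]
    have bij : Function.Bijective (algebraMap ℚ (O ⧸ maximalIdeal O)) := by
      refine ⟨(algebraMap ℚ (O ⧸ maximalIdeal O)).injective, fun y => ?_⟩
      obtain ⟨o, rfl⟩ := Ideal.Quotient.mk_surjective y
      obtain ⟨a, c, hc, e⟩ := surj o
      exact ⟨_, (ev' o a c hc e).symm⟩
    obtain ⟨a, c, hc, e⟩ := surj (Algebra.trace O B b)
    refine ⟨a, c, fun e => hc (X_dvd_iff.2 e), ?_, ?_⟩
    · have h := Algebra.trace_localization (Rₘ := RatFunc ℚ) (Sₘ := κ) O (nonZeroDivisors O) (S := B) b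
      rw [eq_div_iff (RatFunc.algebraMap_ne_zero (x := c) fun e => hc (e ▸ dvd_zero _))]
      refine (congrArg (· * _) h).trans ?_
      rw [IsScalarTower.algebraMap_apply ℚ[X] O (RatFunc ℚ) c, ← map_mul, e,
        ← IsScalarTower.algebraMap_apply]
    · have h1 := Algebra.trace_eq_of_algEquiv (Ideal.quotEquivOfEq mB).toRatAlgEquiv
        (Ideal.Quotient.mk _ b)
      have h2 := Algebra.trace_eq_of_ringEquiv (C := B ⧸ (maximalIdeal O).map (algebraMap O B))
        (RingEquiv.ofBijective _ bij) (RingHom.ext_rat _ _) (Ideal.Quotient.mk _ b)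
      rw [Algebra.trace_quotient_mk, ev' _ a c hc e] at h2
      exact h1.trans (bij.1 h2)

theorem Res_pk (κ : Type) [Field κ] [Algebra (RatFunc ℚ) κ] [FiniteDimensional (RatFunc ℚ) κ]
    {s : ℚ[X]} (hs : Irreducible s) :
    ∃ (R : Subring κ) (_ : Algebra ℚ R) (sR : R), Res_Pk s R sR := by
  have : (Ideal.span {s}).IsMaximal := PrincipalIdealRing.isMaximal_of_irreducible hs
  let O := Localization.subalgebra.ofField (RatFunc ℚ) (Ideal.span {s}).primeCompl
    (Ideal.primeCompl_le_nonZeroDivisors _)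
  have : IsDiscreteValuationRing O :=
    IsLocalization.AtPrime.isDiscreteValuationRing_of_dedekind_domain ℚ[X]
      (P := Ideal.span {s}) (by simpa using hs.ne_zero) O
  exact Res_pk0 hs O

end

end Pool.Agent.Lib.MP_62d77c_ag
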