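import Pool.Agent.Lib.MP_62d77c_ag.ResB

/-! Places over an irreducible polynomial. -/

set_option autoImplicit false

namespace Pool.Agent.Lib.MP_62d77c_ag

open Polynomial IsLocalRing

noncomputable section

variable {κ : Type} [Field κ] [Algebra (RatFunc ℚ) κ]

/-- places over `s` -/
def Res_Pl (s : ℚ[X]) (P : ValuationSubring κ) : Prop :=
  (∀ p, Res_i κ p ∈ P) ∧ P.valuation (Res_i κ s) < 1

theorem Res_lt_iff {L : Type} [Field L] (P : ValuationSubring L) {x : L} :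
    P.valuation x < 1 ↔ x = 0 ∨ x⁻¹ ∉ P := by
  rw [← P.mem_nonunits_iff, P.mem_nonunits_iff_or]

theorem Res_inv_mem {L : Type} [Field L] (P : ValuationSubring L) {x : L} (h : P.valuation x = 1) :
    x⁻¹ ∈ P := by
  rw [← P.valuation_le_one_iff, map_inv₀, h, inv_one]

theorem Res_le {L : Type} [Field L] (P : ValuationSubring L) {x : L} (h : x ∈ P) :
    P.valuation x ≤ 1 := (P.valuation_le_one_iff x).2 h

/-- a divisor of one -/
theorem Res_one {L : Type} [Field L] (P : ValuationSubring L) {x y : L} (hx : x ∈ P) (hy : y ∈ P)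
    (h : P.valuation (x * y) = 1) : P.valuation y = 1 := by
  refine le_antisymm (Res_le P hy) ?_
  rw [← h, map_mul]
  exact mul_le_of_le_one_left' (Res_le P hx)

theorem Res_mul_lt {L : Type} [Field L] (P : ValuationSubring L) {x y : L} (hx : x ∈ P)
    (h : P.valuation y < 1) : P.valuation (x * y) < 1 := by
  rw [map_mul]
  exact (mul_le_of_le_one_left' (Res_le P hx)).trans_lt h

theorem Res_pl_of {s : ℚ[X]} {P : ValuationSubring κ} (hQ : ∀ m : ℕ, (m : κ)⁻¹ ∈ P)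
    (hX : Res_i κ X ∈ P) (hP : (Res_i κ s)⁻¹ ∉ P) : Res_Pl s P := by
  refine ⟨fun p => ?_, (Res_lt_iff P).2 (Or.inr hP)⟩
  induction p using Polynomial.induction_on with
  | C q =>
    rw [Res_i_C, Rat.cast_def, div_eq_mul_inv]
    exact mul_mem (intCast_mem P _) (hQ _)
  | add p q h1 h2 => rw [map_add]; exact add_mem h1 h2
  | monomial n q ih => rw [pow_succ, ← mul_assoc, map_mul]; exact mul_mem ih hX

theorem Res_Pl.val {s : ℚ[X]} {P : ValuationSubring κ} (h : Res_Pl s P) {p : ℚ[X]}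
    (hp : IsCoprime s p) : P.valuation (Res_i κ p) = 1 := by
  obtain ⟨a, b, e⟩ := hp
  refine Res_one P (h.1 b) (h.1 p) ?_
  have : Res_i κ b * Res_i κ p = 1 - Res_i κ a * Res_i κ s := by
    rw [← map_mul, ← map_mul, ← map_one (Res_i κ), ← map_sub, ← e]; simp
  rw [this, Valuation.map_one_sub_of_lt _ (Res_mul_lt P (h.1 a) h.2)]

theorem Res_Pl.rat {s : ℚ[X]} {P : ValuationSubring κ} (h : Res_Pl s P) (q : ℚ) : (q : κ) ∈ P :=
  Res_i_C (κ := κ) q ▸ h.1 _

theorem Res_Pl.valq {s : ℚ[X]} {P : ValuationSubring κ} (h : Res_Pl s P) {q : ℚ} (hq : q ≠ 0) :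
    P.valuation (q : κ) = 1 := by
  have := Res_charZero κ
  refine Res_one P (h.rat q⁻¹) (h.rat q) ?_
  rw [← Rat.cast_mul, inv_mul_cancel₀ hq, Rat.cast_one, map_one]

variable {s : ℚ[X]} {R : Subring κ} [Algebra ℚ R] {sR : R}

namespace Res_Pk

variable (k : Res_Pk s R sR) (hs : Irreducible s)
include k hs

theorem le {P : ValuationSubring κ} (h : Res_Pl s P) : ∀ x ∈ R, x ∈ P :=
  k.int P h.1 fun _ hp => Res_inv_mem P (h.val (hs.coprime_iff_not_dvd.2 hp))

theorem red (z : κ) : ∃ x y : R, IsCoprime x y ∧ (y : κ) ≠ 0 ∧ z * y = x := by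
  have := k.pid
  obtain ⟨j, hj⟩ := k.frac z
  have h0 : Res_i κ s ^ j ≠ 0 := pow_ne_zero _ (Res_i_ne hs.ne_zero)
  obtain ⟨x, y, c, h, e1, e2⟩ := UniqueFactorizationMonoid.exists_reduced_factors' (⟨_, hj⟩ : R)
    ⟨_, pow_mem (k.poly s) j⟩ (fun e => h0 (congrArg Subtype.val e))
  have f1 : (c : κ) * x = Res_i κ s ^ j * z := congrArg Subtype.val e1
  have f2 : (c : κ) * y = Res_i κ s ^ j := congrArg Subtype.val e2
  have hc : (c : κ) ≠ 0 := left_ne_zero_of_mul (f2 ▸ h0)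
  refine ⟨x, y, h.isCoprime, right_ne_zero_of_mul (f2 ▸ h0), mul_left_cancel₀ hc ?_⟩
  rw [f1, ← f2]; ring

theorem unit {P : ValuationSubring κ} (h : Res_Pl s P) {z : κ} (hz : z ∈ P) {x y : R}
    (c : IsCoprime x y) (e : z * y = x) : P.valuation (y : κ) = 1 := by
  obtain ⟨a, b, e'⟩ := c
  have e2 : (a : κ) * x + b * y = 1 := congrArg Subtype.val e'
  refine Res_one P (x := a * z + b) (add_mem (mul_mem (k.le hs h _ a.2) hz) (k.le hs h _ b.2))
    (k.le hs h _ y.2) ?_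
  rw [add_mul, mul_assoc, e, e2, map_one]

/-- the centre of a place is a principal prime ideal -/
theorem unif {P : ValuationSubring κ} (h : Res_Pl s P) :
    ∃ π : R, Prime π ∧ ∀ r : R, P.valuation (r : κ) < 1 ↔ π ∣ r := by
  have := k.pid
  let f : R →+* P := R.subtype.codRestrict P fun r => k.le hs h _ r.2
  obtain ⟨π, hπ⟩ := (IsPrincipalIdealRing.principal ((maximalIdeal P).comap f)).principal
  have key : ∀ r : R, P.valuation (r : κ) < 1 ↔ π ∣ r := fun r => by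
    rw [← Ideal.mem_span_singleton, ← show (maximalIdeal P).comap f = Ideal.span {π} from hπ,
      Ideal.mem_comap, P.valuation_lt_one_iff]
    rfl
  have h0 : π ≠ 0 := by
    rintro rfl
    have := (key sR).1 (k.hs ▸ h.2)
    rw [zero_dvd_iff] at this
    exact Res_i_ne (κ := κ) hs.ne_zero (by rw [← k.hs, this]; rfl)
  refine ⟨π, (Ideal.span_singleton_prime h0).1 ?_, key⟩
  rw [← show (maximalIdeal P).comap f = Ideal.span {π} from hπ]
  infer_instance

theorem divu {P : ValuationSubring κ} (h : Res_Pl s P) {π : R}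
    (hπ : ∀ r : R, P.valuation (r : κ) < 1 ↔ π ∣ r) {z : κ} (hz : P.valuation z < 1) :
    ∃ z' ∈ P, z = π * z' := by
  obtain ⟨x, y, c, y0, e⟩ := k.red hs z
  have hy := k.unit hs h ((P.valuation_le_one_iff z).1 hz.le) c e
  obtain ⟨x', rfl⟩ := (hπ x).1 (by rw [← e, map_mul, hy, mul_one]; exact hz)
  refine ⟨x' * (y : κ)⁻¹, mul_mem (k.le hs h _ x'.2) (Res_inv_mem P hy), ?_⟩
  rw [← mul_assoc, ← Subring.coe_mul, ← e, mul_inv_cancel_right₀ y0]

theorem approx {P : ValuationSubring κ} (h : Res_Pl s P) {z : κ} (hz : z ∈ P) :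
    ∃ r : R, P.valuation (z - r) < 1 := by
  have := k.pid
  obtain ⟨π, hp, hπ⟩ := k.unif hs h
  obtain ⟨x, y, c, y0, e⟩ := k.red hs z
  have hy := k.unit hs h hz c e
  obtain ⟨a, b, e'⟩ := hp.irreducible.coprime_iff_not_dvd.2 fun d => ((hπ y).2 d).ne hy
  have e2 : (a : κ) * π + b * y = 1 := congrArg Subtype.val e'
  refine ⟨x * b, ?_⟩
  have : z - (x * b : R) = z * a * π := by
    rw [Subring.coe_mul, ← e]; linear_combination (-z) * e2
  rw [this]
  exact Res_mul_lt P (mul_mem hz (k.le hs h _ a.2)) ((hπ π).2 dvd_rfl)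

theorem place {y : R} (y0 : (y : κ) ≠ 0) (hy : ¬ IsUnit y) :
    ∃ P, Res_Pl s P ∧ P.valuation (y : κ) < 1 := by
  obtain ⟨P, h1, h2⟩ := Ideal.image_subset_nonunits_valuationSubring (Ideal.span {y})
    (by rwa [Ne, Ideal.span_singleton_eq_top])
  have h3 : P.valuation (y : κ) < 1 :=
    P.mem_nonunits_iff.1 (h2 ⟨y, Ideal.mem_span_singleton_self y, rfl⟩)
  refine ⟨P, ⟨fun p => h1 (k.poly p), (Res_lt_iff P).2 (Or.inr fun h => ?_)⟩, h3⟩
  obtain ⟨j, hj⟩ := k.frac (y : κ)⁻¹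
  refine ((Res_lt_iff P).1 h3).resolve_left y0 ?_
  have := mul_mem (pow_mem h j) (h1 hj)
  rwa [inv_pow, inv_mul_cancel_left₀ (pow_ne_zero _ (Res_i_ne hs.ne_zero))] at this

theorem mem_of_all {z : κ} (h : ∀ P, Res_Pl s P → z ∈ P) : z ∈ R := by
  obtain ⟨x, y, c, y0, e⟩ := k.red hs z
  by_cases hy : IsUnit y
  · obtain ⟨u, rfl⟩ := hy
    have : z = (x * (u⁻¹ : Rˣ) : R) := by
      rw [Subring.coe_mul, ← e, mul_assoc, ← Subring.coe_mul]; simp
    exact this ▸ SetLike.coe_mem _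
  · obtain ⟨P, h1, h2⟩ := k.place hs y0 hy
    exact absurd (k.unit hs h1 (h P h1) c e) h2.ne

theorem cen {P : ValuationSubring κ} (h : Res_Pl s P) {p : R} (hp : Prime p)
    (e : P.valuation (p : κ) < 1) (r : R) : P.valuation (r : κ) < 1 ↔ p ∣ r := by
  obtain ⟨π, h1, h2⟩ := k.unif hs h
  rw [h2, (h1.associated_of_dvd hp ((h2 p).1 e)).dvd_iff_dvd_left]

theorem uniq {P P' : ValuationSubring κ} (h : Res_Pl s P) (h' : Res_Pl s P') {p : R} (hp : Prime p)
    (e : P.valuation (p : κ) < 1) (e' : P'.valuation (p : κ) < 1) : P ≤ P' := by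
  intro z hz
  obtain ⟨x, y, c, y0, f⟩ := k.red hs z
  have hy := k.unit hs h hz c f
  have hy' : P'.valuation (y : κ) = 1 := (Res_le P' (k.le hs h' _ y.2)).eq_of_not_lt fun l =>
    ((k.cen hs h hp e y).2 ((k.cen hs h' hp e' y).1 l)).ne hy
  rw [← mul_inv_cancel_right₀ y0 z, f]
  exact mul_mem (k.le hs h' _ x.2) (Res_inv_mem P' hy')

theorem pw {P : ValuationSubring κ} (h : Res_Pl s P) {π : R} (hp : Prime π)
    (hπ : ∀ r : R, P.valuation (r : κ) < 1 ↔ π ∣ r) {c : R} (hc : c ≠ 0) :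
    ∃ (n : ℕ) (w : κ), P.valuation w = 1 ∧ (c : κ) = π ^ n * w := by
  have := k.pid
  obtain ⟨n, a, h1, rfl⟩ := WfDvdMonoid.max_power_factor hc hp.irreducible
  exact ⟨n, a, (Res_le P (k.le hs h _ a.2)).eq_of_not_lt fun l => h1 ((hπ a).1 l), by simp⟩

/-- every element of the valuation ring is a simple root of a rational polynomial modulo the
maximal ideal -/
theorem sep {P : ValuationSubring κ} (h : Res_Pl s P) {w : κ} (hw : w ∈ P) :
    ∃ f : ℚ[X], P.valuation (eval₂ ((Res_i κ).comp C) w f) < 1 ∧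
      P.valuation (eval₂ ((Res_i κ).comp C) w (derivative f)) = 1 := by
  classical
  set φ := (Res_i κ).comp C with hφ
  let φP : ℚ →+* P := φ.codRestrict P fun q => h.1 _
  have evP : ∀ (z : P) (f : ℚ[X]), eval₂ φ (z : κ) f = (eval₂ φP z f : P) := fun z f =>
    (hom_eval₂ f φP P.subtype z).symm
  have mem : ∀ f : ℚ[X], eval₂ φ w f ∈ P := fun f => by
    rw [evP ⟨w, hw⟩]; exact SetLike.coe_mem _
  have ex : ∃ n, ∃ f : ℚ[X], f ≠ 0 ∧ f.natDegree = n ∧ P.valuation (eval₂ φ w f) < 1 := by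
    obtain ⟨r, hr⟩ := k.approx hs h hw
    have := k.fin
    obtain ⟨f, f1, f2⟩ := IsIntegral.of_finite ℚ (Ideal.Quotient.mk (Ideal.span {sR}) r)
    have f3 : Ideal.Quotient.mk (Ideal.span {sR}) (eval₂ (algebraMap ℚ R) r f) = 0 := by
      rw [hom_eval₂, ← f2]; rfl
    obtain ⟨c, hc⟩ := Ideal.mem_span_singleton'.1 (Ideal.Quotient.eq_zero_iff_mem.1 f3)
    have f4 : eval₂ φ (r : κ) f = c * Res_i κ s := by
      rw [← k.hs, ← Subring.coe_mul, hc, RingHom.ext_rat φ (R.subtype.comp (algebraMap ℚ R))]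
      exact (hom_eval₂ f _ R.subtype r).symm
    have rP := k.le hs h _ r.2
    have f5 : residue P (eval₂ φP ⟨r, rP⟩ f) = 0 := by
      rw [residue_eq_zero_iff, P.valuation_lt_one_iff, ← evP, f4]
      exact Res_mul_lt P (k.le hs h _ c.2) h.2
    have f6 : residue P ⟨w, hw⟩ = residue P ⟨r, rP⟩ := by
      rw [← sub_eq_zero, ← map_sub, residue_eq_zero_iff, P.valuation_lt_one_iff]
      exact hr
    refine ⟨_, f, f1.ne_zero, rfl, ?_⟩
    rw [evP ⟨w, hw⟩, ← P.valuation_lt_one_iff, ← residue_eq_zero_iff, hom_eval₂, f6, ← hom_eval₂, f5]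
  obtain ⟨f, f0, f1, f2⟩ := Nat.find_spec ex
  refine ⟨f, f2, (Res_le P (mem _)).eq_of_not_lt fun l => ?_⟩
  have d0 : f.natDegree ≠ 0 := fun e => by
    rw [eq_C_of_natDegree_eq_zero e, eval₂_C, hφ, RingHom.comp_apply, Res_i_C,
      h.valq fun e' => f0 (by rw [eq_C_of_natDegree_eq_zero e, e', map_zero])] at f2
    exact f2.ne rfl
  exact Nat.find_min ex (f1 ▸ natDegree_derivative_lt d0)
    ⟨_, fun e => d0 (derivative_eq_zero.1 e), rfl, l⟩

/-- `s d/dt` maps the valuation ring into the maximal ideal -/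
theorem loc {P : ValuationSubring κ} (h : Res_Pl s P) {D : Derivation ℤ κ κ}
    (hD : D (Res_i κ X) = 1) {a : κ} (ha : a ∈ P) : P.valuation (Res_i κ s * D a) < 1 := by
  obtain ⟨π, hp, hπ⟩ := k.unif hs h
  have s0 : Res_i κ s ≠ 0 := Res_i_ne hs.ne_zero
  obtain ⟨e, u, hu, es⟩ := k.pw hs h hp hπ (c := sR) fun e => s0 (by rw [← k.hs, e]; rfl)
  rw [k.hs] at es
  have πP := k.le hs h _ π.2
  have πl := (hπ π).2 dvd_rfl
  have uP : u ∈ P := (P.valuation_le_one_iff u).1 hu.le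
  have u0 : u ≠ 0 := right_ne_zero_of_mul (es ▸ s0)
  have π0 : (π : κ) ≠ 0 := fun e => hp.ne_zero (Subtype.ext e)
  obtain ⟨j, hj⟩ := k.bd D hD
  have cl : ∀ n : ℕ, ∀ w ∈ P, ∃ α ∈ P, ∃ β ∈ P, Res_i κ s ^ j * (D w - α * D π) = π ^ n * β := by
    intro n
    induction n with
    | zero =>
      intro w hw
      obtain ⟨x, y, c, y0, f⟩ := k.red hs w
      have hy := Res_inv_mem P (k.unit hs h hw c f)
      have f' := congrArg D f
      rw [Derivation.leibniz, smul_eq_mul, smul_eq_mul] at f'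
      refine ⟨0, zero_mem _, (Res_i κ s ^ j * D x - w * (Res_i κ s ^ j * D y)) * (y : κ)⁻¹,
        mul_mem (sub_mem (k.le hs h _ (hj _ x.2)) (mul_mem hw (k.le hs h _ (hj _ y.2)))) hy, ?_⟩
      rw [← f']
      field_simp
      ring
    | succ n ih =>
      intro w hw
      obtain ⟨f, f1, f2⟩ := k.sep hs h hw
      obtain ⟨w', hw', f3⟩ := k.divu hs h hπ f1
      obtain ⟨α, hα, β, hβ, f4⟩ := ih w' hw'
      have f5 := congrArg D f3
      rw [Res_Dev, Derivation.leibniz, smul_eq_mul, smul_eq_mul] at f5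
      set g := eval₂ ((Res_i κ).comp C) w (derivative f)
      have g0 : g ≠ 0 := fun e => by rw [e, map_zero] at f2; exact zero_ne_one f2
      refine ⟨g⁻¹ * (w' + π * α), mul_mem (Res_inv_mem P f2) (add_mem hw' (mul_mem πP hα)),
        g⁻¹ * β, mul_mem (Res_inv_mem P f2) hβ, mul_left_cancel₀ g0 ?_⟩
      have : g * g⁻¹ = 1 := mul_inv_cancel₀ g0
      linear_combination Res_i κ s ^ j * f5 + π * f4 -
        (Res_i κ s ^ j * (w' + π * α) * D π + π ^ (n + 1) * β) * this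
  have cl' : ∀ w ∈ P, ∃ α ∈ P, ∃ β ∈ P, D w = α * D π + π * β := by
    intro w hw
    obtain ⟨α, hα, β, hβ, f⟩ := cl (e * j + 1) w hw
    refine ⟨α, hα, u⁻¹ ^ j * β, mul_mem (pow_mem (Res_inv_mem P hu) _) hβ, ?_⟩
    rw [es, mul_pow, ← pow_mul, pow_succ, mul_assoc, mul_assoc, mul_right_inj' (pow_ne_zero _ π0)] at f
    rw [← sub_eq_iff_eq_add', mul_left_comm, ← f, inv_pow, inv_mul_cancel_left₀ (pow_ne_zero _ u0)]
  obtain ⟨e, rfl⟩ : ∃ e', e = e' + 1 := Nat.exists_eq_succ_of_ne_zero fun e0 => by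
    have := h.2
    rw [es, e0, pow_zero, one_mul] at this
    exact this.ne hu
  obtain ⟨α, hα, β, hβ, f⟩ := cl' u uP
  obtain ⟨α', hα', β', hβ', f'⟩ := cl' a ha
  have g1 := congrArg D es
  rw [Res_Di, hD, mul_one, Derivation.leibniz, Derivation.leibniz_pow, f] at g1
  simp only [smul_eq_mul, nsmul_eq_mul, Nat.add_sub_cancel] at g1
  have v1 : P.valuation ((((e + 1 : ℕ) : ℚ) : κ) * u + α * π) = 1 := by
    have : P.valuation ((((e + 1 : ℕ) : ℚ) : κ) * u) = 1 := by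
      rw [map_mul, h.valq (by exact_mod_cast Nat.succ_ne_zero e), hu, mul_one]
    rw [Valuation.map_add_eq_of_lt_left _ (this ▸ Res_mul_lt P hα πl), this]
  have v2 : P.valuation (Res_i κ (derivative s) + -(π ^ (e + 1) * β) * π) = 1 := by
    have := h.val hs.separable
    rw [Valuation.map_add_eq_of_lt_left _
      (this ▸ Res_mul_lt P (neg_mem (mul_mem (pow_mem πP _) hβ)) πl), this]
  have g2 : Res_i κ (derivative s) + -(π ^ (e + 1) * β) * π =
      ((((e + 1 : ℕ) : ℚ) : κ) * u + α * π) * (π ^ e * D π) := by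
    rw [g1, Rat.cast_natCast]; ring
  rw [g2, map_mul, v1, one_mul] at v2
  have g3 : Res_i κ s * D a = (u * α' * (π ^ e * D π) + u * π ^ (e + 1) * β') * π := by
    rw [es, f']; ring
  rw [g3]
  exact Res_mul_lt P (add_mem (mul_mem (mul_mem uP hα') ((P.valuation_le_one_iff _).1 v2.le))
    (mul_mem (mul_mem uP (pow_mem πP _)) hβ')) πl

end Res_Pk

end

end Pool.Agent.Lib.MP_62d77c_ag
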