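import Pool.Agent.Lib.MP_62d77c_ag.ResC

/-! The trace on the fibre over the origin as a sum over the places. -/

set_option autoImplicit false

namespace Pool.Agent.Lib.MP_62d77c_ag

open Polynomial IsLocalRing

noncomputable section

/-- the trace is additive in short exact sequences -/
theorem Res_trace_exact {U V W : Type} [AddCommGroup U] [AddCommGroup V] [AddCommGroup W]
    [Module ℚ U] [Module ℚ V] [Module ℚ W] [Module.Finite ℚ U] [Module.Finite ℚ V]
    [Module.Finite ℚ W] (i : U →ₗ[ℚ] V) (p : V →ₗ[ℚ] W) (hi : Function.Injective i)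
    (hp : Function.Surjective p) (e : ∀ v, p v = 0 ↔ ∃ u, i u = v) (f : U →ₗ[ℚ] U)
    (g : V →ₗ[ℚ] V) (h : W →ₗ[ℚ] W) (h1 : g ∘ₗ i = i ∘ₗ f) (h2 : p ∘ₗ g = h ∘ₗ p) :
    LinearMap.trace ℚ V g = LinearMap.trace ℚ U f + LinearMap.trace ℚ W h := by
  obtain ⟨r, hr⟩ := i.exists_leftInverse_of_injective (LinearMap.ker_eq_bot.2 hi)
  obtain ⟨σ, hσ⟩ := p.exists_rightInverse_of_surjective (LinearMap.range_eq_top.2 hp)
  have hr' : ∀ u, r (i u) = u := fun u => LinearMap.congr_fun hr u
  have hσ' : ∀ w, p (σ w) = w := fun w => LinearMap.congr_fun hσ w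
  let ρ : V →ₗ[ℚ] U := r ∘ₗ (LinearMap.id - σ ∘ₗ p)
  have a1 : g = i ∘ₗ (f ∘ₗ ρ) + (g ∘ₗ σ) ∘ₗ p := by
    ext v
    obtain ⟨u, hu⟩ := (e (v - σ (p v))).1 (by simp [hσ'])
    have : i (f u) = g (i u) := (LinearMap.congr_fun h1 u).symm
    simp only [ρ, LinearMap.add_apply, LinearMap.comp_apply, LinearMap.sub_apply, LinearMap.id_apply,
      ← hu, hr', this]
    rw [hu, map_sub, sub_add_cancel]
  have a2 : (f ∘ₗ ρ) ∘ₗ i = f := by
    ext u
    have : p (i u) = 0 := (e _).2 ⟨u, rfl⟩
    simp [ρ, this, hr']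
  have a3 : p ∘ₗ (g ∘ₗ σ) = h := by rw [← LinearMap.comp_assoc, h2, LinearMap.comp_assoc, hσ]; rfl
  conv_lhs => rw [a1]
  rw [map_add, ← LinearMap.trace_comp_comm', a2, LinearMap.trace_comp_comm', a3]

theorem Res_fin_dvd {B : Type} [CommRing B] [Algebra ℚ B] {x y : B} (h : x ∣ y)
    [Module.Finite ℚ (B ⧸ Ideal.span {y})] : Module.Finite ℚ (B ⧸ Ideal.span {x}) :=
  Module.Finite.of_surjective
    (Ideal.Quotient.factor (Ideal.span_singleton_le_span_singleton.2 h)).toRatAlgHom.toLinearMap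
    (Ideal.Quotient.factor_surjective (Ideal.span_singleton_le_span_singleton.2 h))

theorem Res_trace_mul {B : Type} [CommRing B] [IsDomain B] [Algebra ℚ B] {p x : B} (hp : p ≠ 0)
    [Module.Finite ℚ (B ⧸ Ideal.span {p * x})] (b : B) :
    Algebra.trace ℚ (B ⧸ Ideal.span {p * x}) (Ideal.Quotient.mk _ b) =
      Algebra.trace ℚ (B ⧸ Ideal.span {x}) (Ideal.Quotient.mk _ b) +
        Algebra.trace ℚ (B ⧸ Ideal.span {p}) (Ideal.Quotient.mk _ b) := by
  have := Res_fin_dvd (dvd_mul_left x p)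
  have := Res_fin_dvd (dvd_mul_right p x)
  let i : (B ⧸ Ideal.span {x}) →ₗ[B] (B ⧸ Ideal.span {p * x}) :=
    Submodule.mapQ _ _ (LinearMap.mulLeft B p) fun y hy =>
      Ideal.mem_span_singleton.2 (mul_dvd_mul_left p (Ideal.mem_span_singleton.1 hy))
  have hi : ∀ y, i (Ideal.Quotient.mk _ y) = Ideal.Quotient.mk _ (p * y) := fun _ => rfl
  let q := Ideal.Quotient.factor (Ideal.span_singleton_le_span_singleton.2 (dvd_mul_right p x))
  have hq : ∀ y, q (Ideal.Quotient.mk _ y) = Ideal.Quotient.mk _ y := fun _ => rfl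
  simp only [Algebra.trace_apply]
  refine Res_trace_exact (i.restrictScalars ℚ) q.toRatAlgHom.toLinearMap ?_
    (Ideal.Quotient.factor_surjective (Ideal.span_singleton_le_span_singleton.2 (dvd_mul_right p x)))
    (fun v => ?_) _ _ _ ?_ ?_
  · refine (injective_iff_map_eq_zero i).2 fun y hy => ?_
    obtain ⟨y, rfl⟩ := Ideal.Quotient.mk_surjective y
    rw [hi, Ideal.Quotient.eq_zero_iff_mem, Ideal.mem_span_singleton, mul_dvd_mul_iff_left hp] at hy
    exact Ideal.Quotient.eq_zero_iff_mem.2 (Ideal.mem_span_singleton.2 hy)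
  · obtain ⟨v, rfl⟩ := Ideal.Quotient.mk_surjective v
    change q (Ideal.Quotient.mk _ v) = 0 ↔ ∃ u, i u = Ideal.Quotient.mk _ v
    rw [hq, Ideal.Quotient.eq_zero_iff_mem, Ideal.mem_span_singleton]
    constructor
    · rintro ⟨c, rfl⟩
      exact ⟨_, hi c⟩
    · rintro ⟨u, hu⟩
      obtain ⟨u, rfl⟩ := Ideal.Quotient.mk_surjective u
      rw [hi, Ideal.Quotient.eq, Ideal.mem_span_singleton] at hu
      exact (dvd_sub_right (dvd_mul_right p u)).1 ((dvd_mul_right p x).trans hu)
  · refine LinearMap.ext fun u => ?_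
    obtain ⟨u, rfl⟩ := Ideal.Quotient.mk_surjective u
    change Ideal.Quotient.mk _ b * i (Ideal.Quotient.mk _ u) =
      i (Ideal.Quotient.mk _ b * Ideal.Quotient.mk _ u)
    rw [← map_mul, hi, hi, ← map_mul, mul_left_comm]
  · refine LinearMap.ext fun u => ?_
    exact map_mul q _ u

variable {κ : Type} [Field κ] [Algebra (RatFunc ℚ) κ]

open Classical in
/-- trace of the value at a place -/
def Res_tr (P : ValuationSubring κ) (b : κ) : ℚ :=
  if h : CharZero (ResidueField P) ∧ b ∈ P then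
    haveI := h.1; Algebra.trace ℚ (ResidueField P) (residue P ⟨b, h.2⟩) else 0

omit [Algebra (RatFunc ℚ) κ] in
theorem Res_tr_eq (P : ValuationSubring κ) [c : CharZero (ResidueField P)] (b : P) :
    Res_tr P b = Algebra.trace ℚ (ResidueField P) (residue P b) := dif_pos ⟨c, b.2⟩

theorem Res_Pl.char {s : ℚ[X]} {P : ValuationSubring κ} (h : Res_Pl s P) :
    CharZero (ResidueField P) :=
  ((residue P).comp (((Res_i κ).comp C).codRestrict P fun _ => h.1 _)).charZero_iff
    (RingHom.injective _) |>.1 inferInstance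

variable {s : ℚ[X]} {R : Subring κ} [Algebra ℚ R] {sR : R}

namespace Res_Pk

variable (k : Res_Pk s R sR) (hs : Irreducible s)
include k hs

theorem tr_prime {P : ValuationSubring κ} (h : Res_Pl s P) {p : R} (hp : Prime p)
    (e : P.valuation (p : κ) < 1) (b : R) :
    Algebra.trace ℚ (R ⧸ Ideal.span {p}) (Ideal.Quotient.mk _ b) = Res_tr P b := by
  have := h.char
  let f : R →+* P := R.subtype.codRestrict P fun r => k.le hs h _ r.2
  have hk : Ideal.span {p} = RingHom.ker ((residue P).comp f) := by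
    ext r
    rw [Ideal.mem_span_singleton, ← k.cen hs h hp e, RingHom.mem_ker, RingHom.comp_apply,
      residue_eq_zero_iff, P.valuation_lt_one_iff]
    rfl
  have sj : Function.Surjective ((residue P).comp f) := fun y => by
    obtain ⟨z, rfl⟩ := residue_surjective y
    obtain ⟨r, hr⟩ := k.approx hs h z.2
    refine ⟨r, ?_⟩
    rw [RingHom.comp_apply, eq_comm, ← sub_eq_zero, ← map_sub, residue_eq_zero_iff,
      P.valuation_lt_one_iff]
    exact hr
  rw [← Algebra.trace_eq_of_algEquiv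
    ((Ideal.quotEquivOfEq hk).trans (RingHom.quotientKerEquivOfSurjective sj)).toRatAlgEquiv]
  exact (Res_tr_eq P (f b)).symm

theorem sum (x : R) : x ∣ sR → ∃ e : ValuationSubring κ →₀ ℕ, (∀ P, e P ≠ 0 → Res_Pl s P) ∧
    (∀ P, Res_Pl s P → ∀ π : R, (∀ r : R, P.valuation (r : κ) < 1 ↔ π ∣ r) →
      P.valuation (x : κ) = P.valuation (π : κ) ^ e P) ∧
    ∀ b : R, Algebra.trace ℚ (R ⧸ Ideal.span {x}) (Ideal.Quotient.mk _ b) =
      e.sum fun P n => n * Res_tr P b := by
  classical
  have := k.pid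
  have := k.fin
  induction x using UniqueFactorizationMonoid.induction_on_prime with
  | h₁ =>
    intro h
    rw [zero_dvd_iff] at h
    exact absurd (by rw [← k.hs, h]; rfl) (Res_i_ne (κ := κ) hs.ne_zero)
  | h₂ x hx =>
    refine fun _ => ⟨0, by simp, fun P h π _ => ?_, fun b => ?_⟩
    · obtain ⟨y, hy⟩ := hx.exists_left_inv
      have : (y : κ) * x = 1 := congrArg Subtype.val hy
      simpa using Res_one P (k.le hs h _ y.2) (k.le hs h _ x.2) (by rw [this, map_one])
    · rw [Ideal.Quotient.eq_zero_iff_mem.2 (Ideal.mem_span_singleton.2 hx.dvd)]; simp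
  | h₃ x p hx hp ih =>
    intro h
    obtain ⟨e, e1, e2, e3⟩ := ih ((dvd_mul_left x p).trans h)
    obtain ⟨P0, p1, p2⟩ := k.place hs (y := p) (fun e => hp.ne_zero (Subtype.ext e)) hp.not_isUnit
    refine ⟨e + Finsupp.single P0 1, fun P hP => ?_, fun P hP π hπ => ?_, fun b => ?_⟩
    · by_cases c : P = P0
      · exact c ▸ p1
      · exact e1 P (by simpa [Finsupp.single_apply, Ne.symm c] using hP)
    · rw [Subring.coe_mul, map_mul, e2 P hP π hπ, Finsupp.add_apply, pow_add, mul_comm]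
      congr 1
      by_cases c : P = P0
      · subst c
        rw [Finsupp.single_eq_same, pow_one]
        obtain ⟨a, ha⟩ := (hπ p).1 p2
        obtain ⟨a', ha'⟩ := (k.cen hs hP hp p2 π).1 ((hπ π).2 dvd_rfl)
        refine le_antisymm ?_ ?_
        · conv_lhs => rw [ha, Subring.coe_mul, map_mul]
          exact mul_le_of_le_one_right' (Res_le P (k.le hs hP _ a.2))
        · conv_lhs => rw [ha', Subring.coe_mul, map_mul]
          exact mul_le_of_le_one_right' (Res_le P (k.le hs hP _ a'.2))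
      · rw [Finsupp.single_eq_of_ne c, pow_zero]
        exact (Res_le P (k.le hs hP _ p.2)).eq_of_not_lt fun l =>
          c (le_antisymm (k.uniq hs hP p1 hp l p2) (k.uniq hs p1 hP hp p2 l))
    · have := Res_fin_dvd h
      rw [Res_trace_mul hp.ne_zero, e3, k.tr_prime hs p1 hp p2,
        Finsupp.sum_add_index' (by simp) (by intros; push_cast; ring), Finsupp.sum_single_index (by simp)]
      simp

end Res_Pk

/-- an injective map on a finite dimensional quotient is onto -/
theorem Res_onto {B : Type} [CommRing B] [Algebra ℚ B] (I : Ideal B) [Module.Finite ℚ (B ⧸ I)]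
    (f : B →+ B) (h : ∀ c, f c ∈ I ↔ c ∈ I) (c : B) : ∃ c', f c' - c ∈ I := by
  have := Module.Finite.equiv (Submodule.Quotient.restrictScalarsEquiv ℚ I).symm
  let g := Submodule.mapQ (I.restrictScalars ℚ) (I.restrictScalars ℚ) f.toRatLinearMap
    fun c hc => (h c).2 hc
  have hg : Function.Injective g := (injective_iff_map_eq_zero g).2 fun y hy => by
    obtain ⟨y, rfl⟩ := Submodule.Quotient.mk_surjective _ y
    exact (Submodule.Quotient.mk_eq_zero _).2 ((h y).1 ((Submodule.Quotient.mk_eq_zero _).1 hy))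
  obtain ⟨y, hy⟩ := LinearMap.injective_iff_surjective.1 hg (Submodule.Quotient.mk c)
  obtain ⟨y, rfl⟩ := Submodule.Quotient.mk_surjective _ y
  exact ⟨y, (Submodule.Quotient.eq _).1 hy⟩

end

end Pool.Agent.Lib.MP_62d77c_ag
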