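import Pool.Agent.Lib.MP_62d77c_ag.Noeth

/-! Elementary facts on the Čech differential. -/

set_option autoImplicit false

namespace Pool.Agent.Lib.MP_62d77c_ag

open Filter Polynomial Submodule

noncomputable section

variable {O K E E' ι : Type} [CommRing O] [CommRing K] [Algebra O K] [AddCommGroup E] [Module K E]
  [Module O E] [IsScalarTower O K E] [AddCommGroup E'] [Module O E'] [Fintype ι] [LinearOrder ι]

omit [Fintype ι] in
theorem serre_sg_erase {σ : Finset ι} {a : ι} (ha : a ∈ σ) (b : ι) :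
    (-1 : ℤ) ^ ((σ.erase a).filter (· < b)).card =
      (if a < b then -1 else 1) * (-1 : ℤ) ^ (σ.filter (· < b)).card := by
  rw [Finset.filter_erase]
  split_ifs with h
  · have hm : a ∈ σ.filter (· < b) := Finset.mem_filter.2 ⟨ha, h⟩
    rw [← Finset.card_erase_add_one hm, pow_succ]; ring
  · rw [Finset.erase_eq_of_notMem (by simp [h]), one_mul]

omit [Fintype ι] in
theorem serre_sg_insert {σ : Finset ι} {a : ι} (ha : a ∉ σ) (b : ι) :
    (-1 : ℤ) ^ ((insert a σ).filter (· < b)).card =
      (if a < b then -1 else 1) * (-1 : ℤ) ^ (σ.filter (· < b)).card := by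
  rw [Finset.filter_insert]
  split_ifs with h
  · rw [Finset.card_insert_of_notMem (by simp [ha]), pow_succ]; ring
  · rw [one_mul]

theorem serre_sg_sq (n : ℕ) : (-1 : ℤ) ^ n * (-1 : ℤ) ^ n = 1 := by
  rw [← mul_pow]; simp

theorem dC_apply (c : Finset ι → E') (σ : Finset ι) :
    dC O E' c σ = ∑ a ∈ σ, ((-1 : ℤ) ^ (σ.filter (· < a)).card) • c (σ.erase a) := by
  simp [dC, LinearMap.sum_apply]

theorem dC_dC (c : Finset ι → E') : dC O E' (dC O E' c) = 0 := by
  funext σ
  rw [dC_apply, Pi.zero_apply]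
  set f : ι → ι → E' := fun a b => ((-1 : ℤ) ^ (σ.filter (· < a)).card *
    (-1 : ℤ) ^ (σ.filter (· < b)).card) • c ((σ.erase a).erase b) with hf
  have hsym : ∀ a b, f a b = f b a := fun a b => by
    simp only [hf]; rw [mul_comm, Finset.erase_right_comm]
  have h1 : ∀ a ∈ σ, ((-1 : ℤ) ^ (σ.filter (· < a)).card) • dC O E' c (σ.erase a) =
      ∑ b ∈ σ, (if b < a then f a b else 0) - ∑ b ∈ σ, (if a < b then f a b else 0) := by
    intro a ha
    rw [dC_apply, Finset.smul_sum, ← Finset.sum_sub_distrib, ← Finset.sum_erase_add σ _ ha]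
    simp only [lt_irrefl, if_false, sub_zero, add_zero]
    refine Finset.sum_congr rfl fun b hb => ?_
    have hba : b ≠ a := (Finset.mem_erase.1 hb).1
    rw [serre_sg_erase ha, smul_smul]
    rcases lt_or_gt_of_ne hba with h | h
    · simp [h, h.not_gt, hf]
    · simp [h, h.not_gt, hf]
  rw [Finset.sum_congr rfl h1, Finset.sum_sub_distrib, Finset.sum_comm, sub_eq_zero]
  refine Finset.sum_congr rfl fun a _ => Finset.sum_congr rfl fun b _ => ?_
  rw [hsym]

omit [Fintype ι] [LinearOrder ι] in
theorem mem_Coch {C : Finset ι → Submodule O E'} {q : ℕ} {c : Finset ι → E'} :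
    c ∈ Coch C q ↔ ∀ σ, (σ.card = q ∧ q ≠ 0 → c σ ∈ C σ) ∧ (¬(σ.card = q ∧ q ≠ 0) → c σ = 0) := by
  simp only [Coch, Submodule.mem_pi, Set.mem_univ, true_imp_iff]
  refine forall_congr' fun σ => ?_
  split_ifs with h <;> simp [h]

theorem dC_mem {C : Finset ι → Submodule O E'} (hC : ∀ σ τ, σ.Nonempty → σ ⊆ τ → C σ ≤ C τ) {q : ℕ}
    {c : Finset ι → E'} (h : c ∈ Coch C q) : dC O E' c ∈ Coch C (q + 1) := by
  rw [mem_Coch] at h ⊢
  intro σ
  rw [dC_apply]
  refine ⟨fun hσ => sum_mem fun a ha => ?_, fun hσ => Finset.sum_eq_zero fun a ha => ?_⟩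
  · refine zsmul_mem ?_ _
    by_cases hq : (σ.erase a).card = q ∧ q ≠ 0
    · refine hC _ _ ?_ (Finset.erase_subset a σ) ((h _).1 hq)
      rw [← Finset.card_pos]; omega
    · rw [(h _).2 hq]; exact zero_mem _
  · have := Finset.card_erase_add_one ha
    rw [(h _).2 (by omega), smul_zero]

theorem dC_two (c : Finset ι → E') {i j : ι} (h : i < j) : dC O E' c {i, j} = c {j} - c {i} := by
  rw [dC_apply, Finset.sum_pair h.ne]
  have e1 : ({i, j} : Finset ι).erase i = {j} := by
    ext x; simp only [Finset.mem_erase, Finset.mem_insert, Finset.mem_singleton]; grind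
  have e2 : ({i, j} : Finset ι).erase j = {i} := by
    ext x; simp only [Finset.mem_erase, Finset.mem_insert, Finset.mem_singleton]; grind
  rw [e1, e2]
  simp [Finset.filter_insert, Finset.filter_singleton, h, h.not_gt, sub_eq_add_neg]

theorem dC_three (c : Finset ι → E') {i j l : ι} (h : i < j) (h' : j < l) :
    dC O E' c {i, j, l} = c {j, l} - c {i, l} + c {i, j} := by
  have h2 := h.trans h'
  rw [dC_apply, Finset.sum_insert (by simp [h.ne, h2.ne]), Finset.sum_pair h'.ne]
  have e1 : ({i, j, l} : Finset ι).erase i = {j, l} := by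
    ext x; simp only [Finset.mem_erase, Finset.mem_insert, Finset.mem_singleton]; grind
  have e2 : ({i, j, l} : Finset ι).erase j = {i, l} := by
    ext x; simp only [Finset.mem_erase, Finset.mem_insert, Finset.mem_singleton]; grind
  have e3 : ({i, j, l} : Finset ι).erase l = {i, j} := by
    ext x; simp only [Finset.mem_erase, Finset.mem_insert, Finset.mem_singleton]; grind
  rw [e1, e2, e3]
  simp [Finset.filter_insert, Finset.filter_singleton, h, h.not_gt, h', h'.not_gt, h2, h2.not_gt,
    h.ne, sub_eq_add_neg, add_assoc]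

theorem dC_four (c : Finset ι → E') {i j l m : ι} (h : i < j) (h' : j < l) (h'' : l < m) :
    dC O E' c {i, j, l, m} = c {j, l, m} - c {i, l, m} + c {i, j, m} - c {i, j, l} := by
  have h2 := h.trans h'
  have h3 := h2.trans h''
  have h4 := h'.trans h''
  rw [dC_apply, Finset.sum_insert (by simp [h.ne, h2.ne, h3.ne]),
    Finset.sum_insert (by simp [h'.ne, h4.ne]), Finset.sum_pair h''.ne]
  have e1 : ({i, j, l, m} : Finset ι).erase i = {j, l, m} := by
    ext x; simp only [Finset.mem_erase, Finset.mem_insert, Finset.mem_singleton]; grind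
  have e2 : ({i, j, l, m} : Finset ι).erase j = {i, l, m} := by
    ext x; simp only [Finset.mem_erase, Finset.mem_insert, Finset.mem_singleton]; grind
  have e3 : ({i, j, l, m} : Finset ι).erase l = {i, j, m} := by
    ext x; simp only [Finset.mem_erase, Finset.mem_insert, Finset.mem_singleton]; grind
  have e4 : ({i, j, l, m} : Finset ι).erase m = {i, j, l} := by
    ext x; simp only [Finset.mem_erase, Finset.mem_insert, Finset.mem_singleton]; grind
  rw [e1, e2, e3, e4]
  have c3 : ({i, j, l} : Finset ι).card = 3 := by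
    rw [Finset.card_insert_of_notMem (by simp [h.ne, h2.ne]), Finset.card_pair h'.ne]
  simp [Finset.filter_insert, Finset.filter_singleton, h, h.not_gt, h', h'.not_gt, h2, h2.not_gt,
    h'', h''.not_gt, h3, h3.not_gt, h4, h4.not_gt, h.ne, c3, sub_eq_add_neg, add_assoc,
    Odd.neg_one_pow (show Odd 3 by decide)]

/-- the contracting homotopy attached to an index -/
def serreH (a : ι) (c : Finset ι → E') : Finset ι → E' := fun τ =>
  if a ∈ τ then 0 else ((-1 : ℤ) ^ (τ.filter (· < a)).card) • c (insert a τ)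

theorem serreH_spec (a : ι) (c : Finset ι → E') :
    dC O E' (serreH a c) + serreH a (dC O E' c) = c := by
  funext σ
  rw [Pi.add_apply, dC_apply]
  by_cases ha : a ∈ σ
  · have h0 : serreH a (dC O E' c) σ = 0 := by simp [serreH, ha]
    rw [h0, add_zero, Finset.sum_eq_single_of_mem a ha]
    · simp only [serreH, Finset.notMem_erase, if_false]
      rw [serre_sg_erase ha, Finset.insert_erase ha, smul_smul]
      simp [serre_sg_sq]
    · intro b _ hba
      have : a ∈ σ.erase b := Finset.mem_erase.2 ⟨hba.symm, ha⟩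
      simp [serreH, this]
  · have h0 : serreH a (dC O E' c) σ =
        ((-1 : ℤ) ^ (σ.filter (· < a)).card) • dC O E' c (insert a σ) := by simp [serreH, ha]
    rw [h0, dC_apply, Finset.sum_insert ha, smul_add, Finset.erase_insert ha, smul_smul,
      serre_sg_insert ha, Finset.smul_sum, add_left_comm, ← Finset.sum_add_distrib]
    simp only [lt_irrefl, if_false, one_mul, serre_sg_sq, one_smul, add_eq_left]
    refine Finset.sum_eq_zero fun b hb => ?_
    have hba : b ≠ a := fun e => ha (e ▸ hb)
    have hn : a ∉ σ.erase b := fun e => ha (Finset.mem_of_mem_erase e)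
    simp only [serreH, hn, if_false]
    rw [serre_sg_erase hb, serre_sg_insert ha, Finset.erase_insert_of_ne hba.symm, smul_smul,
      smul_smul, ← add_smul]
    rcases lt_or_gt_of_ne hba with h | h
    · simp [h, h.not_gt, mul_comm]
    · simp [h, h.not_gt, mul_comm]

theorem serre_dC_comp {E'' : Type} [AddCommGroup E''] [Module O E''] (f : E' →ₗ[O] E'')
    (c : Finset ι → E') : dC O E'' (f ∘ c) = f ∘ dC O E' c := by
  funext σ
  simp [dC_apply, map_sum]

/-- a complex that splits into contractible pieces and a finite rest -/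
theorem serre_split (C : Finset ι → Submodule O E') (P : ι → E' →ₗ[O] E') (S : Submodule O E')
    (hS : S.FG) (h1 : ∀ σ a, a ∉ σ → ∀ v ∈ C (insert a σ),
      (σ.Nonempty → P a v ∈ C σ) ∧ (σ = ∅ → P a v = 0))
    (h2 : ∀ σ, σ.Nonempty → ∀ v ∈ C σ, v - ∑ a, P a v ∈ S) (q : ℕ) :
    FinMod ((Coch C q).map (dC O E')) (Coch C (q + 1) ⊓ LinearMap.ker (dC O E')) := by
  refine ⟨Submodule.pi Set.univ fun _ => S, Submodule.fg_pi fun _ => hS, ?_⟩
  rintro z ⟨hz, hd⟩
  have hz' := mem_Coch.1 hz
  have hd' : dC O E' z = 0 := hd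
  have key : ∀ a, dC O E' (serreH a (P a ∘ z)) = P a ∘ z := fun a => by
    have := serreH_spec (O := O) a (P a ∘ z)
    rw [serre_dC_comp, hd'] at this
    have h0 : serreH a (P a ∘ (0 : Finset ι → E')) = 0 := by
      funext τ; simp [serreH]
    rwa [h0, add_zero] at this
  have hm : ∀ a, serreH a (P a ∘ z) ∈ Coch C q := fun a => by
    rw [mem_Coch]
    intro τ
    by_cases ha : a ∈ τ
    · simp [serreH, ha]
    have hc := Finset.card_insert_of_notMem ha
    simp only [serreH, ha, if_false, Function.comp]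
    refine ⟨fun hτ => zsmul_mem ((h1 τ a ha _ ((hz' _).1 (by omega))).1 ?_) _, fun hτ => ?_⟩
    · rw [← Finset.card_pos]; omega
    · by_cases hq : τ.card = q
      · rw [(h1 τ a ha _ ((hz' _).1 (by omega))).2 (Finset.card_eq_zero.1 (by omega)), smul_zero]
      · rw [(hz' _).2 (by omega), map_zero, smul_zero]
  have e : z = dC O E' (∑ a, serreH a (P a ∘ z)) + (z - ∑ a, P a ∘ z) := by
    rw [map_sum]; simp [key]
  rw [e]
  refine Submodule.add_mem_sup (Submodule.mem_map_of_mem (sum_mem fun a _ => hm a)) ?_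
  intro σ _
  by_cases hσ : σ.card = q + 1 ∧ q + 1 ≠ 0
  · have := h2 σ (by rw [← Finset.card_pos]; omega) _ ((hz' σ).1 hσ)
    simpa [Finset.sum_apply] using this
  · simp [Finset.sum_apply, (hz' σ).2 hσ]

end

end Pool.Agent.Lib.MP_62d77c_ag
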