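import Pool.Agent.Lib.MP_62d77c_ag.Member
import Pool.Agent.Lib.MP_62d77c_ag.LevL

/-! Snapper polynomials and the Hodge index theorem. -/

set_option autoImplicit false

namespace Pool.Agent.Lib.MP_62d77c_ag

open Filter Polynomial Submodule

noncomputable section

variable {k K : Type} [Field k] [Field K] [Algebra k K] {V : Submodule k K}

theorem PP_L (hV : Mdl V) (D : Pic V) : PP V (D * Lp V) = (PP V D).comp (X + 1) :=
  hq_L hV (fg_pw' hV.1) D

theorem snap_PP_pow (hV : Mdl V) (D : Pic V) (n : ℕ) :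
    PP V (D * Lp V ^ n) = (PP V D).comp (X + C (n : ℚ)) := by
  induction n with
  | zero => simp
  | succ n ih =>
    rw [pow_succ, ← mul_assoc, PP_L hV, ih, comp_assoc]
    congr 1
    simp only [add_comp, X_comp, C_comp, Nat.cast_add, Nat.cast_one, map_add, map_one]
    ring

theorem snap_PP_eval (hV : Mdl V) (D : Pic V) (n : ℕ) :
    (PP V (D * Lp V ^ n)).eval 0 = (PP V D).eval (n : ℚ) := by
  rw [snap_PP_pow hV, eval_comp]
  simp

theorem snap_PP_mem (hV : Mdl V) (D : Pic V) : PP V D ∈ degreeLT ℚ (dimV V + 1) := by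
  rw [mem_degreeLT, ← (PP_lead hV D).1]
  exact lt_of_le_of_lt degree_le_natDegree (by exact_mod_cast Nat.lt_succ_self _)

theorem snap_member_L (hV : Mdl V) :
    (∀ E, PP V (E * Lp V) = PP V E ∧ h0 V (E * Lp V) = h0 V E) ∨ Nonempty (Mem V (Lp V)) :=
  member hV rep_L fun _ => rfl

/-- large twists are generated by sections -/
theorem snap_rep (D : Pic V) :
    ∀ᶠ n in atTop, ∃ (D' : Car V) (U : Submodule k K), cl D' = D * Lp V ^ n ∧ Rep D' U 0 := by
  filter_upwards [eventually_ge_atTop (rp D.out).2] with n hn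
  obtain ⟨c, rfl⟩ := Nat.exists_eq_add_of_le hn
  refine ⟨_, _, ?_, ((rep_rp D.out).shift c).mul_L⟩
  rw [map_mul, map_pow, cl_out]
  rfl

theorem snap_member (hV : Mdl V) (D : Pic V) : ∀ᶠ n in atTop,
    (∀ E, PP V (E * (D * Lp V ^ n)) = PP V E ∧ h0 V (E * (D * Lp V ^ n)) = h0 V E) ∨
      Nonempty (Mem V (D * Lp V ^ n)) := by
  filter_upwards [snap_rep D] with n ⟨D', U, e, h⟩
  by_cases c : D * Lp V ^ n = Lp V
  · rw [c]
    exact snap_member_L hV
  · rw [← e] at c ⊢
    exact member hV h fun e' => absurd e' c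

theorem snap_dim (_hV : Mdl V) {D : Pic V} {s : ℕ} (h : dimV V = s + 1)
    (hD : (PP V D - PP V 1).coeff s ≠ 0)
    (o : (∀ E, PP V (E * D) = PP V E ∧ h0 V (E * D) = h0 V E) ∨ Nonempty (Mem V D)) :
    ∃ M : Mem V D, dimV M.V' + 1 = dimV V := by
  rcases o with o | ⟨⟨M⟩⟩
  · have := (o 1).1
    rw [one_mul] at this
    rw [this, sub_self, coeff_zero] at hD
    exact absurd rfl hD
  · refine ⟨M, ?_⟩
    have e := M.P 1
    rw [one_mul] at e
    rw [e] at hD
    have a := le_natDegree_of_ne_zero hD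
    rw [(PP_lead M.mdl _).1] at a
    have b := M.dim
    omega

theorem snap_coeff (hV : Mdl V) {s : ℕ} (h : dimV V = s + 1) (D : Pic V) (n : ℕ) :
    (PP V (D * Lp V ^ n) - PP V 1).coeff s =
      (PP V D - PP V 1).coeff s + (s + 1) * n * (PP V D).coeff (s + 1) := by
  have m := snap_PP_mem hV D
  rw [h] at m
  rw [← coeff_comp_sub m, snap_PP_pow hV, ← coeff_add]
  congr 1
  ring

theorem memberL (hV : Mdl V) (h : 1 ≤ dimV V) :
    ∃ M : Mem V (Lp V), dimV M.V' + 1 = dimV V := by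
  obtain ⟨s, hs⟩ : ∃ s, dimV V = s + 1 := ⟨dimV V - 1, by omega⟩
  refine snap_dim hV hs ?_ (snap_member_L hV)
  have e := snap_coeff hV hs 1 1
  have p := (PP_lead hV 1).2.1
  rw [hs] at p
  rw [one_mul, pow_one, sub_self, coeff_zero, zero_add] at e
  rw [e]
  positivity

/-- every class plus a large multiple of the hyperplane class has a generic member -/
theorem memberD (hV : Mdl V) (h : 1 ≤ dimV V) (D : Pic V) :
    ∀ᶠ n in atTop, ∃ M : Mem V (D * Lp V ^ n), dimV M.V' + 1 = dimV V := by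
  obtain ⟨s, hs⟩ : ∃ s, dimV V = s + 1 := ⟨dimV V - 1, by omega⟩
  have p := (PP_lead hV D).2.1
  rw [hs] at p
  have q : 0 < ((s : ℚ) + 1) * (PP V D).coeff (s + 1) := by positivity
  obtain ⟨n0, h0⟩ := exists_nat_gt
    (-(PP V D - PP V 1).coeff s / (((s : ℚ) + 1) * (PP V D).coeff (s + 1)))
  rw [div_lt_iff₀ q] at h0
  filter_upwards [snap_member hV D, eventually_ge_atTop n0] with n o hn
  refine snap_dim hV hs ?_ o
  rw [snap_coeff hV hs]
  have : (n0 : ℚ) ≤ n := by exact_mod_cast hn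
  have := mul_le_mul_of_nonneg_right this q.le
  apply ne_of_gt
  nlinarith

theorem snap_mem_dl {D : Pic V} (M : Mem V D) :
    dl D (PP V) = fun E => PP M.V' (M.ρ E * M.ρ D) := by
  funext E
  rw [← map_mul, ← M.P]
  rfl

theorem snap_aux (r : ℕ) : ∀ (k K : Type) [Field k] [Field K] [Algebra k K] (V : Submodule k K),
    Mdl V → dimV V = r → Lev (dimV V + 1) (PP V) := by
  induction r using Nat.strong_induction_on with
  | _ r ih =>
    intro k K _ _ _ V hV hr
    refine lev_succ_of_gen {a | (∀ E, PP V (E * a) = PP V E ∧ h0 V (E * a) = h0 V E) ∨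
      Nonempty (Mem V a)} (fun D => ?_) (snap_PP_mem hV) ?_
    · obtain ⟨n, h1, h2⟩ := ((snap_member hV D).and (snap_member hV 1)).exists
      exact ⟨_, h1, _, h2, by rw [one_mul]⟩
    · rintro D (o | ⟨⟨M⟩⟩)
      · have : dl D (PP V) = fun _ => 0 := funext fun E => sub_eq_zero.2 (o E).1
        rw [this]
        exact lev_zero_fun
      · rw [snap_mem_dl M]
        have := ih _ (hr ▸ M.dim) _ _ M.V' M.mdl rfl
        exact ((this.translate (M.ρ D)).comp M.ρ).mono M.dim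

theorem snapper (hV : Mdl V) : Lev (dimV V + 1) (PP V) := snap_aux _ k K V hV rfl

theorem dim_zero (hV : Mdl V) (h : dimV V = 0) (E : Pic V) :
    PP V E = C (h0 V E : ℚ) ∧ PP V E = PP V 1 ∧ MulOK V E := by
  have o : ∀ E, h0 V (E * Lp V) = h0 V E := by
    rcases snap_member_L hV with o | ⟨⟨M⟩⟩
    · exact fun E => (o E).2
    · have := M.dim
      omega
  have o2 : ∀ j : ℕ, h0 V (E * Lp V ^ j) = h0 V E := by
    intro j
    induction j with
    | zero => simp
    | succ j ih => rw [pow_succ, ← mul_assoc, o, ih]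
  refine ⟨?_, ?_, ?_⟩
  · have m := snap_PP_mem hV E
    rw [h] at m
    obtain ⟨j, hj⟩ := (h0_eventually hV E).exists
    rw [o2, eq_C_of_mem_degreeLT_one m, eval_C] at hj
    rw [hj]
    exact eq_C_of_mem_degreeLT_one m
  · have m := (PP_lead hV E).2.2
    rw [h] at m
    exact sub_eq_zero.1 (eq_zero_of_mem_degreeLT_zero m)
  · have le : V * sec E.out ≤ sec (E.out * Lc V) := by
      rw [mul_comm E.out]
      exact (mul_le_mul_left (rep_L.le_sec hV) _).trans (sec_mul_le hV _ _)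
    have : Module.Finite k (sec (E.out * Lc V)) := Module.Finite.iff_fg.2 (sec_fg hV _)
    have : Module.Finite k (V * sec E.out : Submodule k K) :=
      Module.Finite.iff_fg.2 (hV.1.mul (sec_fg hV _))
    refine Submodule.eq_of_le_of_finrank_le le ?_
    obtain ⟨v, hv, v0⟩ := (Submodule.ne_bot_iff V).1 hV.2
    have e : Module.finrank k (sec (E.out * Lc V)) = Module.finrank k (sec E.out) := by
      rw [← h0_cl hV, map_mul, cl_out]
      exact o E
    rw [e]
    refine LinearMap.finrank_le_finrank_of_injective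
      (f := ((LinearMap.mulLeft k v).domRestrict (sec E.out)).codRestrict (V * sec E.out)
        fun x => mul_mem_mul hv x.2) ?_
    intro x y e
    exact Subtype.ext (mul_left_cancel₀ v0 (congrArg Subtype.val e))

theorem snap_lev (hV : Mdl V) {s t : ℕ} (h : dimV V - s + (s + 1) ≤ t) : Lev t (PP V) :=
  (snapper hV).mono (by omega)

theorem snap_lev_dl (hV : Mdl V) (D : Pic V) : Lev (dimV V - 2 + 2) (dl D (PP V)) :=
  Lev.dl (snap_lev hV (s := 2) le_rfl) D

theorem i1_L_pos (hV : Mdl V) (h : 1 ≤ dimV V) : 0 < i1 V (dimV V) (Lp V) := by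
  unfold i1
  rw [lin_L (PP_L hV) (snap_lev hV (s := 1) le_rfl), Nat.sub_add_cancel h]
  have := (PP_lead hV 1).2.1
  positivity

theorem i2_L (hV : Mdl V) (h : 2 ≤ dimV V) (D : Pic V) :
    i2 V (dimV V) D (Lp V) = (dimV V - 1 : ℚ) * i1 V (dimV V) D := by
  unfold i2 i1
  rw [lin_dl_L (PP_L hV) (snap_lev hV (s := 2) le_rfl),
    show dimV V - 2 + 1 = dimV V - 1 by omega, Nat.cast_sub h]
  congr 1
  push_cast
  ring

theorem i2_symm (r : ℕ) (D D' : Pic V) : i2 V r D D' = i2 V r D' D := lin_dl_comm D D' _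

theorem i1_mul (hV : Mdl V) (_h : 1 ≤ dimV V) (D D' : Pic V) :
    i1 V (dimV V) (D * D') = i1 V (dimV V) D + i1 V (dimV V) D' :=
  lin_mul (snap_lev hV (s := 1) le_rfl) D D'

theorem i2_mul (hV : Mdl V) (_h : 2 ≤ dimV V) (D D' E : Pic V) :
    i2 V (dimV V) (D * D') E = i2 V (dimV V) D E + i2 V (dimV V) D' E :=
  lin_mul (snap_lev_dl hV E) D D'

theorem snap_i1_zpow (hV : Mdl V) (D : Pic V) (n : ℤ) :
    i1 V (dimV V) (D ^ n) = n * i1 V (dimV V) D :=
  lin_zpow (snap_lev hV (s := 1) le_rfl) D n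

theorem snap_i1_pow (hV : Mdl V) (D : Pic V) (n : ℕ) :
    i1 V (dimV V) (D ^ n) = n * i1 V (dimV V) D :=
  lin_pow (snap_lev hV (s := 1) le_rfl) D n

theorem snap_i2_zpow (hV : Mdl V) (D E : Pic V) (n : ℤ) :
    i2 V (dimV V) (D ^ n) E = n * i2 V (dimV V) D E :=
  lin_zpow (snap_lev_dl hV E) D n

theorem snap_i2_pow (hV : Mdl V) (D E : Pic V) (n : ℕ) :
    i2 V (dimV V) (D ^ n) E = n * i2 V (dimV V) D E :=
  lin_pow (snap_lev_dl hV E) D n

theorem snap_dl2_mem (hV : Mdl V) (_h : 2 ≤ dimV V) (D D' E : Pic V) :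
    dl D (dl D' (PP V)) E ∈ degreeLT ℚ (dimV V - 2 + 1) :=
  (Lev.dl (snap_lev_dl hV D') D).mem E

theorem i2_int (hV : Mdl V) (h : 2 ≤ dimV V) (D D' : Pic V) :
    ∃ z : ℤ, ((dimV V - 2).factorial : ℚ) * i2 V (dimV V) D D' = z := by
  refine coeff_int_of_eventually (snap_dl2_mem hV h D D' 1) ?_
  filter_upwards [h0_eventually hV (1 * D * D'), h0_eventually hV (1 * D),
    h0_eventually hV (1 * D'), h0_eventually hV 1] with n h1 h2 h3 h4
  refine ⟨(h0 V (1 * D * D' * Lp V ^ n) : ℤ) - h0 V (1 * D * Lp V ^ n) -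
    (h0 V (1 * D' * Lp V ^ n) - h0 V (1 * Lp V ^ n)), ?_⟩
  show eval (n : ℚ) (PP V (1 * D * D') - PP V (1 * D) - (PP V (1 * D') - PP V 1)) = _
  rw [eval_sub, eval_sub, eval_sub, ← h1, ← h2, ← h3, ← h4]
  push_cast
  rfl

theorem i1_nonneg_of_h0 (hV : Mdl V) (h : 1 ≤ dimV V) {D : Pic V} (h0' : 0 < h0 V D) :
    0 ≤ i1 V (dimV V) D := by
  obtain ⟨D', e, le⟩ := exists_le_of_h0 hV D.out 1 (by rwa [cl_out, div_one])
  refine coeff_nonneg_of_eventually ((Lev.dl (snap_lev hV (s := 1) le_rfl) D).mem 1) ?_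
  filter_upwards [hq_spec hV (fg_pw' hV.1) D.out, hq_spec hV (fg_pw' hV.1) D', le,
    (fg_pw' hV.1).tw hV D.out] with n h1 h2 h3 h4
  rw [cl_out] at h1
  rw [e] at h2
  have : Module.Finite k (tw D.out (fun n => V ^ n) n) := Module.Finite.iff_fg.2 h4.1
  have : Module.finrank k (tw D' (fun n => V ^ n) n) ≤
      Module.finrank k (tw D.out (fun n => V ^ n) n) := Submodule.finrank_mono h3
  have h5 : (Module.finrank k (tw D' (fun n => V ^ n) n) : ℚ) ≤
      Module.finrank k (tw D.out (fun n => V ^ n) n) := by exact_mod_cast this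
  show 0 ≤ eval (n : ℚ) (hq V (fun n => V ^ n) (1 * D) - hq V (fun n => V ^ n) 1)
  rw [eval_sub, one_mul]
  linarith

end

end Pool.Agent.Lib.MP_62d77c_ag
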