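import Pool.Agent.Lib.MP_62d77c_ag.Fibre
import Pool.Agent.Lib.MP_62d77c_ag.UFD

/-! Fibres with strict normal crossings. -/

set_option autoImplicit false
set_option linter.unusedSectionVars false

namespace Pool.Agent.Lib.MP_62d77c_ag

open Filter Polynomial Submodule

noncomputable section

variable {A : Type} [CommRing A] [IsDomain A] {𝒜 : ℕ → AddSubgroup A} [GradedRing 𝒜]
  [hG : Fact (Gen 𝒜)] {p : ℕ} [Fact p.Prime]

/-- extension of an ideal to the local ring at a point -/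
def sncE (y : Pt 𝒜) (J : Ideal A) : Ideal (loc y) where
  carrier := {z | ∃ n, ∃ a ∈ 𝒜 n, ∃ b ∈ 𝒜 n, a ∈ J ∧ b ∉ pr y ∧
    z.1 = algebraMap A (FractionRing A) a / algebraMap A (FractionRing A) b}
  zero_mem' := ⟨0, 0, zero_mem _, 1, SetLike.one_mem_graded 𝒜, zero_mem _, md_one_not_mem y,
    by simp⟩
  add_mem' := by
    rintro z w ⟨n, a, ha, b, hb, h1, h2, e⟩ ⟨m, c, hc, d, hd, h3, h4, e'⟩
    refine ⟨n + m, a * d + b * c,
      add_mem (SetLike.mul_mem_graded ha hd) (SetLike.mul_mem_graded hb hc), b * d,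
      SetLike.mul_mem_graded hb hd, add_mem (J.mul_mem_right _ h1) (J.mul_mem_left _ h3),
      md_mul_not_mem h2 h4, ?_⟩
    rw [Subring.coe_add, e, e', div_add_div _ _ (md_alg_ne h2) (md_alg_ne h4)]
    simp
  smul_mem' := by
    rintro z w ⟨m, c, hc, d, hd, h3, h4, e'⟩
    obtain ⟨n, a, ha, b, hb, h2, e⟩ := mem_loc.1 z.2
    refine ⟨n + m, a * c, SetLike.mul_mem_graded ha hc, b * d, SetLike.mul_mem_graded hb hd,
      J.mul_mem_left _ h3, md_mul_not_mem h2 h4, ?_⟩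
    rw [smul_eq_mul, Subring.coe_mul, e, e', map_mul, map_mul, div_mul_div_comm]

theorem sncE_mono (y : Pt 𝒜) {J J' : Ideal A} (h : J ≤ J') : sncE y J ≤ sncE y J' :=
  fun _ ⟨n, a, ha, b, hb, h1, h2, e⟩ => ⟨n, a, ha, b, hb, h h1, h2, e⟩

theorem snc_cross {a b c d : A} {y : Pt 𝒜} (hb : b ∉ pr y) (hd : d ∉ pr y)
    (e : algebraMap A (FractionRing A) a / algebraMap A (FractionRing A) b =
      algebraMap A (FractionRing A) c / algebraMap A (FractionRing A) d) : a * d = c * b := by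
  rwa [div_eq_div_iff (md_alg_ne hb) (md_alg_ne hd), ← map_mul, ← map_mul,
    (IsFractionRing.injective A (FractionRing A)).eq_iff] at e

theorem sncE_clear {y : Pt 𝒜} {J : Ideal A} {z : loc y} {a b : A} (hb : b ∉ pr y)
    (e : z.1 = algebraMap A (FractionRing A) a / algebraMap A (FractionRing A) b)
    (h : z ∈ sncE y J) : ∃ l, ∃ c ∈ 𝒜 l, c ∉ pr y ∧ c * a ∈ J := by
  obtain ⟨m, c, -, d, hd, h3, h4, e'⟩ := h
  refine ⟨m, d, hd, h4, ?_⟩
  rw [mul_comm, snc_cross hb h4 (e.symm.trans e')]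
  exact J.mul_mem_right _ h3

theorem mem_sncE_pr {y y' : Pt 𝒜} (h : pr y' ≤ pr y) {z : loc y} {n : ℕ} {a b : A} (ha : a ∈ 𝒜 n)
    (hb : b ∈ 𝒜 n) (hb' : b ∉ pr y)
    (e : z.1 = algebraMap A (FractionRing A) a / algebraMap A (FractionRing A) b) :
    z ∈ sncE y (pr y') ↔ a ∈ pr y' := by
  refine ⟨fun hz => ?_, fun h1 => ⟨n, a, ha, b, hb, h1, hb', e⟩⟩
  obtain ⟨l, c, -, h1, h2⟩ := sncE_clear hb' e hz
  exact (y'.isPrime.mem_or_mem h2).resolve_left fun k => h1 (h k)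

/-- dehomogenisation of a form -/
def sncD (y : Pt 𝒜) {n : ℕ} {a : A} (ha : a ∈ 𝒜 n) : loc y := ⟨_, md_div_ell_mem y ha⟩

theorem sncD_val (y : Pt 𝒜) {n : ℕ} {a : A} (ha : a ∈ 𝒜 n) : (sncD y ha).1 =
    algebraMap A (FractionRing A) a / algebraMap A (FractionRing A) (ell y ^ n) := by
  rw [map_pow]; rfl

theorem sncD_mem {y : Pt 𝒜} {J : Ideal A} {n : ℕ} {a : A} (ha : a ∈ 𝒜 n) (h : a ∈ J) :
    sncD y ha ∈ sncE y J :=
  ⟨n, a, ha, ell y ^ n, md_pow_mem (ell_spec y).1 n, h, md_pow_not_mem (ell_spec y).2 n,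
    sncD_val y ha⟩

theorem le_of_sncE_le {y y' : Pt 𝒜} (h : pr y' ≤ pr y) {J : Ideal A} (hJ : J.IsHomogeneous 𝒜)
    (e : sncE y J ≤ sncE y (pr y')) : J ≤ pr y' :=
  md_le_of_hom hJ fun n _ ha h1 => (mem_sncE_pr h ha (md_pow_mem (ell_spec y).1 n)
    (md_pow_not_mem (ell_spec y).2 n) (sncD_val y ha)).1 (e (sncD_mem ha h1))

theorem snc_unit {y : Pt 𝒜} {z : loc y} {n : ℕ} {a b : A} (ha : a ∈ 𝒜 n) (hb : b ∈ 𝒜 n)
    (hb' : b ∉ pr y)
    (e : z.1 = algebraMap A (FractionRing A) a / algebraMap A (FractionRing A) b) :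
    IsUnit z ↔ a ∉ pr y := by
  obtain rfl : z = ⟨_, (MX 𝒜).div_mem_fr ha hb hb'⟩ := Subtype.ext e
  exact (MX 𝒜).isUnit_orng (on_MX y) ha hb hb'

theorem snc_le {y y' : Pt 𝒜} (h : pr y' ≤ pr y) : loc y ≤ loc y' := fun _ hz => by
  obtain ⟨n, a, ha, b, hb, h2, e⟩ := mem_loc.1 hz
  exact mem_loc.2 ⟨n, a, ha, b, hb, fun k => h2 (h k), e⟩

theorem snc_incl {K : Type} [Field K] {R S : Subring K} (h : R ≤ S) :
    ∃ ι : R →+* S, ∀ z, (ι z).1 = z.1 := ⟨Subring.inclusion h, fun _ => rfl⟩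

/-- the localisation map to a generisation -/
def sncI {y y' : Pt 𝒜} (h : pr y' ≤ pr y) : loc y →+* loc y' :=
  (snc_incl (snc_le h)).choose

theorem sncI_val {y y' : Pt 𝒜} (h : pr y' ≤ pr y) (z : loc y) : (sncI h z).1 = z.1 :=
  (snc_incl (snc_le h)).choose_spec z

theorem sncI_mem {y y' : Pt 𝒜} (h : pr y' ≤ pr y) (z : loc y) :
    sncI h z ∈ IsLocalRing.maximalIdeal (loc y') ↔ z ∈ sncE y (pr y') := by
  obtain ⟨n, a, ha, b, hb, h2, e⟩ := mem_loc.1 z.2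
  rw [mem_sncE_pr h ha hb h2 e, IsLocalRing.mem_maximalIdeal, mem_nonunits_iff,
    snc_unit ha hb (fun k => h2 (h k)) ((sncI_val h z).trans e), not_not]

theorem sncE_prime {y y' : Pt 𝒜} (h : pr y' ≤ pr y) : (sncE y (pr y')).IsPrime := by
  have : sncE y (pr y') = (IsLocalRing.maximalIdeal (loc y')).comap (sncI h) := by
    ext z; rw [Ideal.mem_comap, sncI_mem]
  rw [this]
  exact Ideal.comap_isPrime _ _

theorem sncE_surj {y : Pt 𝒜} (P : Ideal (loc y)) (hP : P.IsPrime) :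
    ∃ y' : Pt 𝒜, pr y' ≤ pr y ∧ sncE y (pr y') = P := by
  obtain ⟨y', -, h1, h2⟩ := (MX 𝒜).exists_pt_of_prime (T := (pr y).primeCompl)
    (fun n b _ hb => md_alg_ne hb) one_pos (ell_spec y).1 (ell_spec y).2 P hP
  have h : pr y' ≤ pr y := md_le_of_hom (pr_hom y') fun n a ha k => by
    by_contra hc
    exact h1 n a ha hc k
  refine ⟨y', h, ?_⟩
  ext z
  obtain ⟨n, a, ha, b, hb, h3, e⟩ := mem_loc.1 z.2
  rw [mem_sncE_pr h ha hb h3 e, ← h2 n a b ha hb h3]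
  obtain rfl : z = ⟨_, (MX 𝒜).div_mem_fr ha hb h3⟩ := Subtype.ext e
  rfl

theorem snc_p_val (y : Pt 𝒜) : ((p : loc y) : FractionRing A) =
    algebraMap A (FractionRing A) (p : A) / algebraMap A (FractionRing A) 1 := by simp

theorem snc_p_mem {y y' : Pt 𝒜} (h : pr y' ≤ pr y) :
    (p : loc y) ∈ sncE y (pr y') ↔ (p : A) ∈ pr y' :=
  mem_sncE_pr h (md_natCast_mem p) (SetLike.one_mem_graded 𝒜) (md_one_not_mem y) (snc_p_val y)

theorem snc_mk {y : Pt 𝒜} {n : ℕ} {a b : A} (ha : a ∈ 𝒜 n) (hb : b ∈ 𝒜 n) (h : b ∉ pr y) :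
    ∃ w : loc y, w.1 = algebraMap A (FractionRing A) a / algebraMap A (FractionRing A) b :=
  ⟨⟨_, mem_loc.2 ⟨n, a, ha, b, hb, h, rfl⟩⟩, rfl⟩

theorem snc_max {y j : Pt 𝒜} (h : pr j ≤ pr y) {t : loc y} (e : sncE y (pr j) = Ideal.span {t}) :
    IsLocalRing.maximalIdeal (loc j) = Ideal.span {sncI h t} := by
  refine le_antisymm (fun z hz => ?_) ?_
  · obtain ⟨n, a, ha, b, hb, h2, ez⟩ := mem_loc.1 z.2
    have h3 : a ∈ pr j := by
      by_contra hc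
      exact hz ((snc_unit ha hb h2 ez).2 hc)
    have h4 := sncD_mem (y := y) ha h3
    rw [e] at h4
    obtain ⟨c, hc⟩ := Ideal.mem_span_singleton'.1 h4
    have h5 : ell y ^ n ∉ pr y := md_pow_not_mem (ell_spec y).2 n
    obtain ⟨w, hw⟩ := snc_mk (md_pow_mem (ell_spec y).1 n) hb h2
    refine Ideal.mem_span_singleton'.2 ⟨w * sncI h c, Subtype.ext ?_⟩
    rw [Subring.coe_mul, Subring.coe_mul, sncI_val, sncI_val, mul_assoc, ← Subring.coe_mul, hc,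
      sncD_val, hw, ez]
    have := md_alg_ne h5
    have := md_alg_ne h2
    field_simp
  · rw [Ideal.span_singleton_le_iff_mem, sncI_mem, e]
    exact Ideal.mem_span_singleton_self _

theorem snc_mu_aux {R S : Type} [CommRing R] [CommRing S] [NoZeroDivisors S] [IsLocalRing S]
    (ι : R →+* S) {n q : ℕ} (t : Fin n → R) (m : Fin n → ℕ) (u : Rˣ)
    (hp : (q : R) = u * ∏ i, t i ^ m i) (i : Fin n)
    (hm : IsLocalRing.maximalIdeal S = Ideal.span {ι (t i)}) (h0 : ι (t i) ≠ 0)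
    (hk : ∀ k, ι (t k) ∈ IsLocalRing.maximalIdeal S → k = i) (s : ℕ) :
    (q : S) ∈ IsLocalRing.maximalIdeal S ^ s ↔ s ≤ m i := by
  classical
  have : IsDomain S := NoZeroDivisors.to_isDomain S
  have h1 : ¬IsUnit (ι (t i)) := by
    rw [← mem_nonunits_iff, ← IsLocalRing.mem_maximalIdeal, hm]
    exact Ideal.mem_span_singleton_self _
  have h2 : IsUnit (ι (u * ∏ k ∈ Finset.univ.erase i, t k ^ m k)) := by
    rw [map_mul, map_prod]
    refine (u.isUnit.map _).mul (IsUnit.prod_iff.2 fun k hk' => ?_)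
    rw [map_pow]
    refine IsUnit.pow _ ?_
    by_contra hc
    exact (Finset.mem_erase.1 hk').1 (hk k hc)
  have h3 : (q : S) = ι (u * ∏ k ∈ Finset.univ.erase i, t k ^ m k) * ι (t i) ^ m i := by
    rw [← map_pow, ← map_mul, mul_assoc,
      Finset.prod_erase_mul _ (fun k => t k ^ m k) (Finset.mem_univ i), ← hp, map_natCast]
  rw [hm, Ideal.span_singleton_pow, Ideal.mem_span_singleton, h3, h2.dvd_mul_left,
    pow_dvd_pow_iff h0 h1]

/-- the local data of a normal crossing -/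
structure SncD (y : Pt 𝒜) (p : ℕ) where
  n : ℕ
  t : Fin n → loc y
  m : Fin n → ℕ
  u : (loc y)ˣ
  hd : ringKrullDim (loc y) = n
  ht : Ideal.span (Set.range t) = IsLocalRing.maximalIdeal (loc y)
  hp : (p : loc y) = u * ∏ i, t i ^ m i

theorem snc_data (hsnc : SNC 𝒜) {y : Pt 𝒜} (h : (p : A) ∈ pr y) : Nonempty (SncD y p) := by
  obtain ⟨n, t, m, u, h1, h2, h3⟩ := hsnc y p Fact.out h
  exact ⟨⟨n, t, m, u, h1, h2, h3⟩⟩

variable (p) in
/-- the multiplicity of a component in the fibre -/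
def SncMu (j : Pt 𝒜) (r : ℕ) : Prop :=
  ∀ s, (p : loc j) ∈ IsLocalRing.maximalIdeal (loc j) ^ s ↔ s ≤ r

namespace SncD
variable {y : Pt 𝒜} (D : SncD y p)

theorem rq (s : Set (Fin D.n)) : (Ideal.span (D.t '' s)).IsPrime ∧
    (∀ i ∉ s, D.t i ∉ Ideal.span (D.t '' s)) ∧
      IsRegularLocalRing (loc y ⧸ Ideal.span (D.t '' s)) :=
  haveI : IsNoetherianRing (loc y) := (MX 𝒜).orng_noeth (on_MX y)
  reg_quot D.t D.hd D.ht s

theorem mem_of {s : Set (Fin D.n)} {i : Fin D.n} (h : D.t i ∈ Ideal.span (D.t '' s)) : i ∈ s := by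
  by_contra hc
  exact (D.rq s).2.1 i hc h

theorem eq_of {i k : Fin D.n} (h : D.t i ∈ Ideal.span {D.t k}) : i = k :=
  D.mem_of (s := {k}) (by rwa [Set.image_singleton])

theorem ne (i : Fin D.n) : D.t i ≠ 0 := fun e =>
  (D.mem_of (s := ∅) (i := i) (by rw [e]; exact zero_mem _) : False)

theorem prime (i : Fin D.n) : (Ideal.span {D.t i}).IsPrime := by
  have := (D.rq {i}).1
  rwa [Set.image_singleton] at this

theorem exists_mem {P : Ideal (loc y)} (hP : P.IsPrime) (h : (p : loc y) ∈ P) :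
    ∃ i, 0 < D.m i ∧ D.t i ∈ P := by
  rw [D.hp] at h
  have h1 := (hP.mem_or_mem h).resolve_left fun k =>
    hP.ne_top (Ideal.eq_top_of_isUnit_mem _ k D.u.isUnit)
  obtain ⟨i, -, h2⟩ := (Ideal.IsPrime.prod_mem_iff (hp := hP)).1 h1
  refine ⟨i, Nat.pos_of_ne_zero fun e => ?_, hP.mem_of_pow_mem _ h2⟩
  rw [e, pow_zero] at h2
  exact hP.ne_top ((Ideal.eq_top_iff_one _).2 h2)

theorem p_mem {i : Fin D.n} (h : 0 < D.m i) : (p : loc y) ∈ Ideal.span {D.t i} := by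
  rw [D.hp, Ideal.mem_span_singleton]
  exact ((dvd_pow_self _ h.ne').trans
    (Finset.dvd_prod_of_mem (fun k => D.t k ^ D.m k) (Finset.mem_univ i))).mul_left _

theorem comp_of {i : Fin D.n} (h : 0 < D.m i) :
    ∃ j : Comp 𝒜 p, cI j ≤ pr y ∧ sncE y (cI j) = Ideal.span {D.t i} := by
  obtain ⟨y', h1, h2⟩ := sncE_surj _ (D.prime i)
  have h3 : (p : A) ∈ pr y' := (snc_p_mem h1).1 (h2 ▸ D.p_mem h)
  refine ⟨⟨⟨y', h3⟩, fun z hz => ?_⟩, h1, h2⟩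
  have h4 : pr z.1 ≤ pr y := hz.trans h1
  obtain ⟨k, -, h5⟩ := D.exists_mem (sncE_prime h4) ((snc_p_mem h4).2 z.2)
  obtain rfl : k = i := D.eq_of (h2 ▸ sncE_mono y hz h5)
  refine Subtype.ext (pr_inj (le_antisymm hz (le_of_sncE_le h4 (pr_hom _) ?_)))
  rw [h2, Ideal.span_singleton_le_iff_mem]
  exact h5

theorem of_comp {j : Comp 𝒜 p} (h : cI j ≤ pr y) :
    ∃ i, 0 < D.m i ∧ sncE y (cI j) = Ideal.span {D.t i} := by
  obtain ⟨i, h1, h2⟩ := D.exists_mem (sncE_prime h) ((snc_p_mem h).2 j.1.2)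
  obtain ⟨k, h3, h4⟩ := D.comp_of h1
  have : cI k ≤ cI j := le_of_sncE_le h (pr_hom _) (by
    rw [h4, Ideal.span_singleton_le_iff_mem]; exact h2)
  obtain rfl := cI_le_iff.1 this
  exact ⟨i, h1, h4⟩

theorem mu {j : Pt 𝒜} (h : pr j ≤ pr y) {i : Fin D.n} (e : sncE y (pr j) = Ideal.span {D.t i}) :
    SncMu p j (D.m i) := by
  refine snc_mu_aux (sncI h) D.t D.m D.u D.hp i (snc_max h e) (fun k => D.ne i ?_) fun k hk => ?_
  · rw [← ZeroMemClass.coe_eq_zero, sncI_val, ZeroMemClass.coe_eq_zero] at k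
    exact k
  · rw [sncI_mem, e] at hk
    exact D.eq_of hk

include D in
theorem strat (σ : Set (Comp 𝒜 p)) (hσ : σ.Nonempty) (h : ∀ j ∈ σ, cI j ≤ pr y) :
    ∃ T : Vp 𝒜 p, pr T.1 ≤ pr y ∧ MinOver T σ ∧ sncE y (pr T.1) ≤ sncE y (⨆ j ∈ σ, cI j) ∧
      ∀ j : Comp 𝒜 p, cI j ≤ pr T.1 → j ∈ σ := by
  set s : Set (Fin D.n) := {i | ∃ j ∈ σ, sncE y (cI j) = Ideal.span {D.t i}} with hs
  obtain ⟨T, h1, h2⟩ := sncE_surj _ (D.rq s).1
  have h3 : ∀ j ∈ σ, cI j ≤ pr T := fun j hj => by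
    obtain ⟨i, -, e⟩ := D.of_comp (h j hj)
    refine le_of_sncE_le h1 (pr_hom _) ?_
    rw [e, h2, Ideal.span_singleton_le_iff_mem]
    exact Ideal.subset_span ⟨i, ⟨j, hj, e⟩, rfl⟩
  have h4 : ∀ J : Ideal A, (∀ j ∈ σ, cI j ≤ J) → sncE y (pr T) ≤ sncE y J := fun J hJ => by
    rw [h2, Ideal.span_le]
    rintro _ ⟨i, ⟨j, hj, e⟩, rfl⟩
    exact sncE_mono y (hJ j hj) (e ▸ Ideal.mem_span_singleton_self _)
  obtain ⟨j0, hj0⟩ := hσ
  refine ⟨⟨T, h3 j0 hj0 j0.1.2⟩, h1, ⟨h3, fun z hz hz' => ?_⟩,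
    h4 _ fun j hj => le_iSup₂_of_le j hj le_rfl, fun j hj => ?_⟩
  · exact Subtype.ext (pr_inj (le_antisymm hz'
      (le_of_sncE_le (hz'.trans h1) (pr_hom _) (h4 _ hz))))
  · obtain ⟨i, -, e⟩ := D.of_comp (hj.trans h1)
    obtain ⟨k, hk, e'⟩ : i ∈ s := D.mem_of (h2 ▸ sncE_mono y hj
      (e ▸ Ideal.mem_span_singleton_self _))
    have : cI j ≤ cI k := le_of_sncE_le (h k hk) (pr_hom _) (e.trans e'.symm).le
    exact cI_le_iff.1 this ▸ hk

include D in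
/-- the equation of the fibre in terms of local generators of the components -/
theorem assoc {M : Comp 𝒜 p → ℕ} (hM : ∀ j : Comp 𝒜 p, SncMu p j.1.1 (M j))
    (γ : Comp 𝒜 p → loc y) (hγ : ∀ j, sncE y (cI j) = Ideal.span {γ j}) :
    Associated (∏ j : Comp 𝒜 p, γ j ^ M j) (p : loc y) := by
  classical
  choose c hc using fun i : {i // 0 < D.m i} => D.comp_of i.2
  have e1 : ∀ i, M (c i) = D.m i := fun i =>
    le_antisymm ((D.mu (hc i).1 (hc i).2 _).1 ((hM (c i) _).2 le_rfl))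
      ((hM (c i) _).1 ((D.mu (hc i).1 (hc i).2 _).2 le_rfl))
  have inj : Function.Injective c := fun i k e => Subtype.ext (D.eq_of (by
    rw [← (hc k).2, ← e, (hc i).2]; exact Ideal.mem_span_singleton_self _))
  let τ : Comp 𝒜 p → loc y := fun j => if h : ∃ i, c i = j then D.t h.choose else 1
  have t1 : ∀ i, τ (c i) = D.t i := fun i => by
    have h : ∃ k, c k = c i := ⟨i, rfl⟩
    simp only [τ, dif_pos h, inj h.choose_spec]
  have t2 : ∀ j, Associated (γ j) (τ j) := fun j => by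
    by_cases h : ∃ i, c i = j
    · obtain ⟨i, rfl⟩ := h
      rw [t1, ← Ideal.span_singleton_eq_span_singleton, ← hγ, (hc i).2]
    · simp only [τ, dif_neg h]
      rw [associated_one_iff_isUnit, ← Ideal.span_singleton_eq_top, ← hγ]
      have hn : ¬cI j ≤ pr y := fun k => by
        obtain ⟨i, h1, h2⟩ := D.of_comp k
        exact h ⟨⟨i, h1⟩, cI_le_iff.1 (le_of_sncE_le k (pr_hom _) ((hc ⟨i, h1⟩).2.trans h2.symm).le)⟩
      obtain ⟨n, a, ha, h1, h2⟩ := md_exists_not_mem (pr_hom j.1.1) hn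
      exact Ideal.eq_top_of_isUnit_mem _ (sncD_mem ha h1) ((snc_unit ha
        (md_pow_mem (ell_spec y).1 n) (md_pow_not_mem (ell_spec y).2 n) (sncD_val y ha)).2 h2)
  have e2 : ∏ i : {i // 0 < D.m i}, D.t i ^ D.m i = ∏ j : Comp 𝒜 p, τ j ^ M j :=
    Fintype.prod_of_injective c inj _ _ (fun j hj => by
      have h : ¬∃ i, c i = j := hj
      simp only [τ, dif_neg h, one_pow]) fun i => by rw [t1, e1]
  have e3 : ∏ i : {i // 0 < D.m i}, D.t i ^ D.m i = ∏ i, D.t i ^ D.m i :=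
    Fintype.prod_of_injective Subtype.val Subtype.val_injective _ _ (fun i hi => by
      have : D.m i = 0 := by
        by_contra hc
        exact hi ⟨⟨i, Nat.pos_of_ne_zero hc⟩, rfl⟩
      rw [this, pow_zero]) fun _ => rfl
  refine (Associated.prod _ _ _ fun j _ => (t2 j).pow_pow).trans ?_
  rw [← e2, e3, D.hp]
  exact (associated_unit_mul_left _ _ D.u.isUnit).symm

end SncD

theorem snc_reg (hsnc : SNC 𝒜) (j : Comp 𝒜 p) (y : Pt 𝒜) (h : cI j ≤ pr y) :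
    IsRegularLocalRing ((Mp j.1).orng y) := by
  obtain ⟨D⟩ := snc_data hsnc (h j.1.2)
  obtain ⟨i, -, e⟩ := D.of_comp h
  obtain ⟨φ, h1, h2⟩ := (Mp j.1).exists_loc_hom (on_Mp.2 h)
  have hk : Ideal.span (D.t '' {i}) = RingHom.ker φ := by
    rw [Set.image_singleton, ← e]
    ext z
    obtain ⟨n, a, ha, b, hb, h3, ez⟩ := mem_loc.1 z.2
    rw [mem_sncE_pr h ha hb h3 ez, RingHom.mem_ker, ← th_eq_zero _ ha]
    obtain rfl : z = ⟨_, (MX 𝒜).div_mem_fr ha hb h3⟩ := Subtype.ext ez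
    rw [Subtype.ext_iff, h2 n a b ha hb h3]
    have : th j.1.1 b ≠ 0 := fun k => h3 (h ((th_eq_zero _ hb).1 k))
    exact ((div_eq_zero_iff.trans (or_iff_left this))).symm
  have := (D.rq {i}).2.2
  exact IsRegularLocalRing.of_ringEquiv
    ((Ideal.quotEquivOfEq hk).trans (RingHom.quotientKerEquivOfSurjective h1))

theorem snc_ufd {k K : Type} [CommRing k] [Field K] [Algebra k K] (M : AM 𝒜 k K) {y : Pt 𝒜}
    (hy : M.On y) (h : ∀ y', M.On y' → IsRegularLocalRing (M.orng y')) :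
    UniqueFactorizationMonoid (M.fr (pr y).primeCompl) := by
  have : IsLocalRing (M.fr (pr y).primeCompl) := M.orng_local hy
  have : IsNoetherianRing (M.fr (pr y).primeCompl) := M.orng_noeth hy
  refine ufd_of_locally_regular _ fun P hP => ?_
  have hT : ∀ n, ∀ b ∈ 𝒜 n, b ∈ (pr y).primeCompl → M.θ b ≠ 0 :=
    fun n b hb k => M.chart_ne hy hb k
  obtain ⟨y', h1, h2, h3⟩ := M.exists_pt_of_prime hT one_pos (ell_spec y).1 (ell_spec y).2 P hP
  have hle := M.fr_le_orng h2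
  let := (Subring.inclusion hle).toAlgebra
  have := M.isLocalization_orng hT one_pos (ell_spec y).1 (ell_spec y).2 P h1 hle h3
  have := h y' h1
  exact IsRegularLocalRing.of_ringEquiv
    (IsLocalization.algEquiv P.primeCompl (M.orng y') (Localization.AtPrime P)).toRingEquiv

/-- the local rings of a component are factorial -/
theorem ufd_comp (hsnc : SNC 𝒜) (j : Comp 𝒜 p) (y : Pt 𝒜) (h : cI j ≤ pr y) :
    UniqueFactorizationMonoid ((Mp j.1).orng y) :=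
  snc_ufd (Mp j.1) (on_Mp.2 h) fun y' h1 => snc_reg hsnc j y' (on_Mp.1 h1)

theorem snc_genI {y : Pt 𝒜} {J : Ideal A} {z : loc y} (h0 : z ≠ 0)
    (e : sncE y J = Ideal.span {z}) : ∃ n g, (MX 𝒜).GenI J y n g := by
  obtain ⟨n, g, hg, b, hb, h1, h2, ez⟩ : z ∈ sncE y J := e ▸ Ideal.mem_span_singleton_self _
  refine ⟨n, g, h1, hg, fun k => h0 (Subtype.ext ?_), fun l a ha ha' => ?_⟩
  · have k' : algebraMap A (FractionRing A) g = 0 := k
    rw [ez, k', zero_div]; rfl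
  · have h3 := sncD_mem (y := y) ha' ha
    rw [e] at h3
    obtain ⟨w, hw⟩ := Ideal.mem_span_singleton'.1 h3
    obtain ⟨r, c, hc, d, hd, h4, ew⟩ := mem_loc.1 w.2
    have h5 : ell y ^ l ∉ pr y := md_pow_not_mem (ell_spec y).2 l
    have h6 : (w : FractionRing A) * (z : FractionRing A) = _ :=
      (congrArg Subtype.val hw).trans (sncD_val y ha')
    rw [ew, ez, div_mul_div_comm, ← map_mul, ← map_mul] at h6
    have h7 := snc_cross (md_mul_not_mem h4 h2) h5 h6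
    refine ⟨r + n, r + l, d * b, SetLike.mul_mem_graded hd hb, c * ell y ^ l,
      SetLike.mul_mem_graded hc (md_pow_mem (ell_spec y).1 l), md_mul_not_mem h4 h2, by omega, ?_⟩
    congr 1
    linear_combination -h7

theorem snc_of_genI {y : Pt 𝒜} {J : Ideal A} {n : ℕ} {g : A} (h : (MX 𝒜).GenI J y n g) :
    sncE y J = Ideal.span {sncD y h.2.1} := by
  refine le_antisymm ?_ ((Ideal.span_singleton_le_iff_mem _).2 (sncD_mem _ h.1))
  rintro z ⟨l, a, ha, b, hb, h1, h2, ez⟩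
  obtain ⟨r, s, c, hc, d, hd, h3, h4, h5⟩ := h.2.2.2 l a h1 ha
  have h6 : ell y ^ n ∉ pr y := md_pow_not_mem (ell_spec y).2 n
  have h7 : d * ell y ^ n ∈ 𝒜 (r + l) :=
    h4 ▸ SetLike.mul_mem_graded hd (md_pow_mem (ell_spec y).1 n)
  refine Ideal.mem_span_singleton'.2 ⟨⟨_, mem_loc.2 ⟨r + l, d * ell y ^ n, h7, c * b,
    SetLike.mul_mem_graded hc hb, md_mul_not_mem h3 h2, rfl⟩⟩, Subtype.ext ?_⟩
  have h8 : algebraMap A (FractionRing A) c * algebraMap A (FractionRing A) a =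
      algebraMap A (FractionRing A) d * algebraMap A (FractionRing A) g := by
    rw [← map_mul, ← map_mul]; exact h5
  rw [Subring.coe_mul, sncD_val, ez]
  dsimp only
  rw [map_mul, map_mul]
  have := md_alg_ne h6
  have := md_alg_ne h2
  have := md_alg_ne h3
  field_simp
  linear_combination -h8

theorem snc_lp (hsnc : SNC 𝒜) (j : Comp 𝒜 p) : (MX 𝒜).LP (cI j) := fun y hy => by
  by_cases h : cI j ≤ pr y
  · obtain ⟨D⟩ := snc_data hsnc (h j.1.2)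
    obtain ⟨i, -, e⟩ := D.of_comp h
    exact snc_genI (D.ne i) e
  · obtain ⟨n, a, ha, h1, h2⟩ := md_exists_not_mem (pr_hom j.1.1) h
    exact ⟨n, a, (MX 𝒜).genI_of_not_mem hy h1 ha h2⟩

theorem snc_prod_mem {α : Type} (s : Finset α) (e M : α → ℕ) (g : α → A) (h : ∀ j, g j ∈ 𝒜 (e j)) :
    ∏ j ∈ s, g j ^ M j ∈ 𝒜 (∑ j ∈ s, M j * e j) :=
  SetLike.prod_mem_graded 𝒜 (fun j => M j * e j) (fun j => g j ^ M j) fun j _ => by
    simpa using SetLike.pow_mem_graded (M j) (h j)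

theorem snc_eqn (hsnc : SNC 𝒜) {M : Comp 𝒜 p → ℕ} (hM : ∀ j : Comp 𝒜 p, SncMu p j.1.1 (M j))
    (y : Vp 𝒜 p) (e : Comp 𝒜 p → ℕ) (g : Comp 𝒜 p → A)
    (h : ∀ j, (MX 𝒜).GenI (cI j) y.1 (e j) (g j)) : ∃ n n', ∃ b ∈ 𝒜 n, ∃ c ∈ 𝒜 n',
      b ∉ pr y.1 ∧ c ∉ pr y.1 ∧ n = n' + ∑ j, M j * e j ∧ b * p = c * ∏ j, g j ^ M j := by
  obtain ⟨D⟩ := snc_data hsnc y.2
  obtain ⟨u, hu⟩ := D.assoc hM _ fun j => snc_of_genI (h j)
  obtain ⟨n, c, hc, b, hb, h1, eu⟩ := mem_loc.1 (u : loc y.1).2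
  have h2 : c ∉ pr y.1 := (snc_unit hc hb h1 eu).1 u.isUnit
  have h3 : ell y.1 ^ (∑ j : Comp 𝒜 p, M j * e j) ∉ pr y.1 := md_pow_not_mem (ell_spec y.1).2 _
  refine ⟨_, n, b * ell y.1 ^ (∑ j : Comp 𝒜 p, M j * e j),
    SetLike.mul_mem_graded hb (md_pow_mem (ell_spec y.1).1 _), c, hc, md_mul_not_mem h1 h3, h2, rfl,
    ?_⟩
  have h4 : ((∏ j : Comp 𝒜 p, sncD y.1 (h j).2.1 ^ M j : loc y.1) : FractionRing A) =
      algebraMap A (FractionRing A) (∏ j : Comp 𝒜 p, g j ^ M j) /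
        algebraMap A (FractionRing A) (ell y.1 ^ (∑ j : Comp 𝒜 p, M j * e j)) := by
    rw [SubmonoidClass.coe_finsetProd, ← Finset.prod_pow_eq_pow_sum, map_prod, map_prod,
      ← Finset.prod_div_distrib]
    refine Finset.prod_congr rfl fun j _ => ?_
    rw [SubmonoidClass.coe_pow, sncD_val, div_pow, ← map_pow, ← map_pow, ← pow_mul, mul_comm]
  have h5 := congrArg Subtype.val hu
  rw [Subring.coe_mul, h4, eu, snc_p_val, div_mul_div_comm, ← map_mul, ← map_mul] at h5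
  have h6 := snc_cross (md_mul_not_mem h3 h1) (md_one_not_mem y.1) h5
  linear_combination -h6

theorem snc_deh (y : Pt 𝒜) : ∃ δ : A →+* loc y, ∀ n a (ha : a ∈ 𝒜 n), δ a = sncD y ha := by
  let f : ∀ n, 𝒜 n →+ loc y := fun n =>
    { toFun := fun a => ⟨_, md_div_ell_mem y a.2⟩
      map_zero' := Subtype.ext (by simp)
      map_add' := fun a b => Subtype.ext (by simp [add_div]) }
  have h1 : f 0 (GradedMonoid.GOne.one (A := fun i => 𝒜 i)) = 1 := Subtype.ext (by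
    change algebraMap A (FractionRing A) 1 / _ ^ 0 = 1
    simp)
  have h2 : ∀ {i j} (a : 𝒜 i) (b : 𝒜 j),
      f (i + j) (GradedMonoid.GMul.mul (A := fun i => 𝒜 i) a b) = f i a * f j b := by
    intro i j a b
    apply Subtype.ext
    change algebraMap A (FractionRing A) (a * b) / _ ^ (i + j) = _ / _ ^ i * (_ / _ ^ j)
    rw [map_mul, pow_add, div_mul_div_comm]
  refine ⟨(DirectSum.toSemiring f h1 h2).comp (DirectSum.decomposeRingEquiv 𝒜).toRingHom,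
    fun n a ha => ?_⟩
  have : (DirectSum.decomposeRingEquiv 𝒜).toRingHom a = DirectSum.of (fun i => 𝒜 i) n ⟨a, ha⟩ :=
    DirectSum.decompose_of_mem 𝒜 ha
  rw [RingHom.comp_apply, this, DirectSum.toSemiring_of]
  rfl

section gen
variable {k K : Type} [CommRing k] [Field K] [Algebra k K] (N : AM 𝒜 k K)

theorem snc_isCl_mul (hV : Mdl N.V) {J J' : Ideal A} {D D' : Car N.V}
    (h : J.IsHomogeneous 𝒜 ∧ IsCl D (N.fam J)) (h' : J'.IsHomogeneous 𝒜 ∧ IsCl D' (N.fam J')) :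
    (J * J').IsHomogeneous 𝒜 ∧ IsCl (D * D') (N.fam (J * J')) :=
  haveI := N.noeth
  ⟨h.1.mul h'.1, (tw_mul hV (fg_pw' hV.1) D D').trans
    ((tw_congr D h'.2).trans (N.tw_fam h.1 h'.1 hV h.2))⟩

theorem snc_isCl_one (hV : Mdl N.V) :
    (1 : Ideal A).IsHomogeneous 𝒜 ∧ IsCl (1 : Car N.V) (N.fam 1) := by
  rw [Ideal.one_eq_top]
  exact ⟨Ideal.IsHomogeneous.top 𝒜, (tw_one (fg_pw' hV.1)).trans
    (Eventually.of_forall fun n => (N.fam_top n).symm)⟩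

theorem snc_isCl_prod (hV : Mdl N.V) {α : Type} (s : Finset α) {J : α → Ideal A}
    {D : α → Car N.V} (h : ∀ j, (J j).IsHomogeneous 𝒜 ∧ IsCl (D j) (N.fam (J j)))
    (M : α → ℕ) : (∏ j ∈ s, J j ^ M j).IsHomogeneous 𝒜 ∧
      IsCl (∏ j ∈ s, D j ^ M j) (N.fam (∏ j ∈ s, J j ^ M j)) := by
  classical
  have hp : ∀ j r, (J j ^ r).IsHomogeneous 𝒜 ∧ IsCl (D j ^ r) (N.fam (J j ^ r)) := by
    intro j r
    induction r with
    | zero => rw [pow_zero, pow_zero]; exact snc_isCl_one N hV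
    | succ r ih => rw [pow_succ, pow_succ]; exact snc_isCl_mul N hV ih (h j)
  induction s using Finset.induction_on with
  | empty => rw [Finset.prod_empty, Finset.prod_empty]; exact snc_isCl_one N hV
  | insert a s ha ih =>
    rw [Finset.prod_insert ha, Finset.prod_insert ha]
    exact snc_isCl_mul N hV (hp a _) ih

theorem snc_isCl_prin (hV : Mdl N.V) {c : A} (hc : c ∈ 𝒜 0) (h0 : N.θ c ≠ 0) :
    IsCl (prin N.V (Units.mk0 _ h0)) (N.fam (Ideal.span {c})) := by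
  refine (tw_prin (fg_pw' hV.1) _).trans (Eventually.of_forall fun n => ?_)
  ext z
  rw [N.mem_fam]
  constructor
  · rintro ⟨w, hw, rfl⟩
    obtain ⟨a, ha, rfl⟩ := N.mem_pow.1 hw
    exact ⟨c * a, Ideal.mul_mem_right _ _ (Ideal.mem_span_singleton_self c),
      by simpa using SetLike.mul_mem_graded hc ha, map_mul _ _ _⟩
  · rintro ⟨a, h1, ha, rfl⟩
    obtain ⟨b, rfl⟩ := Ideal.mem_span_singleton'.1 h1
    refine ⟨_, N.mem_pow.2 ⟨_, md_proj_mem n b, rfl⟩, ?_⟩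
    have h2 := md_proj_mul hc n b
    rw [add_zero, md_proj_same ha] at h2
    rw [h2, mul_comm, map_mul]
    rfl

theorem snc_fam_le (J J' : Ideal A) (h : ∀ n, ∀ a ∈ 𝒜 n, a ∈ J → ∀ y : Pt 𝒜,
    ∃ m, ∃ b ∈ 𝒜 m, b ∉ pr y ∧ b * a ∈ J') : N.fam J ≤ᶠ[atTop] N.fam J' := by
  refine N.local_global (N.fg_fam J) (N.fg_fam J').fam
    (Eventually.of_forall fun n w hw y _ => ?_)
  obtain ⟨a, h4, ha, rfl⟩ := N.mem_fam.1 hw
  obtain ⟨m, b, hb, h5, h6⟩ := h n a ha h4 y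
  exact ⟨m, b, hb, h5, N.mem_fam.2 ⟨b * a, h6,
    add_comm m n ▸ SetLike.mul_mem_graded hb ha, map_mul _ _ _⟩⟩

theorem snc_rel_gen (hV : Mdl N.V) {α : Type} [Fintype α] {J : α → Ideal A} {D : α → Car N.V}
    (h : ∀ j, (J j).IsHomogeneous 𝒜 ∧ IsCl (D j) (N.fam (J j))) (M : α → ℕ) {c : A}
    (hc : c ∈ 𝒜 0) (h0 : N.θ c ≠ 0)
    (h1 : ∀ n, ∀ a ∈ 𝒜 n, a ∈ ∏ j, J j ^ M j → ∀ y : Pt 𝒜,
      ∃ m, ∃ b ∈ 𝒜 m, b ∉ pr y ∧ b * a ∈ Ideal.span {c})
    (h2 : ∀ n, ∀ a ∈ 𝒜 n, a ∈ Ideal.span {c} → ∀ y : Pt 𝒜,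
      ∃ m, ∃ b ∈ 𝒜 m, b ∉ pr y ∧ b * a ∈ ∏ j, J j ^ M j) : ∏ j, cl (D j) ^ M j = 1 := by
  have := N.noeth
  have h5 := IsCl.unique hV (EventuallyEq.trans (snc_isCl_prod N hV Finset.univ h M).2
    (EventuallyLE.antisymm (snc_fam_le N _ _ h1) (snc_fam_le N _ _ h2))) (snc_isCl_prin N hV hc h0)
  have h6 : cl (1 : Car N.V) = cl (∏ j, D j ^ M j) :=
    cl_eq_iff.2 ⟨_, h5.trans (one_mul _).symm⟩
  rw [map_one, map_prod] at h6
  simpa only [map_pow] using h6.symm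

end gen

theorem snc_map_prod {R : Type} [CommRing R] (δ : A →+* R) {α : Type} [Fintype α]
    (J : α → Ideal A) (M : α → ℕ) (γ : α → R) (h : ∀ j, (J j).map δ ≤ Ideal.span {γ j}) :
    (∏ j, J j ^ M j).map δ ≤ Ideal.span {∏ j, γ j ^ M j} := by
  rw [← Ideal.prod_span_singleton, ← Ideal.mapHom_apply, map_prod]
  refine Finset.prod_le_prod' fun j _ => ?_
  rw [map_pow, ← Ideal.span_singleton_pow, Ideal.mapHom_apply]
  exact Ideal.pow_right_mono (h j) _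

theorem snc_rel1 (hsnc : SNC 𝒜) {M : Comp 𝒜 p → ℕ} (hM : ∀ j : Comp 𝒜 p, SncMu p j.1.1 (M j))
    {n : ℕ} {a : A} (ha : a ∈ 𝒜 n) (h5 : a ∈ ∏ j : Comp 𝒜 p, cI j ^ M j) (y : Pt 𝒜) :
    ∃ m, ∃ b ∈ 𝒜 m, b ∉ pr y ∧ b * a ∈ Ideal.span {(p : A)} := by
  by_cases hy : (p : A) ∈ pr y
  · obtain ⟨D⟩ := snc_data hsnc hy
    choose e g hg using fun j : Comp 𝒜 p => snc_lp hsnc j y (on_MX y)
    have h6 := D.assoc hM _ fun j => snc_of_genI (hg j)
    obtain ⟨δ, hδ⟩ := snc_deh y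
    refine sncE_clear (md_pow_not_mem (ell_spec y).2 n) (sncD_val y ha) ?_
    have h7 := snc_map_prod δ (fun j : Comp 𝒜 p => cI j) M (fun j => sncD y (hg j).2.1) fun j => by
      rw [← snc_of_genI (hg j)]
      refine Ideal.map_le_iff_le_comap.2 (md_le_of_hom (pr_hom _) fun l c hc h8 => ?_)
      rw [Ideal.mem_comap, hδ l c hc]
      exact sncD_mem hc h8
    rw [Ideal.span_singleton_eq_span_singleton.2 h6] at h7
    have h8 : (p : loc y) ∈ sncE y (Ideal.span {(p : A)}) :=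
      ⟨0, p, md_natCast_mem p, 1, SetLike.one_mem_graded 𝒜, Ideal.mem_span_singleton_self _,
        md_one_not_mem y, snc_p_val y⟩
    rw [← hδ n a ha]
    exact (Ideal.span_singleton_le_iff_mem _).2 h8 (h7 (Ideal.mem_map_of_mem δ h5))
  · exact ⟨0, p, md_natCast_mem p, hy, Ideal.mul_mem_right _ _ (Ideal.mem_span_singleton_self _)⟩

theorem snc_rel2 (hsnc : SNC 𝒜) {M : Comp 𝒜 p → ℕ} (hM : ∀ j : Comp 𝒜 p, SncMu p j.1.1 (M j))
    {a : A} (h5 : a ∈ Ideal.span {(p : A)}) (y : Pt 𝒜) :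
    ∃ m, ∃ b ∈ 𝒜 m, b ∉ pr y ∧ b * a ∈ ∏ j : Comp 𝒜 p, cI j ^ M j := by
  choose e g hg using fun j : Comp 𝒜 p => snc_lp hsnc j y (on_MX y)
  have h6 : ∏ j : Comp 𝒜 p, g j ^ M j ∈ ∏ j : Comp 𝒜 p, cI j ^ M j :=
    Ideal.prod_mem_prod fun j _ => Ideal.pow_mem_pow (hg j).1 _
  by_cases hy : (p : A) ∈ pr y
  · obtain ⟨l, l', b, hb, c, -, h7, -, -, h8⟩ := snc_eqn hsnc hM ⟨y, hy⟩ e g hg
    obtain ⟨d, rfl⟩ := Ideal.mem_span_singleton'.1 h5
    refine ⟨l, b, hb, h7, ?_⟩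
    rw [mul_left_comm, h8]
    exact Ideal.mul_mem_left _ _ (Ideal.mul_mem_left _ _ h6)
  · refine ⟨_, _, snc_prod_mem Finset.univ e M g fun j => (hg j).2.1, fun k => ?_,
      Ideal.mul_mem_right _ _ h6⟩
    obtain ⟨j, -, h7⟩ := (Ideal.IsPrime.prod_mem_iff (hp := y.isPrime)).1 k
    exact AM.GenI.not_mem (MX 𝒜) (pr_hom _) (on_MX y) (hg j) (fun h8 => hy (h8 j.1.2))
      (y.isPrime.mem_of_pow_mem _ h7)

theorem snc_rel [CharZero A] (hsnc : SNC 𝒜) {M : Comp 𝒜 p → ℕ}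
    (hM : ∀ j : Comp 𝒜 p, SncMu p j.1.1 (M j)) {I : Comp 𝒜 p → Car (MX 𝒜).V}
    (hI : ∀ j, IsCl (I j) ((MX 𝒜).fam (cI j))) : ∏ j : Comp 𝒜 p, cl (I j) ^ M j = 1 := by
  rcases isEmpty_or_nonempty (Comp 𝒜 p) with h | ⟨⟨j0⟩⟩
  · exact Finset.prod_of_isEmpty _
  have hV : Mdl (MX 𝒜).V := (MX 𝒜).mdl (on_MX j0.1.1)
  have h0 : algebraMap A (FractionRing A) (p : A) ≠ 0 := fun k =>
    (Fact.out : p.Prime).ne_zero (by exact_mod_cast (FaithfulSMul.algebraMap_eq_zero_iff _ _).1 k)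
  exact snc_rel_gen (MX 𝒜) hV (J := fun j : Comp 𝒜 p => cI j) (fun j => ⟨pr_hom j.1.1, hI j⟩) M
    (md_natCast_mem p) h0 (fun n a ha h5 y => snc_rel1 hsnc hM ha h5 y)
    fun n a _ h5 y => snc_rel2 hsnc hM h5 y

theorem exists_fib [CharZero A] (hsnc : SNC 𝒜) :
    ∃ (m : Comp 𝒜 p → ℕ) (I : Comp 𝒜 p → Car (MX 𝒜).V), Fib m I := by
  have hm : ∀ j : Comp 𝒜 p, ∃ r, 0 < r ∧ SncMu p j.1.1 r := fun j => by
    obtain ⟨D⟩ := snc_data hsnc j.1.2
    obtain ⟨i, h1, h2⟩ := D.of_comp (j := j) le_rfl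
    exact ⟨_, h1, D.mu le_rfl h2⟩
  choose M h0 hM using hm
  choose I hI using fun j : Comp 𝒜 p =>
    AM.LP.exists_isCl (MX 𝒜) (snc_lp hsnc j) (on_MX j.1.1)
  refine ⟨M, I, h0, snc_lp hsnc, hI, snc_rel hsnc hM hI, snc_eqn hsnc hM,
    fun σ y hσ h => ?_, fun σ S j hσ hS h => ?_, ufd_comp hsnc⟩
  · obtain ⟨D⟩ := snc_data hsnc y.2
    obtain ⟨T, h1, h2, h3, -⟩ := D.strat σ hσ h
    exact ⟨T, h1, h2, fun n a ha ha' => sncE_clear (md_pow_not_mem (ell_spec y.1).2 n)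
      (sncD_val y.1 ha') (h3 (sncD_mem ha' ha))⟩
  · obtain ⟨D⟩ := snc_data hsnc S.2
    obtain ⟨T, h1, h2, -, h3⟩ := D.strat σ hσ hS.1
    obtain rfl : T = S := hS.2 T h2.1 h1
    exact h3 j h

end

end Pool.Agent.Lib.MP_62d77c_ag
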