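import Pool.Agent.Lib.MP_62d77c_ag.StepA

/-! The first Tor against a component: the two basic cases. -/

set_option autoImplicit false
set_option linter.unusedSectionVars false
set_option linter.unusedVariables false

namespace Pool.Agent.Lib.MP_62d77c_ag

open Filter Polynomial Submodule

noncomputable section

variable {A : Type} [CommRing A] [IsDomain A] {𝒜 : ℕ → AddSubgroup A} [GradedRing 𝒜]
  [hG : Fact (Gen 𝒜)] {p : ℕ} [Fact p.Prime] {j : Vp 𝒜 p} {C : Pic (Mp j).V}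

theorem Cls.step_zero (h : Cls j C) (n : ℕ) : h.κ n 0 = 0 := by
  have := h.add n 0 (zero_mem _) 0 (zero_mem _) (zero_mem _) (zero_mem _)
  rw [add_zero] at this
  exact left_eq_add.1 this

theorem Cls.step_sub (h : Cls j C) {n : ℕ} {s t : A} (hs : s ∈ pr j.1) (ht : t ∈ pr j.1)
    (h1 : s ∈ 𝒜 n) (h2 : t ∈ 𝒜 n) : h.κ n (s - t) = h.κ n s - h.κ n t := by
  have := h.add n (s - t) (sub_mem hs ht) t ht (sub_mem h1 h2) h2
  rw [sub_add_cancel] at this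
  rw [this, add_sub_cancel_right]

/-- the image of a subideal in the conormal bundle -/
def Cls.stepKf (h : Cls j C) (J : Ideal A) (n : ℕ) : Submodule (ZMod p) (kap j.1) :=
  span (ZMod p) (h.κ n '' {s | s ∈ J ∧ s ∈ 𝒜 n})

theorem Cls.step_mem_kf (h : Cls j C) {J : Ideal A} (hJ : J ≤ pr j.1) {n : ℕ} {z : kap j.1} :
    z ∈ h.stepKf J n ↔ ∃ s ∈ J, s ∈ 𝒜 n ∧ h.κ n s = z := by
  rw [Cls.stepKf, step_mem_span]
  · constructor
    · rintro ⟨c, ⟨h1, h2⟩, h3⟩; exact ⟨c, h1, h2, h3⟩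
    · rintro ⟨c, h1, h2, h3⟩; exact ⟨c, ⟨h1, h2⟩, h3⟩
  · exact ⟨0, ⟨zero_mem _, zero_mem _⟩, h.step_zero n⟩
  · rintro _ ⟨c, ⟨h1, h2⟩, rfl⟩ _ ⟨d, ⟨h3, h4⟩, rfl⟩
    exact ⟨c + d, ⟨add_mem h1 h3, add_mem h2 h4⟩, h.add n c (hJ h1) d (hJ h3) h2 h4⟩

theorem Cls.step_smul_kf (h : Cls j C) {J : Ideal A} (hJ : J ≤ pr j.1) {n l : ℕ} {z : kap j.1}
    (hz : z ∈ h.stepKf J n) {x : A} (hx : x ∈ 𝒜 l) : th j.1 x • z ∈ h.stepKf J (l + n) := by
  obtain ⟨s, h1, h2, rfl⟩ := (h.step_mem_kf hJ).1 hz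
  exact (h.step_mem_kf hJ).2 ⟨x * s, J.mul_mem_left x h1, SetLike.mul_mem_graded hx h2,
    h.mul l n x hx s (hJ h1) h2⟩

theorem Cls.step_fg_kf (h : Cls j C) {J : Ideal A} (hJ : J ≤ pr j.1) :
    Fg (Mp j).V (h.stepKf J) := by
  obtain ⟨D, -, hD⟩ := h.cls
  refine Fg.of_le (Mp j).V_fg (hD.fg (mdl_Mp j)) (step_fam (Eventually.of_forall fun n v hv x hx =>
    add_comm 1 n ▸ h.step_smul_kf hJ hv hx)) (Eventually.of_forall fun n => ?_)
  exact span_mono (Set.image_mono fun s hs => ⟨hJ hs.1, hs.2⟩)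

theorem Cls.step_ne (h : Cls j C) {y : Pt 𝒜} (hy : pr j.1 ≤ pr y) {e : ℕ} {g : A}
    (hg : (MX 𝒜).GenI (pr j.1) y e g) : h.κ e g ≠ 0 := by
  intro h0
  obtain ⟨D, -, hD⟩ := h.cls
  obtain ⟨n, hn⟩ := (hD.rep (mdl_Mp j)).exists
  refine hn.ne_bot (mdl_Mp j) (span_eq_bot.2 ?_)
  rintro _ ⟨s, ⟨h1, h2⟩, rfl⟩
  obtain ⟨m, l, b, hb, c, hc, h3, h4, h5⟩ := step_gen hg h1 h2
  have e1 := h.mul m n b hb s h1 h2
  rw [h5, h4, h.mul l e c hc g hg.1 hg.2.1, h0, mul_zero] at e1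
  exact (mul_eq_zero.1 e1.symm).resolve_left fun hb0 => h3 (hy ((th_eq_zero j.1 hb).1 hb0))

theorem Cls.step_ker (h : Cls j C) {y : Pt 𝒜} (hy : pr j.1 ≤ pr y) {n : ℕ} {s : A}
    (hs : s ∈ pr j.1) (hn : s ∈ 𝒜 n) (h0 : h.κ n s = 0) :
    ∃ m, ∃ b ∈ 𝒜 m, b ∉ pr y ∧ b * s ∈ pr j.1 * pr j.1 := by
  obtain ⟨e, g, hg⟩ := h.lp y (on_MX y)
  obtain ⟨m, l, b, hb, c, hc, h3, h4, h5⟩ := step_gen hg hs hn
  have e1 := h.mul m n b hb s hs hn
  rw [h5, h4, h.mul l e c hc g hg.1 hg.2.1, h0, mul_zero] at e1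
  exact ⟨m, b, hb, h3, h5 ▸ Ideal.mul_mem_mul
    ((th_eq_zero j.1 hc).1 ((mul_eq_zero.1 e1).resolve_right (h.step_ne hy hg))) hg.1⟩

theorem Cls.step_hq_top (h : Cls j C) (D : Pic (Mp j).V) :
    hq (Mp j).V (h.stepKf (pr j.1)) D = PP (Mp j).V (D * C) := by
  obtain ⟨D₀, e, hD⟩ := h.cls
  subst e
  exact hD.hq_eq (mdl_Mp j) D

theorem Cls.step_hq_mul (h : Cls j C) {𝔮 : Ideal A} (hq' : 𝔮.IsHomogeneous 𝒜) (D : Pic (Mp j).V) :
    hq (Mp j).V (h.stepKf (𝔮 * pr j.1)) D = hq (Mp j).V ((Mp j).fam 𝔮) (D * C) := by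
  obtain ⟨D₀, e, hD⟩ := h.cls
  have hD' : IsCl D₀ (h.stepKf (pr j.1)) := hD
  have hle : 𝔮 * pr j.1 ≤ pr j.1 := Ideal.mul_le_right
  subst e
  rw [← hq_tw (mdl_Mp j) ((Mp j).fg_fam 𝔮)]
  obtain ⟨e₀, h1, h2⟩ := ((hD'.rep (mdl_Mp j)).and (hD'.fg (mdl_Mp j)).pow_smul).exists
  have h3 := tw_rep ((Mp j).fg_fam 𝔮) h1
  have h4 : Fg (Mp j).V fun n => h.stepKf (pr j.1) e₀ • (Mp j).fam 𝔮 (n - e₀) :=
    (((Mp j).fg_fam 𝔮).tw (mdl_Mp j) D₀).congr h3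
  refine congrFun (hq_congr (EventuallyEq.trans ?_ h3.symm)) D
  refine EventuallyLE.antisymm ?_ ?_
  · refine Fg.le_of_mem (Mp j).V_fg (h.step_fg_kf hle) h4.fam (Eventually.of_forall fun n w hw => ?_)
    obtain ⟨x, hx, hn, rfl⟩ := (h.step_mem_kf hle).1 hw
    refine ⟨e₀, fun v hv => ?_⟩
    obtain ⟨a, ha, rfl⟩ := (Mp j).mem_pow.1 hv
    rw [Nat.add_sub_cancel]
    refine step_mul_ind (P := fun x => (Mp j).θ a • h.κ n x ∈
      h.stepKf (pr j.1) e₀ • (Mp j).fam 𝔮 n) hq' (pr_hom j.1) ?_ ?_ ?_ hx hn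
    · simp [h.step_zero]
    · intro x hx y hy h5 h6 h7 h8
      rw [h.add n x (hle hx) y (hle hy) h5 h6, smul_add]
      exact add_mem h7 h8
    · rintro l m rfl q hq s hs h5 h6
      have h7 : th j.1 a • h.κ m s ∈ h.stepKf (pr j.1) (e₀ + m) :=
        h.step_smul_kf le_rfl ((h.step_mem_kf le_rfl).2 ⟨s, hs, h6, rfl⟩) ha
      rw [h2 m] at h7
      have h8 : (Mp j).θ a • h.κ (l + m) (q * s) = th j.1 q * (th j.1 a • h.κ m s) := by
        rw [h.mul l m q h5 s hs h6]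
        change th j.1 a * _ = _
        rw [smul_eq_mul]; ring
      rw [h8]
      refine Submodule.smul_induction_on (p := fun z => th j.1 q * z ∈
        h.stepKf (pr j.1) e₀ • (Mp j).fam 𝔮 (l + m)) h7 ?_ ?_
      · intro v hv z hz
        obtain ⟨b, hb, rfl⟩ := (Mp j).mem_pow.1 hv
        have : th j.1 q * ((Mp j).θ b • z) = z • (Mp j).θ (q * b) := by
          change th j.1 q * (th j.1 b * z) = z * th j.1 (q * b)
          rw [map_mul]; ring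
        rw [this]
        exact smul_mem_smul hz ((Mp j).mem_fam.2 ⟨q * b, 𝔮.mul_mem_right b hq,
          SetLike.mul_mem_graded h5 hb, rfl⟩)
      · intro x y h9 h10
        rw [mul_add]; exact add_mem h9 h10
  · filter_upwards [eventually_ge_atTop e₀] with n hn
    refine Submodule.smul_le.2 fun z hz w hw => ?_
    obtain ⟨s, hs, h5, rfl⟩ := (h.step_mem_kf le_rfl).1 hz
    obtain ⟨q, hq, h6, rfl⟩ := (Mp j).mem_fam.1 hw
    refine (h.step_mem_kf hle).2 ⟨q * s, Ideal.mul_mem_mul hq hs, ?_, ?_⟩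
    · have := SetLike.mul_mem_graded h6 h5
      rwa [Nat.sub_add_cancel hn] at this
    · have := h.mul (n - e₀) e₀ q h6 s hs h5
      rw [Nat.sub_add_cancel hn] at this
      rw [this, smul_eq_mul, mul_comm]
      rfl

theorem step_colon_mul {𝔞 I : Ideal A} {f x : A} (h : x ∈ 𝔞.colon {f} * I) : x * f ∈ 𝔞 * I := by
  refine Submodule.mul_induction_on (C := fun x => x * f ∈ 𝔞 * I) h ?_ ?_
  · intro q hq s hs
    rw [Submodule.mem_colon_singleton, smul_eq_mul] at hq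
    rw [mul_right_comm]
    exact Ideal.mul_mem_mul hq hs
  · intro x y h1 h2
    rw [add_mul]; exact add_mem h1 h2

theorem step_lat_mono {β : Type} (a : β → ℕ) {Z Z' : Submodule A (β → A)} (h : Z ≤ Z') (n : ℕ) :
    lat j a Z n ≤ lat j a Z' n := fun v hv => by
  obtain ⟨c, h1, h2⟩ := mem_lat.1 hv
  exact mem_lat.2 ⟨c, h h1, h2⟩

theorem step_key_B {β : Type} [Fintype β] {a : β → ℕ} {ε : (β → A) →ₗ[A] A}
    (hε : ∀ n, ∀ v ∈ piece 𝒜 a n, ε v ∈ 𝒜 n) {f : A} {e : ℕ} (hf : f ∈ 𝒜 e)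
    (hT : TorFree 𝒜 (pr j.1) (Submodule.colon (LinearMap.range ε) {f})) :
    lat j a (Submodule.comap ε (pr j.1 * Ideal.span {f})) =ᶠ[atTop] lat j a (LinearMap.ker ε) := by
  refine EventuallyLE.antisymm ((Mp j).local_global (fg_lat j a _) (fg_lat j a _).fam ?_)
    (Eventually.of_forall fun n => step_lat_mono a (fun c hc => ?_) n)
  · filter_upwards [eventually_ge_atTop e] with n hn w hw y hy
    obtain ⟨c, h1, h2, rfl⟩ := mem_lat.1 hw
    obtain ⟨x, hx, h3, h4⟩ := step_split (Ideal.IsHomogeneous.bot 𝒜) (pr_hom j.1) hf hn (hε n c h2)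
      (Ideal.mem_sup_right h1)
    have h5 : ε c = x * f := sub_eq_zero.1 h4
    obtain ⟨l, b, hb, h6, h7⟩ := hT y (n - e) x
      (Submodule.mem_colon_singleton.2 ⟨c, h5⟩) hx h3
    exact ⟨l, b, hb, h6, step_to_B hε h2 hb (by rw [h5, ← mul_assoc]; exact step_colon_mul h7)⟩
  · rw [Submodule.mem_comap, LinearMap.mem_ker.1 hc]
    exact zero_mem _

/-- the graph lattice -/
def Cls.stepG (h : Cls j C) {β : Type} (a : β → ℕ) (ε : (β → A) →ₗ[A] A) (f : A) (e n : ℕ) :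
    Submodule (ZMod p) ((β → kap j.1) × kap j.1) :=
  span (ZMod p) {w | ∃ c ∈ piece 𝒜 a n, ∃ x ∈ pr j.1, x ∈ 𝒜 (n - e) ∧ ε c = x * f ∧
    w = (fun i => th j.1 (c i), h.κ (n - e) x)}

theorem Cls.step_mem_G (h : Cls j C) {β : Type} {a : β → ℕ} {ε : (β → A) →ₗ[A] A} {f : A} {e n : ℕ}
    {w : (β → kap j.1) × kap j.1} : w ∈ h.stepG a ε f e n ↔
      ∃ c ∈ piece 𝒜 a n, ∃ x ∈ pr j.1, x ∈ 𝒜 (n - e) ∧ ε c = x * f ∧
        w = (fun i => th j.1 (c i), h.κ (n - e) x) := by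
  rw [Cls.stepG, step_mem_span]
  · rfl
  · exact ⟨0, zero_mem _, 0, zero_mem _, zero_mem _, by simp, by
      rw [h.step_zero]; ext i <;> simp⟩
  · rintro _ ⟨c, h1, x, h2, h3, h4, rfl⟩ _ ⟨d, h5, y, h6, h7, h8, rfl⟩
    exact ⟨c + d, add_mem h1 h5, x + y, add_mem h2 h6, add_mem h3 h7, by
      rw [map_add, h4, h8, add_mul], by rw [h.add _ x h2 y h6 h3 h7]; ext i <;> simp⟩

theorem Cls.step_smul_G (h : Cls j C) {β : Type} {a : β → ℕ} {ε : (β → A) →ₗ[A] A} {f : A}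
    {e n l : ℕ} (hn : e ≤ n) {w : (β → kap j.1) × kap j.1} (hw : w ∈ h.stepG a ε f e n) {b : A}
    (hb : b ∈ 𝒜 l) : th j.1 b • w ∈ h.stepG a ε f e (n + l) := by
  obtain ⟨c, h1, x, h2, h3, h4, rfl⟩ := h.step_mem_G.1 hw
  have e1 : n + l - e = l + (n - e) := by omega
  refine h.step_mem_G.2 ⟨b • c, step_smul_piece h1 hb, b * x, Ideal.mul_mem_left _ b h2,
    e1 ▸ SetLike.mul_mem_graded hb h3, by rw [map_smul, h4, smul_eq_mul, mul_assoc], ?_⟩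
  rw [e1, h.mul l _ b hb x h2 h3]
  ext i <;> simp

theorem Cls.step_fg_G (h : Cls j C) {β : Type} [Fintype β] (a : β → ℕ) (ε : (β → A) →ₗ[A] A) (f : A)
    (e : ℕ) : Fg (Mp j).V (h.stepG a ε f e) := by
  have h1 := ((fg_lat j a ⊤).map (LinearMap.inl (kap j.1) (β → kap j.1) (kap j.1))).sup
    (((h.step_fg_kf le_rfl).sub e).map (LinearMap.inr (kap j.1) (β → kap j.1) (kap j.1)))
  refine Fg.of_le (Mp j).V_fg h1 (step_fam ?_) (Eventually.of_forall fun n w hw => ?_)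
  · filter_upwards [eventually_ge_atTop e] with n hn v hv x hx
    exact h.step_smul_G hn hv hx
  · obtain ⟨c, h1, x, h2, h3, h4, rfl⟩ := h.step_mem_G.1 hw
    exact Submodule.mem_sup.2 ⟨_, ⟨_, mem_lat.2 ⟨c, trivial, h1, rfl⟩, rfl⟩, _,
      ⟨_, (h.step_mem_kf le_rfl).2 ⟨x, h2, h3, rfl⟩, rfl⟩, by simp⟩

theorem Cls.step_key_A (h : Cls j C) {β : Type} [Fintype β] {a : β → ℕ} {ε : (β → A) →ₗ[A] A}
    (hε : ∀ n, ∀ v ∈ piece 𝒜 a n, ε v ∈ 𝒜 n) {f : A} {e : ℕ} (hf : f ∈ 𝒜 e)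
    (hle : pr j.1 ≤ Submodule.colon (LinearMap.range ε) {f}) (D : Pic (Mp j).V) :
    hq (Mp j).V (lat j a (Submodule.comap ε (pr j.1 * Ideal.span {f}))) D -
      hq (Mp j).V (lat j a (LinearMap.ker ε)) D =
      (Phi j (Submodule.colon (LinearMap.range ε) {f}) (D * C)).comp (X - Polynomial.C (e : ℚ)) := by
  set 𝔮 : Ideal A := Submodule.colon (LinearMap.range ε) {f} with h𝔮
  have hah := step_range_hom hε
  have hqh : 𝔮.IsHomogeneous 𝒜 := step_colon_hom hah hf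
  have hQ : 𝔮 * pr j.1 ≤ pr j.1 := Ideal.mul_le_right
  have hΓ := h.step_fg_G a ε f e
  have hB := fg_lat j a (LinearMap.ker ε)
  have hM := (h.step_fg_kf hQ).sub e
  have i1 := hq_iso (mdl_Mp j) hΓ hB (LinearMap.fst (kap j.1) (β → kap j.1) (kap j.1)) D
  have i2 := hq_iso (mdl_Mp j) hΓ hM (LinearMap.snd (kap j.1) (β → kap j.1) (kap j.1)) D
  have e1 : (fun n => (h.stepG a ε f e n).map ((LinearMap.fst (kap j.1) (β → kap j.1)
      (kap j.1)).restrictScalars (ZMod p)) ⊔ lat j a (LinearMap.ker ε) n) =ᶠ[atTop]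
      lat j a (Submodule.comap ε (pr j.1 * Ideal.span {f})) := by
    filter_upwards [eventually_ge_atTop e] with n hn
    refine le_antisymm (sup_le ?_ (step_lat_mono a (fun c hc => ?_) n)) fun v hv => ?_
    · rintro _ ⟨w, hw, rfl⟩
      obtain ⟨c, h1, x, h2, h3, h4, rfl⟩ := h.step_mem_G.1 hw
      exact mem_lat.2 ⟨c, by
        rw [Submodule.mem_comap, h4]
        exact Ideal.mul_mem_mul h2 (Ideal.mem_span_singleton_self f), h1, rfl⟩
    · rw [Submodule.mem_comap, LinearMap.mem_ker.1 hc]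
      exact zero_mem _
    · obtain ⟨c, h1, h2, rfl⟩ := mem_lat.1 hv
      obtain ⟨x, hx, h3, h4⟩ := step_split (Ideal.IsHomogeneous.bot 𝒜) (pr_hom j.1) hf hn
        (hε n c h2) (Ideal.mem_sup_right h1)
      exact Submodule.mem_sup_left ⟨_, h.step_mem_G.2 ⟨c, h2, x, hx, h3, sub_eq_zero.1 h4, rfl⟩, rfl⟩
  have e2 : (fun n => (h.stepG a ε f e n).map ((LinearMap.snd (kap j.1) (β → kap j.1)
      (kap j.1)).restrictScalars (ZMod p)) ⊔ h.stepKf (𝔮 * pr j.1) (n - e)) =ᶠ[atTop]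
      fun n => h.stepKf (pr j.1) (n - e) := by
    filter_upwards [eventually_ge_atTop e] with n hn
    refine le_antisymm (sup_le ?_ (span_mono (Set.image_mono fun s hs => ⟨hQ hs.1, hs.2⟩)))
      fun v hv => ?_
    · rintro _ ⟨w, hw, rfl⟩
      obtain ⟨c, h1, x, h2, h3, h4, rfl⟩ := h.step_mem_G.1 hw
      exact (h.step_mem_kf le_rfl).2 ⟨x, h2, h3, rfl⟩
    · obtain ⟨x, h1, h2, rfl⟩ := (h.step_mem_kf le_rfl).1 hv
      have h3 := SetLike.mul_mem_graded h2 hf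
      rw [Nat.sub_add_cancel hn] at h3
      obtain ⟨c, h4, h5⟩ := step_lift hε h3 (Submodule.mem_colon_singleton.1 (hle h1))
      exact Submodule.mem_sup_left ⟨_, h.step_mem_G.2 ⟨c, h4, x, h1, h2, h5, rfl⟩, rfl⟩
  have e3 : (fun n => h.stepG a ε f e n ⊓ (lat j a (LinearMap.ker ε) n).comap
      ((LinearMap.fst (kap j.1) (β → kap j.1) (kap j.1)).restrictScalars (ZMod p))) =ᶠ[atTop]
      fun n => h.stepG a ε f e n ⊓ (h.stepKf (𝔮 * pr j.1) (n - e)).comap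
        ((LinearMap.snd (kap j.1) (β → kap j.1) (kap j.1)).restrictScalars (ZMod p)) := by
    have f1 := hΓ.inf (Mp j).V_fg (hB.fam.comap (LinearMap.fst (kap j.1) (β → kap j.1) (kap j.1)))
    have f2 := hΓ.inf (Mp j).V_fg (hM.fam.comap (LinearMap.snd (kap j.1) (β → kap j.1) (kap j.1)))
    refine EventuallyLE.antisymm ((Mp j).local_global f1 f2.fam ?_)
      ((Mp j).local_global f2 f1.fam ?_)
    · filter_upwards [eventually_ge_atTop e] with n hn w hw y hy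
      obtain ⟨c, h1, x, h2, h3, h4, rfl⟩ := h.step_mem_G.1 hw.1
      obtain ⟨d, h5, h6, h7⟩ := mem_lat.1 (Submodule.mem_comap.1 hw.2)
      have h8 := step_eps_mem ε h1 h6 h7
      rw [LinearMap.mem_ker.1 h5, sub_zero] at h8
      obtain ⟨o, g, hg⟩ := h.lp y (on_MX y)
      obtain ⟨m₁, b₁, hb₁, n₁, α, hα, r₁⟩ := step_gen_mul hah (pr_hom j.1) hg h8 (hε n c h1)
      obtain ⟨m₂, l, b₂, hb₂, u, -, n₂, -, r₂⟩ := step_gen hg h2 h3
      have r₃ : b₁ * u * f = b₂ * α := mul_right_cancel₀ (step_gen_ne hg) (by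
        rw [h4] at r₁
        linear_combination b₂ * r₁ - b₁ * f * r₂)
      have r₄ : b₁ * u ∈ 𝔮 := Submodule.mem_colon_singleton.2 (by
        rw [smul_eq_mul, r₃]; exact Ideal.mul_mem_left _ _ hα)
      have r₅ : b₁ * b₂ * x ∈ 𝔮 * pr j.1 := by
        rw [mul_assoc, r₂, ← mul_assoc]; exact Ideal.mul_mem_mul r₄ hg.1
      have hb := SetLike.mul_mem_graded hb₁ hb₂
      refine ⟨m₁ + m₂, b₁ * b₂, hb, step_mul_not n₁ n₂, h.step_smul_G hn hw.1 hb, ?_⟩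
      have e1 : n + (m₁ + m₂) - e = m₁ + m₂ + (n - e) := by omega
      refine (h.step_mem_kf hQ).2 ⟨_, r₅, e1 ▸ SetLike.mul_mem_graded hb h3, ?_⟩
      rw [e1, h.mul _ _ _ hb x h2 h3]
      rfl
    · filter_upwards [eventually_ge_atTop e] with n hn w hw y hy
      obtain ⟨c, h1, x, h2, h3, h4, rfl⟩ := h.step_mem_G.1 hw.1
      obtain ⟨x', h5, h6, h7⟩ := (h.step_mem_kf hQ).1 (Submodule.mem_comap.1 hw.2)
      obtain ⟨m, b, hb, n₁, r₁⟩ := h.step_ker (on_Mp.1 hy) (sub_mem h2 (hQ h5)) (sub_mem h3 h6)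
        (by rw [h.step_sub h2 (hQ h5) h3 h6, h7]; exact sub_self _)
      have r₂ : b * x ∈ 𝔮 * pr j.1 := by
        have := add_mem (Ideal.mul_mono_left hle r₁) (Ideal.mul_mem_left _ b h5)
        rwa [← mul_add, sub_add_cancel] at this
      exact ⟨m, b, hb, n₁, h.step_smul_G hn hw.1 hb,
        step_to_B hε h1 hb (by rw [h4, ← mul_assoc]; exact step_colon_mul r₂)⟩
  rw [hq_congr e1, hq_congr e3, i2, hq_congr e2, hq_sub (mdl_Mp j) (h.step_fg_kf le_rfl),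
    hq_sub (mdl_Mp j) (h.step_fg_kf hQ), h.step_hq_top, h.step_hq_mul hqh] at i1
  rw [← i1, Phi, sub_comp]

end

end Pool.Agent.Lib.MP_62d77c_ag
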