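import Pool.Agent.Lib.MP_62d77c_ag.StepB
import Pool.Agent.Lib.MP_62d77c_ag.StepC

/-! Additivity of the derived intersection with a component. -/

set_option autoImplicit false
set_option linter.unusedSectionVars false
set_option linter.unusedVariables false

namespace Pool.Agent.Lib.MP_62d77c_ag

open Filter Polynomial Submodule

noncomputable section

variable {A : Type} [CommRing A] [IsDomain A] {𝒜 : ℕ → AddSubgroup A} [GradedRing 𝒜]
  [hG : Fact (Gen 𝒜)] {p : ℕ} [Fact p.Prime]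

variable {j : Vp 𝒜 p} {C : Pic (Mp j).V}

theorem step_colon_one (𝔞 : Ideal A) : Submodule.colon 𝔞 {(1 : A)} = 𝔞 := by
  ext x
  rw [Submodule.mem_colon_singleton, smul_eq_mul, mul_one]

theorem TT_A (h : Cls j C) {β : Type} [Fintype β] {a : β → ℕ} {ε : (β → A) →ₗ[A] A}
    (hε : ∀ n, ∀ v ∈ piece 𝒜 a n, ε v ∈ 𝒜 n) (hle : pr j.1 ≤ LinearMap.range ε)
    (D : Pic (Mp j).V) :
    TT j a ε D = Phi j (LinearMap.range ε) D - Phi j (LinearMap.range ε) (D * C) := by
  have := h.step_key_A hε (SetLike.one_mem_graded 𝒜) (by rwa [step_colon_one]) D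
  rw [step_colon_one, Ideal.span_singleton_one, Ideal.mul_top] at this
  rw [TT, this]
  simp

theorem TT_B {β : Type} [Fintype β] {a : β → ℕ} {ε : (β → A) →ₗ[A] A}
    (hε : ∀ n, ∀ v ∈ piece 𝒜 a n, ε v ∈ 𝒜 n) (hT : TorFree 𝒜 (pr j.1) (LinearMap.range ε))
    (D : Pic (Mp j).V) : TT j a ε D = Phi j (LinearMap.range ε) D := by
  have := step_key_B (j := j) hε (SetLike.one_mem_graded 𝒜) (by rwa [step_colon_one])
  rw [Ideal.span_singleton_one, Ideal.mul_top] at this
  rw [TT, hq_congr this, sub_self, sub_zero]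

/-- one more generator -/
def stepExt {β : Type} (ε : (β → A) →ₗ[A] A) (f : A) : (Option β → A) →ₗ[A] A :=
  ε ∘ₗ LinearMap.funLeft A A some + (LinearMap.toSpanSingleton A A f) ∘ₗ LinearMap.proj none

omit hG in
theorem step_ext_apply {β : Type} (ε : (β → A) →ₗ[A] A) (f : A) (c : Option β → A) :
    stepExt ε f c = ε (fun i => c (some i)) + c none * f := rfl

omit hG in
theorem step_piece_opt {β : Type} {a : β → ℕ} {e n : ℕ} (hn : e ≤ n) {c : Option β → A} :
    c ∈ piece 𝒜 (fun o : Option β => o.elim e a) n ↔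
      c none ∈ 𝒜 (n - e) ∧ (fun i => c (some i)) ∈ piece 𝒜 a n := by
  simp only [mem_piece, Option.forall, Option.elim]
  simp [hn, not_lt.2 hn]

omit hG in
theorem step_ext_hom {β : Type} {a : β → ℕ} {ε : (β → A) →ₗ[A] A}
    (hε : ∀ n, ∀ v ∈ piece 𝒜 a n, ε v ∈ 𝒜 n) {f : A} {e : ℕ} (hf : f ∈ 𝒜 e) :
    ∀ n, ∀ v ∈ piece 𝒜 (fun o : Option β => o.elim e a) n, stepExt ε f v ∈ 𝒜 n := by
  intro n v hv
  rw [step_ext_apply]
  refine add_mem (hε n _ (mem_piece.2 fun i => mem_piece.1 hv (some i))) ?_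
  rcases le_or_gt e n with hn | hn
  · have := SetLike.mul_mem_graded ((mem_piece.1 hv none).1 hn) hf
    rwa [show n - (none : Option β).elim e a + e = n from Nat.sub_add_cancel hn] at this
  · rw [(mem_piece.1 hv none).2 hn, zero_mul]; exact zero_mem _

omit hG in
theorem step_ext_range {β : Type} (ε : (β → A) →ₗ[A] A) (f : A) :
    LinearMap.range (stepExt ε f) = (LinearMap.range ε : Ideal A) ⊔ Ideal.span {f} := by
  refine le_antisymm ?_ (sup_le ?_ ?_)
  · rintro _ ⟨c, rfl⟩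
    exact add_mem (Ideal.mem_sup_left ⟨_, rfl⟩)
      (Ideal.mem_sup_right (Ideal.mul_mem_left _ _ (Ideal.mem_span_singleton_self f)))
  · rintro _ ⟨c, rfl⟩
    exact ⟨fun o => o.elim 0 c, by simp [step_ext_apply]⟩
  · rw [Ideal.span_singleton_le_iff_mem]
    refine ⟨fun o => o.elim 1 0, ?_⟩
    rw [step_ext_apply]
    change ε 0 + 1 * f = f
    simp

theorem step_hq_inj {k K E E' : Type} [Field k] [Field K] [Algebra k K] [AddCommGroup E]
    [Module K E] [Module k E] [IsScalarTower k K E] [AddCommGroup E'] [Module K E'] [Module k E']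
    [IsScalarTower k K E'] {V : Submodule k K} (hV : Mdl V) {N : ℕ → Submodule k E} (hN : Fg V N)
    (φ : E →ₗ[K] E') (hφ : Function.Injective φ) (D : Pic V) :
    hq V (fun n => (N n).map (φ.restrictScalars k)) D = hq V N D := by
  have := hq_iso hV hN (fg_const_bot (E := E')) φ D
  have e : (fun n => N n ⊓ (⊥ : Submodule k E').comap (φ.restrictScalars k)) =
      fun _ => (⊥ : Submodule k E) := by
    funext n
    rw [Submodule.comap_bot, LinearMap.ker_eq_bot.2 (show Function.Injective (φ.restrictScalars k)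
      from hφ), inf_bot_eq]
  simp only [e, hq_bot, sup_bot_eq, sub_zero] at this
  exact this.symm

theorem step_opt {β : Type} [Fintype β] {a : β → ℕ} {ε : (β → A) →ₗ[A] A}
    (hε : ∀ n, ∀ v ∈ piece 𝒜 a n, ε v ∈ 𝒜 n) {f : A} {e : ℕ} (hf : f ∈ 𝒜 e) {T : Ideal A}
    (hT : T.IsHomogeneous 𝒜) (D : Pic (Mp j).V) :
    hq (Mp j).V (lat j (fun o : Option β => o.elim e a) (Submodule.comap (stepExt ε f) T)) D =
      hq (Mp j).V (lat j a (Submodule.comap ε (T ⊔ pr j.1 * Ideal.span {f}))) D +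
        (hq (Mp j).V ((Mp j).fam (Submodule.colon ((LinearMap.range ε : Ideal A) ⊔ T) {f})) D).comp
          (X - Polynomial.C (e : ℚ)) := by
  let ι : (β → kap j.1) →ₗ[kap j.1] (Option β → kap j.1) :=
    LinearMap.pi fun o => o.elim 0 fun i => LinearMap.proj i
  have hι : Function.Injective ι := fun v w h => funext fun i => congrFun h (some i)
  have i1 := hq_iso (mdl_Mp j) (fg_lat j (fun o : Option β => o.elim e a)
    (Submodule.comap (stepExt ε f) T)) (fg_const_bot (E := kap j.1))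
    (LinearMap.proj (R := kap j.1) (φ := fun _ : Option β => kap j.1) none) D
  have e1 : (fun n => lat j (fun o : Option β => o.elim e a) (Submodule.comap (stepExt ε f) T) n ⊓
      (⊥ : Submodule (ZMod p) (kap j.1)).comap ((LinearMap.proj (R := kap j.1)
        (φ := fun _ : Option β => kap j.1) none).restrictScalars (ZMod p))) =ᶠ[atTop]
      fun n => (lat j a (Submodule.comap ε (T ⊔ pr j.1 * Ideal.span {f})) n).map
        (ι.restrictScalars (ZMod p)) := by
    filter_upwards [eventually_ge_atTop e] with n hn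
    refine le_antisymm (fun v hv => ?_) ?_
    · obtain ⟨c, h1, h2, rfl⟩ := mem_lat.1 hv.1
      have h3 : th j.1 (c none) = 0 := hv.2
      rw [step_piece_opt hn] at h2
      refine ⟨_, mem_lat.2 ⟨fun i => c (some i), ?_, h2.2, rfl⟩, ?_⟩
      · have h4 := sub_mem (Ideal.mem_sup_left (T := pr j.1 * Ideal.span {f})
          (Submodule.mem_comap.1 h1)) (Ideal.mem_sup_right (S := T) (Ideal.mul_mem_mul
            ((th_eq_zero j.1 h2.1).1 h3) (Ideal.mem_span_singleton_self f)))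
        rwa [step_ext_apply, add_sub_cancel_right] at h4
      · ext o
        cases o with
        | none => exact h3.symm
        | some i => rfl
    · rintro _ ⟨v, hv, rfl⟩
      obtain ⟨c, h1, h2, rfl⟩ := mem_lat.1 hv
      obtain ⟨x, hx, h3, h4⟩ := step_split hT (pr_hom j.1) hf hn (hε n c h2) h1
      refine ⟨mem_lat.2 ⟨fun o => o.elim (-x) c, ?_, (step_piece_opt hn).2 ⟨neg_mem h3, h2⟩, ?_⟩, rfl⟩
      · rw [Submodule.mem_comap, step_ext_apply]
        change ε c + -x * f ∈ T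
        rwa [neg_mul, ← sub_eq_add_neg]
      · ext o
        cases o with
        | none => exact step_th_mem (neg_mem hx)
        | some i => rfl
  have e2 : (fun n => (lat j (fun o : Option β => o.elim e a)
      (Submodule.comap (stepExt ε f) T) n).map ((LinearMap.proj (R := kap j.1)
        (φ := fun _ : Option β => kap j.1) none).restrictScalars (ZMod p)) ⊔ ⊥) =ᶠ[atTop]
      fun n => (Mp j).fam (Submodule.colon ((LinearMap.range ε : Ideal A) ⊔ T) {f}) (n - e) := by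
    filter_upwards [eventually_ge_atTop e] with n hn
    rw [sup_bot_eq]
    refine le_antisymm ?_ fun v hv => ?_
    · rintro _ ⟨v, hv, rfl⟩
      obtain ⟨c, h1, h2, rfl⟩ := mem_lat.1 hv
      refine (Mp j).mem_fam.2 ⟨c none, Submodule.mem_colon_singleton.2 ?_,
        ((step_piece_opt hn).1 h2).1, rfl⟩
      have h4 := sub_mem (Ideal.mem_sup_right (S := LinearMap.range ε) (Submodule.mem_comap.1 h1))
        (Ideal.mem_sup_left (T := T) (LinearMap.mem_range_self ε fun i => c (some i)))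
      rwa [step_ext_apply, add_sub_cancel_left] at h4
    · obtain ⟨x, h1, h2, rfl⟩ := (Mp j).mem_fam.1 hv
      have h3 := SetLike.mul_mem_graded h2 hf
      rw [Nat.sub_add_cancel hn] at h3
      obtain ⟨α, hα, t, ht, h4⟩ := Submodule.mem_sup.1 (Submodule.mem_colon_singleton.1 h1)
      obtain ⟨c, rfl⟩ := hα
      have h5 := DirectSum.decompose_of_mem_same 𝒜 h3
      rw [smul_eq_mul] at h4
      rw [← h4, DirectSum.decompose_add, DirectSum.add_apply, AddMemClass.coe_add,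
        ← step_eps_cmp hε, h4] at h5
      refine ⟨_, mem_lat.2 ⟨fun o => o.elim x (-stepCmp 𝒜 a n c), ?_,
        (step_piece_opt hn).2 ⟨h2, neg_mem (step_cmp_mem a n c)⟩, rfl⟩, rfl⟩
      rw [Submodule.mem_comap, step_ext_apply]
      change ε (-stepCmp 𝒜 a n c) + x * f ∈ T
      rw [map_neg, ← h5, neg_add_cancel_left]
      exact hT n ht
  rw [hq_congr e1, hq_congr e2, hq_bot, sub_zero, step_hq_inj (mdl_Mp j) (fg_lat j a _) ι hι,
    hq_sub (mdl_Mp j) ((Mp j).fg_fam _)] at i1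
  rw [← i1, add_sub_cancel]

theorem step_TT (h : Cls j C) {β : Type} [Fintype β] {a : β → ℕ} {ε : (β → A) →ₗ[A] A}
    (hε : ∀ n, ∀ v ∈ piece 𝒜 a n, ε v ∈ 𝒜 n) {f : A} {e : ℕ} (hf : f ∈ 𝒜 e)
    (hp : Ideal.IsPrime (Submodule.colon (LinearMap.range ε) {f})) (D : Pic (Mp j).V) :
    TT j a ε D = (PV j C (Submodule.colon (LinearMap.range ε) {f}) D).comp
      (X - Polynomial.C (e : ℚ)) + TT j (fun o : Option β => o.elim e a) (stepExt ε f) D := by
  have hah := step_range_hom hε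
  have o1 := step_opt hε hf (pr_hom j.1) D
  have o2 := step_opt hε hf (Ideal.IsHomogeneous.bot 𝒜) D
  rw [sup_eq_left.2 Ideal.mul_le_left] at o1
  rw [bot_sup_eq, sup_bot_eq, Submodule.comap_bot] at o2
  have s1 := Phi_step j (hah.sup (pr_hom j.1)) le_sup_right hf D
  rw [Phi_sup j hah, sup_right_comm, ← step_ext_range,
    Phi_sup j (step_range_hom (step_ext_hom hε hf))] at s1
  rw [TT, TT, o1, o2, s1, PV]
  split_ifs with hle
  · rw [sub_comp, ← h.step_key_A hε hf hle D]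
    simp only [Phi, sub_comp]
    ring
  · rw [hq_congr (step_key_B hε hf
      (torFree_of_prime (pr_hom j.1) h.lp hp (step_colon_hom hah hf) hle))]
    simp only [Phi, sub_comp, sub_zero]
    ring

theorem TT_filt (h : Cls j C) {𝔞 : Ideal A} {l : List (Ideal A × ℕ)} (hl : Filt 𝒜 𝔞 l)
    {β : Type} [Fintype β] {a : β → ℕ} {ε : (β → A) →ₗ[A] A}
    (hε : ∀ n, ∀ v ∈ piece 𝒜 a n, ε v ∈ 𝒜 n) (hr : LinearMap.range ε = 𝔞) (D : Pic (Mp j).V) :
    TT j a ε D = (l.map fun q => (PV j C q.1 D).comp (X - Polynomial.C (q.2 : ℚ))).sum := by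
  induction hl generalizing β with
  | top =>
    rw [TT_A h hε (hr ▸ le_top), hr, Phi_irrelevant j (Ideal.IsHomogeneous.top 𝒜)
      fun y _ hy => y.isPrime.ne_top (top_le_iff.1 hy)]
    simp
  | step 𝔞 f e l hf hp _ ih =>
    subst hr
    rw [step_TT h hε hf hp, ih (step_ext_hom hε hf) (step_ext_range ε f), List.map_cons,
      List.sum_cons]

theorem TT_prime (h : Cls j C) {β : Type} [Fintype β] {a : β → ℕ} {ε : (β → A) →ₗ[A] A}
    (hε : ∀ n, ∀ v ∈ piece 𝒜 a n, ε v ∈ 𝒜 n) {𝔮 : Ideal A} (hq : 𝔮.IsPrime)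
    (hr : LinearMap.range ε = 𝔮) (D : Pic (Mp j).V) : TT j a ε D = PV j C 𝔮 D := by
  subst hr
  rw [PV]
  split_ifs with hle
  · exact TT_A h hε hle D
  · rw [sub_zero]
    exact TT_B hε (torFree_of_prime (pr_hom j.1) h.lp hq (step_range_hom hε) hle) D

theorem PV_filt_A (h : Cls j C) {𝔞 : Ideal A} (hh : 𝔞.IsHomogeneous 𝒜) (hle : pr j.1 ≤ 𝔞)
    {l : List (Ideal A × ℕ)} (hl : Filt 𝒜 𝔞 l) (D : Pic (Mp j).V) :
    Phi j 𝔞 D - Phi j 𝔞 (D * C) =
      (l.map fun q => (PV j C q.1 D).comp (X - Polynomial.C (q.2 : ℚ))).sum := by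
  obtain ⟨b, a, ε, hε, rfl⟩ := exists_gens hh
  rw [← TT_A h hε hle, TT_filt h hl hε rfl]

theorem PV_filt_B (h : Cls j C) {𝔞 : Ideal A} (hh : 𝔞.IsHomogeneous 𝒜)
    (hT : TorFree 𝒜 (pr j.1) 𝔞) {l : List (Ideal A × ℕ)} (hl : Filt 𝒜 𝔞 l) (D : Pic (Mp j).V) :
    Phi j 𝔞 D = (l.map fun q => (PV j C q.1 D).comp (X - Polynomial.C (q.2 : ℚ))).sum := by
  obtain ⟨b, a, ε, hε, rfl⟩ := exists_gens hh
  rw [← TT_B hε hT, TT_filt h hl hε rfl]

theorem PV_cut (h : Cls j C) {𝔮 : Ideal A} (hq : 𝔮.IsPrime) (hh : 𝔮.IsHomogeneous 𝒜) {f : A}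
    {e : ℕ} (hf : f ∈ 𝒜 e) (hn : f ∉ 𝔮) {l : List (Ideal A × ℕ)}
    (hl : Filt 𝒜 (𝔮 ⊔ Ideal.span {f}) l) (D : Pic (Mp j).V) :
    PV j C 𝔮 D - (PV j C 𝔮 D).comp (X - Polynomial.C (e : ℚ)) =
      (l.map fun q => (PV j C q.1 D).comp (X - Polynomial.C (q.2 : ℚ))).sum := by
  obtain ⟨b, a, ε, hε, hr⟩ := exists_gens hh
  have hc : 𝔮.colon {f} = 𝔮 := by
    ext x
    rw [Submodule.mem_colon_singleton, smul_eq_mul]
    exact ⟨fun hx => (hq.mem_or_mem hx).resolve_right hn, fun hx => 𝔮.mul_mem_right f hx⟩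
  have h1 := TT_filt h (Filt.step 𝔮 f e l hf (hc.symm ▸ hq) hl) hε hr D
  rw [TT_prime h hε hq hr, List.map_cons, List.sum_cons, hc] at h1
  rw [sub_eq_iff_eq_add', ← h1]

/-- the pairing of the closure of the prime `𝔮` with a line bundle on the component `j` -/
def Psi (j : Vp 𝒜 p) (C : Pic (Mp j).V) (𝔮 : Ideal A) (D : Pic (Mp j).V) : ℚ :=
  -lin 0 (PV j C 𝔮) D

end

end Pool.Agent.Lib.MP_62d77c_ag
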