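import Pool.Agent.Lib.MP_62d77c_ag.Inv
import Pool.Agent.Lib.MP_62d77c_ag.LevL

/-! Lattices of generators and homogeneous bookkeeping. -/

set_option autoImplicit false
set_option linter.unusedSectionVars false
set_option linter.unusedVariables false

namespace Pool.Agent.Lib.MP_62d77c_ag

open Filter Polynomial Submodule

noncomputable section

variable {A : Type} [CommRing A] [IsDomain A] {𝒜 : ℕ → AddSubgroup A} [GradedRing 𝒜]
  [hG : Fact (Gen 𝒜)] {p : ℕ} [Fact p.Prime]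

/-- the conormal bundle of the locally principal prime `j`, embedded in its function field -/
structure Cls (j : Vp 𝒜 p) (C : Pic (Mp j).V) where
  κ : ℕ → A → kap j.1
  add : ∀ n, ∀ s ∈ pr j.1, ∀ t ∈ pr j.1, s ∈ 𝒜 n → t ∈ 𝒜 n → κ n (s + t) = κ n s + κ n t
  mul : ∀ l n, ∀ a ∈ 𝒜 l, ∀ s ∈ pr j.1, s ∈ 𝒜 n → κ (l + n) (a * s) = th j.1 a * κ n s
  cls : ∃ D : Car (Mp j).V, cl D = C ∧
    IsCl D fun n => span (ZMod p) (κ n '' {s | s ∈ pr j.1 ∧ s ∈ 𝒜 n})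
  lp : (MX 𝒜).LP (pr j.1)

open Classical in
/-- Euler characteristic of `A ⧸ 𝔮` tensored with a line bundle on the component `j` -/
def PV (j : Vp 𝒜 p) (C : Pic (Mp j).V) (𝔮 : Ideal A) (D : Pic (Mp j).V) : ℚ[X] :=
  Phi j 𝔮 D - if pr j.1 ≤ 𝔮 then Phi j 𝔮 (D * C) else 0

/-- image of the degree `n` part of a submodule of a graded free module -/
def lat (j : Vp 𝒜 p) {β : Type} (a : β → ℕ) (Z : Submodule A (β → A)) (n : ℕ) :
    Submodule (ZMod p) (β → kap j.1) :=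
  span (ZMod p) ((fun c i => th j.1 (c i)) '' {c | c ∈ Z ∧ c ∈ piece 𝒜 a n})

/-- the first Tor of `A ⧸ 𝔞` and `A ⧸ I` vanishes locally -/
def TorFree (𝒜 : ℕ → AddSubgroup A) [GradedRing 𝒜] (I 𝔞 : Ideal A) : Prop :=
  ∀ (y : Pt 𝒜) (n : ℕ), ∀ c ∈ 𝔞, c ∈ I → c ∈ 𝒜 n → ∃ l, ∃ b ∈ 𝒜 l, b ∉ pr y ∧ b * c ∈ 𝔞 * I

theorem step_mem_span {E : Type} [AddCommGroup E] [Module (ZMod p) E] {s : Set E}
    (h0 : (0 : E) ∈ s) (ha : ∀ x ∈ s, ∀ y ∈ s, x + y ∈ s) {v : E} :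
    v ∈ span (ZMod p) s ↔ v ∈ s := by
  refine ⟨fun h => ?_, fun h => subset_span h⟩
  induction h using span_induction with
  | mem x h => exact h
  | zero => exact h0
  | add x y _ _ hx hy => exact ha x hx y hy
  | smul r x _ hx =>
    have hn : ∀ n : ℕ, n • x ∈ s := by
      intro n
      induction n with
      | zero => simpa using h0
      | succ n ih => rw [succ_nsmul]; exact ha _ ih _ hx
    have : r • x = r.val • x := by
      conv_lhs => rw [← ZMod.natCast_zmod_val r]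
      exact Nat.cast_smul_eq_nsmul _ _ _
    rw [this]; exact hn _

omit hG in
theorem mem_piece {β : Type} {a : β → ℕ} {n : ℕ} {c : β → A} :
    c ∈ piece 𝒜 a n ↔ ∀ i, (a i ≤ n → c i ∈ 𝒜 (n - a i)) ∧ (n < a i → c i = 0) := by
  simp only [piece, AddSubgroup.mem_iInf, AddSubgroup.mem_comap, Pi.evalAddMonoidHom_apply]
  refine forall_congr' fun i => ?_
  by_cases h : a i ≤ n
  · simp [h, not_lt.2 h]
  · simp [h, not_le.1 h]

omit hG in
theorem step_piece_hom {β : Type} {a : β → ℕ} {n : ℕ} {c : β → A} (h : c ∈ piece 𝒜 a n) (i : β) :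
    c i ∈ 𝒜 (n - a i) := by
  rcases le_or_gt (a i) n with e | e
  · exact (mem_piece.1 h i).1 e
  · rw [(mem_piece.1 h i).2 e]; exact zero_mem _

theorem mem_lat {j : Vp 𝒜 p} {β : Type} {a : β → ℕ} {Z : Submodule A (β → A)} {n : ℕ}
    {v : β → kap j.1} :
    v ∈ lat j a Z n ↔ ∃ c ∈ Z, c ∈ piece 𝒜 a n ∧ (fun i => th j.1 (c i)) = v := by
  rw [lat, step_mem_span]
  · constructor
    · rintro ⟨c, ⟨h1, h2⟩, h3⟩; exact ⟨c, h1, h2, h3⟩
    · rintro ⟨c, h1, h2, h3⟩; exact ⟨c, ⟨h1, h2⟩, h3⟩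
  · exact ⟨0, ⟨zero_mem _, zero_mem _⟩, by ext i; simp⟩
  · rintro _ ⟨c, ⟨h1, h2⟩, rfl⟩ _ ⟨d, ⟨h3, h4⟩, rfl⟩
    exact ⟨c + d, ⟨add_mem h1 h3, add_mem h2 h4⟩, by ext i; simp⟩

omit hG in
theorem step_smul_piece {β : Type} {a : β → ℕ} {n l : ℕ} {c : β → A} (h : c ∈ piece 𝒜 a n) {x : A}
    (hx : x ∈ 𝒜 l) : x • c ∈ piece 𝒜 a (n + l) := by
  rw [mem_piece] at h ⊢
  intro i
  refine ⟨fun e => ?_, fun e => ?_⟩
  · rcases le_or_gt (a i) n with e' | e'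
    · have := SetLike.mul_mem_graded hx ((h i).1 e')
      rwa [show l + (n - a i) = n + l - a i by omega] at this
    · simp [(h i).2 e']
  · simp [(h i).2 (by omega)]

theorem step_smul_lat {j : Vp 𝒜 p} {β : Type} {a : β → ℕ} {Z : Submodule A (β → A)} {n l : ℕ}
    {v : β → kap j.1} (h : v ∈ lat j a Z n) {x : A} (hx : x ∈ 𝒜 l) :
    th j.1 x • v ∈ lat j a Z (n + l) := by
  obtain ⟨c, h1, h2, rfl⟩ := mem_lat.1 h
  exact mem_lat.2 ⟨x • c, Z.smul_mem x h1, step_smul_piece h2 hx, by ext i; simp⟩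

theorem step_fam {j : Vp 𝒜 p} {E : Type} [AddCommGroup E] [Module (kap j.1) E] [Module (ZMod p) E]
    [IsScalarTower (ZMod p) (kap j.1) E] {N : ℕ → Submodule (ZMod p) E}
    (h : ∀ᶠ n in atTop, ∀ v ∈ N n, ∀ x ∈ 𝒜 1, th j.1 x • v ∈ N (n + 1)) : Fam (Mp j).V N := by
  filter_upwards [h] with n hn
  refine Submodule.smul_le.2 fun z hz v hv => ?_
  obtain ⟨x, -, hx, rfl⟩ := (Mp j).mem_fam.1 hz
  exact hn v hv x hx

theorem fg_lat (j : Vp 𝒜 p) {β : Type} [Fintype β] (a : β → ℕ) (Z : Submodule A (β → A)) :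
    Fg (Mp j).V (lat j a Z) := by
  have h1 : Fg (Mp j).V (fun n => Submodule.pi Set.univ fun i : β => (Mp j).V ^ (n - a i)) :=
    Fg.pi (M := fun i n => (Mp j).V ^ (n - a i)) fun i => (fg_pw' (Mp j).V_fg).sub (a i)
  refine Fg.of_le (Mp j).V_fg h1 (step_fam (Eventually.of_forall fun n v hv x hx =>
    step_smul_lat hv hx)) (Eventually.of_forall fun n v hv => ?_)
  obtain ⟨c, -, h2, rfl⟩ := mem_lat.1 hv
  intro i _
  exact (Mp j).mem_pow.2 ⟨c i, step_piece_hom h2 i, rfl⟩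

theorem step_fam_inf {k K E : Type} [CommRing k] [CommRing K] [Algebra k K] [AddCommGroup E]
    [Module K E] [Module k E] [IsScalarTower k K E] {V : Submodule k K}
    {N N' : ℕ → Submodule k E} (h : Fam V N) (h' : Fam V N') : Fam V fun n => N n ⊓ N' n := by
  filter_upwards [h, h'] with n h1 h2
  exact le_inf ((smul_mono le_rfl inf_le_left).trans h1) ((smul_mono le_rfl inf_le_right).trans h2)

theorem step_th_mem {x : Pt 𝒜} {a : A} (h : a ∈ pr x) : th x a = 0 := by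
  classical
  rw [← DirectSum.sum_support_decompose 𝒜 a, map_sum]
  exact Finset.sum_eq_zero fun i _ =>
    (th_eq_zero x (SetLike.coe_mem _)).2 (pr_hom x i h)

/-- the degree `n` component of a vector -/
def stepCmp (𝒜 : ℕ → AddSubgroup A) [GradedRing 𝒜] {β : Type} (a : β → ℕ) (n : ℕ) (v : β → A) :
    β → A := fun i => if a i ≤ n then DirectSum.decompose 𝒜 (v i) (n - a i) else 0

omit hG in
theorem step_cmp_mem {β : Type} (a : β → ℕ) (n : ℕ) (v : β → A) :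
    stepCmp 𝒜 a n v ∈ piece 𝒜 a n := by
  rw [mem_piece]
  intro i
  refine ⟨fun e => ?_, fun e => ?_⟩
  · simp [stepCmp, e]
  · simp [stepCmp, not_le.2 e]

omit hG in
theorem step_eps_eq {β : Type} [Fintype β] [DecidableEq β] (ε : (β → A) →ₗ[A] A) (v : β → A) :
    ε v = ∑ i, v i * ε (Pi.single i 1) := by
  rw [LinearMap.pi_apply_eq_sum_univ ε v]
  refine Finset.sum_congr rfl fun i _ => ?_
  rw [smul_eq_mul]
  congr 2
  ext l
  simp [Pi.single_apply, eq_comm]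

omit hG in
theorem step_single_mem {β : Type} [DecidableEq β] (a : β → ℕ) (i : β) :
    (Pi.single i 1 : β → A) ∈ piece 𝒜 a (a i) := by
  rw [mem_piece]
  intro l
  by_cases e : l = i
  · subst e
    simp [SetLike.one_mem_graded]
  · simp [e]

omit hG in
theorem step_eps_cmp {β : Type} [Fintype β] {a : β → ℕ} {ε : (β → A) →ₗ[A] A}
    (hε : ∀ n, ∀ v ∈ piece 𝒜 a n, ε v ∈ 𝒜 n) (n : ℕ) (v : β → A) :
    ε (stepCmp 𝒜 a n v) = DirectSum.decompose 𝒜 (ε v) n := by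
  classical
  rw [step_eps_eq ε v, step_eps_eq ε (stepCmp 𝒜 a n v), DirectSum.decompose_sum,
    DFinsupp.finsetSum_apply, AddSubmonoidClass.coe_finsetSum]
  refine Finset.sum_congr rfl fun i _ => ?_
  rw [DirectSum.coe_decompose_mul_of_right_mem 𝒜 n (hε _ _ (step_single_mem a i))]
  simp only [stepCmp]
  split_ifs <;> simp

omit hG in
theorem step_range_hom {β : Type} [Fintype β] {a : β → ℕ} {ε : (β → A) →ₗ[A] A}
    (hε : ∀ n, ∀ v ∈ piece 𝒜 a n, ε v ∈ 𝒜 n) :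
    Ideal.IsHomogeneous 𝒜 (LinearMap.range ε) := by
  rintro n _ ⟨v, rfl⟩
  exact ⟨_, step_eps_cmp hε n v⟩

omit hG in
theorem step_lift {β : Type} [Fintype β] {a : β → ℕ} {ε : (β → A) →ₗ[A] A}
    (hε : ∀ n, ∀ v ∈ piece 𝒜 a n, ε v ∈ 𝒜 n) {n : ℕ} {x : A} (hx : x ∈ 𝒜 n)
    (h : x ∈ LinearMap.range ε) : ∃ c ∈ piece 𝒜 a n, ε c = x := by
  obtain ⟨v, rfl⟩ := h
  exact ⟨_, step_cmp_mem a n v, by rw [step_eps_cmp hε, DirectSum.decompose_of_mem_same 𝒜 hx]⟩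

omit hG in
theorem step_lift_mul {β : Type} [Fintype β] {a : β → ℕ} {ε : (β → A) →ₗ[A] A}
    (hε : ∀ n, ∀ v ∈ piece 𝒜 a n, ε v ∈ 𝒜 n) {I : Ideal A} (hI : I.IsHomogeneous 𝒜) {n : ℕ}
    {x : A} (hx : x ∈ 𝒜 n) (h : x ∈ (LinearMap.range ε : Ideal A) * I) :
    ∃ c ∈ piece 𝒜 a n, (∀ i, c i ∈ I) ∧ ε c = x := by
  have key : ∃ v : β → A, (∀ i, v i ∈ I) ∧ ε v = x := by
    clear hx
    refine Submodule.mul_induction_on h ?_ ?_
    · rintro _ ⟨w, rfl⟩ s hs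
      exact ⟨s • w, fun i => I.mul_mem_right _ hs, by rw [map_smul, smul_eq_mul, mul_comm]⟩
    · rintro _ _ ⟨v, hv, rfl⟩ ⟨w, hw, rfl⟩
      exact ⟨v + w, fun i => add_mem (hv i) (hw i), map_add _ _ _⟩
  obtain ⟨v, hv, rfl⟩ := key
  refine ⟨_, step_cmp_mem a n v, fun i => ?_,
    by rw [step_eps_cmp hε, DirectSum.decompose_of_mem_same 𝒜 hx]⟩
  simp only [stepCmp]
  split_ifs
  · exact hI _ (hv i)
  · exact zero_mem _

omit hG in
theorem step_colon_hom {𝔞 : Ideal A} (h : 𝔞.IsHomogeneous 𝒜) {f : A} {e : ℕ} (hf : f ∈ 𝒜 e) :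
    Ideal.IsHomogeneous 𝒜 (𝔞.colon {f}) := by
  intro n x hx
  rw [Submodule.mem_colon_singleton, smul_eq_mul] at hx ⊢
  rw [← DirectSum.coe_decompose_mul_add_of_right_mem 𝒜 hf]
  exact h _ hx

omit hG in
/-- splitting off a multiple of `f` in a given degree -/
theorem step_split {T I : Ideal A} (hT : T.IsHomogeneous 𝒜) (hI : I.IsHomogeneous 𝒜) {f : A}
    {e n : ℕ} (hf : f ∈ 𝒜 e) (hn : e ≤ n) {z : A} (hz : z ∈ 𝒜 n)
    (h : z ∈ T ⊔ I * Ideal.span {f}) : ∃ x ∈ I, x ∈ 𝒜 (n - e) ∧ z - x * f ∈ T := by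
  obtain ⟨t, ht, w, hw, rfl⟩ := Submodule.mem_sup.1 h
  obtain ⟨x, hx, rfl⟩ := Ideal.mem_mul_span_singleton.1 hw
  refine ⟨DirectSum.decompose 𝒜 x (n - e), hI _ hx, SetLike.coe_mem _, ?_⟩
  have h1 := DirectSum.decompose_of_mem_same 𝒜 hz
  rw [DirectSum.decompose_add, DirectSum.add_apply, AddMemClass.coe_add,
    DirectSum.coe_decompose_mul_of_right_mem_of_le 𝒜 hf hn] at h1
  rw [← h1, add_sub_cancel_right]
  exact hT _ ht

theorem step_to_B {j : Vp 𝒜 p} {β : Type} [Fintype β] {a : β → ℕ} {ε : (β → A) →ₗ[A] A}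
    (hε : ∀ n, ∀ v ∈ piece 𝒜 a n, ε v ∈ 𝒜 n) {n m : ℕ} {c : β → A} (hc : c ∈ piece 𝒜 a n) {b : A}
    (hb : b ∈ 𝒜 m) (h : b * ε c ∈ (LinearMap.range ε : Ideal A) * pr j.1) :
    th j.1 b • (fun i => th j.1 (c i)) ∈ lat j a (LinearMap.ker ε) (n + m) := by
  have h1 := step_smul_piece hc hb
  have h2 : ε (b • c) = b * ε c := by rw [map_smul, smul_eq_mul]
  obtain ⟨d, hd, hI, e⟩ := step_lift_mul hε (pr_hom j.1) (h2 ▸ hε _ _ h1) h
  refine mem_lat.2 ⟨b • c - d, by rw [LinearMap.mem_ker, map_sub, h2, e, sub_self],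
    sub_mem h1 hd, ?_⟩
  ext i
  simp [step_th_mem (hI i)]

theorem step_eps_mem {j : Vp 𝒜 p} {β : Type} [Fintype β] {a : β → ℕ} (ε : (β → A) →ₗ[A] A)
    {n : ℕ} {c d : β → A} (hc : c ∈ piece 𝒜 a n) (hd : d ∈ piece 𝒜 a n)
    (h : (fun i => th j.1 (d i)) = fun i => th j.1 (c i)) :
    ε c - ε d ∈ (LinearMap.range ε : Ideal A) * pr j.1 := by
  classical
  rw [← map_sub, step_eps_eq ε]
  refine Ideal.sum_mem _ fun i _ => ?_
  rw [mul_comm ((c - d) i)]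
  refine Ideal.mul_mem_mul ⟨_, rfl⟩ ((th_eq_zero j.1 (step_piece_hom (sub_mem hc hd) i)).1 ?_)
  simp [congrFun h i]

omit hG in
theorem step_mul_ind {𝔮 I : Ideal A} (hq : 𝔮.IsHomogeneous 𝒜) (hI : I.IsHomogeneous 𝒜) {n : ℕ}
    {P : A → Prop} (h0 : P 0)
    (hadd : ∀ x ∈ 𝔮 * I, ∀ y ∈ 𝔮 * I, x ∈ 𝒜 n → y ∈ 𝒜 n → P x → P y → P (x + y))
    (hmul : ∀ l m, l + m = n → ∀ a ∈ 𝔮, ∀ s ∈ I, a ∈ 𝒜 l → s ∈ 𝒜 m → P (a * s))
    {x : A} (hx : x ∈ 𝔮 * I) (hn : x ∈ 𝒜 n) : P x := by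
  let Q : A → Prop := fun y => y ∈ 𝔮 * I ∧ y ∈ 𝒜 n ∧ P y
  have hQ : ∀ x y, Q x → Q y → Q (x + y) := fun x y h1 h2 =>
    ⟨add_mem h1.1 h2.1, add_mem h1.2.1 h2.2.1, hadd x h1.1 y h2.1 h1.2.1 h2.2.1 h1.2.2 h2.2.2⟩
  have key : Q (DirectSum.decompose 𝒜 x n) := by
    clear hn
    refine Submodule.mul_induction_on (C := fun x => Q (DirectSum.decompose 𝒜 x n)) hx ?_ ?_
    · intro a ha s hs
      rw [DirectSum.decompose_mul, DirectSum.coe_mul_apply_eq_sum_antidiagonal]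
      refine Finset.sum_induction _ Q hQ ⟨zero_mem _, zero_mem _, h0⟩ fun ij hij => ?_
      have e := Finset.HasAntidiagonal.mem_antidiagonal.1 hij
      exact ⟨Ideal.mul_mem_mul (hq _ ha) (hI _ hs),
        e ▸ SetLike.mul_mem_graded (SetLike.coe_mem _) (SetLike.coe_mem _),
        hmul _ _ e _ (hq _ ha) _ (hI _ hs) (SetLike.coe_mem _) (SetLike.coe_mem _)⟩
    · intro x y h1 h2
      rw [DirectSum.decompose_add, DirectSum.add_apply, AddMemClass.coe_add]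
      exact hQ _ _ h1 h2
  rw [DirectSum.decompose_of_mem_same 𝒜 hn] at key
  exact key.2.2

omit hG in
theorem step_gen {I : Ideal A} {y : Pt 𝒜} {e : ℕ} {g : A} (h : (MX 𝒜).GenI I y e g) {n : ℕ} {s : A}
    (hs : s ∈ I) (hn : s ∈ 𝒜 n) :
    ∃ m l, ∃ b ∈ 𝒜 m, ∃ c ∈ 𝒜 l, b ∉ pr y ∧ m + n = l + e ∧ b * s = c * g := by
  obtain ⟨m, l, b, hb, c, hc, h1, h2, h3⟩ := h.2.2.2 n s hs hn
  exact ⟨m, l, b, hb, c, hc, h1, h2, FaithfulSMul.algebraMap_injective A (FractionRing A) h3⟩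

omit hG in
theorem step_gen_ne {I : Ideal A} {y : Pt 𝒜} {e : ℕ} {g : A} (h : (MX 𝒜).GenI I y e g) : g ≠ 0 := by
  rintro rfl
  exact h.2.2.1 (map_zero _)

omit hG in
theorem step_mul_not {y : Pt 𝒜} {a b : A} (ha : a ∉ pr y) (hb : b ∉ pr y) : a * b ∉ pr y :=
  fun h => (y.isPrime.mem_or_mem h).elim ha hb

omit hG in
theorem step_gen_mul {𝔞 I : Ideal A} (ha : 𝔞.IsHomogeneous 𝒜) (hI : I.IsHomogeneous 𝒜) {y : Pt 𝒜}
    {e : ℕ} {g : A} (h : (MX 𝒜).GenI I y e g) {n : ℕ} {t : A} (ht : t ∈ 𝔞 * I) (hn : t ∈ 𝒜 n) :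
    ∃ m, ∃ b ∈ 𝒜 m, b ∉ pr y ∧ ∃ c ∈ 𝔞, b * t = c * g := by
  refine step_mul_ind (P := fun t => ∃ m, ∃ b ∈ 𝒜 m, b ∉ pr y ∧ ∃ c ∈ 𝔞, b * t = c * g)
    ha hI ?_ ?_ ?_ ht hn
  · exact ⟨0, 1, SetLike.one_mem_graded 𝒜, (Ideal.ne_top_iff_one _).1 y.isPrime.ne_top, 0,
      zero_mem _, by simp⟩
  · rintro x - z - - - ⟨m, b, hb, h1, c, hc, e1⟩ ⟨m', b', hb', h1', c', hc', e2⟩
    exact ⟨m + m', b * b', SetLike.mul_mem_graded hb hb', step_mul_not h1 h1', b' * c + b * c',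
      add_mem (𝔞.mul_mem_left _ hc) (𝔞.mul_mem_left _ hc'), by linear_combination b' * e1 + b * e2⟩
  · intro l m _ a ha s hs _ hm
    obtain ⟨m', l', b, hb, c, -, h1, -, e1⟩ := step_gen h hs hm
    exact ⟨m', b, hb, h1, a * c, 𝔞.mul_mem_right _ ha, by linear_combination a * e1⟩

theorem torFree_of_prime {I 𝔮 : Ideal A} (hI : I.IsHomogeneous 𝒜) (hlp : (MX 𝒜).LP I)
    (hq : 𝔮.IsPrime) (hh : 𝔮.IsHomogeneous 𝒜) (hn : ¬I ≤ 𝔮) : TorFree 𝒜 I 𝔮 := by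
  classical
  intro y n c hc hcI hcn
  obtain ⟨e, g, hg⟩ := hlp y (on_MX y)
  obtain ⟨m, l, b, hb, c', -, h1, -, e1⟩ := step_gen hg hcI hcn
  have h2 : c' * g ∈ 𝔮 := e1 ▸ 𝔮.mul_mem_left b hc
  rcases hq.mem_or_mem h2 with h3 | h3
  · exact ⟨m, b, hb, h1, e1 ▸ Ideal.mul_mem_mul h3 hg.1⟩
  · have : ∃ d, ∃ s ∈ I, s ∈ 𝒜 d ∧ s ∉ 𝔮 := by
      by_contra hc
      push Not at hc
      refine hn fun s hs => ?_
      rw [← DirectSum.sum_support_decompose 𝒜 s]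
      exact Ideal.sum_mem _ fun i _ => hc i _ (hI i hs) (SetLike.coe_mem _)
    obtain ⟨d, s, hs, hd, hs'⟩ := this
    obtain ⟨m', l', b', hb', c'', -, h4, -, e2⟩ := step_gen hg hs hd
    have h5 : b' * s ∈ 𝔮 := e2 ▸ 𝔮.mul_mem_left c'' h3
    exact ⟨m', b', hb', h4, Ideal.mul_mem_mul ((hq.mem_or_mem h5).resolve_right hs') hcI⟩

theorem exists_gens {𝔞 : Ideal A} (h : 𝔞.IsHomogeneous 𝒜) :
    ∃ (b : ℕ) (a : Fin b → ℕ) (ε : (Fin b → A) →ₗ[A] A),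
      (∀ n, ∀ v ∈ piece 𝒜 a n, ε v ∈ 𝒜 n) ∧ LinearMap.range ε = 𝔞 := by
  have := noeth_of_gen 𝒜
  obtain ⟨S, hS⟩ := (Ideal.IsHomogeneous.iff_exists 𝒜 𝔞).1 h
  have hfg : (Submodule.span A (((↑) : SetLike.homogeneousSubmonoid 𝒜 → A) '' S)).FG :=
    IsNoetherian.noetherian _
  obtain ⟨t, ht, e⟩ := (Submodule.fg_span_iff_fg_span_finset_subset _).1 hfg
  have hd : ∀ i : Fin t.card, ∃ d, ((t.equivFin.symm i : t) : A) ∈ 𝒜 d := fun i => by
    obtain ⟨x, -, hx⟩ := ht (t.equivFin.symm i).2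
    rw [← hx]; exact x.2
  choose a ha using hd
  refine ⟨t.card, a, Fintype.linearCombination A fun i => ((t.equivFin.symm i : t) : A),
    fun n v hv => ?_, ?_⟩
  · rw [Fintype.linearCombination_apply]
    refine AddSubgroup.sum_mem _ fun i _ => ?_
    rcases le_or_gt (a i) n with e' | e'
    · have := SetLike.mul_mem_graded ((mem_piece.1 hv i).1 e') (ha i)
      rwa [Nat.sub_add_cancel e'] at this
    · simp [(mem_piece.1 hv i).2 e']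
  · rw [Fintype.range_linearCombination, hS]
    change _ = Submodule.span A _
    rw [e]
    congr 1
    ext x
    constructor
    · rintro ⟨i, rfl⟩; exact (t.equivFin.symm i).2
    · intro hx; exact ⟨t.equivFin ⟨x, hx⟩, by simp⟩

/-- `Tor₀ - Tor₁` computed from generators `ε` of an ideal -/
def TT (j : Vp 𝒜 p) {β : Type} (a : β → ℕ) (ε : (β → A) →ₗ[A] A) (D : Pic (Mp j).V) : ℚ[X] :=
  Phi j (LinearMap.range ε) D -
    (hq (Mp j).V (lat j a (Submodule.comap ε (pr j.1))) D -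
      hq (Mp j).V (lat j a (LinearMap.ker ε)) D)

end

end Pool.Agent.Lib.MP_62d77c_ag
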