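import Pool.Agent.Lib.MP_62d77c_ag.StepA

/-! The conormal bundle of a locally principal prime. -/

set_option autoImplicit false
set_option linter.unusedSectionVars false
set_option linter.unusedVariables false

namespace Pool.Agent.Lib.MP_62d77c_ag

open Filter Polynomial Submodule

noncomputable section

variable {A : Type} [CommRing A] [IsDomain A] {𝒜 : ℕ → AddSubgroup A} [GradedRing 𝒜]
  [hG : Fact (Gen 𝒜)] {p : ℕ} [Fact p.Prime]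

theorem step_ell_pow (x : Pt 𝒜) (n : ℕ) : ell x ^ n ∈ 𝒜 n ∧ ell x ^ n ∉ pr x :=
  ⟨by simpa using SetLike.pow_mem_graded n (ell_spec x).1,
    fun h => (ell_spec x).2 (x.isPrime.mem_of_pow_mem n h)⟩

theorem exists_cls (j : Vp 𝒜 p) (hlp : (MX 𝒜).LP (pr j.1)) {D : Car (MX 𝒜).V}
    (hD : IsCl D ((MX 𝒜).fam (pr j.1))) : Nonempty (Cls j ((MX 𝒜).rho j (cl D))) := by
  have hon := on_MX j.1
  obtain ⟨e, g, hg⟩ := hlp j.1 hon
  set S := (MX 𝒜).sp j hon with hS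
  have hθ : ∀ a : A, a ≠ 0 → (MX 𝒜).θ a ≠ 0 := fun a ha h =>
    ha ((FaithfulSMul.algebraMap_eq_zero_iff A (FractionRing A)).1 h)
  have hne : ∀ a : A, a ∉ pr j.1 → (MX 𝒜).θ a ≠ 0 := fun a ha =>
    hθ a fun h => ha (h ▸ zero_mem _)
  have hs0 : (MX 𝒜).θ (ell j.1) ≠ 0 := hne _ (ell_spec j.1).2
  have hg0 : (MX 𝒜).θ g ≠ 0 := hg.2.2.1
  let u : ℕ → FractionRing A := fun n =>
    (MX 𝒜).θ g * (MX 𝒜).θ (ell j.1) ^ n / (MX 𝒜).θ (ell j.1) ^ e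
  have hO : ∀ n, ∀ a ∈ 𝒜 n, ∀ b ∈ 𝒜 n, b ∉ pr j.1 → (MX 𝒜).θ a / (MX 𝒜).θ b ∈ S.O := by
    intro n a ha b hb h
    rw [hS, (MX 𝒜).sp_O]
    exact (MX 𝒜).div_mem_fr ha hb h
  have hmem : ∀ n, ∀ s ∈ pr j.1, s ∈ 𝒜 n → (MX 𝒜).θ s / u n ∈ S.O := by
    intro n s hs hn
    obtain ⟨m, l, b, hb, c, hc, h1, h2, h3⟩ := hg.2.2.2 n s hs hn
    have hb0 := hne b h1
    have h4 := hO (m + n) (c * ell j.1 ^ e)
      (h2 ▸ SetLike.mul_mem_graded hc (step_ell_pow j.1 e).1) (b * ell j.1 ^ n)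
      (SetLike.mul_mem_graded hb (step_ell_pow j.1 n).1) (step_mul_not h1 (step_ell_pow j.1 n).2)
    convert h4 using 1
    simp only [map_mul, map_pow, u] at h3 ⊢
    field_simp
    linear_combination h3
  have hmem' : ∀ n, ∀ w ∈ (MX 𝒜).fam (pr j.1) n, w / u n ∈ S.O := by
    intro n w hw
    obtain ⟨s, hs, hn, rfl⟩ := (MX 𝒜).mem_fam.1 hw
    exact hmem n s hs hn
  have hfam : (fun n => span (ZMod p) ((fun s => S.ev ((MX 𝒜).θ s / u n)) ''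
      {s | s ∈ pr j.1 ∧ s ∈ 𝒜 n})) = fun n => S.img ((MX 𝒜).fam (pr j.1) n) (u n) := by
    funext n
    rw [Spec.img]
    congr 1
    ext z
    constructor
    · rintro ⟨s, ⟨h1, h2⟩, rfl⟩
      exact ⟨_, (MX 𝒜).mem_fam.2 ⟨s, h1, h2, rfl⟩, rfl⟩
    · rintro ⟨w, hw, rfl⟩
      obtain ⟨s, hs, hn, rfl⟩ := (MX 𝒜).mem_fam.1 hw
      exact ⟨s, ⟨hs, hn⟩, rfl⟩
  have hov := (MX 𝒜).sp_over j hon
  have hfg : Fg (Mp j).V fun n => S.img ((MX 𝒜).fam (pr j.1) n) (u n) := by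
    filter_upwards [(MX 𝒜).fg_fam (pr j.1)] with n hn
    refine ⟨S.img_fg hn.1 (hmem' n), ?_⟩
    have : u (n + 1) = (MX 𝒜).θ (ell j.1) * u n := by simp only [u]; ring
    rw [hn.2, this, smul_eq_mul, S.img_mul hov.1.2.1 (hmem' n), hov.2, smul_eq_mul]
  have htriv : ∀ᶠ n in atTop, S.Triv ((MX 𝒜).fam (pr j.1) n) (u n) := by
    filter_upwards [eventually_ge_atTop e] with n hn
    obtain ⟨d, rfl⟩ := Nat.exists_eq_add_of_le hn
    refine ⟨by simp [u, hs0, hg0], hmem' _, (MX 𝒜).θ (g * ell j.1 ^ d),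
      (MX 𝒜).mem_fam.2 ⟨_, Ideal.mul_mem_right _ _ hg.1,
        SetLike.mul_mem_graded hg.2.1 (step_ell_pow j.1 d).1, rfl⟩, ?_⟩
    have : (MX 𝒜).θ (g * ell j.1 ^ d) / u (e + d) = 1 := by
      simp only [map_mul, map_pow, u]
      field_simp
      ring
    rw [this, S.ev_one]
    exact one_ne_zero
  have hrep : ∀ᶠ n in atTop, ∃ D' : Car (Mp j).V,
      Rep D' (S.img ((MX 𝒜).fam (pr j.1) n) (u n)) n ∧ hov.rho (cl D) = cl D' := by
    filter_upwards [htriv, hD.rep ((MX 𝒜).mdl hon)] with n h1 h2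
    exact hov.rho_spec h2 h1
  obtain ⟨D₀, hD₀⟩ := exists_isCl (mdl_Mp j) hfg (hrep.mono fun n h => by
    obtain ⟨D', h, -⟩ := h
    exact h.exists_inv).frequently
  obtain ⟨n, ⟨D', h1, h2⟩, h3⟩ := (hrep.and (hD₀.rep (mdl_Mp j))).exists
  refine ⟨⟨fun n s => S.ev ((MX 𝒜).θ s / u n), ?_, ?_, ⟨D₀, ?_, hfam ▸ hD₀⟩, hlp⟩⟩
  · intro n s hs t ht h1 h2
    rw [map_add, add_div, S.ev_add (hmem n s hs h1) (hmem n t ht h2)]
  · intro l n a ha s hs h1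
    have h4 := step_ell_pow j.1 l
    have : (MX 𝒜).θ (a * s) / u (l + n) =
        (MX 𝒜).θ a / (MX 𝒜).θ (ell j.1 ^ l) * ((MX 𝒜).θ s / u n) := by
      simp only [map_mul, map_pow, u]
      field_simp
      ring
    rw [this, S.ev_mul (hO l a ha _ h4.1 h4.2) (hmem n s hs h1), hS,
      (MX 𝒜).sp_ev j hon ha h4.1 h4.2, map_pow, th_ell, one_pow, div_one]
  · rw [AM.rho, dif_pos hon, h3.unique h1]
    exact h2.symm

end

end Pool.Agent.Lib.MP_62d77c_ag
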