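import Pool.Agent.Lib.MP_62d77c_ag.Step

/-! Graded free modules: projections, resolutions, images in a function field. -/

set_option autoImplicit false

namespace Pool.Agent.Lib.MP_62d77c_ag

open Filter Polynomial Submodule

noncomputable section

variable {A : Type} [CommRing A] [IsDomain A] {𝒜 : ℕ → AddSubgroup A} [GradedRing 𝒜]
  {β γ : Type} {a : β → ℕ} {a' : γ → ℕ}

variable (𝒜) in
/-- the component of degree `n` -/
def torP (a : β → ℕ) (n : ℕ) : (β → A) →+ (β → A) where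
  toFun c i := if a i ≤ n then GradedRing.proj 𝒜 (n - a i) (c i) else 0
  map_zero' := by funext i; simp
  map_add' c c' := by
    funext i
    by_cases h : a i ≤ n
    · simp only [if_pos h, Pi.add_apply, map_add]
    · simp only [if_neg h, Pi.add_apply, add_zero]

omit [IsDomain A] in
theorem torP_apply (n : ℕ) (c : β → A) (i : β) :
    torP 𝒜 a n c i = if a i ≤ n then GradedRing.proj 𝒜 (n - a i) (c i) else 0 := rfl

theorem torP_mem (n : ℕ) (c : β → A) : torP 𝒜 a n c ∈ piece 𝒜 a n :=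
  mem_piece.2 fun i => ⟨fun h => by rw [torP_apply, if_pos h]; exact md_proj_mem _ _,
    fun h => by rw [torP_apply, if_neg (by omega)]⟩

theorem torP_same {n : ℕ} {c : β → A} (h : c ∈ piece 𝒜 a n) : torP 𝒜 a n c = c := by
  funext i
  rw [torP_apply]
  split_ifs with e
  · exact md_proj_same ((mem_piece.1 h i).1 e)
  · exact ((mem_piece.1 h i).2 (by omega)).symm

theorem torP_ne {m n : ℕ} {c : β → A} (h : c ∈ piece 𝒜 a m) (e : m ≠ n) : torP 𝒜 a n c = 0 := by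
  funext i
  rw [torP_apply]
  split_ifs with e'
  · by_cases e2 : a i ≤ m
    · exact md_proj_ne ((mem_piece.1 h i).1 e2) (by omega)
    · rw [(mem_piece.1 h i).2 (by omega), map_zero]; rfl
  · rfl

theorem tor_ind [Fintype β] (a : β → ℕ) {P : (β → A) → Prop} (h0 : P 0)
    (hadd : ∀ v w, P v → P w → P (v + w)) (hp : ∀ m, ∀ w ∈ piece 𝒜 a m, P w) (w : β → A) :
    P w := by
  classical
  rw [← Finset.univ_sum_single w]
  refine Finset.sum_induction _ P hadd h0 fun i _ => ?_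
  induction w i using DirectSum.Decomposition.inductionOn 𝒜 with
  | zero => simpa using h0
  | @homogeneous k x =>
    refine hp (k + a i) _ (mem_piece.2 fun l => ?_)
    by_cases e : l = i
    · subst e
      exact ⟨fun _ => by simp, fun h => by omega⟩
    · simp [Pi.single_eq_of_ne e]
  | add x y hx hy => rw [Pi.single_add]; exact hadd _ _ hx hy

theorem torP_map [Fintype β] {d : (β → A) →ₗ[A] (γ → A)}
    (hd : ∀ n, ∀ v ∈ piece 𝒜 a n, d v ∈ piece 𝒜 a' n) (n : ℕ) (w : β → A) :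
    torP 𝒜 a' n (d w) = d (torP 𝒜 a n w) := by
  refine tor_ind (𝒜 := 𝒜) a (P := fun w => torP 𝒜 a' n (d w) = d (torP 𝒜 a n w)) (by simp)
    (fun v w hv hw => by simp only [map_add, hv, hw]) (fun m w hw => ?_) w
  by_cases e : m = n
  · subst e; rw [torP_same hw, torP_same (hd _ _ hw)]
  · rw [torP_ne hw e, torP_ne (hd _ _ hw) e, map_zero]

theorem torP_eps [Fintype β] {ε : (β → A) →ₗ[A] A}
    (hε : ∀ n, ∀ v ∈ piece 𝒜 a n, ε v ∈ 𝒜 n) (n : ℕ) (w : β → A) :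
    GradedRing.proj 𝒜 n (ε w) = ε (torP 𝒜 a n w) := by
  refine tor_ind (𝒜 := 𝒜) a (P := fun w => GradedRing.proj 𝒜 n (ε w) = ε (torP 𝒜 a n w)) (by simp)
    (fun v w hv hw => by simp only [map_add, hv, hw]) (fun m w hw => ?_) w
  by_cases e : m = n
  · subst e; rw [torP_same hw, md_proj_same (hε _ _ hw)]
  · rw [torP_ne hw e, md_proj_ne (hε _ _ hw) e, map_zero]

theorem torP_sum [Fintype β] (a : β → ℕ) (w : β → A) :
    ∀ᶠ N in atTop, ∑ n ∈ Finset.range N, torP 𝒜 a n w = w := by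
  refine tor_ind (𝒜 := 𝒜) a (P := fun w => ∀ᶠ N in atTop, ∑ n ∈ Finset.range N, torP 𝒜 a n w = w)
    (by simp) (fun v w hv hw => ?_) (fun m w hw => ?_) w
  · filter_upwards [hv, hw] with N h1 h2
    simp only [map_add, Finset.sum_add_distrib, h1, h2]
  · filter_upwards [eventually_gt_atTop m] with N hN
    rw [Finset.sum_eq_single m (fun n _ e => torP_ne hw e.symm)
      (fun h => absurd (Finset.mem_range.2 hN) h), torP_same hw]

theorem tor_smul {k m : ℕ} {x : A} (hx : x ∈ 𝒜 k) {c : β → A} (hc : c ∈ piece 𝒜 a m) :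
    x • c ∈ piece 𝒜 a (k + m) := by
  refine mem_piece.2 fun i => ⟨fun h => ?_, fun h => ?_⟩
  · by_cases e : a i ≤ m
    · have := SetLike.mul_mem_graded hx ((mem_piece.1 hc i).1 e)
      rwa [show k + (m - a i) = k + m - a i by omega] at this
    · rw [Pi.smul_apply, (mem_piece.1 hc i).2 (by omega), smul_zero]; exact zero_mem _
  · rw [Pi.smul_apply, (mem_piece.1 hc i).2 (by omega), smul_zero]

omit [IsDomain A] [GradedRing 𝒜] in
theorem tor_mem_smul [Fintype β] {J : Ideal A} {c : β → A} :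
    c ∈ (J • ⊤ : Submodule A (β → A)) ↔ ∀ i, c i ∈ J := by
  classical
  refine ⟨fun h => ?_, fun h => ?_⟩
  · refine Submodule.smul_induction_on h (fun x hx v _ i => J.mul_mem_right _ hx)
      fun v w hv hw i => J.add_mem (hv i) (hw i)
  · rw [← Finset.univ_sum_single c]
    refine Submodule.sum_mem _ fun i _ => ?_
    have : (Pi.single i (c i) : β → A) = c i • (Pi.single i 1 : β → A) := by
      rw [← Pi.single_smul, smul_eq_mul, mul_one]
    rw [this]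
    exact Submodule.smul_mem_smul (h i) trivial

variable (𝒜) in
/-- graded submodule -/
def TorH (a : β → ℕ) (Z : Submodule A (β → A)) : Prop := ∀ n, ∀ c ∈ Z, torP 𝒜 a n c ∈ Z

omit [IsDomain A] in
theorem torH_smul [Fintype β] {J : Ideal A} (hJ : J.IsHomogeneous 𝒜) : TorH 𝒜 a (J • ⊤) := by
  intro n c hc
  rw [tor_mem_smul] at hc ⊢
  intro i
  rw [torP_apply]
  split_ifs
  · exact md_proj_ideal hJ _ (hc i)
  · exact zero_mem _

theorem tor_gens [Fintype β] [IsNoetherianRing A] {Z : Submodule A (β → A)} (hZ : TorH 𝒜 a Z) :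
    ∃ (b : ℕ) (a' : Fin b → ℕ) (d : (Fin b → A) →ₗ[A] (β → A)),
      (∀ n, ∀ v ∈ piece 𝒜 a' n, d v ∈ piece 𝒜 a n) ∧ LinearMap.range d = Z := by
  have h1 : span A {c | c ∈ Z ∧ ∃ n, c ∈ piece 𝒜 a n} = Z := by
    refine le_antisymm (span_le.2 fun c hc => hc.1) fun c hc => ?_
    obtain ⟨N, hN⟩ := (torP_sum (𝒜 := 𝒜) a c).exists
    rw [← hN]
    exact Submodule.sum_mem _ fun n _ => subset_span ⟨hZ n c hc, n, torP_mem n c⟩
  have h2 : (span A {c | c ∈ Z ∧ ∃ n, c ∈ piece 𝒜 a n}).FG := IsNoetherian.noetherian _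
  obtain ⟨s, hs, e⟩ := (Submodule.fg_span_iff_fg_span_finset_subset _).1 h2
  let g : Fin s.card → (β → A) := fun i => (s.equivFin.symm i).1
  have hg : ∀ i, ∃ n, g i ∈ piece 𝒜 a n := fun i => (hs (s.equivFin.symm i).2).2
  choose a' ha' using hg
  refine ⟨s.card, a', Fintype.linearCombination A g, fun n v hv => ?_, ?_⟩
  · rw [Fintype.linearCombination_apply]
    refine sum_mem fun i _ => ?_
    by_cases h : a' i ≤ n
    · have := tor_smul ((mem_piece.1 hv i).1 h) (ha' i)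
      rwa [Nat.sub_add_cancel h] at this
    · rw [(mem_piece.1 hv i).2 (by omega), zero_smul]; exact zero_mem _
  · rw [Fintype.range_linearCombination, ← h1, e]
    congr 1
    ext c
    constructor
    · rintro ⟨i, rfl⟩; exact (s.equivFin.symm i).2
    · intro hc; exact ⟨s.equivFin ⟨c, hc⟩, by simp [g]⟩

variable (𝒜) in
/-- a stage of a resolution -/
structure TorS where
  b : ℕ
  a : Fin b → ℕ
  Z : Submodule A (Fin b → A)
  h : TorH 𝒜 a Z

theorem tor_next [IsNoetherianRing A] (s : TorS 𝒜) : ∃ (t : TorS 𝒜)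
    (d : (Fin t.b → A) →ₗ[A] (Fin s.b → A)), (∀ n, ∀ v ∈ piece 𝒜 t.a n, d v ∈ piece 𝒜 s.a n) ∧
      LinearMap.range d = s.Z ∧ t.Z = LinearMap.ker d := by
  obtain ⟨b, a', d, h1, h2⟩ := tor_gens s.h
  refine ⟨⟨b, a', LinearMap.ker d, fun n c hc => ?_⟩, d, h1, h2, rfl⟩
  rw [LinearMap.mem_ker] at hc ⊢
  rw [← torP_map h1, hc, map_zero]

variable [hG : Fact (Gen 𝒜)] {p : ℕ} [Fact p.Prime]

theorem tor_resol {I : Ideal A} (h : I.IsHomogeneous 𝒜) : Nonempty (Resol 𝒜 I) := by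
  have := noeth_of_gen 𝒜
  obtain ⟨b, a, ε, h1, h2⟩ := exists_gens h
  choose nx d hd using tor_next (𝒜 := 𝒜)
  let s0 : TorS 𝒜 := ⟨b, a, LinearMap.ker ε, fun n c hc => by
    rw [LinearMap.mem_ker] at hc ⊢
    rw [← torP_eps h1, hc, map_zero]⟩
  let st : ℕ → TorS 𝒜 := fun q => Nat.rec s0 (fun _ s => nx s) q
  exact ⟨{ b := fun q => (st q).b
           a := fun q => (st q).a
           ε := ε
           D := fun q => d (st q)
           homε := h1
           homD := fun q => (hd (st q)).1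
           range := h2
           exact0 := LinearMap.exact_iff.2 (hd s0).2.1.symm
           exact := fun q =>
             LinearMap.exact_iff.2 ((hd (st q)).2.2.symm.trans (hd (st (q + 1))).2.1.symm) }⟩

variable {j : Vp 𝒜 p}

omit [Fact p.Prime] in
theorem tor_sub {n : ℕ} {c c' : β → A} (hc : c ∈ piece 𝒜 a n) (hc' : c' ∈ piece 𝒜 a n)
    (e : (fun i => th j.1 (c i)) = fun i => th j.1 (c' i)) (i : β) : (c - c') i ∈ pr j.1 := by
  have h := mem_piece.1 (sub_mem hc hc') i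
  by_cases e' : a i ≤ n
  · refine (th_eq_zero j.1 (h.1 e')).1 ?_
    rw [Pi.sub_apply, map_sub, congrFun e i, sub_self]
  · rw [h.2 (by omega)]; exact zero_mem _

omit [Fact p.Prime] in
theorem tor_phi [Fintype β] (j : Vp 𝒜 p) (d : (β → A) →ₗ[A] (γ → A)) :
    ∃ φ : (β → kap j.1) →ₗ[kap j.1] (γ → kap j.1),
      ∀ v, φ (fun i => th j.1 (v i)) = fun l => th j.1 (d v l) := by
  classical
  refine ⟨Fintype.linearCombination _ fun i l => th j.1 (d (Pi.single i 1) l), fun v => ?_⟩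
  funext l
  rw [Fintype.linearCombination_apply, LinearMap.pi_apply_eq_sum_univ d v]
  simp only [Finset.sum_apply, Pi.smul_apply, smul_eq_mul, map_sum, map_mul]
  refine Finset.sum_congr rfl fun i _ => ?_
  have : (Pi.single i 1 : β → A) = fun k => if i = k then 1 else 0 := by
    funext k
    simp [Pi.single_apply, eq_comm]
  rw [this]

omit [Fact p.Prime] in
theorem tor_phiE [Fintype β] (j : Vp 𝒜 p) (ε : (β → A) →ₗ[A] A) :
    ∃ φ : (β → kap j.1) →ₗ[kap j.1] kap j.1, ∀ v, φ (fun i => th j.1 (v i)) = th j.1 (ε v) := by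
  obtain ⟨φ, h⟩ := tor_phi j (LinearMap.pi fun _ : Unit => ε)
  exact ⟨(LinearMap.proj ()).comp φ, fun v => congrFun (h v) ()⟩

theorem tor_lat_comap {d : (β → A) →ₗ[A] (γ → A)}
    (hd : ∀ n, ∀ v ∈ piece 𝒜 a n, d v ∈ piece 𝒜 a' n)
    {φ : (β → kap j.1) →ₗ[kap j.1] (γ → kap j.1)}
    (hφ : ∀ v, φ (fun i => th j.1 (v i)) = fun l => th j.1 (d v l)) {Z : Submodule A (γ → A)}
    (hZ : ∀ c : γ → A, (∀ i, c i ∈ pr j.1) → c ∈ Z) :
    lat j a (Z.comap d) = fun n =>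
      lat j a ⊤ n ⊓ (lat j a' Z n).comap (φ.restrictScalars (ZMod p)) := by
  funext n
  ext v
  rw [Submodule.mem_inf, Submodule.mem_comap, LinearMap.restrictScalars_apply]
  constructor
  · intro h
    obtain ⟨c, h1, h2, rfl⟩ := mem_lat.1 h
    exact ⟨mem_lat.2 ⟨c, trivial, h2, rfl⟩, mem_lat.2 ⟨d c, h1, hd _ _ h2, (hφ c).symm⟩⟩
  · rintro ⟨h, h'⟩
    obtain ⟨c, -, h2, rfl⟩ := mem_lat.1 h
    obtain ⟨c', h3, h4, e⟩ := mem_lat.1 h'
    refine mem_lat.2 ⟨c, ?_, h2, rfl⟩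
    have := add_mem (hZ _ (tor_sub (hd _ _ h2) h4 ((hφ c).symm.trans e.symm))) h3
    rwa [sub_add_cancel] at this

theorem tor_lat_comapE {ε : (β → A) →ₗ[A] A} (hε : ∀ n, ∀ v ∈ piece 𝒜 a n, ε v ∈ 𝒜 n)
    {φ : (β → kap j.1) →ₗ[kap j.1] kap j.1} (hφ : ∀ v, φ (fun i => th j.1 (v i)) = th j.1 (ε v))
    {J : Ideal A} (hJ : pr j.1 ≤ J) :
    lat j a (Submodule.comap ε J) = fun n =>
      lat j a ⊤ n ⊓ ((Mp j).fam J n).comap (φ.restrictScalars (ZMod p)) := by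
  funext n
  ext v
  rw [Submodule.mem_inf, Submodule.mem_comap, LinearMap.restrictScalars_apply]
  constructor
  · intro h
    obtain ⟨c, h1, h2, rfl⟩ := mem_lat.1 h
    exact ⟨mem_lat.2 ⟨c, trivial, h2, rfl⟩, (Mp j).mem_fam.2 ⟨ε c, h1, hε _ _ h2, (hφ c).symm⟩⟩
  · rintro ⟨h, h'⟩
    obtain ⟨c, -, h2, rfl⟩ := mem_lat.1 h
    obtain ⟨c', h3, h4, e⟩ := (Mp j).mem_fam.1 h'
    refine mem_lat.2 ⟨c, ?_, h2, rfl⟩
    have h5 : ε c - c' ∈ pr j.1 := (th_eq_zero j.1 (sub_mem (hε _ _ h2) h4)).1 (by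
      rw [map_sub, ← hφ, ← e]; exact sub_self _)
    have := add_mem (hJ h5) h3
    rwa [sub_add_cancel] at this

theorem tor_lat_range [Fintype β] {d : (β → A) →ₗ[A] (γ → A)}
    (hd : ∀ n, ∀ v ∈ piece 𝒜 a n, d v ∈ piece 𝒜 a' n)
    {φ : (β → kap j.1) →ₗ[kap j.1] (γ → kap j.1)}
    (hφ : ∀ v, φ (fun i => th j.1 (v i)) = fun l => th j.1 (d v l)) {Z : Submodule A (γ → A)}
    (hZ : TorH 𝒜 a' Z) :
    lat j a' (LinearMap.range d ⊔ Z) = fun n =>
      (lat j a ⊤ n).map (φ.restrictScalars (ZMod p)) ⊔ lat j a' Z n := by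
  funext n
  refine le_antisymm (fun v h => ?_) (sup_le (fun v h => ?_) fun v h => ?_)
  · obtain ⟨c, h1, h2, rfl⟩ := mem_lat.1 h
    obtain ⟨_, ⟨w, rfl⟩, c', h3, rfl⟩ := Submodule.mem_sup.1 h1
    rw [← torP_same h2, map_add, torP_map hd]
    refine Submodule.mem_sup.2 ⟨_, ⟨_, mem_lat.2 ⟨_, trivial, torP_mem n w, rfl⟩, rfl⟩, _,
      mem_lat.2 ⟨_, hZ n c' h3, torP_mem n c', rfl⟩, ?_⟩
    rw [LinearMap.restrictScalars_apply, hφ]
    funext l
    simp only [Pi.add_apply, map_add]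
  · obtain ⟨_, h1, rfl⟩ := h
    obtain ⟨c, -, h2, rfl⟩ := mem_lat.1 h1
    exact mem_lat.2 ⟨d c, Submodule.mem_sup_left ⟨c, rfl⟩, hd _ _ h2, (hφ c).symm⟩
  · obtain ⟨c, h1, h2, rfl⟩ := mem_lat.1 h
    exact mem_lat.2 ⟨c, Submodule.mem_sup_right h1, h2, rfl⟩

theorem tor_fam_range [Fintype β] {ε : (β → A) →ₗ[A] A}
    (hε : ∀ n, ∀ v ∈ piece 𝒜 a n, ε v ∈ 𝒜 n) {φ : (β → kap j.1) →ₗ[kap j.1] kap j.1}
    (hφ : ∀ v, φ (fun i => th j.1 (v i)) = th j.1 (ε v)) :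
    (Mp j).fam (LinearMap.range ε) = fun n =>
      (lat j a ⊤ n).map (φ.restrictScalars (ZMod p)) := by
  funext n
  refine le_antisymm (fun v h => ?_) fun v h => ?_
  · obtain ⟨_, ⟨w, rfl⟩, h2, rfl⟩ := (Mp j).mem_fam.1 h
    rw [← md_proj_same h2, torP_eps hε]
    exact ⟨_, mem_lat.2 ⟨_, trivial, torP_mem n w, rfl⟩, hφ _⟩
  · obtain ⟨_, h1, rfl⟩ := h
    obtain ⟨c, -, h2, rfl⟩ := mem_lat.1 h1
    exact (Mp j).mem_fam.2 ⟨ε c, ⟨c, rfl⟩, hε _ _ h2, (hφ c).symm⟩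

theorem tor_lat_bot {Z : Submodule A (β → A)} (hZ : ∀ c ∈ Z, ∀ i, c i ∈ pr j.1) (n : ℕ) :
    lat j a Z n = ⊥ := by
  refine eq_bot_iff.2 fun v h => ?_
  obtain ⟨c, h1, h2, rfl⟩ := mem_lat.1 h
  funext i
  by_cases e : a i ≤ n
  · exact (th_eq_zero j.1 ((mem_piece.1 h2 i).1 e)).2 (hZ c h1 i)
  · rw [(mem_piece.1 h2 i).2 (by omega), map_zero]; rfl

theorem tor_fam_bot (n : ℕ) : (Mp j).fam (pr j.1) n = ⊥ := by
  refine eq_bot_iff.2 fun v h => ?_
  obtain ⟨c, h1, h2, rfl⟩ := (Mp j).mem_fam.1 h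
  exact (th_eq_zero j.1 h2).2 h1

theorem tor_lat_pi [Fintype β] (J : Ideal A) : lat j a (J • ⊤) =ᶠ[atTop]
    fun n => Submodule.pi Set.univ fun i => (Mp j).fam J (n - a i) := by
  filter_upwards [eventually_all.2 fun i => eventually_ge_atTop (a i)] with n hn
  ext v
  rw [mem_lat, Submodule.mem_pi]
  constructor
  · rintro ⟨c, h1, h2, rfl⟩ i _
    exact (Mp j).mem_fam.2 ⟨c i, tor_mem_smul.1 h1 i, (mem_piece.1 h2 i).1 (hn i), rfl⟩
  · intro h
    choose c h1 h2 h3 using fun i => (Mp j).mem_fam.1 (h i trivial)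
    exact ⟨c, tor_mem_smul.2 h1, mem_piece.2 fun i => ⟨fun _ => h2 i, fun e => absurd (hn i) (by omega)⟩,
      funext h3⟩

theorem tor_lat_tw [Fintype β] {J : Ideal A} {D : Car (Mp j).V} (hD : IsCl D ((Mp j).fam J)) :
    tw D (lat j a ⊤) =ᶠ[atTop] lat j a (J • ⊤) := by
  have h1 := tor_lat_pi (j := j) (a := a) ⊤
  rw [Submodule.top_smul] at h1
  refine (tw_congr D h1).trans (EventuallyEq.trans ?_ (tor_lat_pi J).symm)
  rw [tw_pi D fun i n => (Mp j).fam ⊤ (n - a i)]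
  have h2 : ∀ i, ∀ᶠ n in atTop,
      tw D (fun n => (Mp j).fam ⊤ (n - a i)) n = (Mp j).fam J (n - a i) := fun i => by
    rw [tw_sub, show (Mp j).fam ⊤ = pw (Mp j).V from funext (Mp j).fam_top]
    exact (tendsto_sub_atTop_nat (a i)).eventually hD
  filter_upwards [eventually_all.2 h2] with n hn
  rw [funext hn]

end

end Pool.Agent.Lib.MP_62d77c_ag
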