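import Pool.Agent.Lib.MP_62d77c_ag.Res

/-! The trace of an approximately logarithmic form. -/

set_option autoImplicit false

namespace Pool.Agent.Lib.MP_62d77c_ag

open Filter Polynomial Submodule

noncomputable section

section ct
open scoped RatFunc

/-- the constant term of the expansion at the origin -/
def trc_ct (x : RatFunc ℚ) : ℚ := (algebraMap (RatFunc ℚ) (LaurentSeries ℚ) x).coeff 0

theorem trc_ct_add (x y : RatFunc ℚ) : trc_ct (x + y) = trc_ct x + trc_ct y := by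
  simp [trc_ct]

theorem trc_ct_zero : trc_ct 0 = 0 := by simp [trc_ct]

theorem trc_ct_neg (x : RatFunc ℚ) : trc_ct (-x) = -trc_ct x := by simp [trc_ct]

theorem trc_ct_sub (x y : RatFunc ℚ) : trc_ct (x - y) = trc_ct x - trc_ct y := by
  simp [trc_ct]

theorem trc_alg_C (c : ℚ) :
    algebraMap (RatFunc ℚ) (LaurentSeries ℚ) (RatFunc.C c) = HahnSeries.C c := by
  rw [← RatFunc.algebraMap_C, ← IsScalarTower.algebraMap_apply ℚ[X] (RatFunc ℚ) (LaurentSeries ℚ)]
  simp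

theorem trc_ct_C_mul (c : ℚ) (x : RatFunc ℚ) : trc_ct (RatFunc.C c * x) = c * trc_ct x := by
  simp only [trc_ct, map_mul, trc_alg_C]
  rw [HahnSeries.C_mul_eq_smul]
  simp

theorem trc_ct_nat_mul (n : ℕ) (x : RatFunc ℚ) : trc_ct (n * x) = n * trc_ct x := by
  rw [← trc_ct_C_mul, map_natCast]

theorem trc_ct_pow_mul (p s : ℕ) (x : RatFunc ℚ) :
    trc_ct ((p : RatFunc ℚ) ^ s * x) = (p : ℚ) ^ s * trc_ct x := by
  rw [← trc_ct_C_mul, map_pow, map_natCast]

theorem trc_ct_zpow (i : ℤ) : trc_ct (RatFunc.X ^ i) = if i = 0 then 1 else 0 := by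
  simp only [trc_ct, map_zpow₀, RatFunc.coe_X, ← RatFunc.single_zpow]
  split_ifs with h
  · subst h; simp
  · exact HahnSeries.coeff_single_of_ne (Ne.symm h)

theorem trc_ct_one : trc_ct 1 = 1 := by simpa using trc_ct_zpow 0

theorem trc_ct_poly (q : ℚ[X]) (n : ℕ) :
    trc_ct (algebraMap ℚ[X] _ q / RatFunc.X ^ n) = q.coeff n := by
  induction q using Polynomial.induction_on' with
  | add a b ha hb => rw [map_add, add_div, trc_ct_add, ha, hb, coeff_add]
  | monomial m c =>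
    have : algebraMap ℚ[X] (RatFunc ℚ) (monomial m c) / RatFunc.X ^ n =
        RatFunc.C c * RatFunc.X ^ ((m : ℤ) - n) := by
      rw [← C_mul_X_pow_eq_monomial, map_mul, map_pow, RatFunc.algebraMap_C, RatFunc.algebraMap_X,
        zpow_sub₀ RatFunc.X_ne_zero, zpow_natCast, zpow_natCast, mul_div_assoc]
    rw [this, trc_ct_C_mul, trc_ct_zpow, coeff_monomial]
    by_cases h : m = n
    · simp [h]
    · have : (m : ℤ) - n ≠ 0 := by omega
      simp [h, this]

end ct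

section lam
variable (p : ℕ) [Fact p.Prime]

theorem trc_C_mem {c : ℚ} (hc : c ∈ Zp p) : RatFunc.C c ∈ Lam p :=
  Subring.subset_closure (Or.inl ⟨c, hc, rfl⟩)

theorem trc_X_mem : RatFunc.X ∈ Lam p := Subring.subset_closure (Or.inr (by simp))

theorem trc_Xinv_mem : RatFunc.X⁻¹ ∈ Lam p := Subring.subset_closure (Or.inr (by simp))

theorem trc_zpow_mem (i : ℤ) : RatFunc.X ^ i ∈ Lam p := by
  obtain ⟨n, rfl | rfl⟩ := i.eq_nat_or_neg
  · rw [zpow_natCast]; exact pow_mem (trc_X_mem p) n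
  · rw [zpow_neg, zpow_natCast, ← inv_pow]; exact pow_mem (trc_Xinv_mem p) n

theorem trc_lam_ind {Q : RatFunc ℚ → Prop} (h0 : Q 0) (hadd : ∀ x y, Q x → Q y → Q (x + y))
    (hmon : ∀ c ∈ Zp p, ∀ i : ℤ, Q (RatFunc.C c * RatFunc.X ^ i)) {x : RatFunc ℚ}
    (hx : x ∈ Lam p) : Q x := by
  set S : Set (RatFunc ℚ) := {y | ∃ c ∈ Zp p, ∃ i : ℤ, y = RatFunc.C c * RatFunc.X ^ i}
  have key : x ∈ AddSubmonoid.closure S := by
    induction hx using Subring.closure_induction with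
    | mem y h =>
      refine AddSubmonoid.subset_closure ?_
      rcases h with ⟨c, hc, rfl⟩ | rfl | rfl
      · exact ⟨c, hc, 0, by simp⟩
      · exact ⟨1, one_mem _, 1, by simp⟩
      · exact ⟨1, one_mem _, -1, by simp⟩
    | zero => exact zero_mem _
    | one => exact AddSubmonoid.subset_closure ⟨1, one_mem _, 0, by simp⟩
    | add y z _ _ hy hz => exact add_mem hy hz
    | neg y h1 hy =>
      clear h1
      induction hy using AddSubmonoid.closure_induction with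
      | mem y h =>
        obtain ⟨c, hc, i, rfl⟩ := h
        exact AddSubmonoid.subset_closure ⟨-c, neg_mem hc, i, by simp⟩
      | zero => simp
      | add a b _ _ ha hb => rw [neg_add]; exact add_mem ha hb
    | mul y z h1 h2 hy hz =>
      clear h1 h2
      induction hy using AddSubmonoid.closure_induction with
      | mem y h =>
        obtain ⟨c, hc, i, rfl⟩ := h
        induction hz using AddSubmonoid.closure_induction with
        | mem z h' =>
          obtain ⟨c', hc', j, rfl⟩ := h'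
          refine AddSubmonoid.subset_closure ⟨c * c', mul_mem hc hc', i + j, ?_⟩
          rw [map_mul, zpow_add₀ RatFunc.X_ne_zero]; ring
        | zero => simp
        | add a b _ _ ha hb => rw [mul_add]; exact add_mem ha hb
      | zero => simp
      | add a b _ _ ha hb => rw [add_mul]; exact add_mem ha hb
  clear hx
  induction key using AddSubmonoid.closure_induction with
  | mem y h => obtain ⟨c, hc, i, rfl⟩ := h; exact hmon c hc i
  | zero => exact h0
  | add a b _ _ ha hb => exact hadd a b ha hb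

theorem trc_ct_mem {x : RatFunc ℚ} (hx : x ∈ Lam p) : trc_ct x ∈ Zp p := by
  refine trc_lam_ind p (Q := fun x => trc_ct x ∈ Zp p) ?_ ?_ ?_ hx
  · rw [trc_ct_zero]; exact zero_mem _
  · intro x y h1 h2; rw [trc_ct_add]; exact add_mem h1 h2
  · intro c hc i
    rw [trc_ct_C_mul, trc_ct_zpow]
    split_ifs
    · simpa using hc
    · simp

theorem trc_rat_bd (c : ℚ) : ∀ᶠ s : ℕ in atTop, (p : ℚ) ^ s * c ∈ Zp p := by
  have hp : p.Prime := Fact.out
  obtain ⟨e, b, hb, h⟩ := Nat.exists_eq_pow_mul_and_not_dvd c.den_nz p hp.ne_one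
  have hp0 : (p : ℚ) ≠ 0 := by exact_mod_cast hp.ne_zero
  have h1 : (p : ℚ) ^ e * c ∈ Zp p := by
    refine (mem_Zp p).2 ⟨c.num, b, by exact_mod_cast hb, ?_⟩
    have hb0 : (b : ℚ) ≠ 0 := by rintro h0; apply hb; rw [Nat.cast_eq_zero.1 h0]; exact dvd_zero _
    conv_lhs => rw [← Rat.num_div_den c, h]
    push_cast
    field_simp
  filter_upwards [eventually_ge_atTop e] with s hs
  obtain ⟨d, rfl⟩ := Nat.exists_eq_add_of_le hs
  rw [pow_add, mul_comm ((p : ℚ) ^ e), mul_assoc]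
  exact mul_mem (pow_mem (natCast_mem _ p) d) h1

theorem trc_poly_bd (q : ℚ[X]) (n : ℕ) :
    ∀ᶠ s : ℕ in atTop, (p : RatFunc ℚ) ^ s * (algebraMap ℚ[X] _ q / RatFunc.X ^ n) ∈ Lam p := by
  induction q using Polynomial.induction_on' with
  | add a b ha hb =>
    filter_upwards [ha, hb] with s h1 h2
    rw [map_add, add_div, mul_add]; exact add_mem h1 h2
  | monomial m c =>
    filter_upwards [trc_rat_bd p c] with s hs
    have : (p : RatFunc ℚ) ^ s * (algebraMap ℚ[X] (RatFunc ℚ) (monomial m c) / RatFunc.X ^ n) =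
        RatFunc.C ((p : ℚ) ^ s * c) * (RatFunc.X ^ m * RatFunc.X⁻¹ ^ n) := by
      rw [← C_mul_X_pow_eq_monomial, map_mul, map_pow, RatFunc.algebraMap_C, RatFunc.algebraMap_X,
        map_mul, map_pow, map_natCast, inv_pow, div_eq_mul_inv]
      ring
    rw [this]
    exact mul_mem (trc_C_mem p hs) (mul_mem (pow_mem (trc_X_mem p) _) (pow_mem (trc_Xinv_mem p) _))

theorem trc_lam_le {x : RatFunc ℚ} (hx : x ∈ Lam p) :
    x ∈ Algebra.adjoin ℚ {(RatFunc.X : RatFunc ℚ), RatFunc.X⁻¹} := by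
  refine (Subring.closure_le (t := (Algebra.adjoin ℚ
    {(RatFunc.X : RatFunc ℚ), RatFunc.X⁻¹}).toSubring)).2 ?_ hx
  rintro y (⟨c, -, rfl⟩ | h)
  · have := Subalgebra.algebraMap_mem (Algebra.adjoin ℚ {(RatFunc.X : RatFunc ℚ), RatFunc.X⁻¹}) c
    rw [eq_ratCast] at this
    rw [eq_ratCast]
    exact this
  · exact Algebra.subset_adjoin h

variable {κ : Type} [Field κ] [Algebra (RatFunc ℚ) κ]

theorem trc_int (R : Subring κ) (t : Finset κ) (ht : ∀ x ∈ t, x ∈ R)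
    (hs : ∀ x ∈ R, x ∈ span (Lam p) (t : Set κ)) {x : κ} (hx : x ∈ R) :
    IsIntegral (Algebra.adjoin ℚ {(RatFunc.X : RatFunc ℚ), RatFunc.X⁻¹}) x := by
  set S := Algebra.adjoin ℚ {(RatFunc.X : RatFunc ℚ), RatFunc.X⁻¹}
  have h1 : ∀ y ∈ R, y ∈ span S (t : Set κ) := by
    intro y hy
    have := hs y hy
    clear hy
    induction this using span_induction with
    | mem y h => exact subset_span h
    | zero => exact zero_mem _
    | add a b _ _ ha hb => exact add_mem ha hb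
    | smul c a _ ha => exact (span S (t : Set κ)).smul_mem ⟨c.1, trc_lam_le p c.2⟩ ha
  refine isIntegral_of_smul_mem_submodule (span S (t : Set κ)) ?_ ⟨t, rfl⟩ x ?_
  · intro h
    have := h1 1 (one_mem R)
    rw [h] at this
    exact one_ne_zero ((mem_bot S).1 this)
  · intro y hy
    induction hy using span_induction with
    | mem y h => exact h1 _ (mul_mem hx (ht y h))
    | zero => simp
    | add a b _ _ ha hb => rw [smul_add]; exact add_mem ha hb
    | smul c a _ ha => rw [smul_comm]; exact (span S (t : Set κ)).smul_mem c ha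

theorem trc_hat [FiniteDimensional (RatFunc ℚ) κ] (S : Subalgebra ℚ (RatFunc ℚ)) {g : κ}
    (hg : IsIntegral S g) :
    IsIntegral S (algebraMap (RatFunc ℚ) κ (Algebra.norm (RatFunc ℚ) g) / g) := by
  classical
  rcases eq_or_ne g 0 with rfl | h0
  · rw [div_zero]; exact isIntegral_zero
  let E := AlgebraicClosure (RatFunc ℚ)
  let σ₀ : κ →ₐ[RatFunc ℚ] E := IsAlgClosed.lift
  have h := Algebra.norm_eq_prod_embeddings (RatFunc ℚ) E g
  have hσ : σ₀ g ≠ 0 := (map_ne_zero σ₀).2 h0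
  rw [← isIntegral_algHom_iff (σ₀.restrictScalars S) σ₀.injective]
  have : (σ₀.restrictScalars S) (algebraMap (RatFunc ℚ) κ (Algebra.norm (RatFunc ℚ) g) / g) =
      ∏ σ ∈ Finset.univ.erase σ₀, σ g := by
    rw [AlgHom.restrictScalars_apply, map_div₀, AlgHom.commutes, h,
      ← Finset.mul_prod_erase _ _ (Finset.mem_univ σ₀), mul_div_cancel_left₀ _ hσ]
  rw [this]
  exact IsIntegral.prod _ fun σ _ => hg.map (σ.restrictScalars S)

variable {δ : Derivation ℤ κ κ}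
  (hδ : δ (algebraMap (RatFunc ℚ) κ RatFunc.X) = algebraMap (RatFunc ℚ) κ RatFunc.X)
include hδ

theorem trc_der {x : RatFunc ℚ} (hx : x ∈ Lam p) :
    ∃ y ∈ Lam p, δ (algebraMap _ κ x) = algebraMap _ κ y ∧ trc_ct y = 0 := by
  refine trc_lam_ind p (Q := fun x => ∃ y ∈ Lam p, δ (algebraMap _ κ x) = algebraMap _ κ y ∧
    trc_ct y = 0) ⟨0, zero_mem _, by simp, trc_ct_zero⟩ ?_ ?_ hx
  · rintro x y ⟨a, ha, e1, f1⟩ ⟨b, hb, e2, f2⟩
    exact ⟨a + b, add_mem ha hb, by simp [e1, e2], by rw [trc_ct_add, f1, f2, add_zero]⟩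
  · intro c hc i
    have hT : algebraMap (RatFunc ℚ) κ RatFunc.X ≠ 0 := by simp [RatFunc.X_ne_zero]
    have h1 : δ (algebraMap (RatFunc ℚ) κ (RatFunc.C c)) = 0 := by
      rw [← Rat.num_div_den c, map_div₀, map_div₀, map_intCast, map_intCast, map_natCast,
        map_natCast, Derivation.leibniz_div]
      simp
    have h2 : δ (algebraMap (RatFunc ℚ) κ RatFunc.X ^ i) =
        i * algebraMap (RatFunc ℚ) κ RatFunc.X ^ i := by
      induction i using Int.induction_on with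
      | zero => simp
      | succ n ih =>
        rw [zpow_add_one₀ hT, Derivation.leibniz, ih, hδ]
        simp only [smul_eq_mul]; push_cast; ring
      | pred n ih =>
        rw [zpow_sub_one₀ hT, Derivation.leibniz, ih, Derivation.leibniz_inv, hδ]
        simp only [smul_eq_mul]; push_cast; field_simp; ring
    refine ⟨RatFunc.C (c * i) * RatFunc.X ^ i,
      mul_mem (trc_C_mem p (mul_mem hc (intCast_mem _ i))) (trc_zpow_mem p i), ?_, ?_⟩
    · rw [map_mul, map_zpow₀, Derivation.leibniz, h1, h2]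
      simp only [smul_eq_mul, map_mul, map_intCast, map_zpow₀]; ring
    · rw [trc_ct_C_mul, trc_ct_zpow]
      split_ifs with h <;> simp [*]

theorem trc_ct_pow {φ y : RatFunc ℚ} (hφ : φ ∈ Lam p) (h : δ (algebraMap _ κ φ) = algebraMap _ κ y)
    (i : ℕ) : trc_ct (φ ^ i * y) = 0 := by
  obtain ⟨z, -, e, f⟩ := trc_der p hδ (pow_mem hφ (i + 1))
  have : z = ((i + 1 : ℕ) : RatFunc ℚ) * (φ ^ i * y) := by
    apply (algebraMap (RatFunc ℚ) κ).injective
    rw [← e, map_pow, Derivation.leibniz_pow, h]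
    simp
  rw [this, trc_ct_nat_mul] at f
  exact (mul_eq_zero.1 f).resolve_left (by exact_mod_cast Nat.succ_ne_zero i)

variable [FiniteDimensional (RatFunc ℚ) κ] (R : Subring κ)
  (hR : ∀ x ∈ Lam p, algebraMap (RatFunc ℚ) κ x ∈ R) (t : Finset κ) (ht : ∀ x ∈ t, x ∈ R)
  (hs : ∀ x ∈ R, x ∈ span (Lam p) (t : Set κ))
include ht hs

theorem trc_bdA {h b : κ}
    (hh : IsIntegral (Algebra.adjoin ℚ {(RatFunc.X : RatFunc ℚ), RatFunc.X⁻¹}) h) (hb : b ∈ R) :
    ∀ᶠ s : ℕ in atTop, ∀ ζ ∈ R,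
      (p : RatFunc ℚ) ^ s * Algebra.trace (RatFunc ℚ) κ (ζ * h * δ b) ∈ Lam p := by
  have h1 : ∀ x ∈ t, ∀ᶠ s : ℕ in atTop,
      (p : RatFunc ℚ) ^ s * Algebra.trace (RatFunc ℚ) κ (x * h * δ b) ∈ Lam p := by
    intro x hx
    obtain ⟨q, n, e⟩ := trace_regular hδ ((trc_int p R t ht hs (ht x hx)).mul hh)
      (trc_int p R t ht hs hb)
    rw [e]; exact trc_poly_bd p q n
  filter_upwards [(eventually_all_finset t).2 h1] with s h2 ζ hζ
  have := hs ζ hζ
  clear hζ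
  induction this using span_induction with
  | mem y h => exact h2 y h
  | zero => simp
  | add a b _ _ ha hb => rw [add_mul, add_mul, map_add, mul_add]; exact add_mem ha hb
  | smul c a _ ha =>
    rw [Subring.smul_def, smul_mul_assoc, smul_mul_assoc, map_smul, smul_eq_mul, mul_left_comm]
    exact mul_mem c.2 ha

include hR in
theorem trc_bdB : ∀ᶠ s : ℕ in atTop, ∀ b ∈ R, ∀ a ∈ R,
    (p : RatFunc ℚ) ^ s * Algebra.trace (RatFunc ℚ) κ (a * δ b) ∈ Lam p := by
  have h1 := (eventually_all_finset t).2 fun x hx => trc_bdA p hδ R t ht hs isIntegral_one (ht x hx)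
  have hT : algebraMap (RatFunc ℚ) κ RatFunc.X ≠ 0 := by simp [RatFunc.X_ne_zero]
  filter_upwards [h1, trc_bdA p hδ R t ht hs isIntegral_one (hR _ (trc_X_mem p))] with s h2 h3 b hb
  have key : b ∈ R ∧ ∀ a ∈ R,
      (p : RatFunc ℚ) ^ s * Algebra.trace (RatFunc ℚ) κ (a * δ b) ∈ Lam p := by
    have := hs b hb
    clear hb
    induction this using span_induction with
    | mem y h => exact ⟨ht y h, fun a ha => by simpa using h2 y h a ha⟩
    | zero => exact ⟨zero_mem _, by simp⟩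
    | add x y _ _ hx hy =>
      refine ⟨add_mem hx.1 hy.1, fun a ha => ?_⟩
      rw [map_add, mul_add, map_add, mul_add]
      exact add_mem (hx.2 a ha) (hy.2 a ha)
    | smul c x _ hx =>
      rw [Subring.smul_def, Algebra.smul_def]
      refine ⟨mul_mem (hR _ c.2) hx.1, fun a ha => ?_⟩
      obtain ⟨y, hy, e, -⟩ := trc_der p hδ c.2
      have : a * δ (algebraMap (RatFunc ℚ) κ c * x) = a * algebraMap (RatFunc ℚ) κ c * δ x +
          a * x * algebraMap (RatFunc ℚ) κ (y * RatFunc.X⁻¹) * 1 *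
            δ (algebraMap (RatFunc ℚ) κ RatFunc.X) := by
        rw [Derivation.leibniz, e, hδ, map_mul, map_inv₀]
        simp only [smul_eq_mul]; field_simp
      rw [this, map_add, mul_add]
      exact add_mem (hx.2 _ (mul_mem ha (hR _ c.2)))
        (h3 _ (mul_mem (mul_mem ha hx.1) (hR _ (mul_mem hy (trc_Xinv_mem p)))))
  exact key.2

end lam

theorem trc_laurent (p : ℕ) [Fact p.Prime] {x : RatFunc ℚ} {s : ℕ}
    (hx : (p : RatFunc ℚ) ^ s * x ∈ Lam p) :
    ∃ (q : ℚ[X]) (n : ℕ), x = algebraMap ℚ[X] _ q / RatFunc.X ^ n := by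
  have hX : (RatFunc.X : RatFunc ℚ) ≠ 0 := RatFunc.X_ne_zero
  have : ∃ (q : ℚ[X]) (n : ℕ), (p : RatFunc ℚ) ^ s * x = algebraMap ℚ[X] _ q / RatFunc.X ^ n := by
    refine trc_lam_ind p (Q := fun x => ∃ (q : ℚ[X]) (n : ℕ),
      x = algebraMap ℚ[X] _ q / RatFunc.X ^ n) ⟨0, 0, by simp⟩ ?_ ?_ hx
    · rintro x y ⟨q, n, rfl⟩ ⟨q', n', rfl⟩
      refine ⟨q * X ^ n' + X ^ n * q', n + n', ?_⟩
      simp only [map_add, map_mul, map_pow, RatFunc.algebraMap_X]
      field_simp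
      ring
    · intro c _ i
      obtain ⟨n, rfl | rfl⟩ := i.eq_nat_or_neg
      · exact ⟨C c * X ^ n, 0, by simp⟩
      · exact ⟨C c, n, by simp [div_eq_mul_inv]⟩
  obtain ⟨q, n, e⟩ := this
  have hp0 : (p : RatFunc ℚ) ≠ 0 := by exact_mod_cast (Fact.out : p.Prime).ne_zero
  refine ⟨C ((p : ℚ) ^ s)⁻¹ * q, n, ?_⟩
  rw [map_mul, RatFunc.algebraMap_C, mul_div_assoc, ← e, map_inv₀, map_pow, map_natCast]
  field_simp

theorem trc_ev {κ : Type} [Field κ] (δ : Derivation ℤ κ κ) (w : Fm κ 1) :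
    (w.ev fun _ => δ) = (w.map fun x => x.1 * δ (x.2 0)).sum := by
  simp [Fm.ev]

theorem trc_ct_geom (p : ℕ) {φ y : RatFunc ℚ} (h : ∀ i : ℕ, trc_ct (φ ^ i * y) = 0) (k : ℕ) :
    trc_ct ((∑ i ∈ Finset.range k, (-(p * φ)) ^ i) * y) = 0 := by
  induction k with
  | zero => simp [trc_ct_zero]
  | succ k ih =>
    rw [Finset.sum_range_succ, add_mul, trc_ct_add, ih, zero_add]
    have : (-(p * φ)) ^ k * y = RatFunc.C ((-(p : ℚ)) ^ k) * (φ ^ k * y) := by
      rw [map_pow, map_neg, map_natCast, ← neg_mul, mul_pow, mul_assoc]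
    rw [this, trc_ct_C_mul, h, mul_zero]

theorem trace_cong (p : ℕ) [Fact p.Prime] {κ : Type} [Field κ] [Algebra (RatFunc ℚ) κ]
    [FiniteDimensional (RatFunc ℚ) κ] (R : Subring κ)
    (hR : ∀ x ∈ Lam p, algebraMap (RatFunc ℚ) κ x ∈ R)
    (hfin : ∃ t : Finset κ, (∀ x ∈ t, x ∈ R) ∧ ∀ x ∈ R, x ∈ span (Lam p) (t : Set κ))
    {g : κ} (hg : g ∈ R) {ν : ℕ} {c : ℤ} (hc : ¬(p : ℤ) ∣ c)
    (hN : ∃ μ ∈ Lam p, Algebra.norm (RatFunc ℚ) g = (c : RatFunc ℚ) * RatFunc.X ^ ν + (p : RatFunc ℚ) * μ) :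
    ∃ s : ℕ, ∀ (k : ℕ), ∀ g' ∈ R, ∀ ζ ∈ R, ∀ l : Fm κ 1, l.On R → g' * g = 1 - (p : κ) ^ k * ζ →
      ∃ ρ : ValuationSubring κ → ℚ, (∀ P, ρ P ≠ 0 → Zer P) ∧
        (∀ P, Zer P → IsRes P ((g', ![g]) :: l.map fun x => ((p : κ) ^ k * x.1, x.2)) (ρ P)) ∧
        ∃ r ∈ Zp p, (p : ℚ) ^ s * (∑ᶠ P, ρ P - ν) = (p : ℚ) ^ k * r := by
  obtain ⟨t, ht, hs⟩ := hfin
  obtain ⟨μ, hμ, hn⟩ := hN
  obtain ⟨δ, hδ, -⟩ := exists_euler (κ := κ)
  have hX : (RatFunc.X : RatFunc ℚ) ≠ 0 := RatFunc.X_ne_zero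
  have hc0 : c ≠ 0 := by rintro rfl; exact hc (dvd_zero _)
  have hc1 : (c : RatFunc ℚ) ≠ 0 := by exact_mod_cast hc0
  have hci : (c : RatFunc ℚ)⁻¹ * RatFunc.X⁻¹ ^ ν ∈ Lam p := by
    refine mul_mem ?_ (pow_mem (trc_Xinv_mem p) ν)
    have := trc_C_mem p ((mem_Zp p (q := (c : ℚ)⁻¹)).2 ⟨1, c, hc, by simp⟩)
    rwa [map_inv₀, map_intCast] at this
  set n := Algebra.norm (RatFunc ℚ) g with hn'
  set φ := μ * ((c : RatFunc ℚ)⁻¹ * RatFunc.X⁻¹ ^ ν) with hφ'
  have hφ : φ ∈ Lam p := mul_mem hμ hci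
  have hnφ : n = (c : RatFunc ℚ) * RatFunc.X ^ ν * (1 + (p : RatFunc ℚ) * φ) := by
    rw [hn, hφ', inv_pow]; field_simp
  have h1 : (1 + p * φ : RatFunc ℚ) ≠ 0 := by
    intro h
    have h2 := congrArg trc_ct h
    rw [trc_ct_add, trc_ct_one, trc_ct_nat_mul, trc_ct_zero] at h2
    obtain ⟨a, b, hb, e⟩ := (mem_Zp p).1 (trc_ct_mem p hφ)
    have hb0 : (b : ℚ) ≠ 0 := by rintro h0; apply hb; rw [Int.cast_eq_zero.1 h0]; exact dvd_zero _
    rw [e] at h2
    field_simp at h2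
    refine hb ⟨-a, ?_⟩
    have : (b : ℚ) = p * (-a) := by linarith
    exact_mod_cast this
  have hn0 : n ≠ 0 := by rw [hnφ]; exact mul_ne_zero (mul_ne_zero hc1 (pow_ne_zero _ hX)) h1
  have hg0 : g ≠ 0 := by rintro rfl; exact hn0 (by rw [hn', Algebra.norm_zero])
  have hn1 : algebraMap (RatFunc ℚ) κ n ≠ 0 := by simpa using hn0
  obtain ⟨y, hy, ey, -⟩ := trc_der p hδ hφ
  have hlog : n * Algebra.trace (RatFunc ℚ) κ (δ g / g) =
      (ν : RatFunc ℚ) * n + (c : RatFunc ℚ) * RatFunc.X ^ ν * ((p : RatFunc ℚ) * y) := by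
    apply (algebraMap (RatFunc ℚ) κ).injective
    rw [← euler_norm hδ g, ← hn', hnφ]
    have h2 : δ (algebraMap (RatFunc ℚ) κ RatFunc.X ^ ν) =
        ν * algebraMap (RatFunc ℚ) κ RatFunc.X ^ ν := by
      rw [Derivation.leibniz_pow, hδ]
      rcases ν with _ | ν
      · simp
      · simp [pow_succ]
    simp only [map_mul, map_add, map_pow, map_intCast, map_natCast, map_one, Derivation.leibniz,
      h2, ey, Derivation.map_intCast, Derivation.map_natCast, Derivation.map_one_eq_zero,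
      smul_eq_mul]
    ring
  obtain ⟨s, hA, hB⟩ := ((trc_bdA p hδ R t ht hs
    (trc_hat _ (trc_int p R t ht hs hg)) hg).and (trc_bdB p hδ R hR t ht hs)).exists
  refine ⟨s, fun k g' hg' ζ hζ l hl e => ?_⟩
  set T := Algebra.trace (RatFunc ℚ) κ (g' * δ g) with hT
  set Y := Algebra.trace (RatFunc ℚ) κ (ζ * (algebraMap (RatFunc ℚ) κ n / g) * δ g) with hY
  set L := Algebra.trace (RatFunc ℚ) κ (l.map fun x => x.1 * δ (x.2 0)).sum with hL
  have bT : (p : RatFunc ℚ) ^ s * T ∈ Lam p := hB g hg g' hg'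
  have bY : (p : RatFunc ℚ) ^ s * Y ∈ Lam p := hA ζ hζ
  have bL : (p : RatFunc ℚ) ^ s * L ∈ Lam p := by
    rw [hL]
    clear hL L
    induction l with
    | nil => simp
    | cons x l ih =>
      rw [List.map_cons, List.sum_cons, map_add, mul_add]
      exact add_mem (hB _ ((hl x (by simp)).2 0) _ (hl x (by simp)).1)
        (ih fun z hz => hl z (by simp [hz]))
  have hpk : ∀ z : κ, Algebra.trace (RatFunc ℚ) κ ((p : κ) ^ k * z) =
      (p : RatFunc ℚ) ^ k * Algebra.trace (RatFunc ℚ) κ z := by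
    intro z
    rw [← smul_eq_mul ((p : RatFunc ℚ) ^ k), ← map_smul, Algebra.smul_def, map_pow, map_natCast]
  have hw : Algebra.trace (RatFunc ℚ) κ
      (Fm.ev ((g', ![g]) :: l.map fun x => ((p : κ) ^ k * x.1, x.2)) fun _ => δ) =
      T + (p : RatFunc ℚ) ^ k * L := by
    rw [trc_ev, List.map_cons, List.sum_cons, map_add, hL, ← hpk, ← List.sum_map_mul_left,
      List.map_map]
    simp only [Function.comp_def, mul_assoc]
    rfl
  have hnT : n * T = n * Algebra.trace (RatFunc ℚ) κ (δ g / g) - (p : RatFunc ℚ) ^ k * Y := by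
    rw [hT, hY, ← hpk, ← smul_eq_mul n, ← smul_eq_mul n, ← map_smul, ← map_smul, ← map_sub]
    congr 1
    have : g' = (1 - (p : κ) ^ k * ζ) / g := by rw [← e]; field_simp
    rw [Algebra.smul_def, Algebra.smul_def, this]
    field_simp
  set G := ∑ i ∈ Finset.range k, (-(p * φ)) ^ i with hG
  have hGm : G ∈ Lam p := sum_mem fun i _ => pow_mem (neg_mem (mul_mem (natCast_mem _ p) hφ)) i
  have hG1 : G * (1 + p * φ) = 1 - (p : RatFunc ℚ) ^ k * (-φ) ^ k := by
    have := geom_sum_mul_neg (-(p * φ)) k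
    rw [sub_neg_eq_add] at this
    rw [hG, this, ← mul_pow, mul_neg]
  have hu : (1 + (p : RatFunc ℚ) * φ) * (T - (ν : RatFunc ℚ)) =
      (p : RatFunc ℚ) * y - (p : RatFunc ℚ) ^ k * (Y * ((c : RatFunc ℚ)⁻¹ * RatFunc.X⁻¹ ^ ν)) := by
    apply mul_left_cancel₀ (mul_ne_zero hc1 (pow_ne_zero ν hX))
    rw [← mul_assoc, ← hnφ, mul_sub, hnT, hlog, inv_pow]
    field_simp
    ring
  have bW : (p : RatFunc ℚ) ^ s * (T + (p : RatFunc ℚ) ^ k * L) ∈ Lam p := by
    rw [mul_add, mul_left_comm]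
    exact add_mem bT (mul_mem (pow_mem (natCast_mem _ p) k) bL)
  obtain ⟨q, m, eq⟩ := trc_laurent p bW
  obtain ⟨ρ, r1, r2, r3⟩ := residue_sum hδ _ (hw.trans eq)
  set Z := (-φ) ^ k * ((p : RatFunc ℚ) ^ s * T - (p : RatFunc ℚ) ^ s * (ν : RatFunc ℚ)) -
    G * ((p : RatFunc ℚ) ^ s * Y * ((c : RatFunc ℚ)⁻¹ * RatFunc.X⁻¹ ^ ν)) +
    (p : RatFunc ℚ) ^ s * L with hZ
  have hZm : Z ∈ Lam p := add_mem (sub_mem (mul_mem (pow_mem (neg_mem hφ) k) (sub_mem bT
    (mul_mem (pow_mem (natCast_mem _ p) s) (natCast_mem _ ν)))) (mul_mem hGm (mul_mem bY hci))) bL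
  refine ⟨ρ, r1, r2, trc_ct Z, trc_ct_mem p hZm, ?_⟩
  have hfin : (p : RatFunc ℚ) ^ s * (T + (p : RatFunc ℚ) ^ k * L - (ν : RatFunc ℚ) * 1) =
      (p : RatFunc ℚ) ^ k * Z + (p : RatFunc ℚ) ^ (s + 1) * (G * y) := by
    rw [hZ]
    linear_combination (p : RatFunc ℚ) ^ s * G * hu - (p : RatFunc ℚ) ^ s * (T - (ν : RatFunc ℚ)) * hG1
  have h3 := congrArg trc_ct hfin
  rw [trc_ct_pow_mul, trc_ct_sub, trc_ct_nat_mul, trc_ct_one, trc_ct_add (_ * Z), trc_ct_pow_mul,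
    trc_ct_pow_mul, hG, trc_ct_geom p (trc_ct_pow p hδ hφ ey), eq, trc_ct_poly] at h3
  rw [r3]
  simpa using h3

end

end Pool.Agent.Lib.MP_62d77c_ag
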