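import Pool.Agent.Lib.MP_62d77c_ag.DR
import Pool.Agent.Lib.MP_62d77c_ag.TrC
import Pool.Agent.Lib.MP_62d77c_ag.Chart

/-! A horizontal curve as a finite cover of the projective line. -/

set_option autoImplicit false
set_option linter.unusedSectionVars false
set_option linter.style.haveILetI false

namespace Pool.Agent.Lib.MP_62d77c_ag

open Filter Polynomial Submodule

noncomputable section

variable {A : Type} [CommRing A] [IsDomain A] {𝒜 : ℕ → AddSubgroup A} [GradedRing 𝒜]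
  [hG : Fact (Gen 𝒜)] {p : ℕ} [Fact p.Prime]

/-- the setting: two forms without common zero on the fibre of the horizontal curve `W` -/
structure TwoChart (p : ℕ) (W : Pt 𝒜) (e : ℕ) (F₀ F₁ : A) : Prop where
  char : CharZero (kap W)
  dim : tr W = 1
  pos : 0 < e
  d₀ : F₀ ∈ 𝒜 e
  d₁ : F₁ ∈ 𝒜 e
  cov : ∀ y : Vp 𝒜 p, pr W ≤ pr y.1 → F₀ ∉ pr y.1 ∨ F₁ ∉ pr y.1

variable {W : Pt 𝒜} {e : ℕ} {F₀ F₁ : A}

theorem two_pow {F : A} (hF : F ∈ 𝒜 e) (j : ℕ) : F ^ j ∈ 𝒜 (j * e) := by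
  simpa using SetLike.pow_mem_graded j hF

theorem TwoChart.key (h : TwoChart p W e F₀ F₁) : ∃ (r : ℤ) (j0 : ℕ) (s : Finset A),
    ¬(p : ℤ) ∣ r ∧ (∀ a ∈ s, a ∈ 𝒜 (j0 * e)) ∧
    ∀ (B : Type) [CommRing B] [Algebra B (kap W)] (f : kap W) (ρ b₀ b₁ : B), f ≠ 0 →
      algebraMap B _ ρ * (r : kap W) = 1 → th W F₀ = algebraMap B _ b₀ * f →
      th W F₁ = algebraMap B _ b₁ * f → ∀ j, ∀ a ∈ 𝒜 ((j0 + j) * e),
        th W a / f ^ (j0 + j) ∈ span B ((fun a => th W a / f ^ j0) '' s) := by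
  have hF : ∀ i, ![F₀, F₁] i ∈ 𝒜 e := fun i => by fin_cases i; exacts [h.d₀, h.d₁]
  obtain ⟨r, hr, hn⟩ := nakayama_cover (p := p) hF (pr_hom W) fun y hy =>
    (h.cov y hy).elim (fun x => ⟨0, x⟩) fun x => ⟨1, x⟩
  obtain ⟨j0, hn⟩ := eventually_atTop.1 hn
  obtain ⟨s, hs⟩ := piece_fg (𝒜 := 𝒜) (j0 * e)
  refine ⟨r, j0, s, hr, fun a ha => hs ▸ AddSubgroup.subset_closure ha,
    fun B _ _ f ρ b₀ b₁ f0 hρ e0 e1 j => ?_⟩
  induction j with
  | zero =>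
    intro a ha
    rw [Nat.add_zero, ← hs] at ha
    induction ha using AddSubgroup.closure_induction with
    | mem a ha => exact subset_span ⟨a, ha, rfl⟩
    | zero => simp
    | add a b _ _ ha hb => rw [map_add, add_div]; exact add_mem ha hb
    | neg a _ ha => rw [map_neg, neg_div]; exact neg_mem ha
  | succ j ih =>
    intro a ha
    rw [← add_assoc, Nat.succ_mul] at ha
    obtain ⟨c, hc, hp⟩ := hn ((j0 + j) * e) (by nlinarith [h.pos]) a ha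
    have m : (r : A) * a - ∑ i, ![F₀, F₁] i * c i ∈ 𝒜 ((j0 + j) * e + e) := by
      refine sub_mem (by rw [← zsmul_eq_mul]; exact zsmul_mem ha r) (sum_mem fun i _ => ?_)
      rw [add_comm]
      exact SetLike.mul_mem_graded (hF i) (hc i)
    have z := (th_eq_zero W m).2 hp
    simp only [Fin.sum_univ_two, map_sub, map_mul, map_add, map_intCast, Matrix.cons_val_zero,
      Matrix.cons_val_one, e0, e1] at z
    have : th W a / f ^ (j0 + (j + 1)) =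
        ρ • (b₀ • (th W (c 0) / f ^ (j0 + j)) + b₁ • (th W (c 1) / f ^ (j0 + j))) := by
      simp only [Algebra.smul_def]
      rw [← add_assoc, pow_succ]
      field_simp
      linear_combination algebraMap B _ ρ * z - th W a * hρ
    rw [this]
    exact smul_mem _ _ (add_mem (smul_mem _ _ (ih _ (hc 0))) (smul_mem _ _ (ih _ (hc 1))))

theorem TwoChart.int (h : TwoChart p W e F₀ F₁) : ∃ r : ℤ, r ≠ 0 ∧
    ∀ (B : Type) [CommRing B] [Algebra B (kap W)] (f : kap W) (ρ b₀ b₁ : B), f ≠ 0 →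
      algebraMap B _ ρ * (r : kap W) = 1 → th W F₀ = algebraMap B _ b₀ * f →
      th W F₁ = algebraMap B _ b₁ * f → ∀ j, ∀ a ∈ 𝒜 (j * e), IsIntegral B (th W a / f ^ j) := by
  obtain ⟨r, j0, s, hr, hs, k⟩ := h.key
  refine ⟨r, fun x => hr (by simp [x]), fun B _ _ f ρ b₀ b₁ f0 hρ e0 e1 j a ha => ?_⟩
  have k := k B f ρ b₀ b₁ f0 hρ e0 e1
  refine isIntegral_of_smul_mem_submodule (span B ((fun a => th W a / f ^ j0) '' s)) (fun x => ?_)
    (fg_span (s.finite_toSet.image _)) _ fun n hn => ?_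
  · have := k 0 _ (md_pow_mem (ell_spec W).1 _)
    rw [x, Submodule.mem_bot, map_pow, th_ell] at this
    simp [f0] at this
  · induction hn using span_induction with
    | mem n hn =>
      obtain ⟨b, hb, rfl⟩ := hn
      have := k j (b * a) (by rw [add_mul]; exact SetLike.mul_mem_graded (hs b hb) ha)
      rwa [map_mul, pow_add, ← div_mul_div_comm, mul_comm] at this
    | zero => simp
    | add x y _ _ hx hy => rw [smul_add]; exact add_mem hx hy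
    | smul c x _ hx => rw [smul_comm]; exact smul_mem _ _ hx

theorem two_ratio (he : 0 < e) {f : kap W} (f0 : f ≠ 0) (z : kap W) :
    ∃ j, ∃ a ∈ 𝒜 (j * e), ∃ b ∈ 𝒜 (j * e), z = th W a / f ^ j / (th W b / f ^ j) := by
  obtain ⟨n, a, ha, b, hb, -, rfl⟩ := th_gen W z
  obtain ⟨e, rfl⟩ := Nat.exists_eq_succ_of_ne_zero he.ne'
  have l := md_pow_mem (ell_spec W).1 (n * e)
  refine ⟨n, _, SetLike.mul_mem_graded l ha, _, SetLike.mul_mem_graded l hb, ?_⟩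
  rw [div_div_div_cancel_right₀ (pow_ne_zero n f0)]
  simp [th_ell]

theorem TwoChart.not_alg (h : TwoChart p W e F₀ F₁) [CharZero (kap W)] {f : kap W} (f0 : f ≠ 0)
    (h0 : IsIntegral ℚ (th W F₀ / f)) (h1 : IsIntegral ℚ (th W F₁ / f)) : False := by
  obtain ⟨r, hr, k⟩ := h.int
  have k := k (integralClosure ℚ (kap W)) f (algebraMap ℚ _ (r : ℚ)⁻¹) ⟨_, h0⟩ ⟨_, h1⟩ f0
    (by rw [← IsScalarTower.algebraMap_apply]; simp [hr])
    (div_mul_cancel₀ _ f0).symm (div_mul_cancel₀ _ f0).symm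
  haveI : Algebra.IsAlgebraic ℚ (kap W) := ⟨fun z => by
    obtain ⟨j, a, ha, b, hb, rfl⟩ := two_ratio h.pos f0 z
    rw [div_eq_mul_inv]
    exact (isIntegral_trans _ (k j a ha)).isAlgebraic.mul
      (isIntegral_trans _ (k j b hb)).isAlgebraic.inv⟩
  haveI : IsScalarTower ℚ (⊥ : Subfield (kap W)) (kap W) :=
    IsScalarTower.of_algebraMap_eq' (RingHom.ext_rat _ _)
  haveI := Algebra.IsAlgebraic.tower_top (K := ℚ) (⊥ : Subfield (kap W)) (A := kap W)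
  have := h.dim
  rw [tr, trdeg_eq_zero] at this
  exact zero_ne_one this

theorem TwoChart.not_mem (h : TwoChart p W e F₀ F₁) : F₀ ∉ pr W ∧ F₁ ∉ pr W := by
  haveI := h.char
  rw [← th_eq_zero W h.d₀, ← th_eq_zero W h.d₁]
  by_cases a : th W F₀ = 0 <;> by_cases b : th W F₁ = 0
  · exact (h.not_alg one_ne_zero (by simp [a, isIntegral_zero]) (by simp [b, isIntegral_zero])).elim
  · exact (h.not_alg b (by simp [a, isIntegral_zero]) (by simp [b, isIntegral_one])).elim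
  · exact (h.not_alg a (by simp [a, isIntegral_one]) (by simp [b, isIntegral_zero])).elim
  · exact ⟨a, b⟩

theorem TwoChart.ne (h : TwoChart p W e F₀ F₁) : th W F₀ ≠ 0 ∧ th W F₁ ≠ 0 :=
  ⟨mt (th_eq_zero W h.d₀).1 h.not_mem.1, mt (th_eq_zero W h.d₁).1 h.not_mem.2⟩

theorem TwoChart.key1 (h : TwoChart p W e F₀ F₁) : ∃ (r : ℤ) (j0 : ℕ) (s : Finset A),
    ¬(p : ℤ) ∣ r ∧ (∀ a ∈ s, a ∈ 𝒜 (j0 * e)) ∧
    ∀ (B : Type) [CommRing B] [Algebra B (kap W)] (ρ b₀ : B),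
      algebraMap B _ ρ * (r : kap W) = 1 → algebraMap B _ b₀ = th W F₀ / th W F₁ →
      ∀ j, ∀ a ∈ 𝒜 (j * e),
        th W a / th W F₁ ^ j ∈ span B ((fun a => th W a / th W F₁ ^ j0) '' s) := by
  obtain ⟨r, j0, s, hr, hs, k⟩ := h.key
  refine ⟨r, j0, s, hr, hs, fun B _ _ ρ b₀ hρ e0 j a ha => ?_⟩
  have := k B _ ρ b₀ 1 h.ne.2 hρ (by rw [e0, div_mul_cancel₀ _ h.ne.2]) (by simp) j (F₁ ^ j0 * a)
    (by rw [add_mul]; exact SetLike.mul_mem_graded (two_pow h.d₁ j0) ha)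
  rwa [map_mul, map_pow, pow_add, mul_div_mul_left _ _ (pow_ne_zero _ h.ne.2)] at this

theorem TwoChart.exists_alg (h : TwoChart p W e F₀ F₁) :
    ∃ _ : Algebra (RatFunc ℚ) (kap W), FiniteDimensional (RatFunc ℚ) (kap W) ∧
      algebraMap (RatFunc ℚ) (kap W) RatFunc.X = th W F₀ / th W F₁ := by
  haveI := h.char
  have ht : Transcendental ℚ (th W F₀ / th W F₁) := fun x =>
    h.not_alg h.ne.2 x.isIntegral (by simp [h.ne.2, isIntegral_one])
  letI : Algebra (RatFunc ℚ) (kap W) := (RatFunc.liftRingHom (aeval (th W F₀ / th W F₁)).toRingHom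
    (nonZeroDivisors_le_comap_nonZeroDivisors_of_injective _
      (transcendental_iff_injective.1 ht))).toAlgebra
  have hX : algebraMap (RatFunc ℚ) (kap W) RatFunc.X = th W F₀ / th W F₁ :=
    (RatFunc.liftRingHom_X _ _).trans (aeval_X _)
  refine ⟨inferInstance, ?_, hX⟩
  obtain ⟨r, j0, s, hr, hs, k⟩ := h.key1
  obtain ⟨r', hr', k'⟩ := h.int
  have r0 : r ≠ 0 := fun x => hr (by simp [x])
  have k := k (RatFunc ℚ) (r : RatFunc ℚ)⁻¹ _ (by simp [r0]) hX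
  have k' := k' (RatFunc ℚ) _ (r' : RatFunc ℚ)⁻¹ RatFunc.X 1 h.ne.2 (by simp [hr'])
    (by rw [hX, div_mul_cancel₀ _ h.ne.2]) (by simp)
  let S := (fun a => th W a / th W F₁ ^ j0) '' s
  haveI : Finite S := (s.finite_toSet.image _).to_subtype
  have fin := IntermediateField.finiteDimensional_adjoin (K := RatFunc ℚ) (S := S)
    (by rintro _ ⟨a, ha, rfl⟩; exact k' j0 a (hs a ha))
  have le : span (RatFunc ℚ) S ≤ (IntermediateField.adjoin (RatFunc ℚ) S).toSubalgebra.toSubmodule :=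
    span_le.2 (IntermediateField.subset_adjoin _ S)
  have top : IntermediateField.adjoin (RatFunc ℚ) S = ⊤ := eq_top_iff.2 fun z _ => by
    obtain ⟨j, a, ha, b, hb, rfl⟩ := two_ratio h.pos h.ne.2 z
    exact div_mem (le (k j a ha)) (le (k j b hb))
  rw [top] at fin
  exact IntermediateField.topEquiv.toLinearEquiv.finiteDimensional

/-- denominators -/
abbrev twoT {r : ℕ} (Q : ℤ → Prop) (F : Fin r → A) (s : Set (Fin r)) : Submonoid A :=
  Submonoid.closure (F '' s ∪ {a | ∃ m : ℤ, Q m ∧ a = m})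

theorem two_nm [CharZero (kap W)] {r : ℕ} {Q : ℤ → Prop} {F : Fin r → A} {s : Set (Fin r)}
    (hQ : ¬Q 0) (hF : ∀ i ∈ s, F i ∉ pr W) : twoT Q F s ≤ (pr W).primeCompl := by
  refine Submonoid.closure_le.2 ?_
  rintro _ (⟨i, hi, rfl⟩ | ⟨m, hm, rfl⟩)
  · exact hF i hi
  · intro x
    have := (th_eq_zero W (md_intCast_mem m)).2 x
    rw [map_intCast, Int.cast_eq_zero] at this
    exact hQ (this ▸ hm)

theorem two_res {T : Submonoid A} (hT : T ≤ (pr W).primeCompl) {y : FractionRing A}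
    (hy : y ∈ frac 𝒜 T) : y ∈ loc W ∧ res W y ∈ (MZ W).fr T := by
  obtain ⟨n, a, ha, b, hb, h, rfl⟩ := (mem_frac fun x => hT x (zero_mem _)).1 hy
  exact ⟨mem_loc.2 ⟨n, a, ha, b, hb, hT h, rfl⟩,
    res_div W ha hb (hT h) ▸ (MZ W).div_mem_fr ha hb h⟩

theorem two_fr [CharZero (kap W)] {r : ℕ} {Q : ℤ → Prop} {F : Fin r → A} {i j : Fin r}
    (hQ : ¬Q 0) (h1 : Q 1) (hm : ∀ a b, Q a → Q b → Q (a * b)) (di : F i ∈ 𝒜 e) (dj : F j ∈ 𝒜 e)
    (ni : F i ∉ pr W) (nj : F j ∉ pr W) {x : kap W} (hx : x ∈ (MZ W).fr (twoT Q F {i, j})) :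
    ∃ (m : ℤ) (k l : ℕ), Q m ∧ ∃ a ∈ 𝒜 ((k + l) * e),
      x = th W a / (m * th W (F i) ^ k * th W (F j) ^ l) := by
  have hT : twoT Q F {i, j} ≤ (pr W).primeCompl := two_nm hQ (by rintro _ (rfl | rfl) <;> assumption)
  obtain ⟨n, a, ha, b, hb, h, rfl⟩ :=
    ((MZ W).mem_fr fun n b hb h x => hT h ((th_eq_zero W hb).1 x)).1 hx
  have b0 : b ≠ 0 := fun x => hT h (x ▸ zero_mem _)
  obtain ⟨m, k, l, q, rfl⟩ : ∃ (m : ℤ) (k l : ℕ), Q m ∧ b = m * F i ^ k * F j ^ l := by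
    clear hb b0 hx
    induction h using Submonoid.closure_induction with
    | mem b h =>
      rcases h with ⟨_, rfl | rfl, rfl⟩ | ⟨m, q, rfl⟩
      · exact ⟨1, 1, 0, h1, by simp⟩
      · exact ⟨1, 0, 1, h1, by simp⟩
      · exact ⟨m, 0, 0, q, by simp⟩
    | one => exact ⟨1, 0, 0, h1, by simp⟩
    | mul b c _ _ hb hc =>
      obtain ⟨m, k, l, q, rfl⟩ := hb
      obtain ⟨m', k', l', q', rfl⟩ := hc
      exact ⟨m * m', k + k', l + l', hm _ _ q q', by push_cast; ring⟩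
  have d := SetLike.mul_mem_graded (SetLike.mul_mem_graded (md_intCast_mem m) (two_pow di k))
    (two_pow dj l)
  obtain rfl := DirectSum.degree_eq_of_mem_mem 𝒜 hb d b0
  exact ⟨m, k, l, q, a, by rwa [zero_add, ← add_mul] at ha, by simp [MZ]⟩

theorem two_C [CharZero (kap W)] [Algebra (RatFunc ℚ) (kap W)] (q : ℚ) :
    algebraMap (RatFunc ℚ) (kap W) (RatFunc.C q) = q :=
  eq_ratCast ((algebraMap (RatFunc ℚ) (kap W)).comp RatFunc.C) q

theorem two_Q : ¬¬(p : ℤ) ∣ 0 ∧ ¬(p : ℤ) ∣ 1 ∧ ∀ a b : ℤ, ¬(p : ℤ) ∣ a → ¬(p : ℤ) ∣ b →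
    ¬(p : ℤ) ∣ a * b := by
  have hp : Prime (p : ℤ) := Nat.prime_iff_prime_int.1 Fact.out
  exact ⟨by simp, hp.not_dvd_one, fun a b ha hb x => (hp.dvd_or_dvd x).elim ha hb⟩

theorem two_Cmem [CharZero (kap W)] [Algebra (RatFunc ℚ) (kap W)] {r : ℕ} (F : Fin r → A)
    (s : Set (Fin r)) {q : ℚ} (hq : q ∈ Zp p) :
    algebraMap (RatFunc ℚ) (kap W) (RatFunc.C q) ∈ (MZ W).fr (denp p F s) := by
  obtain ⟨a, b, hb, rfl⟩ := (mem_Zp p).1 hq
  have := (MZ W).div_mem_fr (T := denp p F s) (md_intCast_mem a) (md_intCast_mem b)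
    (Submonoid.subset_closure (.inr ⟨b, hb, rfl⟩))
  simpa [two_C] using this

theorem TwoChart.spn (h : TwoChart p W e F₀ F₁) [Algebra (RatFunc ℚ) (kap W)]
    (hX : algebraMap (RatFunc ℚ) (kap W) RatFunc.X = th W F₀ / th W F₁) (Λ : Subring (RatFunc ℚ))
    (hC : ∀ q ∈ Zp p, RatFunc.C q ∈ Λ) (hΛ : RatFunc.X ∈ Λ) {T : Submonoid A} (hT : F₁ ∈ T) :
    ∃ t : Finset (kap W), (∀ x ∈ t, x ∈ (MZ W).fr T) ∧ ∀ m : ℤ, ¬(p : ℤ) ∣ m → ∀ j,
      ∀ a ∈ 𝒜 (j * e), th W a / (m * th W F₁ ^ j) ∈ span Λ (t : Set (kap W)) := by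
  classical
  haveI := h.char
  obtain ⟨r, j0, s, hr, hs, k⟩ := h.key1
  have iv : ∀ m : ℤ, ¬(p : ℤ) ∣ m → ∃ ρ : Λ, algebraMap Λ (kap W) ρ = (m : kap W)⁻¹ := fun m hm =>
    ⟨⟨_, hC _ ((mem_Zp p).2 ⟨1, m, hm, rfl⟩)⟩, (two_C _).trans (by simp)⟩
  obtain ⟨ρ, hρ⟩ := iv r hr
  have r0 : r ≠ 0 := fun x => hr (by simp [x])
  have k := k Λ ρ ⟨_, hΛ⟩ (by simp [hρ, r0]) hX
  refine ⟨s.image fun a => th W a / th W F₁ ^ j0, fun x hx => ?_, fun m hm j a ha => ?_⟩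
  · obtain ⟨a, ha, rfl⟩ := Finset.mem_image.1 hx
    rw [← map_pow]
    exact (MZ W).div_mem_fr (hs a ha) (two_pow h.d₁ j0) (pow_mem hT j0)
  · obtain ⟨μ, hμ⟩ := iv m hm
    have := smul_mem _ μ (k j a ha)
    rw [Algebra.smul_def, hμ] at this
    rwa [Finset.coe_image, ← div_div, div_right_comm, div_eq_inv_mul]

/-- the chart rings are finite over polynomials, respectively Laurent polynomials -/
theorem TwoChart.finite (h : TwoChart p W e F₀ F₁) [Algebra (RatFunc ℚ) (kap W)]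
    (hX : algebraMap (RatFunc ℚ) (kap W) RatFunc.X = th W F₀ / th W F₁) :
    ((∀ x ∈ Lam1 p, algebraMap (RatFunc ℚ) (kap W) x ∈ (MZ W).fr (denp p ![F₀, F₁] {1})) ∧
      ∃ t : Finset (kap W), (∀ x ∈ t, x ∈ (MZ W).fr (denp p ![F₀, F₁] {1})) ∧
        ∀ x ∈ (MZ W).fr (denp p ![F₀, F₁] {1}), x ∈ span (Lam1 p) (t : Set (kap W))) ∧
    ((∀ x ∈ Lam p, algebraMap (RatFunc ℚ) (kap W) x ∈ (MZ W).fr (denp p ![F₀, F₁] {0, 1})) ∧
      ∃ t : Finset (kap W), (∀ x ∈ t, x ∈ (MZ W).fr (denp p ![F₀, F₁] {0, 1})) ∧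
        ∀ x ∈ (MZ W).fr (denp p ![F₀, F₁] {0, 1}), x ∈ span (Lam p) (t : Set (kap W))) := by
  haveI := h.char
  obtain ⟨q0, q1, q2⟩ := two_Q (p := p)
  have m1 : F₁ ∈ denp p ![F₀, F₁] {1} := Submonoid.subset_closure (.inl ⟨1, rfl, rfl⟩)
  have m2 : F₁ ∈ denp p ![F₀, F₁] {0, 1} := Submonoid.subset_closure (.inl ⟨1, .inr rfl, rfl⟩)
  have m3 : F₀ ∈ denp p ![F₀, F₁] {0, 1} := Submonoid.subset_closure (.inl ⟨0, .inl rfl, rfl⟩)
  refine ⟨⟨?_, ?_⟩, ?_, ?_⟩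
  · refine fun x hx => (Subring.closure_le (t := Subring.comap _ ((MZ W).fr _))).2 ?_ hx
    rintro _ (⟨q, hq, rfl⟩ | rfl)
    · exact two_Cmem _ _ hq
    · rw [SetLike.mem_coe, Subring.mem_comap, hX]
      exact (MZ W).div_mem_fr h.d₀ h.d₁ m1
  · obtain ⟨t, ht, k⟩ := h.spn hX (Lam1 p) (fun q hq => Subring.subset_closure (.inl ⟨q, hq, rfl⟩))
      (Subring.subset_closure (.inr rfl)) m1
    refine ⟨t, ht, fun x hx => ?_⟩
    rw [← Set.pair_eq_singleton] at hx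
    obtain ⟨m, i, j, hm, a, ha, rfl⟩ := two_fr (F := ![F₀, F₁]) q0 q1 q2 h.d₁ h.d₁ h.not_mem.2
      h.not_mem.2 hx
    rw [mul_assoc, ← pow_add]
    exact k m hm _ a ha
  · refine fun x hx => (Subring.closure_le (t := Subring.comap _ ((MZ W).fr _))).2 ?_ hx
    rintro _ (⟨q, hq, rfl⟩ | rfl | rfl)
    · exact two_Cmem _ _ hq
    · rw [SetLike.mem_coe, Subring.mem_comap, hX]
      exact (MZ W).div_mem_fr h.d₀ h.d₁ m2
    · rw [SetLike.mem_coe, Subring.mem_comap, map_inv₀, hX, inv_div]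
      exact (MZ W).div_mem_fr h.d₁ h.d₀ m3
  · obtain ⟨t, ht, k⟩ := h.spn hX (Lam p) (fun q hq => Subring.subset_closure (.inl ⟨q, hq, rfl⟩))
      (Subring.subset_closure (.inr (.inl rfl))) m2
    refine ⟨t, ht, fun x hx => ?_⟩
    obtain ⟨m, i, j, hm, a, ha, rfl⟩ := two_fr (F := ![F₀, F₁]) q0 q1 q2 h.d₀ h.d₁ h.not_mem.1
      h.not_mem.2 hx
    have := smul_mem _ ((⟨RatFunc.X⁻¹, Subring.subset_closure (.inr (.inr rfl))⟩ : Lam p) ^ i)
      (k m hm _ a ha)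
    convert this using 1
    rw [Algebra.smul_def, map_pow]
    change _ = algebraMap (RatFunc ℚ) (kap W) RatFunc.X⁻¹ ^ i * _
    have := h.ne.1
    have := h.ne.2
    simp only [map_inv₀, hX, inv_div, div_pow, pow_add, Matrix.cons_val_zero, Matrix.cons_val_one]
    by_cases m0 : (m : kap W) = 0
    · simp [m0]
    · field_simp

theorem TwoChart.chart_le {r : ℕ} {F : Fin r → A} (h : TwoChart p W e F₀ F₁)
    (P : ValuationSubring (kap W)) (hP : ∀ m : ℕ, (m : kap W)⁻¹ ∈ P) {j : Fin r} (dj : F j ∈ 𝒜 e)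
    (nj : F j ∉ pr W) (h0 : th W F₀ / th W (F j) ∈ P) (h1 : th W F₁ / th W (F j) ∈ P) :
    ∀ y ∈ reg 𝒜 F {j}, res W y ∈ P := by
  haveI := h.char
  intro y hy
  have hz : ∀ m : ℤ, (m : kap W)⁻¹ ∈ P := fun m => by
    rcases Int.natAbs_eq m with x | x <;> rw [x]
    · simpa only [Int.cast_natCast] using hP _
    · simpa only [Int.cast_neg, Int.cast_natCast, inv_neg] using neg_mem (hP _)
  have f0 : th W (F j) ≠ 0 := mt (th_eq_zero W dj).1 nj
  obtain ⟨r, hr, k⟩ := h.int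
  have k := k P _ ⟨_, hz r⟩ ⟨_, h0⟩ ⟨_, h1⟩ f0 (inv_mul_cancel₀ (Int.cast_ne_zero.2 hr))
    (div_mul_cancel₀ _ f0).symm (div_mul_cancel₀ _ f0).symm
  have hx := (two_res (two_nm (Q := (· ≠ 0)) (by simp) (by rintro _ rfl; exact nj)) hy).2
  rw [← Set.pair_eq_singleton] at hx
  obtain ⟨m, i, l, -, a, ha, e⟩ := two_fr (by simp) one_ne_zero (fun _ _ => mul_ne_zero) dj dj nj nj hx
  obtain ⟨z, hz'⟩ := IsIntegrallyClosed.isIntegral_iff.1 (k _ a ha)
  rw [e, mul_assoc, ← pow_add, ← div_div, div_right_comm, div_eq_mul_inv, ← hz']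
  exact mul_mem z.2 (hz m)

theorem TwoChart.jump_iff {r : ℕ} {F : Fin (r + 2) → A} (h : TwoChart p W e (F 0) (F 1))
    [Algebra (RatFunc ℚ) (kap W)]
    (hX : algebraMap (RatFunc ℚ) (kap W) RatFunc.X = th W (F 0) / th W (F 1))
    (P : ValuationSubring (kap W)) (i j : Fin (r + 2)) :
    Jump F W P i j ↔ i = 0 ∧ j = 1 ∧ Zer P := by
  haveI := h.char
  have c1 : Zer P → F 1 ∉ pr W ∧ ∀ y ∈ reg 𝒜 F {1}, res W y ∈ P := fun z =>
    ⟨h.not_mem.2, h.chart_le P z.1 h.d₁ h.not_mem.2 (hX ▸ (P.mem_or_inv_mem _).resolve_right z.2)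
      (by rw [div_self h.ne.2]; exact one_mem _)⟩
  have l0 : IsLeast {i | F i ∉ pr W} 0 := ⟨h.not_mem.1, fun _ _ => Fin.zero_le _⟩
  have one : ∀ k : Fin (r + 2), k ≠ 0 → 1 ≤ k := fun k hk => Fin.one_le_of_ne_zero hk
  constructor
  · rintro ⟨lt, hi, hj⟩
    obtain rfl := hi.unique l0
    have hP : ∀ m : ℕ, (m : kap W)⁻¹ ∈ P := fun m => by
      rcases eq_or_ne m 0 with rfl | m0
      · simp
      have hT : (m : A) ∈ twoT (· ≠ 0) F {j} :=
        Submonoid.subset_closure (.inr ⟨m, by simpa using m0, by simp⟩)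
      have := hj.1.2 _ ((MX 𝒜).div_mem_fr (SetLike.one_mem_graded 𝒜) (md_natCast_mem m) hT)
      have e := res_div W (SetLike.one_mem_graded 𝒜) (md_natCast_mem m)
        (two_nm (by simp) (by rintro _ rfl; exact hj.1.1) hT)
      rw [map_one (th W), map_natCast (th W), one_div (m : kap W)] at e
      exact e ▸ this
    have z : Zer P := ⟨hP, fun x => lt.not_ge (hj.2 ⟨h.not_mem.1, h.chart_le P hP h.d₀ h.not_mem.1
      (by rw [div_self h.ne.1]; exact one_mem _) (by rwa [hX, inv_div] at x)⟩)⟩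
    exact ⟨rfl, le_antisymm (hj.2 (c1 z)) (one j lt.ne'), z⟩
  · rintro ⟨rfl, rfl, z⟩
    refine ⟨Fin.zero_lt_one, l0, c1 z, fun k hk => one k ?_⟩
    rintro rfl
    have := hk.2 _ ((MX 𝒜).div_mem_fr h.d₁ h.d₀ (Submonoid.subset_closure (.inl ⟨0, rfl, rfl⟩)))
    apply z.2
    rw [hX, inv_div, ← res_div W h.d₁ h.d₀ h.not_mem.1]
    exact this

/-- the traces of the cocycles of `exists_cocycle` converge to the order of the norm -/
theorem isTrace_cong [CharZero A] {r : ℕ} {G : Fin (r + 2) → Fin (r + 2) → A}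
    (h : TwoChart p W e (G 0 0) (G 1 1)) (hG01 : G 0 1 ∈ 𝒜 e) [Algebra (RatFunc ℚ) (kap W)]
    [FiniteDimensional (RatFunc ℚ) (kap W)]
    (hX : algebraMap (RatFunc ℚ) (kap W) RatFunc.X = th W (G 0 0) / th W (G 1 1)) {ν : ℕ} {c : ℤ}
    (hc : ¬(p : ℤ) ∣ c) (hN : ∃ μ ∈ Lam p, Algebra.norm (RatFunc ℚ) (th W (G 0 1) / th W (G 1 1)) =
      (c : RatFunc ℚ) * RatFunc.X ^ ν + (p : RatFunc ℚ) * μ) :
    ∃ s : ℕ, ∀ (k : ℕ) (Z : Cocycle 𝒜 fun α => G α α) (g' ζ : FractionRing A)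
      (l : Fm (FractionRing A) 1),
      g' ∈ frac 𝒜 (denp p (fun α => G α α) {0, 1}) → ζ ∈ frac 𝒜 (denp p (fun α => G α α) {0, 1}) →
      l.On (frac 𝒜 (denp p (fun α => G α α) {0, 1})) →
      g' * (algebraMap A _ (G 0 1) / algebraMap A _ (G 1 1)) = 1 - (p : FractionRing A) ^ k * ζ →
      Z.η 0 1 = (g', ![algebraMap A _ (G 0 1) / algebraMap A _ (G 1 1)]) ::
        l.map (fun x => ((p : FractionRing A) ^ k * x.1, x.2)) →
      ∃ t, IsTrace Z W t ∧ ∃ q ∈ Zp p, (p : ℚ) ^ s * (t - ν) = (p : ℚ) ^ k * q := by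
  haveI := h.char
  have eT : denp p ![G 0 0, G 1 1] {0, 1} = denp p (fun α => G α α) {0, 1} := by
    simp [denp, Set.image_pair]
  have fin := (h.finite hX).2
  rw [eT] at fin
  have hT : denp p (fun α => G α α) {0, 1} ≤ (pr W).primeCompl :=
    two_nm (two_Q (p := p)).1 (by rintro _ (rfl | rfl); exacts [h.not_mem.1, h.not_mem.2])
  have m1 : G 1 1 ∈ denp p (fun α => G α α) {0, 1} :=
    Submonoid.subset_closure (.inl ⟨1, .inr rfl, rfl⟩)
  obtain ⟨s, hs⟩ := trace_cong p _ fin.1 fin.2 ((MZ W).div_mem_fr hG01 h.d₁ m1) hc hN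
  refine ⟨s, fun k Z g' ζ l hg hζ hl e1 e2 => ?_⟩
  have gl := (two_res hT ((MX 𝒜).div_mem_fr hG01 h.d₁ m1)).1
  have rg := res_div W hG01 h.d₁ h.not_mem.2
  have mul : ∀ x ∈ loc W, ∀ y ∈ loc W, res W (x * y) = res W x * res W y := fun x hx y hy => by
    rw [md_res_of_mem W hx, md_res_of_mem W hy, md_res_of_mem W (mul_mem hx hy), ← map_mul]; rfl
  have pk : ∀ x ∈ loc W, res W ((p : FractionRing A) ^ k * x) = (p : kap W) ^ k * res W x :=
    fun x hx => by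
      have m : (p : FractionRing A) ^ k ∈ loc W := pow_mem (natCast_mem _ p) k
      rw [mul _ m _ hx, md_res_of_mem W m, ← map_natCast (IsLocalRing.residue (loc W)), ← map_pow]
      rfl
  have e3 : res W g' * (th W (G 0 1) / th W (G 1 1)) = 1 - (p : kap W) ^ k * res W ζ := by
    have m : (p : FractionRing A) ^ k * ζ ∈ loc W :=
      mul_mem (pow_mem (natCast_mem _ p) k) (two_res hT hζ).1
    rw [← rg, ← pk _ (two_res hT hζ).1]
    refine (mul _ (two_res hT hg).1 _ gl).symm.trans ((congrArg (res W) e1).trans ?_)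
    rw [md_res_of_mem W m, md_res_of_mem W (sub_mem (one_mem _) m),
      ← map_one (IsLocalRing.residue (loc W)), ← map_sub]
    rfl
  obtain ⟨ρ, h1, h2, h3⟩ := hs k _ (two_res hT hg).2 _ (two_res hT hζ).2
    (l.map fun w => (res W w.1, fun a => res W (w.2 a))) (fun x hx => by
      obtain ⟨w, hw, rfl⟩ := List.mem_map.1 hx
      exact ⟨(two_res hT (hl w hw).1).2, fun j => (two_res hT ((hl w hw).2 j)).2⟩) e3
  refine ⟨_, ⟨ρ, rfl, fun P hP => ⟨0, 1, (h.jump_iff hX P 0 1).2 ⟨rfl, rfl, h1 P hP⟩⟩,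
    fun P i j hj => ?_⟩, h3⟩
  obtain ⟨rfl, rfl, z⟩ := (h.jump_iff hX P i j).1 hj
  convert h2 P z using 1
  rw [e2, List.map_cons, List.map_map, List.map_map]
  congr 1
  · congr 1
    funext a
    fin_cases a
    exact rg
  · exact List.map_congr_left fun w hw => Prod.ext (pk _ (two_res hT (hl w hw).1).1) rfl

end

end Pool.Agent.Lib.MP_62d77c_ag
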